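import Pool.Agent.D5.StR
import Pool.Agent.Helper24.PT.PMain

/-!
# D5, module C2 (helper28): two CM surfaces with an exceptional pair of fields and an elliptic curve
-/

set_option autoImplicit false

namespace Pool.Agent.D5

open Module NumberField
open Pool.Agent.Helper7 Pool.Agent.GPC Pool.Agent.Helper39.AF Pool.Agent.Helper24
open Pool.Agent.Helper8 (ML2 ML4)

private def C2_A (B C E : AbVar) : Option Bool → AbVar
  | none => B
  | some false => C
  | some true => E

private def C2_K (K K' K'' : Type) : Option Bool → Type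
  | none => K
  | some false => K'
  | some true => K''

private instance C2_F (K K' K'' : Type) [i1 : Field K] [i2 : Field K'] [i3 : Field K''] :
    ∀ i, Field (C2_K K K' K'' i)
  | none => i1
  | some false => i2
  | some true => i3

private instance C2_N (K K' K'' : Type) [Field K] [Field K'] [Field K'']
    [i1 : NumberField K] [i2 : NumberField K'] [i3 : NumberField K''] :
    ∀ i, NumberField (C2_K K K' K'' i)
  | none => i1
  | some false => i2
  | some true => i3

private def C2_r (r : ℕ) : Option Bool → ℕ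
  | none => 1
  | some false => 1
  | some true => r

private theorem C2_aux (hN : St_N4) {B C E : AbVar} {K K' K'' : Type} [Field K] [Field K']
    [Field K''] [NumberField K] [NumberField K'] [NumberField K''] {r : ℕ}
    (FB : UF (pData B) K 1) (FC : UF (pData C) K' 1) (FE : UF (pData E) K'' r) (hr : 0 < r)
    (G : B.H1 → B.H1 → C.H1 → E.H1 → ℂ) (hG : Gr4 B B C E G) (h1 : IsCMField K)
    (h2 : IsCMField K') (h3 : BadPair K K')
    (h4 : r = 2 ∨ (r = 1 ∧ finrank ℚ K'' = 2 ∧ Cx K'' ∧ EndK FE)) :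
    ∀ x y z w, G x y z w = 0 := by
  let F : ∀ i, UF (pData (C2_A B C E i)) (C2_K K K' K'' i) (C2_r r i) := fun i =>
    match i with
    | none => FB
    | some false => FC
    | some true => FE
  have hpos : ∀ i, 0 < C2_r r i := fun i =>
    match i with
    | none => zero_lt_one
    | some false => zero_lt_one
    | some true => hr
  exact hN (Option Bool) (C2_A B C E) (C2_K K K' K'') (C2_r r) F none (some false) (some true) G
    hG hpos rfl rfl h1 h2 h3.1 h3.2.1 h3.2.2.1 h3.2.2.2.1 h3.2.2.2.2 h4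

/-- [C2] -/
theorem C2_ (hN : St_N4) (hS : St_Sma) (hE1 : St_En1) : St_C2 := by
  intro B C E K K' _ _ _ _ hB hC hE hg hBK hCK hbad G hG
  obtain ⟨iB, ⟨cB⟩⟩ := hBK
  obtain ⟨iC, ⟨cC⟩⟩ := hCK
  obtain ⟨FB⟩ := nonempty_UF1 B K cB
  obtain ⟨FC⟩ := nonempty_UF1 C K' cC
  obtain ⟨K'', _, _, h⟩ := hS E hE (Or.inl hg)
  have key : ∀ x y z w, G x y z w = 0 := by
    rcases h with ⟨⟨FE⟩, hd, hcm⟩ | ⟨⟨FE, -⟩, -, -, -⟩ | ⟨-, -, hgen⟩
    · obtain ⟨iE, -⟩ := hcm
      refine C2_aux hN FB FC FE zero_lt_one G hG iB iC hbad (Or.inr ⟨rfl, ?_, ?_, hE1 E K'' FE hE⟩)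
      · rw [hd, hg]
      · intro σ hσ
        exact IsTotallyComplex.complexEmbedding_not_isReal σ (ComplexEmbedding.isReal_iff.mpr hσ)
    · exact C2_aux hN FB FC FE zero_lt_two G hG iB iC hbad (Or.inl rfl)
    · have h2 : E.g = 2 := hgen.1
      omega
  exact ⟨fun x y z w _ _ _ => key x y z w, fun x y z w _ _ _ => key x y z w,
    fun x y z w _ _ _ => key x y z w, fun x y z w _ _ _ => key x y z w⟩

end Pool.Agent.D5
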