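import Pool.Agent.D5.StR

/-!
# D5: a simple threefold of one of the new types with two elliptic curves or a simple surface
-/

set_option autoImplicit false

namespace Pool.Agent.D5

open Module NumberField
open Pool.Agent.Helper7 Pool.Agent.GPC Pool.Agent.Helper39.AF
open Pool.Agent.Helper8 (ML2 ML4)

/-- an abelian variety with the action of a field -/
structure Dat where
  A : AbVar
  K : Type
  [fK : Field K]
  [nK : NumberField K]
  r : ℕ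
  F : UF (pData A) K r

attribute [instance] Dat.fK Dat.nK

namespace Dat

/-- [N6] for three abelian varieties -/
lemma n6 (h : St_N6) (a c d : Dat) (G : a.A.H1 → a.A.H1 → c.A.H1 → d.A.H1 → ℂ)
    (hG : Gr4 a.A a.A c.A d.A G) (h12 : Al12 G) (ha : a.r = 6) (hKa : finrank ℚ a.K = 1)
    (hc : c.r = 1 ∨ c.r = 2) (hd : d.r = 1 ∨ d.r = 2) :
    ∀ (z : c.A.H1) (w : d.A.H1), ∃ k : ℂ, ∀ x y : a.A.H1, G x y z w = k * (pData a.A).ψ x y := by
  have hr : ∀ i, 0 < (![a, c, d] i).r := by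
    intro i
    fin_cases i
    · show 0 < a.r; omega
    · show 0 < c.r; omega
    · show 0 < d.r; omega
  exact h (Fin 3) (fun i => (![a, c, d] i).A) (fun i => (![a, c, d] i).K)
    (fun i => (![a, c, d] i).r) (fun i => (![a, c, d] i).F) 0 1 2 G hG h12 hr ha hKa hc hd

/-- [N3D] for three abelian varieties -/
lemma n3d (h : St_N3D) (a c d : Dat) (G : a.A.H1 → a.A.H1 → c.A.H1 → d.A.H1 → ℂ)
    (hG : Gr4 a.A a.A c.A d.A G) (h12 : Al12 G) (ha : a.r = 3) (hKa : finrank ℚ a.K = 2)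
    (hxa : Cx a.K) (hc : c.r = 1 ∨ (c.r = 2 ∧ Re c.K)) (hd : d.r = 1 ∨ (d.r = 2 ∧ Re d.K))
    (h0 : c.r = 2 → d.r = 2 → Hom0 c.A d.A) :
    ∀ (z : c.A.H1) (w : d.A.H1), ∃ k : ℂ, ∀ x y : a.A.H1, G x y z w = k * (pData a.A).ψ x y := by
  have hr : ∀ i, 0 < (![a, c, d] i).r := by
    intro i
    fin_cases i
    · show 0 < a.r; omega
    · show 0 < c.r; omega
    · show 0 < d.r; omega
  exact h (Fin 3) (fun i => (![a, c, d] i).A) (fun i => (![a, c, d] i).K)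
    (fun i => (![a, c, d] i).r) (fun i => (![a, c, d] i).F) 0 1 2 G hG h12 hr ha hKa hxa
    (by decide) hc hd h0

/-- [N3S] for two abelian varieties -/
lemma n3s (h : St_N3S) (a c : Dat) (G : a.A.H1 → a.A.H1 → c.A.H1 → c.A.H1 → ℂ)
    (hG : Gr4 a.A a.A c.A c.A G) (h12 : Al12 G) (h34 : Al34 G) (ha : a.r = 3)
    (hKa : finrank ℚ a.K = 2) (hxa : Cx a.K) (hc : c.r = 1 ∨ (c.r = 2 ∧ Re c.K ∧ EndK c.F)) :
    ∀ z w : c.A.H1, ∃ k : ℂ, ∀ x y : a.A.H1, G x y z w = k * (pData a.A).ψ x y := by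
  have hr : ∀ i, 0 < (![a, c] i).r := by
    intro i
    fin_cases i
    · show 0 < a.r; omega
    · show 0 < c.r; omega
  exact h (Fin 2) (fun i => (![a, c] i).A) (fun i => (![a, c] i).K)
    (fun i => (![a, c] i).r) (fun i => (![a, c] i).F) 0 1 G hG h12 h34 hr ha hKa hxa hc

/-- [N31] for two abelian varieties -/
lemma n31 (h : St_N31) (a c : Dat) (G : a.A.H1 → a.A.H1 → a.A.H1 → c.A.H1 → ℂ)
    (hG : Gr4 a.A a.A a.A c.A G) (h12 : Al12 G) (h23 : Al23 G)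
    (ha : (a.r = 6 ∧ finrank ℚ a.K = 1) ∨ (a.r = 3 ∧ finrank ℚ a.K = 2 ∧ Cx a.K))
    (hc : c.r = 2 ∨ (c.r = 1 ∧ finrank ℚ c.K = 4 ∧ Cx c.K ∧ EndK c.F)) :
    ∀ x y z w, G x y z w = 0 := by
  have hr : ∀ i, 0 < (![a, c] i).r := by
    intro i
    fin_cases i
    · show 0 < a.r; omega
    · show 0 < c.r; omega
  exact h (Fin 2) (fun i => (![a, c] i).A) (fun i => (![a, c] i).K)
    (fun i => (![a, c] i).r) (fun i => (![a, c] i).F) 0 1 G hG h12 h23 hr ha hc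

/-- [NG] for two abelian varieties -/
lemma ng (h : St_NG) (a b : Dat)
    (ha : (a.r = 6 ∧ finrank ℚ a.K = 1) ∨ (a.r = 3 ∧ finrank ℚ a.K = 2 ∧ Cx a.K))
    (hb : b.A.IsGenericSurface) (hKb : finrank ℚ b.K = 1) (hrb : b.r = 4) :
    (∀ (G : a.A.H1 → a.A.H1 → b.A.H1 → b.A.H1 → ℂ), Gr4 a.A a.A b.A b.A G →
      Al12 G → ∀ z w : b.A.H1, ∃ k : ℂ, ∀ x y : a.A.H1, G x y z w = k * (pData a.A).ψ x y) ∧
    (∀ (G : a.A.H1 → a.A.H1 → a.A.H1 → b.A.H1 → ℂ), Gr4 a.A a.A a.A b.A G →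
      ∀ x y z w, G x y z w = 0) := by
  have hr : ∀ i, 0 < (![a, b] i).r := by
    intro i
    fin_cases i
    · show 0 < a.r; omega
    · show 0 < b.r; omega
  exact h (Fin 2) (fun i => (![a, b] i).A) (fun i => (![a, b] i).K)
    (fun i => (![a, b] i).r) (fun i => (![a, b] i).F) 0 1 hr ha hb hKb hrb

end Dat

/-- a zero function -/
lemma ho4_zero {A B C D : AbVar} {G : A.H1 → B.H1 → C.H1 → D.H1 → ℂ}
    (h : ∀ x y z w, G x y z w = 0) : Ho4 A B C D G :=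
  ⟨fun x y z w _ _ _ => h x y z w, fun x y z w _ _ _ => h x y z w,
    fun x y z w _ _ _ => h x y z w, fun x y z w _ _ _ => h x y z w⟩

/-- an elliptic curve all of whose endomorphisms are scalar does not have complex multiplication -/
lemma not_cm_of_endK {Y : AbVar} {K : Type} [Field K] [NumberField K] {r : ℕ}
    (F : UF (pData Y) K r) (hE : EndK F) (h1 : finrank ℚ K = 1) (hg : Y.g = 1)
    (K' : Type) [Field K'] [NumberField K'] (hC : IsCMType Y K') : False := by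
  obtain ⟨hcm, ⟨C⟩⟩ := hC
  have hdeg := C.degree
  rw [hg] at hdeg
  have hsc : ∀ y : K, ∃ q : ℚ, y = algebraMap ℚ K q := by
    intro y
    have h2 : finrank ℚ K = 1 := h1
    obtain ⟨c, hc⟩ := (finrank_eq_one_iff_of_nonzero' (1 : K) one_ne_zero).mp h2 y
    exact ⟨c, by rw [← hc, Algebra.smul_def, mul_one]⟩
  have hne : Nontrivial Y.H1 := by
    have : Nonempty (Fin Y.g ⊕ Fin Y.g) := ⟨Sum.inl ⟨0, by omega⟩⟩
    exact (inferInstance : Nontrivial ((Fin Y.g ⊕ Fin Y.g) → ℂ))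
  have hinj : Function.Injective (cmRho C) := (cmRho C).injective
  have hall : ∀ x : K', ∃ q : ℚ, q • (1 : K') = x := by
    intro x
    obtain ⟨y, hy⟩ := hE (C.ρ x) (C.endo x)
    obtain ⟨q, rfl⟩ := hsc y
    refine ⟨q, ?_⟩
    apply hinj
    have e1 : cmRho C (q • (1 : K')) = F.ρ (algebraMap ℚ K q) := by
      rw [Algebra.smul_def, mul_one]
      exact congrArg (fun f => f q) (RingHom.ext_rat ((cmRho C).comp (algebraMap ℚ K'))
        (RingHom.comp F.ρ (algebraMap ℚ K)))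
    rw [e1]
    apply LinearMap.ext
    intro v
    rw [cmRho_apply]
    exact (hy v).symm
  have h3 : finrank ℚ K' ≤ 1 := finrank_le_one (1 : K') hall
  omega

lemma cx_of_cm {Y : AbVar} {K : Type} [Field K] [NumberField K] (h : IsCMType Y K) : Cx K := by
  obtain ⟨hcm, _⟩ := h
  intro σ hσ
  exact IsTotallyComplex.complexEmbedding_not_isReal σ (ComplexEmbedding.isReal_iff.mpr hσ)

theorem C3_ (hSma : St_Sma) (hEn1 : St_En1) (hN6 : St_N6) (hN3D : St_N3D) (hN3S : St_N3S)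
    (hN31 : St_N31) (hNG : St_NG) (hHoK : St_HoK) : St_C3 := by
  intro A hA hgA K _ _ hK
  constructor
  · intro Y Z hY hZ hgY hgZ hiso G hG h12
    apply hHoK A Y Z G hG
    obtain ⟨KY, iY, jY, hYc⟩ := hSma Y hY (Or.inl hgY)
    obtain ⟨KZ, iZ, jZ, hZc⟩ := hSma Z hZ (Or.inl hgZ)
    -- the data for the elliptic curves
    have hYd : ∃ F : Dat, ∃ e : F.A = Y, F.r = 1 ∨
        (F.r = 2 ∧ Re F.K ∧ EndK F.F ∧ finrank ℚ F.K = 1) := by
      rcases hYc with ⟨⟨F⟩, _, _⟩ | ⟨⟨F, hF⟩, h1, h2, _⟩ | ⟨_, _, h3⟩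
      · exact ⟨⟨Y, KY, 1, F⟩, rfl, Or.inl rfl⟩
      · refine ⟨⟨Y, KY, 2, F⟩, rfl, Or.inr ⟨rfl, h2, ?_, ?_⟩⟩
        · rcases hF with h | h
          · exact h
          · exact absurd h.1 (by omega)
        · show finrank ℚ KY = 1
          rw [h1, hgY]
      · exact absurd h3.1 (by omega)
    have hZd : ∃ F : Dat, ∃ e : F.A = Z, F.r = 1 ∨
        (F.r = 2 ∧ Re F.K ∧ EndK F.F ∧ finrank ℚ F.K = 1) := by
      rcases hZc with ⟨⟨F⟩, _, _⟩ | ⟨⟨F, hF⟩, h1, h2, _⟩ | ⟨_, _, h3⟩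
      · exact ⟨⟨Z, KZ, 1, F⟩, rfl, Or.inl rfl⟩
      · refine ⟨⟨Z, KZ, 2, F⟩, rfl, Or.inr ⟨rfl, h2, ?_, ?_⟩⟩
        · rcases hF with h | h
          · exact h
          · exact absurd h.1 (by omega)
        · show finrank ℚ KZ = 1
          rw [h1, hgZ]
      · exact absurd h3.1 (by omega)
    obtain ⟨y, rfl, hy⟩ := hYd
    obtain ⟨z, rfl, hz⟩ := hZd
    rcases hK with ⟨⟨FA⟩, hK1⟩ | ⟨⟨FA⟩, hK2, hKx⟩
    · refine Dat.n6 hN6 ⟨A, K, 6, FA⟩ y z G hG h12 rfl hK1 ?_ ?_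
      · rcases hy with h | h
        · exact Or.inl h
        · exact Or.inr h.1
      · rcases hz with h | h
        · exact Or.inl h
        · exact Or.inr h.1
    · refine Dat.n3d hN3D ⟨A, K, 3, FA⟩ y z G hG h12 rfl hK2 hKx ?_ ?_ ?_
      · rcases hy with h | h
        · exact Or.inl h
        · exact Or.inr ⟨h.1, h.2.1⟩
      · rcases hz with h | h
        · exact Or.inl h
        · exact Or.inr ⟨h.1, h.2.1⟩
      · intro hy2 hz2 f hf v
        by_contra hne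
        have hb := bijective_of_simple hY hZ f hf ⟨v, hne⟩
        obtain ⟨K', i', j', hc⟩ := hiso ⟨FA⟩ ⟨f, hf, hb⟩
        rcases hy with h | ⟨_, _, h3, h4⟩
        · omega
        · exact not_cm_of_endK y.F h3 h4 hgY K' hc
  · intro B hB hgB hnq
    obtain ⟨KB, iB, jB, hBc⟩ := hSma B hB (Or.inr hgB)
    -- the data for the threefold
    have hAd : ∃ a : Dat, ∃ e : a.A = A, (a.r = 6 ∧ finrank ℚ a.K = 1) ∨
        (a.r = 3 ∧ finrank ℚ a.K = 2 ∧ Cx a.K ∧ Nonempty (UF (pData A) K 3)) := by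
      rcases hK with ⟨⟨FA⟩, hK1⟩ | ⟨⟨FA⟩, hK2, hKx⟩
      · exact ⟨⟨A, K, 6, FA⟩, rfl, Or.inl ⟨rfl, hK1⟩⟩
      · exact ⟨⟨A, K, 3, FA⟩, rfl, Or.inr ⟨rfl, hK2, hKx, ⟨FA⟩⟩⟩
    obtain ⟨a, rfl, ha⟩ := hAd
    have ha' : (a.r = 6 ∧ finrank ℚ a.K = 1) ∨ (a.r = 3 ∧ finrank ℚ a.K = 2 ∧ Cx a.K) := by
      rcases ha with h | h
      · exact Or.inl h
      · exact Or.inr ⟨h.1, h.2.1, h.2.2.1⟩
    rcases hBc with ⟨⟨F⟩, h1, h2⟩ | ⟨⟨F, hF⟩, h1, h2, _⟩ | ⟨⟨F⟩, h1, h2⟩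
    · constructor
      · intro G hG h12 h34
        apply hHoK a.A B B G hG
        rcases ha with h | h
        · exact Dat.n6 hN6 a ⟨B, KB, 1, F⟩ ⟨B, KB, 1, F⟩ G hG h12 h.1 h.2 (Or.inl rfl) (Or.inl rfl)
        · exact Dat.n3s hN3S a ⟨B, KB, 1, F⟩ G hG h12 h34 h.1 h.2.1 h.2.2.1 (Or.inl rfl)
      · intro G hG h12 h23
        refine ho4_zero (Dat.n31 hN31 a ⟨B, KB, 1, F⟩ G hG h12 h23 ha'
          (Or.inr ⟨rfl, ?_, cx_of_cm h2, hEn1 B KB F hB⟩))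
        show finrank ℚ KB = 4
        rw [h1, hgB]
    · constructor
      · intro G hG h12 h34
        apply hHoK a.A B B G hG
        rcases ha with h | h
        · exact Dat.n6 hN6 a ⟨B, KB, 2, F⟩ ⟨B, KB, 2, F⟩ G hG h12 h.1 h.2 (Or.inr rfl) (Or.inr rfl)
        · exact Dat.n3s hN3S a ⟨B, KB, 2, F⟩ G hG h12 h34 h.1 h.2.1 h.2.2.1
            (Or.inr ⟨rfl, h2, hF.resolve_right (hnq h.2.2.2)⟩)
      · intro G hG h12 h23
        exact ho4_zero (Dat.n31 hN31 a ⟨B, KB, 2, F⟩ G hG h12 h23 ha' (Or.inl rfl))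
    · have hng := Dat.ng hNG a ⟨B, KB, 4, F⟩ ha' h2 h1 rfl
      constructor
      · intro G hG h12 _
        exact hHoK a.A B B G hG (hng.1 G hG h12)
      · intro G hG _ _
        exact ho4_zero (hng.2 G hG)

end Pool.Agent.D5
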