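import Pool.Agent.D5.StR

/-!
# D5, module C4: a simple fourfold of one of the new types and an elliptic curve
-/

set_option autoImplicit false

namespace Pool.Agent.D5

open Module NumberField
open Pool.Agent.Helper7 Pool.Agent.GPC Pool.Agent.Helper39.AF
open Pool.Agent.Helper8 (ML2 ML4)

/-- the only embedding of the rational field is real -/
private theorem C4_re {K : Type} [Field K] [NumberField K] (h : finrank ℚ K = 1) : Re K := by
  intro σ
  ext x
  obtain ⟨c, hc⟩ := (finrank_eq_one_iff_of_nonzero' (1 : K) one_ne_zero).1 h x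
  have h1 : σ x = (c : ℂ) := by
    rw [← hc, Rat.smul_one_eq_cast, map_ratCast]
  rw [ComplexEmbedding.conjugate_coe_eq, h1]
  exact map_ratCast _ c

/-- no homomorphisms -/
private theorem C4_hom {A E : AbVar} (hA : A.IsSimple) (hE : E.IsSimple) (h4 : A.g = 4)
    (h1 : E.g = 1) : Hom0 A E := by
  intro f hf v
  by_contra hv
  have hb := bijective_of_simple hA hE f hf ⟨v, hv⟩
  have h2 := (LinearEquiv.ofBijective (hf.linear.mk' f) hb).finrank_eq
  rw [finrank_H1, finrank_H1, h4, h1] at h2
  omega

section fam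

variable (A E : AbVar) (K K' : Type)

/-- a family of two abelian varieties -/
private def C4_A : Bool → AbVar := fun b => Bool.rec E A b

/-- a family of two fields -/
private def C4_K : Bool → Type := fun b => Bool.rec K' K b

private def C4_r (r r' : ℕ) : Bool → ℕ := fun b => Bool.rec r' r b

private theorem C4_pos {r r' : ℕ} (h : 0 < r) (h' : 0 < r') : ∀ b, 0 < C4_r r r' b := by
  intro b
  cases b
  · exact h'
  · exact h

@[instance_reducible]
private noncomputable def C4_f [Field K] [Field K'] : ∀ b, Field (C4_K K K' b) := fun b =>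
  Bool.rec (motive := fun b => Field (C4_K K K' b)) (inferInstanceAs (Field K'))
    (inferInstanceAs (Field K)) b

private theorem C4_n [Field K] [Field K'] [NumberField K] [NumberField K'] :
    ∀ b, @NumberField (C4_K K K' b) (C4_f K K' b) := by
  intro b
  cases b
  · exact inferInstanceAs (NumberField K')
  · exact inferInstanceAs (NumberField K)

private noncomputable def C4_F [Field K] [Field K'] [NumberField K] [NumberField K'] {r r' : ℕ}
    (F : UF (pData A) K r) (F' : UF (pData E) K' r') :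
    ∀ b, @UF _ _ _ _ (pData (C4_A A E b)) (C4_K K K' b) (C4_f K K' b) (C4_n K K' b)
      (C4_r r r' b) := fun b =>
  Bool.rec (motive := fun b => @UF _ _ _ _ (pData (C4_A A E b)) (C4_K K K' b) (C4_f K K' b)
    (C4_n K K' b) (C4_r r r' b)) F' F b

end fam

/-- [C4] -/
theorem C4_ (hS : St_Sma) (hN1E : St_N1E) (hN1P : St_N1P) (hN1Q : St_N1Q) (hN1O : St_N1O) :
    St_C4 := by
  intro A E hA hE h4 h1 hK G hG h12 h23
  have key : ∀ x y z w, G x y z w = 0 := by
    obtain ⟨K, i1, i2, hK⟩ := hK
    obtain ⟨K', j1, j2, hK'⟩ := hS E hE (Or.inl h1)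
    rcases hK' with ⟨⟨F'⟩, -, -⟩ | ⟨⟨F', -⟩, hf', hRe, -⟩ | ⟨-, -, hg, -⟩
    · -- complex multiplication
      rcases hK with ⟨⟨F⟩, hf⟩ | ⟨⟨F⟩, hf, hRC⟩ | ⟨⟨F⟩, hf, hC⟩
      · have hre : Re K := C4_re hf
        exact @hN1E Bool _ _ (C4_A A E) (C4_K K K') (C4_f K K') (C4_n K K') (C4_r 8 1)
          (C4_F A E K K' F F') true false G hG h12 h23 (C4_pos (by norm_num) (by norm_num)) rfl
          (Or.inl hre)
      · refine @hN1E Bool _ _ (C4_A A E) (C4_K K K') (C4_f K K') (C4_n K K') (C4_r 4 1)
          (C4_F A E K K' F F') true false G hG h12 h23 (C4_pos (by norm_num) (by norm_num)) rfl ?_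
        rcases hRC with hR | hC
        · exact Or.inl hR
        · exact Or.inr (Or.inr ⟨rfl, hC, hf⟩)
      · exact @hN1E Bool _ _ (C4_A A E) (C4_K K K') (C4_f K K') (C4_n K K') (C4_r 2 1)
          (C4_F A E K K' F F') true false G hG h12 h23 (C4_pos (by norm_num) (by norm_num)) rfl
          (Or.inr (Or.inl rfl))
    · -- no complex multiplication
      rw [h1] at hf'
      rcases hK with ⟨⟨F⟩, hf⟩ | ⟨⟨F⟩, hf, hRC⟩ | ⟨⟨F⟩, hf, hC⟩
      · exact @hN1O Bool _ _ (C4_A A E) (C4_K K K') (C4_f K K') (C4_n K K') (C4_r 8 2)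
          (C4_F A E K K' F F') true false G hG h12 h23 (C4_pos (by norm_num) (by norm_num)) rfl
          rfl hf
      · exact @hN1Q Bool _ _ (C4_A A E) (C4_K K K') (C4_f K K') (C4_n K K') (C4_r 4 2)
          (C4_F A E K K' F F') true false G hG h12 h23 (C4_pos (by norm_num) (by norm_num)) rfl
          hf' h1 rfl hf hRC hA h4
      · exact @hN1P Bool _ _ (C4_A A E) (C4_K K K') (C4_f K K') (C4_n K K') (C4_r 2 2)
          (C4_F A E K K' F F') true false G hG h12 h23 (C4_pos (by norm_num) (by norm_num)) rfl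
          hRe rfl hC hf (by simp) (C4_hom hA hE h4 h1)
    · omega
  exact ⟨fun x y z w _ _ _ => key x y z w, fun x y z w _ _ _ => key x y z w,
    fun x y z w _ _ _ => key x y z w, fun x y z w _ _ _ => key x y z w⟩

end Pool.Agent.D5
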