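import Pool.Agent.D5.StR
import Pool.Agent.Helper7.PrimeZero
import Pool.Agent.Helper8.T1.Closure

/-!
# D5, module Clo: CM fields of degree four and six have different closures
-/

set_option autoImplicit false

namespace Pool.Agent.D5

open Module NumberField
open Pool.Agent.Helper7.WM (phi phi_apply phi_conj exists_order)
open Pool.Agent.Helper84 (act)

/-- the elements fixed by an automorphism -/
def Clo_fixI (τ : ℂ ≃+* ℂ) : IntermediateField ℚ ℂ where
  carrier := {z | τ z = z}
  mul_mem' := by
    intro a b ha hb
    rw [Set.mem_ofPred_eq] at *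
    rw [map_mul, ha, hb]
  add_mem' := by
    intro a b ha hb
    rw [Set.mem_ofPred_eq] at *
    rw [map_add, ha, hb]
  algebraMap_mem' := by
    intro q
    rw [Set.mem_ofPred_eq, eq_ratCast, map_ratCast]
  inv_mem' := by
    intro a ha
    rw [Set.mem_ofPred_eq] at *
    rw [map_inv₀, ha]

theorem Clo_fix (K K' : Type) [Field K] [NumberField K] [Field K'] [NumberField K']
    (h : IntermediateField.normalClosure ℚ K ℂ = IntermediateField.normalClosure ℚ K' ℂ)
    (τ : ℂ ≃+* ℂ) (hτ : ∀ s : K' →+* ℂ, ∀ x, τ (s x) = s x) (s : K →+* ℂ) (x : K) :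
    τ (s x) = s x := by
  have h1 : IntermediateField.normalClosure ℚ K' ℂ ≤ Clo_fixI τ := by
    refine normalClosure_le_iff.mpr fun f => ?_
    rintro _ ⟨y, rfl⟩
    exact hτ (f : K' →+* ℂ) y
  have h2 : s x ∈ IntermediateField.normalClosure ℚ K ℂ :=
    AlgHom.fieldRange_le_normalClosure (F := ℚ) (L := ℂ) s.toRatAlgHom ⟨x, rfl⟩
  rw [h] at h2
  exact h1 h2

/-- a permutation of two conjugate pairs -/
theorem Clo_pow4 {E : Type} [Fintype E] [DecidableEq E] (hcard : Fintype.card E = 4) (c : E → E)
    (hcc : ∀ s, c (c s) = s) (hne : ∀ s, c s ≠ s) (P : Equiv.Perm E)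
    (hP : ∀ s, P (c s) = c (P s)) (s : E) : (P ^ 4) s = s := by
  have h2 : P (P s) = s ∨ P (P s) = c s := by
    by_cases h1 : P s = s
    · left
      rw [h1, h1]
    by_cases h3 : P s = c s
    · left
      rw [h3, hP, h3, hcc]
    set t := P s with ht
    have hst : s ≠ t := fun h => h1 h.symm
    have hsct : s ≠ c t := fun h => h3 (by rw [h, hcc])
    have hu : ({s, c s, t, c t} : Finset E) = Finset.univ := by
      rw [← Finset.card_eq_iff_eq_univ, hcard]
      rw [Finset.card_insert_of_notMem, Finset.card_insert_of_notMem,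
        Finset.card_insert_of_notMem, Finset.card_singleton]
      · rw [Finset.mem_singleton]
        exact fun h => hne t h.symm
      · rw [Finset.mem_insert, Finset.mem_singleton]
        rintro (h | h)
        · exact h3 h.symm
        · exact hst (by rw [← hcc s, h, hcc])
      · rw [Finset.mem_insert, Finset.mem_insert, Finset.mem_singleton]
        rintro (h | h | h)
        · exact hne s h.symm
        · exact hst h
        · exact hsct h
    have h4 : P t ∈ ({s, c s, t, c t} : Finset E) := by
      rw [hu]
      exact Finset.mem_univ _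
    rw [Finset.mem_insert, Finset.mem_insert, Finset.mem_insert, Finset.mem_singleton] at h4
    rcases h4 with h | h | h | h
    · exact Or.inl h
    · exact Or.inr h
    · exact absurd (P.injective (h.trans ht)) (fun h' => hst h'.symm)
    · rw [ht, ← hP] at h
      exact absurd (P.injective h) (fun h' => h3 h')
  have h5 : (P ^ 4) s = P (P (P (P s))) := rfl
  rw [h5]
  rcases h2 with h | h
  · rw [h, h]
  · rw [h, hP, hP, h, hcc]

theorem Clo_main (K K' : Type) [Field K] [NumberField K] [Field K'] [NumberField K']
    (_hK : IsCMField K) (hK' : IsCMField K') (h6 : finrank ℚ K = 6) (h4 : finrank ℚ K' = 4) :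
    IntermediateField.normalClosure ℚ K ℂ ≠ IntermediateField.normalClosure ℚ K' ℂ := by
  classical
  intro h
  obtain ⟨τ, hτ⟩ := exists_order (K := K) 3 Nat.prime_three (by rw [h6])
  have hc : Fintype.card (K' →+* ℂ) = 4 := by
    rw [NumberField.Embeddings.card, h4]
  have h1 : ∀ s : K' →+* ℂ, ((phi (K := K') τ) ^ 4) s = s := fun s =>
    Clo_pow4 hc ComplexEmbedding.conjugate
      (fun s => ComplexEmbedding.involutive_conjugate K' s)
      (fun s hs => by
        have h2 : ComplexEmbedding.IsReal s := hs
        have h3 := IsTotallyComplex.complexEmbedding_not_isReal s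
        exact h3 h2)
      (phi (K := K') τ) (fun s => by
        have := phi_conj τ s 1
        rw [pow_one] at this
        exact this) s
  have h2 : ∀ s : K' →+* ℂ, ∀ x, (τ ^ 4) (s x) = s x := by
    intro s x
    have h3 := h1 s
    rw [← map_pow, phi_apply] at h3
    exact RingHom.congr_fun h3 x
  have h3 := Clo_fix K K' h (τ ^ 4) h2
  have h5 : (phi (K := K) τ) ^ 4 = 1 := by
    rw [← map_pow]
    ext s x
    exact h3 s x
  have h7 : orderOf (phi (K := K) τ) ∣ 4 := orderOf_dvd_of_pow_eq_one h5
  rw [hτ] at h7
  omega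

/-- [Clo] -/
theorem Clo_ : St_Clo := fun K K' _ _ _ _ h1 h2 h3 h4 => Clo_main K K' h1 h2 h3 h4

end Pool.Agent.D5
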