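import Pool.Agent.D5.StN
import Pool.Agent.Helper8.T1.Closure

/-!
# D5: an automorphism of `ℂ` which is complex conjugation on two non-abelian quartic CM fields
-/

set_option autoImplicit false

namespace Pool.Agent.D5

open Module NumberField

section core

variable {X : Type} [Fintype X] [DecidableEq X]

private lemma Com_sign (a b : Equiv.Perm X) : Equiv.Perm.sign (a * b * a⁻¹ * b⁻¹) = 1 := by
  simp only [map_mul, map_inv]
  rw [mul_comm (Equiv.Perm.sign a) (Equiv.Perm.sign b)]
  group

private lemma Com_inv (c : Equiv.Perm X) (x : X) : c (c⁻¹ x) = x := Equiv.apply_symm_apply c x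

private lemma Com_two (hc : Fintype.card X = 2) (p : Equiv.Perm X) (hp : Equiv.Perm.sign p = 1)
    (x : X) : p x = x := by
  by_contra hne
  have h1 : p = Equiv.swap x (p x) := by
    have hcov : ∀ y, y = x ∨ y = p x := by
      intro y
      by_contra hcon
      push Not at hcon
      have h2 : ({y, x, p x} : Finset X).card = 3 := by
        rw [Finset.card_eq_three]
        exact ⟨y, x, p x, hcon.1, hcon.2, fun h => hne h.symm, rfl⟩
      have h3 := Finset.card_le_univ ({y, x, p x} : Finset X)
      omega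
    ext y
    rcases hcov y with rfl | h
    · rw [Equiv.swap_apply_left]
    · rw [h, Equiv.swap_apply_right]
      rcases hcov (p (p x)) with h4 | h4
      · exact h4
      · exact absurd (p.injective h4) hne
  rw [h1, Equiv.Perm.sign_swap (fun h => hne h.symm)] at hp
  exact absurd hp (by decide)

private lemma Com_four (J : X → X) (hJJ : ∀ x, J (J x) = x) (hJ : ∀ x, J x ≠ x)
    (hc : Fintype.card X = 4) (a b : Equiv.Perm X) (ha : ∀ x, a (J x) = J (a x))
    (hb : ∀ x, b (J x) = J (b x)) :
    (∀ x, (a * b * a⁻¹ * b⁻¹) x = x) ∨ ∀ x, (a * b * a⁻¹ * b⁻¹) x = J x := by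
  have hinv : ∀ c : Equiv.Perm X, (∀ x, c (J x) = J (c x)) → ∀ x, c⁻¹ (J x) = J (c⁻¹ x) := by
    intro c h x
    apply c.injective
    rw [Com_inv, h, Com_inv]
  have hne : Nonempty X := Fintype.card_pos_iff.mp (by omega)
  obtain ⟨s⟩ := hne
  obtain ⟨t, ht⟩ : ∃ t, t ∉ ({s, J s} : Finset X) := by
    by_contra hcon
    push Not at hcon
    have h1 : ({s, J s} : Finset X) = Finset.univ := Finset.eq_univ_iff_forall.mpr hcon
    have h2 : ({s, J s} : Finset X).card ≤ 2 := Finset.card_le_two
    rw [h1, Finset.card_univ] at h2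
    omega
  simp only [Finset.mem_insert, Finset.mem_singleton, not_or] at ht
  have hts : J t ≠ s := fun h => ht.2 (by rw [← h, hJJ])
  have hts' : J t ≠ J s := fun h => ht.1 (by rw [← hJJ t, h, hJJ])
  have hcov : ∀ x, x = s ∨ x = J s ∨ x = t ∨ x = J t := by
    intro x
    by_contra hcon
    push Not at hcon
    have h2 : ({x, s, J s, t, J t} : Finset X).card = 5 := by
      rw [Finset.card_insert_of_notMem, Finset.card_insert_of_notMem, Finset.card_insert_of_notMem,
        Finset.card_insert_of_notMem, Finset.card_singleton]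
      · simpa using (hJ t).symm
      · simp only [Finset.mem_insert, Finset.mem_singleton, not_or]
        exact ⟨fun h => ht.2 h.symm, fun h => hts' h.symm⟩
      · simp only [Finset.mem_insert, Finset.mem_singleton, not_or]
        exact ⟨fun h => hJ s h.symm, fun h => ht.1 h.symm, fun h => hts h.symm⟩
      · simp only [Finset.mem_insert, Finset.mem_singleton, not_or]
        exact ⟨hcon.1, hcon.2.1, hcon.2.2.1, hcon.2.2.2⟩
    have h3 := Finset.card_le_univ ({x, s, J s, t, J t} : Finset X)
    omega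
  -- the class of an element
  let q : X → Bool := fun x => decide (x = s ∨ x = J s)
  have hq : ∀ x y, q x = q y ↔ (y = x ∨ y = J x) := by
    have hs : q s = true := by simp [q]
    have hJs : q (J s) = true := by simp [q]
    have hqt : q t = false := by simp [q, ht.1, ht.2]
    have hJt : q (J t) = false := by simp [q, hts, hts']
    have k1 : s ≠ t := fun h => ht.1 h.symm
    have k2 : s ≠ J t := fun h => hts h.symm
    have k3 : J s ≠ t := fun h => ht.2 h.symm
    have k4 : J s ≠ J t := fun h => hts' h.symm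
    intro x y
    rcases hcov x with rfl | rfl | rfl | rfl <;> rcases hcov y with h | h | h | h <;>
      subst h <;> simp_all
  have hpres : ∀ c : Equiv.Perm X, (∀ x, c (J x) = J (c x)) → ∀ x y,
      (q (c x) = q (c y) ↔ q x = q y) := by
    intro c h x y
    rw [hq, hq, ← h, c.injective.eq_iff, c.injective.eq_iff]
  have hxor : ∀ c : Equiv.Perm X, (∀ x, c (J x) = J (c x)) → ∃ e : Bool, ∀ x,
      q (c x) = xor (q x) e := by
    intro c h
    refine ⟨xor (q s) (q (c s)), fun x => ?_⟩
    have h1 := hpres c h x s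
    revert h1
    cases q (c x) <;> cases q (c s) <;> cases q x <;> cases q s <;> simp
  have hR : ∀ x, (a * b * a⁻¹ * b⁻¹) x = x ∨ (a * b * a⁻¹ * b⁻¹) x = J x := by
    intro x
    rw [← hq]
    obtain ⟨e1, he1⟩ := hxor a ha
    obtain ⟨e2, he2⟩ := hxor b hb
    have h1 : ∀ y, q (a⁻¹ y) = xor (q y) e1 := by
      intro y
      have h2 := he1 (a⁻¹ y)
      rw [Com_inv] at h2
      rw [h2]
      cases q (a⁻¹ y) <;> cases e1 <;> rfl
    have h2 : ∀ y, q (b⁻¹ y) = xor (q y) e2 := by
      intro y
      have h2 := he2 (b⁻¹ y)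
      rw [Com_inv] at h2
      rw [h2]
      cases q (b⁻¹ y) <;> cases e2 <;> rfl
    rw [Equiv.Perm.mul_apply, Equiv.Perm.mul_apply, Equiv.Perm.mul_apply, he1, he2, h1, h2]
    cases q x <;> cases e1 <;> cases e2 <;> rfl
  have hpJ : ∀ x, (a * b * a⁻¹ * b⁻¹) (J x) = J ((a * b * a⁻¹ * b⁻¹) x) := by
    intro x
    rw [Equiv.Perm.mul_apply, Equiv.Perm.mul_apply, Equiv.Perm.mul_apply, Equiv.Perm.mul_apply,
      Equiv.Perm.mul_apply, Equiv.Perm.mul_apply, hinv b hb, hinv a ha, hb, ha]
  have hsg := Com_sign a b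
  generalize a * b * a⁻¹ * b⁻¹ = p at hR hpJ hsg ⊢
  rcases hR s with h1 | h1 <;> rcases hR t with h2 | h2
  · left
    intro x
    rcases hcov x with rfl | rfl | rfl | rfl
    · exact h1
    · rw [hpJ, h1]
    · exact h2
    · rw [hpJ, h2]
  · exfalso
    have h3 : p = Equiv.swap t (J t) := by
      ext x
      rcases hcov x with rfl | rfl | rfl | rfl
      · rw [h1, Equiv.swap_apply_of_ne_of_ne (fun h => ht.1 h.symm) (fun h => hts h.symm)]
      · rw [hpJ, h1, Equiv.swap_apply_of_ne_of_ne (fun h => ht.2 h.symm) (fun h => hts' h.symm)]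
      · rw [h2, Equiv.swap_apply_left]
      · rw [hpJ, h2, Equiv.swap_apply_right, hJJ]
    rw [h3, Equiv.Perm.sign_swap (fun h => hJ t h.symm)] at hsg
    exact absurd hsg (by decide)
  · exfalso
    have h3 : p = Equiv.swap s (J s) := by
      ext x
      rcases hcov x with rfl | rfl | rfl | rfl
      · rw [h1, Equiv.swap_apply_left]
      · rw [hpJ, h1, Equiv.swap_apply_right, hJJ]
      · rw [h2, Equiv.swap_apply_of_ne_of_ne ht.1 ht.2]
      · rw [hpJ, h2, Equiv.swap_apply_of_ne_of_ne hts hts']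
    rw [h3, Equiv.Perm.sign_swap (fun h => hJ s h.symm)] at hsg
    exact absurd hsg (by decide)
  · right
    intro x
    rcases hcov x with rfl | rfl | rfl | rfl
    · exact h1
    · rw [hpJ, h1]
    · exact h2
    · rw [hpJ, h2]

end core

private lemma Com_conj {K : Type} [Field K] [NumberField K] [IsCMField K] (s : K →+* ℂ) :
    ComplexEmbedding.conjugate s = s.comp (IsCMField.complexConj K : K →+* K) := by
  ext x
  rw [ComplexEmbedding.conjugate_coe_eq]
  exact (IsCMField.complexEmbedding_complexConj K s x).symm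

private lemma Com_ne {K : Type} [Field K] [NumberField K] [IsCMField K] (s : K →+* ℂ) :
    ComplexEmbedding.conjugate s ≠ s := by
  intro h
  apply IsCMField.complexConj_ne_one K
  ext x
  apply s.injective
  have h1 := RingHom.congr_fun h x
  rw [Com_conj] at h1
  exact h1

private lemma Com_aK {K : Type} [Field K] [NumberField K] [IsCMField K] (τ : ℂ ≃+* ℂ)
    (s : K →+* ℂ) : Helper8.T1.aK K τ (ComplexEmbedding.conjugate s) =
      ComplexEmbedding.conjugate (Helper8.T1.aK K τ s) := by
  rw [Com_conj, Com_conj]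
  rfl

private lemma Com_cl {K K' : Type} [Field K] [NumberField K] [Field K'] [NumberField K']
    (h : IntermediateField.normalClosure ℚ K ℂ = IntermediateField.normalClosure ℚ K' ℂ)
    (g : ℂ ≃+* ℂ) (hg : ∀ s : K' →+* ℂ, (g : ℂ →+* ℂ).comp s = s) (s : K →+* ℂ) :
    (g : ℂ →+* ℂ).comp s = s := by
  let F : IntermediateField ℚ ℂ :=
    { carrier := {x | g x = x}
      mul_mem' := by
        intro x y hx hy
        show g (x * y) = x * y
        rw [map_mul, show g x = x from hx, show g y = y from hy]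
      add_mem' := by
        intro x y hx hy
        show g (x + y) = x + y
        rw [map_add, show g x = x from hx, show g y = y from hy]
      algebraMap_mem' := by
        intro q
        show g (algebraMap ℚ ℂ q) = algebraMap ℚ ℂ q
        exact (RingHom.congr_fun (Subsingleton.elim ((g : ℂ →+* ℂ).comp (algebraMap ℚ ℂ))
          (algebraMap ℚ ℂ)) q)
      inv_mem' := by
        intro x hx
        show g x⁻¹ = x⁻¹
        rw [map_inv₀, show g x = x from hx] }
  have h1 : IntermediateField.normalClosure ℚ K' ℂ ≤ F := by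
    refine normalClosure_le_iff.mpr fun f => ?_
    rintro _ ⟨x, rfl⟩
    exact RingHom.congr_fun (hg (f : K' →+* ℂ)) x
  ext x
  have h2 : s x ∈ IntermediateField.normalClosure ℚ K ℂ := by
    have h3 := AlgHom.fieldRange_le_normalClosure (F := ℚ) (L := ℂ) s.toRatAlgHom
    exact h3 ⟨x, rfl⟩
  rw [h] at h2
  exact h1 h2

/-- [Com] -/
theorem Com_ : St_Com := by
  classical
  intro K K' E _ _ _ _ _ _ hK hK' h4 h4' hnab _ hcl h2
  have hcK : Fintype.card (K →+* ℂ) = 4 := by rw [NumberField.Embeddings.card, h4]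
  have hcK' : Fintype.card (K' →+* ℂ) = 4 := by rw [NumberField.Embeddings.card, h4']
  have hcE : Fintype.card (E →+* ℂ) = 2 := by rw [NumberField.Embeddings.card, h2]
  obtain ⟨τ, τ', s0, hs0⟩ : ∃ (τ τ' : ℂ ≃+* ℂ) (s : K →+* ℂ),
      Helper8.T1.aK K τ (Helper8.T1.aK K τ' s) ≠ Helper8.T1.aK K τ' (Helper8.T1.aK K τ s) := by
    by_contra hcon
    push Not at hcon
    exact hnab (Helper8.T1.abelian_of_comm hcon)
  have hmap : ∀ (M : Type) [Field M], Helper8.T1.aK M (τ * τ' * τ⁻¹ * τ'⁻¹) =
      Helper8.T1.aK M τ * Helper8.T1.aK M τ' * (Helper8.T1.aK M τ)⁻¹ *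
        (Helper8.T1.aK M τ')⁻¹ := by
    intro M _
    rw [map_mul, map_mul, map_mul, map_inv, map_inv]
  have hJ : ∀ (M : Type) [Field M] (s : M →+* ℂ),
      ComplexEmbedding.conjugate (ComplexEmbedding.conjugate s) = s := by
    intro M _ s
    ext x
    rw [ComplexEmbedding.conjugate_coe_eq, ComplexEmbedding.conjugate_coe_eq, Complex.conj_conj]
  have hne : ¬ ∀ s : K →+* ℂ, Helper8.T1.aK K (τ * τ' * τ⁻¹ * τ'⁻¹) s = s := by
    intro h
    apply hs0
    have h5 := h (Helper8.T1.aK K τ' (Helper8.T1.aK K τ s0))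
    rw [hmap] at h5
    simpa [Equiv.Perm.mul_apply] using h5
  have h6 : ∀ s : K →+* ℂ, Helper8.T1.aK K (τ * τ' * τ⁻¹ * τ'⁻¹) s =
      ComplexEmbedding.conjugate s := by
    rcases Com_four (X := K →+* ℂ) ComplexEmbedding.conjugate (hJ K) Com_ne hcK
      (Helper8.T1.aK K τ) (Helper8.T1.aK K τ') (Com_aK τ) (Com_aK τ') with h7 | h7
    · exact absurd (by rw [hmap]; exact h7) hne
    · rw [hmap]; exact h7
  refine ⟨τ * τ' * τ⁻¹ * τ'⁻¹, h6, ?_, ?_⟩
  · rcases Com_four (X := K' →+* ℂ) ComplexEmbedding.conjugate (hJ K') Com_ne hcK'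
      (Helper8.T1.aK K' τ) (Helper8.T1.aK K' τ') (Com_aK τ) (Com_aK τ') with h7 | h7
    · exfalso
      rw [← hmap] at h7
      exact hne fun s => Com_cl hcl _ h7 s
    · rw [← hmap] at h7
      exact h7
  · intro s
    have h8 := Com_two hcE (Helper8.T1.aK E (τ * τ' * τ⁻¹ * τ'⁻¹))
      (by rw [hmap]; exact Com_sign _ _) s
    exact h8

end Pool.Agent.D5
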