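import Pool.Agent.D5.StU

/-!
# D5: a simple fourfold is not the third symmetric power of an elliptic curve
-/

set_option autoImplicit false

namespace Pool.Agent.D5

open Module NumberField LieAlgebra
open Pool.Agent.Helper7 Pool.Agent.GPC Pool.Agent.Helper24

section tri

variable {κ κ' : Type} [Fintype κ] [DecidableEq κ] [Fintype κ'] [DecidableEq κ'] {ϖ : ℂ}
  (P : PData κ ϖ) (P' : PData κ' ϖ)

/-- the trilinear map with given rational coordinates -/
noncomputable def CuR_tri (y : P.ι × P.ι × P.ι × P'.ι → ℚ) :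
    (κ → ℂ) →ₗ[ℂ] (κ → ℂ) →ₗ[ℂ] (κ → ℂ) →ₗ[ℂ] (κ' → ℂ) :=
  P.bB.constr ℂ fun p => P.bB.constr ℂ fun q => P.bB.constr ℂ fun r =>
    ∑ s, (y (p, q, r, s) : ℂ) • P'.bB s

theorem CuR_tri_basis (y : P.ι × P.ι × P.ι × P'.ι → ℚ) (p q r : P.ι) :
    CuR_tri P P' y (P.bB p) (P.bB q) (P.bB r) = ∑ s, (y (p, q, r, s) : ℂ) • P'.bB s := by
  unfold CuR_tri
  rw [Basis.constr_basis, Basis.constr_basis, Basis.constr_basis]

/-- values at rational vectors -/
theorem CuR_tri_rat (y : P.ι × P.ι × P.ι × P'.ι → ℚ) (u v w : κ → ℂ) (hu : u ∈ P.Q)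
    (hv : v ∈ P.Q) (hw : w ∈ P.Q) : CuR_tri P P' y u v w ∈ P'.Q := by
  have h0 : ∀ p q r, CuR_tri P P' y (P.bB p) (P.bB q) (P.bB r) ∈ P'.Q := by
    intro p q r
    rw [CuR_tri_basis]
    exact Submodule.sum_mem _ fun s _ => P'.rat_smul_mem _ _ (P'.basis_mem s)
  have hs : ∀ (a : ℚ) (x : κ → ℂ), a • x = (a : ℂ) • x := by
    intro a x
    rw [← algebraMap_smul ℂ a x]
    rfl
  have h1 : ∀ p q, CuR_tri P P' y (P.bB p) (P.bB q) w ∈ P'.Q := by
    intro p q
    unfold PData.Q at hw
    induction hw using Submodule.span_induction with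
    | mem x hx =>
      obtain ⟨r, rfl⟩ := hx
      exact h0 p q r
    | zero => rw [map_zero]; exact Submodule.zero_mem _
    | add a b _ _ ha hb => rw [map_add]; exact Submodule.add_mem _ ha hb
    | smul a x _ hx => rw [hs, map_smul]; exact P'.rat_smul_mem _ _ hx
  have h2 : ∀ p, CuR_tri P P' y (P.bB p) v w ∈ P'.Q := by
    intro p
    unfold PData.Q at hv
    induction hv using Submodule.span_induction with
    | mem x hx =>
      obtain ⟨r, rfl⟩ := hx
      exact h1 p r
    | zero => rw [map_zero, LinearMap.zero_apply]; exact Submodule.zero_mem _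
    | add a b _ _ ha hb => rw [map_add, LinearMap.add_apply]; exact Submodule.add_mem _ ha hb
    | smul a x _ hx =>
      rw [hs, map_smul, LinearMap.smul_apply]
      exact P'.rat_smul_mem _ _ hx
  unfold PData.Q at hu
  induction hu using Submodule.span_induction with
  | mem x hx =>
    obtain ⟨r, rfl⟩ := hx
    exact h2 r
  | zero =>
    rw [map_zero, LinearMap.zero_apply, LinearMap.zero_apply]
    exact Submodule.zero_mem _
  | add a b _ _ ha hb =>
    rw [map_add, LinearMap.add_apply, LinearMap.add_apply]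
    exact Submodule.add_mem _ ha hb
  | smul a x _ hx =>
    rw [hs, map_smul, LinearMap.smul_apply, LinearMap.smul_apply]
    exact P'.rat_smul_mem _ _ hx

/-- decomposition of a trilinear map -/
theorem CuR_dec (φ : (κ → ℂ) →ₗ[ℂ] (κ → ℂ) →ₗ[ℂ] (κ → ℂ) →ₗ[ℂ] (κ' → ℂ)) :
    ∃ (m : ℕ) (c : Fin m → ℂ) (y : Fin m → P.ι × P.ι × P.ι × P'.ι → ℚ),
      LinearIndependent ℚ c ∧ ∀ u v w, φ u v w = ∑ l, c l • CuR_tri P P' (y l) u v w := by
  obtain ⟨m, c, y, hc, hy⟩ := exists_rat_decomp (X := P.ι × P.ι × P.ι × P'.ι)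
    (fun t => P'.bB.repr (φ (P.bB t.1) (P.bB t.2.1) (P.bB t.2.2.1)) t.2.2.2)
  refine ⟨m, c, y, hc, ?_⟩
  have h1 : φ = ∑ l, c l • CuR_tri P P' (y l) := by
    apply P.bB.ext
    intro p
    apply P.bB.ext
    intro q
    apply P.bB.ext
    intro r
    rw [← P'.bB.sum_repr (φ (P.bB p) (P.bB q) (P.bB r))]
    simp only [LinearMap.sum_apply, LinearMap.smul_apply, CuR_tri_basis, Finset.smul_sum, smul_smul]
    rw [Finset.sum_comm]
    refine Finset.sum_congr rfl fun s _ => ?_
    rw [← Finset.sum_smul]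
    congr 1
    exact hy (p, q, r, s)
  intro u v w
  rw [h1]
  simp only [LinearMap.sum_apply, LinearMap.smul_apply]

end tri

/-- [CuR] -/
theorem CuR_ (h : St_Irr) : St_CuR := by
  classical
  intro I _ _ A n k α hB hD a e ha hga hge φ hs1 hs2 hφ
  have hϖ : (2 * Real.pi * Complex.I : ℂ) ≠ 0 := by
    simp [Real.pi_ne_zero]
  by_contra hne
  set P : PData (Fin (A e).g ⊕ Fin (A e).g) (2 * Real.pi * Complex.I) := pData (A e) with hP
  set P' : PData (Fin (A a).g ⊕ Fin (A a).g) (2 * Real.pi * Complex.I) := pData (A a) with hP'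
  obtain ⟨m, c, y, hc, hsum⟩ := CuR_dec P P' φ
  -- one component is not zero
  obtain ⟨l, hl⟩ : ∃ l, CuR_tri P P' (y l) ≠ 0 := by
    by_contra hcon
    push Not at hcon
    apply hne
    refine LinearMap.ext fun u => LinearMap.ext fun v => LinearMap.ext fun w => ?_
    rw [hsum]
    simp only [hcon, LinearMap.zero_apply, smul_zero, Finset.sum_const_zero]
  set ψ := CuR_tri P P' (y l) with hψ
  -- symmetry
  have hsy1 : ∀ p q r, ψ (P.bB p) (P.bB q) (P.bB r) = ψ (P.bB q) (P.bB p) (P.bB r) := by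
    intro p q r
    have h1 := vec_eq_zero_of_indep P'.bB c hc
      (fun l => CuR_tri P P' (y l) (P.bB p) (P.bB q) (P.bB r) -
        CuR_tri P P' (y l) (P.bB q) (P.bB p) (P.bB r)) (fun l =>
        Submodule.sub_mem _ (CuR_tri_rat P P' (y l) _ _ _ (P.basis_mem p) (P.basis_mem q)
          (P.basis_mem r)) (CuR_tri_rat P P' (y l) _ _ _ (P.basis_mem q) (P.basis_mem p)
          (P.basis_mem r))) (by
        simp only [smul_sub, Finset.sum_sub_distrib]
        rw [← hsum, ← hsum, hs1, sub_self]) l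
    exact sub_eq_zero.1 h1
  have hsy2 : ∀ p q r, ψ (P.bB p) (P.bB q) (P.bB r) = ψ (P.bB p) (P.bB r) (P.bB q) := by
    intro p q r
    have h1 := vec_eq_zero_of_indep P'.bB c hc
      (fun l => CuR_tri P P' (y l) (P.bB p) (P.bB q) (P.bB r) -
        CuR_tri P P' (y l) (P.bB p) (P.bB r) (P.bB q)) (fun l =>
        Submodule.sub_mem _ (CuR_tri_rat P P' (y l) _ _ _ (P.basis_mem p) (P.basis_mem q)
          (P.basis_mem r)) (CuR_tri_rat P P' (y l) _ _ _ (P.basis_mem p) (P.basis_mem r)
          (P.basis_mem q))) (by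
        simp only [smul_sub, Finset.sum_sub_distrib]
        rw [← hsum, ← hsum, hs2, sub_self]) l
    exact sub_eq_zero.1 h1
  -- equivariance at rational symmetries
  have heq : ∀ X, IsInv n (PA A) α X → IsRatl (PA A) X → ∀ p q r,
      X.1 a (ψ (P.bB p) (P.bB q) (P.bB r)) = ψ (X.1 e (P.bB p)) (P.bB q) (P.bB r) +
        ψ (P.bB p) (X.1 e (P.bB q)) (P.bB r) + ψ (P.bB p) (P.bB q) (X.1 e (P.bB r)) -
        X.2 • ψ (P.bB p) (P.bB q) (P.bB r) := by
    intro X hX hXr p q r
    obtain ⟨x2, hx2⟩ := hXr.2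
    have hm := fun (l : Fin m) (u v w) (hu : u ∈ P.Q) (hv : v ∈ P.Q) (hw : w ∈ P.Q) =>
      CuR_tri_rat P P' (y l) u v w hu hv hw
    have hXe : ∀ v ∈ P.Q, X.1 e v ∈ P.Q := fun v hv => hXr.1 e v hv
    have hXa : ∀ v ∈ P'.Q, X.1 a v ∈ P'.Q := fun v hv => hXr.1 a v hv
    have h1 := vec_eq_zero_of_indep P'.bB c hc
      (fun l => X.1 a (CuR_tri P P' (y l) (P.bB p) (P.bB q) (P.bB r)) -
        (CuR_tri P P' (y l) (X.1 e (P.bB p)) (P.bB q) (P.bB r) +
        CuR_tri P P' (y l) (P.bB p) (X.1 e (P.bB q)) (P.bB r) +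
        CuR_tri P P' (y l) (P.bB p) (P.bB q) (X.1 e (P.bB r)) -
        X.2 • CuR_tri P P' (y l) (P.bB p) (P.bB q) (P.bB r))) (fun l => by
        refine Submodule.sub_mem _ (hXa _ (hm l _ _ _ (P.basis_mem p) (P.basis_mem q)
          (P.basis_mem r))) (Submodule.sub_mem _ (Submodule.add_mem _ (Submodule.add_mem _
          (hm l _ _ _ (hXe _ (P.basis_mem p)) (P.basis_mem q) (P.basis_mem r))
          (hm l _ _ _ (P.basis_mem p) (hXe _ (P.basis_mem q)) (P.basis_mem r)))
          (hm l _ _ _ (P.basis_mem p) (P.basis_mem q) (hXe _ (P.basis_mem r)))) ?_)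
        rw [hx2]
        exact P'.rat_smul_mem _ _ (hm l _ _ _ (P.basis_mem p) (P.basis_mem q)
          (P.basis_mem r))) (by
        have h2 := hφ X hX (P.bB p) (P.bB q) (P.bB r)
        simp only [hsum] at h2
        rw [map_sum] at h2
        simp only [map_smul] at h2
        simp only [smul_sub, smul_add, Finset.sum_sub_distrib, Finset.sum_add_distrib]
        rw [h2, Finset.smul_sum]
        have h3 : ∀ l, c l • X.2 • CuR_tri P P' (y l) (P.bB p) (P.bB q) (P.bB r) =
            X.2 • c l • CuR_tri P P' (y l) (P.bB p) (P.bB q) (P.bB r) := fun l => smul_comm _ _ _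
        simp only [h3]
        rw [sub_self]) l
    exact sub_eq_zero.1 h1
  -- the rational span
  let S : Set (Fin (A a).g ⊕ Fin (A a).g → ℂ) :=
    {z | ∃ p q r, z = ψ (P.bB p) (P.bB q) (P.bB r)}
  let U : Submodule ℚ (A a).H1 := Submodule.span ℚ S
  have hU0 : ∀ u v w, u ∈ P.Q → v ∈ P.Q → w ∈ P.Q → ψ u v w ∈ Submodule.span ℚ S := by
    have hs : ∀ (a' : ℚ) (x : Fin (A e).g ⊕ Fin (A e).g → ℂ), a' • x = (a' : ℂ) • x := by
      intro a' x
      rw [← algebraMap_smul ℂ a' x]
      rfl
    have hs' : ∀ (a' : ℚ) (x : Fin (A a).g ⊕ Fin (A a).g → ℂ), (a' : ℂ) • x = a' • x := by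
      intro a' x
      rw [← algebraMap_smul ℂ a' x]
      rfl
    intro u v w hu hv hw
    have h1 : ∀ p q, ψ (P.bB p) (P.bB q) w ∈ Submodule.span ℚ S := by
      intro p q
      unfold PData.Q at hw
      induction hw using Submodule.span_induction with
      | mem x hx =>
        obtain ⟨r, rfl⟩ := hx
        exact Submodule.subset_span ⟨p, q, r, rfl⟩
      | zero => rw [map_zero]; exact Submodule.zero_mem _
      | add a b _ _ ha hb => rw [map_add]; exact Submodule.add_mem _ ha hb
      | smul a x _ hx => rw [hs, map_smul, hs']; exact Submodule.smul_mem _ _ hx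
    have h2 : ∀ p, ψ (P.bB p) v w ∈ Submodule.span ℚ S := by
      intro p
      unfold PData.Q at hv
      induction hv using Submodule.span_induction with
      | mem x hx =>
        obtain ⟨r, rfl⟩ := hx
        exact h1 p r
      | zero => rw [map_zero, LinearMap.zero_apply]; exact Submodule.zero_mem _
      | add a b _ _ ha hb => rw [map_add, LinearMap.add_apply]; exact Submodule.add_mem _ ha hb
      | smul a x _ hx =>
        rw [hs, map_smul, LinearMap.smul_apply, hs']
        exact Submodule.smul_mem _ _ hx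
    unfold PData.Q at hu
    induction hu using Submodule.span_induction with
    | mem x hx =>
      obtain ⟨r, rfl⟩ := hx
      exact h2 r
    | zero =>
      rw [map_zero, LinearMap.zero_apply, LinearMap.zero_apply]
      exact Submodule.zero_mem _
    | add a b _ _ ha hb =>
      rw [map_add, LinearMap.add_apply, LinearMap.add_apply]
      exact Submodule.add_mem _ ha hb
    | smul a x _ hx =>
      rw [hs, map_smul, LinearMap.smul_apply, LinearMap.smul_apply, hs']
      exact Submodule.smul_mem _ _ hx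
  have hUQ : U ≤ P'.Q := by
    apply Submodule.span_le.2
    rintro _ ⟨p, q, r, rfl⟩
    exact CuR_tri_rat P P' (y l) _ _ _ (P.basis_mem p) (P.basis_mem q) (P.basis_mem r)
  have hUst : ∀ X, IsInv n (PA A) α X → IsRatl (PA A) X → ∀ u ∈ U, X.1 a u ∈ U := by
    intro X hX hXr u hu
    have hs' : ∀ (a' : ℚ) (x : Fin (A a).g ⊕ Fin (A a).g → ℂ), (a' : ℂ) • x = a' • x := by
      intro a' x
      rw [← algebraMap_smul ℂ a' x]
      rfl
    obtain ⟨x2, hx2⟩ := hXr.2
    have hXe : ∀ v ∈ P.Q, X.1 e v ∈ P.Q := fun v hv => hXr.1 e v hv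
    induction hu using Submodule.span_induction with
    | mem x hx =>
      obtain ⟨p, q, r, rfl⟩ := hx
      rw [heq X hX hXr]
      refine Submodule.sub_mem _ (Submodule.add_mem _ (Submodule.add_mem _ ?_ ?_) ?_) ?_
      · exact hU0 _ _ _ (hXe _ (P.basis_mem p)) (P.basis_mem q) (P.basis_mem r)
      · exact hU0 _ _ _ (P.basis_mem p) (hXe _ (P.basis_mem q)) (P.basis_mem r)
      · exact hU0 _ _ _ (P.basis_mem p) (P.basis_mem q) (hXe _ (P.basis_mem r))
      · rw [hx2, hs']
        exact Submodule.smul_mem _ _ (hU0 _ _ _ (P.basis_mem p) (P.basis_mem q) (P.basis_mem r))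
    | zero => rw [map_zero]; exact Submodule.zero_mem _
    | add a b _ _ ha hb => rw [map_add]; exact Submodule.add_mem _ ha hb
    | smul b x _ hx =>
      have h1 : b • x = (b : ℂ) • x := (hs' b x).symm
      rw [h1, map_smul, hs']
      exact Submodule.smul_mem _ _ hx
  rcases h I A n k α hB hD a ha U hUQ hUst with hU | hU
  · -- the component is zero
    apply hl
    apply P.bB.ext
    intro p
    apply P.bB.ext
    intro q
    apply P.bB.ext
    intro r
    have h1 : ψ (P.bB p) (P.bB q) (P.bB r) ∈ U := Submodule.subset_span ⟨p, q, r, rfl⟩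
    rw [hU, Submodule.mem_bot] at h1
    exact h1
  · -- dimensions
    have hcard : Fintype.card P.ι = 2 := by
      rw [← Module.finrank_eq_card_basis P.bB, Module.finrank_pi, Fintype.card_sum,
        Fintype.card_fin, hge]
    have hdim : Module.finrank ℂ (Fin (A a).g ⊕ Fin (A a).g → ℂ) = 8 := by
      rw [Module.finrank_pi, Fintype.card_sum, Fintype.card_fin, hga]
    let E : P.ι ≃ Fin 2 := Fintype.equivFinOfCardEq hcard
    let g : Fin 2 → Fin 2 → Fin 2 → (Fin (A a).g ⊕ Fin (A a).g → ℂ) := fun i j t =>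
      ψ (P.bB (E.symm i)) (P.bB (E.symm j)) (P.bB (E.symm t))
    have hg1 : ∀ i j t, g i j t = g j i t := fun i j t => hsy1 _ _ _
    have hg2 : ∀ i j t, g i j t = g i t j := fun i j t => hsy2 _ _ _
    let T : Finset (Fin (A a).g ⊕ Fin (A a).g → ℂ) := {g 0 0 0, g 0 0 1, g 0 1 1, g 1 1 1}
    have hgT : ∀ i j t, g i j t ∈ T := by
      intro i j t
      have h000 : g 0 0 0 ∈ T := by simp [T]
      have h001 : g 0 0 1 ∈ T := by simp [T]
      have h011 : g 0 1 1 ∈ T := by simp [T]
      have h111 : g 1 1 1 ∈ T := by simp [T]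
      fin_cases i <;> fin_cases j <;> fin_cases t
      · exact h000
      · exact h001
      · change g 0 1 0 ∈ T
        rw [hg2]
        exact h001
      · exact h011
      · change g 1 0 0 ∈ T
        rw [hg1, hg2]
        exact h001
      · change g 1 0 1 ∈ T
        rw [hg1]
        exact h011
      · change g 1 1 0 ∈ T
        rw [hg2, hg1]
        exact h011
      · exact h111
    have hST : S ⊆ (T : Set (Fin (A a).g ⊕ Fin (A a).g → ℂ)) := by
      rintro _ ⟨p, q, r, rfl⟩
      have h1 := hgT (E p) (E q) (E r)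
      simp only [g, Equiv.symm_apply_apply] at h1
      exact h1
    have htop : (⊤ : Submodule ℂ (Fin (A a).g ⊕ Fin (A a).g → ℂ)) ≤
        Submodule.span ℂ (T : Set (Fin (A a).g ⊕ Fin (A a).g → ℂ)) := by
      rw [← P'.bB.span_eq]
      apply Submodule.span_le.2
      rintro _ ⟨s, rfl⟩
      have h1 : P'.bB s ∈ U := by
        rw [hU]
        exact P'.basis_mem s
      have h2 : U ≤ (Submodule.span ℂ (T : Set (Fin (A a).g ⊕ Fin (A a).g → ℂ))).restrictScalars ℚ := by
        apply Submodule.span_le.2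
        intro z hz
        exact Submodule.subset_span (hST hz)
      exact h2 h1
    have h1 : Module.finrank ℂ (Submodule.span ℂ (T : Set (Fin (A a).g ⊕ Fin (A a).g → ℂ))) ≤
        T.card := finrank_span_finset_le_card T
    have h2 : T.card ≤ 4 := Finset.card_le_four
    have h3 : Submodule.span ℂ (T : Set (Fin (A a).g ⊕ Fin (A a).g → ℂ)) = ⊤ := top_le_iff.1 htop
    rw [h3, finrank_top, hdim] at h1
    omega

end Pool.Agent.D5
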