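import Pool.Agent.D5.StR

/-!
# D5: orthogonal decompositions and sums of some summands ([Dec], [Sub])
-/

set_option autoImplicit false

namespace Pool.Agent.D5

open Module NumberField
open Pool.Agent.Helper7 Pool.Agent.GPC Pool.Agent.Helper39.AF Pool.Agent.Helper71.AF

theorem Dec_ : St_Dec := by
  intro X
  classical
  induction hg : X.g using Nat.strong_induction_on generalizing X with
  | _ g ih =>
    subst hg
    by_cases h0 : X.g = 0
    · refine ⟨Empty, inferInstance, fun j => j.elim, fun j => j.elim, fun j => j.elim, ?_⟩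
      refine ⟨⟨fun j => j.elim, fun j => j.elim, fun j => j.elim, fun j => j.elim, fun x => ?_,
        fun j => j.elim, fun j => j.elim, fun j => j.elim⟩, fun j => j.elim⟩
      funext a
      have : IsEmpty (Fin X.g ⊕ Fin X.g) := by rw [h0]; infer_instance
      exact isEmptyElim a
    by_cases hs : X.IsSimple
    · refine ⟨Unit, inferInstance, fun _ => X, fun _ v => v, fun _ v => v, ?_⟩
      refine ⟨⟨fun _ => isMor_id X, fun _ => isMor_id X, fun _ _ => rfl,
        fun j k hjk => absurd (Subsingleton.elim j k) hjk, fun x => by simp, fun _ => hs,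
        fun _ => h0, fun _ _ _ => rfl⟩, fun j k hjk => absurd (Subsingleton.elim j k) hjk⟩
    obtain ⟨e, he, hid, hsym, hne0, hne1⟩ := exists_idem X hs
    -- the complementary idempotent
    let el : X.H1 →ₗ[ℂ] X.H1 := he.linear.mk' e
    have hel : ∀ v, el v = e v := fun _ => rfl
    let e' : X.H1 → X.H1 := fun v => v - e v
    have hE' : X.IsEnd e' := by
      have h1 : IsLinearMap ℂ e' := (LinearMap.id - el : X.H1 →ₗ[ℂ] X.H1).isLinear
      have h2 : X.IsMor X e' := by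
        refine isMor_of X X h1 ?_ ?_
        · intro v hv
          rw [isBetti_iff] at hv ⊢
          exact Submodule.sub_mem _ hv ((isBetti_iff X _).mp (he.betti v ((isBetti_iff X v).mpr hv)))
        · intro v hv j
          exact (hv j).sub (he.deRham v hv j)
      exact (isEnd_iff X _).mpr h2
    have hid' : ∀ v, e' (e' v) = e' v := by
      intro v
      show (v - e v) - el (v - e v) = v - e v
      rw [map_sub, hel, hel, hid, sub_self, sub_zero]
    have hsym' : X.IsAdjoint e' e' := by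
      intro u v
      show X.polForm (u - e u) v = X.polForm u (v - e v)
      have h1 : X.polForm (e u) v = X.polForm u (e v) := hsym u v
      rw [map_sub, LinearMap.sub_apply, map_sub, h1]
    have hne1' : ∃ v, e' v ≠ v := by
      obtain ⟨v, hv⟩ := hne0
      refine ⟨v, fun h => hv ?_⟩
      have h1 : v - e v = v := h
      exact sub_eq_self.mp h1
    obtain ⟨Y₁, ι₁, π₁, hι₁, hπ₁, hπι₁, hιπ₁, hpol₁⟩ := sub_abVar X e he hid hsym
    obtain ⟨Y₂, ι₂, π₂, hι₂, hπ₂, hπι₂, hιπ₂, hpol₂⟩ := sub_abVar X e' hE' hid' hsym'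
    have hlt₁ : Y₁.g < X.g := g_lt_of_mor hι₁ hπι₁ hιπ₁ hne1
    have hlt₂ : Y₂.g < X.g := g_lt_of_mor hι₂ hπι₂ hιπ₂ hne1'
    obtain ⟨J₁, _, B₁, a₁, b₁, D₁⟩ := ih Y₁.g hlt₁ Y₁ rfl
    obtain ⟨J₂, _, B₂, a₂, b₂, D₂⟩ := ih Y₂.g hlt₂ Y₂ rfl
    have he1 : ∀ y, e (ι₁ y) = ι₁ y := by
      intro y
      rw [← hιπ₁, hπι₁]
    have he2 : ∀ y, e (ι₂ y) = 0 := by
      intro y
      have h2 : ι₂ y = e' (ι₂ y) := by rw [← hιπ₂, hπι₂]
      rw [h2]
      show el (ι₂ y - e (ι₂ y)) = 0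
      rw [map_sub, hel, hel, hid, sub_self]
    have h12 : ∀ y, π₁ (ι₂ y) = 0 := by
      intro y
      have h1 : ι₁ (π₁ (ι₂ y)) = 0 := by
        rw [hιπ₁, he2]
      have h2 := congrArg π₁ h1
      rw [hπι₁, hπ₁.linear.map_zero] at h2
      exact h2
    have h21 : ∀ y, π₂ (ι₁ y) = 0 := by
      intro y
      have h1 : ι₂ (π₂ (ι₁ y)) = 0 := by
        rw [hιπ₂]
        show ι₁ y - e (ι₁ y) = 0
        rw [he1, sub_self]
      have h2 := congrArg π₂ h1
      rw [hπι₂, hπ₂.linear.map_zero] at h2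
      exact h2
    have o12 : ∀ u v, X.pol (ι₁ u) (ι₂ v) = 0 := by
      intro u v
      have h1 : X.polForm (e (ι₁ u)) (ι₂ v) = X.polForm (ι₁ u) (e (ι₂ v)) := hsym _ _
      rw [he1, he2, map_zero] at h1
      exact h1
    have o21 : ∀ u v, X.pol (ι₂ u) (ι₁ v) = 0 := by
      intro u v
      have h1 : X.polForm (e (ι₂ u)) (ι₁ v) = X.polForm (ι₂ u) (e (ι₁ v)) := hsym _ _
      rw [he1, he2, map_zero, LinearMap.zero_apply] at h1
      exact h1.symm
    refine ⟨J₁ ⊕ J₂, inferInstance, Sum.elim B₁ B₂,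
      fun j => match j with
        | .inl a => fun y => ι₁ (a₁ a y)
        | .inr b => fun y => ι₂ (a₂ b y),
      fun j => match j with
        | .inl a => fun x => b₁ a (π₁ x)
        | .inr b => fun x => b₂ b (π₂ x), ?_⟩
    refine ⟨⟨?_, ?_, ?_, ?_, ?_, ?_, ?_, ?_⟩, ?_⟩
    · rintro (j | j)
      · exact isMor_comp hι₁ (D₁.dec.morι j)
      · exact isMor_comp hι₂ (D₂.dec.morι j)
    · rintro (j | j)
      · exact isMor_comp (D₁.dec.morπ j) hπ₁
      · exact isMor_comp (D₂.dec.morπ j) hπ₂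
    · rintro (j | j) y
      · show b₁ j (π₁ (ι₁ (a₁ j y))) = y
        rw [hπι₁, D₁.dec.πι]
      · show b₂ j (π₂ (ι₂ (a₂ j y))) = y
        rw [hπι₂, D₂.dec.πι]
    · rintro (j | j) (k | k) hjk y
      · show b₁ j (π₁ (ι₁ (a₁ k y))) = 0
        rw [hπι₁]
        exact D₁.dec.off j k (fun h => hjk (congrArg _ h)) y
      · show b₁ j (π₁ (ι₂ (a₂ k y))) = 0
        rw [h12, (D₁.dec.morπ j).linear.map_zero]
      · show b₂ j (π₂ (ι₁ (a₁ k y))) = 0
        rw [h21, (D₂.dec.morπ j).linear.map_zero]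
      · show b₂ j (π₂ (ι₂ (a₂ k y))) = 0
        rw [hπι₂]
        exact D₂.dec.off j k (fun h => hjk (congrArg _ h)) y
    · intro x
      rw [Fintype.sum_sum_type]
      show (∑ j, ι₁ (a₁ j (b₁ j (π₁ x)))) + (∑ j, ι₂ (a₂ j (b₂ j (π₂ x)))) = x
      have h1 : (∑ j, ι₁ (a₁ j (b₁ j (π₁ x)))) = ι₁ (π₁ x) := by
        have h2 := map_sum (hι₁.linear.mk' ι₁) (fun j => a₁ j (b₁ j (π₁ x))) Finset.univ
        rw [D₁.dec.sum] at h2
        exact h2.symm
      have h3 : (∑ j, ι₂ (a₂ j (b₂ j (π₂ x)))) = ι₂ (π₂ x) := by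
        have h2 := map_sum (hι₂.linear.mk' ι₂) (fun j => a₂ j (b₂ j (π₂ x))) Finset.univ
        rw [D₂.dec.sum] at h2
        exact h2.symm
      rw [h1, h3, hιπ₁, hιπ₂]
      show e x + (x - e x) = x
      abel
    · rintro (j | j)
      · exact D₁.dec.simple j
      · exact D₂.dec.simple j
    · rintro (j | j)
      · exact D₁.dec.pos j
      · exact D₂.dec.pos j
    · rintro (j | j) u v
      · show X.pol (ι₁ (a₁ j u)) (ι₁ (a₁ j v)) = (B₁ j).pol u v
        rw [hpol₁, D₁.dec.pol]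
      · show X.pol (ι₂ (a₂ j u)) (ι₂ (a₂ j v)) = (B₂ j).pol u v
        rw [hpol₂, D₂.dec.pol]
    · rintro (j | j) (k | k) hjk u v
      · show X.pol (ι₁ (a₁ j u)) (ι₁ (a₁ k v)) = 0
        rw [hpol₁]
        exact D₁.orth j k (fun h => hjk (congrArg _ h)) u v
      · exact o12 _ _
      · exact o21 _ _
      · show X.pol (ι₂ (a₂ j u)) (ι₂ (a₂ k v)) = 0
        rw [hpol₂]
        exact D₂.orth j k (fun h => hjk (congrArg _ h)) u v

theorem Sub_ : St_Sub := by
  intro X J _ _ B ι π D S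
  classical
  let il : ∀ j, (B j).H1 →ₗ[ℂ] X.H1 := fun j => (D.dec.morι j).linear.mk' (ι j)
  let pl : ∀ j, X.H1 →ₗ[ℂ] (B j).H1 := fun j => (D.dec.morπ j).linear.mk' (π j)
  have hil : ∀ j y, il j y = ι j y := fun _ _ => rfl
  have hpl : ∀ j x, pl j x = π j x := fun _ _ => rfl
  let el : X.H1 →ₗ[ℂ] X.H1 := ∑ j ∈ S, il j ∘ₗ pl j
  have hel : ∀ x, el x = ∑ j ∈ S, ι j (π j x) := by
    intro x
    simp only [el, LinearMap.sum_apply, LinearMap.comp_apply]
    rfl
  have hπsum : ∀ k ∈ S, ∀ x, π k (el x) = π k x := by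
    intro k hk x
    rw [hel, ← hpl, map_sum, Finset.sum_eq_single k]
    · rw [hpl, D.dec.πι]
    · intro j _ hjk
      rw [hpl, D.dec.off k j (Ne.symm hjk)]
    · intro h
      exact absurd hk h
  have hE : X.IsEnd el := by
    refine (isEnd_iff X _).mpr (isMor_of X X el.isLinear ?_ ?_)
    · intro v hv
      rw [hel, isBetti_iff]
      refine Submodule.sum_mem _ fun j _ => ?_
      rw [← isBetti_iff]
      exact (D.dec.morι j).betti _ ((D.dec.morπ j).betti v hv)
    · intro v hv i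
      rw [hel, Finset.sum_apply]
      exact isAlg_sum _ _ fun j _ => (D.dec.morι j).deRham _ ((D.dec.morπ j).deRham v hv) i
  have hid : ∀ v, el (el v) = el v := by
    intro v
    rw [hel (el v), hel v]
    exact Finset.sum_congr rfl fun j hj => by rw [← hel v, hπsum j hj]
  have hpair : ∀ j u v, X.polForm (ι j u) v = X.polForm (ι j u) (ι j (π j v)) := by
    intro j u v
    conv_lhs => rw [← D.dec.sum v, map_sum]
    refine Finset.sum_eq_single j (fun k _ hk => ?_) (fun h => absurd (Finset.mem_univ j) h)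
    exact D.orth j k (Ne.symm hk) u (π k v)
  have hpair' : ∀ j u v, X.polForm u (ι j v) = X.polForm (ι j (π j u)) (ι j v) := by
    intro j u v
    conv_lhs => rw [← D.dec.sum u, map_sum, LinearMap.sum_apply]
    refine Finset.sum_eq_single j (fun k _ hk => ?_) (fun h => absurd (Finset.mem_univ j) h)
    exact D.orth k j hk (π k u) v
  have hsym : X.IsAdjoint el el := by
    intro u v
    show X.polForm (el u) v = X.polForm u (el v)
    rw [hel, hel, map_sum, map_sum, LinearMap.sum_apply]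
    refine Finset.sum_congr rfl fun j _ => ?_
    rw [hpair, hpair' j u]
  obtain ⟨Y, ιY, πY, hιY, hπY, h1, h2, -⟩ := sub_abVar X el hE hid hsym
  have hYl : ∀ j ∈ S, ∀ x, el (ι j x) = ι j x := by
    intro j hj x
    rw [hel, Finset.sum_eq_single j]
    · rw [D.dec.πι]
    · intro k _ hk
      rw [D.dec.off k j hk, (D.dec.morι k).linear.map_zero]
    · intro h
      exact absurd hj h
  refine ⟨Y, ιY, πY, hιY, hπY, h1, ?_, fun j hj x => (h2 _).trans (hYl j hj x),
    fun x => (h2 x).trans (hel x)⟩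
  -- the dimension
  let iY : Y.H1 →ₗ[ℂ] X.H1 := hιY.linear.mk' ιY
  let pY : X.H1 →ₗ[ℂ] Y.H1 := hπY.linear.mk' πY
  let Fw : Y.H1 →ₗ[ℂ] ((j : S) → (B j).H1) := LinearMap.pi fun j => pl j ∘ₗ iY
  let Bw : ((j : S) → (B j).H1) →ₗ[ℂ] Y.H1 := pY ∘ₗ (∑ j : S, il j ∘ₗ LinearMap.proj j)
  have hFw : ∀ y (j : S), Fw y j = π j (ιY y) := fun _ _ => rfl
  have hBw : ∀ u, Bw u = πY (∑ j : S, ι j (u j)) := by
    intro u
    show pY ((∑ j : S, il j ∘ₗ LinearMap.proj j) u) = _
    rw [LinearMap.sum_apply]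
    rfl
  have hBF : ∀ y, Bw (Fw y) = y := by
    intro y
    rw [hBw]
    have h3 : ∑ j : S, ι j (Fw y j) = el (ιY y) := by
      rw [hel, ← Finset.sum_coe_sort S]
      exact Finset.sum_congr rfl fun j _ => by rw [hFw]
    rw [h3, ← h2, h1, h1]
  have hFB : ∀ u, Fw (Bw u) = u := by
    intro u
    funext k
    rw [hFw, hBw, h2, hπsum k k.2, ← hpl, map_sum, Finset.sum_eq_single k]
    · rw [hpl, D.dec.πι]
    · intro j _ hjk
      rw [hpl, D.dec.off k j (fun h => hjk (Subtype.ext h.symm))]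
    · intro h
      exact absurd (Finset.mem_univ k) h
  let Φ : Y.H1 ≃ₗ[ℂ] ((j : S) → (B j).H1) :=
    LinearEquiv.ofLinearMap Fw Bw (LinearMap.ext hFB) (LinearMap.ext hBF)
  have h3 := Φ.finrank_eq
  have h4 : finrank ℂ ((j : S) → (B j).H1) = ∑ j : S, finrank ℂ (B j).H1 :=
    Module.finrank_pi_fintype ℂ
  rw [h4, Helper39.AF.finrank_H1,
    Finset.sum_congr rfl (fun (j : S) _ => Helper39.AF.finrank_H1 (B (j : J))),
    Finset.sum_coe_sort S (fun j => 2 * (B j).g), ← Finset.mul_sum] at h3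
  omega

end Pool.Agent.D5
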