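import Pool.Agent.D5.StR

/-!
# D5: easy components

[Eas]: elliptic curve twice or three times, surface three times.
-/

set_option autoImplicit false

namespace Pool.Agent.D5

open Module NumberField
open Pool.Agent.Helper7 Pool.Agent.GPC Pool.Agent.Helper39.AF
open Pool.Agent.Helper8 (ML2 ML4)

namespace EasP

/-- the standard alternating form -/
def P {n : ℕ} (u v : Fin n ⊕ Fin n → ℂ) : ℂ :=
  ∑ a, (u (.inl a) * v (.inr a) - v (.inl a) * u (.inr a))

/-- first half of the standard basis -/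
noncomputable abbrev ee {n : ℕ} (a : Fin n) : Fin n ⊕ Fin n → ℂ := Pi.single (.inl a) 1

/-- second half of the standard basis -/
noncomputable abbrev ff {n : ℕ} (a : Fin n) : Fin n ⊕ Fin n → ℂ := Pi.single (.inr a) 1

private lemma expand2 (g : (Fin 2 ⊕ Fin 2 → ℂ) → ℂ) (h : IsLinearMap ℂ g)
    (v : Fin 2 ⊕ Fin 2 → ℂ) :
    g v = v (.inl 0) * g (ee 0) + v (.inl 1) * g (ee 1) + v (.inr 0) * g (ff 0) +
      v (.inr 1) * g (ff 1) := by
  have hv : v = v (.inl 0) • ee 0 + v (.inl 1) • ee 1 + v (.inr 0) • ff 0 + v (.inr 1) • ff 1 := by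
    funext i
    rcases i with i | i <;> fin_cases i <;> simp [ee, ff]
  have h1 : g v = g (v (.inl 0) • ee 0 + v (.inl 1) • ee 1 + v (.inr 0) • ff 0 +
      v (.inr 1) • ff 1) := congrArg g hv
  rw [h1, h.map_add, h.map_add, h.map_add, h.map_smul, h.map_smul, h.map_smul, h.map_smul]
  simp only [smul_eq_mul]

private lemma expand1 (g : (Fin 1 ⊕ Fin 1 → ℂ) → ℂ) (h : IsLinearMap ℂ g)
    (v : Fin 1 ⊕ Fin 1 → ℂ) :
    g v = v (.inl 0) * g (ee 0) + v (.inr 0) * g (ff 0) := by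
  have hv : v = v (.inl 0) • ee 0 + v (.inr 0) • ff 0 := by
    funext i
    rcases i with i | i <;> fin_cases i <;> simp [ee, ff]
  have h1 : g v = g (v (.inl 0) • ee 0 + v (.inr 0) • ff 0) := congrArg g hv
  rw [h1, h.map_add, h.map_smul, h.map_smul]
  simp only [smul_eq_mul]

private lemma tri2 (g : (Fin 2 ⊕ Fin 2 → ℂ) → (Fin 2 ⊕ Fin 2 → ℂ) → (Fin 2 ⊕ Fin 2 → ℂ) → ℂ)
    (l1 : ∀ z w, IsLinearMap ℂ fun y => g y z w) (l2 : ∀ y w, IsLinearMap ℂ fun z => g y z w)
    (l3 : ∀ y z, IsLinearMap ℂ fun w => g y z w)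
    (h12 : ∀ y z w, g z y w = - g y z w) (h23 : ∀ y z w, g y w z = - g y z w)
    (y z w : Fin 2 ⊕ Fin 2 → ℂ) :
    g y z w = P y z * (∑ a : Fin 2, g (ee a) (ff a) w) + P z w * (∑ a : Fin 2, g (ee a) (ff a) y) +
      P w y * (∑ a : Fin 2, g (ee a) (ff a) z) := by
  have hy : ∀ y z w, g y z w = y (.inl 0) * g (ee 0) z w + y (.inl 1) * g (ee 1) z w +
      y (.inr 0) * g (ff 0) z w + y (.inr 1) * g (ff 1) z w :=
    fun y z w => expand2 (fun y => g y z w) (l1 z w) y
  have hz : ∀ y z w, g y z w = z (.inl 0) * g y (ee 0) w + z (.inl 1) * g y (ee 1) w +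
      z (.inr 0) * g y (ff 0) w + z (.inr 1) * g y (ff 1) w :=
    fun y z w => expand2 (fun z => g y z w) (l2 y w) z
  have hw : ∀ y z w, g y z w = w (.inl 0) * g y z (ee 0) + w (.inl 1) * g y z (ee 1) +
      w (.inr 0) * g y z (ff 0) + w (.inr 1) * g y z (ff 1) :=
    fun y z w => expand2 (fun w => g y z w) (l3 y z) w
  have h13 : ∀ y z w, g w z y = - g y z w := fun y z w => by
    rw [h12 z w y, h23 z y w, h12 y z w]; ring
  have hc1 : ∀ y z w, g z w y = g y z w := fun y z w => by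
    rw [h23 z y w, h12 y z w]; ring
  have hc2 : ∀ y z w, g w y z = g y z w := fun y z w => by
    rw [h12 y w z, h23 y z w]; ring
  have z1 : ∀ u v, g u u v = 0 := fun u v => by
    have h := h12 u u v
    linear_combination (1 / 2 : ℂ) * h
  have z2 : ∀ u v, g v u u = 0 := fun u v => by
    have h := h23 v u u
    linear_combination (1 / 2 : ℂ) * h
  have z3 : ∀ u v, g u v u = 0 := fun u v => by
    have h := h13 u v u
    linear_combination (1 / 2 : ℂ) * h
  have q0 : g (ee 0) (ff 0) (ee 1) = - g (ee 0) (ee 1) (ff 0) := h23 (ee 0) (ee 1) (ff 0)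
  have q1 : g (ee 1) (ee 0) (ff 0) = - g (ee 0) (ee 1) (ff 0) := h12 (ee 0) (ee 1) (ff 0)
  have q2 : g (ff 0) (ee 1) (ee 0) = - g (ee 0) (ee 1) (ff 0) := (h13 (ee 0) (ee 1) (ff 0))
  have q3 : g (ee 1) (ff 0) (ee 0) = g (ee 0) (ee 1) (ff 0) := hc1 (ee 0) (ee 1) (ff 0)
  have q4 : g (ff 0) (ee 0) (ee 1) = g (ee 0) (ee 1) (ff 0) := hc2 (ee 0) (ee 1) (ff 0)
  have q5 : g (ee 0) (ff 1) (ee 1) = - g (ee 0) (ee 1) (ff 1) := h23 (ee 0) (ee 1) (ff 1)
  have q6 : g (ee 1) (ee 0) (ff 1) = - g (ee 0) (ee 1) (ff 1) := h12 (ee 0) (ee 1) (ff 1)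
  have q7 : g (ff 1) (ee 1) (ee 0) = - g (ee 0) (ee 1) (ff 1) := (h13 (ee 0) (ee 1) (ff 1))
  have q8 : g (ee 1) (ff 1) (ee 0) = g (ee 0) (ee 1) (ff 1) := hc1 (ee 0) (ee 1) (ff 1)
  have q9 : g (ff 1) (ee 0) (ee 1) = g (ee 0) (ee 1) (ff 1) := hc2 (ee 0) (ee 1) (ff 1)
  have q10 : g (ee 0) (ff 1) (ff 0) = - g (ee 0) (ff 0) (ff 1) := h23 (ee 0) (ff 0) (ff 1)
  have q11 : g (ff 0) (ee 0) (ff 1) = - g (ee 0) (ff 0) (ff 1) := h12 (ee 0) (ff 0) (ff 1)
  have q12 : g (ff 1) (ff 0) (ee 0) = - g (ee 0) (ff 0) (ff 1) := (h13 (ee 0) (ff 0) (ff 1))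
  have q13 : g (ff 0) (ff 1) (ee 0) = g (ee 0) (ff 0) (ff 1) := hc1 (ee 0) (ff 0) (ff 1)
  have q14 : g (ff 1) (ee 0) (ff 0) = g (ee 0) (ff 0) (ff 1) := hc2 (ee 0) (ff 0) (ff 1)
  have q15 : g (ee 1) (ff 1) (ff 0) = - g (ee 1) (ff 0) (ff 1) := h23 (ee 1) (ff 0) (ff 1)
  have q16 : g (ff 0) (ee 1) (ff 1) = - g (ee 1) (ff 0) (ff 1) := h12 (ee 1) (ff 0) (ff 1)
  have q17 : g (ff 1) (ff 0) (ee 1) = - g (ee 1) (ff 0) (ff 1) := (h13 (ee 1) (ff 0) (ff 1))
  have q18 : g (ff 0) (ff 1) (ee 1) = g (ee 1) (ff 0) (ff 1) := hc1 (ee 1) (ff 0) (ff 1)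
  have q19 : g (ff 1) (ee 1) (ff 0) = g (ee 1) (ff 0) (ff 1) := hc2 (ee 1) (ff 0) (ff 1)
  rw [Fin.sum_univ_two, Fin.sum_univ_two, Fin.sum_univ_two]
  rw [hy y z w, hz (ee 0) z w, hz (ee 1) z w, hz (ff 0) z w, hz (ff 1) z w]
  rw [hw (ee 0) (ee 0) w, hw (ee 0) (ee 1) w, hw (ee 0) (ff 0) w, hw (ee 0) (ff 1) w, hw (ee 1) (ee 0) w, hw (ee 1) (ee 1) w, hw (ee 1) (ff 0) w, hw (ee 1) (ff 1) w, hw (ff 0) (ee 0) w, hw (ff 0) (ee 1) w, hw (ff 0) (ff 0) w, hw (ff 0) (ff 1) w, hw (ff 1) (ee 0) w, hw (ff 1) (ee 1) w, hw (ff 1) (ff 0) w, hw (ff 1) (ff 1) w]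
  rw [hw (ee 0) (ff 0) y, hw (ee 0) (ff 0) z, hw (ee 1) (ff 1) y, hw (ee 1) (ff 1) z]
  simp only [z1, z2, z3, q0, q1, q2, q3, q4, q5, q6, q7, q8, q9, q10, q11, q12, q13, q14, q15, q16, q17, q18, q19, P, Fin.sum_univ_two]
  ring

private lemma bi1 (g : (Fin 1 ⊕ Fin 1 → ℂ) → (Fin 1 ⊕ Fin 1 → ℂ) → ℂ)
    (l1 : ∀ w, IsLinearMap ℂ fun z => g z w) (l2 : ∀ z, IsLinearMap ℂ fun w => g z w)
    (h : ∀ z w, g w z = - g z w) (z w : Fin 1 ⊕ Fin 1 → ℂ) :
    g z w = P z w * g (ee 0) (ff 0) := by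
  have hz : ∀ z w, g z w = z (.inl 0) * g (ee 0) w + z (.inr 0) * g (ff 0) w :=
    fun z w => expand1 (fun z => g z w) (l1 w) z
  have hw : ∀ z w, g z w = w (.inl 0) * g z (ee 0) + w (.inr 0) * g z (ff 0) :=
    fun z w => expand1 (fun w => g z w) (l2 z) w
  have z1 : ∀ u, g u u = 0 := fun u => by
    have h := h u u
    linear_combination (1 / 2 : ℂ) * h
  have q0 : g (ff 0) (ee 0) = - g (ee 0) (ff 0) := h _ _
  rw [hz z w, hw (ee 0) w, hw (ff 0) w]
  simp only [z1, q0, P, Fin.sum_univ_one]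
  ring

private lemma bi_g (n : ℕ) (hn : n = 1) : ∃ e f : Fin n ⊕ Fin n → ℂ,
    (∀ j, IsAlgebraic ℚ (e j)) ∧ (∀ j, IsAlgebraic ℚ (f j)) ∧ P e f = 1 ∧
    ∀ g : (Fin n ⊕ Fin n → ℂ) → (Fin n ⊕ Fin n → ℂ) → ℂ,
      (∀ w, IsLinearMap ℂ fun z => g z w) → (∀ z, IsLinearMap ℂ fun w => g z w) →
      (∀ z w, g w z = - g z w) → ∀ z w, g z w = P z w * g e f := by
  subst hn
  have ha : ∀ i j : Fin 1 ⊕ Fin 1, IsAlgebraic ℚ ((Pi.single i 1 : Fin 1 ⊕ Fin 1 → ℂ) j) := by
    intro i j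
    by_cases h : j = i
    · subst h; rw [Pi.single_eq_same]; exact isAlgebraic_one
    · rw [Pi.single_eq_of_ne h]; exact isAlgebraic_zero
  exact ⟨ee 0, ff 0, ha _, ha _, by simp [P, ee, ff], fun g l1 l2 h z w => bi1 g l1 l2 h z w⟩

private lemma tri_g (n : ℕ) (hn : n = 2)
    (g : (Fin n ⊕ Fin n → ℂ) → (Fin n ⊕ Fin n → ℂ) → (Fin n ⊕ Fin n → ℂ) → ℂ)
    (l1 : ∀ z w, IsLinearMap ℂ fun y => g y z w) (l2 : ∀ y w, IsLinearMap ℂ fun z => g y z w)
    (l3 : ∀ y z, IsLinearMap ℂ fun w => g y z w)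
    (h12 : ∀ y z w, g z y w = - g y z w) (h23 : ∀ y z w, g y w z = - g y z w)
    (y z w : Fin n ⊕ Fin n → ℂ) :
    g y z w = P y z * (∑ a, g (ee a) (ff a) w) + P z w * (∑ a, g (ee a) (ff a) y) +
      P w y * (∑ a, g (ee a) (ff a) z) := by
  subst hn
  exact tri2 g l1 l2 l3 h12 h23 y z w

private lemma pol_add_left (A : AbVar) (u v w : A.H1) : A.pol (u + v) w = A.pol u w + A.pol v w := by
  rw [pol_eq, pol_eq, pol_eq, map_add, LinearMap.add_apply]

private lemma pol_smul_left (A : AbVar) (c : ℂ) (u w : A.H1) : A.pol (c • u) w = c * A.pol u w := by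
  rw [pol_eq, pol_eq, map_smul, LinearMap.smul_apply, smul_eq_mul]

private lemma pol_anti (A : AbVar) (u v : A.H1) : A.pol u v = - A.pol v u := by
  rw [pol_eq, pol_eq]; exact polForm_antisymm A u v

private lemma pol_nd (A : AbVar) (u : A.H1) (h : ∀ v, A.pol u v = 0) : u = 0 :=
  polForm_nondeg A u fun v => h v

private lemma pol_rat (A : AbVar) (u v : A.H1) (hu : A.IsBetti u) (hv : A.IsBetti v) :
    ∃ q : ℚ, A.pol u v = (2 * Real.pi * Complex.I) * q :=
  (pData A).hψQ u ((mem_pData_Q A u).2 hu) v ((mem_pData_Q A v).2 hv)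

private lemma pol_fil (A : AbVar) (u v : A.H1) (hu : A.IsFil u) (hv : A.IsFil v) :
    A.pol u v = 0 := by
  unfold AbVar.pol
  exact Finset.sum_eq_zero fun a _ => by rw [hu a, hv a]; ring

/-- linear functions which vanish on the Betti structure -/
private lemma ext_betti (A : AbVar) (f : A.H1 → ℂ) (hf : IsLinearMap ℂ f)
    (h : ∀ v, A.IsBetti v → f v = 0) (v : A.H1) : f v = 0 := by
  have h1 : hf.mk' f = 0 := by
    refine (pData A).bB.ext fun i => ?_
    rw [IsLinearMap.mk'_apply, LinearMap.zero_apply]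
    exact h _ ((mem_pData_Q A _).1 ((pData A).basis_mem i))
  have h2 := congrArg (fun F : A.H1 →ₗ[ℂ] ℂ => F v) h1
  simpa using h2

private lemma lin_pol_left (A : AbVar) (w : A.H1) : IsLinearMap ℂ fun u => A.pol u w :=
  ⟨fun u v => pol_add_left A u v w, fun c u => pol_smul_left A c u w⟩

private lemma lin_pol_right (A : AbVar) (w : A.H1) : IsLinearMap ℂ fun u => A.pol w u :=
  ⟨fun u v => by simp only [pol_eq, map_add], fun c u => by simp only [pol_eq, map_smul]⟩

private lemma betti_comb (A : AbVar) (p q : ℚ) (u v : A.H1) (hu : A.IsBetti u) (hv : A.IsBetti v) :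
    A.IsBetti ((p : ℂ) • u + (q : ℂ) • v) := by
  rw [← mem_pData_Q] at hu hv ⊢
  exact (pData A).Q.add_mem ((pData A).rat_smul_mem p u hu) ((pData A).rat_smul_mem q v hv)

private lemma tpi_ne : (2 * Real.pi * Complex.I : ℂ) ≠ 0 := by
  simp [Real.pi_ne_zero]

/-- rational vectors which are not orthogonal -/
private lemma exists_pair (A : AbVar) (u v : A.H1) (h : A.pol u v ≠ 0) :
    ∃ b b', A.IsBetti b ∧ A.IsBetti b' ∧ A.pol b b' ≠ 0 := by
  by_contra hc
  push Not at hc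
  apply h
  refine ext_betti A (fun u => A.pol u v) (lin_pol_left A v) (fun b hb => ?_) u
  exact ext_betti A (fun v => A.pol b v) (lin_pol_right A b) (fun b' hb' => hc b b' hb hb') v

private lemma orth_pair (B : AbVar) (hB : B.g = 2) (w : B.H1) (hw : B.IsBetti w) (hw0 : w ≠ 0) :
    ∃ y z, B.IsBetti y ∧ B.IsBetti z ∧ B.pol y w = 0 ∧ B.pol z w = 0 ∧ B.pol y z ≠ 0 := by
  obtain ⟨v, hv, hvw⟩ : ∃ v, B.IsBetti v ∧ B.pol v w ≠ 0 := by
    by_contra hc
    push Not at hc
    apply hw0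
    refine pol_nd B w fun v => ?_
    rw [pol_anti, ext_betti B (fun u => B.pol u w) (lin_pol_left B w) (fun b hb => hc b hb) v,
      neg_zero]
  by_contra hc
  push Not at hc
  have hF : ∀ u1 u2, B.IsBetti u1 → B.IsBetti u2 →
      B.pol u1 u2 * B.pol v w - B.pol u2 w * B.pol u1 v - B.pol u1 w * B.pol v u2 = 0 := by
    intro u1 u2 h1 h2
    obtain ⟨q, hq⟩ := pol_rat B v w hv hw
    obtain ⟨q1, hq1⟩ := pol_rat B u1 w h1 hw
    obtain ⟨q2, hq2⟩ := pol_rat B u2 w h2 hw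
    have hq0 : (q : ℂ) ≠ 0 := fun h => hvw (by rw [hq, h, mul_zero])
    have e := hc ((q : ℂ) • u1 + ((-q1 : ℚ) : ℂ) • v) ((q : ℂ) • u2 + ((-q2 : ℚ) : ℂ) • v)
      (betti_comb B q (-q1) u1 v h1 hv) (betti_comb B q (-q2) u2 v h2 hv)
      (by rw [pol_add_left, pol_smul_left, pol_smul_left, hq, hq1]; push_cast; ring)
      (by rw [pol_add_left, pol_smul_left, pol_smul_left, hq, hq2]; push_cast; ring)
    rw [pol_add_left, pol_smul_left, pol_smul_left, (lin_pol_right B u1).map_add,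
      (lin_pol_right B v).map_add, (lin_pol_right B u1).map_smul, (lin_pol_right B u1).map_smul,
      (lin_pol_right B v).map_smul, (lin_pol_right B v).map_smul] at e
    have hvv : B.pol v v = 0 := by
      have h := pol_anti B v v
      linear_combination (1 / 2 : ℂ) * h
    rw [hvv] at e
    push_cast at e
    simp only [smul_eq_mul] at e
    rw [hq, hq1, hq2]
    have e2 : (q : ℂ) * (B.pol u1 u2 * ((2 * Real.pi * Complex.I) * q) -
        (2 * Real.pi * Complex.I) * q2 * B.pol u1 v -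
        (2 * Real.pi * Complex.I) * q1 * B.pol v u2) = 0 := by
      linear_combination (2 * Real.pi * Complex.I) * e
    exact (mul_eq_zero.1 e2).resolve_left hq0
  -- a vector orthogonal to two
  let f : B.H1 →ₗ[ℂ] ℂ × ℂ := ((lin_pol_left B w).mk' _).prod ((lin_pol_left B v).mk' _)
  have hk : LinearMap.ker f ≠ ⊥ := by
    apply LinearMap.ker_ne_bot_of_finrank_lt
    rw [Module.finrank_prod, Module.finrank_self, Module.finrank_fintype_fun_eq_card,
      Fintype.card_sum, Fintype.card_fin, hB]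
    norm_num
  obtain ⟨u, hu, hu0⟩ := Submodule.exists_mem_ne_zero_of_ne_bot hk
  have hu1 : B.pol u w = 0 := congrArg Prod.fst (LinearMap.mem_ker.1 hu)
  have hu2 : B.pol u v = 0 := congrArg Prod.snd (LinearMap.mem_ker.1 hu)
  apply hu0
  refine pol_nd B u fun u2 => ?_
  refine ext_betti B (fun v => B.pol u v) (lin_pol_right B u) (fun b hb => ?_) u2
  have h := ext_betti B (fun u1 => B.pol u1 b * B.pol v w - B.pol b w * B.pol u1 v -
    B.pol u1 w * B.pol v b) ⟨fun x y => by simp only [pol_add_left]; ring,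
      fun c x => by simp only [pol_smul_left, smul_eq_mul]; ring⟩ (fun u1 h1 => hF u1 b h1 hb) u
  simp only [hu1, hu2, mul_zero, zero_mul, sub_zero] at h
  exact (mul_eq_zero.1 h).resolve_right hvw

end EasP

open EasP

/-- **Easy components.** -/
theorem Eas_ (hK : St_K1) : St_Eas := by
  refine ⟨?_, ?_, ?_⟩
  · intro A B E G hE hG h34
    obtain ⟨e, f, he, hf, hef, hg⟩ := bi_g E.g hE
    have key : ∀ x y z w, G x y z w = E.pol z w * G x y e f := fun x y z w =>
      hg (fun z w => G x y z w) (fun w => hG.ml.l3 x y w) (fun z => hG.ml.l4 x y z)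
        (fun z w => h34 x y z w) z w
    have hef' : E.pol e f ≠ 0 := by
      have h1 : E.pol e f = 1 := hef
      rw [h1]; exact one_ne_zero
    obtain ⟨b, b', hb, hb', hbb⟩ := exists_pair E e f hef'
    obtain ⟨q, hq⟩ := pol_rat E b b' hb hb'
    have hq0 : (q : ℂ) ≠ 0 := fun h => hbb (by rw [hq, h, mul_zero])
    have hGr : Gr2 A B fun x y => G x y e f := by
      refine ⟨⟨fun y => hG.ml.l1 y e f, fun x => hG.ml.l2 x e f⟩,
        fun x y hx hy => hG.alg x y e f hx hy he hf, fun x y hx hy => ?_⟩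
      obtain ⟨c, hc⟩ := hG.rat x y b b' hx hy hb hb'
      rw [key x y b b', hq] at hc
      refine ⟨c / q, ?_⟩
      have h3 : (q : ℂ) * G x y e f = (2 * Real.pi * Complex.I) * c := by
        apply mul_left_cancel₀ tpi_ne
        linear_combination hc
      push_cast
      field_simp
      linear_combination h3
    have h0 := hK.1 A B _ hGr
    refine ⟨?_, ?_, ?_, ?_⟩
    · intro x y z w _ hz hw; rw [key, pol_fil E z w hz hw, zero_mul]
    · intro x y z w _ hz hw; rw [key, pol_fil E z w hz hw, zero_mul]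
    · intro x y z w hx hy _; rw [key, h0 x y hx hy, mul_zero]
    · intro x y z w hx hy _; rw [key, h0 x y hx hy, mul_zero]
  · intro A E G hE hG h23 h34
    obtain ⟨e, f, -, -, -, hg⟩ := bi_g E.g hE
    have key : ∀ x y z w, G x y z w = E.pol z w * G x y e f := fun x y z w =>
      hg (fun z w => G x y z w) (fun w => hG.ml.l3 x y w) (fun z => hG.ml.l4 x y z)
        (fun z w => h34 x y z w) z w
    have key2 : ∀ x y z w, G x y z w = E.pol y z * G x e f w := fun x y z w =>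
      hg (fun y z => G x y z w) (fun z => hG.ml.l2 x z w) (fun y => hG.ml.l3 x y w)
        (fun y z => h23 x y z w) y z
    have z1 : ∀ u, E.pol u u = 0 := fun u => by
      have h := pol_anti E u u
      linear_combination (1 / 2 : ℂ) * h
    have hz : ∀ x y z w, G x y z w = 0 := by
      intro x y z w
      have e1 : G x e e f = 0 := by rw [key2, z1, zero_mul]
      have e2 : G x f e f = 0 := by
        rw [h23, key, z1]; ring
      have e3 : G x y e f = 0 := by
        rw [key2 x y e f]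
        have e4 : G x e f f = 0 := by rw [key, z1, zero_mul]
        rw [e4, mul_zero]
      rw [key, e3, mul_zero]
    exact ⟨fun x y z w _ _ _ => hz x y z w, fun x y z w _ _ _ => hz x y z w,
      fun x y z w _ _ _ => hz x y z w, fun x y z w _ _ _ => hz x y z w⟩
  · intro A B G hB hG h23 h34
    let β : A.H1 → B.H1 → ℂ := fun x w => ∑ a, G x (ee a) (ff a) w
    have key : ∀ x y z w, G x y z w = B.pol y z * β x w + B.pol z w * β x y + B.pol w y * β x z :=
      fun x y z w => tri_g B.g hB (fun y z w => G x y z w) (fun z w => hG.ml.l2 x z w)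
        (fun y w => hG.ml.l3 x y w) (fun y z => hG.ml.l4 x y z) (fun y z w => h23 x y z w)
        (fun y z w => h34 x y z w) y z w
    have hGr : Gr2 A B β := by
      refine ⟨⟨fun w => ⟨fun x x' => ?_, fun c x => ?_⟩, fun x => ⟨fun w w' => ?_, fun c w => ?_⟩⟩,
        fun x w hx hw => ?_, fun x w hx hw => ?_⟩
      · simp only [β]
        rw [← Finset.sum_add_distrib]
        exact Finset.sum_congr rfl fun a _ => (hG.ml.l1 _ _ _).map_add _ _
      · simp only [β]
        rw [Finset.smul_sum]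
        exact Finset.sum_congr rfl fun a _ => (hG.ml.l1 _ _ _).map_smul _ _
      · simp only [β]
        rw [← Finset.sum_add_distrib]
        exact Finset.sum_congr rfl fun a _ => (hG.ml.l4 _ _ _).map_add _ _
      · simp only [β]
        rw [Finset.smul_sum]
        exact Finset.sum_congr rfl fun a _ => (hG.ml.l4 _ _ _).map_smul _ _
      · exact isAlg_sum _ _ fun a _ => hG.alg _ _ _ _ hx (single_deRham B _) (single_deRham B _) hw
      · by_cases hw0 : w = 0
        · refine ⟨0, ?_⟩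
          have h1 : β x w = 0 := by
            simp only [β]
            refine Finset.sum_eq_zero fun a _ => ?_
            rw [hw0]
            exact (hG.ml.l4 _ _ _).map_zero
          rw [h1]; push_cast; ring
        · obtain ⟨y, z, hy, hz, hyw, hzw, hyz⟩ := orth_pair B hB w hw hw0
          obtain ⟨q, hq⟩ := pol_rat B y z hy hz
          have hq0 : (q : ℂ) ≠ 0 := fun h => hyz (by rw [hq, h, mul_zero])
          obtain ⟨c, hc⟩ := hG.rat x y z w hx hy hz hw
          rw [key, hzw, pol_anti B w y, hyw, hq] at hc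
          refine ⟨c / q, ?_⟩
          have h3 : (q : ℂ) * β x w = (2 * Real.pi * Complex.I) * c := by
            apply mul_left_cancel₀ tpi_ne
            linear_combination hc
          push_cast
          field_simp
          linear_combination h3
    have h0 := hK.1 A B _ hGr
    refine ⟨?_, ?_, ?_, ?_⟩
    · intro x y z w hy hz hw
      rw [key, pol_fil B y z hy hz, pol_fil B z w hz hw, pol_fil B w y hw hy]; ring
    · intro x y z w hx hz hw
      rw [key, h0 x w hx hw, h0 x z hx hz, pol_fil B z w hz hw]; ring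
    · intro x y z w hx hy hw
      rw [key, h0 x w hx hw, h0 x y hx hy, pol_fil B w y hw hy]; ring
    · intro x y z w hx hy hz
      rw [key, h0 x y hx hy, h0 x z hx hz, pol_fil B y z hy hz]; ring

end Pool.Agent.D5
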