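import Pool.Agent.D5.StL
import Pool.Agent.KT.Alg.Simp
import Pool.Agent.Helper24.PT.LPar
import Pool.Agent.Helper8.H.Triple

/-!
# D5, [Ful] the symplectic algebra of a space of dimension four splits off modules of dimension three
and symplectic modules of dimension six
-/

set_option autoImplicit false
set_option linter.unusedSimpArgs false
set_option linter.unusedSectionVars false

namespace Pool.Agent.D5

open Module LieAlgebra LieModule
open Pool.Agent.Helper8 (Principal Symp irr_cases exists_principal Adapted exists_adapted4 up4 wt4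
  g4)
open Pool.Agent.Helper24 (ProjTriple exists_projTriple exists_parity lie_zero_of_disjoint
  eq_of_disjoint)
open Pool.Agent.KT.Alg (Simp_dot Simp_dot_apply Simp_dot_sk Simp_comm Simp_span Simp_sk thm_Simp)

section alg

variable {L B : Type} [LieRing L] [LieAlgebra ℂ L] [AddCommGroup B] [Module ℂ B]
  [LieRingModule L B] [LieModule ℂ L B]

/-- an ideal which is the symplectic algebra of a space of dimension four -/
structure Ful_D (ω : B →ₗ[ℂ] B →ₗ[ℂ] ℂ) (b : Basis (Fin 4) ℂ B) (J : LieIdeal ℂ L) : Prop where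
  symp : Symp L ω
  gram : ∀ i j, ω (b i) (b j) = (g4 i j : ℂ)
  faith : ∀ x ∈ J, (∀ v : B, ⁅x, v⁆ = 0) → x = 0
  lift : ∀ Y : Module.End ℂ B, Simp_sk ω Y → ∃ x ∈ J, ∀ v, ⁅x, v⁆ = Y v

variable {ω : B →ₗ[ℂ] B →ₗ[ℂ] ℂ} {b : Basis (Fin 4) ℂ B} {J : LieIdeal ℂ L}

theorem Ful_D.eqs (D : Ful_D ω b J) {x y : L} (hx : x ∈ J) (hy : y ∈ J)
    (h : ∀ v : B, ⁅x, v⁆ = ⁅y, v⁆) : x = y := by
  rw [← sub_eq_zero]
  refine D.faith _ (J.sub_mem hx hy) fun v => ?_
  rw [sub_lie, h, sub_self]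

theorem Ful_D.exT (D : Ful_D ω b J) : ∃ t : B → B → L, (∀ u v, t u v ∈ J) ∧
    ∀ u v x, ⁅t u v, x⁆ = ω u x • v + ω v x • u := by
  choose t ht using fun u v => D.lift _ (Simp_dot_sk D.symp.alt u v)
  exact ⟨t, fun u v => (ht u v).1, fun u v x => (ht u v).2 x⟩

theorem Ful_g (D : Ful_D ω b J) :
    ω (b 0) (b 0) = 0 ∧ ω (b 0) (b 1) = 0 ∧ ω (b 0) (b 2) = 0 ∧ ω (b 0) (b 3) = 1 ∧
    ω (b 1) (b 0) = 0 ∧ ω (b 1) (b 1) = 0 ∧ ω (b 1) (b 2) = -1 ∧ ω (b 1) (b 3) = 0 ∧
    ω (b 2) (b 0) = 0 ∧ ω (b 2) (b 1) = 1 ∧ ω (b 2) (b 2) = 0 ∧ ω (b 2) (b 3) = 0 ∧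
    ω (b 3) (b 0) = -1 ∧ ω (b 3) (b 1) = 0 ∧ ω (b 3) (b 2) = 0 ∧ ω (b 3) (b 3) = 0 := by
  refine ⟨?_, ?_, ?_, ?_, ?_, ?_, ?_, ?_, ?_, ?_, ?_, ?_, ?_, ?_, ?_, ?_⟩ <;>
    rw [D.gram] <;> simp [g4]

/-- the elements of the symplectic algebra -/
theorem Ful_D.elts (D : Ful_D ω b J) : ∃ h1 h2 e1 f1 X Y : L, h1 ∈ J ∧ h2 ∈ J ∧
    ⁅e1, f1⁆ = h1 ∧ ⁅h1, e1⁆ = (2 : ℂ) • e1 ∧ ⁅h1, f1⁆ = (-2 : ℂ) • f1 ∧ ⁅f1, h2⁆ = 0 ∧
    ⁅X, Y⁆ = h1 - h2 ∧ ⁅Y, h1 + h2⁆ = 0 ∧
    (∀ j : Fin 4, ⁅(3 : ℂ) • h1 + h2, b j⁆ = (wt4 j : ℂ) • b j) ∧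
    ∀ x ∈ J, x ∈ Submodule.span ℂ {y : L | ∃ m : ℤ, ⁅h1, y⁆ = (m : ℂ) • y} := by
  obtain ⟨t, htJ, ht⟩ := D.exT
  obtain ⟨g00, g01, g02, g03, g10, g11, g12, g13, g20, g21, g22, g23, g30, g31, g32, g33⟩ :=
    Ful_g D
  have hbr : ∀ x ∈ J, ∀ y ∈ J, ⁅x, y⁆ ∈ J := fun x hx y _ => lie_mem_left ℂ L J x y hx
  have h1J : -t (b 0) (b 3) ∈ J := J.neg_mem (htJ _ _)
  have h2J : t (b 1) (b 2) ∈ J := htJ _ _
  have e1J : (1 / 2 : ℂ) • t (b 0) (b 0) ∈ J := J.smul_mem _ (htJ _ _)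
  have f1J : (-(1 / 2) : ℂ) • t (b 3) (b 3) ∈ J := J.smul_mem _ (htJ _ _)
  have XJ : t (b 0) (b 2) ∈ J := htJ _ _
  have YJ : -t (b 1) (b 3) ∈ J := J.neg_mem (htJ _ _)
  refine ⟨-t (b 0) (b 3), t (b 1) (b 2), (1 / 2 : ℂ) • t (b 0) (b 0),
    (-(1 / 2) : ℂ) • t (b 3) (b 3), t (b 0) (b 2), -t (b 1) (b 3), h1J, h2J, ?_, ?_, ?_, ?_, ?_,
    ?_, ?_, ?_⟩
  · refine D.eqs (hbr _ e1J _ f1J) h1J fun v => ?_
    simp only [lie_lie, smul_lie, neg_lie, ht, lie_add, lie_smul, map_add, map_smul, smul_eq_mul,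
      g00, g01, g02, g03, g10, g11, g12, g13, g20, g21, g22, g23, g30, g31, g32, g33]
    module
  · refine D.eqs (hbr _ h1J _ e1J) (J.smul_mem _ e1J) fun v => ?_
    simp only [lie_lie, smul_lie, neg_lie, ht, lie_add, lie_smul, map_add, map_smul, smul_eq_mul,
      g00, g01, g02, g03, g10, g11, g12, g13, g20, g21, g22, g23, g30, g31, g32, g33]
    module
  · refine D.eqs (hbr _ h1J _ f1J) (J.smul_mem _ f1J) fun v => ?_
    simp only [lie_lie, smul_lie, neg_lie, ht, lie_add, lie_smul, map_add, map_smul, smul_eq_mul,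
      g00, g01, g02, g03, g10, g11, g12, g13, g20, g21, g22, g23, g30, g31, g32, g33]
    module
  · refine D.faith _ (hbr _ f1J _ h2J) fun v => ?_
    simp only [lie_lie, smul_lie, neg_lie, ht, lie_add, lie_smul, map_add, map_smul, smul_eq_mul,
      g00, g01, g02, g03, g10, g11, g12, g13, g20, g21, g22, g23, g30, g31, g32, g33]
    module
  · refine D.eqs (hbr _ XJ _ YJ) (J.sub_mem h1J h2J) fun v => ?_
    simp only [lie_lie, smul_lie, neg_lie, sub_lie, lie_neg, map_neg, ht, lie_add, lie_smul,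
      map_add, map_smul, smul_eq_mul,
      g00, g01, g02, g03, g10, g11, g12, g13, g20, g21, g22, g23, g30, g31, g32, g33]
    module
  · refine D.faith _ (hbr _ YJ _ (J.add_mem h1J h2J)) fun v => ?_
    simp only [lie_lie, smul_lie, neg_lie, add_lie, lie_neg, map_neg, ht, lie_add, lie_smul,
      map_add, map_smul, smul_eq_mul,
      g00, g01, g02, g03, g10, g11, g12, g13, g20, g21, g22, g23, g30, g31, g32, g33]
    module
  · intro j
    fin_cases j <;>
    · simp only [Fin.zero_eta, Fin.mk_one, Fin.reduceFinMk, add_lie, smul_lie, neg_lie, ht,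
        g00, g01, g02, g03, g10, g11, g12, g13, g20, g21, g22, g23, g30, g31, g32, g33, wt4]
      simp
      try module
  · -- the weights of the elements `t`
    have hw : ∀ j : Fin 4, ∃ m : ℤ, ⁅-t (b 0) (b 3), b j⁆ = (m : ℂ) • b j := by
      intro j
      fin_cases j
      · exact ⟨1, by simp [ht, g00, g30]⟩
      · exact ⟨0, by simp [ht, g01, g31]⟩
      · exact ⟨0, by simp [ht, g02, g32]⟩
      · exact ⟨-1, by simp [ht, g03, g33]⟩
    have htw : ∀ i j : Fin 4, ∃ m : ℤ, ⁅-t (b 0) (b 3), t (b i) (b j)⁆ = (m : ℂ) • t (b i) (b j) := by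
      intro i j
      obtain ⟨m, hm⟩ := hw i
      obtain ⟨n, hn⟩ := hw j
      refine ⟨m + n, D.eqs (hbr _ h1J _ (htJ _ _)) (J.smul_mem _ (htJ _ _)) fun v => ?_⟩
      have h1 := D.symp.inv (-t (b 0) (b 3)) (b i) v
      have h2 := D.symp.inv (-t (b 0) (b 3)) (b j) v
      rw [hm, map_smul, LinearMap.smul_apply, smul_eq_mul] at h1
      rw [hn, map_smul, LinearMap.smul_apply, smul_eq_mul] at h2
      rw [lie_lie, smul_lie, ht (b i) (b j) v, lie_add, lie_smul, lie_smul, hm, hn,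
        ht (b i) (b j) ⁅-t (b 0) (b 3), v⁆]
      have h3 : ω (b i) ⁅-t (b 0) (b 3), v⁆ = -(m * ω (b i) v) := by linear_combination h1
      have h4 : ω (b j) ⁅-t (b 0) (b 3), v⁆ = -(n * ω (b j) v) := by linear_combination h2
      rw [h3, h4]
      push_cast
      module
    -- the operators given by combinations of eigenvectors
    obtain ⟨W, hW⟩ : ∃ W : Submodule ℂ L, W = Submodule.span ℂ
      {y : L | ∃ m : ℤ, ⁅-t (b 0) (b 3), y⁆ = (m : ℂ) • y} := ⟨_, rfl⟩
    have hbas : ∀ i j, t (b i) (b j) ∈ W := fun i j => by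
      rw [hW]
      exact Submodule.subset_span (htw i j)
    have tadd1 : ∀ u u' v, t (u + u') v = t u v + t u' v := fun u u' v =>
      D.eqs (htJ _ _) (J.add_mem (htJ _ _) (htJ _ _)) fun x => by
        rw [add_lie, ht, ht, ht, map_add, LinearMap.add_apply]; module
    have tsmul1 : ∀ (c : ℂ) u v, t (c • u) v = c • t u v := fun c u v =>
      D.eqs (htJ _ _) (J.smul_mem _ (htJ _ _)) fun x => by
        rw [smul_lie, ht, ht, map_smul, LinearMap.smul_apply, smul_eq_mul]; module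
    have tsymm : ∀ u v, t u v = t v u := fun u v =>
      D.eqs (htJ _ _) (htJ _ _) fun x => by rw [ht, ht, add_comm]
    have hall1 : ∀ u j, t u (b j) ∈ W := by
      intro u j
      have hu : u ∈ Submodule.span ℂ (Set.range b) := by rw [b.span_eq]; trivial
      induction hu using Submodule.span_induction with
      | mem u hu =>
        obtain ⟨i, rfl⟩ := hu
        exact hbas i j
      | zero =>
        have : t 0 (b j) = 0 := by
          have h := tsmul1 0 0 (b j)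
          rwa [zero_smul, zero_smul] at h
        rw [this]; exact W.zero_mem
      | add u u' _ _ h h' => rw [tadd1]; exact W.add_mem h h'
      | smul c u _ h => rw [tsmul1]; exact W.smul_mem c h
    have hall : ∀ u v, t u v ∈ W := by
      intro u v
      have hv : v ∈ Submodule.span ℂ (Set.range b) := by rw [b.span_eq]; trivial
      induction hv using Submodule.span_induction with
      | mem v hv =>
        obtain ⟨j, rfl⟩ := hv
        exact hall1 u j
      | zero =>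
        have : t u 0 = 0 := by
          have h := tsmul1 0 0 u
          rw [zero_smul, zero_smul] at h
          rw [tsymm, h]
        rw [this]; exact W.zero_mem
      | add v v' _ _ h h' => rw [tsymm, tadd1, tsymm v u, tsymm v' u]; exact W.add_mem h h'
      | smul c v _ h => rw [tsymm, tsmul1, tsymm v u]; exact W.smul_mem c h
    intro x hx
    let S : Submodule ℂ (Module.End ℂ B) :=
      { carrier := {Y | ∃ x ∈ J, x ∈ W ∧ ∀ v : B, ⁅x, v⁆ = Y v}
        add_mem' := by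
          rintro A C ⟨a, ha, haW, ha'⟩ ⟨c, hc, hcW, hc'⟩
          exact ⟨a + c, J.add_mem ha hc, W.add_mem haW hcW, fun v => by
            rw [add_lie, ha', hc', LinearMap.add_apply]⟩
        zero_mem' := ⟨0, J.zero_mem, W.zero_mem, fun v => by rw [zero_lie, LinearMap.zero_apply]⟩
        smul_mem' := by
          rintro c A ⟨a, ha, haW, ha'⟩
          exact ⟨c • a, J.smul_mem c ha, W.smul_mem c haW, fun v => by
            rw [smul_lie, ha', LinearMap.smul_apply]⟩ }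
    have hfin : FiniteDimensional ℂ B := b.finiteDimensional_of_finite
    have hxS : toEnd ℂ L B x ∈ S := by
      refine Simp_span D.symp.alt D.symp.nd S (fun u v => ?_) ?_
      · exact ⟨t u v, htJ u v, hall u v, fun x => by rw [ht, Simp_dot_apply]⟩
      · intro u v
        rw [toEnd_apply_apply, toEnd_apply_apply, D.symp.inv]
        ring
    obtain ⟨y, hyJ, hyW, hy⟩ := hxS
    have : x = y := D.eqs hx hyJ fun v => by rw [hy v, toEnd_apply_apply]
    rw [this, ← hW]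
    exact hyW

end alg

section mods

variable {L V : Type} [LieRing L] [LieAlgebra ℂ L] [AddCommGroup V] [Module ℂ V]
  [LieRingModule L V] [LieModule ℂ L V] [FiniteDimensional ℂ V]

/-- the semisimple element of a triple acts with integral weights -/
theorem Ful_int [LieModule.IsIrreducible ℂ L V] {h e f : L} (ef : ⁅e, f⁆ = h)
    (he : ⁅h, e⁆ = (2 : ℂ) • e) (hf : ⁅h, f⁆ = (-2 : ℂ) • f)
    (dec : ∀ x : L, x ∈ Submodule.span ℂ {y : L | ∃ m : ℤ, ⁅h, y⁆ = (m : ℂ) • y}) :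
    ⊤ ≤ Submodule.span ℂ {v : V | ∃ m : ℤ, ⁅h, v⁆ = (m : ℂ) • v} := by
  have hV : Nontrivial V := LieModule.nontrivial_of_isIrreducible ℂ L V
  obtain ⟨n, v, hv0, hv⟩ : ∃ (n : ℤ) (v : V), v ≠ 0 ∧ ⁅h, v⁆ = (n : ℂ) • v := by
    by_cases hh : h = 0
    · obtain ⟨v, hv⟩ := exists_ne (0 : V)
      exact ⟨0, v, hv, by rw [hh, zero_lie]; simp⟩
    have hfin : {μ | (toEnd ℂ L V h).HasEigenvalue μ}.Finite :=
      Module.End.finite_hasEigenvalue _
    obtain ⟨μ0, hμ0⟩ := Module.End.exists_eigenvalue (toEnd ℂ L V h)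
    obtain ⟨μ, hμ, hmax⟩ := Set.exists_max_image {μ | (toEnd ℂ L V h).HasEigenvalue μ}
      (fun ν : ℂ => ν.re) hfin ⟨μ0, hμ0⟩
    obtain ⟨v, hv⟩ := Module.End.HasEigenvalue.exists_hasEigenvector hμ
    have hv1 : ⁅h, v⁆ = μ • v := by
      have := hv.apply_eq_smul
      rwa [toEnd_apply_apply] at this
    have hev : ⁅e, v⁆ = 0 := by
      by_contra hne
      have h1 : ⁅h, ⁅e, v⁆⁆ = (μ + 2) • ⁅e, v⁆ := by
        rw [leibniz_lie, he, hv1, smul_lie, lie_smul, add_smul, add_comm]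
      have h2 : (toEnd ℂ L V h).HasEigenvalue (μ + 2) :=
        Module.End.hasEigenvalue_of_hasEigenvector (x := ⁅e, v⁆)
          ⟨Module.End.mem_eigenspace_iff.mpr h1, hne⟩
      have h3 := hmax _ h2
      simp only [Complex.add_re] at h3
      have h4 : (2 : ℂ).re = 2 := rfl
      rw [h4] at h3
      linarith
    have t : IsSl2Triple h e f := ⟨hh, ef, by rw [he]; module, by rw [hf]; module⟩
    have hp : t.HasPrimitiveVectorWith v μ := ⟨hv.2, hv1, hev⟩
    obtain ⟨n, hn⟩ := hp.exists_nat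
    exact ⟨n, v, hv.2, by rw [hv1, hn]; simp⟩
  rcases irr_cases (L := L) (Submodule.span ℂ {v : V | ∃ m : ℤ,
      ⁅h, v⁆ = (m : ℂ) • v}) (by
    intro x w hw
    have hx := dec x
    induction hx using Submodule.span_induction with
    | mem y hy =>
      obtain ⟨m', hm'⟩ := hy
      induction hw using Submodule.span_induction with
      | mem u hu =>
        obtain ⟨m, hm⟩ := hu
        refine Submodule.subset_span ⟨m + m', ?_⟩
        rw [leibniz_lie, hm', hm, smul_lie, lie_smul, ← add_smul]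
        congr 1
        push_cast; ring
      | zero => rw [lie_zero]; exact Submodule.zero_mem _
      | add a b _ _ ha hb => rw [lie_add]; exact Submodule.add_mem _ ha hb
      | smul c a _ ha => rw [lie_smul]; exact Submodule.smul_mem _ _ ha
    | zero => rw [zero_lie]; exact Submodule.zero_mem _
    | add a b _ _ ha hb => rw [add_lie]; exact Submodule.add_mem _ ha hb
    | smul c a _ ha => rw [smul_lie]; exact Submodule.smul_mem _ _ ha) with h1 | h1
  · exfalso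
    have h2 : v ∈ Submodule.span ℂ {v : V | ∃ m : ℤ, ⁅h, v⁆ = (m : ℂ) • v} :=
      Submodule.subset_span ⟨n, hv⟩
    rw [h1, Submodule.mem_bot] at h2
    exact hv0 h2
  · rw [h1]

omit [LieRing L] [LieAlgebra ℂ L] [LieRingModule L V] [LieModule ℂ L V] in
/-- traces of operators with integral weights -/
theorem Ful_tr (T : Module.End ℂ V) (φ : ℤ → Prop)
    (h : ⊤ ≤ Submodule.span ℂ {v : V | ∃ m : ℤ, φ m ∧ T v = (m : ℂ) • v}) :
    ∃ m : Fin (finrank ℂ V) → ℤ, (∀ j, φ (m j)) ∧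
      LinearMap.trace ℂ V T = ((∑ j, m j : ℤ) : ℂ) ∧
      LinearMap.trace ℂ V (T ∘ₗ T) = ((∑ j, m j ^ 2 : ℤ) : ℂ) := by
  classical
  obtain ⟨b, hb⟩ : ∃ b : Basis (Fin (finrank ℂ V)) ℂ V, ∀ j, ∃ m : ℤ,
      φ m ∧ T (b j) = (m : ℂ) • b j := by
    let b0 := Module.Basis.ofSpan h
    have hf : Finite ((linearIndepOn_empty ℂ id).extend (Set.empty_subset
      {v : V | ∃ m : ℤ, φ m ∧ T v = (m : ℂ) • v})) := Module.Finite.finite_basis b0
    have := Fintype.ofFinite ((linearIndepOn_empty ℂ id).extend (Set.empty_subset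
      {v : V | ∃ m : ℤ, φ m ∧ T v = (m : ℂ) • v}))
    refine ⟨b0.reindex (Fintype.equivFinOfCardEq (Module.finrank_eq_card_basis b0).symm),
      fun j => ?_⟩
    rw [Basis.reindex_apply]
    exact Module.Basis.ofSpan_subset h ⟨_, rfl⟩
  choose m hφ hm using hb
  refine ⟨m, hφ, ?_, ?_⟩
  · rw [LinearMap.trace_eq_matrix_trace ℂ b, Matrix.trace, Int.cast_sum]
    refine Finset.sum_congr rfl fun j _ => ?_
    rw [Matrix.diag_apply, LinearMap.toMatrix_apply, hm, map_smul, Finsupp.smul_apply,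
      Basis.repr_self, Finsupp.single_eq_same, smul_eq_mul, mul_one]
  · rw [LinearMap.trace_eq_matrix_trace ℂ b, Matrix.trace, Int.cast_sum]
    refine Finset.sum_congr rfl fun j _ => ?_
    rw [Matrix.diag_apply, LinearMap.toMatrix_apply, LinearMap.comp_apply, hm, map_smul, hm,
      map_smul, map_smul, Finsupp.smul_apply, Finsupp.smul_apply,
      Basis.repr_self, Finsupp.single_eq_same, smul_eq_mul, smul_eq_mul, mul_one]
    push_cast
    ring

omit [LieRing L] [LieAlgebra ℂ L] [LieRingModule L V] [LieModule ℂ L V] in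
/-- isotropic subspaces -/
theorem Ful_iso (ω : V →ₗ[ℂ] V →ₗ[ℂ] ℂ) (nd : ∀ x, (∀ y, ω x y = 0) → x = 0)
    (U : Submodule ℂ V) (hU : ∀ x ∈ U, ∀ y ∈ U, ω x y = 0) :
    2 * finrank ℂ U ≤ finrank ℂ V := by
  have hinj : Function.Injective ω := by
    rw [← LinearMap.ker_eq_bot, LinearMap.ker_eq_bot']
    intro x hx
    exact nd x fun y => by rw [hx]; rfl
  have hsurj : Function.Surjective ω :=
    (LinearMap.injective_iff_surjective_of_finrank_eq_finrank
      (Subspace.dual_finrank_eq (K := ℂ) (V := V)).symm).1 hinj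
  let R : V →ₗ[ℂ] Module.Dual ℂ U := U.dualRestrict ∘ₗ ω
  have hR : Function.Surjective R := Subspace.dualRestrict_surjective.comp hsurj
  have h1 := LinearMap.finrank_range_add_finrank_ker R
  rw [LinearMap.range_eq_top.mpr hR, finrank_top, Subspace.dual_finrank_eq] at h1
  have h2 : U ≤ LinearMap.ker R := by
    intro x hx
    rw [LinearMap.mem_ker]
    ext y
    exact hU x hx y y.2
  have h3 := Submodule.finrank_mono h2
  omega

variable {B : Type} [AddCommGroup B] [Module ℂ B] [LieRingModule L B] [LieModule ℂ L B]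
  {ω : B →ₗ[ℂ] B →ₗ[ℂ] ℂ} {b : Basis (Fin 4) ℂ B} {J M : LieIdeal ℂ L}

/-- stable subspaces are of dimension at least four -/
theorem Ful_key [LieModule.IsIrreducible ℂ L V] (D : Ful_D ω b J)
    (z12 : ∀ x ∈ J, ∀ y ∈ M, ⁅x, y⁆ = 0)
    (hsup : ∀ z : L, ∃ x ∈ J, ∃ y ∈ M, x + y = z)
    (hN : ∀ x : L, (∀ v : V, ⁅x, v⁆ = 0) → ∀ w : B, ⁅x, w⁆ = 0) (U : Submodule ℂ V)
    (hU0 : U ≠ ⊥) (hU : ∀ x ∈ J, ∀ u ∈ U, ⁅x, u⁆ ∈ U) : 3 < finrank ℂ U := by
  classical
  by_contra hcon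
  push Not at hcon
  obtain ⟨t, htJ, ht⟩ := D.exT
  let I := {p : Fin 4 × Fin 4 // p.1 ≤ p.2}
  have hI : Fintype.card I = 10 := by decide
  let F : (I → ℂ) →ₗ[ℂ] L := Fintype.linearCombination ℂ fun p : I => t (b p.1.1) (b p.1.2)
  have hF : ∀ c, F c = ∑ p : I, c p • t (b p.1.1) (b p.1.2) := fun c => rfl
  have hFJ : ∀ c, F c ∈ J := by
    intro c
    rw [hF]
    exact Submodule.sum_mem J.toSubmodule fun p _ => J.smul_mem _ (htJ _ _)
  let G : (I → ℂ) →ₗ[ℂ] (U →ₗ[ℂ] U) :=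
    { toFun := fun c => ((toEnd ℂ L V (F c)) ∘ₗ U.subtype).codRestrict U
        (fun u => hU _ (hFJ c) u u.2)
      map_add' := by
        intro c c'
        ext u
        simp only [LinearMap.codRestrict_apply, LinearMap.comp_apply, Submodule.subtype_apply,
          map_add, LinearMap.add_apply, Submodule.coe_add]
      map_smul' := by
        intro a c
        ext u
        simp only [LinearMap.codRestrict_apply, LinearMap.comp_apply, Submodule.subtype_apply,
          map_smul, LinearMap.smul_apply, Submodule.coe_smul, RingHom.id_apply] }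
  have hG : ∀ c (u : U), ((G c u : U) : V) = ⁅F c, (u : V)⁆ := fun c u => rfl
  have hlt : finrank ℂ (U →ₗ[ℂ] U) < finrank ℂ (I → ℂ) := by
    rw [Module.finrank_linearMap, Module.finrank_fintype_fun_eq_card, hI]
    nlinarith [Nat.zero_le (finrank ℂ U)]
  obtain ⟨c, hc, hc0⟩ := (Submodule.ne_bot_iff _).mp (LinearMap.ker_ne_bot_of_finrank_lt hlt)
  rw [LinearMap.mem_ker] at hc
  have hxU : ∀ u ∈ U, ⁅F c, u⁆ = 0 := by
    intro u hu
    have h1 := hG c ⟨u, hu⟩
    rw [hc] at h1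
    exact h1.symm
  -- the element is not zero
  have hx0 : F c ≠ 0 := by
    intro h0
    apply hc0
    funext q
    have h1 : ω ⁅F c, b (Fin.rev q.1.1)⁆ (b (Fin.rev q.1.2)) = 0 := by
      rw [h0, zero_lie, map_zero, LinearMap.zero_apply]
    rw [hF, sum_lie, map_sum, LinearMap.sum_apply] at h1
    have h2 : ∀ p : I, ω ⁅c p • t (b p.1.1) (b p.1.2), b (Fin.rev q.1.1)⁆ (b (Fin.rev q.1.2)) =
        c p * ((g4 p.1.1 (Fin.rev q.1.1) * g4 p.1.2 (Fin.rev q.1.2) +
          g4 p.1.2 (Fin.rev q.1.1) * g4 p.1.1 (Fin.rev q.1.2) : ℤ) : ℂ) := by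
      intro p
      rw [smul_lie, ht, map_smul, LinearMap.smul_apply, map_add, LinearMap.add_apply, map_smul,
        map_smul, LinearMap.smul_apply, LinearMap.smul_apply, D.gram, D.gram, D.gram, D.gram]
      simp only [smul_eq_mul]
      push_cast
      ring
    rw [Finset.sum_congr rfl fun p _ => h2 p] at h1
    have h3 : ∀ p q : I, p ≠ q → g4 p.1.1 (Fin.rev q.1.1) * g4 p.1.2 (Fin.rev q.1.2) +
        g4 p.1.2 (Fin.rev q.1.1) * g4 p.1.1 (Fin.rev q.1.2) = 0 := by decide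
    have h4 : ∀ q : I, g4 q.1.1 (Fin.rev q.1.1) * g4 q.1.2 (Fin.rev q.1.2) +
        g4 q.1.2 (Fin.rev q.1.1) * g4 q.1.1 (Fin.rev q.1.2) ≠ 0 := by decide
    rw [Finset.sum_eq_single q (fun p _ hp => by rw [h3 p q hp]; simp)
      (fun h => absurd (Finset.mem_univ _) h)] at h1
    exact (mul_eq_zero.mp h1).resolve_right (by exact_mod_cast h4 q)
  -- it acts trivially
  let V' : Submodule ℂ V :=
    { carrier := {v | ∀ x ∈ J, (∀ u ∈ U, ⁅x, u⁆ = 0) → ⁅x, v⁆ = 0}
      add_mem' := by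
        intro v w hv hw x hx h
        rw [lie_add, hv x hx h, hw x hx h, add_zero]
      zero_mem' := fun x _ _ => lie_zero x
      smul_mem' := by
        intro a v hv x hx h
        rw [lie_smul, hv x hx h, smul_zero] }
  have hV' : ∀ v, v ∈ V' ↔ ∀ x ∈ J, (∀ u ∈ U, ⁅x, u⁆ = 0) → ⁅x, v⁆ = 0 := fun v => Iff.rfl
  rcases irr_cases (L := L) V' (fun z v hv => by
    rw [hV'] at hv ⊢
    intro x hx h
    rw [leibniz_lie, hv x hx h, lie_zero, add_zero]
    refine hv _ (lie_mem_left ℂ L J x z hx) fun u hu => ?_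
    obtain ⟨a, ha, m, hm, rfl⟩ := hsup z
    rw [lie_add, z12 x hx m hm, add_zero, lie_lie, h u hu, lie_zero, sub_zero]
    exact h _ (hU a ha u hu)) with h | h
  · apply hU0
    rw [eq_bot_iff, ← h]
    intro u hu
    rw [hV']
    exact fun x _ h => h u hu
  · apply hx0
    refine D.faith _ (hFJ c) (hN _ fun v => ?_)
    have hv : v ∈ V' := by rw [h]; trivial
    exact (hV' v).mp hv _ (hFJ c) hxU

end mods

theorem Ful_ : St_Ful := by
  intro L V B _ _ _ _ _ _ _ _ _ _ _ _ _ _ _ _ ω hω hB hV0 hV hsurj Y hY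
  by_cases hN : ∃ x ∈ LieModule.ker ℂ L V, ∃ w : B, ⁅x, w⁆ ≠ 0
  · obtain ⟨x, hx, hx'⟩ := thm_Simp L B ω (LieModule.ker ℂ L V) hω hsurj hN Y hY
    exact ⟨x, (LieModule.mem_ker (R := ℂ) (L := L) (M := V) x).mp hx, hx'⟩
  exfalso
  push Not at hN
  have hN' : ∀ x : L, (∀ v : V, ⁅x, v⁆ = 0) → ∀ w : B, ⁅x, w⁆ = 0 := fun x hx w =>
    hN x ((LieModule.mem_ker (R := ℂ) (L := L) (M := V) x).mpr hx) w
  obtain ⟨p⟩ := exists_principal L
  obtain ⟨A⟩ := exists_adapted4 (p := p) hω hB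
  obtain ⟨M, hM⟩ : ∃ M : LieIdeal ℂ L, M = LieModule.ker ℂ L B := ⟨_, rfl⟩
  have memM : ∀ x, x ∈ M ↔ ∀ w : B, ⁅x, w⁆ = 0 := fun x => by
    rw [hM]; exact LieModule.mem_ker (R := ℂ) (L := L) (M := B) x
  obtain ⟨J, hJM⟩ := exists_isCompl M
  have hd : Disjoint J M := hJM.disjoint.symm
  have hsup : ∀ z : L, ∃ x ∈ J, ∃ y ∈ M, x + y = z := by
    intro z
    rw [← LieSubmodule.mem_sup, hJM.symm.sup_eq_top]
    exact LieSubmodule.mem_top z
  have z12 : ∀ x ∈ J, ∀ y ∈ M, ⁅x, y⁆ = 0 := fun x hx y hy => lie_zero_of_disjoint hd hx hy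
  have z21 : ∀ x ∈ M, ∀ y ∈ J, ⁅x, y⁆ = 0 := fun x hx y hy =>
    lie_zero_of_disjoint hd.symm hx hy
  have D : Ful_D ω A.b J := by
    refine ⟨hω, A.g_b, ?_, ?_⟩
    · intro x hx h
      have h1 : x ∈ J ⊓ M := ⟨hx, (memM x).mpr h⟩
      rw [hd.eq_bot] at h1
      exact h1
    · intro Z hZ
      obtain ⟨z, hz⟩ := hsurj Z hZ
      obtain ⟨x, hx, y, hy, rfl⟩ := hsup z
      refine ⟨x, hx, fun v => ?_⟩
      rw [← hz, add_lie, (memM y).mp hy, add_zero]
  have hVn : Nontrivial V := LieModule.nontrivial_of_isIrreducible ℂ L V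
  rcases hV with hV | ⟨hV, ω', hω'⟩
  · -- dimension three
    have h := Ful_key D z12 hsup hN' (⊤ : Submodule ℂ V) top_ne_bot
      (fun _ _ _ _ => Submodule.mem_top)
    rw [finrank_top, hV] at h
    exact lt_irrefl _ h
  obtain ⟨q, e, f, pt⟩ := exists_projTriple p M
  by_cases hq : ∀ v : V, ⁅q, v⁆ = 0
  swap
  · -- an eigenspace of `q`
    obtain ⟨n, hn⟩ := exists_parity pt (V := V)
    obtain ⟨v, m, hv, hv0⟩ : ∃ (v : V) (m : ℤ), ⁅q, v⁆ = ((n + 2 * m : ℤ) : ℂ) • v ∧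
        ⁅q, v⁆ ≠ 0 := by
      by_contra hcon
      push Not at hcon
      apply hq
      intro v
      have hv : v ∈ Submodule.span ℂ {v : V | ∃ m : ℤ, ⁅q, v⁆ = ((n + 2 * m : ℤ) : ℂ) • v} :=
        hn Submodule.mem_top
      induction hv using Submodule.span_induction with
      | mem v hv =>
        obtain ⟨m, hm⟩ := hv
        exact hcon v m hm
      | zero => rw [lie_zero]
      | add x y _ _ hx hy => rw [lie_add, hx, hy, add_zero]
      | smul c x _ hx => rw [lie_smul, hx, smul_zero]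
    obtain ⟨c, hc⟩ : ∃ c : ℂ, c = ((n + 2 * m : ℤ) : ℂ) := ⟨_, rfl⟩
    rw [← hc] at hv
    have hc0 : c ≠ 0 := by
      rintro h
      rw [h, zero_smul] at hv
      exact hv0 hv
    have hvn : v ≠ 0 := by
      rintro rfl
      exact hv0 (lie_zero q)
    have memU : ∀ u, u ∈ (toEnd ℂ L V q).eigenspace c ↔ ⁅q, u⁆ = c • u := fun u => by
      rw [Module.End.mem_eigenspace_iff, toEnd_apply_apply]
    have h1 := Ful_key D z12 hsup hN' ((toEnd ℂ L V q).eigenspace c) (by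
      rw [Submodule.ne_bot_iff]
      exact ⟨v, (memU v).mpr hv, hvn⟩) (by
      intro x hx u hu
      rw [memU] at hu ⊢
      rw [leibniz_lie, z21 q pt.hJ x hx, zero_lie, zero_add, hu, lie_smul])
    have h2 := Ful_iso ω' hω'.nd ((toEnd ℂ L V q).eigenspace c) (by
      intro x hx y hy
      rw [memU] at hx hy
      have h3 := hω'.inv q x y
      rw [hx, hy, map_smul, map_smul, LinearMap.smul_apply, smul_eq_mul] at h3
      have h4 : (2 * c) * ω' x y = 0 := by linear_combination h3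
      exact (mul_eq_zero.mp h4).resolve_left (mul_ne_zero two_ne_zero hc0))
    omega
  -- the projection of the principal element to `J`
  have hPJ : p.h - q ∈ J := by
    obtain ⟨a, ha, m, hm, hs⟩ := hsup p.h
    have hcen : m - q ∈ LieAlgebra.center ℂ L := by
      rw [LieModule.mem_maxTrivSubmodule]
      intro z
      rw [← lie_skew, neg_eq_zero]
      obtain ⟨z1, hz1, z2, hz2, rfl⟩ := hsup z
      rw [lie_add, z21 _ (M.sub_mem hm pt.hJ) z1 hz1, zero_add]
      have h1 := pt.comm z2 hz2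
      rw [← hs, add_sub_assoc, add_lie, z12 a ha z2 hz2, zero_add] at h1
      exact h1
    rw [LieAlgebra.center_eq_bot] at hcen
    have h1 : m - q = 0 := hcen
    rw [← hs, add_sub_assoc, h1, add_zero]
    exact ha
  obtain ⟨h1, h2, e1, f1, X, Z, h1J, h2J, ef1, he1, hf1, fh, XZ, Zh, hwt, hdec⟩ := D.elts
  have hP : p.h - q = (3 : ℂ) • h1 + h2 := by
    refine D.eqs hPJ (J.add_mem (J.smul_mem _ h1J) h2J) fun v => ?_
    have : toEnd ℂ L B (p.h - q) = toEnd ℂ L B ((3 : ℂ) • h1 + h2) := by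
      apply A.b.ext
      intro j
      rw [toEnd_apply_apply, toEnd_apply_apply, hwt, sub_lie, (memM q).mp pt.hJ, sub_zero, A.h_b]
    exact LinearMap.congr_fun this v
  have k1 : traceForm ℂ L V h1 h1 = traceForm ℂ L V h2 h2 := by
    have h : traceForm ℂ L V (h1 - h2) (h1 + h2) = 0 := by
      rw [← XZ, traceForm_apply_lie_apply, Zh, map_zero]
    rw [map_sub, LinearMap.sub_apply, map_add, map_add, traceForm_comm ℂ L V h2 h1] at h
    linear_combination h
  have k2 : traceForm ℂ L V h1 h2 = 0 := by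
    rw [← ef1, traceForm_apply_lie_apply, fh, map_zero]
  have k3 : traceForm ℂ L V (p.h - q) (p.h - q) = 10 * traceForm ℂ L V h1 h1 := by
    rw [hP]
    simp only [map_add, LinearMap.add_apply, map_smul, LinearMap.smul_apply,
      traceForm_comm ℂ L V h2 h1, k2, ← k1, smul_eq_mul]
    ring
  have hint := Ful_int (V := V) ef1 he1 hf1 (by
    intro x
    obtain ⟨a, ha, m, hm, rfl⟩ := hsup x
    refine Submodule.add_mem _ (hdec a ha) (Submodule.subset_span ⟨0, ?_⟩)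
    rw [z12 h1 h1J m hm]; simp)
  obtain ⟨n, -, hn1, hn2⟩ := Ful_tr (toEnd ℂ L V h1) (fun _ => True) (hint.trans
    (Submodule.span_mono fun v ⟨m, hm⟩ => ⟨m, trivial, hm⟩))
  obtain ⟨m, hm1, -, hm2⟩ := Ful_tr (toEnd ℂ L V (p.h - q)) Odd ((p.odd_span hω').trans
    (Submodule.span_mono fun v ⟨m, hm, hv⟩ => ⟨m, hm, by
      rw [toEnd_apply_apply, sub_lie, hq, sub_zero, hv]⟩))
  rw [hV0] at hn1
  have hn3 : ∑ j, n j = 0 := by exact_mod_cast hn1.symm
  have k4 : ((∑ j, m j ^ 2 : ℤ) : ℂ) = ((10 * ∑ j, n j ^ 2 : ℤ) : ℂ) := by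
    rw [Int.cast_mul, ← hm2, ← hn2]
    exact k3
  have k5 : ∑ j, m j ^ 2 = 10 * ∑ j, n j ^ 2 := by exact_mod_cast k4
  have k6 : ∃ K : ℤ, ∑ j, m j ^ 2 = 4 * K + 6 := by
    choose k hk using hm1
    refine ⟨∑ j, (k j ^ 2 + k j), ?_⟩
    have : ∀ j, m j ^ 2 = 4 * (k j ^ 2 + k j) + 1 := fun j => by rw [hk j]; ring
    have h6 : ((finrank ℂ V : ℕ) : ℤ) = 6 := by rw [hV]; rfl
    rw [Finset.sum_congr rfl fun j _ => this j, Finset.sum_add_distrib, ← Finset.mul_sum,
      Finset.sum_const, Finset.card_univ, Fintype.card_fin, nsmul_eq_mul, h6, mul_one]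
  have k7 : ∃ K : ℤ, ∑ j, n j ^ 2 = 2 * K := by
    have h : ∀ j, ∃ l : ℤ, n j ^ 2 = n j + 2 * l := by
      intro j
      obtain ⟨l, hl⟩ := Int.even_mul_pred_self (n j)
      exact ⟨l, by linear_combination hl⟩
    choose l hl using h
    refine ⟨∑ j, l j, ?_⟩
    rw [Finset.sum_congr rfl fun j _ => hl j, Finset.sum_add_distrib, ← Finset.mul_sum, hn3,
      zero_add]
  obtain ⟨K, hK⟩ := k6
  obtain ⟨K', hK'⟩ := k7
  omega

end Pool.Agent.D5
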