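import Pool.Agent.D5.StU

/-!
# D5: the properties of the Lie algebra of a function of four vectors
-/

set_option autoImplicit false

namespace Pool.Agent.D5

open Module NumberField LieAlgebra
open Pool.Agent.Helper7 Pool.Agent.GPC Pool.Agent.Helper24
open Pool.Agent.Helper8 (ML2 ML4 Inv2 Inv4 Symp Principal)

attribute [local instance 100] LieRing.ofAssociativeRing

/-- a linear function which vanishes on the eigenspaces is zero -/
private theorem lin0 {κ K : Type} [Field K] [NumberField K]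
    (ρ : K →+* Module.End ℂ (κ → ℂ)) (f : (κ → ℂ) → ℂ) (hf : IsLinearMap ℂ f)
    (h : ∀ (σ : K →+* ℂ) (x : κ → ℂ), f (proj ρ σ x) = 0) (x : κ → ℂ) : f x = 0 := by
  have e : f x = ∑ σ, f (proj ρ σ x) := by
    conv_lhs => rw [sum_proj_apply ρ x]
    exact map_sum (IsLinearMap.mk' f hf) _ _
  rw [e]
  exact Finset.sum_eq_zero fun σ _ => h σ x

/-- an endomorphism of a line with trace zero is zero -/
private theorem line0 {V : Type} [AddCommGroup V] [Module ℂ V] (h1 : finrank ℂ V = 1)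
    (T : V →ₗ[ℂ] V) (hT : LinearMap.trace ℂ V T = 0) (v : V) : T v = 0 := by
  have hf : Module.Finite ℂ V := Module.finite_of_finrank_pos (by rw [h1]; exact one_pos)
  obtain ⟨u, -, hu⟩ := finrank_eq_one_iff'.mp h1
  obtain ⟨c, hc⟩ := hu (T u)
  have h2 : T = c • LinearMap.id := by
    apply LinearMap.ext
    intro w
    obtain ⟨e, rfl⟩ := hu w
    rw [map_smul, ← hc, LinearMap.smul_apply, LinearMap.id_apply, smul_comm]
  rw [h2, map_smul, LinearMap.trace_id, h1, Nat.cast_one, smul_eq_mul, mul_one] at hT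
  rw [h2, hT, zero_smul, LinearMap.zero_apply]

section

variable {I : Type} [Fintype I] [DecidableEq I] (A : I → AbVar)
  {K : I → Type} [∀ i, Field (K i)] [∀ i, NumberField (K i)] {r : I → ℕ}
  (F : ∀ i, UF (pData (A i)) (K i) (r i)) {a b c d : I}
  {G : (A a).H1 → (A b).H1 → (A c).H1 → (A d).H1 → ℂ}

/-- a vector of one place -/
private noncomputable def sl (i : I) (x : kap A i → ℂ) : HW (kap A) (n1 I) :=
  fun j _ => (Pi.single i x : MM (kap A)) j

omit [Fintype I] in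
private theorem sl_same (i : I) (x : kap A i → ℂ) (m : Fin (n1 I i)) : sl A i x i m = x := by
  show (Pi.single i x : MM (kap A)) i = x
  rw [Pi.single_eq_same]

omit [Fintype I] in
private theorem lift_sl (N : (i : I) → Module.End ℂ (kap A i → ℂ)) (i : I) (x : kap A i → ℂ)
    (m : Fin (n1 I i)) : lift (n1 I) N (sl A i x) i m = N i x := by
  rw [lift_apply, sl_same]

omit [Fintype I] in
private theorem form4 (hG : ML4 G) {X : GG (kap A)}
    (hX : IsInv (n1 I) (PA A) (aG A a b c d G hG) X)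
    (x : (A a).H1) (y : (A b).H1) (z : (A c).H1) (w : (A d).H1) :
    G (X.1 a x) y z w + G x (X.1 b y) z w + G x y (X.1 c z) w + G x y z (X.1 d w) =
      2 * X.2 * G x y z w := by
  classical
  have h1 := congrArg (fun g => g ![sl A a x, sl A b y, sl A c z, sl A d w]) hX.form
  rw [actForm_apply] at h1
  have h2 : ∀ f : Fin (2 * 2) → ℂ, ∑ r, f r = f 0 + f 1 + f 2 + f 3 := fun f =>
    Fin.sum_univ_four f
  rw [h2] at h1
  have e0 : aG A a b c d G hG (Function.update ![sl A a x, sl A b y, sl A c z, sl A d w] 0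
      (lift (n1 I) X.1 (sl A a x))) = G (X.1 a x) y z w := by
    show G (lift (n1 I) X.1 (sl A a x) a 0) (sl A b y b 0) (sl A c z c 0) (sl A d w d 0) = _
    rw [lift_sl, sl_same, sl_same, sl_same]
  have e1 : aG A a b c d G hG (Function.update ![sl A a x, sl A b y, sl A c z, sl A d w] 1
      (lift (n1 I) X.1 (sl A b y))) = G x (X.1 b y) z w := by
    show G (sl A a x a 0) (lift (n1 I) X.1 (sl A b y) b 0) (sl A c z c 0) (sl A d w d 0) = _
    rw [lift_sl, sl_same, sl_same, sl_same]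
  have e2 : aG A a b c d G hG (Function.update ![sl A a x, sl A b y, sl A c z, sl A d w] 2
      (lift (n1 I) X.1 (sl A c z))) = G x y (X.1 c z) w := by
    show G (sl A a x a 0) (sl A b y b 0) (lift (n1 I) X.1 (sl A c z) c 0) (sl A d w d 0) = _
    rw [lift_sl, sl_same, sl_same, sl_same]
  have e3 : aG A a b c d G hG (Function.update ![sl A a x, sl A b y, sl A c z, sl A d w] 3
      (lift (n1 I) X.1 (sl A d w))) = G x y z (X.1 d w) := by
    show G (sl A a x a 0) (sl A b y b 0) (sl A c z c 0) (lift (n1 I) X.1 (sl A d w) d 0) = _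
    rw [lift_sl, sl_same, sl_same, sl_same]
  have e4 : aG A a b c d G hG ![sl A a x, sl A b y, sl A c z, sl A d w] = G x y z w := by
    show G (sl A a x a 0) (sl A b y b 0) (sl A c z c 0) (sl A d w d 0) = _
    rw [sl_same, sl_same, sl_same, sl_same]
  have h3 : G (X.1 a x) y z w + G x (X.1 b y) z w + G x y (X.1 c z) w + G x y z (X.1 d w) =
      (((2 : ℕ) : ℂ) * X.2) • aG A a b c d G hG ![sl A a x, sl A b y, sl A c z, sl A d w] := by
    rw [← e0, ← e1, ← e2, ← e3]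
    exact h1
  rw [h3, e4, smul_eq_mul, Nat.cast_ofNat]

/-- the action of a symmetry on a component -/
private theorem act1 (hG : ML4 G) {X : GG (kap A)}
    (hX : IsInv (n1 I) (PA A) (aG A a b c d G hG) X) (i : I) (σ : K i →+* ℂ)
    (x : VG A F hG ⟨i, σ⟩) :
    ((⁅elL (n1 I) (PA A) F (aG A a b c d G hG) X hX, x⁆ : VG A F hG ⟨i, σ⟩) : MM (kap A)) i =
      X.1 i ((x : MM (kap A)) i) - ch (PA A) F ⟨i, σ⟩ X • (x : MM (kap A)) i :=
  elL_act (n1 I) (PA A) F (aG A a b c d G hG) X hX ⟨i, σ⟩ x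

private theorem sm {V : Type} [AddCommGroup V] [Module ℂ V] {f : V → ℂ} (hf : IsLinearMap ℂ f)
    (u v : V) (k : ℂ) : f (u - k • v) = f u - k * f v := by
  rw [sub_eq_add_neg, ← neg_smul, hf.map_add, hf.map_smul, smul_eq_mul]
  ring

/-- the sum of the actions on a component -/
private theorem act4 (hG : ML4 G) {X : GG (kap A)}
    (hX : IsInv (n1 I) (PA A) (aG A a b c d G hG) X)
    (s1 : K a →+* ℂ) (s2 : K b →+* ℂ) (s3 : K c →+* ℂ) (s4 : K d →+* ℂ)
    (x : VG A F hG ⟨a, s1⟩) (y : VG A F hG ⟨b, s2⟩) (z : VG A F hG ⟨c, s3⟩)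
    (w : VG A F hG ⟨d, s4⟩) :
    cG A F hG s1 s2 s3 s4 ⁅elL (n1 I) (PA A) F (aG A a b c d G hG) X hX, x⁆ y z w +
    cG A F hG s1 s2 s3 s4 x ⁅elL (n1 I) (PA A) F (aG A a b c d G hG) X hX, y⁆ z w +
    cG A F hG s1 s2 s3 s4 x y ⁅elL (n1 I) (PA A) F (aG A a b c d G hG) X hX, z⁆ w +
    cG A F hG s1 s2 s3 s4 x y z ⁅elL (n1 I) (PA A) F (aG A a b c d G hG) X hX, w⁆ =
    (2 * X.2 - (ch (PA A) F ⟨a, s1⟩ X + ch (PA A) F ⟨b, s2⟩ X + ch (PA A) F ⟨c, s3⟩ X +
      ch (PA A) F ⟨d, s4⟩ X)) * cG A F hG s1 s2 s3 s4 x y z w := by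
  have h0 := form4 A hG hX ((x : MM (kap A)) a) ((y : MM (kap A)) b) ((z : MM (kap A)) c)
    ((w : MM (kap A)) d)
  unfold cG
  rw [act1 A F hG hX a s1 x, act1 A F hG hX b s2 y, act1 A F hG hX c s3 z,
    act1 A F hG hX d s4 w]
  have h1 := sm (hG.l1 ((y : MM (kap A)) b) ((z : MM (kap A)) c) ((w : MM (kap A)) d))
    (X.1 a ((x : MM (kap A)) a)) ((x : MM (kap A)) a) (ch (PA A) F ⟨a, s1⟩ X)
  have h2 := sm (hG.l2 ((x : MM (kap A)) a) ((z : MM (kap A)) c) ((w : MM (kap A)) d))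
    (X.1 b ((y : MM (kap A)) b)) ((y : MM (kap A)) b) (ch (PA A) F ⟨b, s2⟩ X)
  have h3 := sm (hG.l3 ((x : MM (kap A)) a) ((y : MM (kap A)) b) ((w : MM (kap A)) d))
    (X.1 c ((z : MM (kap A)) c)) ((z : MM (kap A)) c) (ch (PA A) F ⟨c, s3⟩ X)
  have h4 := sm (hG.l4 ((x : MM (kap A)) a) ((y : MM (kap A)) b) ((z : MM (kap A)) c))
    (X.1 d ((w : MM (kap A)) d)) ((w : MM (kap A)) d) (ch (PA A) F ⟨d, s4⟩ X)
  rw [h1, h2, h3, h4]
  linear_combination h0

end

/-- [Fr] -/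
theorem Fr_ : St_Fr := by
  intro I _ _ A K _ _ r F a b c d G hG hr
  have hϖ : (2 * Real.pi * Complex.I : ℂ) ≠ 0 := Complex.two_pi_I_ne_zero
  have hB : ∀ v : Fin (2 * 2) → HW (kap A) (n1 I), (∀ r, IsRatP (n1 I) (PA A) (v r)) →
      ∃ q : ℚ, aG A a b c d G hG.ml v = (2 * Real.pi * Complex.I) ^ 2 * q := by
    intro v hv
    exact hG.rat _ _ _ _ ((mem_pData_Q (A a) _).mp (hv 0 a 0)) ((mem_pData_Q (A b) _).mp (hv 1 b 0))
      ((mem_pData_Q (A c) _).mp (hv 2 c 0)) ((mem_pData_Q (A d) _).mp (hv 3 d 0))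
  have hA : ∀ v : Fin (2 * 2) → HW (kap A) (n1 I), (∀ r i m j, IsAlgebraic ℚ (v r i m j)) →
      IsAlgebraic ℚ (aG A a b c d G hG.ml v) := by
    intro v hv
    exact hG.alg _ _ _ _ (fun j => hv 0 a 0 j) (fun j => hv 1 b 0 j) (fun j => hv 2 c 0 j)
      (fun j => hv 3 d 0 j)
  have hkill : IsKilling ℂ (LG A F hG.ml) := by
    have := LL_trivialRadical (n1 I) (PA A) F (aG A a b c d G hG.ml) hϖ hB hA hr
    exact LieAlgebra.HasTrivialRadical.instIsKilling ℂ _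
  have htr : ∀ s, Tr0 (LG A F hG.ml) (VG A F hG.ml s) := fun s x =>
    trace_Vs (n1 I) (PA A) F (aG A a b c d G hG.ml) s (hr s.1) x
  have hrank : ∀ s, finrank ℂ (VG A F hG.ml s) = r s.1 := fun s =>
    finrank_Vs (n1 I) (PA A) F (aG A a b c d G hG.ml) s
  have hinv : ∀ s1 s2 s3 s4, Inv4 (LG A F hG.ml) (cG A F hG.ml s1 s2 s3 s4) := by
    intro s1 s2 s3 s4 e x y z w
    obtain ⟨X, hX, rfl, h2, h3⟩ :=
      perfect_lift (n1 I) (PA A) F (aG A a b c d G hG.ml) hkill e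
    rw [act4 A F hG.ml hX s1 s2 s3 s4 x y z w, h2, h3, h3, h3, h3]
    ring
  refine ⟨hB, hA, hkill, fun s => Vs_irr (n1 I) (PA A) F (aG A a b c d G hG.ml) hϖ hB hA s
    (hr s.1), hrank, htr, ?_, ?_, hinv, ?_, ?_⟩
  · intro s hs x v
    exact line0 ((hrank s).trans hs) (LieModule.toEnd ℂ (LG A F hG.ml) (VG A F hG.ml s) x)
      (htr s x) v
  · intro s1 s2 s3 s4
    exact ⟨fun y z w => ⟨fun u v => (hG.ml.l1 _ _ _).map_add _ _,
        fun k u => (hG.ml.l1 _ _ _).map_smul _ _⟩,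
      fun x z w => ⟨fun u v => (hG.ml.l2 _ _ _).map_add _ _,
        fun k u => (hG.ml.l2 _ _ _).map_smul _ _⟩,
      fun x y w => ⟨fun u v => (hG.ml.l3 _ _ _).map_add _ _,
        fun k u => (hG.ml.l3 _ _ _).map_smul _ _⟩,
      fun x y z => ⟨fun u v => (hG.ml.l4 _ _ _).map_add _ _,
        fun k u => (hG.ml.l4 _ _ _).map_smul _ _⟩⟩
  · rintro s1 s2 s3 s4 ⟨x, y, z, w, hne⟩ X hX
    have h1 := act4 A F hG.ml hX s1 s2 s3 s4 x y z w
    rw [hinv s1 s2 s3 s4] at h1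
    rcases mul_eq_zero.mp h1.symm with h2 | h2
    · exact (sub_eq_zero.mp h2).symm
    · exact absurd h2 hne
  · intro h x y z w
    have h1 : ∀ (s1 : K a →+* ℂ) (s2 : K b →+* ℂ) (s3 : K c →+* ℂ) (s4 : K d →+* ℂ)
        (x : (A a).H1) (y : (A b).H1) (z : (A c).H1) (w : (A d).H1),
        G (proj (F a).ρ s1 x) (proj (F b).ρ s2 y) (proj (F c).ρ s3 z)
          (proj (F d).ρ s4 w) = 0 := by
      intro s1 s2 s3 s4 x y z w
      have h2 := h s1 s2 s3 s4
        (toVs (n1 I) (PA A) F (aG A a b c d G hG.ml) ⟨a, s1⟩ x)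
        (toVs (n1 I) (PA A) F (aG A a b c d G hG.ml) ⟨b, s2⟩ y)
        (toVs (n1 I) (PA A) F (aG A a b c d G hG.ml) ⟨c, s3⟩ z)
        (toVs (n1 I) (PA A) F (aG A a b c d G hG.ml) ⟨d, s4⟩ w)
      unfold cG at h2
      rw [toVs_apply (n1 I) (PA A) F (aG A a b c d G hG.ml) ⟨a, s1⟩ x,
        toVs_apply (n1 I) (PA A) F (aG A a b c d G hG.ml) ⟨b, s2⟩ y,
        toVs_apply (n1 I) (PA A) F (aG A a b c d G hG.ml) ⟨c, s3⟩ z,
        toVs_apply (n1 I) (PA A) F (aG A a b c d G hG.ml) ⟨d, s4⟩ w] at h2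
      exact h2
    refine lin0 (F a).ρ (fun x => G x y z w) (hG.ml.l1 y z w) (fun s1 x => ?_) x
    refine lin0 (F b).ρ (fun y => G (proj (F a).ρ s1 x) y z w) (hG.ml.l2 _ z w)
      (fun s2 y => ?_) y
    refine lin0 (F c).ρ (fun z => G (proj (F a).ρ s1 x) (proj (F b).ρ s2 y) z w)
      (hG.ml.l3 _ _ w) (fun s3 z => ?_) z
    exact lin0 (F d).ρ (fun w => G (proj (F a).ρ s1 x) (proj (F b).ρ s2 y)
      (proj (F c).ρ s3 z) w) (hG.ml.l4 _ _ _) (fun s4 w => h1 s1 s2 s3 s4 x y z w) w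

end Pool.Agent.D5
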