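import Pool.Agent.D5.StU

/-!
# D5, module Gal (helper95): Galois stability of weight relations, endomorphisms in rank one
-/

set_option autoImplicit false

namespace Pool.Agent.D5

open Module NumberField LieAlgebra
open Pool.Agent.Helper7 Pool.Agent.GPC Pool.Agent.Helper24
open Pool.Agent.Helper8 (ML2 ML4 Inv2 Inv4 Symp Principal)

attribute [local instance 100] LieRing.ofAssociativeRing

theorem Gal_ : St_Gal := by
  intro I _ _ n κ _ _ ϖ P K _ _ r F k α hϖ hB m t q c h τ X hX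
  have hrat : ∀ Y, IsInv n P α Y → IsRatl P Y →
      ∑ j, (q j : ℂ) * ch P F (actT τ (t j)) Y = c * Y.2 := by
    intro Y hY hr
    have h1 : ∀ t : Emb K, τ (ch P F t Y) = ch P F (actT τ t) Y := by
      rintro ⟨i, σ⟩
      obtain ⟨x, hx⟩ := ch_rat n P F α i Y hY hr
      show τ (ch P F ⟨i, σ⟩ Y) = ch P F ⟨i, (τ : ℂ →+* ℂ).comp σ⟩ Y
      rw [hx, hx]
      rfl
    obtain ⟨s, hs⟩ := hr.2
    have h2 := congrArg τ (h Y hY)
    rw [map_sum, map_mul, map_ratCast, hs, map_ratCast, ← hs] at h2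
    rw [← h2]
    refine Finset.sum_congr rfl fun j _ => ?_
    rw [map_mul, map_ratCast, h1]
  have hspan := mem_span_of_isInv n P α hϖ hB X hX
  clear hX
  have hadd : ∀ (Y Z : GG κ) (s : Emb K), ch P F s (Y + Z) = ch P F s Y + ch P F s Z :=
    fun Y Z s => ch_add P F Y Z s
  have hsm : ∀ (a : ℂ) (Y : GG κ) (s : Emb K), ch P F s (a • Y) = a * ch P F s Y := by
    intro a Y s
    show tw (F s.1) s.2 ((a • Y).1 s.1) = a * tw (F s.1) s.2 (Y.1 s.1)
    have h3 : (a • Y).1 s.1 = a • Y.1 s.1 := rfl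
    rw [h3, map_smul, smul_eq_mul]
  induction hspan using Submodule.span_induction with
  | mem Y hY => exact hrat Y hY.1 hY.2
  | zero =>
    have h0 : ∀ s : Emb K, ch P F s (0 : GG κ) = 0 := by
      intro s
      have := hsm 0 0 s
      rwa [zero_smul, zero_mul] at this
    simp [h0]
  | add Y Z _ _ h1 h2 =>
    have h3 : (Y + Z).2 = Y.2 + Z.2 := rfl
    simp only [hadd, mul_add, Finset.sum_add_distrib]
    rw [h1, h2, h3, mul_add]
  | smul a Y _ h1 =>
    have h3 : (a • Y).2 = a * Y.2 := rfl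
    rw [h3, mul_left_comm, ← h1, Finset.mul_sum]
    refine Finset.sum_congr rfl fun j _ => ?_
    rw [hsm]
    ring

theorem En1_ : St_En1 := by
  intro A K _ _ F hs f hf
  let f' : A.H1 →ₗ[ℂ] A.H1 := hf.linear.mk' f
  have hd : IsDRB (pData A) (pData A) f' :=
    isDRB_of_isEnd A f' ⟨f'.isLinear, hf.betti, hf.deRham, hf.hodge⟩
  obtain ⟨x, hx⟩ := F.gen (f' (F.lam 0)) (hd.rat _ (F.lam_rat 0))
  rw [Fin.sum_univ_one] at hx
  let g : A.H1 →ₗ[ℂ] A.H1 := f' - F.ρ (x 0)
  have hg : IsDRB (pData A) (pData A) g := by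
    refine ⟨fun v hv => ?_, fun i j => ?_⟩
    · exact Submodule.sub_mem _ (hd.rat v hv) ((F.hρ (x 0)).rat v hv)
    · exact (hd.alg i j).sub ((F.hρ (x 0)).alg i j)
  have hg0 : ∀ v, g v = 0 := by
    by_contra hcon
    push Not at hcon
    have hinj := hs g (isEnd_of_isDRB A g hg) hcon
    apply lam_ne F 0
    apply hinj
    rw [map_zero]
    show f' (F.lam 0) - F.ρ (x 0) (F.lam 0) = 0
    rw [hx, sub_self]
  refine ⟨x 0, fun v => ?_⟩
  have h1 : f' v - F.ρ (x 0) v = 0 := hg0 v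
  exact sub_eq_zero.1 h1

end Pool.Agent.D5
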