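import Pool.Agent.D5.StU
import Pool.Agent.KSE.ProjE
import Pool.Agent.Helper7.Bridge3

/-!
# D5: simple factors have no rational subspaces stable under the symmetries
-/

set_option autoImplicit false

namespace Pool.Agent.D5

open Module NumberField
open Pool.Agent.Helper7 Pool.Agent.GPC Pool.Agent.Helper24

/-- a rational subspace which spans the complex space is everything -/
private lemma irr_full {κ : Type} [Fintype κ] [DecidableEq κ] {ϖ : ℂ} (P : PData κ ϖ)
    (U : Submodule ℚ (κ → ℂ)) (hU : U ≤ P.Q)
    (h : ∀ v, v ∈ Submodule.span ℂ (U : Set (κ → ℂ))) : U = P.Q := by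
  classical
  have hcardι : Fintype.card P.ι = Fintype.card κ := by
    have h1 := Module.finrank_eq_card_basis P.bB
    rw [Module.finrank_fintype_fun_eq_card] at h1
    exact h1.symm
  have hfin : finrank ℚ P.Q = Fintype.card κ := by
    rw [← hcardι]
    apply finrank_span_eq_card
    exact P.bB.linearIndependent.restrict_scalars (by
      intro a b h
      simpa using h)
  have hQfin : Module.Finite ℚ P.Q := Module.Finite.span_of_finite ℚ (Set.finite_range P.bB)
  have hUfin : Module.Finite ℚ U := Submodule.finiteDimensional_of_le hU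
  refine Submodule.eq_of_le_of_finrank_le hU ?_
  rw [hfin]
  obtain ⟨b, hb⟩ : ∃ b : Basis (Fin (finrank ℚ U)) ℚ U, b = finBasis ℚ U := ⟨_, rfl⟩
  have hspan : Submodule.span ℂ (Set.range fun j => ((b j : U) : κ → ℂ)) = ⊤ := by
    rw [eq_top_iff]
    intro v _
    refine Submodule.span_le.mpr ?_ (h v)
    intro u hu
    have h2 : u = ∑ j, ((b.repr ⟨u, hu⟩ j : ℚ) : ℂ) • ((b j : U) : κ → ℂ) := by
      have h3 := congrArg (fun w : U => (w : κ → ℂ)) (b.sum_repr ⟨u, hu⟩)
      simp only [Submodule.coe_sum, Submodule.coe_smul] at h3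
      refine h3.symm.trans (Finset.sum_congr rfl fun j _ => ?_)
      rw [← algebraMap_smul ℂ (b.repr ⟨u, hu⟩ j)]; rfl
    show u ∈ Submodule.span ℂ (Set.range fun j => ((b j : U) : κ → ℂ))
    rw [h2]
    exact Submodule.sum_mem _ fun j _ => Submodule.smul_mem _ _ (Submodule.subset_span ⟨j, rfl⟩)
  have h4 := finrank_le_of_span_eq_top hspan
  rw [Module.finrank_fintype_fun_eq_card, Fintype.card_fin] at h4
  exact h4

/-- [Irr] -/
theorem Irr_ : St_Irr := by
  intro I _ _ A n k α hB hA i hs U hU hst
  obtain ⟨p, hp, hpU, hpspan⟩ := Pool.Agent.KSE.exists_projE n Complex.two_pi_I_ne_zero (PA A) i α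
    hB hA (hnd_pData (A i)) U hU hst
  have hfix : ∀ v ∈ Submodule.span ℂ (U : Set ((A i).H1)), p v = v := by
    intro v hv
    induction hv using Submodule.span_induction with
    | mem v hv => exact hpU v hv
    | zero => exact map_zero p
    | add a b _ _ ha hb => rw [map_add, ha, hb]
    | smul c a _ ha => rw [map_smul, ha]
  by_cases h0 : ∃ v, p v ≠ 0
  · right
    have hinj := hs p (isEnd_of_isDRB (A i) p hp) h0
    refine irr_full (pData (A i)) U hU fun v => ?_
    have h1 : p v = v := hinj (hfix _ (hpspan v))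
    rw [← h1]
    exact hpspan v
  · left
    push Not at h0
    rw [eq_bot_iff]
    intro v hv
    rw [Submodule.mem_bot, ← hpU v hv]
    exact h0 v

end Pool.Agent.D5
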