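import Pool.Agent.D5.StU
import Pool.Agent.Helper24.PT.UPair

/-!
# D5, module Iso: invariant pairings of two places come from homomorphisms
-/

set_option autoImplicit false

namespace Pool.Agent.D5

open Module NumberField LieAlgebra
open Pool.Agent.Helper7 Pool.Agent.GPC Pool.Agent.Helper24
open Pool.Agent.Helper8 (ML2 ML4 Inv2 Inv4 Symp Principal exists_linear)

attribute [local instance 100] LieRing.ofAssociativeRing

theorem Iso_ : St_Iso := by
  intro I _ _ n κ _ _ ϖ P K _ _ r F k α hϖ hB hA hr s t hiso hsimple f hf hI chs hne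
  obtain ⟨x, y, hxy⟩ := hne
  by_contra hst
  apply hxy
  obtain ⟨β, hβ⟩ := exists_linear hf
  obtain ⟨m, c, g, hg, hβg⟩ := bilin_of_inv n P α hϖ hB hA s.1 t.1
    (β.compl₁₂ (toVs n P F α s) (toVs n P F α t)) (by
      intro X hX u v
      simp only [LinearMap.compl₁₂_apply]
      rw [toVs_act n P F α X hX s u, toVs_act n P F α X hX t v]
      simp only [map_add, map_smul, LinearMap.add_apply, LinearMap.smul_apply, smul_eq_mul]
      simp only [hβ]
      have h1 := hI (elL n P F α X hX) (toVs n P F α s u) (toVs n P F α t v)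
      linear_combination h1 + f (toVs n P F α s u) (toVs n P F α t v) * chs X hX)
  simp only [LinearMap.compl₁₂_apply] at hβg
  have hval : f x y = ∑ l, c l * (P t.1).ψ (g l ((x : MM κ) s.1)) ((y : MM κ) t.1) := by
    rw [← hβg]
    have h1 : toVs n P F α s ((x : MM κ) s.1) = x := toVs_ofVs n P F α s x
    have h2 : toVs n P F α t ((y : MM κ) t.1) = y := toVs_ofVs n P F α t y
    rw [h1, h2, hβ]
  rw [hval]
  refine Finset.sum_eq_zero fun l _ => ?_
  by_cases hij : s.1 = t.1
  · obtain ⟨i, σ⟩ := s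
    obtain ⟨j, τ⟩ := t
    obtain rfl : i = j := hij
    simp only at hsimple g hg ⊢
    obtain ⟨z, hz⟩ := hsimple trivial (g l) (hg l)
    have hx : proj (F i).ρ σ ((x : MM κ) i) = (x : MM κ) i := Vs_proj n P F α ⟨i, σ⟩ x
    have hy : proj (F i).ρ τ ((y : MM κ) i) = (y : MM κ) i := Vs_proj n P F α ⟨i, τ⟩ y
    have hne : τ ≠ ComplexEmbedding.conjugate σ := by
      rintro rfl
      exact hst rfl
    rw [hz, ← hx, ← hy, ← Module.End.mul_apply, rho_mul_proj, LinearMap.smul_apply, map_smul,
      LinearMap.smul_apply, psi_proj (F i) σ τ _ _ hne, smul_zero, mul_zero]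
  · rw [hiso hij (g l) (hg l), map_zero, LinearMap.zero_apply, mul_zero]

private theorem iso_line {L V : Type} [LieRing L] [LieAlgebra ℂ L] [AddCommGroup V] [Module ℂ V]
    [LieRingModule L V] [LieModule ℂ L V] (hV : finrank ℂ V = 1) (a : L)
    (ht : LinearMap.trace ℂ _ (LieModule.toEnd ℂ L V a) = 0) (v : V) : ⁅a, v⁆ = 0 := by
  have : FiniteDimensional ℂ V := FiniteDimensional.of_finrank_pos (by rw [hV]; exact one_pos)
  obtain ⟨w, hw, hspan⟩ := finrank_eq_one_iff'.1 hV
  obtain ⟨c, hc⟩ := hspan ⁅a, w⁆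
  have h1 : LieModule.toEnd ℂ L V a = c • LinearMap.id := by
    ext u
    obtain ⟨d, rfl⟩ := hspan u
    rw [LieModule.toEnd_apply_apply, lie_smul, ← hc, LinearMap.smul_apply, LinearMap.id_apply,
      smul_comm]
  rw [h1, map_smul, LinearMap.trace_id, hV, Nat.cast_one, smul_eq_mul, mul_one] at ht
  obtain ⟨d, rfl⟩ := hspan v
  rw [lie_smul, ← hc, ht, zero_smul, smul_zero]

theorem Sep_ : St_Sep := by
  intro I _ _ n κ _ _ ϖ P K _ _ r F k α hϖ hB hA hr s t hs ht hiso hsimple hch
  have key := Iso_ I n κ ϖ P K r F k α hϖ hB hA hr s (conjT t) hiso hsimple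
    (fun x y => (bV n P F α s).repr x ⟨0, hr _⟩ * (bV n P F α (conjT t)).repr y ⟨0, hr _⟩)
    ⟨fun y => ⟨fun a b => by simp only [map_add, Finsupp.add_apply]; ring,
        fun c a => by simp only [map_smul, Finsupp.smul_apply, smul_eq_mul]; ring⟩,
      fun y => ⟨fun a b => by simp only [map_add, Finsupp.add_apply]; ring,
        fun c a => by simp only [map_smul, Finsupp.smul_apply, smul_eq_mul]; ring⟩⟩
    (by
      intro a x y
      have h1 : ⁅a, x⁆ = 0 := iso_line ((finrank_Vs n P F α s).trans hs) a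
        (trace_Vs n P F α s (hr _) a) x
      have h2 : ⁅a, y⁆ = 0 := iso_line ((finrank_Vs n P F α (conjT t)).trans ht) a
        (trace_Vs n P F α (conjT t) (hr _) a) y
      rw [h1, h2]
      beta_reduce
      rw [map_zero, map_zero, Finsupp.zero_apply, Finsupp.zero_apply, zero_mul, mul_zero,
        add_zero])
    (by
      intro X hX
      have h1 := ch_conj n P F α hr t X hX
      rw [hch X hX]
      exact h1)
    ⟨bV n P F α s ⟨0, hr _⟩, bV n P F α (conjT t) ⟨0, hr _⟩, by
      rw [Basis.repr_self, Basis.repr_self, Finsupp.single_eq_same, Finsupp.single_eq_same,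
        mul_one]
      exact one_ne_zero⟩
  have h := congrArg conjT key
  rw [conjT_conjT, conjT_conjT] at h
  exact h.symm

end Pool.Agent.D5
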