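import Pool.Agent.D5.StR

/-!
# D5: classes of degree two (helper16)
-/

set_option autoImplicit false

namespace Pool.Agent.D5

open Module NumberField
open Pool.Agent.Helper7 Pool.Agent.GPC Pool.Agent.Helper39.AF
open Pool.Agent.Helper8 (ML2 ML4)

/-- a bilinear form is represented by a linear map -/
private lemma K1_rep (A B : AbVar) (g : A.H1 → B.H1 → ℂ) (hg : ML2 g) :
    ∃ F : A.H1 →ₗ[ℂ] B.H1, ∀ x y, B.polForm (F x) y = g x y := by
  have hinj : Function.Injective B.polForm := by
    intro u u' huu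
    have h1 : u - u' = 0 := polForm_nondeg B _ (fun v => by
      rw [map_sub, LinearMap.sub_apply, huu, sub_self])
    exact sub_eq_zero.mp h1
  let E : B.H1 ≃ₗ[ℂ] Module.Dual ℂ B.H1 :=
    LinearMap.linearEquivOfInjective B.polForm hinj (Subspace.dual_finrank_eq).symm
  have hE : ∀ u, E u = B.polForm u := fun u => LinearMap.linearEquivOfInjective_apply _ _ _
  let β : A.H1 →ₗ[ℂ] B.H1 →ₗ[ℂ] ℂ := LinearMap.mk₂ ℂ g
    (fun x x' y => (hg.l1 y).map_add x x') (fun c x y => (hg.l1 y).map_smul c x)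
    (fun x y y' => (hg.l2 x).map_add y y') (fun c x y => (hg.l2 x).map_smul c y)
  refine ⟨E.symm.toLinearMap ∘ₗ β, fun x y => ?_⟩
  rw [← hE]
  show E (E.symm (β x)) y = _
  rw [LinearEquiv.apply_symm_apply]
  rfl

/-- the Betti structure and the form -/
private lemma K1_betti (B : AbVar) (u : B.H1)
    (h : ∀ y, B.IsBetti y → ∃ c : ℚ, B.polForm u y = 2 * Real.pi * Complex.I * c) :
    B.IsBetti u := by
  classical
  obtain ⟨ι, _, b, hb⟩ := exists_bettiBasis B
  have hbB : ∀ i, B.IsBetti (b i) := fun i => by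
    rw [isBetti_iff, ← hb]
    exact Submodule.subset_span ⟨i, rfl⟩
  have hpi : (2 * Real.pi * Complex.I : ℂ) ≠ 0 := Complex.two_pi_I_ne_zero
  have hM : ∀ i j, ∃ q : ℚ, B.polForm (b i) (b j) = 2 * Real.pi * Complex.I * q := fun i j =>
    polForm_rat B _ _ ((isBetti_iff B _).mp (hbB i)) ((isBetti_iff B _).mp (hbB j))
  choose M hM using hM
  choose r hr using fun j => h (b j) (hbB j)
  have hnd : ∀ w : B.H1, (∀ j, B.polForm w (b j) = 0) → w = 0 := by
    intro w hw
    refine polForm_nondeg B w fun v => ?_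
    rw [← b.sum_repr v, map_sum]
    exact Finset.sum_eq_zero fun j _ => by rw [map_smul, hw, smul_zero]
  have hdet : (Matrix.of M).det ≠ 0 := by
    intro h0
    obtain ⟨c, hc0, hc⟩ := Matrix.exists_vecMul_eq_zero_iff.mpr h0
    apply hc0
    have h1 : ∑ i, (c i : ℂ) • b i = 0 := by
      refine hnd _ fun j => ?_
      rw [map_sum, LinearMap.sum_apply]
      have h2 := congrFun hc j
      have h3 : ∑ i, c i * M i j = 0 := h2
      have h4 : ∑ i, ((c i : ℂ) * (M i j : ℂ)) = 0 := by exact_mod_cast h3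
      calc ∑ i, B.polForm ((c i : ℂ) • b i) (b j)
          = ∑ i, (2 * Real.pi * Complex.I) * ((c i : ℂ) * (M i j : ℂ)) := by
            refine Finset.sum_congr rfl fun i _ => ?_
            rw [map_smul, LinearMap.smul_apply, hM, smul_eq_mul]
            ring
        _ = 0 := by rw [← Finset.mul_sum, h4, mul_zero]
    have h2 := Fintype.linearIndependent_iff.mp b.linearIndependent (fun i => (c i : ℂ)) h1
    funext i
    exact_mod_cast h2 i
  have hu : ∃ c : ι → ℚ, Matrix.vecMul c (Matrix.of M) = r := by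
    refine ⟨Matrix.vecMul r (Matrix.of M)⁻¹, ?_⟩
    rw [Matrix.vecMul_vecMul, Matrix.nonsing_inv_mul _ (isUnit_iff_ne_zero.mpr hdet),
      Matrix.vecMul_one]
  obtain ⟨c, hc⟩ := hu
  have h1 : u - ∑ i, (c i : ℂ) • b i = 0 := by
    refine hnd _ fun j => ?_
    rw [map_sub, LinearMap.sub_apply, hr, map_sum, LinearMap.sum_apply]
    have h3 : ∑ i, c i * M i j = r j := congrFun hc j
    have h4 : ∑ i, ((c i : ℂ) * (M i j : ℂ)) = (r j : ℂ) := by
      rw [← h3]
      push_cast
      rfl
    have h5 : ∑ i, B.polForm ((c i : ℂ) • b i) (b j) =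
        (2 * Real.pi * Complex.I) * ∑ i, ((c i : ℂ) * (M i j : ℂ)) := by
      rw [Finset.mul_sum]
      refine Finset.sum_congr rfl fun i _ => ?_
      rw [map_smul, LinearMap.smul_apply, hM, smul_eq_mul]
      ring
    rw [h5, h4, sub_self]
  rw [isBetti_iff, sub_eq_zero.mp h1]
  refine Submodule.sum_mem _ fun i _ => ?_
  have h2 : (c i : ℂ) • b i = c i • b i := by
    rw [← algebraMap_smul ℂ (c i) (b i)]
    rfl
  rw [h2]
  exact Submodule.smul_mem _ _ ((isBetti_iff B _).mp (hbB i))

/-- the de Rham structure and the form -/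
private lemma K1_deRham (B : AbVar) (u : B.H1)
    (h : ∀ y, B.IsDeRham y → IsAlgebraic ℚ (B.polForm u y)) : B.IsDeRham u := by
  intro j
  rcases j with a | a
  · have h1 := h _ (single_deRham B (.inr a))
    rw [AbVar.polForm_apply, Finset.sum_eq_single a (fun b _ hb => by
      rw [Pi.single_eq_of_ne (fun h => hb (Sum.inr.inj h)), Pi.single_eq_of_ne (by simp)]; ring)
      (by simp)] at h1
    simpa using h1
  · have h1 := h _ (single_deRham B (.inl a))
    rw [AbVar.polForm_apply, Finset.sum_eq_single a (fun b _ hb => by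
      rw [Pi.single_eq_of_ne (by simp), Pi.single_eq_of_ne (fun h => hb (Sum.inl.inj h))]; ring)
      (by simp)] at h1
    have h2 := h1.neg
    simpa using h2

/-- the Hodge filtration is isotropic -/
private lemma K1_iso (B : AbVar) (x y : B.H1) (hx : B.IsFil x) (hy : B.IsFil y) :
    B.polForm x y = 0 := by
  rw [AbVar.polForm_apply]
  exact Finset.sum_eq_zero fun a _ => by rw [hx a, hy a]; ring

private lemma K1_one (A B : AbVar) (g : A.H1 → B.H1 → ℂ) (hg : Gr2 A B g) (x : A.H1) (y : B.H1)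
    (hx : A.IsFil x) (hy : B.IsFil y) : g x y = 0 := by
  obtain ⟨F, hF⟩ := K1_rep A B g hg.ml
  have h1 : ∀ v, A.IsBetti v → B.IsBetti (F v) := fun v hv =>
    K1_betti B _ fun y hy => by
      rw [hF]
      exact hg.rat v y hv hy
  have h2 : ∀ v, A.IsDeRham v → B.IsDeRham (F v) := fun v hv =>
    K1_deRham B _ fun y hy => by
      rw [hF]
      exact hg.alg v y hv hy
  rw [← hF]
  exact K1_iso B _ _ (hom_fil A B F F.isLinear h1 h2 x hx) hy

theorem K1_ : St_K1 := by
  refine ⟨fun A B g hg x y hx hy => K1_one A B g hg x y hx hy, fun X α hα v hv => ?_⟩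
  obtain ⟨s, hs, hv⟩ := hv
  have hs' : s = Finset.univ := by
    apply Finset.eq_univ_of_card
    have h1 := s.card_le_univ
    rw [Fintype.card_fin] at h1 ⊢
    omega
  have hv' : ∀ r, X.IsFil (v r) := fun r => hv r (by rw [hs']; exact Finset.mem_univ r)
  have hg : Gr2 X X (fun x y => α (![x, y] : Fin (2 * 1) → X.H1)) := by
    refine ⟨⟨fun y => ⟨fun x x' => ?_, fun c x => ?_⟩, fun x => ⟨fun y y' => ?_, fun c y => ?_⟩⟩,
      fun x y hx hy => hα.1 _ fun r => ?_, fun x y hx hy => ?_⟩
    · have h := α.map_update_add (![x, y] : Fin (2 * 1) → X.H1) 0 x x'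
      have e : ∀ w, Function.update (![x, y] : Fin (2 * 1) → X.H1) 0 w = ![w, y] := fun w => by
        funext r
        match r with
        | 0 => rfl
        | 1 => rfl
      rw [e, e, e] at h
      exact h
    · have h := α.map_update_smul (![x, y] : Fin (2 * 1) → X.H1) 0 c x
      have e : ∀ w, Function.update (![x, y] : Fin (2 * 1) → X.H1) 0 w = ![w, y] := fun w => by
        funext r
        match r with
        | 0 => rfl
        | 1 => rfl
      rw [e, e] at h
      exact h
    · have h := α.map_update_add (![x, y] : Fin (2 * 1) → X.H1) 1 y y'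
      have e : ∀ w, Function.update (![x, y] : Fin (2 * 1) → X.H1) 1 w = ![x, w] := fun w => by
        funext r
        match r with
        | 0 => rfl
        | 1 => rfl
      rw [e, e, e] at h
      exact h
    · have h := α.map_update_smul (![x, y] : Fin (2 * 1) → X.H1) 1 c y
      have e : ∀ w, Function.update (![x, y] : Fin (2 * 1) → X.H1) 1 w = ![x, w] := fun w => by
        funext r
        match r with
        | 0 => rfl
        | 1 => rfl
      rw [e, e] at h
      exact h
    · match r with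
      | 0 => exact hx
      | 1 => exact hy
    · obtain ⟨c, hc⟩ := hα.2 (![x, y] : Fin (2 * 1) → X.H1) (fun r => by
        match r with
        | 0 => exact hx
        | 1 => exact hy)
      exact ⟨c, by rw [hc, pow_one]⟩
  have h := K1_one X X _ hg (v 0) (v 1) (hv' 0) (hv' 1)
  have e : v = (![v 0, v 1] : Fin (2 * 1) → X.H1) := by
    funext r
    match r with
    | 0 => rfl
    | 1 => rfl
  rw [e]
  exact h

/-- a bilinear form which vanishes on the vectors of a spanning set -/
private lemma K1_zero (A : AbVar) (p : A.H1 → Prop)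
    (hs : ∀ x : A.H1, x ∈ Submodule.span ℂ {u | p u})
    (h : ∀ x y, p x → p y → A.polForm x y = 0) (x y : A.H1) : A.polForm x y = 0 := by
  have h1 : ∀ y, p y → A.polForm x y = 0 := by
    intro y hy
    have h2 : Submodule.span ℂ {u | p u} ≤ LinearMap.ker (A.polForm.flip y) :=
      Submodule.span_le.mpr fun u hu => by
        rw [SetLike.mem_coe, LinearMap.mem_ker, LinearMap.flip_apply]
        exact h u y hu hy
    have h3 := h2 (hs x)
    rwa [LinearMap.mem_ker, LinearMap.flip_apply] at h3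
  have h2 : Submodule.span ℂ {u | p u} ≤ LinearMap.ker (A.polForm x) :=
    Submodule.span_le.mpr fun u hu => by
      rw [SetLike.mem_coe, LinearMap.mem_ker]
      exact h1 u hu
  have h3 := h2 (hs y)
  rwa [LinearMap.mem_ker] at h3

theorem HoK_ : St_HoK := by
  intro A Y Z G hG hK
  have hψ : ∀ x y, (pData A).ψ x y = A.polForm x y := fun x y => rfl
  by_cases h0 : ∀ x y, A.polForm x y = 0
  · have h1 : ∀ x y z w, G x y z w = 0 := by
      intro x y z w
      obtain ⟨k, hk⟩ := hK z w
      rw [hk, hψ, h0, mul_zero]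
    exact ⟨fun x y z w _ _ _ => h1 x y z w, fun x y z w _ _ _ => h1 x y z w,
      fun x y z w _ _ _ => h1 x y z w, fun x y z w _ _ _ => h1 x y z w⟩
  obtain ⟨x0, y0, hx0, hy0, hxy0⟩ : ∃ x y, A.IsBetti x ∧ A.IsBetti y ∧ A.polForm x y ≠ 0 := by
    by_contra hc
    push Not at hc
    exact h0 (K1_zero A A.IsBetti (span_betti A) fun x y hx hy => hc x y hx hy)
  obtain ⟨x1, y1, hx1, hy1, hxy1⟩ : ∃ x y, A.IsDeRham x ∧ A.IsDeRham y ∧ A.polForm x y ≠ 0 := by
    by_contra hc
    push Not at hc
    exact h0 (K1_zero A A.IsDeRham (span_deRham A) fun x y hx hy => hc x y hx hy)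
  have hpi : (2 * Real.pi * Complex.I : ℂ) ≠ 0 := Complex.two_pi_I_ne_zero
  -- the second factor
  obtain ⟨γ, hγ⟩ : ∃ γ : Y.H1 → Z.H1 → ℂ, ∀ z w, γ z w = G x0 y0 z w / A.polForm x0 y0 :=
    ⟨_, fun _ _ => rfl⟩
  have hGγ : ∀ x y z w, G x y z w = A.polForm x y * γ z w := by
    intro x y z w
    obtain ⟨k, hk⟩ := hK z w
    rw [hγ, hk, hk, hψ, hψ]
    field_simp
  have hGr : Gr2 Y Z γ := by
    refine ⟨⟨fun w => ⟨fun z z' => ?_, fun c z => ?_⟩, fun z => ⟨fun w w' => ?_, fun c w => ?_⟩⟩,
      fun z w hz hw => ?_, fun z w hz hw => ?_⟩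
    · show γ (z + z') w = γ z w + γ z' w
      rw [hγ, hγ, hγ, (hG.ml.l3 x0 y0 w).map_add, add_div]
    · show γ (c • z) w = c • γ z w
      rw [hγ, hγ, (hG.ml.l3 x0 y0 w).map_smul, smul_eq_mul, smul_eq_mul, mul_div_assoc]
    · show γ z (w + w') = γ z w + γ z w'
      rw [hγ, hγ, hγ, (hG.ml.l4 x0 y0 z).map_add, add_div]
    · show γ z (c • w) = c • γ z w
      rw [hγ, hγ, (hG.ml.l4 x0 y0 z).map_smul, smul_eq_mul, smul_eq_mul, mul_div_assoc]
    · have h1 : γ z w = G x1 y1 z w * (A.polForm x1 y1)⁻¹ := by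
        rw [hGγ x1 y1]
        field_simp
      rw [h1]
      exact (hG.alg x1 y1 z w hx1 hy1 hz hw).mul (polForm_alg A _ _ hx1 hy1).inv
    · obtain ⟨c, hc⟩ := hG.rat x0 y0 z w hx0 hy0 hz hw
      obtain ⟨q, hq⟩ := polForm_rat A x0 y0 ((isBetti_iff A _).mp hx0) ((isBetti_iff A _).mp hy0)
      have hq0 : (q : ℂ) ≠ 0 := by
        intro h
        rw [h, mul_zero] at hq
        exact hxy0 hq
      refine ⟨c / q, ?_⟩
      rw [hγ, hc, hq]
      push_cast
      field_simp
  refine ⟨fun x y z w _ hz hw => ?_, fun x y z w _ hz hw => ?_, fun x y z w hx hy _ => ?_,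
    fun x y z w hx hy _ => ?_⟩
  · rw [hGγ, K1_one Y Z γ hGr z w hz hw, mul_zero]
  · rw [hGγ, K1_one Y Z γ hGr z w hz hw, mul_zero]
  · rw [hGγ, K1_iso A x y hx hy, zero_mul]
  · rw [hGγ, K1_iso A x y hx hy, zero_mul]

end Pool.Agent.D5
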