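import Pool.Agent.D5.StR
import Pool.Agent.D5.Clo
import Pool.Agent.Helper7.CM8.Main
import Pool.Agent.KT.Alg.All
import Pool.Agent.KT.Final

/-!
# D5: M8, the known classes
-/

set_option autoImplicit false

namespace Pool.Agent.D5

open Module NumberField
open Pool.Agent.Helper7 Pool.Agent.GPC Pool.Agent.Helper39.AF Pool.Agent.Helper71.AF
open Pool.Agent.Helper8.T1 Pool.Agent.KT.Alg

/-- isogenous slots are grouped -/
theorem M8x_decomp (X : AbVar) (J : Type) [Fintype J] (B : J → AbVar)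
    (a : ∀ j, (B j).H1 → X.H1) (b : ∀ j, X.H1 → (B j).H1) (D : SDecomp X B a b) :
    ∃ (I : Type) (_ : Fintype I) (rep : I → J) (n : I → ℕ)
      (Φ : X.H1 ≃ₗ[ℂ] H1 (fun i => B (rep i)) n), IsIsogeny X (fun i => B (rep i)) n Φ ∧
      (∀ i j, i ≠ j → ∀ f, (B (rep i)).IsMor (B (rep j)) f → ∀ v, f v = 0) ∧ (∀ i, n i ≠ 0) ∧
      ∑ i, n i * (B (rep i)).g = X.g := by
  classical
  let S : Setoid J := ⟨fun j k => Isog (B j) (B k), ⟨fun j => Isog.refl _, Isog.symm, Isog.trans⟩⟩
  let I := Quotient S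
  have : Fintype I := Quotient.fintype S
  let A : I → AbVar := fun i => B i.out
  let n : I → ℕ := fun i => Fintype.card {j // (Quotient.mk S j) = i}
  have hcl : ∀ i : I, Nonempty (Fin (n i) ≃ {j // (Quotient.mk S j) = i}) := fun i =>
    ⟨(Fintype.equivFin _).symm⟩
  let E : ∀ i : I, Fin (n i) ≃ {j // (Quotient.mk S j) = i} := fun i => Classical.choice (hcl i)
  have hiso : ∀ (i : I) (m : Fin (n i)), Isog (B (E i m).1) (A i) := by
    intro i m
    have h1 : Quotient.mk S (E i m).1 = Quotient.mk S i.out := by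
      rw [(E i m).2]; exact (Quotient.out_eq i).symm
    exact Quotient.exact h1
  choose f hf hfb using hiso
  have hinv : ∀ (i : I) (m : Fin (n i)), ∃ f' : (A i).H1 → (B (E i m).1).H1,
      (A i).IsMor (B (E i m).1) f' ∧ (∀ x, f' (f i m x) = x) ∧ ∀ y, f i m (f' y) = y :=
    fun i m => exists_inv_mor _ _ _ (hf i m) (hfb i m)
  choose f' hf' hff' hf'f using hinv
  -- the two maps
  let Fw : X.H1 →ₗ[ℂ] H1 A n :=
    { toFun := fun v i m => f i m (b (E i m).1 v)
      map_add' := by
        intro u v; funext i m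
        show f i m (b (E i m).1 (u + v)) = f i m (b (E i m).1 u) + f i m (b (E i m).1 v)
        rw [(D.morπ _).linear.map_add, (hf i m).linear.map_add]
      map_smul' := by
        intro c v; funext i m
        show f i m (b (E i m).1 (c • v)) = c • f i m (b (E i m).1 v)
        rw [(D.morπ _).linear.map_smul, (hf i m).linear.map_smul] }
  let Bw : H1 A n →ₗ[ℂ] X.H1 :=
    { toFun := fun y => ∑ i, ∑ m, a (E i m).1 (f' i m (y i m))
      map_add' := by
        intro u v
        rw [← Finset.sum_add_distrib]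
        refine Finset.sum_congr rfl fun i _ => ?_
        rw [← Finset.sum_add_distrib]
        refine Finset.sum_congr rfl fun m _ => ?_
        show a (E i m).1 (f' i m (u i m + v i m)) = _
        rw [(hf' i m).linear.map_add, (D.morι _).linear.map_add]
      map_smul' := by
        intro c v
        rw [Finset.smul_sum]
        refine Finset.sum_congr rfl fun i _ => ?_
        rw [Finset.smul_sum]
        refine Finset.sum_congr rfl fun m _ => ?_
        show a (E i m).1 (f' i m (c • v i m)) = _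
        rw [(hf' i m).linear.map_smul, (D.morι _).linear.map_smul]
        rfl }
  have hFw : ∀ v i m, Fw v i m = f i m (b (E i m).1 v) := fun _ _ _ => rfl
  have hBw : ∀ y, Bw y = ∑ i, ∑ m, a (E i m).1 (f' i m (y i m)) := fun _ => rfl
  -- the index sets
  let P : (Σ i : I, Fin (n i)) ≃ J :=
    (Equiv.sigmaCongrRight E).trans (Equiv.sigmaFiberEquiv (Quotient.mk S))
  have hP : ∀ i m, P ⟨i, m⟩ = (E i m).1 := fun _ _ => rfl
  have hBF : ∀ v, Bw (Fw v) = v := by
    intro v
    rw [hBw]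
    have h1 : ∀ i m, a (E i m).1 (f' i m (Fw v i m)) = a (E i m).1 (b (E i m).1 v) := by
      intro i m
      rw [hFw, hff']
    simp only [h1]
    have h2 : ∑ i, ∑ m, a (E i m).1 (b (E i m).1 v) =
        ∑ p : (Σ i : I, Fin (n i)), a (P p) (b (P p) v) := by
      rw [Fintype.sum_sigma]
      exact Finset.sum_congr rfl fun i _ => Finset.sum_congr rfl fun m _ => rfl
    rw [h2, Equiv.sum_comp P (fun j => a j (b j v)), D.sum]
  have hFB : ∀ y, Fw (Bw y) = y := by
    intro y
    funext i m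
    rw [hFw, hBw]
    have h1 : b (E i m).1 (∑ i', ∑ m', a (E i' m').1 (f' i' m' (y i' m'))) =
        ∑ i', ∑ m', b (E i m).1 (a (E i' m').1 (f' i' m' (y i' m'))) := by
      have h2 := map_sum ((D.morπ (E i m).1).linear.mk' _)
        (fun i' => ∑ m', a (E i' m').1 (f' i' m' (y i' m'))) Finset.univ
      refine h2.trans ?_
      refine Finset.sum_congr rfl fun i' _ => ?_
      exact map_sum ((D.morπ (E i m).1).linear.mk' _)
        (fun m' => a (E i' m').1 (f' i' m' (y i' m'))) Finset.univ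
    have hz : ∀ i' m', (⟨i', m'⟩ : Σ i : I, Fin (n i)) ≠ ⟨i, m⟩ →
        b (E i m).1 (a (E i' m').1 (f' i' m' (y i' m'))) = 0 := by
      intro i' m' hne
      apply D.off
      intro h
      apply hne
      apply P.injective
      rw [hP, hP, h]
    rw [h1, Finset.sum_eq_single i, Finset.sum_eq_single m, D.πι, hf'f]
    · intro m' _ hm
      apply hz
      intro h
      apply hm
      have h3 := (Sigma.mk.inj_iff.mp h).2
      exact eq_of_heq h3
    · intro h; exact absurd (Finset.mem_univ _) h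
    · intro i' _ hi
      apply Finset.sum_eq_zero
      intro m' _
      apply hz
      intro h
      exact hi (Sigma.mk.inj_iff.mp h).1
    · intro h; exact absurd (Finset.mem_univ _) h
  let Φ : X.H1 ≃ₗ[ℂ] H1 A n := LinearEquiv.ofLinearMap Fw Bw (LinearMap.ext hFB) (LinearMap.ext hBF)
  have hΦ : ∀ v, Φ v = Fw v := fun _ => rfl
  refine ⟨I, this, fun i => i.out, n, Φ, ⟨?_, ?_, ?_⟩, ?_, ?_, ?_⟩
  · intro v
    constructor
    · intro hv i m
      exact (hf i m).betti _ ((D.morπ _).betti v hv)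
    · intro hv
      rw [← hBF v, hBw, isBetti_iff]
      refine Submodule.sum_mem _ fun i _ => Submodule.sum_mem _ fun m _ => ?_
      rw [← isBetti_iff]
      exact (D.morι _).betti _ ((hf' i m).betti _ (hv i m))
  · intro v
    constructor
    · intro hv i m
      exact (hf i m).deRham _ ((D.morπ _).deRham v hv)
    · intro hv
      rw [← hBF v, hBw]
      intro j
      rw [Finset.sum_apply]
      refine isAlg_sum _ _ fun i _ => ?_
      rw [Finset.sum_apply]
      refine isAlg_sum _ _ fun m _ => ?_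
      exact (D.morι _).deRham _ ((hf' i m).deRham _ (hv i m)) j
  · intro v
    constructor
    · intro hv i m
      exact (hf i m).hodge _ ((D.morπ _).hodge v hv)
    · intro hv
      rw [← hBF v, hBw]
      intro j
      rw [Finset.sum_apply]
      refine Finset.sum_eq_zero fun i _ => ?_
      rw [Finset.sum_apply]
      refine Finset.sum_eq_zero fun m _ => ?_
      exact (D.morι _).hodge _ ((hf' i m).hodge _ (hv i m)) j
  · intro i j hij g hg v
    by_contra hne
    have h1 := bijective_of_simple (D.simple _) (D.simple _) g hg ⟨v, hne⟩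
    apply hij
    have h2 : Quotient.mk S i.out = Quotient.mk S j.out := Quotient.sound ⟨g, hg, h1⟩
    rw [Quotient.out_eq, Quotient.out_eq] at h2
    exact h2
  · intro i h0
    have h1 : IsEmpty {j // (Quotient.mk S j) = i} := Fintype.card_eq_zero_iff.mp h0
    exact h1.elim ⟨i.out, Quotient.out_eq i⟩
  · have h1 := Φ.finrank_eq
    rw [finrank_H1] at h1
    have h2 : finrank ℂ (H1 A n) = ∑ i, n i * (2 * (A i).g) := by
      rw [Module.finrank_pi_fintype]
      refine Finset.sum_congr rfl fun i _ => ?_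
      rw [Module.finrank_pi_fintype, Finset.sum_const, finrank_H1, Finset.card_univ,
        Fintype.card_fin, smul_eq_mul]
    rw [h2] at h1
    have h3 : ∑ i, n i * (2 * (A i).g) = 2 * ∑ i, n i * (A i).g := by
      rw [Finset.mul_sum]
      exact Finset.sum_congr rfl fun i _ => by ring
    have h4 : ∑ i, n i * (A i).g = X.g := by omega
    exact h4


/-- a CM field of degree `2 g`, `g ≤ 5`, `g ≠ 4` is good -/
theorem M8x_good (K : Type) [Field K] [NumberField K] (g : ℕ) (h : finrank ℚ K = 2 * g)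
    (h0 : g ≠ 0) (h5 : g ≤ 5) (h4 : g ≠ 4) : IsGoodCM K := by
  obtain rfl | rfl | rfl | rfl : g = 1 ∨ g = 2 ∨ g = 3 ∨ g = 5 := by omega
  · refine Or.inr (Or.inr fun N _ _ => Or.inr ?_)
    omega
  · exact Or.inr (Or.inl ⟨2, Nat.prime_two, h⟩)
  · exact Or.inr (Or.inl ⟨3, Nat.prime_three, h⟩)
  · exact Or.inr (Or.inl ⟨5, Nat.prime_five, h⟩)

/-- the degree of the field of a CM type -/
theorem M8x_deg {A : AbVar} {K : Type} [Field K] [NumberField K] (h : IsCMType A K) :
    finrank ℚ K = 2 * A.g := by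
  obtain ⟨_, ⟨c⟩⟩ := h
  exact c.degree

/-- [M8] -/
theorem M8x_ : St_M8 := by
  classical
  intro X J _ B ι π hSD hX5 htyp hbad k α hα
  obtain ⟨I, _, rep, n, Φ, hΦ, hA, hn, hsum⟩ := M8x_decomp X J B ι π hSD.dec
  have hpos : ∀ i, (B (rep i)).g ≠ 0 := fun i => hSD.dec.pos _
  have hle : ∀ i, (B (rep i)).g ≤ n i * (B (rep i)).g := fun i =>
    Nat.le_mul_of_pos_left _ (Nat.pos_of_ne_zero (hn i))
  have hle1 : ∀ i, (B (rep i)).g ≤ 5 := by
    intro i
    have h1 : n i * (B (rep i)).g ≤ ∑ i, n i * (B (rep i)).g :=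
      Finset.single_le_sum (f := fun i => n i * (B (rep i)).g) (fun _ _ => Nat.zero_le _)
        (Finset.mem_univ i)
    have h2 := hle i
    omega
  have hle2 : ∀ i j, i ≠ j → (B (rep i)).g + (B (rep j)).g ≤ 5 := by
    intro i j hij
    have h1 : ∑ l ∈ ({i, j} : Finset I), n l * (B (rep l)).g ≤ ∑ l, n l * (B (rep l)).g :=
      Finset.sum_le_sum_of_subset (Finset.subset_univ _)
    rw [Finset.sum_pair hij] at h1
    have h2 := hle i
    have h3 := hle j
    omega
  have hK : ∀ i, ∃ (K : Type) (_ : Field K) (_ : NumberField K), IsRMType (B (rep i)) K ∨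
      IsCMType (B (rep i)) K ∨
      ((B (rep i)).IsGenericSurface ∧ IsRelTwoType (B (rep i)) K ∧ finrank ℚ K = 1) := by
    intro i
    rcases htyp (rep i) with ⟨K, h1, h2, h⟩ | ⟨K, h1, h2, h⟩ | h
    · exact ⟨K, h1, h2, Or.inl h⟩
    · exact ⟨K, h1, h2, Or.inr (Or.inl h)⟩
    · exact ⟨ℚ, inferInstance, inferInstance, Or.inr (Or.inr ⟨h, thm_Gen _ h, finrank_self ℚ⟩)⟩
  choose K iF iN hK using hK
  obtain ⟨S, hS⟩ : ∃ S : Finset I, ∀ i, i ∈ S ↔ IsRMType (B (rep i)) (K i) :=
    ⟨Finset.univ.filter fun i => IsRMType (B (rep i)) (K i), fun i => by simp⟩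
  obtain ⟨T, hT⟩ : ∃ T : Finset I, ∀ i, i ∈ T ↔ IsCMType (B (rep i)) (K i) :=
    ⟨Finset.univ.filter fun i => IsCMType (B (rep i)) (K i), fun i => by simp⟩
  obtain ⟨G, hG⟩ : ∃ G : Finset I, ∀ i, i ∈ G ↔
      ((B (rep i)).IsGenericSurface ∧ IsRelTwoType (B (rep i)) (K i) ∧ finrank ℚ (K i) = 1) :=
    ⟨Finset.univ.filter fun i => ((B (rep i)).IsGenericSurface ∧
      IsRelTwoType (B (rep i)) (K i) ∧ finrank ℚ (K i) = 1), fun i => by simp⟩
  have hST : ∀ i, i ∈ S ∨ i ∈ G ∨ i ∈ T := fun i => by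
    rw [hS, hT, hG]
    rcases hK i with h | h | h
    · exact Or.inl h
    · exact Or.inr (Or.inr h)
    · exact Or.inr (Or.inl h)
  have hcG : CondG (fun i => B (rep i)) n K S G G :=
    ⟨fun i j _ _ _ _ hij => hA i j hij, Finset.Subset.refl _, fun i hi => ((hG i).mp hi).1,
      fun i hi => ((hG i).mp hi).2.2, fun i hi hi' => absurd hi hi',
      fun i hi hi' => absurd hi hi'⟩
  have hα' := grothendieck_transfer hΦ α hα
  refine inFil_of_hodge hΦ α ?_
  refine Pool.Agent.Helper7.CM8.hodge_T8 (fun i => B (rep i)) n K S G T hST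
    (fun i hi => (hS i).mp hi) (fun i hi => ((hG i).mp hi).2.1) (fun i hi => (hT i).mp hi) k _ hα'
    (fun F hF => Act_ Pool.Agent.KT.thm_KT I (fun i => B (rep i)) n K S G G
      (fun i hi => (hS i).mp hi) (fun i hi => ((hG i).mp hi).2.1) hcG F hF k _ hα')
    (fun i hi => ?_) (fun i hi j hj hij => ?_)
  · have hd := M8x_deg ((hT i).mp hi)
    by_cases h4 : (B (rep i)).g = 4
    · right
      rw [hd, h4]
    · exact Or.inl (M8x_good _ _ hd (hpos i) (hle1 i) h4)
  · have hdi := M8x_deg ((hT i).mp hi)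
    have hdj := M8x_deg ((hT j).mp hj)
    have h5 := hle2 i j hij
    have hpi := hpos i
    have hpj := hpos j
    by_cases h1 : (B (rep i)).g = 1
    · exact Or.inr (Or.inl (Or.inl (by rw [hdi, h1])))
    by_cases h2 : (B (rep j)).g = 1
    · exact Or.inr (Or.inl (Or.inr (by rw [hdj, h2])))
    refine Or.inr (Or.inr (Or.inr ⟨M8x_good _ _ hdi hpi (hle1 i) (by omega),
      M8x_good _ _ hdj hpj (hle1 j) (by omega), fun hn1 hn2 => ?_⟩))
    obtain ⟨ci, -⟩ := (hT i).mp hi
    obtain ⟨cj, -⟩ := (hT j).mp hj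
    obtain ⟨e1, e2⟩ | ⟨e1, e2⟩ | ⟨e1, e2⟩ : ((B (rep i)).g = 2 ∧ (B (rep j)).g = 2) ∨
        ((B (rep i)).g = 3 ∧ (B (rep j)).g = 2) ∨ ((B (rep i)).g = 2 ∧ (B (rep j)).g = 3) := by
      omega
    · intro hcl
      exact hbad (rep i) (rep j) (hA i j hij) (K i) (K j) ((hT i).mp hi) ((hT j).mp hj)
        ⟨by rw [hdi, e1], by rw [hdj, e2], hn1, hn2, hcl⟩
    · exact Clo_ (K i) (K j) ci cj (by rw [hdi, e1]) (by rw [hdj, e2])
    · exact fun hcl => Clo_ (K j) (K i) cj ci (by rw [hdj, e2]) (by rw [hdi, e1]) hcl.symm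

end Pool.Agent.D5
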