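import Pool.Agent.D5.DefL
import Pool.Agent.KT.Alg.St

/-!
# D5: Lie algebra statements

Each statement `St_X` is a module; a module file proves `theorem X_ : St_X` or
`theorem X_ (h : St_Y) : St_X`. The proofs are in the docstrings. Known tools:
`Pool.Agent.Helper8` (`Principal`, `Principal.top`, `Principal.odd_span`, `irr_cases`, `exists_linear`,
`schur`, `even_of_symp`, `perfect_of_killing`, `frame_dim2`), `Pool.Agent.Helper24` (LPar:
`exists_projTriple`, `exists_parity`, `trace_parity`, `mt_surj`, `goursat_finset`, `not_conjRep`).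
-/

set_option autoImplicit false

namespace Pool.Agent.D5

open Module LieAlgebra LieModule
open Pool.Agent.Helper8 (Principal Symp ML2 ML4 Inv2 Inv4)
open Pool.Agent.Helper24 (ProjTriple)
open Pool.Agent.Helper7 (PairInv)

/-- [P4] an element `h` with parities of odd sum kills invariant functions of four vectors.
Proof: by linearity in each variable (span induction) one may assume `⁅h, v_i⁆ = (n_i + 2 m_i) v_i`;
the invariance gives `(n_1 + n_2 + n_3 + n_4 + 2 m) G = 0` with an odd, hence non-zero, factor. -/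
def St_P4 : Prop := ∀ (L V1 V2 V3 V4 : Type) [LieRing L] [LieAlgebra ℂ L]
  [AddCommGroup V1] [Module ℂ V1] [LieRingModule L V1]
  [AddCommGroup V2] [Module ℂ V2] [LieRingModule L V2]
  [AddCommGroup V3] [Module ℂ V3] [LieRingModule L V3]
  [AddCommGroup V4] [Module ℂ V4] [LieRingModule L V4] (h : L) (n1 n2 n3 n4 : ℤ),
  Par h n1 V1 → Par h n2 V2 → Par h n3 V3 → Par h n4 V4 → Odd (n1 + n2 + n3 + n4) →
  ∀ G : V1 → V2 → V3 → V4 → ℂ, ML4 G →
  (∀ x y z w, G ⁅h, x⁆ y z w + G x ⁅h, y⁆ z w + G x y ⁅h, z⁆ w + G x y z ⁅h, w⁆ = 0) →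
  ∀ x y z w, G x y z w = 0

/-- [Dua] Schur's lemma for dual modules, and alternating forms on modules of odd dimension.
Proof of the first part: `g` gives a linear map `T : V → V'^*` and the pairing `b` an isomorphism
`V → V'^*`; the composition of `T` with the inverse of the latter has an eigenvalue `c`, and
`{x | g x = c b x}` is stable and not zero, hence everything (`irr_cases`). Second part: the kernel
`{x | g x = 0}` is stable; if it is zero, then `g` is non-degenerate and the dimension is even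
(`even_of_symp`). Third part: the same kernel; if it is zero then `dim V ≤ dim V'`. -/
def St_Dua : Prop := ∀ (L V V' : Type) [LieRing L] [LieAlgebra ℂ L]
  [AddCommGroup V] [Module ℂ V] [LieRingModule L V] [LieModule ℂ L V] [FiniteDimensional ℂ V]
  [LieModule.IsIrreducible ℂ L V]
  [AddCommGroup V'] [Module ℂ V'] [LieRingModule L V'] [LieModule ℂ L V']
  [FiniteDimensional ℂ V'],
  (∀ b : V →ₗ[ℂ] V' →ₗ[ℂ] ℂ, PairInv L b → ∀ g : V → V' → ℂ, ML2 g → Inv2 L g →
    ∃ c : ℂ, ∀ x y, g x y = c * b x y) ∧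
  (Odd (finrank ℂ V) → ∀ g : V → V → ℂ, ML2 g → Inv2 L g → (∀ x y, g x y = - g y x) →
    ∀ x y, g x y = 0) ∧
  (finrank ℂ V' < finrank ℂ V → ∀ g : V → V' → ℂ, ML2 g → Inv2 L g → ∀ x y, g x y = 0)

/-- [Sl] the decomposition attached to a plane.
Proof. `N = {x | ∀ w, ⁅x, w⁆ = 0}`, `J` = an ideal complementary to `N` (`exists_isCompl`);
`⁅J, N⁆ ⊆ J ⊓ N = 0` (`lie_zero_of_disjoint`). `exists_projTriple p J` gives `h, e, f`,
`exists_projTriple p N` gives `h', e', f'`. Write `p.h = a + b`, `a ∈ J`, `b ∈ N`; `h - a` commutes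
with `J` (by `ProjTriple.comm`) and with `N`, hence is in the centre of `L`, which is zero; in the
same way `h' = b`. The same for `e, f`: these are in `J` (`e = ⁅h, e⁆ / 2`, `h ∈ J`). The module `W`
is symplectic (any form `det` of a basis is invariant as all traces are zero); `frame_dim2` (or
`Principal.top`) gives a basis `w0, w1` with `⁅p.h, w0⁆ = w0`, `⁅p.h, w1⁆ = -w1`, `⁅p.e, w0⁆ = 0`,
`⁅p.e, w1⁆ = w0`; as `N` acts by zero `h` acts as `p.h`; `e` acts as the `J`-component of `p.e`: the
`J`-component `e1` of `p.e` satisfies `⁅h, e1⁆ = 2 e1`, and `e` can be taken equal to `e1`: it is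
easier to repeat the proof of `exists_projTriple` for both ideals at the same time and to get
`e + e' = p.e`, `f + f' = p.f` as well. `f w0 = w1`: `f w0 = c w1` by weights and
`w0 = h w0 = e f w0 = c w0`. `spanJ`: the matrix of `x ∈ J` on `W` has trace zero, so is the matrix of
some `a e + b h + c f`, and `x - (a e + b h + c f) ∈ J ⊓ N = 0`. -/
def St_Sl : Prop := ∀ (L W : Type) [LieRing L] [LieAlgebra ℂ L] [FiniteDimensional ℂ L]
  [IsKilling ℂ L] [AddCommGroup W] [Module ℂ W] [LieRingModule L W] [LieModule ℂ L W]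
  [FiniteDimensional ℂ W] [LieModule.IsIrreducible ℂ L W] (p : Principal L),
  finrank ℂ W = 2 → Tr0 L W → ∃ S : SlI L W, S.p = p

/-- [Top] the structure of an irreducible module with respect to `L = J ⊕ N`.
Proof. Let `m` be an eigenvalue of `h` on `V` with maximal real part, `U` its eigenspace (as in
`exists_parity`, LPar.lean, it is a natural number: by the theory of `sl_2`, `HasPrimitiveVectorWith`;
the case `h = 0` does not occur as `h w0 = w0 ≠ 0`). `e U = 0` by maximality (`⁅h, e⁆ = 2 e`).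
`N` commutes with `h, e, f` (`S.comm`). The formulas `hf, ef` are the usual induction. `f^j u = 0` for
`j > m`: `f^(m+1) u` is killed by `e`, so if it is not zero it is a primitive vector of weight
`-m-2 < 0`, a contradiction; or apply `P_{m+1}` of Mathlib's `IsSl2Triple.HasPrimitiveVectorWith.
pow_toEnd_f_eq_zero_of_eq_nat`. If `U' ≤ U` is `N`-stable then `∑ f^j U'` is stable under `e, h, f`
and `N`, hence under `L` (`S.sup`, `S.spanJ`), so it is `0` or `V` (`irr_cases`); its intersection with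
the eigenspace of `h` for `m` is `U'`. `indep`: eigenvectors of `h` for different eigenvalues, and
`e^j f^j u` is a non-zero multiple of `u` for `j ≤ m`. `dim` from `span, indep`. -/
def St_Top : Prop := ∀ (L W V : Type) [LieRing L] [LieAlgebra ℂ L] [FiniteDimensional ℂ L]
  [IsKilling ℂ L] [AddCommGroup W] [Module ℂ W] [LieRingModule L W] [LieModule ℂ L W]
  [AddCommGroup V] [Module ℂ V] [LieRingModule L V] [LieModule ℂ L V] [FiniteDimensional ℂ V]
  [LieModule.IsIrreducible ℂ L V] (S : SlI L W),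
  ∃ (m : ℕ) (U : Submodule ℂ V), TopJ S V m U ∧ Par S.h m V

/-- [Odd] on symplectic irreducible modules the parities of `h` and `h'` are different.
Proof. `⁅h, h'⁆ = 0`, so `h` and `h'` have a common eigenvector `v ≠ 0` (the eigenspace of `h'` for
some eigenvalue is stable under `h`); from `Par` the eigenvalues are `a + 2 i` and `n + 2 j` (an
eigenvalue of an operator which has a spanning set of eigenvectors is one of their eigenvalues);
`v` is an eigenvector of `p.h` with eigenvalue `a + n + 2 (i + j)`, which is odd by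
`Principal.odd_span`. -/
def St_Odd : Prop := ∀ (L W V : Type) [LieRing L] [LieAlgebra ℂ L] [FiniteDimensional ℂ L]
  [IsKilling ℂ L] [AddCommGroup W] [Module ℂ W] [LieRingModule L W] [LieModule ℂ L W]
  [AddCommGroup V] [Module ℂ V] [LieRingModule L V] [LieModule ℂ L V] [FiniteDimensional ℂ V]
  [LieModule.IsIrreducible ℂ L V] (S : SlI L W) (ω : V →ₗ[ℂ] V →ₗ[ℂ] ℂ), Symp L ω →
  ∀ a n : ℤ, Par S.h a V → Par S.h' n V → Odd (a + n)

/-- [Two] the top space of a module of trace zero is not of dimension two if the weights of `h'` are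
even. Proof. `N` and `e', f', h'` act on `U`; the action of `N` on `U` has trace zero (on `V` the
trace of `x ∈ N` is `(m + 1)` times the trace on `U`). The `sl_2`-triple `e', h', f'` acts on the
plane `U` with even weights (`Par`), whose sum is zero. If some weight `k` of `h'` on `U` is not zero
there is a highest weight `k ≥ 2`, `k` even, with primitive vector `u ∈ U`, and
`u, f' u, …, f'^k u` are linearly independent in `U`: `dim U ≥ 3`. So `h' = 0` on `U` (`h'` is
diagonalisable), then on `V` (`TopJ.nf`, `TopJ.span`), and `p.h = h` on `V`, whose eigenspace for the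
highest eigenvalue `m` contains `U`, of dimension two; this contradicts `Principal.top`. -/
def St_Two : Prop := ∀ (L W V : Type) [LieRing L] [LieAlgebra ℂ L] [FiniteDimensional ℂ L]
  [IsKilling ℂ L] [AddCommGroup W] [Module ℂ W] [LieRingModule L W] [LieModule ℂ L W]
  [AddCommGroup V] [Module ℂ V] [LieRingModule L V] [LieModule ℂ L V] [FiniteDimensional ℂ V]
  [LieModule.IsIrreducible ℂ L V] (S : SlI L W) (m : ℕ) (U : Submodule ℂ V),
  TopJ S V m U → Tr0 L V → Par S.h' 0 V → finrank ℂ U ≠ 2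

/-- [One] if the top space is a line, then `N` acts trivially.
Proof. `x ∈ N` acts on `U` by a scalar `c`, hence on `V` by the scalar `c` (`TopJ.nf`, `TopJ.span`);
the trace is `c dim V = 0`. -/
def St_One : Prop := ∀ (L W V : Type) [LieRing L] [LieAlgebra ℂ L] [FiniteDimensional ℂ L]
  [IsKilling ℂ L] [AddCommGroup W] [Module ℂ W] [LieRingModule L W] [LieModule ℂ L W]
  [AddCommGroup V] [Module ℂ V] [LieRingModule L V] [LieModule ℂ L V] [FiniteDimensional ℂ V]
  [LieModule.IsIrreducible ℂ L V] (S : SlI L W) (m : ℕ) (U : Submodule ℂ V),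
  TopJ S V m U → Tr0 L V → finrank ℂ U = 1 → ∀ x ∈ S.N, ∀ v : V, ⁅x, v⁆ = 0

/-- [Pln] planes: either `J` acts with even weights (in fact trivially) on the plane `V`, or there is
a non-zero invariant pairing of `V` and `W`.
Proof. By [Top], `(m + 1) dim U = 2`. If `m = 0` then `Par S.h 0 V`. If `m = 1`, `dim U = 1`, `N` acts
trivially by [One]; with `U = ℂ v0`, `v1 = f v0` one has `e v1 = v0`, `h v1 = - v1`, `f v1 = 0`; the
bilinear function with `g(v0, w1) = 1`, `g(v1, w0) = -1`, `g(v0, w0) = g(v1, w1) = 0` is invariant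
under `e, h, f` and `N`. -/
def St_Pln : Prop := ∀ (L W V : Type) [LieRing L] [LieAlgebra ℂ L] [FiniteDimensional ℂ L]
  [IsKilling ℂ L] [AddCommGroup W] [Module ℂ W] [LieRingModule L W] [LieModule ℂ L W]
  [AddCommGroup V] [Module ℂ V] [LieRingModule L V] [LieModule ℂ L V] [FiniteDimensional ℂ V]
  [LieModule.IsIrreducible ℂ L V] (S : SlI L W), finrank ℂ V = 2 → Tr0 L V →
  Par S.h 0 V ∨ ∃ g : V → W → ℂ, ML2 g ∧ Inv2 L g ∧ ∃ x y, g x y ≠ 0

/-- [Cub] a module of dimension four with odd weights of `h` and even weights of `h'` is the third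
symmetric power of `W`.
Proof. By [Top], `(m + 1) dim U = 4` and `m` is odd (`Par S.h m V` and `Par S.h 1 V`), so
`(m, dim U)` is `(1, 2)` or `(3, 1)`; the first is excluded by [Two]. So `U = ℂ v`, `N` acts trivially
([One]) and `v_k = f^k v / (3 · 2 ⋯ (4 - k))` i.e. `φ_0 = v, φ_1 = f v / 3, φ_2 = f² v / 6,
φ_3 = f³ v / 6` satisfy `f φ_k = (3 - k) φ_{k+1}`, `e φ_k = k φ_{k-1}`, `h φ_k = (3 - 2 k) φ_k`. The
trilinear map with `φ(w_i, w_j, w_l) = φ_{i+j+l}` (`i, j, l ∈ {0, 1}`) is symmetric and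
equivariant. -/
def St_Cub : Prop := ∀ (L W V : Type) [LieRing L] [LieAlgebra ℂ L] [FiniteDimensional ℂ L]
  [IsKilling ℂ L] [AddCommGroup W] [Module ℂ W] [LieRingModule L W] [LieModule ℂ L W]
  [AddCommGroup V] [Module ℂ V] [LieRingModule L V] [LieModule ℂ L V] [FiniteDimensional ℂ V]
  [LieModule.IsIrreducible ℂ L V] (S : SlI L W), finrank ℂ V = 4 → Tr0 L V →
  Par S.h 1 V → Par S.h' 0 V →
  ∃ φ : W →ₗ[ℂ] W →ₗ[ℂ] W →ₗ[ℂ] V, φ ≠ 0 ∧ (∀ x y z, φ x y z = φ y x z) ∧
    (∀ x y z, φ x y z = φ x z y) ∧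
    ∀ (a : L) (x y z : W), ⁅a, φ x y z⁆ = φ ⁅a, x⁆ y z + φ x ⁅a, y⁆ z + φ x y ⁅a, z⁆

/-- [Four] there are no Killing Lie algebras of dimension one, two or four.
Proof. Take a principal triple (`exists_principal`). If `p.h = 0` then `p.dec` shows `L = Z`
(`⁅0, y⁆ = 2 (n + 1) y` gives `y = 0`), abelian, so `L = 0`. Otherwise `e, h, f` are linearly
independent and span an ideal-free subalgebra `𝔰 ≅ sl_2` of dimension three; so `dim L ≥ 3`. If
`dim L = 4`, the orthogonal complement of `𝔰` with respect to the Killing form `κ` (`κ(h, h) ≠ 0` as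
`ad h` is diagonalisable with integral eigenvalues, not all zero, so `κ|𝔰` is non-degenerate) is a
line `ℂ z` stable under `ad 𝔰`, hence `⁅𝔰, z⁆ = 0` (`𝔰` is perfect), so `z` is central:
contradiction. Alternatively: the eigenvalues of `ad p.h` are integers symmetric about zero, `2, 0, -2`
and one more, which is `0`; so `Z` is of dimension two, abelian, `z ∈ Z` with `κ(z, h) = 0`, … -/
def St_Four : Prop := ∀ (L : Type) [LieRing L] [LieAlgebra ℂ L] [FiniteDimensional ℂ L]
  [IsKilling ℂ L], finrank ℂ L ≠ 1 ∧ finrank ℂ L ≠ 2 ∧ finrank ℂ L ≠ 4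

/-- [V4] irreducible modules of dimension four: no invariant alternating trilinear form, no
equivariant alternating bilinear map.
Proof. (a) The radical `{v | t(v, ·, ·) = 0}` is stable, so it is `0` or `V`. An alternating
trilinear form on a space of dimension four has a non-zero radical: `t = ι_v vol`; in coordinates,
with `t_i` the value on the basis vectors other than `b_i`, `v = ∑ (-1)^i t_i b_i`.
(b) Let `β ≠ 0`. The kernel of `β : ⋀² V → V` is a submodule, `β` is surjective as `V` is
irreducible, so `⋀² V = K ⊕ V'` with `dim K = 2`, `V' ≅ V` (complete reducibility; Weyl's theorem can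
be avoided: `⋀² V` has the non-degenerate symmetric invariant form `q : ⋀² V × ⋀² V → ⋀⁴ V ≅ ℂ`;
the transpose of `β` with respect to `q` is an injective equivariant map `β^t : V^* → ⋀² V`; its
image `V'` is irreducible of dimension four in a space of dimension six, so `q|V'` is not zero,
hence non-degenerate, `⋀² V = V' ⊕ V'^⊥`, and `V ≅ V^*` gets an invariant symmetric form `s`.)
As `V` is orthogonal, `⋀² V ≅ so(V, s)` as `L`-modules, by `x ∧ y ↦ (z ↦ s(y, z) x - s(x, z) y)`.
The image `𝔤` of `L` in `End V` lies in `so(V, s)` and is an `L`-submodule; `𝔤` is a quotient of `L`,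
so it is Killing. `𝔤 ⊓ V' = 0` or `V'`. In the second case, if `𝔤 = V'` then `dim 𝔤 = 4`; in
general `𝔤 ⊓ V' = V'` is an ideal of `𝔤` of dimension four, an ideal of a Killing Lie algebra is
Killing: contradiction to [Four]. In the first case `𝔤` embeds into `⋀² V / V' ≅ K`, so
`dim 𝔤 ≤ 2`, so `𝔤 = 0` by [Four], and `V` is not irreducible. (Any other proof is welcome.) -/
def St_V4 : Prop := ∀ (L V : Type) [LieRing L] [LieAlgebra ℂ L] [FiniteDimensional ℂ L]
  [IsKilling ℂ L] [AddCommGroup V] [Module ℂ V] [LieRingModule L V] [LieModule ℂ L V]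
  [FiniteDimensional ℂ V] [LieModule.IsIrreducible ℂ L V], finrank ℂ V = 4 →
  (∀ t : V →ₗ[ℂ] V →ₗ[ℂ] V →ₗ[ℂ] ℂ, (∀ x y z, t y x z = - t x y z) →
    (∀ x y z, t x z y = - t x y z) →
    (∀ (a : L) (x y z : V), t ⁅a, x⁆ y z + t x ⁅a, y⁆ z + t x y ⁅a, z⁆ = 0) → t = 0) ∧
  (∀ β : V →ₗ[ℂ] V →ₗ[ℂ] V, (∀ x y, β y x = - β x y) →
    (∀ (a : L) (x y : V), ⁅a, β x y⁆ = β ⁅a, x⁆ y + β x ⁅a, y⁆) → β = 0)

/-- [O8] Proof. Parities `a` of `h` and `n` of `h'` on `V` exist (`exists_parity`), `a + n` is odd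
([Odd]). The parity of `h` on `W` is one, so if `a` is even `G = 0` by [P4] (`3 a + 1` is odd). Let
`a` be odd, `n` even. By [Top], `(m + 1) dim U = 8`, `m` odd: `(m, dim U) = (1, 4), (3, 2), (7, 1)`.
`(3, 2)` is excluded by [Two]. It is enough to show `G(·, ·, ·, w0) = 0` (apply `f` and `f w0 = w1`).
`(7, 1)`: `U = ℂ v`, put `v_j = f^j v / j!` (`0 ≤ j ≤ 7`), `e v_j = (8 - j) v_{j-1}`,
`h v_j = (7 - 2 j) v_j`; `G(v_i, v_j, v_k, w0) = 0` unless `i + j + k = 11`; the six values for
`{i,j,k} = {0,4,7}, {0,5,6}, {1,3,7}, {1,4,6}, {2,3,6}, {2,4,5}` satisfy the linear equations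
`e · G(v_i, v_j, v_k, w0) = 0` for `i + j + k = 12` (`i < j < k`: {0,5,7}, {1,4,7}, {1,5,6},
{2,3,7}, {2,4,6}, {3,4,5}), whose matrix is invertible (this is `Hom_{sl_2}(⋀³ Sym⁷, Sym¹) = 0`).
`(1, 4)`: `V = U ⊕ f U`, let `M = f U` (weight `-1`), a module over `N` isomorphic to `U`, irreducible
of dimension four. Put `t(a, b, c) = G(e a, b, c, w0)` for `a, b, c ∈ M`; it is alternating in
`b, c` and `N`-invariant; `ω(e a, b)` is a non-degenerate `N`-invariant form on `M`, so
`t(a, b, c) = ω(e a, β(b, c))` with `β : M × M → M` alternating and `N`-equivariant; `N` (with the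
induced structure) is a Killing Lie algebra (an ideal of a Killing Lie algebra: its radical is an
ideal of `L = J ⊕ N`), so `β = 0` by [V4]. By weights and by alternation `G(·, ·, ·, w0)` is zero
on all triples of vectors of `U` and `M` (only two vectors in `M` and one in `U` have total weight
`-1`). -/
def St_O8 : Prop := ∀ (L W V : Type) [LieRing L] [LieAlgebra ℂ L] [FiniteDimensional ℂ L]
  [IsKilling ℂ L] [AddCommGroup W] [Module ℂ W] [LieRingModule L W] [LieModule ℂ L W]
  [AddCommGroup V] [Module ℂ V] [LieRingModule L V] [LieModule ℂ L V] [FiniteDimensional ℂ V]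
  [LieModule.IsIrreducible ℂ L V] (_ : SlI L W) (ω : V →ₗ[ℂ] V →ₗ[ℂ] ℂ), Symp L ω →
  finrank ℂ V = 8 → Tr0 L V → ∀ G : V → V → V → W → ℂ, ML4 G → Inv4 L G →
  (∀ x y z w, G y x z w = - G x y z w) → (∀ x y z w, G x z y w = - G x y z w) →
  ∀ x y z w, G x y z w = 0

/-- [S6] Proof. By [Top], `(m + 1) dim U = 6`: `(m, dim U) = (0, 6), (1, 3), (2, 2), (5, 1)`. It is
enough to show `G(·, ·, w0, w0) = 0` (apply `f` twice: `G(x, y, w0, w1) = G(x, y, w1, w0)`).
By weights `G(x, y, w0, w0) = 0` unless the weights of `x` and `y` have sum `-2`.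
`(0, 6)`: clear. `(1, 3)`: `x, y ∈ f U`, `t(x, y) = G(x, y, w0, w0)` is alternating and `N`-invariant on
`f U`, irreducible under `N`, of dimension three: `t = 0` (kernel; a non-degenerate alternating
form does not exist in odd dimension). `(2, 2)`: for `a, b ∈ U` put `t(a, b) = G(f a, f² b, w0, w0)`.
`N` acts on `U` with trace zero, irreducibly, of dimension two: the invariant bilinear forms on `U`
are the multiples of an alternating one, so `t(a, b) = - t(b, a)`. `e f² a = 2 f a`, `e w0 = 0`, so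
`0 = G(e f² a, f² b, w0, w0) + G(f² a, e f² b, w0, w0) = 2 t(a, b) - 2 t(b, a) = 4 t(a, b)`.
`(5, 1)`: `v_j = f^j v / j!`, `e v_j = (6 - j) v_{j-1}`, `N` acts trivially; the values
`c1 = G(v_1, v_5, w0, w0)`, `c2 = G(v_2, v_4, w0, w0)` satisfy (apply `e` to `(v_2, v_5)`, `(v_3, v_4)`)
`4 c1 + c2 = 0`, `3 c2 + 2 G(v_3, v_3, w0, w0) = 3 c2 = 0`. -/
def St_S6 : Prop := ∀ (L W V : Type) [LieRing L] [LieAlgebra ℂ L] [FiniteDimensional ℂ L]
  [IsKilling ℂ L] [AddCommGroup W] [Module ℂ W] [LieRingModule L W] [LieModule ℂ L W]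
  [AddCommGroup V] [Module ℂ V] [LieRingModule L V] [LieModule ℂ L V] [FiniteDimensional ℂ V]
  [LieModule.IsIrreducible ℂ L V] (_ : SlI L W), finrank ℂ V = 6 → Tr0 L V →
  ∀ G : V → V → W → W → ℂ, ML4 G → Inv4 L G → (∀ x y z w, G y x z w = - G x y z w) →
  (∀ x y z w, G x y w z = G x y z w) → ∀ x y z w, G x y z w = 0

/-- [Ful] a module `B` of dimension four on which `L` acts through the whole symplectic algebra, and a
module `V` of dimension three, or symplectic of dimension six: the kernel of `V` acts on `B` through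
the whole symplectic algebra.
Proof. Let `N` be the kernel of `V` (an ideal). By `KT.Alg.St_Simp` (proved: `KT.Alg.thm_Simp`) it is
enough to show that some `x ∈ N` acts non-trivially on `B`. Suppose `N` acts trivially on `B`. Let `M`
be the kernel of `B` and `J` an ideal complementary to `M`; `J ≅ sp_4` (acts faithfully on `B` through
the whole of `sp`), of dimension ten, and simple (or: every ideal of `L` not contained in `M` acts
through the whole of `sp`, `St_Simp`), `J ⊓ N = 0`, so `J` acts faithfully on `V`.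
`dim V = 3`: `10 = dim J ≤ 9`, contradiction. `dim V = 6`: let `V1 ⊆ V` be an irreducible
`J`-submodule; `V` is a sum of copies of `V1` (the sum of the images of `V1` under the products of
elements of `M`, which commute with `J`, is `L`-stable), so `dim V1` divides `6`; `J` acts faithfully
on `V1` (the kernel of `V1` in `J` acts trivially on `V`), so `10 ≤ (dim V1)²`, `dim V1 ≥ 4`, so
`dim V1 = 6` and `V1 = V` is irreducible under `J`; `M` acts by scalars, of trace zero, i.e.
trivially. So `p.h` acts on `V` as its `J`-component `h_P`, with six odd eigenvalues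
(`Principal.odd_span`). The forms `tr_V(x y)` and `tr_B(x y)` on `J` are invariant; `J` being simple,
`tr_V(x y) = c tr_B(x y)` (Schur: the form `tr_B` is non-degenerate on `J`, the eigenspace
`{x | tr_V(x ·) = c tr_B(x ·)}` is an ideal). On `B`, `h_P` has eigenvalues `3, 1, -1, -3` (symplectic
of dimension four with simple top weight: `frame_dim4`), `tr_B(h_P²) = 20`. Let `v` be the eigenvector
for `3`, `v'` the one for `-3`, `ω(v, v') = 1`: the operators `E = ω(v, ·) v`, `F = ± ω(v', ·) v'`,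
`H = ⁅E, F⁆` of `sp(B)` are a triple in `J`, `H = diag(1, 0, 0, -1)`, `tr_B(H²) = 2`. So
`tr_V(h_P²) = 10 tr_V(H²)`; `t = tr_V(H²)` is an even integer: `H` is part of an `sl_2`-triple acting
on `V`, its eigenvalues are integers with multiplicity of `k` equal to that of `-k`. But
`tr_V(h_P²)` is a sum of six odd squares, so it is `6` modulo `8`, and `10 t` with `t` even is `0` or
`4` modulo `8`: contradiction. -/
def St_Ful : Prop := ∀ (L V B : Type) [LieRing L] [LieAlgebra ℂ L] [FiniteDimensional ℂ L]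
  [IsKilling ℂ L] [AddCommGroup V] [Module ℂ V] [LieRingModule L V] [LieModule ℂ L V]
  [FiniteDimensional ℂ V] [LieModule.IsIrreducible ℂ L V]
  [AddCommGroup B] [Module ℂ B] [LieRingModule L B] [LieModule ℂ L B] [FiniteDimensional ℂ B]
  [LieModule.IsIrreducible ℂ L B] (ω : B →ₗ[ℂ] B →ₗ[ℂ] ℂ), Symp L ω → finrank ℂ B = 4 →
  Tr0 L V → (finrank ℂ V = 3 ∨
    (finrank ℂ V = 6 ∧ ∃ ω' : V →ₗ[ℂ] V →ₗ[ℂ] ℂ, Symp L ω')) →
  (∀ Y : Module.End ℂ B, (∀ u v, ω (Y u) v + ω u (Y v) = 0) → ∃ x : L, ∀ v, ⁅x, v⁆ = Y v) →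
  ∀ Y : Module.End ℂ B, (∀ u v, ω (Y u) v + ω u (Y v) = 0) →
    ∃ x : L, (∀ v : V, ⁅x, v⁆ = 0) ∧ ∀ v, ⁅x, v⁆ = Y v

/-- [Sp] functions which are invariant under the symplectic algebra of a space of dimension four.
Proof. (a) `g` linear with `g(Y v) = 0` for all `Y ∈ sp`: every vector is some `Y v` (take
`Y = ω(v', ·) v'`, `Y v = ω(v', v) v'`, these span). (b) `g` bilinear and invariant: by (a) applied to
... or directly: with `Y = ω(u, ·) u`: `ω(u, x) g(u, y) + ω(u, y) g(x, u) = 0` for all `u, x, y`; take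
`x = u`: `ω(u, y) g(u, u) = 0`, so `g(u, u) = 0`, `g` is alternating, and
`ω(u, x) g(u, y) = ω(u, y) g(u, x)`: `g(u, ·)` is proportional to `ω(u, ·)` for all `u`, so `g = c ω`
(standard). -/
def St_Sp : Prop := ∀ (B : Type) [AddCommGroup B] [Module ℂ B] [FiniteDimensional ℂ B]
  (ω : B →ₗ[ℂ] B →ₗ[ℂ] ℂ), (∀ x y, ω x y = - ω y x) → (∀ x, (∀ y, ω x y = 0) → x = 0) →
  (∀ g : B → ℂ, IsLinearMap ℂ g → (∀ Y : Module.End ℂ B,
    (∀ u v, ω (Y u) v + ω u (Y v) = 0) → ∀ v, g (Y v) = 0) → ∀ v, g v = 0) ∧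
  (∀ g : B → B → ℂ, ML2 g → (∀ Y : Module.End ℂ B,
    (∀ u v, ω (Y u) v + ω u (Y v) = 0) → ∀ u v, g (Y u) v + g u (Y v) = 0) →
    ∃ c : ℂ, ∀ u v, g u v = c * ω u v)

end Pool.Agent.D5
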