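import Pool.Agent.D5.StN
import Pool.Agent.D5.StL

/-!
# D5, module N1E: three vectors in a factor, one in a factor of rank one (helper1)
-/

set_option autoImplicit false

namespace Pool.Agent.D5

open Module NumberField LieAlgebra LieModule
open Pool.Agent.Helper7 Pool.Agent.GPC Pool.Agent.Helper24
open Pool.Agent.Helper8 (ML2 ML4 Inv2 Inv4 Symp Principal)

attribute [local instance 100] LieRing.ofAssociativeRing

namespace N1x

/-! ### abstract lemmas -/

section abs

variable {L : Type} [LieRing L] [LieAlgebra ℂ L]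

/-- a plane with zero traces is symplectic -/
theorem plane_symp {V : Type} [AddCommGroup V] [Module ℂ V] [LieRingModule L V]
    [LieModule ℂ L V] [FiniteDimensional ℂ V] (hd : finrank ℂ V = 2) (ht : Tr0 L V) :
    ∃ ω : V →ₗ[ℂ] V →ₗ[ℂ] ℂ, Symp L ω := by
  classical
  let b : Basis (Fin 2) ℂ V := Module.finBasisOfFinrankEq ℂ V hd
  let ω : V →ₗ[ℂ] V →ₗ[ℂ] ℂ := LinearMap.mk₂ ℂ
    (fun x y => b.repr x 0 * b.repr y 1 - b.repr x 1 * b.repr y 0)
    (fun x x' y => by simp only [map_add, Finsupp.add_apply]; ring)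
    (fun c x y => by simp only [map_smul, Finsupp.smul_apply, smul_eq_mul]; ring)
    (fun x y y' => by simp only [map_add, Finsupp.add_apply]; ring)
    (fun c x y => by simp only [map_smul, Finsupp.smul_apply, smul_eq_mul]; ring)
  have hω : ∀ x y, ω x y = b.repr x 0 * b.repr y 1 - b.repr x 1 * b.repr y 0 := fun _ _ => rfl
  refine ⟨ω, fun x y => ?_, fun x hx => ?_, fun a x y => ?_⟩
  · rw [hω, hω]
    ring
  · have h1 := hx (b 1)
    have h0 := hx (b 0)
    rw [hω] at h0 h1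
    simp only [Basis.repr_self] at h0 h1
    have e00 : (Finsupp.single (0 : Fin 2) (1 : ℂ)) 0 = 1 := by simp
    have e01 : (Finsupp.single (0 : Fin 2) (1 : ℂ)) 1 = 0 := by simp
    have e10 : (Finsupp.single (1 : Fin 2) (1 : ℂ)) 0 = 0 := by simp
    have e11 : (Finsupp.single (1 : Fin 2) (1 : ℂ)) 1 = 1 := by simp
    rw [e00, e01] at h0
    rw [e10, e11] at h1
    apply b.ext_elem
    intro i
    rw [map_zero, Finsupp.zero_apply]
    fin_cases i
    · show b.repr x 0 = 0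
      linear_combination h1
    · show b.repr x 1 = 0
      linear_combination -h0
  · have htr : b.repr ⁅a, b 0⁆ 0 + b.repr ⁅a, b 1⁆ 1 = 0 := by
      have h1 := ht a
      rw [LinearMap.trace_eq_matrix_trace ℂ b, Matrix.trace_fin_two] at h1
      simp only [LinearMap.toMatrix_apply, toEnd_apply_apply] at h1
      exact h1
    have e00 : (b.repr (b 0)) 0 = 1 := by simp
    have e01 : (b.repr (b 0)) 1 = 0 := by simp
    have e10 : (b.repr (b 1)) 0 = 0 := by simp
    have e11 : (b.repr (b 1)) 1 = 1 := by simp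
    have key : ω.comp (toEnd ℂ L V a) + ω.compl₂ (toEnd ℂ L V a) = 0 := by
      refine b.ext fun i => b.ext fun j => ?_
      show ω ⁅a, b i⁆ (b j) + ω (b i) ⁅a, b j⁆ = 0
      rw [hω, hω]
      fin_cases i <;> fin_cases j
      · show b.repr ⁅a, b 0⁆ 0 * b.repr (b 0) 1 - b.repr ⁅a, b 0⁆ 1 * b.repr (b 0) 0 +
          (b.repr (b 0) 0 * b.repr ⁅a, b 0⁆ 1 - b.repr (b 0) 1 * b.repr ⁅a, b 0⁆ 0) = 0
        rw [e00, e01]
        ring
      · show b.repr ⁅a, b 0⁆ 0 * b.repr (b 1) 1 - b.repr ⁅a, b 0⁆ 1 * b.repr (b 1) 0 +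
          (b.repr (b 0) 0 * b.repr ⁅a, b 1⁆ 1 - b.repr (b 0) 1 * b.repr ⁅a, b 1⁆ 0) = 0
        rw [e00, e01, e10, e11]
        linear_combination htr
      · show b.repr ⁅a, b 1⁆ 0 * b.repr (b 0) 1 - b.repr ⁅a, b 1⁆ 1 * b.repr (b 0) 0 +
          (b.repr (b 1) 0 * b.repr ⁅a, b 0⁆ 1 - b.repr (b 1) 1 * b.repr ⁅a, b 0⁆ 0) = 0
        rw [e00, e01, e10, e11]
        linear_combination -htr
      · show b.repr ⁅a, b 1⁆ 0 * b.repr (b 1) 1 - b.repr ⁅a, b 1⁆ 1 * b.repr (b 1) 0 +
          (b.repr (b 1) 0 * b.repr ⁅a, b 1⁆ 1 - b.repr (b 1) 1 * b.repr ⁅a, b 1⁆ 0) = 0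
        rw [e10, e11]
        ring
    have h2 : ω ⁅a, x⁆ y + ω x ⁅a, y⁆ = 0 := by
      have h3 := congrArg (fun B : V →ₗ[ℂ] V →ₗ[ℂ] ℂ => B x y) key
      exact h3
    linear_combination h2

variable {V V' V4 : Type} [AddCommGroup V] [Module ℂ V] [LieRingModule L V]
  [LieModule ℂ L V] [FiniteDimensional ℂ V] [LieModule.IsIrreducible ℂ L V]
  [AddCommGroup V'] [Module ℂ V'] [LieRingModule L V'] [LieModule ℂ L V']
  [FiniteDimensional ℂ V'] [AddCommGroup V4] [Module ℂ V4] [LieRingModule L V4]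

/-- three equal places -/
theorem four_a (hV4 : St_V4) [FiniteDimensional ℂ L] [IsKilling ℂ L] (hd : finrank ℂ V = 4)
    {G : V → V → V → V4 → ℂ} (hG : ML4 G) (hI : Inv4 L G)
    (t4 : ∀ (x : L) (v : V4), ⁅x, v⁆ = 0) (a1 : ∀ x y z w, G y x z w = - G x y z w)
    (a2 : ∀ x y z w, G x z y w = - G x y z w) (x y z : V) (w : V4) : G x y z w = 0 := by
  let t : V →ₗ[ℂ] V →ₗ[ℂ] V →ₗ[ℂ] ℂ := LinearMap.mk₂ ℂ
    (fun x y => IsLinearMap.mk' (fun z => G x y z w) (hG.l3 x y w))
    (fun x x' y => by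
      ext z
      exact (hG.l1 y z w).map_add x x')
    (fun c x y => by
      ext z
      exact (hG.l1 y z w).map_smul c x)
    (fun x y y' => by
      ext z
      exact (hG.l2 x z w).map_add y y')
    (fun c x y => by
      ext z
      exact (hG.l2 x z w).map_smul c y)
  have ht : ∀ x y z, t x y z = G x y z w := fun _ _ _ => rfl
  have h0 : t = 0 := by
    refine (hV4 L V hd).1 t (fun x y z => ?_) (fun x y z => ?_) (fun a x y z => ?_)
    · rw [ht, ht]
      exact a1 x y z w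
    · rw [ht, ht]
      exact a2 x y z w
    · rw [ht, ht, ht]
      have h1 := hI a x y z w
      rw [t4, (hG.l4 x y z).map_zero, add_zero] at h1
      exact h1
  rw [← ht, h0]
  rfl

omit [LieModule ℂ L V'] in
/-- two equal places and the dual one -/
theorem four_b (hV4 : St_V4) [FiniteDimensional ℂ L] [IsKilling ℂ L] (hd : finrank ℂ V = 4)
    (hd' : finrank ℂ V' = 4) (b : V →ₗ[ℂ] V' →ₗ[ℂ] ℂ) (hb : PairInv L b)
    {G : V → V → V' → V4 → ℂ} (hG : ML4 G) (hI : Inv4 L G)
    (t4 : ∀ (x : L) (v : V4), ⁅x, v⁆ = 0) (a1 : ∀ x y z w, G y x z w = - G x y z w)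
    (x y : V) (z : V') (w : V4) : G x y z w = 0 := by
  have hinj : Function.Injective b := by
    rw [← LinearMap.ker_eq_bot, Submodule.eq_bot_iff]
    intro x hx
    exact hb.ndl x fun y => by rw [LinearMap.mem_ker.mp hx]; rfl
  have hfd : finrank ℂ V = finrank ℂ (Module.Dual ℂ V') := by
    rw [Subspace.dual_finrank_eq, hd, hd']
  let Φ : V ≃ₗ[ℂ] Module.Dual ℂ V' := LinearEquiv.ofInjectiveOfFinrankEq b hinj hfd
  have hΦ : ∀ f : Module.Dual ℂ V', b (Φ.symm f) = f := fun f => Φ.apply_symm_apply f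
  let t : V →ₗ[ℂ] V →ₗ[ℂ] Module.Dual ℂ V' := LinearMap.mk₂ ℂ
    (fun x y => IsLinearMap.mk' (fun z => G x y z w) (hG.l3 x y w))
    (fun x x' y => by
      ext z
      exact (hG.l1 y z w).map_add x x')
    (fun c x y => by
      ext z
      exact (hG.l1 y z w).map_smul c x)
    (fun x y y' => by
      ext z
      exact (hG.l2 x z w).map_add y y')
    (fun c x y => by
      ext z
      exact (hG.l2 x z w).map_smul c y)
  have ht : ∀ x y z, t x y z = G x y z w := fun _ _ _ => rfl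
  let β : V →ₗ[ℂ] V →ₗ[ℂ] V := t.compr₂ Φ.symm.toLinearMap
  have hβ : ∀ x y z, b (β x y) z = G x y z w := by
    intro x y z
    show b (Φ.symm (t x y)) z = _
    rw [hΦ, ht]
  have hext : ∀ u v : V, (∀ z, b u z = b v z) → u = v := by
    intro u v h
    apply hinj
    exact LinearMap.ext h
  have h0 : β = 0 := by
    refine (hV4 L V hd).2 β (fun x y => ?_) (fun a x y => ?_)
    · apply hext
      intro z
      rw [map_neg, LinearMap.neg_apply, hβ, hβ]
      exact a1 x y z w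
    · apply hext
      intro z
      rw [map_add, LinearMap.add_apply, hβ, hβ]
      have h1 := hI a x y z w
      rw [t4, (hG.l4 x y z).map_zero, add_zero] at h1
      have h2 := hb.inv a (β x y) z
      rw [hβ] at h2
      linear_combination h2 - h1
  rw [← hβ, h0]
  simp

end abs

/-- the embeddings of an imaginary quadratic field -/
theorem emb2 {K : Type} [Field K] [NumberField K] (hC : Cx K) (hd : finrank ℚ K = 2)
    (σ τ : K →+* ℂ) : τ = σ ∨ τ = ComplexEmbedding.conjugate σ := by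
  classical
  have hne : ComplexEmbedding.conjugate σ ≠ σ := hC σ
  have hcard : Fintype.card (K →+* ℂ) = 2 := by rw [card_emb, hd]
  by_contra hcon
  push Not at hcon
  have h1 : ({τ, σ, ComplexEmbedding.conjugate σ} : Finset (K →+* ℂ)).card = 3 :=
    Finset.card_eq_three.mpr ⟨τ, σ, ComplexEmbedding.conjugate σ, hcon.1, hcon.2, hne.symm, rfl⟩
  have h2 := Finset.card_le_univ ({τ, σ, ComplexEmbedding.conjugate σ} : Finset (K →+* ℂ))
  omega

end N1x

open N1x

theorem N1E_ (hFr : St_Fr) (hV4 : St_V4) : St_N1E := by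
  intro I _ _ A K _ _ r F a e G hG h12 h23 hr he hcase
  have D : FrD A F hG := hFr I A K r F a a a e G hG hr
  have hK := D.kill
  have hirr := D.irr
  have t4 : ∀ (s4 : K e →+* ℂ) (x : LG A F hG.ml) (v : VG A F hG.ml ⟨e, s4⟩), ⁅x, v⁆ = 0 :=
    fun s4 => D.triv ⟨e, s4⟩ he
  refine D.zero fun s1 s2 s3 s4 x y z w => ?_
  rcases hcase with hcase | hcase | hcase
  · obtain ⟨p⟩ := Pool.Agent.Helper8.exists_principal (LG A F hG.ml)
    exact Pool.Agent.Helper8.odd3 p
      (bp_symp (n1 I) (PA A) F (aG A a a a e G hG.ml) hr a s1 (hcase s1))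
      (bp_symp (n1 I) (PA A) F (aG A a a a e G hG.ml) hr a s2 (hcase s2))
      (bp_symp (n1 I) (PA A) F (aG A a a a e G hG.ml) hr a s3 (hcase s3))
      (D.ml s1 s2 s3 s4) (D.inv s1 s2 s3 s4) (t4 s4) x y z w
  · obtain ⟨p⟩ := Pool.Agent.Helper8.exists_principal (LG A F hG.ml)
    obtain ⟨ω1, hω1⟩ := plane_symp (L := LG A F hG.ml) (V := VG A F hG.ml ⟨a, s1⟩)
      ((D.rank ⟨a, s1⟩).trans hcase) (D.tr ⟨a, s1⟩)
    obtain ⟨ω2, hω2⟩ := plane_symp (L := LG A F hG.ml) (V := VG A F hG.ml ⟨a, s2⟩)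
      ((D.rank ⟨a, s2⟩).trans hcase) (D.tr ⟨a, s2⟩)
    obtain ⟨ω3, hω3⟩ := plane_symp (L := LG A F hG.ml) (V := VG A F hG.ml ⟨a, s3⟩)
      ((D.rank ⟨a, s3⟩).trans hcase) (D.tr ⟨a, s3⟩)
    exact Pool.Agent.Helper8.odd3 p hω1 hω2 hω3
      (D.ml s1 s2 s3 s4) (D.inv s1 s2 s3 s4) (t4 s4) x y z w
  · obtain ⟨h4, hC, h2⟩ := hcase
    -- two equal places
    have main : ∀ (s t : K a →+* ℂ) (x y : VG A F hG.ml ⟨a, s⟩) (z : VG A F hG.ml ⟨a, t⟩)
        (w : VG A F hG.ml ⟨e, s4⟩), cG A F hG.ml s s t s4 x y z w = 0 := by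
      intro s t x y z w
      rcases emb2 hC h2 s t with rfl | rfl
      · exact four_a hV4 ((D.rank ⟨a, t⟩).trans h4) (D.ml t t t s4) (D.inv t t t s4) (t4 s4)
          (fun x y z w => h12 _ _ _ _) (fun x y z w => h23 _ _ _ _) x y z w
      · exact four_b hV4 ((D.rank ⟨a, s⟩).trans h4)
          ((D.rank ⟨a, ComplexEmbedding.conjugate s⟩).trans h4)
          (bp (n1 I) (PA A) F (aG A a a a e G hG.ml) a s (ComplexEmbedding.conjugate s))
          (bp_pair (n1 I) (PA A) F (aG A a a a e G hG.ml) hr a s)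
          (D.ml s s _ s4) (D.inv s s _ s4) (t4 s4) (fun x y z w => h12 _ _ _ _) x y z w
    by_cases e12 : s1 = s2
    · subst e12
      exact main s1 s3 x y z w
    · by_cases e13 : s1 = s3
      · subst e13
        have h5 := main s1 s2 x z y w
        have h6 : cG A F hG.ml s1 s2 s1 s4 x y z w = - cG A F hG.ml s1 s1 s2 s4 x z y w :=
          h23 _ _ _ _
        rw [h6, h5, neg_zero]
      · have e23 : s2 = s3 := by
          rcases emb2 hC h2 s1 s2 with h | h
          · exact absurd h.symm e12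
          · rcases emb2 hC h2 s1 s3 with h' | h'
            · exact absurd h'.symm e13
            · rw [h, h']
        subst e23
        have h5 := main s2 s1 y z x w
        have h6 : cG A F hG.ml s1 s2 s2 s4 x y z w = - cG A F hG.ml s2 s1 s2 s4 y x z w :=
          h12 _ _ _ _
        have h7 : cG A F hG.ml s2 s1 s2 s4 y x z w = - cG A F hG.ml s2 s2 s1 s4 y z x w :=
          h23 _ _ _ _
        rw [h6, h7, h5, neg_zero, neg_zero]

end Pool.Agent.D5
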