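import Pool.Agent.D5.StN

/-!
# D5, module N1P: rank two over a quartic CM field, and an elliptic curve
-/

set_option autoImplicit false

namespace Pool.Agent.D5

open Module NumberField LieAlgebra
open Pool.Agent.Helper7 Pool.Agent.GPC Pool.Agent.Helper24
open Pool.Agent.Helper8 (ML2 ML4 Inv2 Inv4 Symp Principal)

attribute [local instance 100] LieRing.ofAssociativeRing

/-- relations of length three between odd functions on a set of two conjugate pairs with a
transitive group of symmetries -/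
lemma comb_N1P {E M : Type} [AddCommGroup M] [Module ℂ M] [Fintype E] [DecidableEq E]
    (hE : Fintype.card E = 4) (cj : E → E) (hcj : ∀ s, cj (cj s) = s) (hne : ∀ s, cj s ≠ s)
    (c : E → M) (hc : ∀ s, c (cj s) = - c s)
    (hG : ∀ σ τ : E, ∃ g : E → E, g σ = τ ∧
      (∀ s1 s2 s3, c s1 + c s2 + c s3 = 0 → c (g s1) + c (g s2) + c (g s3) = 0) ∧
      ∀ s, c s = 0 → c (g s) = 0)
    (s1 s2 s3 : E) (h : c s1 + c s2 + c s3 = 0) : ∀ s, c s = 0 := by
  have key : ∀ s, c s = 0 → ∀ t, c t = 0 := by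
    intro s hs t
    obtain ⟨g, hg, -, hg2⟩ := hG s t
    rw [← hg]
    exact hg2 s hs
  by_contra hcon
  have hnz : ∀ s, c s ≠ 0 := fun s hs => hcon (key s hs)
  -- two pairs are everything
  have four : ∀ σ τ : E, τ ≠ σ → τ ≠ cj σ → ∀ ρ, ρ = σ ∨ ρ = cj σ ∨ ρ = τ ∨ ρ = cj τ := by
    intro σ τ h1 h2 ρ
    have e1 : cj σ ≠ σ := hne σ
    have e2 : cj τ ≠ τ := hne τ
    have e3 : cj τ ≠ σ := fun e => h2 (by rw [← e, hcj])
    have e4 : cj τ ≠ cj σ := fun e => h1 (by rw [← hcj τ, e, hcj])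
    have hcard : ({σ, cj σ, τ, cj τ} : Finset E).card = 4 := by
      rw [Finset.card_insert_of_notMem, Finset.card_insert_of_notMem,
        Finset.card_insert_of_notMem, Finset.card_singleton]
      · simpa using e2.symm
      · simp only [Finset.mem_insert, Finset.mem_singleton, not_or]
        exact ⟨h2.symm, e4.symm⟩
      · simp only [Finset.mem_insert, Finset.mem_singleton, not_or]
        exact ⟨e1.symm, h1.symm, e3.symm⟩
    have huniv : ({σ, cj σ, τ, cj τ} : Finset E) = Finset.univ :=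
      Finset.eq_univ_of_card _ (by rw [hcard, hE])
    have hm : ρ ∈ ({σ, cj σ, τ, cj τ} : Finset E) := by rw [huniv]; exact Finset.mem_univ ρ
    simpa using hm
  -- the relation `2 c σ + c τ = 0`
  have two : ∀ σ τ : E, τ ≠ σ → τ ≠ cj σ → c σ + c σ + c τ = 0 → False := by
    intro σ τ h1 h2 h3
    obtain ⟨g, hg, hg1, -⟩ := hG σ τ
    have h4 := hg1 σ σ τ h3
    rw [hg] at h4
    have h5 : c τ = -(2 : ℂ) • c σ := by
      linear_combination (norm := module) h3
    rcases four σ τ h1 h2 (g τ) with e | e | e | e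
    · rw [e, h5] at h4
      apply hnz σ
      have h6 : (-3 : ℂ) • c σ = 0 := by
        linear_combination (norm := module) h4
      exact (smul_eq_zero.mp h6).resolve_left (by norm_num)
    · rw [e, hc, h5] at h4
      apply hnz σ
      have h6 : (-5 : ℂ) • c σ = 0 := by
        linear_combination (norm := module) h4
      exact (smul_eq_zero.mp h6).resolve_left (by norm_num)
    · rw [e] at h4
      apply hnz τ
      have h6 : (3 : ℂ) • c τ = 0 := by
        linear_combination (norm := module) h4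
      exact (smul_eq_zero.mp h6).resolve_left (by norm_num)
    · rw [e, hc] at h4
      apply hnz τ
      have h6 : (1 : ℂ) • c τ = 0 := by
        linear_combination (norm := module) h4
      exact (smul_eq_zero.mp h6).resolve_left (by norm_num)
  have three : ∀ σ τ : E, c σ + c σ + c τ = 0 → False := by
    intro σ τ h3
    by_cases h1 : τ = σ
    · rw [h1] at h3
      apply hnz σ
      have h6 : (3 : ℂ) • c σ = 0 := by
        linear_combination (norm := module) h3
      exact (smul_eq_zero.mp h6).resolve_left (by norm_num)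
    · by_cases h2 : τ = cj σ
      · rw [h2, hc] at h3
        apply hnz σ
        have h6 : (1 : ℂ) • c σ = 0 := by
          linear_combination (norm := module) h3
        exact (smul_eq_zero.mp h6).resolve_left (by norm_num)
      · exact two σ τ h1 h2 h3
  by_cases h12 : s2 = s1
  · rw [h12] at h
    exact three s1 s3 h
  by_cases h12' : s2 = cj s1
  · rw [h12', hc] at h
    apply hnz s3
    linear_combination (norm := module) h
  rcases four s1 s2 h12 h12' s3 with e | e | e | e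
  · rw [e] at h
    exact three s1 s2 (by linear_combination (norm := module) h)
  · rw [e, hc] at h
    apply hnz s2
    linear_combination (norm := module) h
  · rw [e] at h
    exact three s2 s1 (by linear_combination (norm := module) h)
  · rw [e, hc] at h
    apply hnz s1
    linear_combination (norm := module) h

/-- [N1P] three vectors in a factor of rank two over a quartic CM field, one in an elliptic curve
without complex multiplication -/
theorem N1P_ (hFr : St_Fr) (hP4 : St_P4) (hSl : St_Sl) (hPln : St_Pln) (hGal : St_Gal)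
    (hIso : St_Iso) : St_N1P := by
  classical
  intro I _ _ A K _ _ r F a e G hG _ _ hr hre hRe hra hCx hdeg hae hHom
  have D := hFr I A K r F a a a e G hG hr
  apply D.zero
  intro s1 s2 s3 s4 x y z w
  by_contra hnz
  have hkill := D.kill
  have hirrW := D.irr ⟨e, s4⟩
  obtain ⟨p⟩ := Helper8.exists_principal (LG A F hG.ml)
  obtain ⟨S, -⟩ := hSl (LG A F hG.ml) (VG A F hG.ml ⟨e, s4⟩) p ((D.rank ⟨e, s4⟩).trans hre)
    (D.tr ⟨e, s4⟩)
  have hparW : Par S.h 1 (VG A F hG.ml ⟨e, s4⟩) := by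
    intro v _
    obtain ⟨c1, c2, hv⟩ := S.span v
    rw [hv]
    refine Submodule.add_mem _ (Submodule.smul_mem _ _ (Submodule.subset_span ⟨0, ?_⟩))
      (Submodule.smul_mem _ _ (Submodule.subset_span ⟨-1, ?_⟩))
    · rw [S.h0]; norm_num
    · rw [S.h1]; norm_num
  -- one of the three planes is paired with the plane `W`
  have hpl : ∀ s : K a →+* ℂ, Par S.h 0 (VG A F hG.ml ⟨a, s⟩) ∨
      ∃ g : VG A F hG.ml ⟨a, s⟩ → VG A F hG.ml ⟨e, s4⟩ → ℂ, ML2 g ∧ Inv2 (LG A F hG.ml) g ∧
        ∃ x y, g x y ≠ 0 := by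
    intro s
    have := D.irr ⟨a, s⟩
    exact hPln (LG A F hG.ml) (VG A F hG.ml ⟨e, s4⟩) (VG A F hG.ml ⟨a, s⟩) S
      ((D.rank ⟨a, s⟩).trans hra) (D.tr ⟨a, s⟩)
  have hex : ∃ s : K a →+* ℂ,
      ∃ g : VG A F hG.ml ⟨a, s⟩ → VG A F hG.ml ⟨e, s4⟩ → ℂ, ML2 g ∧ Inv2 (LG A F hG.ml) g ∧
        ∃ x y, g x y ≠ 0 := by
    by_contra hcon
    have hp : ∀ s : K a →+* ℂ, Par S.h 0 (VG A F hG.ml ⟨a, s⟩) := fun s =>
      (hpl s).resolve_right fun h => hcon ⟨s, h⟩
    exact hnz (hP4 (LG A F hG.ml) _ _ _ _ S.h 0 0 0 1 (hp s1) (hp s2) (hp s3) hparW ⟨0, by norm_num⟩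
      _ (D.ml s1 s2 s3 s4) (fun x y z w => D.inv s1 s2 s3 s4 S.h x y z w) x y z w)
  obtain ⟨s, g, hg1, hg2, hg3⟩ := hex
  -- weights
  let PP := PA A
  have hconj : ∀ (t : Emb K) (X : GG (kap A)), IsInv (n1 I) PP (aG A a a a e G hG.ml) X →
      ch PP F t X + ch PP F (conjT t) X = X.2 := fun t X hX =>
    ch_conj (n1 I) PP F (aG A a a a e G hG.ml) hr t X hX
  have he : ∀ X : GG (kap A), IsInv (n1 I) PP (aG A a a a e G hG.ml) X →
      ch PP F ⟨e, s4⟩ X = X.2 / 2 := by
    intro X hX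
    have h1 := hconj ⟨e, s4⟩ X hX
    have h2 : conjT (⟨e, s4⟩ : Emb K) = ⟨e, s4⟩ := by
      show (⟨e, ComplexEmbedding.conjugate s4⟩ : Emb K) = ⟨e, s4⟩
      rw [hRe s4]
    rw [h2] at h1
    linear_combination h1 / 2
  have hw : ∀ X : GG (kap A), IsInv (n1 I) PP (aG A a a a e G hG.ml) X →
      ch PP F ⟨a, s1⟩ X + ch PP F ⟨a, s2⟩ X + ch PP F ⟨a, s3⟩ X = 3 / 2 * X.2 := by
    intro X hX
    have h1 := D.wt s1 s2 s3 s4 ⟨x, y, z, w, hnz⟩ X hX
    have h2 := he X hX
    linear_combination h1 - h2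
  -- the weights at `a` are all equal to one half
  let c : (K a →+* ℂ) → ({X : GG (kap A) // IsInv (n1 I) PP (aG A a a a e G hG.ml) X} → ℂ) :=
    fun σ X => ch PP F ⟨a, σ⟩ X.1 - X.1.2 / 2
  have hϖ : (2 * (Real.pi : ℂ) * Complex.I) ≠ 0 := Complex.two_pi_I_ne_zero
  have hrel : ∀ t1 t2 t3 : K a →+* ℂ, c t1 + c t2 + c t3 = 0 → ∀ τ : ℂ ≃+* ℂ,
      c ((τ : ℂ →+* ℂ).comp t1) + c ((τ : ℂ →+* ℂ).comp t2) + c ((τ : ℂ →+* ℂ).comp t3) = 0 := by
    intro t1 t2 t3 h τ
    funext X
    have h1 := hGal I (n1 I) (kap A) (2 * Real.pi * Complex.I) PP K r F 2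
      (aG A a a a e G hG.ml) hϖ D.hB 3 ![⟨a, t1⟩, ⟨a, t2⟩, ⟨a, t3⟩] (fun _ => 1) (3 / 2) (by
        intro Y hY
        have h2 := congrFun h ⟨Y, hY⟩
        simp only [c, Pi.add_apply, Pi.zero_apply] at h2
        simp only [Fin.sum_univ_three, Matrix.cons_val_zero, Matrix.cons_val_one,
          Matrix.cons_val_two, Matrix.head_cons, Matrix.tail_cons]
        push_cast
        linear_combination h2) τ X.1 X.2
    simp only [Fin.sum_univ_three, Matrix.cons_val_zero, Matrix.cons_val_one,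
      Matrix.cons_val_two, Matrix.head_cons, Matrix.tail_cons] at h1
    push_cast at h1
    have h3 : ∀ t : K a →+* ℂ, ch PP F (actT τ (⟨a, t⟩ : Emb K)) X.1 =
        ch PP F ⟨a, (τ : ℂ →+* ℂ).comp t⟩ X.1 := fun t => rfl
    rw [h3, h3, h3] at h1
    simp only [c, Pi.add_apply, Pi.zero_apply]
    linear_combination h1
  have hone : ∀ t : K a →+* ℂ, c t = 0 → ∀ τ : ℂ ≃+* ℂ, c ((τ : ℂ →+* ℂ).comp t) = 0 := by
    intro t h τ
    have h1 := hrel t t t (by rw [h]; simp) τ
    have h2 : (3 : ℂ) • c ((τ : ℂ →+* ℂ).comp t) = 0 := by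
      linear_combination (norm := module) h1
    exact (smul_eq_zero.mp h2).resolve_left (by norm_num)
  have hall := comb_N1P (E := K a →+* ℂ) (by
      rw [← hdeg]; exact NumberField.Embeddings.card (K a) ℂ)
    ComplexEmbedding.conjugate (fun s => conj_conj s) hCx c (by
      intro t
      funext X
      have h1 := hconj ⟨a, t⟩ X.1 X.2
      have h2 : ch PP F (conjT (⟨a, t⟩ : Emb K)) X.1 =
        ch PP F ⟨a, ComplexEmbedding.conjugate t⟩ X.1 := rfl
      rw [h2] at h1
      simp only [c, Pi.neg_apply]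
      linear_combination h1) (by
      intro σ τ
      obtain ⟨g, hg⟩ := Helper84.exists_aut σ τ
      exact ⟨fun t => (g : ℂ →+* ℂ).comp t, hg, fun t1 t2 t3 h => hrel t1 t2 t3 h g,
        fun t h => hone t h g⟩) s1 s2 s3 (by
      funext X
      have h1 := hw X.1 X.2
      simp only [c, Pi.add_apply, Pi.zero_apply]
      linear_combination h1) s
  have hfin := hIso I (n1 I) (kap A) (2 * Real.pi * Complex.I) PP K r F 2
    (aG A a a a e G hG.ml) hϖ D.hB D.hA hr ⟨a, s⟩ ⟨e, s4⟩
    (fun _ f hf v => hHom f ⟨f.isLinear, ((isDRB_iff _ _ f).mp hf).1, ((isDRB_iff _ _ f).mp hf).2,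
      hom_fil _ _ f f.isLinear ((isDRB_iff _ _ f).mp hf).1 ((isDRB_iff _ _ f).mp hf).2⟩ v)
    (fun h => absurd h hae) g hg1 hg2 (by
      intro X hX
      have h1 := congrFun hall ⟨X, hX⟩
      simp only [c, Pi.zero_apply] at h1
      have h2 := he X hX
      linear_combination h1 + h2) hg3
  exact hae (congrArg Sigma.fst hfin).symm

end Pool.Agent.D5
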