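import Pool.Agent.D5.StN

/-!
# D5: N1Q, three vectors in a simple fourfold of rank four over a quadratic field and one in an
elliptic curve
-/

set_option autoImplicit false

namespace Pool.Agent.D5

open Module NumberField LieAlgebra
open Pool.Agent.Helper7 Pool.Agent.GPC Pool.Agent.Helper24
open Pool.Agent.Helper8 (ML2 ML4 Inv2 Inv4 Symp Principal)

attribute [local instance 100] LieRing.ofAssociativeRing

private lemma N1Q_emb {K : Type} [Field K] [NumberField K] (h : finrank ℚ K = 1)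
    (s t : K →+* ℂ) : s = t := by
  have h1 : Fintype.card (K →+* ℂ) = 1 := by
    rw [NumberField.Embeddings.card K ℂ, h]
  exact Fintype.card_le_one_iff.1 h1.le s t

private lemma N1Q_two {K : Type} [Field K] [NumberField K] (h : finrank ℚ K = 2)
    (hC : Cx K) (s t : K →+* ℂ) : t = s ∨ t = ComplexEmbedding.conjugate s := by
  classical
  by_contra hcon
  push Not at hcon
  have h1 : Fintype.card (K →+* ℂ) = 2 := by
    rw [NumberField.Embeddings.card K ℂ, h]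
  have h2 : ({t, s, ComplexEmbedding.conjugate s} : Finset (K →+* ℂ)).card = 3 := by
    rw [Finset.card_eq_three]
    exact ⟨t, s, _, hcon.1, hcon.2, fun h => hC s h.symm, rfl⟩
  have h3 := Finset.card_le_univ ({t, s, ComplexEmbedding.conjugate s} : Finset (K →+* ℂ))
  omega

section par

variable {L : Type} [LieRing L] [LieAlgebra ℂ L] {V V' : Type} [AddCommGroup V] [Module ℂ V]
  [LieRingModule L V] [AddCommGroup V'] [Module ℂ V'] [LieRingModule L V']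

private lemma N1Q_shift {h : L} {n n' : ℤ} (hn : Even (n - n')) (hp : Par h n V) :
    Par h n' V := by
  refine hp.trans (Submodule.span_mono ?_)
  rintro v ⟨m, hm⟩
  obtain ⟨j, hj⟩ := hn
  refine ⟨m + j, ?_⟩
  rw [hm]
  congr 2
  omega

private lemma N1Q_pair (h : L) (b : V →ₗ[ℂ] V' →ₗ[ℂ] ℂ)
    (hb : ∀ x y, b ⁅h, x⁆ y + b x ⁅h, y⁆ = 0) (n n' : ℤ) (hV : Par h n V) (hV' : Par h n' V')
    (hodd : Odd (n + n')) : b = 0 := by
  have key : ∀ x ∈ {v : V | ∃ m : ℤ, ⁅h, v⁆ = ((n + 2 * m : ℤ) : ℂ) • v},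
      ∀ y ∈ {v : V' | ∃ m : ℤ, ⁅h, v⁆ = ((n' + 2 * m : ℤ) : ℂ) • v}, b x y = 0 := by
    rintro x ⟨m, hm⟩ y ⟨m', hm'⟩
    have h1 := hb x y
    rw [hm, hm', map_smul, map_smul, LinearMap.smul_apply, smul_eq_mul, smul_eq_mul] at h1
    have h2 : ((n + 2 * m + (n' + 2 * m') : ℤ) : ℂ) * b x y = 0 := by
      push_cast at h1 ⊢
      linear_combination h1
    rcases mul_eq_zero.mp h2 with h3 | h3
    · exfalso
      have h4 : n + 2 * m + (n' + 2 * m') = 0 := by exact_mod_cast h3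
      obtain ⟨j, hj⟩ := hodd
      omega
    · exact h3
  have key2 : ∀ x ∈ {v : V | ∃ m : ℤ, ⁅h, v⁆ = ((n + 2 * m : ℤ) : ℂ) • v}, b x = 0 := by
    intro x hx
    apply LinearMap.ext
    intro y
    have h1 : y ∈ LinearMap.ker (b x) := by
      have h2 : Submodule.span ℂ {v : V' | ∃ m : ℤ, ⁅h, v⁆ = ((n' + 2 * m : ℤ) : ℂ) • v} ≤
          LinearMap.ker (b x) := Submodule.span_le.mpr fun y hy => key x hx y hy
      exact h2 (hV' Submodule.mem_top)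
    exact h1
  apply LinearMap.ext
  intro x
  have h1 : x ∈ LinearMap.ker b := by
    have h2 : Submodule.span ℂ {v : V | ∃ m : ℤ, ⁅h, v⁆ = ((n + 2 * m : ℤ) : ℂ) • v} ≤
        LinearMap.ker b := Submodule.span_le.mpr fun x hx => key2 x hx
    exact h2 (hV Submodule.mem_top)
  exact h1

end par

section core

variable {L W : Type} [LieRing L] [LieAlgebra ℂ L] [FiniteDimensional ℂ L]
  [IsKilling ℂ L] [AddCommGroup W] [Module ℂ W] [LieRingModule L W] [LieModule ℂ L W]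
  (S : SlI L W) {J : Type} (V : J → Type)
  [∀ σ, AddCommGroup (V σ)] [∀ σ, Module ℂ (V σ)] [∀ σ, LieRingModule L (V σ)]
  [∀ σ, LieModule ℂ L (V σ)] [∀ σ, FiniteDimensional ℂ (V σ)]
  [∀ σ, LieModule.IsIrreducible ℂ L (V σ)]

private lemma N1Q_W1 : Par S.h 1 W := by
  intro w _
  obtain ⟨c0, c1, rfl⟩ := S.span w
  refine Submodule.add_mem _ (Submodule.smul_mem _ _ (Submodule.subset_span ⟨0, ?_⟩))
    (Submodule.smul_mem _ _ (Submodule.subset_span ⟨-1, ?_⟩))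
  · rw [S.h0]; norm_num
  · rw [S.h1]; norm_num

private lemma N1Q_W0 : Par S.h' 0 W := by
  intro w _
  refine Submodule.subset_span ⟨0, ?_⟩
  rw [S.triv S.h' S.ptN.hJ w]
  simp

/-- the parities -/
private lemma N1Q_par (hP : St_P4) (s1 s2 s3 : J) (c : V s1 → V s2 → V s3 → W → ℂ)
    (hml : ML4 c) (hinv : Inv4 L c) (hne : ∃ x y z w, c x y z w ≠ 0) :
    ∃ pp nn : J → ℤ, (∀ σ, Par S.h (pp σ) (V σ)) ∧ (∀ σ, Par S.h' (nn σ) (V σ)) ∧
      Even (pp s1 + pp s2 + pp s3 + 1) ∧ Even (nn s1 + nn s2 + nn s3) := by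
  have hpar : ∀ σ : J, ∃ n : ℤ, Par S.h n (V σ) := fun σ => exists_parity S.ptJ
  have hpar' : ∀ σ : J, ∃ n : ℤ, Par S.h' n (V σ) := fun σ => exists_parity S.ptN
  choose pp hpp using hpar
  choose nn hnn using hpar'
  refine ⟨pp, nn, hpp, hnn, ?_, ?_⟩
  · rw [← Int.not_odd_iff_even]
    intro ho
    obtain ⟨x, y, z, w, hne⟩ := hne
    exact hne (hP L _ _ _ _ S.h _ _ _ _ (hpp s1) (hpp s2) (hpp s3) (N1Q_W1 S) ho
      c hml (fun x y z w => hinv S.h x y z w) x y z w)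
  · rw [← Int.not_odd_iff_even]
    intro ho
    obtain ⟨x, y, z, w, hne⟩ := hne
    exact hne (hP L _ _ _ _ S.h' _ _ _ _ (hnn s1) (hnn s2) (hnn s3) (N1Q_W0 S)
      (by rw [add_zero]; exact ho) c hml (fun x y z w => hinv S.h' x y z w) x y z w)

private lemma N1Q_real (hP : St_P4) (hOdd : St_Odd) (ω : ∀ σ, V σ →ₗ[ℂ] V σ →ₗ[ℂ] ℂ)
    (hω : ∀ σ, Symp L (ω σ)) (s1 s2 s3 : J) (c : V s1 → V s2 → V s3 → W → ℂ)
    (hml : ML4 c) (hinv : Inv4 L c) (hne : ∃ x y z w, c x y z w ≠ 0) :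
    ∃ σ, Par S.h 1 (V σ) ∧ Par S.h' 0 (V σ) := by
  obtain ⟨pp, nn, hpp, hnn, e1, e2⟩ := N1Q_par S V hP s1 s2 s3 c hml hinv hne
  have hodd : ∀ σ, Odd (pp σ + nn σ) := fun σ =>
    hOdd L W (V σ) S (ω σ) (hω σ) _ _ (hpp σ) (hnn σ)
  have h1 := hodd s1
  have h2 := hodd s2
  have h3 := hodd s3
  have hfin : ∀ σ, Even (nn σ) → ∃ σ, Par S.h 1 (V σ) ∧ Par S.h' 0 (V σ) := by
    intro σ h
    have h4 := hodd σ
    exact ⟨σ, N1Q_shift (by grind) (hpp σ), N1Q_shift (by grind) (hnn σ)⟩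
  rcases Int.even_or_odd (nn s1) with a1 | a1
  · exact hfin s1 a1
  · rcases Int.even_or_odd (nn s2) with a2 | a2
    · exact hfin s2 a2
    · exact hfin s3 (by grind)

private lemma N1Q_cx (hP : St_P4) (cj : J → J) (b : ∀ σ, V σ →ₗ[ℂ] V (cj σ) →ₗ[ℂ] ℂ)
    (hb : ∀ σ, PairInv L (b σ)) (s1 s2 s3 : J) (h2 : s2 = s1 ∨ s2 = cj s1)
    (h3 : s3 = s1 ∨ s3 = cj s1) (c : V s1 → V s2 → V s3 → W → ℂ)
    (hml : ML4 c) (hinv : Inv4 L c) (hne : ∃ x y z w, c x y z w ≠ 0) :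
    Par S.h 1 (V s1) ∧ Par S.h' 0 (V s1) := by
  obtain ⟨pp, nn, hpp, hnn, e1, e2⟩ := N1Q_par S V hP s1 s2 s3 c hml hinv hne
  have hb0 : b s1 ≠ 0 := by
    intro h0
    have hnt : Nontrivial (V s1) := LieModule.nontrivial_of_isIrreducible ℂ L (V s1)
    obtain ⟨v, hv⟩ := exists_ne (0 : V s1)
    refine hv ((hb s1).ndl v fun y => ?_)
    rw [h0]; rfl
  have b1 : Even (pp s1 + pp (cj s1)) := by
    rw [← Int.not_odd_iff_even]
    intro ho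
    exact hb0 (N1Q_pair S.h _ (fun x y => (hb s1).inv S.h x y) _ _ (hpp s1) (hpp _) ho)
  have b2 : Even (nn s1 + nn (cj s1)) := by
    rw [← Int.not_odd_iff_even]
    intro ho
    exact hb0 (N1Q_pair S.h' _ (fun x y => (hb s1).inv S.h' x y) _ _ (hnn s1) (hnn _) ho)
  have g1 : pp s2 = pp s1 ∨ pp s2 = pp (cj s1) := by
    rcases h2 with h | h
    · exact Or.inl (by rw [h])
    · exact Or.inr (by rw [h])
  have g2 : pp s3 = pp s1 ∨ pp s3 = pp (cj s1) := by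
    rcases h3 with h | h
    · exact Or.inl (by rw [h])
    · exact Or.inr (by rw [h])
  have g3 : nn s2 = nn s1 ∨ nn s2 = nn (cj s1) := by
    rcases h2 with h | h
    · exact Or.inl (by rw [h])
    · exact Or.inr (by rw [h])
  have g4 : nn s3 = nn s1 ∨ nn s3 = nn (cj s1) := by
    rcases h3 with h | h
    · exact Or.inl (by rw [h])
    · exact Or.inr (by rw [h])
  refine ⟨N1Q_shift (n := pp s1) ?_ (hpp s1), N1Q_shift (n := nn s1) ?_ (hnn s1)⟩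
  · rcases g1 with g1 | g1 <;> rcases g2 with g2 | g2 <;> rw [g1, g2] at e1 <;> grind
  · rcases g3 with g3 | g3 <;> rcases g4 with g4 | g4 <;> rw [g3, g4] at e2 <;> grind

end core

section tri

variable {HE HA W V : Type} [AddCommGroup HE] [Module ℂ HE] [AddCommGroup HA] [Module ℂ HA]
  [AddCommGroup W] [Module ℂ W] [AddCommGroup V] [Module ℂ V]

/-- transport of a trilinear map -/
private noncomputable def N1Q_tr (φ : W →ₗ[ℂ] W →ₗ[ℂ] W →ₗ[ℂ] V) (T : HE →ₗ[ℂ] W)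
    (O : V →ₗ[ℂ] HA) : HE →ₗ[ℂ] HE →ₗ[ℂ] HE →ₗ[ℂ] HA where
  toFun x :=
    { toFun := fun y => O ∘ₗ (φ (T x) (T y)) ∘ₗ T
      map_add' := fun y y' => by
        ext z; simp [map_add]
      map_smul' := fun c y => by
        ext z; simp [map_smul] }
  map_add' x x' := by
    ext y z; simp [map_add]
  map_smul' c x := by
    ext y z; simp [map_smul]

private lemma N1Q_tr_apply (φ : W →ₗ[ℂ] W →ₗ[ℂ] W →ₗ[ℂ] V) (T : HE →ₗ[ℂ] W)
    (O : V →ₗ[ℂ] HA) (x y z : HE) : N1Q_tr φ T O x y z = O (φ (T x) (T y) (T z)) := rfl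

private lemma N1Q_eqv (φ : W →ₗ[ℂ] W →ₗ[ℂ] W →ₗ[ℂ] V) (T : HE →ₗ[ℂ] W)
    (O : V →ₗ[ℂ] HA) (XA : HA → HA) (XE : HE → HE) (lW : W → W) (lV : V → V) (c cE cA : ℂ)
    (hE : cE + cE = c) (hA : cA + cA = c)
    (t1 : ∀ u, T (XE u) = lW (T u) + cE • T u) (t2 : ∀ v, XA (O v) = O (lV v) + cA • O v)
    (h3 : ∀ x y z, lV (φ x y z) = φ (lW x) y z + φ x (lW y) z + φ x y (lW z)) (x y z : HE) :
    XA (N1Q_tr φ T O x y z) = N1Q_tr φ T O (XE x) y z + N1Q_tr φ T O x (XE y) z +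
      N1Q_tr φ T O x y (XE z) - c • N1Q_tr φ T O x y z := by
  have w4 : cA = c / 2 := by linear_combination hA / 2
  have w5 : cE = c / 2 := by linear_combination hE / 2
  simp only [N1Q_tr_apply]
  rw [t2, h3, t1, t1, t1]
  simp only [map_add, map_smul, LinearMap.add_apply, LinearMap.smul_apply]
  rw [w4, w5]
  module

private lemma N1Q_inj (φ : W →ₗ[ℂ] W →ₗ[ℂ] W →ₗ[ℂ] V) (T : HE →ₗ[ℂ] W)
    (O : V →ₗ[ℂ] HA) (hT : Function.Surjective T) (hO : Function.Injective O)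
    (h : N1Q_tr φ T O = 0) : φ = 0 := by
  apply LinearMap.ext; intro x
  apply LinearMap.ext; intro y
  apply LinearMap.ext; intro z
  obtain ⟨x, rfl⟩ := hT x
  obtain ⟨y, rfl⟩ := hT y
  obtain ⟨z, rfl⟩ := hT z
  apply hO
  have h1 : N1Q_tr φ T O x y z = 0 := by rw [h]; rfl
  rw [N1Q_tr_apply] at h1
  rw [h1]
  simp

end tri

section fam

variable {I : Type} [Fintype I] [DecidableEq I] {A : I → AbVar}
  {K : I → Type} [∀ i, Field (K i)] [∀ i, NumberField (K i)] {r : I → ℕ}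
  {F : ∀ i, UF (pData (A i)) (K i) (r i)} {a e : I}
  {G : (A a).H1 → (A a).H1 → (A a).H1 → (A e).H1 → ℂ} {hG : Gr4 (A a) (A a) (A a) (A e) G}

/-- the weights and the parities -/
private lemma N1Q_find (D : FrD A F hG) (hP : St_P4) (hOdd : St_Odd) (hpos : ∀ i, 0 < r i)
    (hfe : finrank ℚ (K e) = 1) (hfa : finrank ℚ (K a) = 2) (hRC : Re (K a) ∨ Cx (K a))
    (s1 s2 s3 : K a →+* ℂ) (s4 : K e →+* ℂ) (S : SlI (LG A F hG.ml) (VG A F hG.ml ⟨e, s4⟩))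
    (hcon : ∃ x y z w, cG A F hG.ml s1 s2 s3 s4 x y z w ≠ 0) :
    ∃ σ : K a →+* ℂ, (Par S.h 1 (VG A F hG.ml ⟨a, σ⟩) ∧ Par S.h' 0 (VG A F hG.ml ⟨a, σ⟩)) ∧
      ∀ X, IsInv (n1 I) (PA A) (aG A a a a e G hG.ml) X →
        ch (PA A) F ⟨a, σ⟩ X + ch (PA A) F ⟨a, σ⟩ X = X.2 ∧
        ch (PA A) F ⟨e, s4⟩ X + ch (PA A) F ⟨e, s4⟩ X = X.2 := by
  have hk : IsKilling ℂ (LG A F hG.ml) := D.kill
  have iV : ∀ σ : K a →+* ℂ,
      LieModule.IsIrreducible ℂ (LG A F hG.ml) (VG A F hG.ml ⟨a, σ⟩) := fun σ => D.irr _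
  have chE : ∀ X, IsInv (n1 I) (PA A) (aG A a a a e G hG.ml) X →
      ch (PA A) F ⟨e, s4⟩ X + ch (PA A) F ⟨e, s4⟩ X = X.2 := by
    intro X hX
    have h1 := ch_conj (n1 I) (PA A) F (aG A a a a e G hG.ml) hpos ⟨e, s4⟩ X hX
    have h2 : conjT (⟨e, s4⟩ : Emb K) = ⟨e, s4⟩ := by
      show (⟨e, ComplexEmbedding.conjugate s4⟩ : Emb K) = ⟨e, s4⟩
      rw [N1Q_emb hfe (ComplexEmbedding.conjugate s4) s4]
    rw [h2] at h1
    exact h1
  have chC : ∀ (σ : K a →+* ℂ) X, IsInv (n1 I) (PA A) (aG A a a a e G hG.ml) X →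
      ch (PA A) F ⟨a, σ⟩ X + ch (PA A) F ⟨a, ComplexEmbedding.conjugate σ⟩ X = X.2 :=
    fun σ X hX => ch_conj (n1 I) (PA A) F (aG A a a a e G hG.ml) hpos ⟨a, σ⟩ X hX
  rcases hRC with hR | hC
  · obtain ⟨σ, hσ⟩ := N1Q_real S (fun σ => VG A F hG.ml ⟨a, σ⟩) hP hOdd
      (fun σ => bp (n1 I) (PA A) F (aG A a a a e G hG.ml) a σ σ)
      (fun σ => bp_symp (n1 I) (PA A) F (aG A a a a e G hG.ml) hpos a σ (hR σ))
      s1 s2 s3 (cG A F hG.ml s1 s2 s3 s4) (D.ml _ _ _ _) (D.inv _ _ _ _) hcon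
    refine ⟨σ, hσ, fun X hX => ⟨?_, chE X hX⟩⟩
    have h1 := chC σ X hX
    rw [hR σ] at h1
    exact h1
  · have h2 := N1Q_two hfa hC s1 s2
    have h3 := N1Q_two hfa hC s1 s3
    refine ⟨s1, N1Q_cx S (fun σ => VG A F hG.ml ⟨a, σ⟩) hP (ComplexEmbedding.conjugate ·)
      (fun σ => bp (n1 I) (PA A) F (aG A a a a e G hG.ml) a σ (ComplexEmbedding.conjugate σ))
      (fun σ => bp_pair (n1 I) (PA A) F (aG A a a a e G hG.ml) hpos a σ)
      s1 s2 s3 h2 h3 (cG A F hG.ml s1 s2 s3 s4) (D.ml _ _ _ _) (D.inv _ _ _ _) hcon,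
      fun X hX => ⟨?_, chE X hX⟩⟩
    have w1 := D.wt s1 s2 s3 s4 hcon X hX
    have w2 := chE X hX
    have w3 := chC s1 X hX
    rcases h2 with h2 | h2 <;> rcases h3 with h3 | h3 <;> rw [h2, h3] at w1
    · linear_combination (2 / 3 : ℂ) * w1 - (1 / 3 : ℂ) * w2
    · linear_combination (2 : ℂ) * w1 - w2 - 2 * w3
    · linear_combination (2 : ℂ) * w1 - w2 - 2 * w3
    · linear_combination (-2 : ℂ) * w1 + w2 + 4 * w3

/-- a simple fourfold is not the third symmetric power of an elliptic curve -/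
private lemma N1Q_cube (D : FrD A F hG) (hCuR : St_CuR) (hsim : (A a).IsSimple)
    (hga : (A a).g = 4) (hge : (A e).g = 1) (σ : K a →+* ℂ) (s4 : K e →+* ℂ)
    (hch : ∀ X, IsInv (n1 I) (PA A) (aG A a a a e G hG.ml) X →
        ch (PA A) F ⟨a, σ⟩ X + ch (PA A) F ⟨a, σ⟩ X = X.2 ∧
        ch (PA A) F ⟨e, s4⟩ X + ch (PA A) F ⟨e, s4⟩ X = X.2)
    (φ : VG A F hG.ml ⟨e, s4⟩ →ₗ[ℂ] VG A F hG.ml ⟨e, s4⟩ →ₗ[ℂ] VG A F hG.ml ⟨e, s4⟩ →ₗ[ℂ]
      VG A F hG.ml ⟨a, σ⟩) (hφ1 : ∀ x y z, φ x y z = φ y x z)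
    (hφ2 : ∀ x y z, φ x y z = φ x z y)
    (hφ3 : ∀ (l : LG A F hG.ml) (x y z : VG A F hG.ml ⟨e, s4⟩),
      ⁅l, φ x y z⁆ = φ ⁅l, x⁆ y z + φ x ⁅l, y⁆ z + φ x y ⁅l, z⁆) : φ = 0 := by
  refine N1Q_inj φ (toVs (n1 I) (PA A) F (aG A a a a e G hG.ml) ⟨e, s4⟩)
    (ofVs (n1 I) (PA A) F (aG A a a a e G hG.ml) ⟨a, σ⟩) (fun w => ⟨_, toVs_ofVs _ _ _ _ _ w⟩)
    (fun x y h => Vs_ext (n1 I) (PA A) F (aG A a a a e G hG.ml) ⟨a, σ⟩ x y h) ?_
  refine hCuR I A (n1 I) 2 (aG A a a a e G hG.ml) D.hB D.hA a e hsim hga hge _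
    (fun x y z => ?_) (fun x y z => ?_) ?_
  · rw [N1Q_tr_apply, N1Q_tr_apply, hφ1]
  · rw [N1Q_tr_apply, N1Q_tr_apply, hφ2]
  · intro X hX x y z
    obtain ⟨w1, w2⟩ := hch X hX
    refine N1Q_eqv φ _ _ (X.1 a) (X.1 e)
      (fun w => ⁅elL (n1 I) (PA A) F (aG A a a a e G hG.ml) X hX, w⁆)
      (fun v => ⁅elL (n1 I) (PA A) F (aG A a a a e G hG.ml) X hX, v⁆) X.2
      (ch (PA A) F ⟨e, s4⟩ X) (ch (PA A) F ⟨a, σ⟩ X) w2 w1
      (fun u => toVs_act (n1 I) (PA A) F (aG A a a a e G hG.ml) X hX ⟨e, s4⟩ u) (fun v => ?_)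
      (fun x y z => hφ3 _ x y z) x y z
    have h1 := elL_act (n1 I) (PA A) F (aG A a a a e G hG.ml) X hX ⟨a, σ⟩ v
    exact eq_add_of_sub_eq h1.symm

end fam

/-- [N1Q] -/
theorem N1Q_ (hF : St_Fr) (hS : St_Sl) (hP : St_P4) (hOdd : St_Odd) (hCub : St_Cub)
    (hCuR : St_CuR) : St_N1Q := by
  intro I _ _ A K _ _ r F a e G hG h12 h23 hpos hre hfe hge hra hfa hRC hsim hga
  have D := hF I A K r F a a a e G hG hpos
  have hk : IsKilling ℂ (LG A F hG.ml) := D.kill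
  obtain ⟨p⟩ := Pool.Agent.Helper8.exists_principal (LG A F hG.ml)
  refine D.zero ?_
  intro s1 s2 s3 s4
  by_contra hcon
  push Not at hcon
  have iW : LieModule.IsIrreducible ℂ (LG A F hG.ml) (VG A F hG.ml ⟨e, s4⟩) := D.irr _
  obtain ⟨S, -⟩ := hS (LG A F hG.ml) (VG A F hG.ml ⟨e, s4⟩) p
    ((D.rank ⟨e, s4⟩).trans hre) (D.tr _)
  obtain ⟨σ, ⟨hσ1, hσ2⟩, hch⟩ := N1Q_find D hP hOdd hpos hfe hfa hRC s1 s2 s3 s4 S hcon
  have iV : LieModule.IsIrreducible ℂ (LG A F hG.ml) (VG A F hG.ml ⟨a, σ⟩) := D.irr _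
  obtain ⟨φ, hφ0, hφ1, hφ2, hφ3⟩ := hCub (LG A F hG.ml) (VG A F hG.ml ⟨e, s4⟩)
    (VG A F hG.ml ⟨a, σ⟩) S ((D.rank ⟨a, σ⟩).trans hra) (D.tr _) hσ1 hσ2
  exact hφ0 (N1Q_cube D hCuR hsim hga hge σ s4 hch φ hφ1 hφ2 hφ3)

end Pool.Agent.D5
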