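import Pool.Agent.D5.StN

/-!
# D5: N31, three vectors in the threefold and one in a factor of rank one or two (helper69)
-/

set_option autoImplicit false

namespace Pool.Agent.D5

open Module NumberField LieAlgebra
open Pool.Agent.Helper7 Pool.Agent.GPC Pool.Agent.Helper24
open Pool.Agent.Helper8 (ML2 ML4 Inv2 Inv4 Symp Principal)

attribute [local instance 100] LieRing.ofAssociativeRing

/-- a number field of degree one has one embedding -/
private theorem N31_one {K : Type} [Field K] [NumberField K] (h : finrank ℚ K = 1)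
    (s t : K →+* ℂ) : s = t := by
  have h1 : Fintype.card (K →+* ℂ) = 1 := by
    rw [NumberField.Embeddings.card K ℂ, h]
  exact Fintype.card_le_one_iff.1 h1.le s t

/-- a quadratic field which is not real has two embeddings -/
private theorem N31_emb2 {K : Type} [Field K] [NumberField K] (h : finrank ℚ K = 2) (hc : Cx K)
    (s t : K →+* ℂ) : t = s ∨ t = ComplexEmbedding.conjugate s := by
  classical
  by_contra hcon
  push Not at hcon
  have h1 : Fintype.card (K →+* ℂ) = 2 := by
    rw [NumberField.Embeddings.card K ℂ, h]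
  have h2 : ({s, ComplexEmbedding.conjugate s, t} : Finset (K →+* ℂ)).card = 3 :=
    Finset.card_eq_three.2 ⟨s, ComplexEmbedding.conjugate s, t, (hc s).symm, hcon.1.symm,
      hcon.2.symm, rfl⟩
  have h3 := Finset.card_le_univ ({s, ComplexEmbedding.conjugate s, t} : Finset (K →+* ℂ))
  omega

/-- a field of degree four has an embedding different from two given ones -/
private theorem N31_emb4 {K : Type} [Field K] [NumberField K] (h : finrank ℚ K = 4)
    (s t : K →+* ℂ) : ∃ u : K →+* ℂ, u ≠ s ∧ u ≠ t := by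
  classical
  by_contra hcon
  push Not at hcon
  have h1 : Fintype.card (K →+* ℂ) = 4 := by
    rw [NumberField.Embeddings.card K ℂ, h]
  have h2 : (Finset.univ : Finset (K →+* ℂ)) ⊆ {s, t} := by
    intro u _
    rw [Finset.mem_insert, Finset.mem_singleton]
    by_cases hu : u = s
    · exact Or.inl hu
    · exact Or.inr (hcon u hu)
  have h3 := Finset.card_le_card h2
  have h4 : ({s, t} : Finset (K →+* ℂ)).card ≤ 2 := Finset.card_le_two
  rw [Finset.card_univ] at h3
  omega

/-- automorphisms of `ℂ` act on the two embeddings by the identity or by conjugation -/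
private theorem N31_act {K : Type} [Field K] [NumberField K] (h : finrank ℚ K = 2) (hc : Cx K)
    (g : ℂ ≃+* ℂ) : (∀ s : K →+* ℂ, (g : ℂ →+* ℂ).comp s = s) ∨
      ∀ s : K →+* ℂ, (g : ℂ →+* ℂ).comp s = ComplexEmbedding.conjugate s := by
  have hinj : ∀ s t : K →+* ℂ, (g : ℂ →+* ℂ).comp s = (g : ℂ →+* ℂ).comp t → s = t := by
    intro s t hst
    ext x
    have h1 := congrArg (fun f : K →+* ℂ => f x) hst
    exact g.injective h1
  by_cases hall : ∀ s : K →+* ℂ, (g : ℂ →+* ℂ).comp s = s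
  · exact Or.inl hall
  · right
    push Not at hall
    obtain ⟨s, hs⟩ := hall
    have h1 : (g : ℂ →+* ℂ).comp s = ComplexEmbedding.conjugate s :=
      (N31_emb2 h hc s _).resolve_left hs
    intro t
    rcases N31_emb2 h hc s t with rfl | rfl
    · exact h1
    · rcases N31_emb2 h hc (ComplexEmbedding.conjugate s)
        ((g : ℂ →+* ℂ).comp (ComplexEmbedding.conjugate s)) with h2 | h2
      · exact absurd (hinj _ _ (h2.trans h1.symm)) (hc s)
      · exact h2

/-- planes are symplectic -/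
private theorem N31_plane {L W : Type} [LieRing L] [LieAlgebra ℂ L] [AddCommGroup W] [Module ℂ W]
    [LieRingModule L W] [LieModule ℂ L W] [FiniteDimensional ℂ W] (hd : finrank ℂ W = 2)
    (ht : Tr0 L W) : ∃ ω : W →ₗ[ℂ] W →ₗ[ℂ] ℂ, Symp L ω := by
  let b : Basis (Fin 2) ℂ W := finBasisOfFinrankEq ℂ W hd
  have hrep : ∀ u : W, u = b.coord 0 u • b 0 + b.coord 1 u • b 1 := by
    intro u
    have h := (b.sum_repr u).symm
    rwa [Fin.sum_univ_two] at h
  have hact : ∀ (a : L) (u : W) (i : Fin 2), b.coord i ⁅a, u⁆ =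
      b.coord 0 u * b.coord i ⁅a, b 0⁆ + b.coord 1 u * b.coord i ⁅a, b 1⁆ := by
    intro a u i
    conv_lhs => rw [hrep u]
    rw [lie_add, lie_smul, lie_smul, map_add, map_smul, map_smul, smul_eq_mul, smul_eq_mul]
  have htr : ∀ a : L, b.coord 0 ⁅a, b 0⁆ + b.coord 1 ⁅a, b 1⁆ = 0 := by
    intro a
    have h := ht a
    rw [LinearMap.trace_eq_matrix_trace ℂ b, Matrix.trace, Fin.sum_univ_two, Matrix.diag_apply,
      Matrix.diag_apply, LinearMap.toMatrix_apply, LinearMap.toMatrix_apply] at h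
    exact h
  let ω : W →ₗ[ℂ] W →ₗ[ℂ] ℂ := LinearMap.mk₂ ℂ
    (fun u v => b.coord 0 u * b.coord 1 v - b.coord 1 u * b.coord 0 v)
    (fun u u' v => by simp only [map_add]; ring)
    (fun c u v => by simp only [map_smul, smul_eq_mul]; ring)
    (fun u v v' => by simp only [map_add]; ring)
    (fun c u v => by simp only [map_smul, smul_eq_mul]; ring)
  have hω : ∀ u v, ω u v = b.coord 0 u * b.coord 1 v - b.coord 1 u * b.coord 0 v :=
    fun u v => rfl
  have hbb : ∀ i j : Fin 2, b.coord i (b j) = if j = i then 1 else 0 := by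
    intro i j
    rw [Basis.coord_apply, Basis.repr_self, Finsupp.single_apply]
  refine ⟨ω, ⟨fun x y => ?_, fun x hx => ?_, fun a x y => ?_⟩⟩
  · rw [hω, hω]
    ring
  · have h0 := hx (b 1)
    have h1 := hx (b 0)
    rw [hω, hbb, hbb] at h0 h1
    rw [hrep x]
    have e0 : b.coord 0 x = 0 := by simpa using h0
    have e1 : b.coord 1 x = 0 := by simpa using h1
    rw [e0, e1, zero_smul, zero_smul, add_zero]
  · rw [hω, hω, hact a x 0, hact a x 1, hact a y 0, hact a y 1]
    linear_combination (b.coord 0 x * b.coord 1 y - b.coord 1 x * b.coord 0 y) * htr a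

/-- [N31] -/
theorem N31_ (hF : St_Fr) (hP : St_P4) (hS : St_Sl) (hGal : St_Gal) (hSep : St_Sep) : St_N31 := by
  intro I _ _ A K _ _ r F a c G hG h12 h23 hpos hra hrc
  have D := hF I A K r F a a a c G hG hpos
  have hk : IsKilling ℂ (LG A F hG.ml) := D.kill
  obtain ⟨p⟩ := Pool.Agent.Helper8.exists_principal (LG A F hG.ml)
  refine D.zero ?_
  intro s1 s2 s3 s4
  have i1 : LieModule.IsIrreducible ℂ (LG A F hG.ml) (VG A F hG.ml ⟨a, s1⟩) := D.irr _
  have i2 : LieModule.IsIrreducible ℂ (LG A F hG.ml) (VG A F hG.ml ⟨a, s2⟩) := D.irr _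
  have i3 : LieModule.IsIrreducible ℂ (LG A F hG.ml) (VG A F hG.ml ⟨a, s3⟩) := D.irr _
  have i4 : LieModule.IsIrreducible ℂ (LG A F hG.ml) (VG A F hG.ml ⟨c, s4⟩) := D.irr _
  rcases hra with ⟨hr6, hd1⟩ | ⟨hr3, hd2, hcx⟩
  · obtain rfl : s1 = s2 := N31_one hd1 _ _
    obtain rfl : s1 = s3 := N31_one hd1 _ _
    have hsy := bp_symp (n1 I) (PA A) F (aG A a a a c G hG.ml) hpos a s1 (N31_one hd1 _ _)
    rcases hrc with hr2 | ⟨hr1, -, -, -⟩
    · obtain ⟨ω', hω'⟩ := N31_plane ((D.rank ⟨c, s4⟩).trans hr2) (D.tr ⟨c, s4⟩)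
      exact Pool.Agent.Helper8.P31_six p hsy hω' ((D.rank ⟨a, s1⟩).trans hr6)
        ((D.rank ⟨c, s4⟩).trans hr2) (D.ml _ _ _ _) (D.inv _ _ _ _)
        (fun x y z w => h12 _ _ _ _) (fun x y z w => h23 _ _ _ _)
    · exact Pool.Agent.Helper8.odd3 p hsy hsy hsy (D.ml _ _ _ _) (D.inv _ _ _ _)
        (D.triv ⟨c, s4⟩ hr1)
  · rcases hrc with hr2 | ⟨hr1, hd4, hcxc, hE⟩
    · obtain ⟨S, -⟩ := hS (LG A F hG.ml) (VG A F hG.ml ⟨c, s4⟩) p
        ((D.rank ⟨c, s4⟩).trans hr2) (D.tr _)
      have hpar : ∀ (s : K a →+* ℂ), Par S.h 0 (VG A F hG.ml ⟨a, s⟩) := by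
        intro s
        have i : LieModule.IsIrreducible ℂ (LG A F hG.ml) (VG A F hG.ml ⟨a, s⟩) := D.irr _
        refine (even_of_three S.ptJ ((D.rank ⟨a, s⟩).trans hr3) (D.tr ⟨a, s⟩)).trans
          (Submodule.span_mono ?_)
        rintro v ⟨m, ⟨l, hl⟩, hm⟩
        refine ⟨l, ?_⟩
        rw [hm, hl]
        congr 2
        ring
      have hparW : Par S.h 1 (VG A F hG.ml ⟨c, s4⟩) := by
        intro w _
        obtain ⟨x, y, rfl⟩ := S.span w
        refine Submodule.add_mem _ (Submodule.smul_mem _ _ (Submodule.subset_span ⟨0, ?_⟩))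
          (Submodule.smul_mem _ _ (Submodule.subset_span ⟨-1, ?_⟩))
        · rw [S.h0]
          simp
        · rw [S.h1]
          norm_num
      exact hP (LG A F hG.ml) _ _ _ _ S.h 0 0 0 1 (hpar s1) (hpar s2) (hpar s3) hparW
        (by decide) (cG A F hG.ml s1 s2 s3 s4) (D.ml _ _ _ _) (D.inv s1 s2 s3 s4 S.h)
    · by_contra hne
      push Not at hne
      have hwt := D.wt s1 s2 s3 s4 hne
      have hϖ : (2 * Real.pi * Complex.I : ℂ) ≠ 0 := Complex.two_pi_I_ne_zero
      obtain ⟨t, ht1, ht2⟩ := N31_emb4 hd4 s4 (ComplexEmbedding.conjugate s4)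
      obtain ⟨g, hg⟩ := Pool.Agent.Helper84.exists_aut s4 t
      have hEnd : ∀ f, IsDRB (PA A c) (PA A c) f → ∃ x, ∀ v, f v = (F c).ρ x v :=
        fun f hf => hE f (isEnd_of_isDRB (A c) f hf)
      have hsep : ∀ u v : K c →+* ℂ, (∀ X, IsInv (n1 I) (PA A) (aG A a a a c G hG.ml) X →
          ch (PA A) F ⟨c, u⟩ X = ch (PA A) F ⟨c, v⟩ X) → u = v := by
        intro u v huv
        have h1 := hSep I (n1 I) (kap A) (2 * Real.pi * Complex.I) (PA A) K r F 2
          (aG A a a a c G hG.ml) hϖ D.hB D.hA hpos ⟨c, u⟩ ⟨c, v⟩ hr1 hr1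
          (fun h => absurd rfl h) (fun _ => hEnd) huv
        have h2 := eq_of_heq (Sigma.mk.inj h1).2
        exact h2
      have hgal := hGal I (n1 I) (kap A) (2 * Real.pi * Complex.I) (PA A) K r F 2
        (aG A a a a c G hG.ml) hϖ D.hB 4 ![⟨a, s1⟩, ⟨a, s2⟩, ⟨a, s3⟩, ⟨c, s4⟩] (fun _ => 1) 2
        (by
          intro X hX
          have h := hwt X hX
          rw [Fin.sum_univ_four]
          simp only [Rat.cast_one, one_mul, Matrix.cons_val_zero, Matrix.cons_val_one,
            Matrix.cons_val_two, Matrix.cons_val_three, Matrix.tail_cons, Matrix.head_cons,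
            Rat.cast_ofNat]
          exact h) g
      have hgal2 : ∀ X, IsInv (n1 I) (PA A) (aG A a a a c G hG.ml) X →
          ch (PA A) F ⟨a, (g : ℂ →+* ℂ).comp s1⟩ X + ch (PA A) F ⟨a, (g : ℂ →+* ℂ).comp s2⟩ X +
            ch (PA A) F ⟨a, (g : ℂ →+* ℂ).comp s3⟩ X + ch (PA A) F ⟨c, t⟩ X = 2 * X.2 := by
        intro X hX
        have h := hgal X hX
        rw [Fin.sum_univ_four] at h
        simp only [Rat.cast_one, one_mul, Matrix.cons_val_zero, Matrix.cons_val_one,
            Matrix.cons_val_two, Matrix.cons_val_three, Matrix.tail_cons, Matrix.head_cons,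
            Rat.cast_ofNat] at h
        rw [← hg]
        exact h
      have hcj : ∀ (i : I) (s : K i →+* ℂ) (X), IsInv (n1 I) (PA A) (aG A a a a c G hG.ml) X →
          ch (PA A) F ⟨i, s⟩ X + ch (PA A) F ⟨i, ComplexEmbedding.conjugate s⟩ X = X.2 :=
        fun i s X hX => ch_conj (n1 I) (PA A) F (aG A a a a c G hG.ml) hpos ⟨i, s⟩ X hX
      rcases N31_act hd2 hcx g with hact | hact
      · refine ht1 (hsep t s4 fun X hX => ?_)
        have h1 := hgal2 X hX
        have h2 := hwt X hX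
        rw [hact, hact, hact] at h1
        linear_combination h1 - h2
      · refine ht2 (hsep t _ fun X hX => ?_)
        have h1 := hgal2 X hX
        have h2 := hwt X hX
        rw [hact, hact, hact] at h1
        have e1 := hcj a s1 X hX
        have e2 := hcj a s2 X hX
        have e3 := hcj a s3 X hX
        have e4 := hcj c s4 X hX
        linear_combination h1 + h2 - e1 - e2 - e3 - e4

end Pool.Agent.D5
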