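import Pool.Agent.D5.StN
import Pool.Agent.Helper24.PT.LPar

/-!
# D5, module N3D (helper38): the threefold of rank three and two different factors
-/

set_option autoImplicit false

namespace Pool.Agent.D5

open Module NumberField LieAlgebra
open Pool.Agent.Helper7 Pool.Agent.GPC Pool.Agent.Helper24
open Pool.Agent.Helper8 (ML2 ML4 Inv2 Inv4 Symp Principal)

attribute [local instance 100] LieRing.ofAssociativeRing

/-- the embeddings of a quadratic field without real places -/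
private theorem N3D_emb {K : Type} [Field K] [NumberField K] (hC : Cx K) (hd : finrank ℚ K = 2)
    (σ τ : K →+* ℂ) : τ = σ ∨ τ = ComplexEmbedding.conjugate σ := by
  classical
  have hne : ComplexEmbedding.conjugate σ ≠ σ := hC σ
  have hcard : Fintype.card (K →+* ℂ) = 2 := by
    rw [← hd]
    exact NumberField.Embeddings.card K ℂ
  by_contra hcon
  push Not at hcon
  have h1 : ({τ, σ, ComplexEmbedding.conjugate σ} : Finset (K →+* ℂ)).card = 3 :=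
    Finset.card_eq_three.mpr ⟨τ, σ, ComplexEmbedding.conjugate σ, hcon.1, hcon.2, hne.symm, rfl⟩
  have h2 := Finset.card_le_univ ({τ, σ, ComplexEmbedding.conjugate σ} : Finset (K →+* ℂ))
  omega

private theorem N3D_hom {A B : AbVar} (h : Hom0 A B) (f : A.H1 →ₗ[ℂ] B.H1)
    (hf : IsDRB (pData A) (pData B) f) (v : A.H1) : f v = 0 := by
  have h1 := (isDRB_iff A B f).mp hf
  exact h f ⟨f.isLinear, h1.1, h1.2, hom_fil A B f f.isLinear h1.1 h1.2⟩ v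

private theorem N3D_par0 {L V : Type} [LieRing L] [LieAlgebra ℂ L] [AddCommGroup V] [Module ℂ V]
    [LieRingModule L V] (h : L) (hV : ∀ (x : L) (v : V), ⁅x, v⁆ = 0) : Par h 0 V := by
  intro v _
  refine Submodule.subset_span ⟨0, ?_⟩
  rw [hV]
  simp

private theorem N3D_par1 {L W : Type} [LieRing L] [LieAlgebra ℂ L] [AddCommGroup W] [Module ℂ W]
    [LieRingModule L W] (S : SlI L W) : Par S.h 1 W := by
  intro w _
  obtain ⟨a, b, rfl⟩ := S.span w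
  refine add_mem (Submodule.smul_mem _ _ (Submodule.subset_span ⟨0, ?_⟩))
    (Submodule.smul_mem _ _ (Submodule.subset_span ⟨-1, ?_⟩))
  · rw [S.h0]
    simp
  · rw [S.h1]
    norm_num

private theorem N3D_par3 {L W V : Type} [LieRing L] [LieAlgebra ℂ L] [FiniteDimensional ℂ L]
    [IsKilling ℂ L] [AddCommGroup W] [Module ℂ W] [LieRingModule L W] [LieModule ℂ L W]
    [AddCommGroup V] [Module ℂ V] [LieRingModule L V] [LieModule ℂ L V] [FiniteDimensional ℂ V]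
    [LieModule.IsIrreducible ℂ L V] (S : SlI L W) (hd : finrank ℂ V = 3) (htr : Tr0 L V) :
    Par S.h 0 V := by
  refine (even_of_three S.ptJ hd htr).trans (Submodule.span_mono ?_)
  rintro v ⟨m, ⟨n, rfl⟩, hv⟩
  refine ⟨n, ?_⟩
  rw [hv]
  congr 2
  ring

section

variable {I : Type} [Fintype I] [DecidableEq I] {A : I → AbVar} {K : I → Type}
  [∀ i, Field (K i)] [∀ i, NumberField (K i)] {r : I → ℕ}
  {F : ∀ i, UF (pData (A i)) (K i) (r i)} {a c d : I}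
  {G : (A a).H1 → (A a).H1 → (A c).H1 → (A d).H1 → ℂ} {hG : Gr4 (A a) (A a) (A c) (A d) G}

/-- parities on the threefold and the two planes or lines -/
private theorem N3D_zero (hP4 : St_P4) (D : FrD A F hG) (ha : r a = 3)
    (s3 : K c →+* ℂ) (s4 : K d →+* ℂ) {W : Type} [AddCommGroup W] [Module ℂ W]
    [LieRingModule (LG A F hG.ml) W] [LieModule ℂ (LG A F hG.ml) W] (S : SlI (LG A F hG.ml) W)
    (n3 n4 : ℤ) (h3 : Par S.h n3 (VG A F hG.ml ⟨c, s3⟩)) (h4 : Par S.h n4 (VG A F hG.ml ⟨d, s4⟩))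
    (ho : Odd (n3 + n4)) (s1 s2 : K a →+* ℂ) (x : VG A F hG.ml ⟨a, s1⟩)
    (y : VG A F hG.ml ⟨a, s2⟩) (z : VG A F hG.ml ⟨c, s3⟩) (w : VG A F hG.ml ⟨d, s4⟩) :
    cG A F hG.ml s1 s2 s3 s4 x y z w = 0 := by
  have := D.kill
  have := D.irr ⟨a, s1⟩
  have := D.irr ⟨a, s2⟩
  have h1 : Par S.h 0 (VG A F hG.ml ⟨a, s1⟩) := N3D_par3 S ((D.rank ⟨a, s1⟩).trans ha) (D.tr _)
  have h2 : Par S.h 0 (VG A F hG.ml ⟨a, s2⟩) := N3D_par3 S ((D.rank ⟨a, s2⟩).trans ha) (D.tr _)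
  exact hP4 _ _ _ _ _ S.h 0 0 n3 n4 h1 h2 h3 h4 (by simpa using ho) _ (D.ml s1 s2 s3 s4)
    (D.inv s1 s2 s3 s4 S.h) x y z w

/-- two different real factors which are not isogenous are not paired -/
private theorem N3D_iso (hIso : St_Iso) (D : FrD A F hG) (hpos : ∀ i, 0 < r i) (hcd : c ≠ d)
    (hc : Re (K c)) (hd : Re (K d)) (h0 : Hom0 (A c) (A d)) (s3 : K c →+* ℂ) (s4 : K d →+* ℂ)
    (f : VG A F hG.ml ⟨c, s3⟩ → VG A F hG.ml ⟨d, s4⟩ → ℂ) (hf : ML2 f)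
    (hI : Inv2 (LG A F hG.ml) f) (x : VG A F hG.ml ⟨c, s3⟩) (y : VG A F hG.ml ⟨d, s4⟩) :
    f x y = 0 := by
  by_contra hne
  have hϖ : (2 * Real.pi * Complex.I : ℂ) ≠ 0 := by
    simp [Real.pi_ne_zero, Complex.I_ne_zero]
  have h := hIso I (n1 I) (kap A) (2 * Real.pi * Complex.I) (PA A) K r F 2
    (aG A a a c d G hG.ml) hϖ D.hB D.hA hpos ⟨c, s3⟩ ⟨d, s4⟩
    (fun _ g hg v => N3D_hom h0 g hg v) (fun h => absurd h hcd) f hf hI ?_ ⟨x, y, hne⟩
  · have h2 : d = c := congrArg Sigma.fst h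
    exact hcd h2.symm
  · intro X hX
    have h1 := ch_conj (n1 I) (PA A) F (aG A a a c d G hG.ml) hpos ⟨c, s3⟩ X hX
    have h2 := ch_conj (n1 I) (PA A) F (aG A a a c d G hG.ml) hpos ⟨d, s4⟩ X hX
    have h3 : conjT (⟨c, s3⟩ : Emb K) = ⟨c, s3⟩ := by
      show (⟨c, ComplexEmbedding.conjugate s3⟩ : Emb K) = ⟨c, s3⟩
      rw [hc s3]
    have h4 : conjT (⟨d, s4⟩ : Emb K) = ⟨d, s4⟩ := by
      show (⟨d, ComplexEmbedding.conjugate s4⟩ : Emb K) = ⟨d, s4⟩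
      rw [hd s4]
    rw [h3] at h1
    rw [h4] at h2
    linear_combination h1 / 2 + h2 / 2

/-- two factors on which the Lie algebra acts trivially -/
private theorem N3D_one (hDua : St_Dua) (D : FrD A F hG) (hpos : ∀ i, 0 < r i) (hAl : Al12 G)
    (ha : r a = 3) (hda : finrank ℚ (K a) = 2) (hC : Cx (K a))
    (s3 : K c →+* ℂ) (s4 : K d →+* ℂ)
    (h3 : ∀ (x : LG A F hG.ml) (v : VG A F hG.ml ⟨c, s3⟩), ⁅x, v⁆ = 0)
    (h4 : ∀ (x : LG A F hG.ml) (v : VG A F hG.ml ⟨d, s4⟩), ⁅x, v⁆ = 0)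
    (z : VG A F hG.ml ⟨c, s3⟩) (w : VG A F hG.ml ⟨d, s4⟩) :
    ∃ k : ℂ, ∀ (s1 s2 : K a →+* ℂ) (x : VG A F hG.ml ⟨a, s1⟩) (y : VG A F hG.ml ⟨a, s2⟩),
      cG A F hG.ml s1 s2 s3 s4 x y z w =
        k * (pData (A a)).ψ ((x : MM (kap A)) a) ((y : MM (kap A)) a) := by
  have hml : ∀ s1 s2 : K a →+* ℂ, ML2 (fun (x : VG A F hG.ml ⟨a, s1⟩)
      (y : VG A F hG.ml ⟨a, s2⟩) => cG A F hG.ml s1 s2 s3 s4 x y z w) := fun s1 s2 =>
    ⟨fun y => (D.ml s1 s2 s3 s4).l1 y z w, fun x => (D.ml s1 s2 s3 s4).l2 x z w⟩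
  have hinv : ∀ s1 s2 : K a →+* ℂ, Inv2 (LG A F hG.ml) (fun (x : VG A F hG.ml ⟨a, s1⟩)
      (y : VG A F hG.ml ⟨a, s2⟩) => cG A F hG.ml s1 s2 s3 s4 x y z w) := by
    intro s1 s2 l x y
    have h := D.inv s1 s2 s3 s4 l x y z w
    have e3 : cG A F hG.ml s1 s2 s3 s4 x y 0 w = 0 :=
      ((D.ml s1 s2 s3 s4).l3 x y w).map_zero
    have e4 : cG A F hG.ml s1 s2 s3 s4 x y z 0 = 0 :=
      ((D.ml s1 s2 s3 s4).l4 x y z).map_zero
    rw [h3, h4, e3, e4, add_zero, add_zero] at h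
    exact h
  obtain ⟨σ⟩ : Nonempty (K a →+* ℂ) := inferInstance
  have hirr : ∀ s : K a →+* ℂ, LieModule.IsIrreducible ℂ (LG A F hG.ml) (VG A F hG.ml ⟨a, s⟩) :=
    fun s => D.irr ⟨a, s⟩
  -- the same place
  have hdiag : ∀ (s : K a →+* ℂ) (x y : VG A F hG.ml ⟨a, s⟩),
      cG A F hG.ml s s s3 s4 x y z w = 0 ∧
        (pData (A a)).ψ ((x : MM (kap A)) a) ((y : MM (kap A)) a) = 0 := by
    intro s x y
    constructor
    · have := hirr s
      refine (hDua (LG A F hG.ml) (VG A F hG.ml ⟨a, s⟩) (VG A F hG.ml ⟨a, s⟩)).2.1 ?_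
        (fun x y => cG A F hG.ml s s s3 s4 x y z w) (hml s s) (hinv s s) ?_ x y
      · rw [D.rank ⟨a, s⟩, ha]
        decide
      · intro x y
        exact hAl _ _ _ _
    · have hx : proj (F a).ρ s ((x : MM (kap A)) a) = (x : MM (kap A)) a :=
        Vs_proj (n1 I) (PA A) F (aG A a a c d G hG.ml) ⟨a, s⟩ x
      have hy : proj (F a).ρ s ((y : MM (kap A)) a) = (y : MM (kap A)) a :=
        Vs_proj (n1 I) (PA A) F (aG A a a c d G hG.ml) ⟨a, s⟩ y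
      rw [← hx, ← hy]
      exact psi_proj (F a) s s _ _ (hC s).symm
  -- conjugate places
  have := hirr σ
  obtain ⟨k, hk⟩ := (hDua (LG A F hG.ml) (VG A F hG.ml ⟨a, σ⟩)
    (VG A F hG.ml ⟨a, ComplexEmbedding.conjugate σ⟩)).1
    (bp (n1 I) (PA A) F (aG A a a c d G hG.ml) a σ (ComplexEmbedding.conjugate σ))
    (bp_pair (n1 I) (PA A) F (aG A a a c d G hG.ml) hpos a σ)
    (fun x y => cG A F hG.ml σ (ComplexEmbedding.conjugate σ) s3 s4 x y z w)
    (hml _ _) (hinv _ _)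
  have hk' : ∀ (x : VG A F hG.ml ⟨a, σ⟩)
      (y : VG A F hG.ml ⟨a, ComplexEmbedding.conjugate σ⟩),
      cG A F hG.ml σ (ComplexEmbedding.conjugate σ) s3 s4 x y z w =
        k * (pData (A a)).ψ ((x : MM (kap A)) a) ((y : MM (kap A)) a) := hk
  refine ⟨k, fun s1 s2 x y => ?_⟩
  have h1 := N3D_emb hC hda σ s1
  have h2 := N3D_emb hC hda σ s2
  rcases h1 with h1 | h1
  · rcases h2 with h2 | h2
    · subst h1
      subst h2
      rw [(hdiag _ x y).1, (hdiag _ x y).2, mul_zero]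
    · subst h1
      subst h2
      exact hk' x y
  · rcases h2 with h2 | h2
    · subst h2
      subst h1
      have e1 : cG A F hG.ml (ComplexEmbedding.conjugate s2) s2 s3 s4 x y z w =
        - cG A F hG.ml s2 (ComplexEmbedding.conjugate s2) s3 s4 y x z w := hAl _ _ _ _
      rw [e1, hk' y x, (pData (A a)).hψalt]
      ring
    · subst h1
      subst h2
      rw [(hdiag _ x y).1, (hdiag _ x y).2, mul_zero]

end

/-- the statement N3D -/
theorem N3D_ (hP4 : St_P4) (hDua : St_Dua) (hSl : St_Sl) (hPln : St_Pln) (hFr : St_Fr)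
    (hSpl : St_Spl) (hIso : St_Iso) : St_N3D := by
  intro I _ _ A K _ _ r F a c d G hG hAl hpos ha hda hC hcd hc hd h0
  have D : FrD A F hG := hFr I A K r F a a c d G hG hpos
  refine hSpl I A K r F a c d G hG fun s3 s4 z w => ?_
  have := D.kill
  obtain ⟨p⟩ := Pool.Agent.Helper8.exists_principal (LG A F hG.ml)
  have hi3 := D.irr ⟨c, s3⟩
  have hi4 := D.irr ⟨d, s4⟩
  rcases hc with hc | ⟨hc, hcR⟩
  · rcases hd with hd | ⟨hd, hdR⟩
    · exact N3D_one hDua D hpos hAl ha hda hC s3 s4 (D.triv ⟨c, s3⟩ hc) (D.triv ⟨d, s4⟩ hd) z w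
    · -- ranks (1, 2)
      obtain ⟨S, -⟩ := hSl (LG A F hG.ml) (VG A F hG.ml ⟨d, s4⟩) p
        ((D.rank ⟨d, s4⟩).trans hd) (D.tr ⟨d, s4⟩)
      refine ⟨0, fun s1 s2 x y => ?_⟩
      rw [zero_mul]
      exact N3D_zero hP4 D ha s3 s4 S 0 1 (N3D_par0 _ (D.triv ⟨c, s3⟩ hc)) (N3D_par1 S)
        (by decide) s1 s2 x y z w
  · obtain ⟨S, -⟩ := hSl (LG A F hG.ml) (VG A F hG.ml ⟨c, s3⟩) p
      ((D.rank ⟨c, s3⟩).trans hc) (D.tr ⟨c, s3⟩)
    refine ⟨0, fun s1 s2 x y => ?_⟩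
    rw [zero_mul]
    rcases hd with hd | ⟨hd, hdR⟩
    · -- ranks (2, 1)
      exact N3D_zero hP4 D ha s3 s4 S 1 0 (N3D_par1 S) (N3D_par0 _ (D.triv ⟨d, s4⟩ hd))
        (by decide) s1 s2 x y z w
    · -- ranks (2, 2)
      rcases hPln (LG A F hG.ml) (VG A F hG.ml ⟨c, s3⟩) (VG A F hG.ml ⟨d, s4⟩) S
        ((D.rank ⟨d, s4⟩).trans hd) (D.tr ⟨d, s4⟩) with h | ⟨g, hg, hgI, v, u, hne⟩
      · exact N3D_zero hP4 D ha s3 s4 S 1 0 (N3D_par1 S) h (by decide) s1 s2 x y z w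
      · exact absurd (N3D_iso hIso D hpos hcd hcR hdR (h0 hc hd) s3 s4 (fun x y => g y x)
          ⟨fun y => hg.l2 y, fun x => hg.l1 x⟩
          (fun l x y => by
            have h := hgI l y x
            rw [add_comm] at h
            exact h) u v) hne

end Pool.Agent.D5
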