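import Pool.Agent.D5.StN

/-!
# D5: N3S, two vectors in a factor of rank three and two in one factor of rank one or two
-/

set_option autoImplicit false

namespace Pool.Agent.D5

open Module NumberField LieAlgebra
open Pool.Agent.Helper7 Pool.Agent.GPC Pool.Agent.Helper24
open Pool.Agent.Helper8 (ML2 ML4 Inv2 Inv4 Symp Principal)

attribute [local instance 100] LieRing.ofAssociativeRing

/-- the embeddings of a field of degree two -/
theorem N3S_emb {K : Type} [Field K] [NumberField K] (h : finrank ℚ K = 2) (σ : K →+* ℂ)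
    (hσ : ComplexEmbedding.conjugate σ ≠ σ) (s : K →+* ℂ) :
    s = σ ∨ s = ComplexEmbedding.conjugate σ := by
  classical
  have h1 : Fintype.card (K →+* ℂ) = 2 := by
    rw [NumberField.Embeddings.card K ℂ, h]
  have h2 : ({σ, ComplexEmbedding.conjugate σ} : Finset (K →+* ℂ)) = Finset.univ := by
    apply Finset.eq_univ_of_card
    rw [Finset.card_pair (Ne.symm hσ), h1]
  have h3 : s ∈ ({σ, ComplexEmbedding.conjugate σ} : Finset (K →+* ℂ)) := by
    rw [h2]
    exact Finset.mem_univ _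
  rw [Finset.mem_insert, Finset.mem_singleton] at h3
  exact h3

/-- an invariant family of bilinear functions on the eigenspaces of a factor of rank three is a
multiple of the polarisation -/
theorem N3S_beta (hD : St_Dua) {I : Type} [Fintype I] [DecidableEq I] {A : I → AbVar}
    {K : I → Type} [∀ i, Field (K i)] [∀ i, NumberField (K i)] {r : I → ℕ}
    {F : ∀ i, UF (pData (A i)) (K i) (r i)} {a c d : I}
    {G : (A a).H1 → (A a).H1 → (A c).H1 → (A d).H1 → ℂ}
    {hG : Gr4 (A a) (A a) (A c) (A d) G} (D : FrD A F hG) (hpos : ∀ i, 0 < r i)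
    (hra : r a = 3) (hfin : finrank ℚ (K a) = 2) (hcx : Cx (K a))
    (β : ∀ s1 s2 : K a →+* ℂ, VG A F hG.ml ⟨a, s1⟩ → VG A F hG.ml ⟨a, s2⟩ → ℂ)
    (hml : ∀ s1 s2, ML2 (β s1 s2)) (hinv : ∀ s1 s2, Inv2 (LG A F hG.ml) (β s1 s2))
    (halt : ∀ s1 s2 x y, β s2 s1 y x = - β s1 s2 x y) :
    ∃ k : ℂ, ∀ (s1 s2 : K a →+* ℂ) (x : VG A F hG.ml ⟨a, s1⟩) (y : VG A F hG.ml ⟨a, s2⟩),
      β s1 s2 x y = k * (pData (A a)).ψ ((x : MM (kap A)) a) ((y : MM (kap A)) a) := by
  obtain ⟨σ⟩ : Nonempty (K a →+* ℂ) := inferInstance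
  have hk : IsKilling ℂ (LG A F hG.ml) := D.kill
  have hirr : ∀ s, LieModule.IsIrreducible ℂ (LG A F hG.ml) (VG A F hG.ml s) := D.irr
  -- equal places
  have hzero : ∀ (s : K a →+* ℂ) (x y : VG A F hG.ml ⟨a, s⟩), β s s x y = 0 := by
    intro s
    exact (hD (LG A F hG.ml) (VG A F hG.ml ⟨a, s⟩) (VG A F hG.ml ⟨a, s⟩)).2.1
      (by rw [D.rank, hra]; decide) (β s s) (hml s s) (hinv s s)
      (fun x y => by rw [halt s s y x])
  have hpsi : ∀ (s : K a →+* ℂ) (x y : VG A F hG.ml ⟨a, s⟩),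
      (pData (A a)).ψ ((x : MM (kap A)) a) ((y : MM (kap A)) a) = 0 := by
    intro s x y
    have hx := Vs_proj (n1 I) (PA A) F (aG A a a c d G hG.ml) ⟨a, s⟩ x
    have hy := Vs_proj (n1 I) (PA A) F (aG A a a c d G hG.ml) ⟨a, s⟩ y
    have h1 := psi_proj (F a) s s ((x : MM (kap A)) a) ((y : MM (kap A)) a) (hcx s).symm
    have hx' : proj (F a).ρ s ((x : MM (kap A)) a) = (x : MM (kap A)) a := hx
    have hy' : proj (F a).ρ s ((y : MM (kap A)) a) = (y : MM (kap A)) a := hy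
    rw [hx', hy'] at h1
    exact h1
  -- conjugate places
  obtain ⟨k, hk1⟩ := (hD (LG A F hG.ml) (VG A F hG.ml ⟨a, σ⟩)
    (VG A F hG.ml ⟨a, ComplexEmbedding.conjugate σ⟩)).1
    (bp (n1 I) (PA A) F (aG A a a c d G hG.ml) a σ (ComplexEmbedding.conjugate σ))
    (bp_pair (n1 I) (PA A) F (aG A a a c d G hG.ml) hpos a σ)
    (β σ (ComplexEmbedding.conjugate σ)) (hml _ _) (hinv _ _)
  refine ⟨k, ?_⟩
  intro s1 s2
  rcases N3S_emb hfin σ (hcx σ) s1 with e1 | e1 <;>
    rcases N3S_emb hfin σ (hcx σ) s2 with e2 | e2 <;> rw [e1, e2]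
  · intro x y
    rw [hzero, hpsi, mul_zero]
  · intro x y
    rw [hk1 x y]
    rfl
  · intro x y
    rw [halt σ (ComplexEmbedding.conjugate σ) y x, hk1 y x]
    have h1 := bp_flip (n1 I) (PA A) F (aG A a a c d G hG.ml) a σ
      (ComplexEmbedding.conjugate σ) y x
    rw [h1]
    have h2 : bp (n1 I) (PA A) F (aG A a a c d G hG.ml) a (ComplexEmbedding.conjugate σ) σ x y =
      (pData (A a)).ψ ((x : MM (kap A)) a) ((y : MM (kap A)) a) := rfl
    rw [h2]
    ring
  · intro x y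
    rw [hzero, hpsi, mul_zero]

/-- [N3S] -/
theorem N3S_ (hF : St_Fr) (hSpl : St_Spl) (hS : St_Sl) (hP : St_Pln) (hP4 : St_P4)
    (hD : St_Dua) : St_N3S := by
  intro I _ _ A K _ _ r F a c G hG h12 h34 hpos hra hfin hcx hc
  have D := hF I A K r F a a c c G hG hpos
  have hk : IsKilling ℂ (LG A F hG.ml) := D.kill
  have hirr : ∀ s, LieModule.IsIrreducible ℂ (LG A F hG.ml) (VG A F hG.ml s) := D.irr
  have halt : ∀ (s1 s2 : K a →+* ℂ) (s3 s4 : K c →+* ℂ) (x : VG A F hG.ml ⟨a, s1⟩)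
      (y : VG A F hG.ml ⟨a, s2⟩) (z : VG A F hG.ml ⟨c, s3⟩) (w : VG A F hG.ml ⟨c, s4⟩),
      cG A F hG.ml s2 s1 s3 s4 y x z w = - cG A F hG.ml s1 s2 s3 s4 x y z w :=
    fun s1 s2 s3 s4 x y z w => h12 _ _ _ _
  refine hSpl I A K r F a c c G hG ?_
  intro s3 s4 z w
  rcases hc with hc | ⟨hc, hre, hend⟩
  · -- rank one
    refine N3S_beta hD D hpos hra hfin hcx (fun s1 s2 x y => cG A F hG.ml s1 s2 s3 s4 x y z w)
      (fun s1 s2 => ⟨fun y => (D.ml s1 s2 s3 s4).l1 y z w, fun x => (D.ml s1 s2 s3 s4).l2 x z w⟩)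
      (fun s1 s2 t x y => ?_) (fun s1 s2 x y => halt s1 s2 s3 s4 x y z w)
    have h1 := D.inv s1 s2 s3 s4 t x y z w
    rw [D.triv ⟨c, s3⟩ hc, D.triv ⟨c, s4⟩ hc, ((D.ml s1 s2 s3 s4).l3 x y w).map_zero,
      ((D.ml s1 s2 s3 s4).l4 x y z).map_zero, add_zero, add_zero] at h1
    exact h1
  · -- rank two
    obtain ⟨p⟩ := Pool.Agent.Helper8.exists_principal (LG A F hG.ml)
    obtain ⟨S, -⟩ := hS (LG A F hG.ml) (VG A F hG.ml ⟨c, s3⟩) p
      ((D.rank ⟨c, s3⟩).trans hc) (D.tr _)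
    by_cases h34' : s3 = s4
    · subst h34'
      have hsy := bp_symp (n1 I) (PA A) F (aG A a a c c G hG.ml) hpos c s3 (hre s3)
      obtain ⟨ω, hω⟩ : ∃ ω : VG A F hG.ml ⟨c, s3⟩ →ₗ[ℂ] VG A F hG.ml ⟨c, s3⟩ →ₗ[ℂ] ℂ,
        ω = bp (n1 I) (PA A) F (aG A a a c c G hG.ml) c s3 s3 := ⟨_, rfl⟩
      rw [← hω] at hsy
      -- the value on the basis
      have h00 : ∀ v, ω v v = 0 := by
        intro v
        have := hsy.alt v v
        linear_combination this / 2
      have hne : ω S.w0 S.w1 ≠ 0 := by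
        intro h0
        have h1 : S.w0 = 0 := by
          apply hsy.nd
          intro y
          obtain ⟨p, q, rfl⟩ := S.span y
          rw [map_add, map_smul, map_smul, h00, h0]
          simp
        have h2 := (S.indep 1 0 (by rw [h1]; simp)).1
        exact one_ne_zero h2
      have hwv : ∀ (s1 s2 : K a →+* ℂ) (x : VG A F hG.ml ⟨a, s1⟩) (y : VG A F hG.ml ⟨a, s2⟩)
          (z w : VG A F hG.ml ⟨c, s3⟩), cG A F hG.ml s1 s2 s3 s3 x y z w * ω S.w0 S.w1 =
            cG A F hG.ml s1 s2 s3 s3 x y S.w0 S.w1 * ω z w := by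
        intro s1 s2 x y z w
        have hm := D.ml s1 s2 s3 s3
        have hal : ∀ u v, cG A F hG.ml s1 s2 s3 s3 x y v u =
            - cG A F hG.ml s1 s2 s3 s3 x y u v := fun u v => h34 _ _ _ _
        have hal0 : ∀ u, cG A F hG.ml s1 s2 s3 s3 x y u u = 0 := by
          intro u
          have := hal u u
          linear_combination this / 2
        obtain ⟨p, q, rfl⟩ := S.span z
        obtain ⟨p', q', rfl⟩ := S.span w
        simp only [(hm.l3 x y _).map_add, (hm.l3 x y _).map_smul, (hm.l4 x y _).map_add,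
          (hm.l4 x y _).map_smul, map_add, map_smul, LinearMap.add_apply, LinearMap.smul_apply,
          smul_eq_mul, h00, hal0, hal S.w0 S.w1, hsy.alt S.w1 S.w0]
        ring
      obtain ⟨k, hk0⟩ := N3S_beta hD D hpos hra hfin hcx
        (fun s1 s2 x y => cG A F hG.ml s1 s2 s3 s3 x y S.w0 S.w1)
        (fun s1 s2 => ⟨fun y => (D.ml s1 s2 s3 s3).l1 y _ _,
          fun x => (D.ml s1 s2 s3 s3).l2 x _ _⟩)
        (fun s1 s2 t x y => by
          have h1 := D.inv s1 s2 s3 s3 t x y S.w0 S.w1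
          have h2 := hwv s1 s2 x y ⁅t, S.w0⁆ S.w1
          have h3 := hwv s1 s2 x y S.w0 ⁅t, S.w1⁆
          have h4 := hsy.inv t S.w0 S.w1
          rw [h4] at h2
          have h5 : (cG A F hG.ml s1 s2 s3 s3 x y ⁅t, S.w0⁆ S.w1 +
              cG A F hG.ml s1 s2 s3 s3 x y S.w0 ⁅t, S.w1⁆) * ω S.w0 S.w1 = 0 := by
            linear_combination h2 + h3
          have h6 := (mul_eq_zero.1 h5).resolve_right hne
          linear_combination h1 - h6)
        (fun s1 s2 x y => halt s1 s2 s3 s3 x y _ _)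
      refine ⟨k * ω z w / ω S.w0 S.w1, ?_⟩
      intro s1 s2 x y
      have h1 := hwv s1 s2 x y z w
      have h2 := hk0 s1 s2 x y
      rw [h2] at h1
      rw [div_mul_eq_mul_div, eq_div_iff hne, h1]
      ring
    · refine ⟨0, fun s1 s2 x y => ?_⟩
      rw [zero_mul]
      rcases hP (LG A F hG.ml) (VG A F hG.ml ⟨c, s3⟩) (VG A F hG.ml ⟨c, s4⟩) S
        ((D.rank ⟨c, s4⟩).trans hc) (D.tr _) with h0 | ⟨g, hg1, hg2, u, v, huv⟩
      · have hpar : ∀ s : K a →+* ℂ, Par S.h 0 (VG A F hG.ml ⟨a, s⟩) := by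
          intro s
          have h1 := even_of_three S.ptJ (V := VG A F hG.ml ⟨a, s⟩)
            ((D.rank ⟨a, s⟩).trans hra) (D.tr _)
          refine h1.trans (Submodule.span_mono ?_)
          rintro v ⟨m, ⟨m', hm'⟩, hv⟩
          refine ⟨m', ?_⟩
          rw [hv, hm']
          congr 1
          push_cast
          ring
        have hone : Par S.h 1 (VG A F hG.ml ⟨c, s3⟩) := by
          intro v _
          obtain ⟨p, q, rfl⟩ := S.span v
          refine Submodule.add_mem _ (Submodule.smul_mem _ _ (Submodule.subset_span ⟨0, ?_⟩))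
            (Submodule.smul_mem _ _ (Submodule.subset_span ⟨-1, ?_⟩))
          · rw [S.h0]
            simp
          · rw [S.h1]
            norm_num
        exact hP4 (LG A F hG.ml) (VG A F hG.ml ⟨a, s1⟩) (VG A F hG.ml ⟨a, s2⟩)
          (VG A F hG.ml ⟨c, s3⟩) (VG A F hG.ml ⟨c, s4⟩) S.h 0 0 1 0 (hpar s1) (hpar s2) hone h0
          (by decide) (cG A F hG.ml s1 s2 s3 s4) (D.ml _ _ _ _)
          (fun x y z w => D.inv s1 s2 s3 s4 S.h x y z w) x y z w
      · exfalso
        apply huv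
        refine no_link (n1 I) (PA A) F (aG A a a c c G hG.ml) Complex.two_pi_I_ne_zero D.hB D.hA
          hpos ⟨c, s4⟩ ⟨c, s3⟩ ?_ (hre s4) (hre s3) ?_ ?_ g hg1 hg2 u v
        · intro h
          apply h34'
          have := eq_of_heq (Sigma.mk.inj h).2
          exact this.symm
        · intro f hf
          exact hend f (isEnd_of_isDRB (A c) f hf)
        · intro h
          exact absurd rfl h

end Pool.Agent.D5
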