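import Pool.Agent.D5.StN

/-!
# D5: N4, two CM surfaces with non-abelian fields with the same closure, and an elliptic curve
-/

set_option autoImplicit false

namespace Pool.Agent.D5

open Module NumberField LieAlgebra
open Pool.Agent.Helper7 Pool.Agent.GPC Pool.Agent.Helper24
open Pool.Agent.Helper8 (ML2 ML4 Inv2 Inv4 Symp Principal)

attribute [local instance 100] LieRing.ofAssociativeRing

/-- [N4] -/
theorem N4_ (hF : St_Fr) (hP : St_P4) (hS : St_Sl) (hGal : St_Gal) (hSep : St_Sep)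
    (hCom : St_Com) : St_N4 := by
  intro I _ _ A K _ _ r F b c e G hG hpos hrb hrc hcmb hcmc hdb hdc hab hac hcl hre
  have D := hF I A K r F b b c e G hG hpos
  have hk : IsKilling ℂ (LG A F hG.ml) := D.kill
  obtain ⟨p⟩ := Pool.Agent.Helper8.exists_principal (LG A F hG.ml)
  refine D.zero ?_
  intro s1 s2 s3 s4
  have i4 : LieModule.IsIrreducible ℂ (LG A F hG.ml) (VG A F hG.ml ⟨e, s4⟩) := D.irr _
  rcases hre with hr2 | ⟨hr1, hde, hcx, hE⟩
  · obtain ⟨S, -⟩ := hS (LG A F hG.ml) (VG A F hG.ml ⟨e, s4⟩) p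
      ((D.rank ⟨e, s4⟩).trans hr2) (D.tr _)
    have hpar : ∀ (s : Σ i, (K i →+* ℂ)), r s.1 = 1 → Par S.h 0 (VG A F hG.ml s) := by
      intro s hs v _
      refine Submodule.subset_span ⟨0, ?_⟩
      rw [D.triv s hs]
      simp
    have hparW : Par S.h 1 (VG A F hG.ml ⟨e, s4⟩) := by
      intro w _
      obtain ⟨x, y, rfl⟩ := S.span w
      refine Submodule.add_mem _ (Submodule.smul_mem _ _ (Submodule.subset_span ⟨0, ?_⟩))
        (Submodule.smul_mem _ _ (Submodule.subset_span ⟨-1, ?_⟩))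
      · rw [S.h0]
        simp
      · rw [S.h1]
        norm_num
    exact hP (LG A F hG.ml) _ _ _ _ S.h 0 0 0 1 (hpar ⟨b, s1⟩ hrb) (hpar ⟨b, s2⟩ hrb)
      (hpar ⟨c, s3⟩ hrc) hparW (by decide) (cG A F hG.ml s1 s2 s3 s4) (D.ml _ _ _ _)
      (D.inv s1 s2 s3 s4 S.h)
  · by_contra hne
    push Not at hne
    have hwt := D.wt s1 s2 s3 s4 hne
    have hϖ : (2 * Real.pi * Complex.I : ℂ) ≠ 0 := Complex.two_pi_I_ne_zero
    obtain ⟨g, hgb, hgc, hge⟩ := hCom (K b) (K c) (K e) hcmb hcmc hdb hdc hab hac hcl hde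
    have hEnd : ∀ f, IsDRB (PA A e) (PA A e) f → ∃ x, ∀ v, f v = (F e).ρ x v :=
      fun f hf => hE f (isEnd_of_isDRB (A e) f hf)
    have hgal := hGal I (n1 I) (kap A) (2 * Real.pi * Complex.I) (PA A) K r F 2
      (aG A b b c e G hG.ml) hϖ D.hB 4 ![⟨b, s1⟩, ⟨b, s2⟩, ⟨c, s3⟩, ⟨e, s4⟩] (fun _ => 1) 2
      (by
        intro X hX
        have h := hwt X hX
        rw [Fin.sum_univ_four]
        simp only [Rat.cast_one, one_mul, Matrix.cons_val_zero, Matrix.cons_val_one,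
          Matrix.cons_val_two, Matrix.cons_val_three, Matrix.tail_cons, Matrix.head_cons,
          Rat.cast_ofNat]
        exact h) g
    have hcj : ∀ (i : I) (s : K i →+* ℂ) (X), IsInv (n1 I) (PA A) (aG A b b c e G hG.ml) X →
        ch (PA A) F ⟨i, s⟩ X + ch (PA A) F ⟨i, ComplexEmbedding.conjugate s⟩ X = X.2 :=
      fun i s X hX => ch_conj (n1 I) (PA A) F (aG A b b c e G hG.ml) hpos ⟨i, s⟩ X hX
    have key : ∀ X, IsInv (n1 I) (PA A) (aG A b b c e G hG.ml) X →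
        ch (PA A) F ⟨e, s4⟩ X = ch (PA A) F ⟨e, ComplexEmbedding.conjugate s4⟩ X := by
      intro X hX
      have h := hgal X hX
      rw [Fin.sum_univ_four] at h
      simp only [Rat.cast_one, one_mul, Matrix.cons_val_zero, Matrix.cons_val_one,
          Matrix.cons_val_two, Matrix.cons_val_three, Matrix.tail_cons, Matrix.head_cons,
          Rat.cast_ofNat] at h
      have h1 : ch (PA A) F ⟨b, (g : ℂ →+* ℂ).comp s1⟩ X +
          ch (PA A) F ⟨b, (g : ℂ →+* ℂ).comp s2⟩ X + ch (PA A) F ⟨c, (g : ℂ →+* ℂ).comp s3⟩ X +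
          ch (PA A) F ⟨e, (g : ℂ →+* ℂ).comp s4⟩ X = 2 * X.2 := h
      rw [hgb, hgb, hgc, hge] at h1
      have h2 := hwt X hX
      have e1 := hcj b s1 X hX
      have e2 := hcj b s2 X hX
      have e3 := hcj c s3 X hX
      have e4 := hcj e s4 X hX
      linear_combination h1 + h2 - e1 - e2 - e3 - e4
    have h1 := hSep I (n1 I) (kap A) (2 * Real.pi * Complex.I) (PA A) K r F 2
      (aG A b b c e G hG.ml) hϖ D.hB D.hA hpos ⟨e, s4⟩ ⟨e, ComplexEmbedding.conjugate s4⟩ hr1 hr1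
      (fun h => absurd rfl h) (fun _ => hEnd) key
    exact hcx s4 (eq_of_heq (Sigma.mk.inj h1).2).symm

end Pool.Agent.D5
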