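import Pool.Agent.D5.StN

/-!
# D5, module N6: a threefold of rank six (helper66)
-/

set_option autoImplicit false

namespace Pool.Agent.D5

open Module NumberField LieAlgebra LieModule
open Pool.Agent.Helper7 Pool.Agent.GPC Pool.Agent.Helper24
open Pool.Agent.Helper8 (ML2 ML4 Inv2 Inv4 Symp Principal)

section lie

variable {L W V : Type} [LieRing L] [LieAlgebra ℂ L] [AddCommGroup W] [Module ℂ W]
  [LieRingModule L W] [LieModule ℂ L W] [AddCommGroup V] [Module ℂ V] [LieRingModule L V]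
  [LieModule ℂ L V]

/-- the action of an element on the plane -/
private theorem N6_act (S : SlI L W) (a : L) :
    ∃ α β γ : ℂ, ∀ w : W, ⁅a, w⁆ = α • ⁅S.e, w⁆ + β • ⁅S.h, w⁆ + γ • ⁅S.f, w⁆ := by
  have ha : a ∈ S.J ⊔ S.N := by
    rw [S.sup]
    trivial
  obtain ⟨j, hj, n, hn, rfl⟩ := (LieSubmodule.mem_sup _ _ _).1 ha
  obtain ⟨α, β, γ, rfl⟩ := S.spanJ j hj
  refine ⟨α, β, γ, fun w => ?_⟩
  rw [add_lie, S.triv n hn, add_zero, add_lie, add_lie, smul_lie, smul_lie, smul_lie]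

/-- coordinates -/
private theorem N6_coord {M : Type} [AddCommGroup M] [Module ℂ M] (u0 u1 : M)
    (hs : ∀ w : M, ∃ a b : ℂ, w = a • u0 + b • u1)
    (hi : ∀ a b : ℂ, a • u0 + b • u1 = 0 → a = 0 ∧ b = 0) :
    ∃ c0 c1 : M →ₗ[ℂ] ℂ, (∀ w, w = c0 w • u0 + c1 w • u1) ∧ c0 u0 = 1 ∧ c0 u1 = 0 ∧
      c1 u0 = 0 ∧ c1 u1 = 1 := by
  have hsp : ⊤ ≤ Submodule.span ℂ (Set.range ![u0, u1]) := by
    intro w _
    obtain ⟨a, b, rfl⟩ := hs w
    refine add_mem (Submodule.smul_mem _ _ (Submodule.subset_span ⟨0, rfl⟩))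
      (Submodule.smul_mem _ _ (Submodule.subset_span ⟨1, rfl⟩))
  let b : Basis (Fin 2) ℂ M := Basis.mk (LinearIndependent.pair_iff.2 hi) hsp
  have b0 : b 0 = u0 := Basis.mk_apply _ _ 0
  have b1 : b 1 = u1 := Basis.mk_apply _ _ 1
  refine ⟨b.coord 0, b.coord 1, fun w => ?_, ?_, ?_, ?_, ?_⟩
  · have h := b.sum_repr w
    rw [Fin.sum_univ_two, b0, b1] at h
    exact h.symm
  · rw [← b0, Basis.coord_apply, Basis.repr_self, Finsupp.single_eq_same]
  · rw [← b1, Basis.coord_apply, Basis.repr_self, Finsupp.single_eq_of_ne (by decide)]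
  · rw [← b0, Basis.coord_apply, Basis.repr_self, Finsupp.single_eq_of_ne (by decide)]
  · rw [← b1, Basis.coord_apply, Basis.repr_self, Finsupp.single_eq_same]

/-- the action in coordinates -/
private theorem N6_cact {M : Type} [AddCommGroup M] [Module ℂ M] [LieRingModule L M]
    [LieModule ℂ L M] {e h f : L} {u0 u1 : M} {c0 c1 : M →ₗ[ℂ] ℂ}
    (hc : ∀ w, w = c0 w • u0 + c1 w • u1) (h00 : c0 u0 = 1) (h01 : c0 u1 = 0)
    (h10 : c1 u0 = 0) (h11 : c1 u1 = 1) (hh0 : ⁅h, u0⁆ = u0) (hh1 : ⁅h, u1⁆ = -u1)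
    (he0 : ⁅e, u0⁆ = 0) (he1 : ⁅e, u1⁆ = u0) (hf0 : ⁅f, u0⁆ = u1) (hf1 : ⁅f, u1⁆ = 0)
    {a : L} {α β γ : ℂ} (ha : ∀ w : M, ⁅a, w⁆ = α • ⁅e, w⁆ + β • ⁅h, w⁆ + γ • ⁅f, w⁆) (w : M) :
    c0 ⁅a, w⁆ = α * c1 w + β * c0 w ∧ c1 ⁅a, w⁆ = γ * c0 w - β * c1 w := by
  have h1 : ⁅a, w⁆ = (α * c1 w + β * c0 w) • u0 + (γ * c0 w - β * c1 w) • u1 := by
    rw [ha]
    have e1 : ⁅e, w⁆ = c1 w • u0 := by
      conv_lhs => rw [hc w]
      rw [lie_add, lie_smul, lie_smul, he0, he1, smul_zero, zero_add]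
    have e2 : ⁅h, w⁆ = c0 w • u0 - c1 w • u1 := by
      conv_lhs => rw [hc w]
      rw [lie_add, lie_smul, lie_smul, hh0, hh1, smul_neg, sub_eq_add_neg]
    have e3 : ⁅f, w⁆ = c0 w • u1 := by
      conv_lhs => rw [hc w]
      rw [lie_add, lie_smul, lie_smul, hf0, hf1, smul_zero, add_zero]
    rw [e1, e2, e3]
    module
  rw [h1]
  constructor
  · rw [map_add, map_smul, map_smul, h00, h01, smul_eq_mul, smul_eq_mul, mul_one, mul_zero,
      add_zero]
  · rw [map_add, map_smul, map_smul, h10, h11, smul_eq_mul, smul_eq_mul, mul_one, mul_zero,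
      zero_add]

/-- the symplectic form of the plane -/
private theorem N6_form (S : SlI L W) : ∃ ω : W →ₗ[ℂ] W →ₗ[ℂ] ℂ, Symp L ω ∧
    ∀ f : W → W → ℂ, ML2 f → (∀ u v, f v u = - f u v) →
      ∀ u v, f u v = ω u v * f S.w0 S.w1 := by
  obtain ⟨c0, c1, hc, c00, c01, c10, c11⟩ := N6_coord S.w0 S.w1 S.span S.indep
  have hω : ∀ u v, (c0.smulRight c1 - c1.smulRight c0 : W →ₗ[ℂ] W →ₗ[ℂ] ℂ) u v =
      c0 u * c1 v - c1 u * c0 v := by
    intro u v
    simp only [LinearMap.sub_apply, LinearMap.smulRight_apply, LinearMap.smul_apply,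
      smul_eq_mul]
  refine ⟨c0.smulRight c1 - c1.smulRight c0, ⟨?_, ?_, ?_⟩, ?_⟩
  · intro u v
    rw [hω, hω]
    ring
  · intro u hu
    have h0 := hu S.w0
    have h1 := hu S.w1
    rw [hω, c00, c10] at h0
    rw [hω, c01, c11] at h1
    have e0 : c1 u = 0 := by linear_combination -h0
    have e1 : c0 u = 0 := by linear_combination h1
    rw [hc u, e0, e1, zero_smul, zero_smul, add_zero]
  · intro a u v
    obtain ⟨α, β, γ, hβ⟩ := N6_act S a
    obtain ⟨u0, u1⟩ := N6_cact hc c00 c01 c10 c11 S.h0 S.h1 S.e0 S.e1 S.f0 S.f1 hβ u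
    obtain ⟨v0, v1⟩ := N6_cact hc c00 c01 c10 c11 S.h0 S.h1 S.e0 S.e1 S.f0 S.f1 hβ v
    rw [hω, hω, u0, u1, v0, v1]
    ring
  · intro f hf hal u v
    have h00 : f S.w0 S.w0 = 0 := by linear_combination (1 / 2 : ℂ) * hal S.w0 S.w0
    have h11 : f S.w1 S.w1 = 0 := by linear_combination (1 / 2 : ℂ) * hal S.w1 S.w1
    have h10 := hal S.w0 S.w1
    have e1 : f u v = c0 u * f S.w0 v + c1 u * f S.w1 v := by
      conv_lhs => rw [hc u]
      rw [(hf.l1 v).map_add, (hf.l1 v).map_smul, (hf.l1 v).map_smul, smul_eq_mul, smul_eq_mul]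
    have e2 : ∀ w, f w v = c0 v * f w S.w0 + c1 v * f w S.w1 := by
      intro w
      conv_lhs => rw [hc v]
      rw [(hf.l2 w).map_add, (hf.l2 w).map_smul, (hf.l2 w).map_smul, smul_eq_mul, smul_eq_mul]
    rw [e1, e2, e2, h00, h11, h10, hω]
    ring

omit [LieModule ℂ L W] in
/-- parities of the principal element and of its component -/
private theorem N6_parW (S : SlI L W) : Par S.h 1 W ∧ Par S.p.h 1 W := by
  have hp : ∀ w : W, ⁅S.p.h, w⁆ = ⁅S.h, w⁆ := by
    intro w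
    rw [← S.sum, add_lie, S.triv S.h' S.ptN.hJ, add_zero]
  have key : ∀ h : L, (∀ w : W, ⁅h, w⁆ = ⁅S.h, w⁆) → Par h 1 W := by
    intro h hh w _
    obtain ⟨a, b, rfl⟩ := S.span w
    refine add_mem (Submodule.smul_mem _ _ (Submodule.subset_span ⟨0, ?_⟩))
      (Submodule.smul_mem _ _ (Submodule.subset_span ⟨-1, ?_⟩))
    · rw [hh, S.h0]
      simp
    · rw [hh, S.h1]
      norm_num
  exact ⟨key S.h fun _ => rfl, key S.p.h hp⟩

omit [LieModule ℂ L V] in
/-- trivial modules -/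
private theorem N6_par0 (h : L) (ht : ∀ v : V, ⁅h, v⁆ = 0) : Par h 0 V := by
  intro v _
  refine Submodule.subset_span ⟨0, ?_⟩
  rw [ht]
  simp

/-- odd parity on symplectic modules -/
private theorem N6_odd (p : Principal L) [FiniteDimensional ℂ V] [LieModule.IsIrreducible ℂ L V]
    {ω : V →ₗ[ℂ] V →ₗ[ℂ] ℂ} (hω : Symp L ω) : Par p.h 1 V := by
  refine (p.odd_span hω).trans (Submodule.span_mono ?_)
  rintro v ⟨m, ⟨j, rfl⟩, hm⟩
  refine ⟨j, ?_⟩
  rw [hm]
  congr 2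
  ring

/-- the case of two planes -/
private theorem N6_core (hP4 : St_P4) (hSl : St_Sl) (hPln : St_Pln) (hS6 : St_S6)
    {L V Y Z : Type} [LieRing L] [LieAlgebra ℂ L] [FiniteDimensional ℂ L] [IsKilling ℂ L]
    [AddCommGroup V] [Module ℂ V] [LieRingModule L V] [LieModule ℂ L V] [FiniteDimensional ℂ V]
    [LieModule.IsIrreducible ℂ L V]
    [AddCommGroup Y] [Module ℂ Y] [LieRingModule L Y] [LieModule ℂ L Y] [FiniteDimensional ℂ Y]
    [LieModule.IsIrreducible ℂ L Y]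
    [AddCommGroup Z] [Module ℂ Z] [LieRingModule L Z] [LieModule ℂ L Z] [FiniteDimensional ℂ Z]
    [LieModule.IsIrreducible ℂ L Z] {ω : V →ₗ[ℂ] V →ₗ[ℂ] ℂ} (hω : Symp L ω)
    (hV : finrank ℂ V = 6) (trV : Tr0 L V) (hY : finrank ℂ Y = 2) (trY : Tr0 L Y)
    (hZ : finrank ℂ Z = 2) (trZ : Tr0 L Z) {G : V → V → Y → Z → ℂ} (hG : ML4 G)
    (hI : Inv4 L G) (a1 : ∀ x y z w, G y x z w = - G x y z w) (z : Y) (w : Z) :
    ∃ k : ℂ, ∀ x y, G x y z w = k * ω x y := by
  obtain ⟨p⟩ := Pool.Agent.Helper8.exists_principal L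
  obtain ⟨S, -⟩ := hSl L Y p hY trY
  obtain ⟨n, hn⟩ := exists_parity S.ptJ (V := V)
  rcases hPln L Y Z S hZ trZ with h0 | ⟨g, hg, hgI, z0, y0, hne⟩
  · refine ⟨0, fun x y => ?_⟩
    rw [zero_mul]
    refine hP4 L V V Y Z S.h n n 1 0 hn hn (N6_parW S).1 h0 ⟨n, by ring⟩ G hG
      (fun x y z w => hI S.h x y z w) x y z w
  · obtain ⟨ωY, hωY, halt⟩ := N6_form S
    obtain ⟨β, hβ⟩ := Pool.Agent.Helper8.exists_linear hg
    have hinj : Function.Injective ωY := by
      rw [← LinearMap.ker_eq_bot, Submodule.eq_bot_iff]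
      intro x hx
      exact hωY.nd x fun y => by rw [LinearMap.mem_ker.mp hx]; rfl
    let Φ : Y ≃ₗ[ℂ] Module.Dual ℂ Y :=
      LinearEquiv.ofInjectiveOfFinrankEq ωY hinj (Subspace.dual_finrank_eq).symm
    have hΦ : ∀ x, Φ x = ωY x := fun x => rfl
    let T : Z →ₗ[ℂ] Y := Φ.symm.toLinearMap ∘ₗ β
    have hT : ∀ x y, ωY (T x) y = g x y := by
      intro x y
      have h1 : Φ (T x) = β x := Φ.apply_symm_apply (β x)
      rw [hΦ] at h1
      rw [h1, hβ]
    have hTL : ∀ (a : L) x, T ⁅a, x⁆ = ⁅a, T x⁆ := by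
      intro a x
      rw [← sub_eq_zero]
      apply hωY.nd
      intro y
      rw [map_sub, LinearMap.sub_apply, hωY.inv, hT]
      have h1 := hgI a x y
      rw [hT]
      linear_combination h1
    have hTinj : Function.Injective T := by
      rw [← LinearMap.ker_eq_bot]
      rcases Pool.Agent.Helper8.irr_cases (L := L) (LinearMap.ker T) (fun a v hv => by
        rw [LinearMap.mem_ker] at hv ⊢
        rw [hTL, hv, lie_zero]) with h | h
      · exact h
      · exfalso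
        apply hne
        have h1 : z0 ∈ LinearMap.ker T := by rw [h]; trivial
        rw [LinearMap.mem_ker] at h1
        rw [← hT, h1, map_zero, LinearMap.zero_apply]
    let θ : Z ≃ₗ[ℂ] Y := LinearEquiv.ofInjectiveOfFinrankEq T hTinj (hZ.trans hY.symm)
    have hθ : ∀ x, θ x = T x := fun x => rfl
    have hθs : ∀ (a : L) (v : Y), θ.symm ⁅a, v⁆ = ⁅a, θ.symm v⁆ := by
      intro a v
      apply θ.injective
      rw [θ.apply_symm_apply, hθ, hTL, ← hθ, θ.apply_symm_apply]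
    set G' : V → V → Y → Y → ℂ := fun x y u v => G x y u (θ.symm v) with hG'
    have hml : ML4 G' := by
      refine ⟨fun y z w => hG.l1 y z _, fun x z w => hG.l2 x z _, fun x y w => hG.l3 x y _,
        fun x y z => ⟨fun u v => ?_, fun c v => ?_⟩⟩
      · show G x y z (θ.symm (u + v)) = G x y z (θ.symm u) + G x y z (θ.symm v)
        rw [map_add, (hG.l4 x y z).map_add]
      · show G x y z (θ.symm (c • v)) = c • G x y z (θ.symm v)
        rw [map_smul, (hG.l4 x y z).map_smul]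
    have hinv : Inv4 L G' := by
      intro a x y u v
      show G ⁅a, x⁆ y u (θ.symm v) + G x ⁅a, y⁆ u (θ.symm v) + G x y ⁅a, u⁆ (θ.symm v) +
        G x y u (θ.symm ⁅a, v⁆) = 0
      rw [hθs]
      exact hI a x y u (θ.symm v)
    have hsym := hS6 L Y V S hV trV (fun x y u v => G' x y u v + G' x y v u)
      (by
        refine ⟨fun y z w => ?_, fun x z w => ?_, fun x y w => ?_, fun x y z => ?_⟩
        · exact Pool.Agent.Helper8.isLin_add (hml.l1 y z w) (hml.l1 y w z)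
        · exact Pool.Agent.Helper8.isLin_add (hml.l2 x z w) (hml.l2 x w z)
        · exact Pool.Agent.Helper8.isLin_add (hml.l3 x y w) (hml.l4 x y w)
        · exact Pool.Agent.Helper8.isLin_add (hml.l4 x y z) (hml.l3 x y z))
      (by
        intro a x y u v
        have h1 := hinv a x y u v
        have h2 := hinv a x y v u
        show G' ⁅a, x⁆ y u v + G' ⁅a, x⁆ y v u + (G' x ⁅a, y⁆ u v + G' x ⁅a, y⁆ v u) +
          (G' x y ⁅a, u⁆ v + G' x y v ⁅a, u⁆) + (G' x y u ⁅a, v⁆ + G' x y ⁅a, v⁆ u) = 0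
        linear_combination h1 + h2)
      (by
        intro x y u v
        have h1 : G' y x u v = - G' x y u v := a1 x y u _
        have h2 : G' y x v u = - G' x y v u := a1 x y v _
        show G' y x u v + G' y x v u = - (G' x y u v + G' x y v u)
        rw [h1, h2]
        ring)
      (by
        intro x y u v
        show G' x y v u + G' x y u v = G' x y u v + G' x y v u
        ring)
    have hal : ∀ x y u v, G' x y v u = - G' x y u v := by
      intro x y u v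
      have h1 : G' x y u v + G' x y v u = 0 := hsym x y u v
      linear_combination h1
    have hform : ∀ x y u v, G' x y u v = ωY u v * G' x y S.w0 S.w1 := by
      intro x y u v
      exact halt (fun u v => G' x y u v) ⟨fun v => hml.l3 x y v, fun u => hml.l4 x y u⟩
        (fun u v => hal x y u v) u v
    obtain ⟨c, hc⟩ := Pool.Agent.Helper8.schur hω (g := fun x y => G' x y S.w0 S.w1)
      ⟨fun y => hml.l1 y _ _, fun x => hml.l2 x _ _⟩ (by
        intro a x y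
        have h1 := hinv a x y S.w0 S.w1
        rw [hform x y ⁅a, S.w0⁆, hform x y S.w0 ⁅a, S.w1⁆, hωY.inv] at h1
        show G' ⁅a, x⁆ y S.w0 S.w1 + G' x ⁅a, y⁆ S.w0 S.w1 = 0
        linear_combination h1)
    refine ⟨ωY z (θ w) * c, fun x y => ?_⟩
    have h1 : G x y z w = G' x y z (θ w) := by
      show G x y z w = G x y z (θ.symm (θ w))
      rw [θ.symm_apply_apply]
    rw [h1, hform]
    have h2 : G' x y S.w0 S.w1 = c * ω x y := hc x y
    rw [h2]
    ring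

end lie

attribute [local instance 100] LieRing.ofAssociativeRing

/-- **N6** -/
theorem N6_ (hFr : St_Fr) (hSpl : St_Spl) (hP4 : St_P4) (hSl : St_Sl) (hPln : St_Pln)
    (hS6 : St_S6) : St_N6 := by
  intro I _ _ A K _ _ r F a c d G hG hal hr ha hK hc hd
  have D : FrD A F hG := hFr I A K r F a a c d G hG hr
  apply hSpl I A K r F a c d G hG
  intro s3 s4 z w
  have hcard : Fintype.card (K a →+* ℂ) = 1 := by
    rw [NumberField.Embeddings.card, hK]
  obtain ⟨σ, hσ⟩ := Fintype.card_eq_one_iff.1 hcard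
  have hcj : ComplexEmbedding.conjugate σ = σ := hσ _
  have := D.kill
  have := D.irr ⟨a, σ⟩
  have := D.irr ⟨c, s3⟩
  have := D.irr ⟨d, s4⟩
  have hω : Symp (LG A F hG.ml)
      (bp (n1 I) (PA A) F (aG A a a c d G hG.ml) a σ σ) :=
    bp_symp (n1 I) (PA A) F (aG A a a c d G hG.ml) hr a σ hcj
  have hml := D.ml σ σ s3 s4
  have hinv := D.inv σ σ s3 s4
  obtain ⟨p⟩ := Pool.Agent.Helper8.exists_principal (LG A F hG.ml)
  have hpV := N6_odd p hω
  have rV : finrank ℂ (VG A F hG.ml ⟨a, σ⟩) = 6 := (D.rank ⟨a, σ⟩).trans ha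
  have a1 : ∀ x y u v, cG A F hG.ml σ σ s3 s4 y x u v = - cG A F hG.ml σ σ s3 s4 x y u v :=
    fun x y u v => hal _ _ _ _
  have key : ∃ k : ℂ, ∀ x y : VG A F hG.ml ⟨a, σ⟩, cG A F hG.ml σ σ s3 s4 x y z w =
      k * bp (n1 I) (PA A) F (aG A a a c d G hG.ml) a σ σ x y := by
    rcases hc with hc | hc
    · have tc := D.triv ⟨c, s3⟩ hc
      rcases hd with hd | hd
      · have td := D.triv ⟨d, s4⟩ hd
        refine Pool.Agent.Helper8.schur hω (g := fun x y => cG A F hG.ml σ σ s3 s4 x y z w)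
          ⟨fun y => hml.l1 y z w, fun x => hml.l2 x z w⟩ ?_
        intro b x y
        have h1 := hinv b x y z w
        rw [tc, td, (hml.l3 x y w).map_zero, (hml.l4 x y z).map_zero, add_zero, add_zero] at h1
        exact h1
      · obtain ⟨S, rfl⟩ := hSl (LG A F hG.ml) (VG A F hG.ml ⟨d, s4⟩) p
          ((D.rank ⟨d, s4⟩).trans hd) (D.tr ⟨d, s4⟩)
        refine ⟨0, fun x y => ?_⟩
        rw [zero_mul]
        exact hP4 _ _ _ _ _ S.p.h 1 1 0 1 hpV hpV (N6_par0 _ (tc _)) (N6_parW S).2 (by decide)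
          _ hml (fun x y z w => hinv S.p.h x y z w) x y z w
    · rcases hd with hd | hd
      · have td := D.triv ⟨d, s4⟩ hd
        obtain ⟨S, rfl⟩ := hSl (LG A F hG.ml) (VG A F hG.ml ⟨c, s3⟩) p
          ((D.rank ⟨c, s3⟩).trans hc) (D.tr ⟨c, s3⟩)
        refine ⟨0, fun x y => ?_⟩
        rw [zero_mul]
        exact hP4 _ _ _ _ _ S.p.h 1 1 1 0 hpV hpV (N6_parW S).2 (N6_par0 _ (td _)) (by decide)
          _ hml (fun x y z w => hinv S.p.h x y z w) x y z w
      · exact N6_core hP4 hSl hPln hS6 hω rV (D.tr ⟨a, σ⟩) ((D.rank ⟨c, s3⟩).trans hc)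
          (D.tr ⟨c, s3⟩) ((D.rank ⟨d, s4⟩).trans hd) (D.tr ⟨d, s4⟩) hml hinv a1 z w
  obtain ⟨k, hk⟩ := key
  refine ⟨k, fun s1 s2 => ?_⟩
  obtain rfl : s1 = σ := hσ s1
  obtain rfl : s2 = s1 := hσ s2
  exact hk

end Pool.Agent.D5
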