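import Pool.Agent.D5.StR

/-!
# D5, module NS: non-simple fivefolds in degree four (helper36)
-/

set_option autoImplicit false

namespace Pool.Agent.D5

open Module NumberField
open Pool.Agent.Helper7 Pool.Agent.GPC Pool.Agent.Helper39.AF
open Pool.Agent.Helper8 (ML2 ML4)

/-! ### patterns -/

private def NS_c {J : Type} [DecidableEq J] (s : Fin (2 * 2) → J) (j : J) : ℕ :=
  ∑ i, if s i = j then 1 else 0

private theorem NS_v {J : Type} [DecidableEq J] (a b c d j : J) :
    NS_c ![a, b, c, d] j = (if a = j then 1 else 0) + (if b = j then 1 else 0) +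
      (if c = j then 1 else 0) + (if d = j then 1 else 0) :=
  Fin.sum_univ_four (fun i : Fin 4 => if (![a, b, c, d] : Fin 4 → J) i = j then 1 else 0)

private theorem NS_perm {J : Type} [DecidableEq J] (s t : Fin (2 * 2) → J)
    (h : ∀ j, NS_c s j = NS_c t j) : ∃ σ : Equiv.Perm (Fin (2 * 2)), s ∘ σ = t := by
  have hc : ∀ (u : Fin (2 * 2) → J) j, Fintype.card {i // u i = j} = NS_c u j := by
    intro u j
    rw [Fintype.card_subtype, Finset.card_filter]
    rfl
  let e : ∀ j, {i // t i = j} ≃ {i // s i = j} := fun j =>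
    Fintype.equivOfCardEq (by rw [hc, hc, h])
  exact ⟨Equiv.ofFiberEquiv e, funext fun i => Equiv.ofFiberEquiv_map e i⟩

private theorem NS_cnt {J : Type} [DecidableEq J] (Q : (Fin (2 * 2) → J) → Prop)
    (hQ : ∀ (s : Fin (2 * 2) → J) (σ : Equiv.Perm (Fin (2 * 2))), Q (s ∘ σ) → Q s)
    {s t : Fin (2 * 2) → J} (ht : Q t) (h : ∀ j, NS_c s j = NS_c t j) : Q s := by
  obtain ⟨σ, hσ⟩ := NS_perm s t h
  apply hQ s σ
  rw [hσ]
  exact ht

private theorem NS_pos {J : Type} [DecidableEq J] {s : Fin (2 * 2) → J}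
    (hs : Function.Surjective s) (j : J) : 1 ≤ NS_c s j := by
  obtain ⟨i, hi⟩ := hs j
  have h := Finset.single_le_sum (f := fun i => if s i = j then 1 else 0)
    (fun _ _ => Nat.zero_le _) (Finset.mem_univ i)
  simp only [hi, if_true] at h
  exact h

private theorem NS_two {J : Type} [DecidableEq J] (Q : (Fin (2 * 2) → J) → Prop)
    (hQ : ∀ (s : Fin (2 * 2) → J) (σ : Equiv.Perm (Fin (2 * 2))), Q (s ∘ σ) → Q s)
    {a e : J} (hae : a ≠ e) (hJ : ∀ j, j = a ∨ j = e)
    (h1 : Q ![a, a, a, e]) (h2 : Q ![a, a, e, e]) (h3 : Q ![a, e, e, e])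
    (s : Fin (2 * 2) → J) (hs : Function.Surjective s) : Q s := by
  have ha := NS_pos hs a
  have he := NS_pos hs e
  have ht : NS_c s a + NS_c s e = 4 := by
    unfold NS_c
    rw [← Finset.sum_add_distrib]
    have h : ∀ i ∈ (Finset.univ : Finset (Fin (2 * 2))),
        ((if s i = a then 1 else 0) + if s i = e then 1 else 0) = 1 := by
      intro i _
      rcases hJ (s i) with h | h
      · rw [h, if_pos rfl, if_neg hae]
      · rw [h, if_pos rfl, if_neg hae.symm]
    rw [Finset.sum_congr rfl h]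
    rfl
  have key : ∀ t : Fin (2 * 2) → J, NS_c s a = NS_c t a → NS_c s e = NS_c t e → Q t → Q s := by
    intro t h4 h5 hq
    refine NS_cnt Q hQ hq fun j => ?_
    rcases hJ j with rfl | rfl
    · exact h4
    · exact h5
  have v1 : NS_c ![a, a, a, e] a = 3 ∧ NS_c ![a, a, a, e] e = 1 := by
    constructor <;> rw [NS_v] <;> simp [hae, hae.symm]
  have v2 : NS_c ![a, a, e, e] a = 2 ∧ NS_c ![a, a, e, e] e = 2 := by
    constructor <;> rw [NS_v] <;> simp [hae, hae.symm]
  have v3 : NS_c ![a, e, e, e] a = 1 ∧ NS_c ![a, e, e, e] e = 3 := by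
    constructor <;> rw [NS_v] <;> simp [hae, hae.symm]
  have h6 : NS_c s a = 1 ∨ NS_c s a = 2 ∨ NS_c s a = 3 := by omega
  rcases h6 with h6 | h6 | h6
  · exact key _ (by rw [h6, v3.1]) (by rw [v3.2]; omega) h3
  · exact key _ (by rw [h6, v2.1]) (by rw [v2.2]; omega) h2
  · exact key _ (by rw [h6, v1.1]) (by rw [v1.2]; omega) h1

private theorem NS_three {J : Type} [DecidableEq J] (Q : (Fin (2 * 2) → J) → Prop)
    (hQ : ∀ (s : Fin (2 * 2) → J) (σ : Equiv.Perm (Fin (2 * 2))), Q (s ∘ σ) → Q s)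
    {b c e : J} (hbc : b ≠ c) (hbe : b ≠ e) (hce : c ≠ e) (hJ : ∀ j, j = b ∨ j = c ∨ j = e)
    (h1 : Q ![b, b, c, e]) (h2 : Q ![b, e, c, c]) (h3 : Q ![b, c, e, e])
    (s : Fin (2 * 2) → J) (hs : Function.Surjective s) : Q s := by
  have hb := NS_pos hs b
  have hc := NS_pos hs c
  have he := NS_pos hs e
  have ht : NS_c s b + NS_c s c + NS_c s e = 4 := by
    unfold NS_c
    rw [← Finset.sum_add_distrib, ← Finset.sum_add_distrib]
    have h : ∀ i ∈ (Finset.univ : Finset (Fin (2 * 2))),
        (((if s i = b then 1 else 0) + if s i = c then 1 else 0) + if s i = e then 1 else 0) =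
          1 := by
      intro i _
      rcases hJ (s i) with h | h | h
      · rw [h, if_pos rfl, if_neg hbc, if_neg hbe]
      · rw [h, if_pos rfl, if_neg hbc.symm, if_neg hce]
      · rw [h, if_pos rfl, if_neg hbe.symm, if_neg hce.symm]
    rw [Finset.sum_congr rfl h]
    rfl
  have key : ∀ t : Fin (2 * 2) → J, NS_c s b = NS_c t b → NS_c s c = NS_c t c →
      NS_c s e = NS_c t e → Q t → Q s := by
    intro t h4 h5 h6 hq
    refine NS_cnt Q hQ hq fun j => ?_
    rcases hJ j with rfl | rfl | rfl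
    · exact h4
    · exact h5
    · exact h6
  have v1 : NS_c ![b, b, c, e] b = 2 ∧ NS_c ![b, b, c, e] c = 1 ∧ NS_c ![b, b, c, e] e = 1 := by
    refine ⟨?_, ?_, ?_⟩ <;> rw [NS_v] <;>
      simp [hbc, hbe, hce, hbc.symm, hbe.symm, hce.symm]
  have v2 : NS_c ![b, e, c, c] b = 1 ∧ NS_c ![b, e, c, c] c = 2 ∧ NS_c ![b, e, c, c] e = 1 := by
    refine ⟨?_, ?_, ?_⟩ <;> rw [NS_v] <;>
      simp [hbc, hbe, hce, hbc.symm, hbe.symm, hce.symm]
  have v3 : NS_c ![b, c, e, e] b = 1 ∧ NS_c ![b, c, e, e] c = 1 ∧ NS_c ![b, c, e, e] e = 2 := by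
    refine ⟨?_, ?_, ?_⟩ <;> rw [NS_v] <;>
      simp [hbc, hbe, hce, hbc.symm, hbe.symm, hce.symm]
  have h6 : (NS_c s b = 2 ∧ NS_c s c = 1 ∧ NS_c s e = 1) ∨
      (NS_c s b = 1 ∧ NS_c s c = 2 ∧ NS_c s e = 1) ∨
      (NS_c s b = 1 ∧ NS_c s c = 1 ∧ NS_c s e = 2) := by omega
  rcases h6 with ⟨h6, h7, h8⟩ | ⟨h6, h7, h8⟩ | ⟨h6, h7, h8⟩
  · exact key _ (by rw [h6, v1.1]) (by rw [h7, v1.2.1]) (by rw [h8, v1.2.2]) h1
  · exact key _ (by rw [h6, v2.1]) (by rw [h7, v2.2.1]) (by rw [h8, v2.2.2]) h2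
  · exact key _ (by rw [h6, v3.1]) (by rw [h7, v3.2.1]) (by rw [h8, v3.2.2]) h3

/-! ### small sums -/

private theorem NS_s1 {J : Type} [DecidableEq J] (g : J → ℕ) (hg : ∀ j, 1 ≤ g j) (S : Finset J)
    (h : ∑ j ∈ S, g j = 1) : ∃ e, S = {e} ∧ g e = 1 := by
  have hne : S.Nonempty := by
    rw [Finset.nonempty_iff_ne_empty]
    rintro rfl
    simp at h
  obtain ⟨e, he⟩ := hne
  have h1 := Finset.add_sum_erase S g he
  have h2 := hg e
  have h3 : ∑ j ∈ S.erase e, g j = 0 := by omega
  have h4 : S.erase e = ∅ := by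
    by_contra hne
    obtain ⟨k, hk⟩ := Finset.nonempty_iff_ne_empty.2 hne
    have h5 := Finset.sum_eq_zero_iff.1 h3 k hk
    have h6 := hg k
    omega
  refine ⟨e, ?_, by omega⟩
  rw [← Finset.insert_erase he, h4]
  rfl

private theorem NS_s2 {J : Type} [DecidableEq J] (g : J → ℕ) (hg : ∀ j, 1 ≤ g j) (S : Finset J)
    (h : ∑ j ∈ S, g j = 2) : (∃ b, S = {b} ∧ g b = 2) ∨
      ∃ y z, y ≠ z ∧ S = {y, z} ∧ g y = 1 ∧ g z = 1 := by
  have hne : S.Nonempty := by
    rw [Finset.nonempty_iff_ne_empty]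
    rintro rfl
    simp at h
  obtain ⟨e, he⟩ := hne
  have h1 := Finset.add_sum_erase S g he
  have h2 := hg e
  by_cases h3 : ∑ j ∈ S.erase e, g j = 0
  · left
    have h4 : S.erase e = ∅ := by
      by_contra hne
      obtain ⟨k, hk⟩ := Finset.nonempty_iff_ne_empty.2 hne
      have h5 := Finset.sum_eq_zero_iff.1 h3 k hk
      have h6 := hg k
      omega
    refine ⟨e, ?_, by omega⟩
    rw [← Finset.insert_erase he, h4]
    rfl
  · right
    obtain ⟨z, hz, hz1⟩ := NS_s1 g hg (S.erase e) (by omega)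
    refine ⟨e, z, ?_, ?_, by omega, hz1⟩
    · rintro rfl
      have h7 : e ∈ S.erase e := by rw [hz]; exact Finset.mem_singleton_self _
      exact (Finset.notMem_erase e S) h7
    · rw [← Finset.insert_erase he, hz]

/-! ### symmetries of the patterns -/

section sym

variable {X : AbVar} {J : Type} {B : J → AbVar} (ι : ∀ j, (B j).H1 → X.H1) (α : X.Class (2 * 2))

private theorem NS_al12 (a c d : J) : Al12 (pat ι α a a c d) := by
  intro x y z w
  have h := AlternatingMap.map_swap α (![ι a x, ι a y, ι c z, ι d w] : Fin (2 * 2) → X.H1)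
    (i := (0 : Fin (2 * 2))) (j := 1) (by decide)
  have e : (![ι a x, ι a y, ι c z, ι d w] : Fin (2 * 2) → X.H1) ∘
      ⇑(Equiv.swap (0 : Fin (2 * 2)) 1) = ![ι a y, ι a x, ι c z, ι d w] := by
    funext i
    fin_cases i <;> rfl
  rw [e] at h
  exact h

private theorem NS_al23 (a c d : J) : Al23 (pat ι α c a a d) := by
  intro z x y w
  have h := AlternatingMap.map_swap α (![ι c z, ι a x, ι a y, ι d w] : Fin (2 * 2) → X.H1)
    (i := (1 : Fin (2 * 2))) (j := 2) (by decide)
  have e : (![ι c z, ι a x, ι a y, ι d w] : Fin (2 * 2) → X.H1) ∘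
      ⇑(Equiv.swap (1 : Fin (2 * 2)) 2) = ![ι c z, ι a y, ι a x, ι d w] := by
    funext i
    fin_cases i <;> rfl
  rw [e] at h
  exact h

private theorem NS_al34 (a c d : J) : Al34 (pat ι α c d a a) := by
  intro z w x y
  have h := AlternatingMap.map_swap α (![ι c z, ι d w, ι a x, ι a y] : Fin (2 * 2) → X.H1)
    (i := (2 : Fin (2 * 2))) (j := 3) (by decide)
  have e : (![ι c z, ι d w, ι a x, ι a y] : Fin (2 * 2) → X.H1) ∘
      ⇑(Equiv.swap (2 : Fin (2 * 2)) 3) = ![ι c z, ι d w, ι a y, ι a x] := by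
    funext i
    fin_cases i <;> rfl
  rw [e] at h
  exact h

end sym

private theorem NS_CMg {A : AbVar} {K : Type} [Field K] [NumberField K] (h : IsCMType A K) :
    finrank ℚ K = 2 * A.g := by
  obtain ⟨_, ⟨C⟩⟩ := h
  exact C.degree

private theorem NS_UFg {A : AbVar} {K : Type} [Field K] [NumberField K] {r : ℕ}
    (F : UF (pData A) K r) : finrank ℚ K * r = 2 * A.g := by
  have h1 := Module.finrank_eq_card_basis F.eb
  rw [Module.finrank_fintype_fun_eq_card, Fintype.card_sum, Fintype.card_fin, Fintype.card_prod,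
    Fintype.card_fin, NumberField.Embeddings.card] at h1
  omega

private theorem NS_simple {X : AbVar} {J : Type} [Fintype J] {B : J → AbVar}
    {ι : ∀ j, (B j).H1 → X.H1} {π : ∀ j, X.H1 → (B j).H1} (D : SDecomp X B ι π) (j : J)
    (hj : ∀ k, k = j) : X.IsSimple := by
  have hx : ∀ x, x = ι j (π j x) := by
    intro x
    have h1 := D.sum x
    rw [Finset.sum_eq_single j (fun k _ hk => absurd (hj k) hk)
      (fun h => absurd (Finset.mem_univ j) h)] at h1
    exact h1.symm
  intro f hf hv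
  have hφ : (B j).IsEnd (fun y => π j (f (ι j y))) :=
    (isEnd_iff _ _).2 (isMor_comp (D.morπ j) (isMor_comp ((isEnd_iff _ _).1 hf) (D.morι j)))
  have hι0 : ι j 0 = 0 := (D.morι j).linear.map_zero
  have hinj := D.simple j _ hφ (by
    obtain ⟨v, hv⟩ := hv
    refine ⟨π j v, fun h0 => hv ?_⟩
    have h1 : π j (f v) = 0 := by
      have h2 : π j (f (ι j (π j v))) = 0 := h0
      rwa [← hx v] at h2
    rw [hx (f v), h1, hι0])
  intro u v huv
  have h1 : π j u = π j v := by
    apply hinj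
    show π j (f (ι j (π j u))) = π j (f (ι j (π j v)))
    rw [← hx u, ← hx v, huv]
  rw [hx u, hx v, h1]

/-! ### the theorem -/

theorem NS_ (hDec : St_Dec) (hSub : St_Sub) (hPH : St_PH) (hEas : St_Eas) (hTyp : St_Typ)
    (hSma : St_Sma) (hQua : St_Qua) (hM8 : St_M8) (hC4 : St_C4) (hC3 : St_C3) (hC2 : St_C2) :
    St_NS := by
  classical
  intro X hX hns hexc α hα
  obtain ⟨J, hJf, B, ι, π, D⟩ := hDec X
  have hS := D.dec
  have hpos : ∀ j, 1 ≤ (B j).g := fun j => Nat.one_le_iff_ne_zero.2 (hS.pos j)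
  -- the dimensions
  have hdim : ∑ j, (B j).g = 5 := by
    obtain ⟨Y, ιY, πY, m1, m2, h1, h2, h3, h4⟩ := hSub X J B ι π D Finset.univ
    have h5 : ∀ x, ιY (πY x) = x := fun x => by rw [h4, hS.sum]
    let il : Y.H1 →ₗ[ℂ] X.H1 := m1.linear.mk' ιY
    have hb : Function.Bijective il :=
      ⟨fun a b hab => by
        have h6 : πY (ιY a) = πY (ιY b) := congrArg πY hab
        rwa [h1, h1] at h6, fun x => ⟨πY x, h5 x⟩⟩
    have h6 := (LinearEquiv.ofBijective il hb).finrank_eq
    rw [finrank_H1, finrank_H1, h2, hX] at h6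
    omega
  obtain ⟨p1, p2, p3, p4, p5⟩ := hPH X J B ι π D α hα
  have hle5 : ∀ j, (B j).g ≤ 5 := fun j => by
    have h := Finset.single_le_sum (f := fun j => (B j).g) (fun _ _ => Nat.zero_le _)
      (Finset.mem_univ j)
    have h' : (B j).g ≤ ∑ j, (B j).g := h
    omega
  have hne5 : ∀ j, (B j).g ≠ 5 := by
    intro j hj
    apply hns
    refine NS_simple hS j fun k => ?_
    by_contra hk
    have h1 := Finset.add_sum_erase Finset.univ (fun j => (B j).g) (Finset.mem_univ j)
    have h2 := Finset.single_le_sum (f := fun j => (B j).g) (fun _ _ => Nat.zero_le _)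
      (Finset.mem_erase.2 ⟨hk, Finset.mem_univ k⟩)
    have h3 : (B j).g + ∑ x ∈ Finset.univ.erase j, (B x).g = ∑ x, (B x).g := h1
    have h4 : (B k).g ≤ ∑ x ∈ Finset.univ.erase j, (B x).g := h2
    have h5 := hpos k
    omega
  -- it is enough to consider surjective patterns
  have hsurj : (∀ s : Fin (2 * 2) → J, Function.Surjective s → PHo ι α s) → X.IsInFil 2 α := by
    intro hs
    refine p1 fun s => ?_
    by_cases h : Function.Surjective s
    · exact hs s h
    · refine p4 s ?_
      have h1 : ∃ j, j ∉ Finset.univ.image s := by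
        by_contra hcon
        push Not at hcon
        apply h
        intro j
        obtain ⟨i, -, hi⟩ := Finset.mem_image.1 (hcon j)
        exact ⟨i, hi⟩
      obtain ⟨j, hj⟩ := h1
      have h2 : ∑ k ∈ insert j (Finset.univ.image s), (B k).g ≤ ∑ k, (B k).g :=
        Finset.sum_le_sum_of_subset (Finset.subset_univ _)
      rw [Finset.sum_insert hj] at h2
      have h3 := hpos j
      omega
  have hmem : ∀ (k : J) (S : Finset J), Finset.univ.erase k = S → ∀ j, j = k ∨ j ∈ S := by
    intro k S hk j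
    by_cases h : j = k
    · exact Or.inl h
    · right
      rw [← hk]
      exact Finset.mem_erase.2 ⟨h, Finset.mem_univ j⟩
  have hnot : ∀ (k : J) (S : Finset J), Finset.univ.erase k = S → ∀ j ∈ S, k ≠ j := by
    rintro k S hk j hj rfl
    rw [← hk] at hj
    exact Finset.notMem_erase k _ hj
  have herase : ∀ k, (B k).g + ∑ x ∈ Finset.univ.erase k, (B x).g = 5 := by
    intro k
    rw [← hdim]
    exact Finset.add_sum_erase Finset.univ (fun j => (B j).g) (Finset.mem_univ k)
  have hinj : ∀ j, Function.Injective (ι j) := fun j a b hab => by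
    have h : π j (ι j a) = π j (ι j b) := congrArg (π j) hab
    rwa [hS.πι, hS.πι] at h
  -- easy patterns
  have e211 : ∀ a b e : J, (B e).g = 1 → PHo ι α ![a, b, e, e] := fun a b e he =>
    p3 _ _ _ _ (hEas.1 _ _ _ _ he (p5 a b e e) (NS_al34 ι α e a b))
  have e13 : ∀ a e : J, (B e).g = 1 → PHo ι α ![a, e, e, e] := fun a e he =>
    p3 _ _ _ _ (hEas.2.1 _ _ _ he (p5 a e e e) (NS_al23 ι α e a e) (NS_al34 ι α e a e))
  have e13' : ∀ a b : J, (B b).g = 2 → PHo ι α ![a, b, b, b] := fun a b hb =>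
    p3 _ _ _ _ (hEas.2.2 _ _ _ hb (p5 a b b b) (NS_al23 ι α b a b) (NS_al34 ι α b a b))
  by_cases hold : ∀ j, (∃ (K : Type) (_ : Field K) (_ : NumberField K), IsRMType (B j) K) ∨
      (∃ (K : Type) (_ : Field K) (_ : NumberField K), IsCMType (B j) K) ∨
      (B j).IsGenericSurface
  · by_cases hbad : ∀ j k, Hom0 (B j) (B k) →
        ∀ (K K' : Type) [Field K] [NumberField K] [Field K'] [NumberField K'],
        IsCMType (B j) K → IsCMType (B k) K' → ¬ BadPair K K'
    · exact hM8 X J B ι π D hX.le hold hbad 2 α hα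
    · push Not at hbad
      obtain ⟨b, c, h0, K, K', _, _, _, _, hK, hK', hbp⟩ := hbad
      have gb : (B b).g = 2 := by
        have h1 := NS_CMg hK
        rw [hbp.1] at h1
        omega
      have gc : (B c).g = 2 := by
        have h1 := NS_CMg hK'
        rw [hbp.2.1] at h1
        omega
      have hbc : b ≠ c := by
        rintro rfl
        have h1 := h0 _ (isMor_id (B b))
        have h2 : finrank ℂ (B b).H1 = 0 := by
          have : Subsingleton (B b).H1 := ⟨fun x y => by rw [h1 x, h1 y]⟩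
          exact Module.finrank_zero_of_subsingleton
        rw [finrank_H1, gb] at h2
        omega
      have h1 := herase b
      have hcm : c ∈ (Finset.univ : Finset J).erase b :=
        Finset.mem_erase.2 ⟨hbc.symm, Finset.mem_univ c⟩
      have h2 : (B c).g + ∑ x ∈ (Finset.univ.erase b).erase c, (B x).g =
          ∑ x ∈ Finset.univ.erase b, (B x).g :=
        Finset.add_sum_erase _ (fun j => (B j).g) hcm
      obtain ⟨e, he, ge⟩ := NS_s1 (fun j => (B j).g) hpos ((Finset.univ.erase b).erase c)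
        (by omega)
      have heb : e ∈ (Finset.univ.erase b).erase c := by
        rw [he]; exact Finset.mem_singleton_self _
      have hce : c ≠ e := fun h => (Finset.mem_erase.1 heb).1 h.symm
      have hbe : b ≠ e := fun h => (Finset.mem_erase.1 (Finset.mem_erase.1 heb).2).1 h.symm
      have hJ3 : ∀ j, j = b ∨ j = c ∨ j = e := by
        intro j
        by_cases h3 : j = b
        · exact Or.inl h3
        by_cases h4 : j = c
        · exact Or.inr (Or.inl h4)
        right; right
        have h5 : j ∈ (Finset.univ.erase b).erase c :=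
          Finset.mem_erase.2 ⟨h4, Finset.mem_erase.2 ⟨h3, Finset.mem_univ j⟩⟩
        rw [he] at h5
        exact Finset.mem_singleton.1 h5
      have hbp' : BadPair K' K := ⟨hbp.2.1, hbp.1, hbp.2.2.2.1, hbp.2.2.1, hbp.2.2.2.2.symm⟩
      have q1 : PHo ι α ![b, b, c, e] :=
        p3 _ _ _ _ (hC2 (B b) (B c) (B e) K K' (hS.simple b) (hS.simple c) (hS.simple e) ge hK hK'
          hbp _ (p5 b b c e))
      have q2 : PHo ι α ![c, c, b, e] :=
        p3 _ _ _ _ (hC2 (B c) (B b) (B e) K' K (hS.simple c) (hS.simple b) (hS.simple e) ge hK' hK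
          hbp' _ (p5 c c b e))
      refine hsurj (NS_three (PHo ι α) p2 hbc hbe hce hJ3 q1 ?_ (e211 b c e ge))
      refine NS_cnt (PHo ι α) p2 q2 fun j => ?_
      rw [NS_v, NS_v]
      ring
  · push Not at hold
    obtain ⟨a, ha1, ha2, ha3⟩ := hold
    have hTa := hTyp (B a) (hS.simple a) (hS.pos a) (hle5 a)
    -- the two cases
    have hcase : ((B a).g = 3 ∧ ∃ (K : Type) (_ : Field K) (_ : NumberField K),
        ((Nonempty (UF (pData (B a)) K 6) ∧ finrank ℚ K = 1) ∨
          (Nonempty (UF (pData (B a)) K 3) ∧ finrank ℚ K = 2 ∧ Cx K)) ∧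
        (Nonempty (UF (pData (B a)) K 3) → ∃ d, (B a).IsQuadEnd d)) ∨
        ((B a).g = 4 ∧ ∃ (K : Type) (_ : Field K) (_ : NumberField K),
        (Nonempty (UF (pData (B a)) K 8) ∧ finrank ℚ K = 1) ∨
        (Nonempty (UF (pData (B a)) K 4) ∧ finrank ℚ K = 2 ∧ (Re K ∨ Cx K)) ∨
        (Nonempty (UF (pData (B a)) K 2) ∧ finrank ℚ K = 4 ∧ Cx K)) := by
      rcases hTa with h | h | h | ⟨h, K, _, _, h'⟩ | ⟨h, hd, K, _, _, h'⟩ | h | h | h
      · obtain ⟨K, i1, i2, h⟩ := h
        exact absurd h (ha1 K i1 i2)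
      · obtain ⟨K, i1, i2, h⟩ := h
        exact absurd h (ha2 K i1 i2)
      · exact absurd h ha3
      · refine Or.inl ⟨h, K, inferInstance, inferInstance, Or.inl h', ?_⟩
        rintro ⟨F⟩
        have h1 := NS_UFg F
        rw [h'.2, h] at h1
        omega
      · exact Or.inl ⟨h, K, inferInstance, inferInstance, Or.inr h', fun _ => hd⟩
      · exact Or.inr h
      · exact absurd h.1 (hne5 a)
      · exact absurd h.1 (hne5 a)
    rcases hcase with ⟨ga, K, _, _, hK, hQE⟩ | ⟨ga, hK⟩
    · -- dimension three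
      have h1 := herase a
      rcases NS_s2 (fun j => (B j).g) hpos (Finset.univ.erase a) (by omega) with
        ⟨b, hb, gb⟩ | ⟨y, z, hyz, hyzS, gy, gz⟩
      · have hab : a ≠ b := hnot a _ hb b (Finset.mem_singleton_self b)
        have hJ2 : ∀ j, j = a ∨ j = b := fun j =>
          (hmem a _ hb j).imp id Finset.mem_singleton.1
        have hq : Nonempty (UF (pData (B a)) K 3) → ¬ (B b).IsQuatSurface := by
          intro hF hqs
          exact hexc ⟨hX, Or.inr (Or.inr ⟨B a, B b, hS.simple a, ga, hQE hF, hqs,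
            ⟨ι a, hS.morι a, hinj a⟩, ⟨ι b, hS.morι b, hinj b⟩⟩)⟩
        have h2 := (hC3 (B a) (hS.simple a) ga K hK).2 (B b) (hS.simple b) gb hq
        exact hsurj (NS_two (PHo ι α) p2 hab hJ2
          (p3 _ _ _ _ (h2.2 _ (p5 a a a b) (NS_al12 ι α a a b) (NS_al23 ι α a a b)))
          (p3 _ _ _ _ (h2.1 _ (p5 a a b b) (NS_al12 ι α a b b) (NS_al34 ι α b a a)))
          (e13' a b gb))
      · have hay : a ≠ y := hnot a _ hyzS y (by simp)
        have haz : a ≠ z := hnot a _ hyzS z (by simp)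
        have hJ3 : ∀ j, j = a ∨ j = y ∨ j = z := fun j =>
          (hmem a _ hyzS j).imp id (fun h => by simpa using h)
        have hq : Nonempty (UF (pData (B a)) K 3) → Isog (B y) (B z) →
            ∃ (K' : Type) (_ : Field K') (_ : NumberField K'), IsCMType (B y) K' := by
          intro hF hiso
          by_contra hcm
          obtain ⟨L, _, _, h | h | h⟩ := hSma (B y) (hS.simple y) (Or.inl gy)
          · exact hcm ⟨L, inferInstance, inferInstance, h.2.2⟩
          · obtain ⟨⟨F, hF'⟩, hL, -, -⟩ := h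
            have hend : ∀ f, (B y).IsEnd f → ∃ q : ℚ, ∀ v, f v = (q : ℂ) • v := by
              rcases hF' with hE | hE
              · intro f hf
                obtain ⟨x, hx⟩ := hE f hf
                rw [gy] at hL
                obtain ⟨q, hq⟩ : ∃ q : ℚ, algebraMap ℚ L q = x := by
                  have h3 : (⊥ : Subalgebra ℚ L) = ⊤ :=
                    Subalgebra.bot_eq_top_iff_finrank_eq_one.2 hL
                  have h4 : x ∈ (⊥ : Subalgebra ℚ L) := by rw [h3]; trivial
                  exact Algebra.mem_bot.1 h4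
                refine ⟨q, fun v => ?_⟩
                rw [hx v, ← hq]
                have h5 : F.ρ (algebraMap ℚ L q) = (q : ℂ) • F.ρ 1 := by
                  rw [Algebra.algebraMap_eq_smul_one]
                  exact rho_ratsmul F.ρ q 1
                rw [h5, map_one]
                rfl
              · exfalso
                have h3 := hE.1
                omega
            obtain ⟨Y, f, hf, hfi, hYq⟩ := hQua X J B ι π D y z hyz gy gz hend hiso
            exact hexc ⟨hX, Or.inr (Or.inr ⟨B a, Y, hS.simple a, ga, hQE hF, hYq,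
              ⟨ι a, hS.morι a, hinj a⟩, ⟨f, hf, hfi⟩⟩)⟩
          · have h3 := h.2.2.1
            omega
        have h2 := (hC3 (B a) (hS.simple a) ga K hK).1 (B y) (B z) (hS.simple y) (hS.simple z) gy
          gz hq
        exact hsurj (NS_three (PHo ι α) p2 hay haz hyz hJ3
          (p3 _ _ _ _ (h2 _ (p5 a a y z) (NS_al12 ι α a y z)))
          (e211 a z y gy) (e211 a y z gz))
    · -- dimension four
      have h1 := herase a
      obtain ⟨e, he, ge⟩ := NS_s1 (fun j => (B j).g) hpos (Finset.univ.erase a) (by omega)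
      have hae : a ≠ e := hnot a _ he e (Finset.mem_singleton_self e)
      have hJ2 : ∀ j, j = a ∨ j = e := fun j =>
        (hmem a _ he j).imp id Finset.mem_singleton.1
      exact hsurj (NS_two (PHo ι α) p2 hae hJ2
        (p3 _ _ _ _ (hC4 (B a) (B e) (hS.simple a) (hS.simple e) ga ge hK _ (p5 a a a e)
          (NS_al12 ι α a a e) (NS_al23 ι α a a e)))
        (e211 a a e ge) (e13 a e ge))

end Pool.Agent.D5
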