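import Pool.Agent.D5.StN

/-!
# D5: NG, a threefold and a generic surface (helper65)
-/

set_option autoImplicit false

namespace Pool.Agent.D5

open Module NumberField LieAlgebra
open Pool.Agent.Helper7 Pool.Agent.GPC Pool.Agent.Helper24
open Pool.Agent.Helper8 (ML2 ML4 Inv2 Inv4 Symp Principal)

attribute [local instance 100] LieRing.ofAssociativeRing

/-- a number field of degree one has one embedding -/
private theorem NG_emb {K : Type} [Field K] [NumberField K] (h : finrank ℚ K = 1)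
    (s t : K →+* ℂ) : s = t := by
  have h1 : Fintype.card (K →+* ℂ) = 1 := by
    rw [NumberField.Embeddings.card K ℂ, h]
  exact Fintype.card_le_one_iff.1 h1.le s t

/-- the embeddings of an imaginary quadratic field -/
private theorem NG_emb2 {K : Type} [Field K] [NumberField K] (h : finrank ℚ K = 2) (hC : Cx K)
    (s t : K →+* ℂ) : t = s ∨ t = ComplexEmbedding.conjugate s := by
  classical
  have h1 : Fintype.card (K →+* ℂ) = 2 := by
    rw [NumberField.Embeddings.card K ℂ, h]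
  by_contra hn
  push Not at hn
  have h2 : ({s, ComplexEmbedding.conjugate s, t} : Finset (K →+* ℂ)).card = 3 := by
    rw [Finset.card_eq_three]
    exact ⟨s, ComplexEmbedding.conjugate s, t, (hC s).symm, hn.1.symm, hn.2.symm, rfl⟩
  have h3 := Finset.card_le_univ ({s, ComplexEmbedding.conjugate s, t} : Finset (K →+* ℂ))
  rw [h1, h2] at h3
  omega

section fam

variable {I : Type} [Fintype I] [DecidableEq I] (A : I → AbVar)
  {K : I → Type} [∀ i, Field (K i)] [∀ i, NumberField (K i)] {r : I → ℕ}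
  (F : ∀ i, UF (pData (A i)) (K i) (r i)) {a' b' c' d' : I}
  {G : (A a').H1 → (A b').H1 → (A c').H1 → (A d').H1 → ℂ} (hG : Gr4 (A a') (A b') (A c') (A d') G)

/-- the symplectic algebra of the generic surface is given by elements which act trivially on the
threefold -/
private theorem NG_core (hSpU : St_SpU) (hFul : St_Ful) (hpos : ∀ i, 0 < r i)
    (D : FrD A F hG) {a b : I}
    (ha : (r a = 6 ∧ finrank ℚ (K a) = 1) ∨ (r a = 3 ∧ finrank ℚ (K a) = 2 ∧ Cx (K a)))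
    (hgen : (A b).IsGenericSurface) (hb1 : finrank ℚ (K b) = 1) (hb4 : r b = 4)
    (σ : K a →+* ℂ) (τ : K b →+* ℂ) (Y : Module.End ℂ (VG A F hG.ml ⟨b, τ⟩))
    (hY : ∀ u v, bp (n1 I) (PA A) F (aG A a' b' c' d' G hG.ml) b τ τ (Y u) v +
      bp (n1 I) (PA A) F (aG A a' b' c' d' G hG.ml) b τ τ u (Y v) = 0) :
    ∃ x : LG A F hG.ml, (∀ (s : K a →+* ℂ) (v : VG A F hG.ml ⟨a, s⟩), ⁅x, v⁆ = 0) ∧
      ∀ v : VG A F hG.ml ⟨b, τ⟩, ⁅x, v⁆ = Y v := by
  have hk : IsKilling ℂ (LG A F hG.ml) := D.kill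
  have i1 : LieModule.IsIrreducible ℂ (LG A F hG.ml) (VG A F hG.ml ⟨a, σ⟩) := D.irr _
  have i2 : LieModule.IsIrreducible ℂ (LG A F hG.ml) (VG A F hG.ml ⟨b, τ⟩) := D.irr _
  have h1 := hFul (LG A F hG.ml) (VG A F hG.ml ⟨a, σ⟩) (VG A F hG.ml ⟨b, τ⟩)
    (bp (n1 I) (PA A) F (aG A a' b' c' d' G hG.ml) b τ τ)
    (bp_symp (n1 I) (PA A) F (aG A a' b' c' d' G hG.ml) hpos b τ (NG_emb hb1 _ _))
    ((D.rank ⟨b, τ⟩).trans hb4) (D.tr _)
    (by
      rcases ha with ⟨h6, h1⟩ | ⟨h3, -, -⟩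
      · exact Or.inr ⟨(D.rank ⟨a, σ⟩).trans h6, _,
          bp_symp (n1 I) (PA A) F (aG A a' b' c' d' G hG.ml) hpos a σ (NG_emb h1 _ _)⟩
      · exact Or.inl ((D.rank ⟨a, σ⟩).trans h3))
    (hSpU I A (n1 I) K r F 2 (aG A a' b' c' d' G hG.ml) D.hB D.hA hpos b hgen hb1 hb4 τ) Y hY
  obtain ⟨x, hx1, hx2⟩ := h1
  refine ⟨x, fun s v => ?_, hx2⟩
  rcases ha with ⟨-, h1⟩ | ⟨-, h2, hC⟩
  · obtain rfl : σ = s := NG_emb h1 _ _
    exact hx1 v
  · rcases NG_emb2 h2 hC σ s with rfl | rfl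
    · exact hx1 v
    · refine bp_ndr (n1 I) (PA A) F (aG A a' b' c' d' G hG.ml) a σ _ rfl _ fun u => ?_
      have h3 := bp_inv (n1 I) (PA A) F (aG A a' b' c' d' G hG.ml) hpos a σ x u v
      rw [hx1 u, map_zero, LinearMap.zero_apply, zero_add] at h3
      exact h3

end fam

/-- second part -/
private theorem NG_second (hF : St_Fr) (hSpU : St_SpU) (hFul : St_Ful) (hSp : St_Sp)
    {I : Type} [Fintype I] [DecidableEq I] (A : I → AbVar) (K : I → Type)
    [∀ i, Field (K i)] [∀ i, NumberField (K i)] (r : I → ℕ)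
    (F : ∀ i, UF (pData (A i)) (K i) (r i)) (a b : I) (hpos : ∀ i, 0 < r i)
    (ha : (r a = 6 ∧ finrank ℚ (K a) = 1) ∨ (r a = 3 ∧ finrank ℚ (K a) = 2 ∧ Cx (K a)))
    (hgen : (A b).IsGenericSurface) (hb1 : finrank ℚ (K b) = 1) (hb4 : r b = 4)
    (σ : K a →+* ℂ)
    (G : (A a).H1 → (A a).H1 → (A a).H1 → (A b).H1 → ℂ) (hG : Gr4 (A a) (A a) (A a) (A b) G) :
    ∀ x y z w, G x y z w = 0 := by
  have D := hF I A K r F a a a b G hG hpos
  refine D.zero ?_
  intro s1 s2 s3 τ x y z w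
  have hsy := bp_symp (n1 I) (PA A) F (aG A a a a b G hG.ml) hpos b τ (NG_emb hb1 _ _)
  refine (hSp (VG A F hG.ml ⟨b, τ⟩) _ hsy.alt hsy.nd).1 (fun w =>
      cG A F hG.ml s1 s2 s3 τ x y z w) ((D.ml s1 s2 s3 τ).l4 x y z) (fun Y hY v => ?_) w
  obtain ⟨t, ht1, ht2⟩ := NG_core A F hG hSpU hFul hpos D ha hgen hb1 hb4 σ τ Y hY
  have h1 := D.inv s1 s2 s3 τ t x y z v
  have e1 : cG A F hG.ml s1 s2 s3 τ ⁅t, x⁆ y z v = 0 := by
    rw [ht1 s1 x]
    exact ((D.ml s1 s2 s3 τ).l1 y z v).map_zero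
  have e2 : cG A F hG.ml s1 s2 s3 τ x ⁅t, y⁆ z v = 0 := by
    rw [ht1 s2 y]
    exact ((D.ml s1 s2 s3 τ).l2 x z v).map_zero
  have e3 : cG A F hG.ml s1 s2 s3 τ x y ⁅t, z⁆ v = 0 := by
    rw [ht1 s3 z]
    exact ((D.ml s1 s2 s3 τ).l3 x y v).map_zero
  rw [e1, e2, e3, ht2 v, zero_add, zero_add, zero_add] at h1
  exact h1

/-- [NG] -/
theorem NG_ (hF : St_Fr) (hSpl : St_Spl) (hSpU : St_SpU) (hFul : St_Ful) (hSp : St_Sp)
    (hDua : St_Dua) : St_NG := by
  intro I _ _ A K _ _ r F a b hpos ha hgen hb1 hb4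
  obtain ⟨σ⟩ : Nonempty (K a →+* ℂ) := inferInstance
  refine ⟨fun G hG h12 => ?_, fun G hG => ?_⟩
  · have D := hF I A K r F a a b b G hG hpos
    have hk : IsKilling ℂ (LG A F hG.ml) := D.kill
    refine hSpl I A K r F a b b G hG fun τ τ' z w => ?_
    obtain rfl : τ = τ' := NG_emb hb1 _ _
    have i2 : LieModule.IsIrreducible ℂ (LG A F hG.ml) (VG A F hG.ml ⟨b, τ⟩) := D.irr _
    have hsy := bp_symp (n1 I) (PA A) F (aG A a a b b G hG.ml) hpos b τ (NG_emb hb1 _ _)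
    have hfin : finrank ℂ (VG A F hG.ml ⟨b, τ⟩) = 4 := (D.rank ⟨b, τ⟩).trans hb4
    set ω := bp (n1 I) (PA A) F (aG A a a b b G hG.ml) b τ τ with hω
    have hpart : ∀ (s1 s2 : K a →+* ℂ) (x : VG A F hG.ml ⟨a, s1⟩) (y : VG A F hG.ml ⟨a, s2⟩),
        ∃ c : ℂ, ∀ z w, cG A F hG.ml s1 s2 τ τ x y z w = c * ω z w := by
      intro s1 s2 x y
      refine (hSp (VG A F hG.ml ⟨b, τ⟩) ω hsy.alt hsy.nd).2 (fun z w =>
        cG A F hG.ml s1 s2 τ τ x y z w) ⟨fun w => (D.ml s1 s2 τ τ).l3 x y w,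
          fun z => (D.ml s1 s2 τ τ).l4 x y z⟩ fun Y hY u v => ?_
      obtain ⟨t, ht1, ht2⟩ := NG_core A F hG hSpU hFul hpos D ha hgen hb1 hb4 σ τ Y hY
      have h1 := D.inv s1 s2 τ τ t x y u v
      have e1 : cG A F hG.ml s1 s2 τ τ ⁅t, x⁆ y u v = 0 := by
        rw [ht1 s1 x]
        exact ((D.ml s1 s2 τ τ).l1 y u v).map_zero
      have e2 : cG A F hG.ml s1 s2 τ τ x ⁅t, y⁆ u v = 0 := by
        rw [ht1 s2 y]
        exact ((D.ml s1 s2 τ τ).l2 x u v).map_zero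
      rw [e1, e2, ht2 u, ht2 v, zero_add, zero_add] at h1
      exact h1
    obtain ⟨z0, w0, hzw⟩ : ∃ z0 w0, ω z0 w0 = 1 := by
      have : Nontrivial (VG A F hG.ml ⟨b, τ⟩) := by
        apply Module.nontrivial_of_finrank_pos (R := ℂ)
        rw [hfin]
        norm_num
      obtain ⟨z0, hz0⟩ := exists_ne (0 : VG A F hG.ml ⟨b, τ⟩)
      by_contra hn
      push Not at hn
      refine hz0 (hsy.nd z0 fun y => ?_)
      by_contra hy
      refine hn z0 ((ω z0 y)⁻¹ • y) ?_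
      rw [map_smul, smul_eq_mul, inv_mul_cancel₀ hy]
    have hbeta : ∀ (s1 s2 : K a →+* ℂ) (x : VG A F hG.ml ⟨a, s1⟩) (y : VG A F hG.ml ⟨a, s2⟩)
        (z w : VG A F hG.ml ⟨b, τ⟩),
        cG A F hG.ml s1 s2 τ τ x y z w = cG A F hG.ml s1 s2 τ τ x y z0 w0 * ω z w := by
      intro s1 s2 x y z w
      obtain ⟨c, hc⟩ := hpart s1 s2 x y
      rw [hc z w, hc z0 w0, hzw, mul_one]
    have hinv : ∀ s1 s2 : K a →+* ℂ, Inv2 (LG A F hG.ml)
        (fun (x : VG A F hG.ml ⟨a, s1⟩) (y : VG A F hG.ml ⟨a, s2⟩) =>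
          cG A F hG.ml s1 s2 τ τ x y z0 w0) := by
      intro s1 s2 t x y
      have h1 := D.inv s1 s2 τ τ t x y z0 w0
      have h2 := hsy.inv t z0 w0
      rw [hbeta s1 s2 x y ⁅t, z0⁆ w0, hbeta s1 s2 x y z0 ⁅t, w0⁆] at h1
      show cG A F hG.ml s1 s2 τ τ ⁅t, x⁆ y z0 w0 + cG A F hG.ml s1 s2 τ τ x ⁅t, y⁆ z0 w0 = 0
      rw [h2] at h1
      linear_combination h1
    have hml : ∀ s1 s2 : K a →+* ℂ, ML2
        (fun (x : VG A F hG.ml ⟨a, s1⟩) (y : VG A F hG.ml ⟨a, s2⟩) =>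
          cG A F hG.ml s1 s2 τ τ x y z0 w0) := fun s1 s2 =>
      ⟨fun y => (D.ml s1 s2 τ τ).l1 y z0 w0, fun x => (D.ml s1 s2 τ τ).l2 x z0 w0⟩
    have i1 : LieModule.IsIrreducible ℂ (LG A F hG.ml) (VG A F hG.ml ⟨a, σ⟩) := D.irr _
    obtain ⟨c, hc⟩ := (hDua (LG A F hG.ml) (VG A F hG.ml ⟨a, σ⟩)
      (VG A F hG.ml ⟨a, ComplexEmbedding.conjugate σ⟩)).1
      (bp (n1 I) (PA A) F (aG A a a b b G hG.ml) a σ (ComplexEmbedding.conjugate σ))
      (bp_pair (n1 I) (PA A) F (aG A a a b b G hG.ml) hpos a σ) _ (hml σ _) (hinv σ _)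
    have hfl : ∀ (s1 s2 : K a →+* ℂ) (x : VG A F hG.ml ⟨a, s1⟩) (y : VG A F hG.ml ⟨a, s2⟩),
        cG A F hG.ml s2 s1 τ τ y x z0 w0 = - cG A F hG.ml s1 s2 τ τ x y z0 w0 :=
      fun s1 s2 x y => h12 _ _ _ _
    have key : ∀ (s1 s2 : K a →+* ℂ) (x : VG A F hG.ml ⟨a, s1⟩) (y : VG A F hG.ml ⟨a, s2⟩),
        cG A F hG.ml s1 s2 τ τ x y z0 w0 =
          c * (pData (A a)).ψ ((x : MM (kap A)) a) ((y : MM (kap A)) a) := by
      intro s1 s2 x y
      rcases ha with ⟨-, h1⟩ | ⟨h3, h2, hC⟩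
      · obtain rfl : σ = s1 := NG_emb h1 _ _
        obtain rfl : ComplexEmbedding.conjugate σ = s2 := NG_emb h1 _ _
        exact hc x y
      · have hsame : ∀ (s : K a →+* ℂ) (x y : VG A F hG.ml ⟨a, s⟩),
            cG A F hG.ml s s τ τ x y z0 w0 =
              c * (pData (A a)).ψ ((x : MM (kap A)) a) ((y : MM (kap A)) a) := by
          intro s x y
          have i3 : LieModule.IsIrreducible ℂ (LG A F hG.ml) (VG A F hG.ml ⟨a, s⟩) := D.irr _
          have h4 := (hDua (LG A F hG.ml) (VG A F hG.ml ⟨a, s⟩) (VG A F hG.ml ⟨a, s⟩)).2.1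
            (by
              rw [D.rank ⟨a, s⟩]
              show Odd (r a)
              rw [h3]
              decide) _ (hml s s) (hinv s s) (fun x y => by
                have := hfl s s x y
                linear_combination this) x y
          have h5 : (pData (A a)).ψ ((x : MM (kap A)) a) ((y : MM (kap A)) a) = 0 := by
            have hx : proj (F a).ρ s ((x : MM (kap A)) a) = (x : MM (kap A)) a :=
              Vs_proj (n1 I) (PA A) F (aG A a a b b G hG.ml) ⟨a, s⟩ x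
            have hy : proj (F a).ρ s ((y : MM (kap A)) a) = (y : MM (kap A)) a :=
              Vs_proj (n1 I) (PA A) F (aG A a a b b G hG.ml) ⟨a, s⟩ y
            rw [← hx, ← hy]
            exact psi_proj (F a) s s _ _ (hC s).symm
          rw [h5, mul_zero]
          exact h4
        rcases NG_emb2 h2 hC σ s1 with rfl | rfl
        · rcases NG_emb2 h2 hC s1 s2 with rfl | rfl
          · exact hsame _ x y
          · exact hc x y
        · rcases NG_emb2 h2 hC σ s2 with rfl | rfl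
          · have h6 := hfl _ _ y x
            have h7 := hc y x
            have h8 := bp_flip (n1 I) (PA A) F (aG A a a b b G hG.ml) a s2
              (ComplexEmbedding.conjugate s2) y x
            rw [h6]
            have h9 : cG A F hG.ml s2 (ComplexEmbedding.conjugate s2) τ τ y x z0 w0 =
              c * bp (n1 I) (PA A) F (aG A a a b b G hG.ml) a s2
              (ComplexEmbedding.conjugate s2) y x := h7
            rw [h9, h8, mul_neg, neg_neg]
            rfl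
          · exact hsame _ x y
    refine ⟨c * ω z w, fun s1 s2 x y => ?_⟩
    rw [hbeta, key]
    ring
  · exact NG_second hF hSpU hFul hSp A K r F a b hpos ha hgen hb1 hb4 σ G hG

end Pool.Agent.D5
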