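import Pool.Agent.D5.StL

/-!
# D5: the statement [O8]

An alternating invariant function of three vectors of a symplectic irreducible module of dimension
eight and of one vector of the plane vanishes.
-/

set_option autoImplicit false

namespace Pool.Agent.D5

open Module LieAlgebra LieModule
open Pool.Agent.Helper8 (Principal Symp ML2 ML4 Inv2 Inv4 lin_sum)
open Pool.Agent.Helper24 (ProjTriple)

/-- antisymmetric functions of three indices -/
private lemma o8_alt {c : ℕ → ℕ → ℕ → ℂ} (h1 : ∀ i j k, c j i k = - c i j k)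
    (h2 : ∀ i j k, c i k j = - c i j k) (h : ∀ i j k, i < j → j < k → c i j k = 0) (i j k : ℕ) :
    c i j k = 0 := by
  have e1 : ∀ i k, c i i k = 0 := fun i k => by
    have := h1 i i k
    linear_combination (1 / 2) * this
  have e2 : ∀ i j, c i j j = 0 := fun i j => by
    have := h2 i j j
    linear_combination (1 / 2) * this
  rcases lt_trichotomy i j with hij | rfl | hij
  · rcases lt_trichotomy j k with hjk | rfl | hjk
    · exact h i j k hij hjk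
    · exact e2 i j
    · rcases lt_trichotomy i k with hik | rfl | hik
      · rw [h2 i k j, h i k j hik hjk, neg_zero]
      · rw [h2 i i j, e1, neg_zero]
      · rw [h2 i k j, h1 k i j, h k i j hik hij, neg_zero, neg_zero]
  · exact e1 i k
  · rcases lt_trichotomy j k with hjk | rfl | hjk
    · rcases lt_trichotomy i k with hik | rfl | hik
      · rw [h1 j i k, h j i k hij hik, neg_zero]
      · rw [h1 j i i, e2, neg_zero]
      · rw [h1 j i k, h2 j k i, h j k i hjk hik, neg_zero, neg_zero]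
    · exact e2 i j
    · rw [h1 j i k, h2 j k i, h1 k j i, h k j i hjk hij, neg_zero, neg_zero, neg_zero]

/-- the linear equations of the case `(7, 1)` -/
private lemma o8_num {c : ℕ → ℕ → ℕ → ℂ} (h1 : ∀ i j k, c j i k = - c i j k)
    (h2 : ∀ i j k, c i k j = - c i j k) (hs : ∀ i j k, i + j + k ≠ 11 → c i j k = 0)
    (hz : ∀ i j k, 7 < k → c i j k = 0)
    (he : ∀ i j k : ℕ, ((i : ℂ) * (8 - (i : ℂ))) * c (i - 1) j k +
      ((j : ℂ) * (8 - (j : ℂ))) * c i (j - 1) k +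
      ((k : ℂ) * (8 - (k : ℂ))) * c i j (k - 1) = 0) (i j k : ℕ) : c i j k = 0 := by
  have e1 : ∀ i k, c i i k = 0 := fun i k => by
    have := h1 i i k
    linear_combination (1 / 2) * this
  have e2 : ∀ i j, c i j j = 0 := fun i j => by
    have := h2 i j j
    linear_combination (1 / 2) * this
  have a1 := he 0 5 7
  have a2 := he 1 4 7
  have a3 := he 1 5 6
  have a4 := he 2 3 7
  have a5 := he 2 4 6
  have a6 := he 3 4 5
  norm_num [e1, e2] at a1 a2 a3 a4 a5 a6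
  have b0 : c 2 4 5 = 0 := a6
  have b1 : c 0 4 7 = 0 := by
    linear_combination (1 / 36 : ℂ) * (a5 - (12 / 15) * (a3 - a1) - (16 / 7) * a4 +
      (12 / 7) * (a2 - (7 / 15) * (a3 - a1)) - 12 * b0)
  have b2 : c 0 5 6 = 0 := by linear_combination (1 / 7 : ℂ) * (a1 - 15 * b1)
  have b3 : c 1 4 6 = 0 := by linear_combination (1 / 15 : ℂ) * (a3 - 7 * b2)
  have b4 : c 1 3 7 = 0 := by linear_combination (1 / 16 : ℂ) * (a2 - 7 * b1 - 7 * b3)
  have b5 : c 2 3 6 = 0 := by linear_combination (1 / 7 : ℂ) * (a4 - 12 * b4)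
  refine o8_alt h1 h2 (fun i j k hij hjk => ?_) i j k
  by_cases hk : 7 < k
  · exact hz i j k hk
  by_cases hsum : i + j + k = 11
  · have h8 : (i = 0 ∧ j = 4 ∧ k = 7) ∨ (i = 0 ∧ j = 5 ∧ k = 6) ∨ (i = 1 ∧ j = 3 ∧ k = 7) ∨
        (i = 1 ∧ j = 4 ∧ k = 6) ∨ (i = 2 ∧ j = 3 ∧ k = 6) ∨ (i = 2 ∧ j = 4 ∧ k = 5) := by omega
    rcases h8 with ⟨rfl, rfl, rfl⟩ | ⟨rfl, rfl, rfl⟩ | ⟨rfl, rfl, rfl⟩ | ⟨rfl, rfl, rfl⟩ |
      ⟨rfl, rfl, rfl⟩ | ⟨rfl, rfl, rfl⟩
    · exact b1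
    · exact b2
    · exact b4
    · exact b3
    · exact b5
    · exact b0
  · exact hs i j k hsum

/-- ideals of Killing Lie algebras are Killing -/
private lemma o8_kill {L : Type} [LieRing L] [LieAlgebra ℂ L] [FiniteDimensional ℂ L]
    [IsKilling ℂ L] (J N : LieIdeal ℂ L) (sup : J ⊔ N = ⊤)
    (comm : ∀ x ∈ J, ∀ y ∈ N, ⁅x, y⁆ = 0) : IsKilling ℂ N := by
  constructor
  rw [eq_bot_iff]
  intro x hx
  rw [LieIdeal.mem_killingCompl] at hx
  have hx' : ∀ y ∈ N, killingForm ℂ L y x = 0 := by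
    intro y hy
    have h1 := hx ⟨y, hy⟩ (LieSubmodule.mem_top _)
    rw [LieIdeal.killingForm_eq] at h1
    exact h1
  have hall : ∀ y : L, killingForm ℂ L y x = 0 := by
    intro y
    have hy : y ∈ J ⊔ N := by rw [sup]; exact LieSubmodule.mem_top y
    obtain ⟨a, ha, b, hb, rfl⟩ := (LieSubmodule.mem_sup _ _ _).mp hy
    rw [map_add, LinearMap.add_apply, hx' b hb, add_zero, killingForm_apply_apply]
    have h0 : (ad ℂ L a) ∘ₗ (ad ℂ L (x : L)) = 0 := by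
      ext z
      simp only [LinearMap.comp_apply, ad_apply, LinearMap.zero_apply]
      exact comm a ha _ (lie_mem_left ℂ L N x z x.2)
    rw [h0, map_zero]
  have h3 : (x : L) = 0 := by
    have h4 := (IsKilling.killingForm_nondegenerate ℂ L).2 (x : L) hall
    exact h4
  rw [LieSubmodule.mem_bot]
  exact Subtype.ext h3

/-- the case `(7, 1)` -/
private lemma o8_71 {L W V : Type} [LieRing L] [LieAlgebra ℂ L]
    [AddCommGroup W] [Module ℂ W] [LieRingModule L W] [LieModule ℂ L W]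
    [AddCommGroup V] [Module ℂ V] [LieRingModule L V] [LieModule ℂ L V] [FiniteDimensional ℂ V]
    (S : SlI L W) {U : Submodule ℂ V} (T : TopJ S V 7 U) (hU : finrank ℂ U = 1)
    (G : V → V → V → W → ℂ) (hG : ML4 G) (hI : Inv4 L G)
    (h1 : ∀ x y z w, G y x z w = - G x y z w) (h2 : ∀ x y z w, G x z y w = - G x y z w)
    (x y z : V) : G x y z S.w0 = 0 := by
  obtain ⟨v, hv0, hv⟩ := finrank_eq_one_iff'.mp hU
  set F : ℕ → V := fun j => fpow S V j v with hF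
  have hFh : ∀ j, ⁅S.h, F j⁆ = ((7 : ℂ) - 2 * j) • F j := fun j => T.hf v v.2 j
  have hFe : ∀ j : ℕ, ⁅S.e, F j⁆ = ((j : ℂ) * (8 - (j : ℂ))) • F (j - 1) := by
    intro j
    rcases j with - | j
    · have h3 : F 0 = v := by rw [hF]; simp [fpow]
      rw [h3, T.eU v v.2]
      simp
    · have h3 := T.ef v v.2 j
      rw [Nat.add_sub_cancel]
      rw [hF]
      dsimp only
      rw [h3]
      congr 1
      push_cast
      ring
  have hFz : ∀ j, 7 < j → F j = 0 := fun j hj => T.fz v v.2 j hj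
  have hspan : ∀ x : V, ∃ a : Fin 8 → ℂ, x = ∑ j : Fin 8, a j • F (j : ℕ) := by
    intro x
    obtain ⟨u, hu, hx⟩ := T.span x
    have h3 : ∀ j, ∃ a : ℂ, a • v = (⟨u j, hu j⟩ : U) := fun j => hv _
    choose a ha using h3
    refine ⟨a, ?_⟩
    rw [hx]
    refine Finset.sum_congr rfl fun j _ => ?_
    have h4 : u j = a j • (v : V) := (congrArg Subtype.val (ha j)).symm
    rw [h4, map_smul]
  have hc : ∀ i j k : ℕ, G (F i) (F j) (F k) S.w0 = 0 := by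
    refine o8_num (c := fun i j k => G (F i) (F j) (F k) S.w0) (fun i j k => h1 _ _ _ _)
      (fun i j k => h2 _ _ _ _) ?_ ?_ ?_
    · intro i j k hs
      have h3 := hI S.h (F i) (F j) (F k) S.w0
      rw [hFh, hFh, hFh, S.h0, (hG.l1 _ _ _).map_smul, (hG.l2 _ _ _).map_smul,
        (hG.l3 _ _ _).map_smul] at h3
      simp only [smul_eq_mul] at h3
      have h4 : ((22 : ℂ) - 2 * ((i + j + k : ℕ) : ℂ)) * G (F i) (F j) (F k) S.w0 = 0 := by
        push_cast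
        linear_combination h3
      rcases mul_eq_zero.mp h4 with h5 | h5
      · exfalso
        apply hs
        have h6 : ((i + j + k : ℕ) : ℂ) = ((11 : ℕ) : ℂ) := by
          push_cast
          push_cast at h5
          linear_combination (-1 / 2 : ℂ) * h5
        exact_mod_cast h6
      · exact h5
    · intro i j k hk
      rw [hFz k hk]
      exact (hG.l3 _ _ _).map_zero
    · intro i j k
      have h3 := hI S.e (F i) (F j) (F k) S.w0
      rw [hFe, hFe, hFe, S.e0, (hG.l1 _ _ _).map_smul, (hG.l2 _ _ _).map_smul,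
        (hG.l3 _ _ _).map_smul] at h3
      have h4 : G (F i) (F j) (F k) (0 : W) = 0 := (hG.l4 _ _ _).map_zero
      rw [h4, add_zero] at h3
      exact h3
  have s3 : ∀ (i j : ℕ) (z : V), G (F i) (F j) z S.w0 = 0 := by
    intro i j z
    obtain ⟨a, rfl⟩ := hspan z
    rw [lin_sum (g := fun z => G (F i) (F j) z S.w0) (hG.l3 _ _ _)]
    exact Finset.sum_eq_zero fun k _ => by rw [hc, mul_zero]
  have s2 : ∀ (i : ℕ) (y z : V), G (F i) y z S.w0 = 0 := by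
    intro i y z
    obtain ⟨a, rfl⟩ := hspan y
    rw [lin_sum (g := fun y => G (F i) y z S.w0) (hG.l2 _ _ _)]
    exact Finset.sum_eq_zero fun k _ => by rw [s3, mul_zero]
  obtain ⟨a, rfl⟩ := hspan x
  rw [lin_sum (g := fun x => G x y z S.w0) (hG.l1 _ _ _)]
  exact Finset.sum_eq_zero fun k _ => by rw [s2, mul_zero]

/-- the case `(1, 4)` -/
private lemma o8_14 (H : St_V4) {L W V : Type} [LieRing L] [LieAlgebra ℂ L]
    [FiniteDimensional ℂ L] [IsKilling ℂ L]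
    [AddCommGroup W] [Module ℂ W] [LieRingModule L W] [LieModule ℂ L W]
    [AddCommGroup V] [Module ℂ V] [LieRingModule L V] [LieModule ℂ L V] [FiniteDimensional ℂ V]
    (S : SlI L W) (ω : V →ₗ[ℂ] V →ₗ[ℂ] ℂ) (hω : Symp L ω) {U : Submodule ℂ V}
    (T : TopJ S V 1 U) (hU : finrank ℂ U = 4)
    (G : V → V → V → W → ℂ) (hG : ML4 G) (hI : Inv4 L G)
    (h1 : ∀ x y z w, G y x z w = - G x y z w) (h2 : ∀ x y z w, G x z y w = - G x y z w)
    (x y z : V) : G x y z S.w0 = 0 := by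
  have hf1 : ∀ u : V, fpow S V 1 u = ⁅S.f, u⁆ := fun u => by simp [fpow]
  have hf0 : ∀ u : V, fpow S V 0 u = u := fun u => by simp [fpow]
  have hU1 : ∀ u ∈ U, ⁅S.h, u⁆ = (1 : ℂ) • u := fun u hu => by
    have := T.hU u hu
    simpa using this
  have hU2 : ∀ u ∈ U, ⁅S.h, ⁅S.f, u⁆⁆ = (-1 : ℂ) • ⁅S.f, u⁆ := fun u hu => by
    have := T.hf u hu 1
    rw [hf1] at this
    rw [this]
    congr 1
    norm_num
  have hsp : ∀ x : V, ∃ u ∈ U, ∃ u' ∈ U, x = u + ⁅S.f, u'⁆ := by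
    intro x
    obtain ⟨u, hu, hx⟩ := T.span x
    refine ⟨u 0, hu 0, u 1, hu 1, ?_⟩
    rw [hx, Fin.sum_univ_two]
    change fpow S V 0 (u 0) + fpow S V 1 (u 1) = _
    rw [hf0, hf1]
  have hnf : ∀ a ∈ S.N, ∀ u : V, ⁅a, ⁅S.f, u⁆⁆ = ⁅S.f, ⁅a, u⁆⁆ := by
    intro a ha u
    have := T.nf a ha u 1
    rwa [hf1, hf1] at this
  -- weights
  have hwt : ∀ (x y z : V) (a b c : ℂ), ⁅S.h, x⁆ = a • x → ⁅S.h, y⁆ = b • y → ⁅S.h, z⁆ = c • z →
      a + b + c + 1 ≠ 0 → G x y z S.w0 = 0 := by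
    intro x y z a b c hx hy hz hne
    have h3 := hI S.h x y z S.w0
    rw [hx, hy, hz, S.h0, (hG.l1 _ _ _).map_smul, (hG.l2 _ _ _).map_smul,
      (hG.l3 _ _ _).map_smul] at h3
    simp only [smul_eq_mul] at h3
    have h4 : (a + b + c + 1) * G x y z S.w0 = 0 := by linear_combination h3
    exact (mul_eq_zero.mp h4).resolve_left hne
  have hww : ∀ x ∈ U, ∀ y ∈ U, ω x y = 0 := by
    intro x hx y hy
    have h3 := hω.inv S.h x y
    rw [hU1 x hx, hU1 y hy, one_smul, one_smul] at h3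
    linear_combination (1 / 2 : ℂ) * h3
  -- the module `U` over `N`
  let K : LieSubmodule ℂ S.N V := { U with lie_mem := fun {a u} hu => T.nU a a.2 u hu }
  have hKU : ∀ u : V, u ∈ K ↔ u ∈ U := fun u => Iff.rfl
  have hKf : finrank ℂ K = 4 := hU
  have hKk : IsKilling ℂ S.N := o8_kill S.J S.N S.sup S.comm
  have hKn : Nontrivial K := by
    apply Module.nontrivial_of_finrank_pos (R := ℂ)
    rw [hKf]
    norm_num
  have hKi : LieModule.IsIrreducible ℂ S.N K := by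
    apply LieModule.IsIrreducible.mk
    intro Q hQ
    rcases T.irr (Q.toSubmodule.map K.toSubmodule.subtype) (by
      rintro _ ⟨u, hu, rfl⟩
      exact u.2) (by
      rintro a ha _ ⟨u, hu, rfl⟩
      let u' : K := ⟨u, u.2⟩
      have hu' : u' ∈ Q := hu
      have h9 : (⁅(⟨a, ha⟩ : S.N), u'⁆ : K) ∈ Q := Q.lie_mem hu'
      exact ⟨_, h9, rfl⟩) with h3 | h3
    · exfalso
      apply hQ
      rw [eq_bot_iff]
      intro u hu
      have h4 : (u : V) ∈ Q.toSubmodule.map K.toSubmodule.subtype := ⟨u, hu, rfl⟩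
      rw [h3, Submodule.mem_bot] at h4
      rw [LieSubmodule.mem_bot]
      exact Subtype.ext h4
    · rw [eq_top_iff]
      intro u _
      have h4 : (u : V) ∈ Q.toSubmodule.map K.toSubmodule.subtype := by rw [h3]; exact u.2
      obtain ⟨u', hu', he⟩ := h4
      have h5 : u' = u := Subtype.ext he
      rw [← h5]
      exact hu'
  -- the pairing
  let B : K →ₗ[ℂ] K →ₗ[ℂ] ℂ := LinearMap.mk₂ ℂ (fun u u' => ω (u : V) ⁅S.f, (u' : V)⁆)
    (fun a b c => by simp) (fun a b c => by simp) (fun a b c => by simp) (fun a b c => by simp)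
  have hB : ∀ u u' : K, B u u' = ω (u : V) ⁅S.f, (u' : V)⁆ := fun _ _ => rfl
  have hBnd : ∀ u : K, (∀ u', B u u' = 0) → u = 0 := by
    intro u hu
    apply Subtype.ext
    apply hω.nd
    intro y
    obtain ⟨a, ha, b, hb, rfl⟩ := hsp y
    rw [map_add, hww u u.2 a ha, zero_add]
    exact hu ⟨b, hb⟩
  have hBinj : Function.Injective B := by
    rw [← LinearMap.ker_eq_bot, Submodule.eq_bot_iff]
    intro u hu
    exact hBnd u fun u' => by rw [LinearMap.mem_ker.mp hu]; rfl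
  let Φ : K ≃ₗ[ℂ] Module.Dual ℂ K :=
    LinearEquiv.ofInjectiveOfFinrankEq B hBinj (Subspace.dual_finrank_eq).symm
  have hΦ : ∀ u, Φ u = B u := fun u => rfl
  have hBinv : ∀ (a : S.N) (u u' : K), B ⁅a, u⁆ u' = - B u ⁅a, u'⁆ := by
    intro a u u'
    rw [hB, hB]
    have h3 := hω.inv (a : L) (u : V) ⁅S.f, (u' : V)⁆
    rw [hnf a a.2] at h3
    exact h3
  -- the trilinear form
  let τ : K →ₗ[ℂ] K →ₗ[ℂ] Module.Dual ℂ K := LinearMap.mk₂ ℂ
    (fun b c => IsLinearMap.mk' (fun a : K => G (a : V) ⁅S.f, (b : V)⁆ ⁅S.f, (c : V)⁆ S.w0)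
      ⟨fun a a' => (hG.l1 _ _ _).map_add _ _, fun r a => (hG.l1 _ _ _).map_smul _ _⟩)
    (fun b b' c => LinearMap.ext fun a => by
      change G (a : V) ⁅S.f, (b : V) + (b' : V)⁆ ⁅S.f, (c : V)⁆ S.w0 =
        G (a : V) ⁅S.f, (b : V)⁆ ⁅S.f, (c : V)⁆ S.w0 + G (a : V) ⁅S.f, (b' : V)⁆ ⁅S.f, (c : V)⁆ S.w0
      rw [lie_add]
      exact (hG.l2 _ _ _).map_add _ _)
    (fun r b c => LinearMap.ext fun a => by
      change G (a : V) ⁅S.f, r • (b : V)⁆ ⁅S.f, (c : V)⁆ S.w0 =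
        r • G (a : V) ⁅S.f, (b : V)⁆ ⁅S.f, (c : V)⁆ S.w0
      rw [lie_smul]
      exact (hG.l2 _ _ _).map_smul _ _)
    (fun b c c' => LinearMap.ext fun a => by
      change G (a : V) ⁅S.f, (b : V)⁆ ⁅S.f, (c : V) + (c' : V)⁆ S.w0 =
        G (a : V) ⁅S.f, (b : V)⁆ ⁅S.f, (c : V)⁆ S.w0 + G (a : V) ⁅S.f, (b : V)⁆ ⁅S.f, (c' : V)⁆ S.w0
      rw [lie_add]
      exact (hG.l3 _ _ _).map_add _ _)
    (fun r b c => LinearMap.ext fun a => by
      change G (a : V) ⁅S.f, (b : V)⁆ ⁅S.f, r • (c : V)⁆ S.w0 =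
        r • G (a : V) ⁅S.f, (b : V)⁆ ⁅S.f, (c : V)⁆ S.w0
      rw [lie_smul]
      exact (hG.l3 _ _ _).map_smul _ _)
  have hτ : ∀ a b c : K, τ b c a = G (a : V) ⁅S.f, (b : V)⁆ ⁅S.f, (c : V)⁆ S.w0 :=
    fun _ _ _ => rfl
  let β : K →ₗ[ℂ] K →ₗ[ℂ] K := τ.compr₂ Φ.symm.toLinearMap
  have hβ : ∀ a b c : K, B (β b c) a = τ b c a := by
    intro a b c
    have h3 : Φ (β b c) = τ b c := Φ.apply_symm_apply (τ b c)
    rw [hΦ] at h3
    rw [h3]
  have hβ0 : β = 0 := by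
    refine (H S.N K hKf).2 β (fun b c => ?_) (fun n b c => ?_)
    · rw [← sub_eq_zero]
      apply hBnd
      intro a
      rw [map_sub, map_neg, LinearMap.sub_apply, LinearMap.neg_apply, hβ, hβ, hτ, hτ]
      have h3 := h2 (a : V) ⁅S.f, (b : V)⁆ ⁅S.f, (c : V)⁆ S.w0
      rw [h3]
      ring
    · rw [← sub_eq_zero]
      apply hBnd
      intro a
      rw [map_sub, map_add, LinearMap.sub_apply, LinearMap.add_apply, hβ, hβ, hBinv, hβ]
      rw [hτ, hτ, hτ]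
      have h3 := hI (n : L) (a : V) ⁅S.f, (b : V)⁆ ⁅S.f, (c : V)⁆ S.w0
      rw [hnf n n.2, hnf n n.2, S.triv n n.2] at h3
      have h4 : G (a : V) ⁅S.f, (b : V)⁆ ⁅S.f, (c : V)⁆ (0 : W) = 0 := (hG.l4 _ _ _).map_zero
      rw [h4, add_zero] at h3
      change - G (⁅(n : L), (a : V)⁆) ⁅S.f, (b : V)⁆ ⁅S.f, (c : V)⁆ S.w0 -
        (G (a : V) ⁅S.f, ⁅(n : L), (b : V)⁆⁆ ⁅S.f, (c : V)⁆ S.w0 +
          G (a : V) ⁅S.f, (b : V)⁆ ⁅S.f, ⁅(n : L), (c : V)⁆⁆ S.w0) = 0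
      linear_combination - h3
  have hkey : ∀ a ∈ U, ∀ b ∈ U, ∀ c ∈ U, G a ⁅S.f, b⁆ ⁅S.f, c⁆ S.w0 = 0 := by
    intro a ha b hb c hc
    have h3 := hβ ⟨a, ha⟩ ⟨b, hb⟩ ⟨c, hc⟩
    rw [hτ, hβ0] at h3
    rw [← h3]
    simp
  obtain ⟨x0, hx0, x1, hx1, rfl⟩ := hsp x
  obtain ⟨y0, hy0, y1, hy1, rfl⟩ := hsp y
  obtain ⟨z0, hz0, z1, hz1, rfl⟩ := hsp z
  rw [(hG.l1 _ _ _).map_add, (hG.l2 _ _ _).map_add, (hG.l2 _ _ _).map_add,
    (hG.l3 _ _ _).map_add, (hG.l3 _ _ _).map_add, (hG.l3 _ _ _).map_add, (hG.l3 _ _ _).map_add]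
  have e1 : G x0 y0 z0 S.w0 = 0 := hwt _ _ _ _ _ _ (hU1 _ hx0) (hU1 _ hy0) (hU1 _ hz0) (by norm_num)
  have e2 : G x0 y0 ⁅S.f, z1⁆ S.w0 = 0 :=
    hwt _ _ _ _ _ _ (hU1 _ hx0) (hU1 _ hy0) (hU2 _ hz1) (by norm_num)
  have e3 : G x0 ⁅S.f, y1⁆ z0 S.w0 = 0 :=
    hwt _ _ _ _ _ _ (hU1 _ hx0) (hU2 _ hy1) (hU1 _ hz0) (by norm_num)
  have e4 : G x0 ⁅S.f, y1⁆ ⁅S.f, z1⁆ S.w0 = 0 := hkey _ hx0 _ hy1 _ hz1
  have e5 : G ⁅S.f, x1⁆ y0 z0 S.w0 = 0 :=
    hwt _ _ _ _ _ _ (hU2 _ hx1) (hU1 _ hy0) (hU1 _ hz0) (by norm_num)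
  have e6 : G ⁅S.f, x1⁆ y0 ⁅S.f, z1⁆ S.w0 = 0 := by
    rw [h1, hkey _ hy0 _ hx1 _ hz1, neg_zero]
  have e7 : G ⁅S.f, x1⁆ ⁅S.f, y1⁆ z0 S.w0 = 0 := by
    rw [h2, h1, hkey _ hz0 _ hx1 _ hy1, neg_zero, neg_zero]
  have e8 : G ⁅S.f, x1⁆ ⁅S.f, y1⁆ ⁅S.f, z1⁆ S.w0 = 0 :=
    hwt _ _ _ _ _ _ (hU2 _ hx1) (hU2 _ hy1) (hU2 _ hz1) (by norm_num)
  rw [e1, e2, e3, e4, e5, e6, e7, e8]
  ring

theorem O8_ (hP4 : St_P4) (hTop : St_Top) (hOdd : St_Odd) (hTwo : St_Two) (hV4 : St_V4) :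
    St_O8 := by
  intro L W V _ _ _ _ _ _ _ _ _ _ _ _ _ _ S ω hω hd ht G hG hI h1 h2
  obtain ⟨m, U, T, hP⟩ := hTop L W V S
  obtain ⟨n, hn⟩ := Pool.Agent.Helper24.exists_parity S.ptN (V := V)
  have hodd : Odd ((m : ℤ) + n) := hOdd L W V S ω hω m n hP hn
  have hW : Par S.h 1 W := by
    intro w _
    obtain ⟨a, b, rfl⟩ := S.span w
    refine Submodule.add_mem _ (Submodule.smul_mem _ _ (Submodule.subset_span ⟨0, ?_⟩))
      (Submodule.smul_mem _ _ (Submodule.subset_span ⟨-1, ?_⟩))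
    · rw [S.h0]; simp
    · rw [S.h1]
      norm_num
  rcases Int.even_or_odd (m : ℤ) with he | ho
  · have h3 : Odd ((m : ℤ) + m + m + 1) := by
      rw [Int.odd_iff]
      rw [Int.even_iff] at he
      omega
    exact hP4 L V V V W S.h m m m 1 hP hP hP hW h3 G hG (fun x y z w => hI S.h x y z w)
  have hn0 : Even n := by
    rw [Int.odd_iff] at ho hodd
    rw [Int.even_iff]
    omega
  have hPn : Par S.h' 0 V := by
    refine hn.trans (Submodule.span_mono ?_)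
    rintro v ⟨k, hk⟩
    obtain ⟨r, hr⟩ := hn0
    refine ⟨r + k, ?_⟩
    rw [hk, hr]
    congr 2
    ring
  have hdim := T.dim
  rw [hd] at hdim
  have h2U : finrank ℂ U ≠ 2 := hTwo L W V S m U T ht hPn
  have hmo : m % 2 = 1 := by
    rw [Int.odd_iff] at ho
    omega
  have hcase : (m = 1 ∧ finrank ℂ U = 4) ∨ (m = 7 ∧ finrank ℂ U = 1) := by
    have h3 : m ≤ 7 := by
      by_contra hcon
      have h4 : 9 ≤ m + 1 := by omega
      rcases Nat.eq_zero_or_pos (finrank ℂ U) with h5 | h5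
      · rw [h5] at hdim
        omega
      · nlinarith
    have h4 : m = 1 ∨ m = 3 ∨ m = 5 ∨ m = 7 := by omega
    rcases h4 with rfl | rfl | rfl | rfl
    · left
      exact ⟨rfl, by omega⟩
    · omega
    · omega
    · right
      exact ⟨rfl, by omega⟩
  have hw0 : ∀ x y z, G x y z S.w0 = 0 := by
    rcases hcase with ⟨rfl, hU⟩ | ⟨rfl, hU⟩
    · exact o8_14 hV4 S ω hω T hU G hG hI h1 h2
    · exact o8_71 S T hU G hG hI h1 h2
  have hw1 : ∀ x y z, G x y z S.w1 = 0 := by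
    intro x y z
    have h3 := hI S.f x y z S.w0
    rw [hw0, hw0, hw0, S.f0] at h3
    linear_combination h3
  intro x y z w
  obtain ⟨a, b, rfl⟩ := S.span w
  rw [(hG.l4 _ _ _).map_add, (hG.l4 _ _ _).map_smul, (hG.l4 _ _ _).map_smul, hw0, hw1]
  simp

end Pool.Agent.D5
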