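import Pool.Agent.D5.StL
import Pool.Agent.Helper8.J.Even

/-!
# D5, module PDS: parities, Schur's lemma for dual modules, invariants of `sp_4`
-/

set_option autoImplicit false

namespace Pool.Agent.D5

open Module LieAlgebra LieModule
open Pool.Agent.Helper8 (Principal Symp ML2 ML4 Inv2 Inv4)
open Pool.Agent.Helper24 (ProjTriple)
open Pool.Agent.Helper7 (PairInv)

/-- a linear function which vanishes on the eigenvectors -/
private theorem PDS_lin {L V : Type} [LieRing L] [LieAlgebra ℂ L] [AddCommGroup V] [Module ℂ V]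
    [LieRingModule L V] {h : L} {n : ℤ} (hP : Par h n V) {g : V → ℂ} (hg : IsLinearMap ℂ g)
    (h0 : ∀ (v : V) (m : ℤ), ⁅h, v⁆ = ((n + 2 * m : ℤ) : ℂ) • v → g v = 0) (v : V) : g v = 0 := by
  have h1 : v ∈ Submodule.span ℂ {v : V | ∃ m : ℤ, ⁅h, v⁆ = ((n + 2 * m : ℤ) : ℂ) • v} :=
    hP trivial
  refine Submodule.span_induction ?_ ?_ ?_ ?_ h1
  · rintro x ⟨m, hm⟩
    exact h0 x m hm
  · exact hg.map_zero
  · intro x y _ _ hx hy
    rw [hg.map_add, hx, hy, add_zero]
  · intro c x _ hx
    rw [hg.map_smul, hx, smul_zero]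

/-- [P4] -/
theorem P4_ : St_P4 := by
  intro L V1 V2 V3 V4 _ _ _ _ _ _ _ _ _ _ _ _ _ _ h n1 n2 n3 n4 H1 H2 H3 H4 hodd G hG hI x y z w
  refine PDS_lin H1 (hG.l1 y z w) (fun x m1 h1 => ?_) x
  refine PDS_lin H2 (hG.l2 x z w) (fun y m2 h2 => ?_) y
  refine PDS_lin H3 (hG.l3 x y w) (fun z m3 h3 => ?_) z
  refine PDS_lin H4 (hG.l4 x y z) (fun w m4 h4 => ?_) w
  have h5 := hI x y z w
  rw [h1, h2, h3, h4, (hG.l1 y z w).map_smul, (hG.l2 x z w).map_smul, (hG.l3 x y w).map_smul,
    (hG.l4 x y z).map_smul] at h5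
  simp only [smul_eq_mul] at h5
  have h6 : ((n1 + n2 + n3 + n4 + 2 * (m1 + m2 + m3 + m4) : ℤ) : ℂ) * G x y z w = 0 := by
    push_cast at h5 ⊢
    linear_combination h5
  rcases mul_eq_zero.1 h6 with h7 | h7
  · exfalso
    have h8 : n1 + n2 + n3 + n4 + 2 * (m1 + m2 + m3 + m4) = 0 := by exact_mod_cast h7
    obtain ⟨k, hk⟩ := hodd
    omega
  · exact h7

/-- [Dua] -/
theorem Dua_ : St_Dua := by
  intro L V V' _ _ _ _ _ _ _ _ _ _ _ _ _
  have key : ∀ g : V → V' → ℂ, ML2 g → Inv2 L g → ∀ β : V →ₗ[ℂ] V' →ₗ[ℂ] ℂ,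
      (∀ x y, β x y = g x y) → LinearMap.ker β = ⊥ ∨ ∀ x y, g x y = 0 := by
    intro g _ hI β hβ
    rcases Pool.Agent.Helper8.irr_cases (L := L) (LinearMap.ker β) (fun a v hv => by
      rw [LinearMap.mem_ker] at hv ⊢
      ext y
      have h1 := hI a v y
      have h2 : β v ⁅a, y⁆ = 0 := by rw [hv]; rfl
      rw [hβ] at h2
      rw [hβ, LinearMap.zero_apply]
      linear_combination h1 - h2) with h | h
    · exact Or.inl h
    · refine Or.inr fun x y => ?_
      have h1 : x ∈ LinearMap.ker β := by rw [h]; trivial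
      rw [← hβ, LinearMap.mem_ker.1 h1]
      rfl
  refine ⟨fun b hb g hg hI => hb.schur hg hI, ?_, ?_⟩
  · intro hodd g hg hI hanti
    have key' : ∀ β : V →ₗ[ℂ] V →ₗ[ℂ] ℂ,
        (∀ x y, β x y = g x y) → LinearMap.ker β = ⊥ ∨ ∀ x y, g x y = 0 := by
      intro β hβ
      rcases Pool.Agent.Helper8.irr_cases (L := L) (LinearMap.ker β) (fun a v hv => by
        rw [LinearMap.mem_ker] at hv ⊢
        ext y
        have h1 := hI a v y
        have h2 : β v ⁅a, y⁆ = 0 := by rw [hv]; rfl
        rw [hβ] at h2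
        rw [hβ, LinearMap.zero_apply]
        linear_combination h1 - h2) with h | h
      · exact Or.inl h
      · refine Or.inr fun x y => ?_
        have h1 : x ∈ LinearMap.ker β := by rw [h]; trivial
        rw [← hβ, LinearMap.mem_ker.1 h1]
        rfl
    obtain ⟨β, hβ⟩ := Pool.Agent.Helper8.exists_linear hg
    rcases key' β hβ with h | h
    · exfalso
      have h1 := Pool.Agent.Helper8.even_of_symp β (fun x y => by rw [hβ, hβ]; exact hanti x y)
        (fun x hx => by
          have h2 : x ∈ LinearMap.ker β := by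
            rw [LinearMap.mem_ker]
            ext y
            exact hx y
          rw [h] at h2
          exact h2)
      exact (Nat.not_even_iff_odd.2 hodd) h1
    · exact h
  · intro hlt g hg hI
    obtain ⟨β, hβ⟩ := Pool.Agent.Helper8.exists_linear hg
    rcases key g hg hI β hβ with h | h
    · exfalso
      have h1 := LinearMap.finrank_le_finrank_of_injective (LinearMap.ker_eq_bot.1 h)
      rw [Subspace.dual_finrank_eq] at h1
      omega
    · exact h

/-- [Sp] -/
theorem Sp_ : St_Sp := by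
  intro B _ _ _ ω hanti hnd
  have h00 : ∀ u, ω u u = 0 := by
    intro u
    have h1 := hanti u u
    have h2 : (2 : ℂ) * ω u u = 0 := by linear_combination h1
    exact (mul_eq_zero.1 h2).resolve_left two_ne_zero
  -- the transvections
  let Y : B → Module.End ℂ B := fun u => (ω u).smulRight u
  have hY : ∀ u v, Y u v = ω u v • u := fun u v => rfl
  have hYs : ∀ u a b, ω (Y u a) b + ω a (Y u b) = 0 := by
    intro u a b
    rw [hY, hY, map_smul, map_smul, LinearMap.smul_apply, smul_eq_mul, smul_eq_mul]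
    linear_combination ω u b * hanti a u
  constructor
  · intro g hg hI v
    by_cases hv : v = 0
    · rw [hv]
      exact hg.map_zero
    · have h1 : ∃ y, ω v y ≠ 0 := by
        by_contra h2
        push Not at h2
        exact hv (hnd v h2)
      obtain ⟨y, hy⟩ := h1
      have h2 := hI (Y v) (hYs v) y
      rw [hY, hg.map_smul, smul_eq_mul] at h2
      exact (mul_eq_zero.1 h2).resolve_left hy
  · intro g hg hI
    have h1 : ∀ u x y, ω u x * g u y + ω u y * g x u = 0 := by
      intro u x y
      have h2 := hI (Y u) (hYs u) x y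
      rw [hY, hY, (hg.l1 y).map_smul, (hg.l2 x).map_smul, smul_eq_mul, smul_eq_mul] at h2
      exact h2
    have hguu : ∀ u, g u u = 0 := by
      intro u
      by_cases hu : u = 0
      · rw [hu]
        exact (hg.l1 0).map_zero
      · have h3 : ∃ y, ω u y ≠ 0 := by
          by_contra h2
          push Not at h2
          exact hu (hnd u h2)
        obtain ⟨y, hy⟩ := h3
        have h4 := h1 u u y
        rw [h00, zero_mul, zero_add] at h4
        exact (mul_eq_zero.1 h4).resolve_left hy
    have hga : ∀ u v, g u v = - g v u := by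
      intro u v
      have h3 := hguu (u + v)
      rw [(hg.l1 (u + v)).map_add, (hg.l2 u).map_add, (hg.l2 v).map_add, hguu, hguu] at h3
      linear_combination h3
    have h2 : ∀ u x y, ω u x * g u y = ω u y * g u x := by
      intro u x y
      have h3 := h1 u x y
      rw [hga x u] at h3
      linear_combination h3
    by_cases hex : ∃ u0 y0, ω u0 y0 ≠ 0
    · obtain ⟨u0, y0, h0⟩ := hex
      refine ⟨g u0 y0 / ω u0 y0, fun s y => ?_⟩
      have e1 := h2 u0 y0 y
      have e2 := h2 y0 u0 s
      have e3 := h2 (u0 + s) y0 y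
      rw [(hg.l1 y).map_add, (hg.l1 y0).map_add, map_add, LinearMap.add_apply,
        LinearMap.add_apply] at e3
      have e4 := h2 s y0 y
      rw [hanti y0 u0, hanti y0 s, hga y0 u0, hga y0 s] at e2
      -- `ω u0 y0 * g s y = g u0 y0 * ω s y`
      have e5 : ω u0 y0 * (ω u0 y0 * g s y) = ω u0 y0 * (g u0 y0 * ω s y) := by
        linear_combination ω u0 y0 * e3 - ω u0 y0 * e1 - ω u0 y0 * e4 - ω s y0 * e1 + ω u0 y * e2
      have e6 := mul_left_cancel₀ h0 e5
      field_simp
      linear_combination e6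
    · push Not at hex
      refine ⟨0, fun u v => ?_⟩
      have hu : u = 0 := hnd u (hex u)
      rw [hu, zero_mul]
      exact (hg.l1 v).map_zero

end Pool.Agent.D5
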