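import Pool.Agent.D5.StL

/-!
# D5, module PLC: planes, and modules of dimension four (helper24)
-/

set_option autoImplicit false

namespace Pool.Agent.D5

open Module LieAlgebra LieModule
open Pool.Agent.Helper8 (Principal Symp ML2 ML4 Inv2 Inv4)

section

variable {L W V : Type} [LieRing L] [LieAlgebra ℂ L] [AddCommGroup W] [Module ℂ W]
  [LieRingModule L W] [LieModule ℂ L W] [AddCommGroup V] [Module ℂ V] [LieRingModule L V]
  [LieModule ℂ L V]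

/-- the action of an element on `V` and `W` if `N` acts trivially -/
private theorem PLC_act (S : SlI L W) (hN : ∀ x ∈ S.N, ∀ v : V, ⁅x, v⁆ = 0) (a : L) :
    ∃ α β γ : ℂ, (∀ v : V, ⁅a, v⁆ = α • ⁅S.e, v⁆ + β • ⁅S.h, v⁆ + γ • ⁅S.f, v⁆) ∧
      ∀ w : W, ⁅a, w⁆ = α • ⁅S.e, w⁆ + β • ⁅S.h, w⁆ + γ • ⁅S.f, w⁆ := by
  have ha : a ∈ S.J ⊔ S.N := by
    rw [S.sup]
    trivial
  obtain ⟨j, hj, n, hn, rfl⟩ := (LieSubmodule.mem_sup _ _ _).1 ha
  obtain ⟨α, β, γ, rfl⟩ := S.spanJ j hj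
  refine ⟨α, β, γ, fun v => ?_, fun w => ?_⟩
  · rw [add_lie, hN n hn, add_zero, add_lie, add_lie, smul_lie, smul_lie, smul_lie]
  · rw [add_lie, S.triv n hn, add_zero, add_lie, add_lie, smul_lie, smul_lie, smul_lie]

/-- coordinates -/
private theorem PLC_coord {M : Type} [AddCommGroup M] [Module ℂ M] (u0 u1 : M)
    (hs : ∀ w : M, ∃ a b : ℂ, w = a • u0 + b • u1)
    (hi : ∀ a b : ℂ, a • u0 + b • u1 = 0 → a = 0 ∧ b = 0) :
    ∃ c0 c1 : M →ₗ[ℂ] ℂ, (∀ w, w = c0 w • u0 + c1 w • u1) ∧ c0 u0 = 1 ∧ c0 u1 = 0 ∧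
      c1 u0 = 0 ∧ c1 u1 = 1 := by
  have hsp : ⊤ ≤ Submodule.span ℂ (Set.range ![u0, u1]) := by
    intro w _
    obtain ⟨a, b, rfl⟩ := hs w
    refine add_mem (Submodule.smul_mem _ _ (Submodule.subset_span ⟨0, rfl⟩))
      (Submodule.smul_mem _ _ (Submodule.subset_span ⟨1, rfl⟩))
  let b : Basis (Fin 2) ℂ M := Basis.mk (LinearIndependent.pair_iff.2 hi) hsp
  have b0 : b 0 = u0 := Basis.mk_apply _ _ 0
  have b1 : b 1 = u1 := Basis.mk_apply _ _ 1
  refine ⟨b.coord 0, b.coord 1, fun w => ?_, ?_, ?_, ?_, ?_⟩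
  · have h := b.sum_repr w
    rw [Fin.sum_univ_two, b0, b1] at h
    exact h.symm
  · rw [← b0, Basis.coord_apply, Basis.repr_self, Finsupp.single_eq_same]
  · rw [← b1, Basis.coord_apply, Basis.repr_self, Finsupp.single_eq_of_ne (by decide)]
  · rw [← b0, Basis.coord_apply, Basis.repr_self, Finsupp.single_eq_of_ne (by decide)]
  · rw [← b1, Basis.coord_apply, Basis.repr_self, Finsupp.single_eq_same]

/-- the action in coordinates -/
private theorem PLC_cact {M : Type} [AddCommGroup M] [Module ℂ M] [LieRingModule L M]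
    [LieModule ℂ L M] {e h f : L} {u0 u1 : M} {c0 c1 : M →ₗ[ℂ] ℂ}
    (hc : ∀ w, w = c0 w • u0 + c1 w • u1) (h00 : c0 u0 = 1) (h01 : c0 u1 = 0)
    (h10 : c1 u0 = 0) (h11 : c1 u1 = 1) (hh0 : ⁅h, u0⁆ = u0) (hh1 : ⁅h, u1⁆ = -u1)
    (he0 : ⁅e, u0⁆ = 0) (he1 : ⁅e, u1⁆ = u0) (hf0 : ⁅f, u0⁆ = u1) (hf1 : ⁅f, u1⁆ = 0)
    {a : L} {α β γ : ℂ} (ha : ∀ w : M, ⁅a, w⁆ = α • ⁅e, w⁆ + β • ⁅h, w⁆ + γ • ⁅f, w⁆) (w : M) :
    c0 ⁅a, w⁆ = α * c1 w + β * c0 w ∧ c1 ⁅a, w⁆ = γ * c0 w - β * c1 w := by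
  have h1 : ⁅a, w⁆ = (α * c1 w + β * c0 w) • u0 + (γ * c0 w - β * c1 w) • u1 := by
    rw [ha]
    have e1 : ⁅e, w⁆ = c1 w • u0 := by
      conv_lhs => rw [hc w]
      rw [lie_add, lie_smul, lie_smul, he0, he1, smul_zero, zero_add]
    have e2 : ⁅h, w⁆ = c0 w • u0 - c1 w • u1 := by
      conv_lhs => rw [hc w]
      rw [lie_add, lie_smul, lie_smul, hh0, hh1, smul_neg, sub_eq_add_neg]
    have e3 : ⁅f, w⁆ = c0 w • u1 := by
      conv_lhs => rw [hc w]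
      rw [lie_add, lie_smul, lie_smul, hf0, hf1, smul_zero, add_zero]
    rw [e1, e2, e3]
    module
  rw [h1]
  constructor
  · rw [map_add, map_smul, map_smul, h00, h01, smul_eq_mul, smul_eq_mul, mul_one, mul_zero,
      add_zero]
  · rw [map_add, map_smul, map_smul, h10, h11, smul_eq_mul, smul_eq_mul, mul_one, mul_zero,
      zero_add]

omit [LieModule ℂ L W] in
private theorem PLC_fpow0 (S : SlI L W) (v : V) : fpow S V 0 v = v := by
  unfold fpow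
  rw [pow_zero]
  rfl

end

/-- **Pln** -/
theorem Pln_ (h : St_Top) (h3 : St_One) : St_Pln := by
  intro L W V _ _ _ _ _ _ _ _ _ _ _ _ _ _ S hV tr
  obtain ⟨m, U, T, hP⟩ := h L W V S
  have hd := T.dim
  rw [hV] at hd
  have hm : m = 0 ∨ (m = 1 ∧ finrank ℂ U = 1) := by
    have h1 : m + 1 ∣ 2 := ⟨_, hd.symm⟩
    have h2 : m + 1 ≤ 2 := Nat.le_of_dvd two_pos h1
    have h3 : m = 0 ∨ m = 1 := by omega
    rcases h3 with rfl | rfl
    · exact Or.inl rfl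
    · exact Or.inr ⟨rfl, by omega⟩
  rcases hm with rfl | ⟨rfl, hU⟩
  · left
    exact hP
  · right
    have hN := h3 L W V S 1 U T tr hU
    obtain ⟨v, hv0, hv⟩ := finrank_eq_one_iff'.1 hU
    have hvU : (v : V) ∈ U := v.2
    set v0 : V := (v : V) with hv0def
    have hne : v0 ≠ 0 := fun h0 => hv0 (Subtype.ext h0)
    have hUs : ∀ u ∈ U, ∃ c : ℂ, u = c • v0 := by
      intro u hu
      obtain ⟨c, hc⟩ := hv ⟨u, hu⟩
      exact ⟨c, (congrArg Subtype.val hc).symm⟩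
    set v1 : V := ⁅S.f, v0⁆ with hv1
    have f1 : fpow S V 1 v0 = v1 := by
      have h1 := T.ff v0 hvU 0
      rw [PLC_fpow0] at h1
      exact h1.symm
    have hh0 : ⁅S.h, v0⁆ = v0 := by
      have h1 := T.hU v0 hvU
      rw [Nat.cast_one, one_smul] at h1
      exact h1
    have he0 : ⁅S.e, v0⁆ = 0 := T.eU v0 hvU
    have hh1 : ⁅S.h, v1⁆ = -v1 := by
      have h1 := T.hf v0 hvU 1
      rw [f1] at h1
      rw [h1, Nat.cast_one]
      have e1 : ((1 : ℂ) - 2 * 1) = -1 := by norm_num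
      rw [e1, neg_one_smul]
    have he1 : ⁅S.e, v1⁆ = v0 := by
      have h1 := T.ef v0 hvU 0
      rw [zero_add, f1, PLC_fpow0] at h1
      rw [h1, Nat.cast_one, Nat.cast_zero]
      have e1 : (((0 : ℂ) + 1) * (1 - 0)) = 1 := by norm_num
      rw [e1, one_smul]
    have hf1 : ⁅S.f, v1⁆ = 0 := by
      have h1 := T.ff v0 hvU 1
      rw [f1] at h1
      rw [h1]
      exact T.fz v0 hvU _ (by norm_num)
    have hs : ∀ w : V, ∃ a b : ℂ, w = a • v0 + b • v1 := by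
      intro w
      obtain ⟨u, hu, rfl⟩ := T.span w
      obtain ⟨a, ha⟩ := hUs _ (hu 0)
      obtain ⟨b, hb⟩ := hUs _ (hu 1)
      refine ⟨a, b, ?_⟩
      rw [Fin.sum_univ_two, ha, hb, map_smul, map_smul]
      have e0 : fpow S V ((0 : Fin 2) : ℕ) v0 = v0 := PLC_fpow0 S v0
      have e1 : fpow S V ((1 : Fin 2) : ℕ) v0 = v1 := f1
      rw [e0, e1]
    have hi : ∀ a b : ℂ, a • v0 + b • v1 = 0 → a = 0 ∧ b = 0 := by
      intro a b hab
      have h1 : ⁅S.e, a • v0 + b • v1⁆ = 0 := by rw [hab, lie_zero]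
      rw [lie_add, lie_smul, lie_smul, he0, he1, smul_zero, zero_add] at h1
      have hb : b = 0 := by
        rcases smul_eq_zero.1 h1 with h2 | h2
        · exact h2
        · exact absurd h2 hne
      rw [hb, zero_smul, add_zero] at hab
      rcases smul_eq_zero.1 hab with h2 | h2
      · exact ⟨h2, hb⟩
      · exact absurd h2 hne
    obtain ⟨a0, a1, ha, a00, a01, a10, a11⟩ := PLC_coord v0 v1 hs hi
    obtain ⟨c0, c1, hc, c00, c01, c10, c11⟩ := PLC_coord S.w0 S.w1 S.span S.indep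
    refine ⟨fun x y => (a0.smulRight c1 - a1.smulRight c0 : V →ₗ[ℂ] W →ₗ[ℂ] ℂ) x y,
      ML2.of _, ?_, v0, S.w1, ?_⟩
    · intro a x y
      obtain ⟨α, β, γ, hα, hβ⟩ := PLC_act S hN a
      obtain ⟨e1, e2⟩ := PLC_cact ha a00 a01 a10 a11 hh0 hh1 he0 he1 hv1.symm hf1 hα x
      obtain ⟨e3, e4⟩ := PLC_cact hc c00 c01 c10 c11 S.h0 S.h1 S.e0 S.e1 S.f0 S.f1 hβ y
      simp only [LinearMap.sub_apply, LinearMap.smulRight_apply, LinearMap.smul_apply,
        smul_eq_mul]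
      rw [e1, e2, e3, e4]
      ring
    · simp only [LinearMap.sub_apply, LinearMap.smulRight_apply, LinearMap.smul_apply,
        smul_eq_mul]
      rw [a00, a10, c11]
      norm_num

/-- a nonzero eigenvector for the eigenvalue zero contradicts odd parity -/
private theorem PLC_par {L V : Type} [LieRing L] [LieAlgebra ℂ L] [AddCommGroup V] [Module ℂ V]
    [LieRingModule L V] [LieModule ℂ L V] (h : L) (hp : Par h 1 V) (u : V)
    (hu : ⁅h, u⁆ = (0 : ℂ) • u) : u = 0 := by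
  have hind := Module.End.eigenspaces_iSupIndep (toEnd ℂ L V h)
  have h1 : (⊤ : Submodule ℂ V) ≤
      ⨆ μ, ⨆ (_ : μ ≠ (0 : ℂ)), Module.End.eigenspace (toEnd ℂ L V h) μ := by
    refine hp.trans ?_
    rw [Submodule.span_le]
    rintro v ⟨k, hk⟩
    have hne : ((1 + 2 * k : ℤ) : ℂ) ≠ 0 := by
      have : (1 + 2 * k : ℤ) ≠ 0 := by omega
      exact_mod_cast this
    have h5 : Module.End.eigenspace (toEnd ℂ L V h) ((1 + 2 * k : ℤ) : ℂ) ≤
        ⨆ μ, ⨆ (_ : μ ≠ (0 : ℂ)), Module.End.eigenspace (toEnd ℂ L V h) μ :=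
      le_iSup₂ (f := fun (μ : ℂ) (_ : μ ≠ (0 : ℂ)) =>
        Module.End.eigenspace (toEnd ℂ L V h) μ) ((1 + 2 * k : ℤ) : ℂ) hne
    apply h5
    rw [Module.End.mem_eigenspace_iff]
    exact hk
  have h2 := (hind 0).mono_right h1
  have h3 : Module.End.eigenspace (toEnd ℂ L V h) 0 = ⊥ := by
    rw [← le_bot_iff]
    exact h2 le_rfl le_top
  have h4 : u ∈ Module.End.eigenspace (toEnd ℂ L V h) 0 := by
    rw [Module.End.mem_eigenspace_iff]
    exact hu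
  rw [h3] at h4
  exact (Submodule.mem_bot ℂ).1 h4

/-- **Cub** -/
theorem Cub_ (h : St_Top) (h2 : St_Two) (h3 : St_One) : St_Cub := by
  intro L W V _ _ _ _ _ _ _ _ _ _ _ _ _ _ S hV tr hp1 hp0
  obtain ⟨m, U, T, hP⟩ := h L W V S
  have hd := T.dim
  rw [hV] at hd
  obtain ⟨v, hvU, hne⟩ := (Submodule.ne_bot_iff U).1 T.ne
  have hm : m = 3 ∧ finrank ℂ U = 1 := by
    have h1 : m + 1 ∣ 4 := ⟨_, hd.symm⟩
    have h4 : m + 1 ≤ 4 := Nat.le_of_dvd (by norm_num) h1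
    have h5 : m = 0 ∨ m = 1 ∨ m = 2 ∨ m = 3 := by omega
    rcases h5 with rfl | rfl | rfl | rfl
    · exfalso
      apply hne
      refine PLC_par S.h hp1 v ?_
      have := T.hU v hvU
      rwa [Nat.cast_zero] at this
    · exfalso
      exact h2 L W V S 1 U T tr hp0 (by omega)
    · exfalso
      omega
    · exact ⟨rfl, by omega⟩
  obtain ⟨rfl, hU⟩ := hm
  have hN := h3 L W V S 3 U T tr hU
  -- the basis
  set v1 : V := fpow S V 1 v with hv1
  set v2 : V := fpow S V 2 v with hv2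
  set v3 : V := fpow S V 3 v with hv3
  have hh0 : ⁅S.h, v⁆ = (3 : ℂ) • v := by
    have h1 := T.hU v hvU
    simpa using h1
  have he0 : ⁅S.e, v⁆ = 0 := T.eU v hvU
  have hf0 : ⁅S.f, v⁆ = v1 := by
    have h1 := T.ff v hvU 0
    rwa [PLC_fpow0] at h1
  have hh1 : ⁅S.h, v1⁆ = (1 : ℂ) • v1 := by
    have h1 := T.hf v hvU 1
    rw [← hv1] at h1
    rw [h1]
    congr 1
    norm_num
  have he1 : ⁅S.e, v1⁆ = (3 : ℂ) • v := by
    have h1 := T.ef v hvU 0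
    rw [zero_add, ← hv1, PLC_fpow0] at h1
    rw [h1]
    congr 1
    norm_num
  have hf1 : ⁅S.f, v1⁆ = v2 := T.ff v hvU 1
  have hh2 : ⁅S.h, v2⁆ = (-1 : ℂ) • v2 := by
    have h1 := T.hf v hvU 2
    rw [← hv2] at h1
    rw [h1]
    congr 1
    norm_num
  have he2 : ⁅S.e, v2⁆ = (4 : ℂ) • v1 := by
    have h1 := T.ef v hvU 1
    rw [← hv1] at h1
    have h4 : fpow S V (1 + 1) v = v2 := rfl
    rw [h4] at h1
    rw [h1]
    congr 1
    norm_num
  have hf2 : ⁅S.f, v2⁆ = v3 := T.ff v hvU 2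
  have hh3 : ⁅S.h, v3⁆ = (-3 : ℂ) • v3 := by
    have h1 := T.hf v hvU 3
    rw [← hv3] at h1
    rw [h1]
    congr 1
    norm_num
  have he3 : ⁅S.e, v3⁆ = (3 : ℂ) • v2 := by
    have h1 := T.ef v hvU 2
    rw [← hv2] at h1
    have h4 : fpow S V (2 + 1) v = v3 := rfl
    rw [h4] at h1
    rw [h1]
    congr 1
    norm_num
  have hf3 : ⁅S.f, v3⁆ = 0 := by
    have h1 := T.ff v hvU 3
    rw [← hv3] at h1
    rw [h1]
    exact T.fz v hvU _ (by norm_num)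
  obtain ⟨c0, c1, hc, c00, c01, c10, c11⟩ := PLC_coord S.w0 S.w1 S.span S.indep
  let q0 : V := v
  let q1 : V := (1 / 3 : ℂ) • v1
  let q2 : V := (1 / 6 : ℂ) • v2
  let q3 : V := (1 / 6 : ℂ) • v3
  let φ : W →ₗ[ℂ] W →ₗ[ℂ] W →ₗ[ℂ] V :=
    c0.smulRight (c0.smulRight (c0.smulRight q0 + c1.smulRight q1) +
      c1.smulRight (c0.smulRight q1 + c1.smulRight q2)) +
    c1.smulRight (c0.smulRight (c0.smulRight q1 + c1.smulRight q2) +
      c1.smulRight (c0.smulRight q2 + c1.smulRight q3))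
  have hφ : ∀ x y z, φ x y z = (c0 x * c0 y * c0 z) • q0 +
      (c1 x * c0 y * c0 z + c0 x * c1 y * c0 z + c0 x * c0 y * c1 z) • q1 +
      (c1 x * c1 y * c0 z + c1 x * c0 y * c1 z + c0 x * c1 y * c1 z) • q2 +
      (c1 x * c1 y * c1 z) • q3 := by
    intro x y z
    simp only [φ, LinearMap.add_apply, LinearMap.smulRight_apply, LinearMap.smul_apply]
    module
  refine ⟨φ, ?_, ?_, ?_, ?_⟩
  · intro h0
    apply hne
    have h1 := hφ S.w0 S.w0 S.w0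
    rw [h0, c00, c10] at h1
    simp only [LinearMap.zero_apply, mul_one, mul_zero, add_zero, zero_smul, one_smul] at h1
    exact h1.symm
  · intro x y z
    rw [hφ, hφ]
    module
  · intro x y z
    rw [hφ, hφ]
    module
  · intro a x y z
    obtain ⟨α, β, γ, hα, hβ⟩ := PLC_act S hN a
    obtain ⟨x0, x1⟩ := PLC_cact hc c00 c01 c10 c11 S.h0 S.h1 S.e0 S.e1 S.f0 S.f1 hβ x
    obtain ⟨y0, y1⟩ := PLC_cact hc c00 c01 c10 c11 S.h0 S.h1 S.e0 S.e1 S.f0 S.f1 hβ y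
    obtain ⟨z0, z1⟩ := PLC_cact hc c00 c01 c10 c11 S.h0 S.h1 S.e0 S.e1 S.f0 S.f1 hβ z
    rw [hφ, hφ, hφ, hφ, x0, x1, y0, y1, z0, z1, hα]
    simp only [q0, q1, q2, q3, lie_add, lie_smul, hh0, hh1, hh2, hh3, he0, he1, he2, he3,
      hf0, hf1, hf2, hf3]
    module

end Pool.Agent.D5
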