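import Pool.Agent.Helper7.AFT.Final3
import Pool.Agent.DWY.All

/-!
# D5: divisorial classes are in the Hodge filtration; dimension at most four
-/

set_option autoImplicit false

namespace Pool.Agent.D5

open Pool.Agent.GPC

lemma DivFil_pol (X : AbVar) {u v : X.H1} (hu : X.IsFil u) (hv : X.IsFil v) : X.pol u v = 0 := by
  unfold AbVar.pol
  refine Finset.sum_eq_zero fun a _ => ?_
  rw [hu a, hv a]
  ring

/-- products of divisor classes are in `F^k` -/
theorem inFil_of_div {X : AbVar} {k : ℕ} {α : X.Class (2 * k)} (h : X.IsDivisorialClass k α) :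
    X.IsInFil k α := by
  obtain ⟨m, c, f, ω, hf, hω, hα⟩ := h
  rintro v ⟨s, hs, hv⟩
  rw [hα]
  refine Finset.sum_eq_zero fun j _ => mul_eq_zero_of_right _ ?_
  rw [hω j v]
  refine Finset.sum_eq_zero fun π _ => mul_eq_zero_of_right _ ?_
  have hcard : (Finset.univ : Finset (Fin k)).card < (s.map π.symm.toEmbedding).card := by
    rw [Finset.card_map, Finset.card_univ, Fintype.card_fin]
    exact hs
  obtain ⟨r, hr, r', hr', hne, he⟩ := Finset.exists_ne_map_eq_of_card_lt_of_maps_to hcard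
    (f := fun r : Fin (2 * k) => (⟨r.1 / 2, by omega⟩ : Fin k)) (fun _ _ => Finset.mem_univ _)
  have he' : r.1 / 2 = r'.1 / 2 := congrArg Fin.val he
  have hmem : ∀ r, r ∈ s.map π.symm.toEmbedding → X.IsFil (v (π r)) := by
    intro r hr
    rw [Finset.mem_map] at hr
    obtain ⟨t, ht, rfl⟩ := hr
    have h1 : π (π.symm.toEmbedding t) = t := π.apply_symm_apply t
    rw [h1]
    exact hv t ht
  have hk : r.1 / 2 < k := by omega
  refine Finset.prod_eq_zero (Finset.mem_univ (⟨r.1 / 2, hk⟩ : Fin k)) ?_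
  have h0 : (⟨2 * (r.1 / 2), by omega⟩ : Fin (2 * k)) ∈ s.map π.symm.toEmbedding := by
    rcases Nat.even_or_odd' r.1 with ⟨t, ht | ht⟩
    · have h1 : (⟨2 * (r.1 / 2), by omega⟩ : Fin (2 * k)) = r := Fin.ext (by simp; omega)
      rw [h1]
      exact hr
    · have h2 : r'.1 ≠ r.1 := fun h => hne (Fin.ext h.symm)
      have h1 : (⟨2 * (r.1 / 2), by omega⟩ : Fin (2 * k)) = r' := Fin.ext (by simp; omega)
      rw [h1]
      exact hr'
  have h1 : (⟨2 * (r.1 / 2) + 1, by omega⟩ : Fin (2 * k)) ∈ s.map π.symm.toEmbedding := by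
    rcases Nat.even_or_odd' r.1 with ⟨t, ht | ht⟩
    · have h2 : r'.1 ≠ r.1 := fun h => hne (Fin.ext h.symm)
      have h1 : (⟨2 * (r.1 / 2) + 1, by omega⟩ : Fin (2 * k)) = r' := Fin.ext (by simp; omega)
      rw [h1]
      exact hr'
    · have h1 : (⟨2 * (r.1 / 2) + 1, by omega⟩ : Fin (2 * k)) = r := Fin.ext (by simp; omega)
      rw [h1]
      exact hr
  exact DivFil_pol X ((hf j _).hodge _ (hmem _ h0)) ((hf j _).hodge _ (hmem _ h1))

/-- the theorem for dimension at most four -/
theorem main_four (X : AbVar) (hX : X.g ≤ 4) (k : ℕ) (α : X.Class (2 * k)) :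
    X.IsGrothendieckClass k α ↔
      ∃ (m : ℕ) (w : Fin m → X.Class (2 * k)),
        (∀ r, X.IsWeil k (w r) ∧ X.IsInFil k (w r)) ∧
        X.IsDivisorialClass k (α - ∑ r, w r) :=
  Pool.Agent.Helper7.AFT.main_dwy
    (fun X d Jl hX hJ hb D => DWC.bal_of DWC.All.TorK_ X d Jl hX hJ hb D)
    (fun X d Jl hX hJ hb => DWC.unb_of DWC.All.TorK_ X d Jl hX hJ hb)
    DWY.All.ExS_ X hX k α

/-- Grothendieck classes are Hodge classes in dimension at most four -/
theorem inFil_four (X : AbVar) (hX : X.g ≤ 4) (k : ℕ) (α : X.Class (2 * k))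
    (hα : X.IsGrothendieckClass k α) : X.IsInFil k α := by
  obtain ⟨m, w, hw, hd⟩ := (main_four X hX k α).mp hα
  intro v hv
  have h1 := inFil_of_div hd v hv
  have h3 : (∑ r, w r) v = ∑ r, w r v := by
    have h4 : ∀ s : Finset (Fin m), (∑ r ∈ s, w r) v = ∑ r ∈ s, w r v := by
      intro s
      induction s using Finset.induction_on with
      | empty => simp
      | insert a s ha ih =>
        rw [Finset.sum_insert ha, Finset.sum_insert ha, AlternatingMap.add_apply, ih]
    exact h4 _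
  have h2 : α v = (α - ∑ r, w r) v + ∑ r, w r v := by
    rw [AlternatingMap.sub_apply, h3, sub_add_cancel]
  rw [h2, h1, zero_add]
  exact Finset.sum_eq_zero fun r _ => (hw r).2 v hv

end Pool.Agent.D5
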