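import Pool.Agent.D5.StR
import Pool.Agent.D5.DivFil

/-!
# D5: the patterns of slots
-/

set_option autoImplicit false

namespace Pool.Agent.D5

open Module NumberField
open Pool.Agent.Helper7 Pool.Agent.GPC Pool.Agent.Helper39.AF
open Pool.Agent.Helper8 (ML2 ML4)

lemma PH_lin {V : Type} [AddCommGroup V] [Module ℂ V] {n : ℕ} (α : V [⋀^Fin n]→ₗ[ℂ] ℂ)
    (w : Fin n → V) (i : Fin n) : IsLinearMap ℂ (fun x => α (Function.update w i x)) :=
  ⟨fun x y => α.map_update_add w i x y, fun c x => α.map_update_smul w i c x⟩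

lemma PH_comp {V W : Type} [AddCommGroup V] [Module ℂ V] [AddCommGroup W] [Module ℂ W]
    {f : V → ℂ} {g : W → V} (hf : IsLinearMap ℂ f) (hg : IsLinearMap ℂ g) :
    IsLinearMap ℂ (fun x => f (g x)) :=
  ⟨fun x y => by rw [hg.map_add, hf.map_add], fun c x => by rw [hg.map_smul, hf.map_smul]⟩

theorem PH_ (hSub : St_Sub) : St_PH := by
  intro X J _ _ B ι π hD α hα
  refine ⟨?_, ?_, ?_, ?_, ?_⟩
  · rintro H v ⟨S, hS, hv⟩
    have hi0 : ∃ i0 : Fin (2 * 2), ∀ i, i ≠ i0 → i ∈ S := by
      by_contra hcon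
      push Not at hcon
      obtain ⟨a, -, ha⟩ := hcon 0
      obtain ⟨b, hba, hb⟩ := hcon a
      have h1 : ({a, b} : Finset (Fin (2 * 2))) ⊆ Sᶜ := by
        intro x hx
        rw [Finset.mem_insert, Finset.mem_singleton] at hx
        rw [Finset.mem_compl]
        rcases hx with rfl | rfl
        · exact ha
        · exact hb
      have h2 := Finset.card_le_card h1
      rw [Finset.card_pair (Ne.symm hba), Finset.card_compl, Fintype.card_fin] at h2
      omega
    obtain ⟨i0, hi0⟩ := hi0
    have e1 : v = fun i => ∑ j, ι j (π j (v i)) := funext fun i => (hD.dec.sum (v i)).symm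
    have e2 : α v = ∑ s : Fin (2 * 2) → J, α (fun i => ι (s i) (π (s i) (v i))) := by
      conv_lhs => rw [e1]
      exact α.toMultilinearMap.map_sum (fun i j => ι j (π j (v i)))
    rw [e2]
    exact Finset.sum_eq_zero fun s _ => H s (fun i => π (s i) (v i))
      ⟨i0, fun i hi => (hD.dec.morπ (s i)).hodge _ (hv i (hi0 i hi))⟩
  · rintro s σ H v ⟨i0, hi0⟩
    have h1 := H (fun i => v (σ i)) ⟨σ.symm i0, fun i hi => hi0 (σ i) fun h => hi (by
      rw [← h, Equiv.symm_apply_apply])⟩
    have h2 : α ((fun i => ι (s i) (v i)) ∘ σ) = 0 := h1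
    rw [AlternatingMap.map_perm] at h2
    rcases Int.units_eq_one_or (Equiv.Perm.sign σ) with h | h
    · rw [h, one_smul] at h2
      exact h2
    · rw [h, Units.neg_smul, one_smul, neg_eq_zero] at h2
      exact h2
  · rintro j0 j1 j2 j3 H v ⟨i0, hi0⟩
    have e : (fun i => ι ((![j0, j1, j2, j3] : Fin (2 * 2) → J) i) (v i)) =
        ![ι j0 (v 0), ι j1 (v 1), ι j2 (v 2), ι j3 (v 3)] := by
      funext i
      fin_cases i <;> rfl
    rw [e]
    fin_cases i0
    · exact H.h1 _ _ _ _ (hi0 1 (by decide)) (hi0 2 (by decide)) (hi0 3 (by decide))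
    · exact H.h2 _ _ _ _ (hi0 0 (by decide)) (hi0 2 (by decide)) (hi0 3 (by decide))
    · exact H.h3 _ _ _ _ (hi0 0 (by decide)) (hi0 1 (by decide)) (hi0 3 (by decide))
    · exact H.h4 _ _ _ _ (hi0 0 (by decide)) (hi0 1 (by decide)) (hi0 2 (by decide))
  · rintro s hs v ⟨i0, hi0⟩
    obtain ⟨Y, ιY, πY, hι, hπ, hπι, hg, hS, -⟩ := hSub X J B ι π hD (Finset.univ.image s)
    have hβ : Y.IsGrothendieckClass 2 (α.compLinearMap (hι.linear.mk' ιY)) :=
      ⟨fun w hw => hα.1 _ fun r => hι.deRham _ (hw r), fun w hw => hα.2 _ fun r => hι.betti _ (hw r)⟩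
    have h1 := inFil_four Y (hg ▸ hs) 2 _ hβ (fun i => πY (ι (s i) (v i)))
      ⟨Finset.univ.erase i0, by
        rw [Finset.card_erase_of_mem (Finset.mem_univ _), Finset.card_univ, Fintype.card_fin]
        norm_num, fun r hr => hπ.hodge _ ((hD.dec.morι (s r)).hodge _
          (hi0 r (Finset.ne_of_mem_erase hr)))⟩
    have h2 : (fun i => ι (s i) (v i)) = fun i => ιY (πY (ι (s i) (v i))) :=
      funext fun i => (hS (s i) (Finset.mem_image_of_mem s (Finset.mem_univ i)) (v i)).symm
    rw [h2]
    exact h1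
  · intro j0 j1 j2 j3
    refine ⟨⟨fun y z w => ?_, fun x z w => ?_, fun x y w => ?_, fun x y z => ?_⟩, ?_, ?_⟩
    · have h := PH_comp (PH_lin α ![0, ι j1 y, ι j2 z, ι j3 w] 0) (hD.dec.morι j0).linear
      have e : (fun x => α (Function.update ![0, ι j1 y, ι j2 z, ι j3 w] 0 (ι j0 x))) =
          fun x => pat ι α j0 j1 j2 j3 x y z w := by
        funext x
        unfold pat
        congr 1
        funext i
        fin_cases i <;> simp [Function.update]
      rw [e] at h
      exact h
    · have h := PH_comp (PH_lin α ![ι j0 x, 0, ι j2 z, ι j3 w] 1) (hD.dec.morι j1).linear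
      have e : (fun y => α (Function.update ![ι j0 x, 0, ι j2 z, ι j3 w] 1 (ι j1 y))) =
          fun y => pat ι α j0 j1 j2 j3 x y z w := by
        funext y
        unfold pat
        congr 1
        funext i
        fin_cases i <;> simp [Function.update]
      rw [e] at h
      exact h
    · have h := PH_comp (PH_lin α ![ι j0 x, ι j1 y, 0, ι j3 w] 2) (hD.dec.morι j2).linear
      have e : (fun z => α (Function.update ![ι j0 x, ι j1 y, 0, ι j3 w] 2 (ι j2 z))) =
          fun z => pat ι α j0 j1 j2 j3 x y z w := by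
        funext z
        unfold pat
        congr 1
        funext i
        fin_cases i <;> simp [Function.update]
      rw [e] at h
      exact h
    · have h := PH_comp (PH_lin α ![ι j0 x, ι j1 y, ι j2 z, 0] 3) (hD.dec.morι j3).linear
      have e : (fun w => α (Function.update ![ι j0 x, ι j1 y, ι j2 z, 0] 3 (ι j3 w))) =
          fun w => pat ι α j0 j1 j2 j3 x y z w := by
        funext w
        unfold pat
        congr 1
        funext i
        fin_cases i <;> simp [Function.update]
      rw [e] at h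
      exact h
    · intro x y z w hx hy hz hw
      refine hα.1 _ fun r => ?_
      fin_cases r
      · exact (hD.dec.morι j0).deRham _ hx
      · exact (hD.dec.morι j1).deRham _ hy
      · exact (hD.dec.morι j2).deRham _ hz
      · exact (hD.dec.morι j3).deRham _ hw
    · intro x y z w hx hy hz hw
      refine hα.2 _ fun r => ?_
      fin_cases r
      · exact (hD.dec.morι j0).betti _ hx
      · exact (hD.dec.morι j1).betti _ hy
      · exact (hD.dec.morι j2).betti _ hz
      · exact (hD.dec.morι j3).betti _ hw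

end Pool.Agent.D5
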