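import Pool.Agent.D5.StR

/-!
# D5: the square of an elliptic curve without complex multiplication is a quaternion surface
-/

set_option autoImplicit false

namespace Pool.Agent.D5

open Module NumberField
open Pool.Agent.Helper7 Pool.Agent.GPC Pool.Agent.Helper39.AF

theorem Qua_ (hSub : St_Sub) : St_Qua := by
  intro X J _ _ B ι π D j k hjk hgj hgk hend hiso
  obtain ⟨θ, hθ, hθb⟩ := hiso
  obtain ⟨θ', hθ', h1, h2⟩ := exists_inv_mor (B j) (B k) θ hθ hθb
  obtain ⟨Y, iY, pY, hiY, hpY, hYY, hYg, hYS, hYs⟩ := hSub X J B ι π D {j, k}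
  have D' := D.dec
  have hj : j ∈ ({j, k} : Finset J) := by simp
  have hk : k ∈ ({j, k} : Finset J) := by simp
  have hp : Y.IsMor Y (fun y => pY (ι j (π j (iY y)))) :=
    isMor_comp hpY (isMor_comp (D'.morι j) (isMor_comp (D'.morπ j) hiY))
  have hq : Y.IsMor Y (fun y => pY (ι k (θ (π j (iY y))))) :=
    isMor_comp hpY (isMor_comp (D'.morι k) (isMor_comp hθ (isMor_comp (D'.morπ j) hiY)))
  have ej : ∀ x, π j (iY (pY (ι j x))) = x := fun x => by rw [hYS j hj, D'.πι]
  have ek : ∀ x, π k (iY (pY (ι k x))) = x := fun x => by rw [hYS k hk, D'.πι]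
  have ejk : ∀ x, π j (iY (pY (ι k x))) = 0 := fun x => by rw [hYS k hk, D'.off j k hjk]
  refine ⟨Y, iY, hiY, Function.LeftInverse.injective (g := pY) hYY, ?_, ?_, ?_⟩
  · rw [hYg, Finset.sum_pair hjk, hgj, hgk]
  · refine ⟨_, _, (isEnd_iff Y _).mpr hp, (isEnd_iff Y _).mpr hq, ?_⟩
    obtain ⟨x, hx⟩ : ∃ x : (B j).H1, x ≠ 0 := by
      have h3 : finrank ℂ (B j).H1 = 2 := by rw [finrank_H1, hgj]
      have : Nontrivial (B j).H1 := Module.nontrivial_of_finrank_pos (R := ℂ) (by rw [h3]; norm_num)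
      exact exists_ne 0
    refine ⟨pY (ι j x), fun hc => hx ?_⟩
    simp only [ej, ejk] at hc
    rw [(D'.morι j).linear.map_zero, hpY.linear.map_zero] at hc
    have h3 : θ x = 0 := by rw [← ek (θ x), ← hc, hiY.linear.map_zero, (D'.morπ k).linear.map_zero]
    rw [← h1 x, h3, hθ'.linear.map_zero]
  · intro f hf hcomm
    have hf' := (isEnd_iff Y f).mp hf
    obtain ⟨c, hc⟩ := hend (fun x => π j (iY (f (pY (ι j x))))) ((isEnd_iff (B j) _).mpr
      (isMor_comp (D'.morπ j) (isMor_comp hiY (isMor_comp hf' (isMor_comp hpY (D'.morι j))))))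
    refine ⟨c, fun v => ?_⟩
    have hfj : ∀ a, f (pY (ι j a)) = (c : ℂ) • pY (ι j a) := by
      intro a
      have h3 := hcomm _ ((isEnd_iff Y _).mpr hp) (pY (ι j a))
      simp only [ej] at h3
      rw [h3]
      rw [hc a, (D'.morι j).linear.map_smul, hpY.linear.map_smul]
    have hfk : ∀ b, f (pY (ι k b)) = (c : ℂ) • pY (ι k b) := by
      intro b
      have h3 := hcomm _ ((isEnd_iff Y _).mpr hq) (pY (ι j (θ' b)))
      simp only [ej, h2] at h3
      rw [h3, hfj, hiY.linear.map_smul, (D'.morπ j).linear.map_smul, ej,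
        hθ.linear.map_smul, h2, (D'.morι k).linear.map_smul, hpY.linear.map_smul]
    have hv : v = pY (ι j (π j (iY v))) + pY (ι k (π k (iY v))) := by
      rw [← hpY.linear.map_add, ← Finset.sum_pair (f := fun i => ι i (π i (iY v))) hjk, ← hYs, hYY,
        hYY]
    rw [hv, hf'.linear.map_add, hfj, hfk, smul_add]

end Pool.Agent.D5
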