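import Pool.Agent.D5.StL

/-!
[S6] a symplectic module of dimension six and a plane: invariant functions which are alternating in
the two vectors of `V` and symmetric in the two vectors of `W` vanish.
-/

set_option autoImplicit false

namespace Pool.Agent.D5

open Module LieAlgebra LieModule
open Pool.Agent.Helper8 (Principal Symp ML2 ML4 Inv2 Inv4)

section S6

variable {L W V : Type} [LieRing L] [LieAlgebra ℂ L] [AddCommGroup W] [Module ℂ W]
  [LieRingModule L W] [AddCommGroup V] [Module ℂ V] [LieRingModule L V] [LieModule ℂ L V]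
  {S : SlI L W} {m : ℕ} {U : Submodule ℂ V}

/-- the kernel of a form on `U` -/
private def S6_ker (U : Submodule ℂ V) (t : V →ₗ[ℂ] V →ₗ[ℂ] ℂ) : Submodule ℂ V where
  carrier := {a | a ∈ U ∧ ∀ b ∈ U, t a b = 0}
  add_mem' := by
    rintro a a' ⟨h1, h2⟩ ⟨h3, h4⟩
    refine ⟨U.add_mem h1 h3, fun b hb => ?_⟩
    rw [map_add, LinearMap.add_apply, h2 b hb, h4 b hb, add_zero]
  zero_mem' := ⟨U.zero_mem, fun b _ => by rw [map_zero, LinearMap.zero_apply]⟩
  smul_mem' := by
    rintro c a ⟨h1, h2⟩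
    refine ⟨U.smul_mem c h1, fun b hb => ?_⟩
    rw [map_smul, LinearMap.smul_apply, h2 b hb, smul_zero]

private lemma S6_irr (T : TopJ S V m U) (t : V →ₗ[ℂ] V →ₗ[ℂ] ℂ)
    (ht : ∀ n ∈ S.N, ∀ a ∈ U, ∀ b ∈ U, t ⁅n, a⁆ b + t a ⁅n, b⁆ = 0) :
    (∀ a ∈ U, (∀ b ∈ U, t a b = 0) → a = 0) ∨ (∀ a ∈ U, ∀ b ∈ U, t a b = 0) := by
  rcases T.irr (S6_ker U t) (fun a ha => ha.1) (fun n hn a ha =>
    ⟨T.nU n hn a ha.1, fun b hb => by
      have h1 := ht n hn a ha.1 b hb
      rw [ha.2 _ (T.nU n hn b hb), add_zero] at h1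
      exact h1⟩) with h | h
  · left
    intro a ha hb
    have h1 : a ∈ S6_ker U t := ⟨ha, hb⟩
    rw [h] at h1
    exact (Submodule.mem_bot ℂ).1 h1
  · right
    intro a ha b hb
    have h1 : a ∈ S6_ker U t := by rw [h]; exact ha
    exact h1.2 b hb

/-- coordinates in dimension three -/
private lemma S6_three (hU : finrank ℂ U = 3) : ∃ u0 ∈ U, ∃ u1 ∈ U, ∃ u2 ∈ U,
    (∀ v ∈ U, ∃ a b c : ℂ, v = a • u0 + b • u1 + c • u2) ∧
    ∀ a b c : ℂ, a • u0 + b • u1 + c • u2 = 0 → a = 0 ∧ b = 0 ∧ c = 0 := by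
  have hf : FiniteDimensional ℂ U := FiniteDimensional.of_finrank_pos (by omega)
  let b := finBasisOfFinrankEq ℂ U hU
  refine ⟨b 0, (b 0).2, b 1, (b 1).2, b 2, (b 2).2, ?_, ?_⟩
  · intro v hv
    have h1 := b.sum_repr ⟨v, hv⟩
    rw [Fin.sum_univ_three] at h1
    have h2 := congrArg (fun z : U => (z : V)) h1
    simp only [Submodule.coe_add, Submodule.coe_smul] at h2
    exact ⟨_, _, _, h2.symm⟩
  · intro x y z h
    have h1 : x • b 0 + y • b 1 + z • b 2 = 0 := by
      apply Subtype.ext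
      simpa only [Submodule.coe_add, Submodule.coe_smul, Submodule.coe_zero] using h
    have h2 := Fintype.linearIndependent_iff.1 b.linearIndependent ![x, y, z] (by
      rw [Fin.sum_univ_three]
      exact h1)
    exact ⟨h2 0, h2 1, h2 2⟩

/-- coordinates in dimension two -/
private lemma S6_two (hU : finrank ℂ U = 2) : ∃ u0 ∈ U, ∃ u1 ∈ U,
    (∀ v ∈ U, ∃ a b : ℂ, v = a • u0 + b • u1) ∧
    ∀ a b : ℂ, a • u0 + b • u1 = 0 → a = 0 ∧ b = 0 := by
  have hf : FiniteDimensional ℂ U := FiniteDimensional.of_finrank_pos (by omega)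
  let b := finBasisOfFinrankEq ℂ U hU
  refine ⟨b 0, (b 0).2, b 1, (b 1).2, ?_, ?_⟩
  · intro v hv
    have h1 := b.sum_repr ⟨v, hv⟩
    rw [Fin.sum_univ_two] at h1
    have h2 := congrArg (fun z : U => (z : V)) h1
    simp only [Submodule.coe_add, Submodule.coe_smul] at h2
    exact ⟨_, _, h2.symm⟩
  · intro x y h
    have h1 : x • b 0 + y • b 1 = 0 := by
      apply Subtype.ext
      simpa only [Submodule.coe_add, Submodule.coe_smul, Submodule.coe_zero] using h
    have h2 := Fintype.linearIndependent_iff.1 b.linearIndependent ![x, y] (by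
      rw [Fin.sum_univ_two]
      exact h1)
    exact ⟨h2 0, h2 1⟩

/-- coordinates in dimension one -/
private lemma S6_one (hU : finrank ℂ U = 1) : ∃ u0 ∈ U, ∀ v ∈ U, ∃ a : ℂ, v = a • u0 := by
  have hf : FiniteDimensional ℂ U := FiniteDimensional.of_finrank_pos (by omega)
  let b := finBasisOfFinrankEq ℂ U hU
  refine ⟨b 0, (b 0).2, ?_⟩
  intro v hv
  have h1 := b.sum_repr ⟨v, hv⟩
  rw [Fin.sum_univ_one] at h1
  have h2 := congrArg (fun z : U => (z : V)) h1
  simp only [Submodule.coe_smul] at h2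
  exact ⟨_, h2.symm⟩

private lemma S6_alt (T : TopJ S V m U) (hU : finrank ℂ U = 3) (t : V →ₗ[ℂ] V →ₗ[ℂ] ℂ)
    (ht : ∀ n ∈ S.N, ∀ a ∈ U, ∀ b ∈ U, t ⁅n, a⁆ b + t a ⁅n, b⁆ = 0)
    (ha : ∀ a ∈ U, ∀ b ∈ U, t a b = - t b a) : ∀ a ∈ U, ∀ b ∈ U, t a b = 0 := by
  rcases S6_irr T t ht with h | h
  · obtain ⟨u0, h0, u1, h1, u2, h2, hs, hi⟩ := S6_three hU
    have h00 : t u0 u0 = 0 := by have := ha u0 h0 u0 h0; linear_combination this / 2
    have h11 : t u1 u1 = 0 := by have := ha u1 h1 u1 h1; linear_combination this / 2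
    have h22 : t u2 u2 = 0 := by have := ha u2 h2 u2 h2; linear_combination this / 2
    have h10 := ha u1 h1 u0 h0
    have h20 := ha u2 h2 u0 h0
    have h21 := ha u2 h2 u1 h1
    have hv : t u1 u2 • u0 + (- t u0 u2) • u1 + t u0 u1 • u2 = 0 := by
      apply h
      · exact U.add_mem (U.add_mem (U.smul_mem _ h0) (U.smul_mem _ h1)) (U.smul_mem _ h2)
      · intro b hb
        obtain ⟨x, y, z, rfl⟩ := hs b hb
        simp only [map_add, map_smul, LinearMap.add_apply, LinearMap.smul_apply, smul_eq_mul]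
        rw [h00, h11, h22, h10, h20, h21]
        ring
    obtain ⟨e1, e2, e3⟩ := hi _ _ _ hv
    rw [e3] at h10
    rw [e1] at h21
    have e2' : t u0 u2 = 0 := by linear_combination - e2
    rw [e2'] at h20
    intro a haU b hbU
    obtain ⟨x, y, z, rfl⟩ := hs a haU
    obtain ⟨x', y', z', rfl⟩ := hs b hbU
    simp only [map_add, map_smul, LinearMap.add_apply, LinearMap.smul_apply, smul_eq_mul]
    rw [h00, h11, h22, h10, h20, h21, e1, e2', e3]
    ring
  · exact h

private lemma S6_sym (T : TopJ S V m U) (hU : finrank ℂ U = 2) (t : V →ₗ[ℂ] V →ₗ[ℂ] ℂ)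
    (ht : ∀ n ∈ S.N, ∀ a ∈ U, ∀ b ∈ U, t ⁅n, a⁆ b + t a ⁅n, b⁆ = 0)
    (ha : ∀ a ∈ U, ∀ b ∈ U, t a b = t b a) : ∀ a ∈ U, ∀ b ∈ U, t a b = 0 := by
  rcases S6_irr T t ht with h | h
  · exfalso
    obtain ⟨u0, h0, u1, h1, hs, hi⟩ := S6_two hU
    -- an isotropic vector
    obtain ⟨x, y, hxy, hiso⟩ : ∃ x y : ℂ, (x ≠ 0 ∨ y ≠ 0) ∧
        t (x • u0 + y • u1) (x • u0 + y • u1) = 0 := by
      by_cases h00 : t u0 u0 = 0
      · refine ⟨1, 0, Or.inl one_ne_zero, ?_⟩
        simp [h00]
      · obtain ⟨s, hs'⟩ := IsAlgClosed.exists_pow_nat_eq (t u0 u1 ^ 2 - t u0 u0 * t u1 u1)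
          (n := 2) (by norm_num)
        refine ⟨(s - t u0 u1) / t u0 u0, 1, Or.inr one_ne_zero, ?_⟩
        have h10 := ha u1 h1 u0 h0
        simp only [map_add, map_smul, LinearMap.add_apply, LinearMap.smul_apply, smul_eq_mul]
        rw [h10]
        field_simp
        linear_combination hs'
    set u := x • u0 + y • u1 with hu
    have huU : u ∈ U := U.add_mem (U.smul_mem _ h0) (U.smul_mem _ h1)
    have hu0 : u ≠ 0 := by
      intro h2
      obtain ⟨h3, h4⟩ := hi _ _ h2
      rcases hxy with h5 | h5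
      · exact h5 h3
      · exact h5 h4
    -- vectors orthogonal to `u`
    have horth : ∀ v ∈ U, t u v = 0 → ∃ c : ℂ, v = c • u := by
      intro v hv hvu
      obtain ⟨a, b, rfl⟩ := hs v hv
      by_cases hd : x * b - y * a = 0
      · rcases hxy with h5 | h5
        · refine ⟨a / x, ?_⟩
          rw [hu, smul_add, smul_smul, smul_smul, div_mul_cancel₀ a h5]
          have : a / x * y = b := by
            field_simp
            linear_combination - hd
          rw [this]
        · refine ⟨b / y, ?_⟩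
          rw [hu, smul_add, smul_smul, smul_smul, div_mul_cancel₀ b h5]
          have : b / y * x = a := by
            field_simp
            linear_combination hd
          rw [this]
      · exfalso
        apply hu0
        apply h u huU
        have e0 : (x * b - y * a) * t u u0 = 0 := by
          have h6 : (x * b - y * a) • u0 = b • u - y • (a • u0 + b • u1) := by
            rw [hu]; module
          have h7 := congrArg (t u) h6
          rw [map_smul, map_sub, map_smul, map_smul, hiso, hvu, smul_eq_mul] at h7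
          rw [h7]; simp
        have e1 : (x * b - y * a) * t u u1 = 0 := by
          have h6 : (x * b - y * a) • u1 = x • (a • u0 + b • u1) - a • u := by
            rw [hu]; module
          have h7 := congrArg (t u) h6
          rw [map_smul, map_sub, map_smul, map_smul, hiso, hvu, smul_eq_mul] at h7
          rw [h7]; simp
        have e0' := (mul_eq_zero.1 e0).resolve_left hd
        have e1' := (mul_eq_zero.1 e1).resolve_left hd
        intro b' hb'
        obtain ⟨a1, b1, rfl⟩ := hs b' hb'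
        rw [map_add, map_smul, map_smul, e0', e1']
        simp
    -- the line of `u` is stable
    have hst : ∀ n ∈ S.N, ∃ c : ℂ, ⁅n, u⁆ = c • u := by
      intro n hn
      apply horth _ (T.nU n hn u huU)
      have h2 := ht n hn u huU u huU
      rw [ha _ (T.nU n hn u huU) _ huU] at h2
      linear_combination h2 / 2
    rcases T.irr (Submodule.span ℂ {u}) (by
        rw [Submodule.span_singleton_le_iff_mem]; exact huU) (by
        intro n hn v hv
        obtain ⟨c, rfl⟩ := Submodule.mem_span_singleton.1 hv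
        obtain ⟨d, hd⟩ := hst n hn
        rw [lie_smul, hd]
        exact Submodule.smul_mem _ _ (Submodule.smul_mem _ _ (Submodule.mem_span_singleton_self u)))
      with h2 | h2
    · exact hu0 ((Submodule.span_singleton_eq_bot).1 h2)
    · have h3 := finrank_span_singleton (K := ℂ) hu0
      rw [h2, hU] at h3
      omega
  · exact h

private lemma S6_core (T : TopJ S V m U) (hV : finrank ℂ V = 6) (g : V →ₗ[ℂ] V →ₗ[ℂ] ℂ)
    (hn : ∀ n ∈ S.N, ∀ x y : V, g ⁅n, x⁆ y + g x ⁅n, y⁆ = 0)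
    (hh : ∀ x y : V, g ⁅S.h, x⁆ y + g x ⁅S.h, y⁆ + 2 * g x y = 0)
    (he : ∀ x y : V, g ⁅S.e, x⁆ y + g x ⁅S.e, y⁆ = 0)
    (ha : ∀ x y : V, g x y = - g y x) : ∀ x y : V, g x y = 0 := by
  -- weights
  have hw : ∀ a ∈ U, ∀ b ∈ U, ∀ i j : ℕ, i + j ≠ m + 1 → g (fpow S V i a) (fpow S V j b) = 0 := by
    intro a haU b hbU i j hij
    have h1 := hh (fpow S V i a) (fpow S V j b)
    rw [T.hf a haU i, T.hf b hbU j, map_smul, map_smul, LinearMap.smul_apply, smul_eq_mul,
      smul_eq_mul] at h1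
    have h2 : (2 * ((m : ℂ) + 1 - i - j)) * g (fpow S V i a) (fpow S V j b) = 0 := by
      linear_combination h1
    rcases mul_eq_zero.1 h2 with h3 | h3
    · exfalso
      apply hij
      have h4 : ((i + j : ℕ) : ℂ) = ((m + 1 : ℕ) : ℂ) := by
        push_cast
        linear_combination - h3 / 2
      exact_mod_cast h4
    · exact h3
  -- it is enough to treat the pairs with sum `m + 1`
  have hred : (∀ a ∈ U, ∀ b ∈ U, ∀ i j : ℕ, i ≤ m → j ≤ m → i + j = m + 1 →
      g (fpow S V i a) (fpow S V j b) = 0) → ∀ x y : V, g x y = 0 := by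
    intro h x y
    obtain ⟨u, hu, rfl⟩ := T.span x
    obtain ⟨u', hu', rfl⟩ := T.span y
    rw [map_sum g, LinearMap.sum_apply]
    apply Finset.sum_eq_zero
    intro i _
    rw [map_sum]
    apply Finset.sum_eq_zero
    intro j _
    by_cases hij : (i : ℕ) + (j : ℕ) = m + 1
    · exact h _ (hu i) _ (hu' j) i j (by have := i.2; omega) (by have := j.2; omega) hij
    · exact hw _ (hu i) _ (hu' j) i j hij
  -- invariance under `N`
  have hN : ∀ i j : ℕ, ∀ n ∈ S.N, ∀ a ∈ U, ∀ b ∈ U,
      (g.compl₁₂ (fpow S V i) (fpow S V j)) ⁅n, a⁆ b +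
        (g.compl₁₂ (fpow S V i) (fpow S V j)) a ⁅n, b⁆ = 0 := by
    intro i j n hnN a _ b _
    simp only [LinearMap.compl₁₂_apply]
    rw [← T.nf n hnN, ← T.nf n hnN]
    exact hn n hnN _ _
  have hdim := T.dim
  rw [hV] at hdim
  have hm : m = 0 ∨ m = 1 ∨ m = 2 ∨ m = 5 := by
    have h1 : (m + 1) ∣ 6 := Dvd.intro _ hdim
    have h2 : m + 1 ≤ 6 := Nat.le_of_dvd (by norm_num) h1
    have h3 : m ≤ 5 := by omega
    interval_cases m
    · omega
    · omega
    · omega
    · omega
    · omega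
    · omega
  apply hred
  rcases hm with rfl | rfl | rfl | rfl
  · intro a _ b _ i j hi hj hij
    omega
  · have hU : finrank ℂ U = 3 := by omega
    have h1 := S6_alt T hU _ (hN 1 1) (fun a _ b _ => by
      simp only [LinearMap.compl₁₂_apply]
      exact ha _ _)
    intro a haU b hbU i j hi hj hij
    have hi' : i = 1 := by omega
    have hj' : j = 1 := by omega
    subst hi' hj'
    exact h1 a haU b hbU
  · have hU : finrank ℂ U = 2 := by omega
    have hsym : ∀ a ∈ U, ∀ b ∈ U, g (fpow S V 1 a) (fpow S V 2 b) =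
        g (fpow S V 1 b) (fpow S V 2 a) := by
      intro a haU b hbU
      have h1 := he (fpow S V 2 a) (fpow S V 2 b)
      have h2 := T.ef a haU 1
      have h3 := T.ef b hbU 1
      norm_num at h2 h3
      rw [h2, h3, map_smul, map_smul, LinearMap.smul_apply, smul_eq_mul, smul_eq_mul,
        ha (fpow S V 2 a) (fpow S V 1 b)] at h1
      linear_combination h1 / 2
    have h1 := S6_sym T hU _ (hN 1 2) (fun a haU b hbU => by
      simp only [LinearMap.compl₁₂_apply]
      exact hsym a haU b hbU)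
    intro a haU b hbU i j hi hj hij
    have h2 : (i = 1 ∧ j = 2) ∨ (i = 2 ∧ j = 1) := by omega
    rcases h2 with ⟨rfl, rfl⟩ | ⟨rfl, rfl⟩
    · exact h1 a haU b hbU
    · rw [ha]
      have h3 := h1 b hbU a haU
      simp only [LinearMap.compl₁₂_apply] at h3
      rw [h3, neg_zero]
  · have hU : finrank ℂ U = 1 := by omega
    obtain ⟨v, hv, hs⟩ := S6_one hU
    have e2 := T.ef v hv 1
    have e3 := T.ef v hv 2
    have e4 := T.ef v hv 3
    have e5 := T.ef v hv 4
    norm_num at e2 e3 e4 e5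
    have q1 := he (fpow S V 3 v) (fpow S V 4 v)
    rw [e3, e4, map_smul, map_smul, LinearMap.smul_apply, smul_eq_mul, smul_eq_mul] at q1
    have q33 : g (fpow S V 3 v) (fpow S V 3 v) = 0 := by
      have := ha (fpow S V 3 v) (fpow S V 3 v)
      linear_combination this / 2
    have q24 : g (fpow S V 2 v) (fpow S V 4 v) = 0 := by
      rw [q33] at q1
      linear_combination q1 / 9
    have q2 := he (fpow S V 2 v) (fpow S V 5 v)
    rw [e2, e5, map_smul, map_smul, LinearMap.smul_apply, smul_eq_mul, smul_eq_mul, q24] at q2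
    have q15 : g (fpow S V 1 v) (fpow S V 5 v) = 0 := by
      linear_combination q2 / 8
    have q42 : g (fpow S V 4 v) (fpow S V 2 v) = 0 := by rw [ha, q24, neg_zero]
    have q51 : g (fpow S V 5 v) (fpow S V 1 v) = 0 := by rw [ha, q15, neg_zero]
    intro a haU b hbU i j hi hj hij
    obtain ⟨c, rfl⟩ := hs a haU
    obtain ⟨d, rfl⟩ := hs b hbU
    rw [map_smul, map_smul, map_smul, map_smul, LinearMap.smul_apply]
    have h2 : (i = 1 ∧ j = 5) ∨ (i = 2 ∧ j = 4) ∨ (i = 3 ∧ j = 3) ∨ (i = 4 ∧ j = 2) ∨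
        (i = 5 ∧ j = 1) := by omega
    rcases h2 with ⟨rfl, rfl⟩ | ⟨rfl, rfl⟩ | ⟨rfl, rfl⟩ | ⟨rfl, rfl⟩ | ⟨rfl, rfl⟩
    · rw [q15]; simp
    · rw [q24]; simp
    · rw [q33]; simp
    · rw [q42]; simp
    · rw [q51]; simp

end S6

theorem S6_ (hTop : St_Top) : St_S6 := by
  intro L W V _ _ _ _ _ _ _ _ _ _ _ _ _ _ S hV _ G hG hI hal hsy
  obtain ⟨m, U, T, -⟩ := hTop L W V S
  let g : V →ₗ[ℂ] V →ₗ[ℂ] ℂ := LinearMap.mk₂ ℂ (fun x y => G x y S.w0 S.w0)
    (fun x x' y => (hG.l1 y S.w0 S.w0).map_add x x')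
    (fun c x y => by rw [(hG.l1 y S.w0 S.w0).map_smul c x])
    (fun x y y' => (hG.l2 x S.w0 S.w0).map_add y y')
    (fun c x y => by rw [(hG.l2 x S.w0 S.w0).map_smul c y])
  have hgv : ∀ x y, g x y = G x y S.w0 S.w0 := fun x y => rfl
  have z3 : ∀ x y w, G x y 0 w = 0 := fun x y w => (hG.l3 x y w).map_zero
  have z4 : ∀ x y z, G x y z 0 = 0 := fun x y z => (hG.l4 x y z).map_zero
  have h00 : ∀ x y, G x y S.w0 S.w0 = 0 := by
    have := S6_core T hV g (fun n hn x y => by
        have h1 := hI n x y S.w0 S.w0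
        rw [S.triv n hn, z3, z4] at h1
        simp only [hgv]
        linear_combination h1)
      (fun x y => by
        have h1 := hI S.h x y S.w0 S.w0
        rw [S.h0] at h1
        simp only [hgv]
        linear_combination h1)
      (fun x y => by
        have h1 := hI S.e x y S.w0 S.w0
        rw [S.e0, z3, z4] at h1
        simp only [hgv]
        linear_combination h1)
      (fun x y => by
        simp only [hgv]
        exact hal y x S.w0 S.w0)
    exact this
  have h01 : ∀ x y, G x y S.w0 S.w1 = 0 := by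
    intro x y
    have h1 := hI S.f x y S.w0 S.w0
    rw [S.f0, h00, h00, hsy x y S.w0 S.w1] at h1
    linear_combination h1 / 2
  have h10 : ∀ x y, G x y S.w1 S.w0 = 0 := by
    intro x y
    rw [hsy x y S.w0 S.w1]
    exact h01 x y
  have h11 : ∀ x y, G x y S.w1 S.w1 = 0 := by
    intro x y
    have h1 := hI S.f x y S.w0 S.w1
    rw [S.f0, S.f1, h01, h01, z4] at h1
    linear_combination h1
  intro x y z w
  obtain ⟨a, b, rfl⟩ := S.span z
  obtain ⟨c, d, rfl⟩ := S.span w
  rw [(hG.l3 x y _).map_add, (hG.l3 x y _).map_smul, (hG.l3 x y _).map_smul,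
    (hG.l4 x y _).map_add, (hG.l4 x y _).map_smul, (hG.l4 x y _).map_smul,
    (hG.l4 x y _).map_add, (hG.l4 x y _).map_smul, (hG.l4 x y _).map_smul, h00, h01, h10, h11]
  simp

end Pool.Agent.D5
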