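import Pool.Agent.D5.StL

/-!
# D5, module Sl: the ideal attached to an irreducible plane (helper81)
-/

set_option autoImplicit false

namespace Pool.Agent.D5

open Module LieAlgebra LieModule
open Pool.Agent.Helper8 (Principal Symp ML2 ML4 Inv2 Inv4)
open Pool.Agent.Helper24 (ProjTriple)

section

variable {L : Type} [LieRing L] [LieAlgebra ℂ L]

private theorem Sl_zero {J J' : LieIdeal ℂ L} (h : Disjoint J J') {x y : L} (hx : x ∈ J)
    (hy : y ∈ J') : ⁅x, y⁆ = 0 := by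
  have h1 : ⁅x, y⁆ ∈ J := lie_mem_left ℂ L J x y hx
  have h2 : ⁅x, y⁆ ∈ J' := lie_mem_right ℂ L J' x y hy
  have h3 : ⁅x, y⁆ ∈ J ⊓ J' := ⟨h1, h2⟩
  rw [h.eq_bot] at h3
  exact h3

private theorem Sl_eq {J J' : LieIdeal ℂ L} (h : Disjoint J J') {a a' b b' : L} (ha : a ∈ J)
    (ha' : a' ∈ J) (hb : b ∈ J') (hb' : b' ∈ J') (he : a + b = a' + b') : a = a' := by
  have h1 : a - a' = b' - b := by
    have : a + b - a' - b = a' + b' - a' - b := by rw [he]
    calc a - a' = a + b - a' - b := by abel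
      _ = a' + b' - a' - b := this
      _ = b' - b := by abel
  have h2 : a - a' ∈ J ⊓ J' := ⟨J.sub_mem ha ha', by rw [h1]; exact J'.sub_mem hb' hb⟩
  rw [h.eq_bot] at h2
  have h3 : a - a' = 0 := h2
  exact sub_eq_zero.mp h3

/-- the components of the principal triple -/
private theorem Sl_proj (p : Principal L) {J J' : LieIdeal ℂ L} (hJ : IsCompl J J')
    {h1 h2 e1 e2 f1 f2 : L} (hh1 : h1 ∈ J) (hh2 : h2 ∈ J') (hh : h1 + h2 = p.h)
    (he1 : e1 ∈ J) (he2 : e2 ∈ J') (hee : e1 + e2 = p.e)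
    (hf1 : f1 ∈ J) (hf2 : f2 ∈ J') (hff : f1 + f2 = p.f) : ProjTriple J p.h h1 e1 f1 := by
  have hd := hJ.disjoint
  have hsplit : ∀ x : L, ∃ y ∈ J, ∃ z ∈ J', y + z = x := by
    intro x
    rw [← LieSubmodule.mem_sup, hJ.sup_eq_top]
    exact LieSubmodule.mem_top x
  have z12 : ∀ x ∈ J, ∀ y ∈ J', ⁅x, y⁆ = 0 := fun x hx y hy => Sl_zero hd hx hy
  have z21 : ∀ x ∈ J', ∀ y ∈ J, ⁅x, y⁆ = 0 := fun x hx y hy => Sl_zero hd.symm hx hy
  refine ⟨hh1, ?_, ?_, ?_, ?_, ?_⟩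
  · have h := p.ef
    rw [← hh, ← hee, ← hff, add_lie, lie_add, lie_add, z12 e1 he1 f2 hf2, z21 e2 he2 f1 hf1,
      add_zero, zero_add] at h
    exact Sl_eq hd (lie_mem_left ℂ L J e1 f1 he1) hh1 (lie_mem_left ℂ L J' e2 f2 he2) hh2 h
  · have h := p.he
    rw [← hh, ← hee, add_lie, lie_add, lie_add, z12 h1 hh1 e2 he2, z21 h2 hh2 e1 he1,
      add_zero, zero_add, smul_add] at h
    exact Sl_eq hd (lie_mem_left ℂ L J h1 e1 hh1) (J.smul_mem _ he1)
      (lie_mem_left ℂ L J' h2 e2 hh2) (J'.smul_mem _ he2) h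
  · have h := p.hf
    rw [← hh, ← hff, add_lie, lie_add, lie_add, z12 h1 hh1 f2 hf2, z21 h2 hh2 f1 hf1,
      add_zero, zero_add, smul_add] at h
    exact Sl_eq hd (lie_mem_left ℂ L J h1 f1 hh1) (J.smul_mem _ hf1)
      (lie_mem_left ℂ L J' h2 f2 hh2) (J'.smul_mem _ hf2) h
  · intro x hx
    rw [← hh, add_sub_cancel_left]
    exact z21 h2 hh2 x hx
  · have key : ∀ (m : ℤ) (y : L), ⁅p.h, y⁆ = ((2 * m : ℤ) : ℂ) • y →
        y ∈ Submodule.span ℂ {y : L | ∃ m : ℤ, ⁅h1, y⁆ = ((2 * m : ℤ) : ℂ) • y} := by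
      intro m y hy
      obtain ⟨y1, hy1, y2, hy2, rfl⟩ := hsplit y
      rw [← hh, add_lie, lie_add, lie_add, z12 h1 hh1 y2 hy2, z21 h2 hh2 y1 hy1,
        add_zero, zero_add, smul_add] at hy
      have h3 := Sl_eq hd (lie_mem_left ℂ L J h1 y1 hh1) (J.smul_mem _ hy1)
        (lie_mem_left ℂ L J' h2 y2 hh2) (J'.smul_mem _ hy2) hy
      refine Submodule.add_mem _ (Submodule.subset_span ⟨m, h3⟩) (Submodule.subset_span ⟨0, ?_⟩)
      rw [z12 h1 hh1 y2 hy2]; simp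
    intro x
    obtain ⟨a, ha, b, hb, rfl⟩ := Submodule.mem_sup.mp (p.dec x)
    obtain ⟨a0, ha0, a1, ha1, rfl⟩ := Submodule.mem_sup.mp ha
    refine Submodule.add_mem _ (Submodule.add_mem _ ?_ ?_) ?_
    · refine key 0 a0 ?_
      rw [p.ab _ p.hZ _ ha0]; simp
    · refine Submodule.span_le.mpr ?_ ha1
      rintro y ⟨n, hn⟩
      refine key (n + 1) y ?_
      rw [hn]; push_cast; rfl
    · refine Submodule.span_le.mpr ?_ hb
      rintro y ⟨n, hn⟩
      refine key (-(n + 1)) y ?_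
      rw [hn]; push_cast; congr 1; ring

end

section

variable {L W : Type} [LieRing L] [LieAlgebra ℂ L] [AddCommGroup W] [Module ℂ W]
  [LieRingModule L W] [LieModule ℂ L W]

/-- two eigenvectors -/
private theorem Sl_indep {x : L} {v w : W} {a b : ℂ} (hv : v ≠ 0) (hw : w ≠ 0)
    (h1 : ⁅x, v⁆ = a • v) (h2 : ⁅x, w⁆ = b • w) (hab : a ≠ b) (s t : ℂ)
    (h : s • v + t • w = 0) : s = 0 ∧ t = 0 := by
  have h3 : ⁅x, s • v + t • w⁆ = (s * a) • v + (t * b) • w := by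
    rw [lie_add, lie_smul, lie_smul, h1, h2, smul_smul, smul_smul]
  rw [h, lie_zero] at h3
  have h4 : (t * (b - a)) • w = ((s * a) • v + (t * b) • w) - a • (s • v + t • w) := by
    module
  rw [← h3, h, smul_zero, sub_zero] at h4
  have h5 : t = 0 := by
    rcases smul_eq_zero.1 h4 with h5 | h5
    · rcases mul_eq_zero.1 h5 with h6 | h6
      · exact h6
      · exact absurd (sub_eq_zero.1 h6).symm hab
    · exact absurd h5 hw
  rw [h5, zero_smul, add_zero] at h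
  exact ⟨(smul_eq_zero.1 h).resolve_right hv, h5⟩

private theorem Sl_span (hd : finrank ℂ W = 2) {v w : W}
    (hi : ∀ s t : ℂ, s • v + t • w = 0 → s = 0 ∧ t = 0) (z : W) :
    ∃ s t : ℂ, z = s • v + t • w := by
  have h1 : LinearIndependent ℂ ![v, w] := by
    rw [LinearIndependent.pair_iff]
    exact hi
  let b := basisOfLinearIndependentOfCardEqFinrank h1 (by rw [hd]; rfl)
  have hb0 : b 0 = v := by simp [b]
  have hb1 : b 1 = w := by simp [b]
  have h2 := b.sum_repr z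
  rw [Fin.sum_univ_two, hb0, hb1] at h2
  exact ⟨b.repr z 0, b.repr z 1, h2.symm⟩

private theorem Sl_trace (hd : finrank ℂ W = 2) {v w : W}
    (hi : ∀ s t : ℂ, s • v + t • w = 0 → s = 0 ∧ t = 0) (x : L) {a b c d : ℂ}
    (hv : ⁅x, v⁆ = a • v + b • w) (hw : ⁅x, w⁆ = c • v + d • w) :
    LinearMap.trace ℂ W (toEnd ℂ L W x) = a + d := by
  have h1 : LinearIndependent ℂ ![v, w] := by
    rw [LinearIndependent.pair_iff]
    exact hi
  let B := basisOfLinearIndependentOfCardEqFinrank h1 (by rw [hd]; rfl)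
  have hB0 : B 0 = v := by simp [B]
  have hB1 : B 1 = w := by simp [B]
  rw [LinearMap.trace_eq_matrix_trace ℂ B, Matrix.trace_fin_two, LinearMap.toMatrix_apply,
    LinearMap.toMatrix_apply, toEnd_apply_apply, toEnd_apply_apply, hB0, hB1, hv, hw]
  rw [← hB0, ← hB1]
  simp

end

theorem Sl_ : St_Sl := by
  intro L W _ _ _ _ _ _ _ _ _ _ p hd htr
  -- the kernel and a complement
  let N : LieIdeal ℂ L := LieModule.ker ℂ L W
  obtain ⟨J, hNJ⟩ := exists_isCompl N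
  have hJN : IsCompl J N := hNJ.symm
  have hN : ∀ x ∈ N, ∀ w : W, ⁅x, w⁆ = 0 := by
    intro x hx w
    exact (LieModule.mem_ker (R := ℂ) (L := L) (M := W) x).1 hx w
  have hsplit : ∀ x : L, ∃ y ∈ J, ∃ z ∈ N, y + z = x := by
    intro x
    rw [← LieSubmodule.mem_sup, hJN.sup_eq_top]
    exact LieSubmodule.mem_top x
  obtain ⟨h, hh1, h', hh2, hh⟩ := hsplit p.h
  obtain ⟨e, he1, e', he2, hee⟩ := hsplit p.e
  obtain ⟨f, hf1, f', hf2, hff⟩ := hsplit p.f
  have hact : ∀ w : W, ⁅h, w⁆ = ⁅p.h, w⁆ ∧ ⁅e, w⁆ = ⁅p.e, w⁆ ∧ ⁅f, w⁆ = ⁅p.f, w⁆ := by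
    intro w
    rw [← hh, ← hee, ← hff, add_lie, add_lie, add_lie, hN h' hh2 w, hN e' he2 w, hN f' hf2 w]
    simp
  have hz : ∀ x ∈ J, (∀ w : W, ⁅x, w⁆ = 0) → x = 0 := by
    intro x hx hw
    have h2 : x ∈ J ⊓ N := ⟨hx, (LieModule.mem_ker (R := ℂ) (L := L) (M := W) x).2 hw⟩
    rw [hJN.disjoint.eq_bot] at h2
    exact h2
  -- weights
  obtain ⟨m, v, hv0, hev, hhv, hone, htop⟩ := p.top (V := W)
  have hk : ∃ k : ℕ, k ≠ 0 ∧ ∃ w : W, w ≠ 0 ∧ ⁅p.h, w⁆ = ((m : ℂ) - 2 * k) • w := by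
    by_contra hcon
    push Not at hcon
    have h3 : ∀ w : W, ∃ c : ℂ, w = c • v := by
      intro w
      apply hone
      have h4 : (⨆ k : ℕ, (toEnd ℂ L W p.h).eigenspace ((m : ℂ) - 2 * k)) ≤
          (toEnd ℂ L W p.h).eigenspace (m : ℂ) := by
        refine iSup_le fun k => ?_
        by_cases hk0 : k = 0
        · rw [hk0]
          simp
        · intro x hx
          rw [Module.End.mem_eigenspace_iff] at hx
          have h5 : x = 0 := by
            by_contra hx0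
            exact hcon k hk0 x hx0 hx
          rw [h5]
          exact Submodule.zero_mem _
      have h5 := h4 (htop (Submodule.mem_top (x := w)))
      rw [Module.End.mem_eigenspace_iff] at h5
      exact h5
    have h6 : finrank ℂ W ≤ 1 := finrank_le_one v fun w => by
      obtain ⟨c, hc⟩ := h3 w
      exact ⟨c, hc.symm⟩
    omega
  obtain ⟨k, hk0, u, hu0, hu⟩ := hk
  have hk0' : (k : ℂ) ≠ 0 := Nat.cast_ne_zero.2 hk0
  have hne : (m : ℂ) ≠ (m : ℂ) - 2 * k := by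
    intro h3
    have h4 : (2 : ℂ) * k = 0 := by linear_combination h3
    exact hk0' ((mul_eq_zero.1 h4).resolve_left two_ne_zero)
  have hind := Sl_indep hv0 hu0 hhv hu hne
  have htr' := Sl_trace hd hind p.h (a := m) (b := 0) (c := 0) (d := (m : ℂ) - 2 * k)
    (by rw [hhv]; simp) (by rw [hu]; simp)
  rw [htr p.h] at htr'
  have hmk : (m : ℂ) = k := by linear_combination (-1 / 2 : ℂ) * htr'
  -- all eigenvectors
  have hev2 : ∀ (z : W) (l : ℂ), ⁅p.h, z⁆ = l • z → l ≠ m → l ≠ (m : ℂ) - 2 * k → z = 0 := by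
    intro z l hz1 h1 h2
    obtain ⟨s, t, rfl⟩ := Sl_span hd hind z
    rw [lie_add, lie_smul, lie_smul, hhv, hu] at hz1
    have h3 : (s * (m - l)) • v + (t * ((m : ℂ) - 2 * k - l)) • u = 0 := by
      have h4 : (s * (m - l)) • v + (t * ((m : ℂ) - 2 * k - l)) • u =
          (s • (m : ℂ) • v + t • ((m : ℂ) - 2 * k) • u) - l • (s • v + t • u) := by
        module
      rw [h4, hz1, sub_self]
    obtain ⟨h4, h5⟩ := hind _ _ h3
    have h6 : s = 0 := (mul_eq_zero.1 h4).resolve_right (sub_ne_zero.2 (Ne.symm h1))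
    have h7 : t = 0 := (mul_eq_zero.1 h5).resolve_right (sub_ne_zero.2 (Ne.symm h2))
    rw [h6, h7]
    simp
  -- the second vector
  have hef : ⁅p.e, ⁅p.f, v⁆⁆ = (m : ℂ) • v := by
    rw [leibniz_lie, hev, lie_zero, add_zero, p.ef, hhv]
  have hhf : ⁅p.h, ⁅p.f, v⁆⁆ = ((m : ℂ) - 2) • ⁅p.f, v⁆ := by
    rw [leibniz_lie, p.hf, hhv, lie_smul, smul_lie]
    module
  have hm0 : (m : ℂ) ≠ 0 := by rw [hmk]; exact hk0'
  have hfv0 : ⁅p.f, v⁆ ≠ 0 := by
    intro h3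
    rw [h3, lie_zero] at hef
    rcases smul_eq_zero.1 hef.symm with h4 | h4
    · exact hm0 h4
    · exact hv0 h4
  have hm1 : (m : ℂ) = 1 := by
    by_contra hm1
    apply hfv0
    refine hev2 _ _ hhf ?_ ?_
    · intro h3
      have h4 : (2 : ℂ) = 0 := by linear_combination -h3
      exact two_ne_zero h4
    · intro h3
      apply hm1
      rw [← hmk] at h3
      linear_combination (1 / 2 : ℂ) * h3
  have hk1 : (k : ℂ) = 1 := by rw [← hmk, hm1]
  rw [hm1] at hhv hef hhf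
  have h11 : ((1 : ℂ) - 2) = -1 := by norm_num
  rw [h11] at hhf
  rw [hm1, hk1] at hev2
  have hff0 : ⁅p.f, ⁅p.f, v⁆⁆ = 0 := by
    refine hev2 _ (-3) ?_ (by norm_num) (by norm_num)
    rw [leibniz_lie, p.hf, hhf, lie_smul, smul_lie]
    module
  have hind2 := Sl_indep hv0 hfv0 hhv hhf (by norm_num)
  refine ⟨⟨p, J, N, h, e, f, h', e', f', v, ⁅p.f, v⁆, hJN.sup_eq_top, hJN.disjoint.eq_bot,
    Sl_proj p hJN hh1 hh2 hh he1 he2 hee hf1 hf2 hff,
    Sl_proj p hNJ hh2 hh1 (by rw [add_comm]; exact hh) he2 he1 (by rw [add_comm]; exact hee)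
      hf2 hf1 (by rw [add_comm]; exact hff), hh, he1, hf1, ?_,
    fun x hx y hy => Sl_zero hJN.disjoint hx hy, hN, fun z => Sl_span hd hind2 z, hind2,
    ?_, ?_, ?_, ?_, ?_, ?_⟩, rfl⟩
  · intro x hx
    obtain ⟨a, c, hxv⟩ := Sl_span hd hind2 ⁅x, v⁆
    obtain ⟨b, d, hxw⟩ := Sl_span hd hind2 ⁅x, ⁅p.f, v⁆⁆
    have h3 := Sl_trace hd hind2 x hxv hxw
    rw [htr x] at h3
    have h4 : d = -a := by linear_combination -h3
    refine ⟨b, a, c, ?_⟩
    have hJ' : x - (b • e + a • h + c • f) ∈ J :=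
      J.sub_mem hx (J.add_mem (J.add_mem (J.smul_mem _ he1) (J.smul_mem _ hh1))
        (J.smul_mem _ hf1))
    have h5 := hz _ hJ' (by
      intro z
      obtain ⟨s, t, rfl⟩ := Sl_span hd hind2 z
      rw [sub_lie, add_lie, add_lie, smul_lie, smul_lie, smul_lie, (hact _).1, (hact _).2.1,
        (hact _).2.2, lie_add, lie_add, lie_add, lie_add, lie_smul, lie_smul, lie_smul, lie_smul,
        lie_smul, lie_smul, lie_smul, lie_smul, hxv, hxw, hev, hef, hhv, hhf, hff0, h4]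
      module)
    exact sub_eq_zero.1 h5
  · rw [(hact _).1, hhv, one_smul]
  · rw [(hact _).1, hhf, neg_one_smul]
  · rw [(hact _).2.1, hev]
  · rw [(hact _).2.1, hef, one_smul]
  · rw [(hact _).2.2]
  · rw [(hact _).2.2, hff0]

end Pool.Agent.D5
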