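import Pool.Agent.D5.StR
import Pool.Agent.D5.DivFil
import Pool.Agent.Helper7.PD.Cases
import Pool.Agent.BSM.All

/-!
# D5, module Sim (helper43): simple fivefolds
-/

set_option autoImplicit false

namespace Pool.Agent.D5

open Module NumberField
open Pool.Agent.Helper7 Pool.Agent.GPC

/-- [Sim] simple abelian varieties of dimension five which are not exceptional -/
theorem Sim_ : St_Sim := by
  intro X hX hs hE k α hα
  refine inFil_of_div ?_
  have h1 : ∃ f, X.IsEnd f ∧ ∀ q : ℚ, ∃ v, f v ≠ (q : ℂ) • v := by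
    by_contra hcon
    push Not at hcon
    exact hE ⟨hX, Or.inl ⟨hs, hcon⟩⟩
  refine (prime_reduce X hs (by rw [hX]; norm_num) (by omega) h1 ?_ k α).mp hα
  intro K _ _ _ ρ C h2 k α hα
  obtain ⟨x, c, hc, hx, hcx, hgen⟩ := quad_gen K h2
  obtain ⟨hd, J, hJ, hJ2, hall⟩ := quadEnd_of_herm C hc hx hcx hgen
  obtain ⟨z, hz, hf⟩ : ∃ z : ℂ, z ^ 2 = -((-c : ℚ) : ℂ) ∧
      finrank ℂ (Submodule.span ℂ {v : X.H1 | J v = z • v ∧ X.IsFil v}) = 1 := by
    by_contra hcon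
    push Not at hcon
    exact hE ⟨hX, Or.inr (Or.inl ⟨hs, -c, J, hd, hJ, hJ2, hall, hcon⟩)⟩
  exact divisorial_of_family X k (fun β hβ => (BSM.All.FinS_ X (-c) (hJ.linear.mk' J) z hs
    (by omega) hd hJ hJ2 hz hf 1 k (Or.inl rfl) β).mp hβ) α hα

end Pool.Agent.D5
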