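import Pool.Agent.D5.StU

/-!
# D5: splitting off the polarisation from the components (helper57)
-/

set_option autoImplicit false

namespace Pool.Agent.D5

open Module NumberField LieAlgebra
open Pool.Agent.Helper7 Pool.Agent.GPC Pool.Agent.Helper24
open Pool.Agent.Helper8 (ML2 ML4 Inv2 Inv4 Symp Principal)

attribute [local instance 100] LieRing.ofAssociativeRing

private theorem Spl_sum {V ι : Type} [AddCommGroup V] [Module ℂ V] {f : V → ℂ}
    (hf : IsLinearMap ℂ f) (s : Finset ι) (v : ι → V) : f (∑ i ∈ s, v i) = ∑ i ∈ s, f (v i) :=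
  map_sum (IsLinearMap.mk' f hf) v s

theorem Spl_ : St_Spl := by
  intro I _ _ A K _ _ r F a c d G hG h z w
  choose k hk using h
  refine ⟨∑ s3, ∑ s4, k s3 s4 (toVs (n1 I) (PA A) F (aG A a a c d G hG.ml) ⟨c, s3⟩ z)
    (toVs (n1 I) (PA A) F (aG A a a c d G hG.ml) ⟨d, s4⟩ w), fun x y => ?_⟩
  have e : ∀ (s1 s2 : K a →+* ℂ) (s3 : K c →+* ℂ) (s4 : K d →+* ℂ),
      G (proj (F a).ρ s1 x) (proj (F a).ρ s2 y) (proj (F c).ρ s3 z) (proj (F d).ρ s4 w) =
        k s3 s4 (toVs (n1 I) (PA A) F (aG A a a c d G hG.ml) ⟨c, s3⟩ z)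
          (toVs (n1 I) (PA A) F (aG A a a c d G hG.ml) ⟨d, s4⟩ w) *
          (pData (A a)).ψ (proj (F a).ρ s1 x) (proj (F a).ρ s2 y) := by
    intro s1 s2 s3 s4
    have h1 := hk s3 s4 (toVs (n1 I) (PA A) F (aG A a a c d G hG.ml) ⟨c, s3⟩ z)
      (toVs (n1 I) (PA A) F (aG A a a c d G hG.ml) ⟨d, s4⟩ w) s1 s2
      (toVs (n1 I) (PA A) F (aG A a a c d G hG.ml) ⟨a, s1⟩ x)
      (toVs (n1 I) (PA A) F (aG A a a c d G hG.ml) ⟨a, s2⟩ y)
    have e1 := toVs_apply (n1 I) (PA A) F (aG A a a c d G hG.ml) ⟨a, s1⟩ x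
    have e2 := toVs_apply (n1 I) (PA A) F (aG A a a c d G hG.ml) ⟨a, s2⟩ y
    have e3 := toVs_apply (n1 I) (PA A) F (aG A a a c d G hG.ml) ⟨c, s3⟩ z
    have e4 := toVs_apply (n1 I) (PA A) F (aG A a a c d G hG.ml) ⟨d, s4⟩ w
    unfold cG at h1
    simp only at e1 e2 e3 e4 h1
    rw [e1, e2, e3, e4] at h1
    exact h1
  have hx := sum_proj_apply (F a).ρ x
  have hy := sum_proj_apply (F a).ρ y
  have hz := sum_proj_apply (F c).ρ z
  have hw := sum_proj_apply (F d).ρ w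
  have g1 : G x y z w = ∑ s1, G (proj (F a).ρ s1 x) y z w := by
    conv_lhs => rw [hx]
    exact Spl_sum (hG.ml.l1 y z w) _ _
  have g2 : ∀ x', G x' y z w = ∑ s2, G x' (proj (F a).ρ s2 y) z w := by
    intro x'
    conv_lhs => rw [hy]
    exact Spl_sum (hG.ml.l2 x' z w) _ _
  have g3 : ∀ x' y', G x' y' z w = ∑ s3, G x' y' (proj (F c).ρ s3 z) w := by
    intro x' y'
    conv_lhs => rw [hz]
    exact Spl_sum (hG.ml.l3 x' y' w) _ _
  have g4 : ∀ x' y' z', G x' y' z' w = ∑ s4, G x' y' z' (proj (F d).ρ s4 w) := by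
    intro x' y' z'
    conv_lhs => rw [hw]
    exact Spl_sum (hG.ml.l4 x' y' z') _ _
  have p2 : ∀ x', (pData (A a)).ψ x' y = ∑ s2, (pData (A a)).ψ x' (proj (F a).ρ s2 y) := by
    intro x'
    conv_lhs => rw [hy]
    rw [map_sum]
  have p1 : (pData (A a)).ψ x y = ∑ s1, ∑ s2, (pData (A a)).ψ (proj (F a).ρ s1 x)
      (proj (F a).ρ s2 y) := by
    conv_lhs => rw [hx]
    rw [map_sum, LinearMap.sum_apply]
    exact Finset.sum_congr rfl fun s1 _ => p2 _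
  rw [g1, p1]
  simp only [g2, g3, g4, e]
  simp only [← Finset.sum_mul, ← Finset.mul_sum]

end Pool.Agent.D5
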