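import Pool.Agent.D5.StU
import Pool.Agent.KT.Alg.Sl

/-!
# D5, module SPU: at a generic surface the Lie algebra acts through the whole symplectic algebra
(the proofs of `KT/Alg/DichL.lean`, `Mat.lean`, `No.lean` for families of `UF`s)
-/

set_option autoImplicit false
set_option linter.unusedSectionVars false
set_option linter.unusedVariables false

namespace Pool.Agent.D5

open Module NumberField LieAlgebra LieModule
open Pool.Agent.Helper7 Pool.Agent.GPC Pool.Agent.Helper24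
open Pool.Agent.Helper8 (Symp Principal exists_adapted4 g4 exists_principal)
open Pool.Agent.Helper84 (mat mat_e mat_h mat_f mat_isSp mat_lie mat_eq_zero mat_apply GG_eq)
open Pool.Agent.Helper84.Iso (EE FF HH IsSp)
open Pool.Agent.KT.Alg (gg IsQ IsAl IsAlgl Sp3)

attribute [local instance 100] LieRing.ofAssociativeRing

private theorem SPU_isSp {V : Type*} [AddCommGroup V] [Module ℂ V] (b : Basis (Fin 4) ℂ V)
    (ω : V →ₗ[ℂ] V →ₗ[ℂ] ℂ) (hg : ∀ i j, ω (b i) (b j) = (g4 i j : ℂ)) (Y : Module.End ℂ V)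
    (hY : ∀ u v, ω (Y u) v + ω u (Y v) = 0) : IsSp (LinearMap.toMatrix b b Y) := by
  have hm : ∀ j, Y (b j) = ∑ i, LinearMap.toMatrix b b Y i j • b i := by
    intro j
    conv_lhs => rw [← b.sum_repr (Y (b j))]
    simp only [LinearMap.toMatrix_apply]
  unfold IsSp
  ext i j
  rw [Matrix.add_apply, Matrix.mul_apply, Matrix.mul_apply, Matrix.zero_apply]
  have h1 := hY (b i) (b j)
  rw [hm i, hm j, map_sum, LinearMap.sum_apply, map_sum] at h1
  simp only [map_smul, LinearMap.smul_apply, smul_eq_mul, hg, ← GG_eq] at h1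
  simp only [Matrix.transpose_apply]
  rw [← h1]
  congr 1
  exact Finset.sum_congr rfl fun k _ => mul_comm _ _

section family

variable {I : Type} [Fintype I] [DecidableEq I] (n : I → ℕ)
  {κ : I → Type} [∀ i, Fintype (κ i)] [∀ i, DecidableEq (κ i)] {ϖ : ℂ}
  (P : ∀ i, PData (κ i) ϖ)
  {K : I → Type} [∀ i, Field (K i)] [∀ i, NumberField (K i)] {r : I → ℕ}
  (F : ∀ i, UF (P i) (K i) (r i))
  {k : ℕ} (α : MultilinearMap ℂ (fun _ : Fin (2 * k) => HW κ n) ℂ)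

private theorem SPU_one {L : Type} [Field L] [NumberField L] (h : finrank ℚ L = 1)
    (σ τ : L →+* ℂ) : τ = σ := by
  have h1 : Fintype.card (L →+* ℂ) = 1 := by
    rw [NumberField.Embeddings.card L ℂ, h]
  obtain ⟨x, hx⟩ := Fintype.card_eq_one_iff.mp h1
  rw [hx τ, hx σ]

private theorem SPU_proj (i : I) (σ : K i →+* ℂ) (h : finrank ℚ (K i) = 1) (w : κ i → ℂ) :
    proj (F i).ρ σ w = w := by
  have h3 := sum_proj (F i).ρ
  have h4 : ∑ τ : K i →+* ℂ, proj (F i).ρ τ = proj (F i).ρ σ := by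
    rw [Finset.sum_eq_single σ]
    · intro τ _ hτ
      exact absurd (SPU_one h σ τ) hτ
    · intro h5
      exact absurd (Finset.mem_univ σ) h5
  rw [h4] at h3
  rw [h3]
  rfl

/-- the eigenspace is the whole factor -/
private noncomputable def SPU_T (i : I) (σ : K i →+* ℂ) (h : finrank ℚ (K i) = 1) :
    Vs n P F α ⟨i, σ⟩ ≃ₗ[ℂ] (κ i → ℂ) :=
  LinearEquiv.ofLinearMap (ofVs n P F α ⟨i, σ⟩) (toVs n P F α ⟨i, σ⟩)
    (by
      apply LinearMap.ext
      intro w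
      show ofVs n P F α ⟨i, σ⟩ (toVs n P F α ⟨i, σ⟩ w) = w
      rw [ofVs_toVs n P F α ⟨i, σ⟩ w]
      exact SPU_proj P F i σ h w)
    (by
      apply LinearMap.ext
      intro x
      show toVs n P F α ⟨i, σ⟩ (ofVs n P F α ⟨i, σ⟩ x) = x
      exact toVs_ofVs n P F α ⟨i, σ⟩ x)

private theorem SPU_T_apply (i : I) (σ : K i →+* ℂ) (h : finrank ℚ (K i) = 1)
    (x : Vs n P F α ⟨i, σ⟩) : SPU_T n P F α i σ h x = (x : MM κ) i := rfl

/-- the matrix of a symmetry -/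
private noncomputable def SPU_Th {i : I} (B : Basis (Fin 4) ℂ (κ i → ℂ)) :
    GG κ →ₗ[ℂ] Matrix (Fin 4) (Fin 4) ℂ :=
  (LinearMap.toMatrix B B).toLinearMap ∘ₗ
    ((LinearMap.proj i : ((j : I) → Module.End ℂ (κ j → ℂ)) →ₗ[ℂ] Module.End ℂ (κ i → ℂ)) ∘ₗ
      LinearMap.fst ℂ _ ℂ - (LinearMap.toSpanSingleton ℂ (Module.End ℂ (κ i → ℂ)) 1) ∘ₗ
        ((1 / 2 : ℂ) • LinearMap.snd ℂ ((j : I) → Module.End ℂ (κ j → ℂ)) ℂ))

private theorem SPU_Th_apply {i : I} (B : Basis (Fin 4) ℂ (κ i → ℂ)) (X : GG κ) :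
    SPU_Th B X = LinearMap.toMatrix B B (X.1 i - (X.2 / 2) • (1 : Module.End ℂ (κ i → ℂ))) := by
  show LinearMap.toMatrix B B (X.1 i - ((1 / 2 : ℂ) • X.2) • (1 : Module.End ℂ (κ i → ℂ))) = _
  rw [smul_eq_mul, one_div, inv_mul_eq_div]

private theorem SPU_entry {i : I} (B : Basis (Fin 4) ℂ (κ i → ℂ)) (X : GG κ) (a b : Fin 4) :
    SPU_Th B X a b = B.repr (X.1 i (B b)) a - X.2 / 2 * (if b = a then 1 else 0) := by
  rw [SPU_Th_apply, LinearMap.toMatrix_apply]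
  rw [LinearMap.sub_apply, LinearMap.smul_apply, Module.End.one_apply, map_sub, map_smul,
    Finsupp.sub_apply, Finsupp.smul_apply, Basis.repr_self, Finsupp.single_apply, smul_eq_mul]

private theorem SPU_real (hr : ∀ i, 0 < r i) (i : I) (σ : K i →+* ℂ)
    (h : finrank ℚ (K i) = 1) (X : GG κ) (hX : IsInv n P α X) (x : Vs n P F α ⟨i, σ⟩) :
    ((⁅elL n P F α X hX, x⁆ : Vs n P F α ⟨i, σ⟩) : MM κ) i =
      X.1 i ((x : MM κ) i) - (X.2 / 2) • (x : MM κ) i := by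
  have h1 := elL_act n P F α X hX ⟨i, σ⟩ x
  have h2 : ch P F ⟨i, σ⟩ X = X.2 / 2 := by
    have h3 : ch P F ⟨i, σ⟩ X + ch P F ⟨i, ComplexEmbedding.conjugate σ⟩ X = X.2 :=
      ch_conj n P F α hr ⟨i, σ⟩ X hX
    rw [SPU_one h σ (ComplexEmbedding.conjugate σ)] at h3
    linear_combination h3 / 2
  rw [h2] at h1
  exact h1

private theorem SPU_core (hr : ∀ i, 0 < r i) (i : I) (σ : K i →+* ℂ) (h1 : finrank ℚ (K i) = 1)
    (p : Principal (LL n P F α)) (A : Basis (Fin 4) ℂ (Vs n P F α ⟨i, σ⟩))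
    (he : mat A p.e = EE) (hh : mat A p.h = HH) (hf : mat A p.f = FF)
    (h3 : ∀ x : LL n P F α, ∃ a b c : ℂ, mat A x = gg a b c)
    (R : Matrix (Fin 4) (Fin 4) ℂ → Prop) (R' : GG κ → Prop) (B : Basis (Fin 4) ℂ (κ i → ℂ))
    (hR : ∀ X, IsInv n P α X → X ∈ Submodule.span ℂ {Y | IsInv n P α Y ∧ R' Y})
    (hR' : ∀ X, R' X → R (SPU_Th B X)) :
    Sp3 R ((A.map (SPU_T n P F α i σ h1)).toMatrix B) := by
  obtain ⟨b', hb'⟩ : ∃ b', b' = A.map (SPU_T n P F α i σ h1) := ⟨_, rfl⟩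
  rw [← hb']
  obtain ⟨C, hC⟩ : ∃ C, C = b'.toMatrix B := ⟨_, rfl⟩
  rw [← hC]
  have hCB : C * B.toMatrix b' = 1 := by rw [hC]; exact b'.toMatrix_mul_toMatrix_flip B
  have hBC : B.toMatrix b' * C = 1 := by rw [hC]; exact B.toMatrix_mul_toMatrix_flip b'
  have hdet : C.det ≠ 0 := by
    intro h0
    have h4 := congrArg Matrix.det hCB
    rw [Matrix.det_mul, h0, zero_mul, Matrix.det_one] at h4
    exact zero_ne_one h4
  have hCi : C⁻¹ = B.toMatrix b' := Matrix.inv_eq_right_inv hCB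
  -- the matrix of an element of the Lie algebra
  have hmat : ∀ (X : GG κ) (hX : IsInv n P α X),
      SPU_Th B X = C⁻¹ * mat A (elL n P F α X hX) * C := by
    intro X hX
    have h5 : mat A (elL n P F α X hX) = SPU_Th b' X := by
      ext a b
      rw [mat_apply, SPU_Th_apply, LinearMap.toMatrix_apply, hb', Basis.map_apply,
        Basis.map_repr, LinearEquiv.trans_apply]
      congr 2
      rw [LinearEquiv.eq_symm_apply, SPU_T_apply, SPU_real n P F α hr i σ h1 X hX, SPU_T_apply]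
      rfl
    rw [h5, SPU_Th_apply, SPU_Th_apply, hCi, hC,
      basis_toMatrix_mul_linearMap_toMatrix_mul_basis_toMatrix]
  refine ⟨hdet, fun a b c => ?_⟩
  have hx : mat A (a • p.e + b • p.h + c • p.f) = gg a b c := by
    rw [map_add, map_add, map_smul, map_smul, map_smul, he, hh, hf]
    rfl
  obtain ⟨X, hX, hX'⟩ := exists_elL n P F α (a • p.e + b • p.h + c • p.f)
  rw [← hx, hX', ← hmat X hX]
  have h6 : SPU_Th B X ∈ (Submodule.span ℂ {Y | IsInv n P α Y ∧ R' Y}).map (SPU_Th B) :=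
    ⟨X, hR X hX, rfl⟩
  rw [Submodule.map_span] at h6
  refine Submodule.span_mono ?_ h6
  rintro _ ⟨Y, ⟨hY, hY'⟩, rfl⟩
  refine ⟨hR' Y hY', ?_⟩
  obtain ⟨a', b', c', h7⟩ := h3 (elL n P F α Y hY)
  refine ⟨a', b', c', ?_⟩
  have h8 : C * C⁻¹ = 1 := by rw [hCi, hCB]
  rw [hmat Y hY, h7]
  calc C * (C⁻¹ * gg a' b' c' * C) * C⁻¹ = (C * C⁻¹) * gg a' b' c' * (C * C⁻¹) := by
        simp only [Matrix.mul_assoc]
    _ = gg a' b' c' := by rw [h8, Matrix.one_mul, Matrix.mul_one]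

private theorem SPU_mat (hS : KT.Alg.St_AlgS) (hϖ : ϖ ≠ 0)
    (hB : ∀ v : Fin (2 * k) → HW κ n, (∀ r, IsRatP n P (v r)) → ∃ q : ℚ, α v = ϖ ^ k * q)
    (hA : ∀ v : Fin (2 * k) → HW κ n, (∀ r i m j, IsAlgebraic ℚ (v r i m j)) →
      IsAlgebraic ℚ (α v)) (hr : ∀ i, 0 < r i) (i : I) (σ : K i →+* ℂ)
    (hK : finrank ℚ (K i) = 1) (hcard : Fintype.card (κ i) = 4)
    (p : Principal (LL n P F α)) (A : Basis (Fin 4) ℂ (Vs n P F α ⟨i, σ⟩))
    (he : mat A p.e = EE) (hh : mat A p.h = HH) (hf : mat A p.f = FF)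
    (h3 : ∀ x : LL n P F α, ∃ a b c : ℂ, mat A x = gg a b c) :
    ∃ (e₁ : Fin 4 ≃ (P i).ι) (e₂ : Fin 4 ≃ κ i) (C D : Matrix (Fin 4) (Fin 4) ℂ),
      Sp3 IsQ C ∧ Sp3 IsAl D ∧
      ∀ j, D.mulVec (fun s => (P i).bB (e₁ j) (e₂ s)) = C.mulVec (Pi.single j 1) := by
  classical
  have hι : Fintype.card (P i).ι = 4 := by
    rw [← Module.finrank_eq_card_basis (P i).bB, Module.finrank_fintype_fun_eq_card, hcard]
  obtain ⟨e₁⟩ : Nonempty (Fin 4 ≃ (P i).ι) := ⟨(Fintype.equivFinOfCardEq hι).symm⟩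
  obtain ⟨e₂⟩ : Nonempty (Fin 4 ≃ κ i) := ⟨(Fintype.equivFinOfCardEq hcard).symm⟩
  obtain ⟨B₁, hB₁⟩ : ∃ B₁, B₁ = (P i).bB.reindex e₁.symm := ⟨_, rfl⟩
  obtain ⟨B₂, hB₂⟩ : ∃ B₂, B₂ = (Pi.basisFun ℂ (κ i)).reindex e₂.symm := ⟨_, rfl⟩
  have hB₁' : ∀ j, B₁ j = (P i).bB (e₁ j) := fun j => by
    rw [hB₁, Basis.reindex_apply, Equiv.symm_symm]
  have hB₂' : ∀ j, B₂ j = Pi.single (e₂ j) 1 := fun j => by
    rw [hB₂, Basis.reindex_apply, Equiv.symm_symm, Pi.basisFun_apply]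
  obtain ⟨b', hb'⟩ : ∃ b', b' = A.map (SPU_T n P F α i σ hK) := ⟨_, rfl⟩
  refine ⟨e₁, e₂, b'.toMatrix B₁, b'.toMatrix B₂, ?_, ?_, ?_⟩
  · rw [hb']
    refine SPU_core n P F α hr i σ hK p A he hh hf h3 IsQ (IsRatl P) B₁
      (fun X hX => mem_span_of_isInv n P α hϖ hB X hX) ?_
    intro X hX a b
    rw [SPU_entry, hB₁' b]
    obtain ⟨q, hq⟩ := hX.2
    obtain ⟨r, hr⟩ := (P i).repr_rat _ (hX.1 i _ ((P i).basis_mem (e₁ b))) (e₁ a)
    have e : B₁.repr (X.1 i ((P i).bB (e₁ b))) a =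
        (P i).bB.repr (X.1 i ((P i).bB (e₁ b))) (e₁ a) := by
      rw [hB₁, Basis.repr_reindex_apply, Equiv.symm_symm]
    rw [e, hr, hq]
    refine ⟨r - q / 2 * (if b = a then 1 else 0), ?_⟩
    split_ifs <;> push_cast <;> ring
  · rw [hb']
    refine SPU_core n P F α hr i σ hK p A he hh hf h3 IsAl IsAlgl B₂
      (fun X hX => hS I n κ ϖ P k α hA X hX) ?_
    intro X hX a b
    rw [SPU_entry, hB₂' b]
    have e : B₂.repr (X.1 i (Pi.single (e₂ b) 1)) a = X.1 i (Pi.single (e₂ b) 1) (e₂ a) := by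
      rw [hB₂, Basis.repr_reindex_apply, Equiv.symm_symm, Pi.basisFun_repr]
    rw [e]
    have e1 : IsAlgebraic ℚ (X.1 i (Pi.single (e₂ b) 1) (e₂ a)) := by
      refine hX.1 i _ (fun j => ?_) _
      by_cases hj : j = e₂ b
      · subst hj
        rw [Pi.single_eq_same]
        exact isAlgebraic_one
      · rw [Pi.single_eq_of_ne hj]
        exact isAlgebraic_zero
    have e2 : IsAlgebraic ℚ (X.2 / 2 * (if b = a then 1 else 0 : ℂ)) := by
      have e3 : IsAlgebraic ℚ (X.2 / 2) := by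
        rw [div_eq_mul_inv]
        exact hX.2.mul (isAlgebraic_algebraMap (2 : ℚ)).inv
      split_ifs
      · rw [mul_one]
        exact e3
      · rw [mul_zero]
        exact isAlgebraic_zero
    exact e1.sub e2
  · intro j
    funext a
    have e1 : (b'.toMatrix B₁).mulVec (Pi.single j 1) a = b'.repr (B₁ j) a := by
      rw [Matrix.mulVec_single_one]
      rfl
    have e2 : (b'.toMatrix B₂).mulVec (fun s => (P i).bB (e₁ j) (e₂ s)) a =
        b'.repr (∑ s, (P i).bB (e₁ j) (e₂ s) • B₂ s) a := by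
      rw [map_sum, Finsupp.finsetSum_apply]
      show ∑ s, b'.toMatrix B₂ a s * (P i).bB (e₁ j) (e₂ s) = _
      refine Finset.sum_congr rfl fun s _ => ?_
      rw [map_smul, Finsupp.smul_apply, smul_eq_mul, mul_comm]
      rfl
    have e3 : (∑ s, (P i).bB (e₁ j) (e₂ s) • B₂ s) = B₁ j := by
      rw [hB₁' j]
      conv_rhs => rw [← B₂.sum_repr ((P i).bB (e₁ j))]
      refine Finset.sum_congr rfl fun s _ => ?_
      rw [hB₂, Basis.repr_reindex_apply, Equiv.symm_symm, Pi.basisFun_repr]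
    rw [e1, e2, e3]

end family

private theorem SPU_period_zero (A : AbVar) : A.period 0 = 0 := by
  funext s
  rcases s with a | a
  · rfl
  · show A.eta 0 a = 0
    unfold AbVar.eta hermForm bilForm
    simp

/-- the vector of coordinates of a combination of Betti basis vectors -/
private theorem SPU_mulVec {κ ι : Type} [Fintype κ] (e₂ : Fin 4 ≃ κ) (bB : ι → κ → ℂ)
    (e₁ : Fin 4 → ι) (C D : Matrix (Fin 4) (Fin 4) ℂ)
    (h : ∀ j, D.mulVec (fun s => bB (e₁ j) (e₂ s)) = C.mulVec (Pi.single j 1))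
    (v : Fin 4 → ℂ) :
    D.mulVec (fun s => (∑ j, v j • bB (e₁ j)) (e₂ s)) = C.mulVec v := by
  have h1 : (fun s => (∑ j, v j • bB (e₁ j)) (e₂ s)) = ∑ j, v j • (fun s => bB (e₁ j) (e₂ s)) := by
    funext s
    simp only [Finset.sum_apply, Pi.smul_apply]
  have h2 : v = ∑ j, v j • (Pi.single j 1 : Fin 4 → ℂ) := by
    funext s
    simp [Finset.sum_apply, Pi.single_apply]
  rw [h1, Matrix.mulVec_sum]
  conv_rhs => rw [h2, Matrix.mulVec_sum]
  refine Finset.sum_congr rfl fun j _ => ?_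
  rw [Matrix.mulVec_smul, Matrix.mulVec_smul, h]

/-- the exclusion of the third symmetric power -/
private theorem SPU_no (hKT : KT.Alg.St_KT) (h2 : KT.Alg.St_Nil) (h3 : KT.Alg.St_Cub) (B : AbVar)
    (hgen : B.IsGenericSurface)
    (hm : ∃ (e₁ : Fin 4 ≃ (pData B).ι) (e₂ : Fin 4 ≃ (Fin B.g ⊕ Fin B.g))
      (C D : Matrix (Fin 4) (Fin 4) ℂ), Sp3 IsQ C ∧ Sp3 IsAl D ∧
      ∀ j, D.mulVec (fun s => (pData B).bB (e₁ j) (e₂ s)) = C.mulVec (Pi.single j 1)) :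
    False := by
  obtain ⟨e₁, e₂, C, D, hC, hD, hCD⟩ := hm
  obtain ⟨v, a, b, c, hv, habc, hq, hker⟩ := h2 C hC
  -- the Betti vector
  have hmem : (∑ j, (v j : ℂ) • (pData B).bB (e₁ j)) ∈ (pData B).Q := by
    refine Submodule.sum_mem _ fun j _ => ?_
    have h4 : ((v j : ℂ) • (pData B).bB (e₁ j)) = (v j : ℚ) • (pData B).bB (e₁ j) := by
      funext s
      simp [Pi.smul_apply, Rat.smul_def]
    rw [h4]
    exact Submodule.smul_mem _ _ ((pData B).basis_mem _)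
  obtain ⟨N, hN, l, hl, hNl⟩ := (mem_pData_Q _ _).mp hmem
  have hne : (∑ j, (v j : ℂ) • (pData B).bB (e₁ j)) ≠ 0 := by
    intro h0
    apply hv
    have hli : LinearIndependent ℂ (fun j => (pData B).bB (e₁ j)) :=
      (pData B).bB.linearIndependent.comp _ e₁.injective
    have h5 := Fintype.linearIndependent_iff.mp hli (fun j => (v j : ℂ)) h0
    funext j
    exact_mod_cast h5 j
  have hl0 : l ≠ 0 := by
    rintro rfl
    rw [SPU_period_zero, smul_eq_zero] at hNl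
    rcases hNl with h | h
    · exact hN (by exact_mod_cast h)
    · exact hne h
  have hker' := hker
  rw [← SPU_mulVec e₂ (fun q => (pData B).bB q) e₁ C D hCD (fun j => (v j : ℂ))] at hker'
  obtain ⟨x, c', pp, hpp, hu⟩ := h3 D hD _ a b c habc hq hker'
  refine hKT B hgen l hl hl0 x (N * c') (fun s => pp (e₂.symm s)) (fun s m => hpp _ m) ?_
  intro s
  rw [← hNl, Pi.smul_apply, smul_eq_mul]
  have h6 := hu (e₂.symm s)
  simp only [Equiv.apply_symm_apply] at h6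
  rw [h6]
  ring

/-- **SPU** -/
theorem SpU_ (hDich : KT.Alg.St_Dich) (hAlgS : KT.Alg.St_AlgS) (hNil : KT.Alg.St_Nil)
    (hCub : KT.Alg.St_Cub) (hKT : KT.Alg.St_KT) : St_SpU := by
  classical
  intro I _ _ A n K _ _ r F k α hB hA hr i hgen hK hri σ Y hY
  have hϖ : (2 * Real.pi * Complex.I : ℂ) ≠ 0 := Complex.two_pi_I_ne_zero
  have hσ : ComplexEmbedding.conjugate σ = σ := SPU_one hK σ _
  have hω := bp_symp n (PA A) F α hr i σ hσ
  have hirr := Vs_irr n (PA A) F α hϖ hB hA ⟨i, σ⟩ (hr i)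
  have hfr : finrank ℂ (Vs n (PA A) F α ⟨i, σ⟩) = 4 := by
    rw [finrank_Vs]
    exact hri
  have htr := LL_trivialRadical n (PA A) F α hϖ hB hA hr
  have hkill : IsKilling ℂ (LL n (PA A) F α) := inferInstance
  obtain ⟨p⟩ := exists_principal (LL n (PA A) F α)
  obtain ⟨Ad⟩ := exists_adapted4 (p := p) hω hfr
  have me := mat_e p Ad.b Ad.e_b
  have mh := mat_h p Ad.b Ad.h_b
  have mf := mat_f p Ad.b Ad.e_b Ad.h_b
  have k1 : ∀ M ∈ LinearMap.range (mat (L := LL n (PA A) F α) Ad.b), IsSp M := by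
    rintro M ⟨x, rfl⟩
    exact mat_isSp hω Ad.b Ad.g_b x
  have k2 : ∀ M ∈ LinearMap.range (mat (L := LL n (PA A) F α) Ad.b),
      ∀ N ∈ LinearMap.range (mat (L := LL n (PA A) F α) Ad.b),
        M * N - N * M ∈ LinearMap.range (mat (L := LL n (PA A) F α) Ad.b) := by
    rintro M ⟨x, rfl⟩ N ⟨y, rfl⟩
    exact ⟨⁅x, y⁆, mat_lie Ad.b x y⟩
  rcases hDich (LinearMap.range (mat Ad.b)) k1 ⟨p.e, me⟩ ⟨p.h, mh⟩ ⟨p.f, mf⟩ k2 with h | h
  · exfalso
    have hcard : Fintype.card (kap A i) = 4 := by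
      show Fintype.card (Fin (A i).g ⊕ Fin (A i).g) = 4
      rw [Fintype.card_sum, Fintype.card_fin, hgen.1]
    exact SPU_no hKT hNil hCub (A i) hgen (SPU_mat n (PA A) F α hAlgS hϖ hB hA hr i σ hK hcard p
      Ad.b me mh mf fun x => h _ ⟨x, rfl⟩)
  · obtain ⟨x, hx⟩ := h _ (SPU_isSp Ad.b _ Ad.g_b Y hY)
    refine ⟨x, fun v => ?_⟩
    have h2 : toEnd ℂ (LL n (PA A) F α) (Vs n (PA A) F α ⟨i, σ⟩) x = Y :=
      (LinearMap.toMatrix Ad.b Ad.b).injective hx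
    rw [← h2]
    rfl

end Pool.Agent.D5
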