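import Pool.Agent.D5.StR

/-!
# D5, module Star: Poincare duality on alternating forms and the Hodge filtration (helper24)
-/

set_option autoImplicit false

namespace Pool.Agent.D5

open Module
open Pool.Agent.Helper7 Pool.Agent.GPC

/-! ### the pairing -/

section abs

variable {V : Type} [AddCommGroup V] [Module ℂ V] {a m : ℕ}

private noncomputable def SM (α : V [⋀^Fin a]→ₗ[ℂ] ℂ) (ψ : V →ₗ[ℂ] V →ₗ[ℂ] ℂ) (u : Fin m → V) :
    MultilinearMap ℂ (fun _ : Fin a ⊕ Fin m => V) ℂ :=
  (LinearMap.mul' ℂ ℂ).compMultilinearMap (α.toMultilinearMap.domCoprod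
    ((MultilinearMap.mkPiAlgebra ℂ (Fin m) ℂ).compLinearMap (fun j => ψ (u j))))

private theorem SM_apply (α : V [⋀^Fin a]→ₗ[ℂ] ℂ) (ψ : V →ₗ[ℂ] V →ₗ[ℂ] ℂ) (u : Fin m → V)
    (v : Fin a ⊕ Fin m → V) :
    SM α ψ u v = α (fun r => v (Sum.inl r)) * ∏ j, ψ (u j) (v (Sum.inr j)) := by
  rfl

private noncomputable def SN (α : V [⋀^Fin a]→ₗ[ℂ] ℂ) (ψ : V →ₗ[ℂ] V →ₗ[ℂ] ℂ) (u : Fin m → V) :
    V [⋀^Fin a ⊕ Fin m]→ₗ[ℂ] ℂ :=
  MultilinearMap.alternatization (SM α ψ u)

private theorem SN_apply (α : V [⋀^Fin a]→ₗ[ℂ] ℂ) (ψ : V →ₗ[ℂ] V →ₗ[ℂ] ℂ) (u : Fin m → V)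
    (v : Fin a ⊕ Fin m → V) :
    SN α ψ u v = ∑ π : Equiv.Perm (Fin a ⊕ Fin m), ((Equiv.Perm.sign π : ℤ) : ℂ) *
      (α (fun r => v (π (Sum.inl r))) * ∏ j, ψ (u j) (v (π (Sum.inr j)))) := by
  unfold SN
  rw [MultilinearMap.alternatization_apply]
  refine Finset.sum_congr rfl fun π _ => ?_
  rw [Units.smul_def, zsmul_eq_mul]
  rfl

private noncomputable def SB (α : V [⋀^Fin a]→ₗ[ℂ] ℂ) (ψ : V →ₗ[ℂ] V →ₗ[ℂ] ℂ)
    (v : Fin a ⊕ Fin m → V) : MultilinearMap ℂ (fun _ : Fin m => V) ℂ :=
  ∑ π : Equiv.Perm (Fin a ⊕ Fin m), (((Equiv.Perm.sign π : ℤ) : ℂ) *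
    α (fun r => v (π (Sum.inl r)))) •
    (MultilinearMap.mkPiAlgebra ℂ (Fin m) ℂ).compLinearMap
      (fun j => ψ.flip (v (π (Sum.inr j))))

private theorem SB_apply (α : V [⋀^Fin a]→ₗ[ℂ] ℂ) (ψ : V →ₗ[ℂ] V →ₗ[ℂ] ℂ)
    (v : Fin a ⊕ Fin m → V) (u : Fin m → V) : SB α ψ v u = SN α ψ u v := by
  rw [SN_apply]
  unfold SB
  rw [sum_apply]
  refine Finset.sum_congr rfl fun π _ => ?_
  rw [smul_apply, MultilinearMap.compLinearMap_apply,
    MultilinearMap.mkPiAlgebra_apply, smul_eq_mul, mul_assoc]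
  rfl

private noncomputable def Sβ (α : V [⋀^Fin a]→ₗ[ℂ] ℂ) (ψ : V →ₗ[ℂ] V →ₗ[ℂ] ℂ)
    (v : Fin a ⊕ Fin m → V) : V [⋀^Fin m]→ₗ[ℂ] ℂ :=
  MultilinearMap.alternatization (SB α ψ v)

private theorem Sβ_apply (α : V [⋀^Fin a]→ₗ[ℂ] ℂ) (ψ : V →ₗ[ℂ] V →ₗ[ℂ] ℂ)
    (v : Fin a ⊕ Fin m → V) (u : Fin m → V) :
    Sβ α ψ v u = ∑ τ : Equiv.Perm (Fin m), ((Equiv.Perm.sign τ : ℤ) : ℂ) *
      SN α ψ (fun j => u (τ j)) v := by
  unfold Sβ
  rw [MultilinearMap.alternatization_apply]
  refine Finset.sum_congr rfl fun τ _ => ?_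
  rw [Units.smul_def, zsmul_eq_mul, ← SB_apply]
  rfl

/-- evaluation on dual vectors -/
private theorem Sβ_dual (α : V [⋀^Fin a]→ₗ[ℂ] ℂ) (ψ : V →ₗ[ℂ] V →ₗ[ℂ] ℂ)
    (v : Fin a ⊕ Fin m → V) (u : Fin m → V)
    (h : ∀ j x, ψ (u j) (v x) = if x = Sum.inr j then 1 else 0) :
    Sβ α ψ v u = (Nat.factorial m : ℂ) * ((Nat.factorial a : ℂ) * α (fun r => v (Sum.inl r))) := by
  classical
  rw [Sβ_apply]
  have h1 : ∀ τ : Equiv.Perm (Fin m), SN α ψ (fun j => u (τ j)) v =
      ((Equiv.Perm.sign τ : ℤ) : ℂ) * ((Nat.factorial a : ℂ) * α (fun r => v (Sum.inl r))) := by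
    intro τ
    rw [SN_apply]
    have hinj : Function.Injective
        (fun π : Equiv.Perm (Fin a) => (Equiv.sumCongr π τ : Equiv.Perm (Fin a ⊕ Fin m))) := by
      intro π π' hππ
      ext r
      have h2 := congrArg (fun e : Equiv.Perm (Fin a ⊕ Fin m) => e (Sum.inl r)) hππ
      simp only [Equiv.sumCongr_apply, Sum.map_inl, Sum.inl.injEq] at h2
      rw [h2]
    rw [← Fintype.sum_of_injective _ hinj (fun π : Equiv.Perm (Fin a) =>
      ((Equiv.Perm.sign τ : ℤ) : ℂ) * α (fun r => v (Sum.inl r))) _ ?_ ?_]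
    · rw [Finset.sum_const, Finset.card_univ, Fintype.card_perm, Fintype.card_fin,
        nsmul_eq_mul]
      ring
    · intro σ hσ
      have h2 : ∃ j, σ (Sum.inr j) ≠ Sum.inr (τ j) := by
        by_contra hcon
        push Not at hcon
        apply hσ
        have h3 : Set.MapsTo σ (Set.range (Sum.inl : Fin a → Fin a ⊕ Fin m))
            (Set.range Sum.inl) := by
          rintro _ ⟨r, rfl⟩
          rcases hx : σ (Sum.inl r) with s | j
          · exact ⟨s, rfl⟩
          · exfalso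
            have h4 : σ (Sum.inl r) = σ (Sum.inr (τ.symm j)) := by
              rw [hx, hcon, Equiv.apply_symm_apply]
            exact Sum.inl_ne_inr (σ.injective h4)
        obtain ⟨⟨π, τ'⟩, hπ⟩ := Equiv.Perm.mem_sumCongrHom_range_of_perm_mapsTo_inl h3
        refine ⟨π, ?_⟩
        ext x
        rcases x with r | j
        · have h4 := congrArg (fun e : Equiv.Perm (Fin a ⊕ Fin m) => e (Sum.inl r)) hπ
          simpa using h4
        · rw [hcon]
          rfl
      obtain ⟨j, hj⟩ := h2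
      rw [Finset.prod_eq_zero (Finset.mem_univ j), mul_zero, mul_zero]
      rw [h, if_neg hj]
    · intro π
      have h2 : (∏ j, ψ (u (τ j)) (v ((Equiv.sumCongr π τ : Equiv.Perm (Fin a ⊕ Fin m))
          (Sum.inr j)))) = 1 := by
        refine Finset.prod_eq_one fun j _ => ?_
        rw [h, if_pos]
        rfl
      have h3 : α (fun r => v ((Equiv.sumCongr π τ : Equiv.Perm (Fin a ⊕ Fin m))
          (Sum.inl r))) = ((Equiv.Perm.sign π : ℤ) : ℂ) * α (fun r => v (Sum.inl r)) := by
        have h4 := α.map_perm (fun r => v (Sum.inl r)) π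
        rw [Units.smul_def, zsmul_eq_mul] at h4
        exact h4
      rw [h2, h3, Equiv.Perm.sign_sumCongr, mul_one]
      have h5 : ((Equiv.Perm.sign π : ℤ) : ℂ) * ((Equiv.Perm.sign π : ℤ) : ℂ) = 1 := by
        rw [← Int.cast_mul, ← Units.val_mul, Int.units_mul_self, Units.val_one, Int.cast_one]
      push_cast
      linear_combination (-((Equiv.Perm.sign τ : ℤ) : ℂ) * α (fun r => v (Sum.inl r))) * h5
  rw [Finset.sum_congr rfl (fun τ _ => by rw [h1 τ])]
  have h6 : ∀ τ : Equiv.Perm (Fin m), ((Equiv.Perm.sign τ : ℤ) : ℂ) *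
      (((Equiv.Perm.sign τ : ℤ) : ℂ) * ((Nat.factorial a : ℂ) * α (fun r => v (Sum.inl r)))) =
      (Nat.factorial a : ℂ) * α (fun r => v (Sum.inl r)) := by
    intro τ
    have h5 : ((Equiv.Perm.sign τ : ℤ) : ℂ) * ((Equiv.Perm.sign τ : ℤ) : ℂ) = 1 := by
      rw [← Int.cast_mul, ← Units.val_mul, Int.units_mul_self, Units.val_one, Int.cast_one]
    linear_combination ((Nat.factorial a : ℂ) * α (fun r => v (Sum.inl r))) * h5
  rw [Finset.sum_congr rfl (fun τ _ => h6 τ), Finset.sum_const, Finset.card_univ,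
    Fintype.card_perm, Fintype.card_fin, nsmul_eq_mul]

end abs

/-! ### rational multiples of powers -/

/-- the rational multiples of `T ^ n` -/
private def Rt (T : ℂ) (n : ℕ) : AddSubgroup ℂ where
  carrier := {z | ∃ c : ℚ, z = T ^ n * c}
  zero_mem' := ⟨0, by simp⟩
  add_mem' := by
    rintro _ _ ⟨c, rfl⟩ ⟨d, rfl⟩
    exact ⟨c + d, by push_cast; ring⟩
  neg_mem' := by
    rintro _ ⟨c, rfl⟩
    exact ⟨-c, by push_cast; ring⟩

private theorem Rt_mul {T : ℂ} {n n' : ℕ} {z w : ℂ} (hz : z ∈ Rt T n) (hw : w ∈ Rt T n') :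
    z * w ∈ Rt T (n + n') := by
  obtain ⟨c, rfl⟩ := hz
  obtain ⟨d, rfl⟩ := hw
  exact ⟨c * d, by push_cast; ring⟩

private theorem Rt_int {T : ℂ} {n : ℕ} {z : ℂ} (k : ℤ) (hz : z ∈ Rt T n) :
    (k : ℂ) * z ∈ Rt T n := by
  obtain ⟨c, rfl⟩ := hz
  exact ⟨k * c, by push_cast; ring⟩

private theorem Rt_prod {T : ℂ} {ι : Type} (s : Finset ι) (f : ι → ℂ)
    (hf : ∀ i ∈ s, f i ∈ Rt T 1) : ∏ i ∈ s, f i ∈ Rt T s.card := by
  classical
  induction s using Finset.induction_on with
  | empty => exact ⟨1, by simp⟩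
  | insert i s hi ih =>
    rw [Finset.prod_insert hi, Finset.card_insert_of_notMem hi, add_comm]
    exact Rt_mul (hf i (Finset.mem_insert_self _ _))
      (ih fun j hj => hf j (Finset.mem_insert_of_mem hj))

/-- determinants of matrices of rational multiples of `T` -/
private theorem Rt_det {T : ℂ} {κ : Type} [Fintype κ] [DecidableEq κ] (M : Matrix κ κ ℂ)
    (hM : ∀ i j, M i j ∈ Rt T 1) : M.det ∈ Rt T (Fintype.card κ) := by
  rw [Matrix.det_apply']
  refine sum_mem fun σ _ => Rt_int _ ?_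
  exact Rt_prod _ _ fun i _ => hM _ _

/-! ### abelian varieties -/

section av

variable (X : AbVar)

/-- the coordinate vectors -/
private noncomputable def ev (i : Fin X.g ⊕ Fin X.g) : X.H1 := Pi.single i (1 : ℂ)

/-- the dual vectors -/
private noncomputable def dv : Fin X.g ⊕ Fin X.g → X.H1
  | .inl a => -ev X (.inr a)
  | .inr a => ev X (.inl a)

private theorem pol_ev (i : Fin X.g ⊕ Fin X.g) (u : X.H1) : X.polForm u (ev X i) =
    match i with
    | .inl a => -u (.inr a)
    | .inr a => u (.inl a) := by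
  rw [AbVar.polForm_apply]
  rcases i with a | a
  · change ∑ b, (u (.inl b) * (Pi.single (.inl a) (1 : ℂ) : X.H1) (.inr b) -
      (Pi.single (.inl a) (1 : ℂ) : X.H1) (.inl b) * u (.inr b)) = -u (.inr a)
    rw [Finset.sum_eq_single a]
    · rw [Pi.single_eq_same, Pi.single_eq_of_ne (by simp)]
      ring
    · intro b _ hb
      rw [Pi.single_eq_of_ne (by simp), Pi.single_eq_of_ne (fun h => hb (Sum.inl.inj h))]
      ring
    · intro h
      exact absurd (Finset.mem_univ a) h
  · change ∑ b, (u (.inl b) * (Pi.single (.inr a) (1 : ℂ) : X.H1) (.inr b) -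
      (Pi.single (.inr a) (1 : ℂ) : X.H1) (.inl b) * u (.inr b)) = u (.inl a)
    rw [Finset.sum_eq_single a]
    · rw [Pi.single_eq_same, Pi.single_eq_of_ne (by simp)]
      ring
    · intro b _ hb
      rw [Pi.single_eq_of_ne (fun h => hb (Sum.inr.inj h)), Pi.single_eq_of_ne (by simp)]
      ring
    · intro h
      exact absurd (Finset.mem_univ a) h

private theorem pol_dv (i i' : Fin X.g ⊕ Fin X.g) :
    X.polForm (dv X i) (ev X i') = if i' = i then 1 else 0 := by
  rw [pol_ev]
  rcases i with a | a <;> rcases i' with b | b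
  · change -(-(Pi.single (.inr a) (1 : ℂ) : X.H1) (.inr b)) = _
    by_cases h : b = a
    · subst h
      rw [Pi.single_eq_same, if_pos rfl, neg_neg]
    · rw [Pi.single_eq_of_ne (fun h' => h (Sum.inr.inj h')),
        if_neg (fun h' => h (Sum.inl.inj h')), neg_zero, neg_zero]
  · change -((Pi.single (.inr a) (1 : ℂ) : X.H1) (.inl b)) = _
    rw [Pi.single_eq_of_ne (by simp), if_neg (by simp), neg_zero]
  · change -((Pi.single (.inl a) (1 : ℂ) : X.H1) (.inr b)) = _
    rw [Pi.single_eq_of_ne (by simp), if_neg (by simp), neg_zero]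
  · change (Pi.single (.inl a) (1 : ℂ) : X.H1) (.inl b) = _
    by_cases h : b = a
    · subst h
      rw [Pi.single_eq_same, if_pos rfl]
    · rw [Pi.single_eq_of_ne (fun h' => h (Sum.inl.inj h')),
        if_neg (fun h' => h (Sum.inr.inj h'))]

private theorem dv_fil (a : Fin X.g) : X.IsFil (dv X (.inl a)) := by
  intro b
  change -((Pi.single (.inr a) (1 : ℂ) : X.H1) (.inl b)) = 0
  rw [Pi.single_eq_of_ne (by simp), neg_zero]

private theorem Star_bil {V κ : Type} [AddCommGroup V] [Module ℂ V] [Fintype κ]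
    (ψ : V →ₗ[ℂ] V →ₗ[ℂ] ℂ) (e : κ → V) (x y : κ → ℂ) :
    ψ (∑ i, x i • e i) (∑ j, y j • e j) = ∑ j, (∑ i, x i * ψ (e i) (e j)) * y j := by
  rw [map_sum]
  refine Finset.sum_congr rfl fun j _ => ?_
  rw [map_smul, smul_eq_mul, mul_comm]
  congr 1
  rw [map_sum, LinearMap.sum_apply]
  exact Finset.sum_congr rfl fun i _ => by rw [map_smul, LinearMap.smul_apply, smul_eq_mul]

/-- the main step: coordinate vectors -/
private theorem Star_main {k : ℕ} (hk : k ≤ X.g)
    (hβ : ∀ β : X.Class (2 * (X.g - k)), X.IsGrothendieckClass (X.g - k) β →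
      X.IsInFil (X.g - k) β)
    (α : X.Class (2 * k)) (hα : X.IsGrothendieckClass k α)
    (ρ : Fin (2 * k) ⊕ Fin (2 * (X.g - k)) ≃ Fin X.g ⊕ Fin X.g)
    (hρ : k < (Finset.univ.filter fun r : Fin (2 * k) => (ρ (Sum.inl r)).isRight = true).card) :
    α (fun r => ev X (ρ (Sum.inl r))) = 0 := by
  classical
  have hT : (2 * Real.pi * Complex.I : ℂ) ≠ 0 := by
    simp [Real.pi_ne_zero]
  obtain ⟨T, hTdef⟩ : ∃ T : ℂ, T = 2 * Real.pi * Complex.I := ⟨_, rfl⟩
  rw [← hTdef] at hT
  -- the two bases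
  let e : Basis (Fin (2 * k) ⊕ Fin (2 * (X.g - k))) ℂ X.H1 :=
    (Pi.basisFun ℂ (Fin X.g ⊕ Fin X.g)).reindex ρ.symm
  have he : ∀ x, e x = ev X (ρ x) := by
    intro x
    rw [Basis.reindex_apply, Equiv.symm_symm, Pi.basisFun_apply]
    rfl
  obtain ⟨ι, fι, b₀, hb₀⟩ := exists_bettiBasis X
  have hcard : Fintype.card ι = Fintype.card (Fin (2 * k) ⊕ Fin (2 * (X.g - k))) := by
    rw [← Module.finrank_eq_card_basis b₀, Module.finrank_eq_card_basis e]
  let b : Basis (Fin (2 * k) ⊕ Fin (2 * (X.g - k))) ℂ X.H1 :=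
    b₀.reindex (Fintype.equivOfCardEq hcard)
  have hb : ∀ x, b x ∈ X.betti := by
    intro x
    rw [Basis.reindex_apply, ← hb₀]
    exact Submodule.subset_span ⟨_, rfl⟩
  have hbB : ∀ x, X.IsBetti (b x) := fun x => (isBetti_iff X _).2 (hb x)
  -- determinants
  set P : ℂ := e.det b with hP
  have hP0 : P ≠ 0 := (e.isUnit_det b).ne_zero
  let Ge : Matrix (Fin (2 * k) ⊕ Fin (2 * (X.g - k))) (Fin (2 * k) ⊕ Fin (2 * (X.g - k))) ℂ :=
    Matrix.of fun i j => X.polForm (e i) (e j)
  let Gb : Matrix (Fin (2 * k) ⊕ Fin (2 * (X.g - k))) (Fin (2 * k) ⊕ Fin (2 * (X.g - k))) ℂ :=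
    Matrix.of fun i j => X.polForm (b i) (b j)
  have hG : Gb.det = P ^ 2 * Ge.det := by
    have h1 : Gb = (e.toMatrix b).transpose * Ge * e.toMatrix b := by
      ext i j
      have h2 := Star_bil X.polForm e (fun l => e.toMatrix b l i) (fun l => e.toMatrix b l j)
      rw [e.sum_toMatrix_smul_self b i, e.sum_toMatrix_smul_self b j] at h2
      exact h2
    rw [h1, Matrix.det_mul, Matrix.det_mul, Matrix.det_transpose, hP, Basis.det_apply]
    ring
  have hGe : Ge.det ∈ Rt 1 (Fintype.card (Fin (2 * k) ⊕ Fin (2 * (X.g - k)))) := by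
    refine Rt_det _ fun i j => ?_
    change X.polForm (e i) (e j) ∈ _
    rw [he, he, pol_ev]
    have h01 : ∀ x y : Fin X.g ⊕ Fin X.g, ev X x y ∈ Rt 1 1 := by
      intro x y
      change (Pi.single x (1 : ℂ) : X.H1) y ∈ _
      by_cases h : y = x
      · subst h
        rw [Pi.single_eq_same]
        exact ⟨1, by simp⟩
      · rw [Pi.single_eq_of_ne h]
        exact zero_mem _
    rcases ρ j with c | c
    · exact neg_mem (h01 _ _)
    · exact h01 _ _
  have hGe0 : Ge.det ≠ 0 := by
    intro h0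
    obtain ⟨v, hv0, hv⟩ := Matrix.exists_mulVec_eq_zero_iff.2 h0
    apply hv0
    have h1 : ∑ j, v j • e j = 0 := by
      apply polForm_nondeg X
      intro w
      rw [polForm_antisymm, neg_eq_zero]
      have h3 : X.polForm.flip (∑ j, v j • e j) = 0 := by
        refine e.ext fun i => ?_
        have h2 := congrFun hv i
        rw [Matrix.mulVec, dotProduct] at h2
        rw [LinearMap.flip_apply, map_sum, LinearMap.zero_apply]
        have h4 : ∀ j, X.polForm (e i) (v j • e j) = Ge i j * v j := by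
          intro j
          rw [map_smul, smul_eq_mul, mul_comm]
          rfl
        rw [Finset.sum_congr rfl (fun j _ => h4 j)]
        exact h2
      exact congrArg (fun f : X.H1 →ₗ[ℂ] ℂ => f w) h3
    exact funext fun j => Fintype.linearIndependent_iff.1 e.linearIndependent v h1 j
  have hGb : Gb.det ∈ Rt T (Fintype.card (Fin (2 * k) ⊕ Fin (2 * (X.g - k)))) := by
    refine Rt_det _ fun i j => ?_
    obtain ⟨q, hq⟩ := polForm_rat X _ _ (hb i) (hb j)
    refine ⟨q, ?_⟩
    change X.polForm (b i) (b j) = _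
    rw [hq, pow_one, hTdef]
  have hκ : Fintype.card (Fin (2 * k) ⊕ Fin (2 * (X.g - k))) = 2 * X.g := by
    rw [Fintype.card_sum, Fintype.card_fin, Fintype.card_fin]
    omega
  -- the constant
  obtain ⟨s, hs⟩ : ∃ s : ℂ, s * T ^ X.g = P := ⟨P / T ^ X.g, by field_simp⟩
  have hs0 : s ≠ 0 := by
    rintro rfl
    apply hP0
    rw [← hs, zero_mul]
  have hsalg : IsAlgebraic ℚ s := by
    obtain ⟨c, hc⟩ := hGe
    obtain ⟨d, hd⟩ := hGb
    rw [one_pow, one_mul] at hc
    have hc0 : (c : ℂ) ≠ 0 := by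
      rw [← hc]
      exact hGe0
    have h1 : s ^ 2 = ((d / c : ℚ) : ℂ) := by
      rw [hd, hc, ← hs, hκ] at hG
      have h2 : (T ^ X.g) ^ 2 * (d : ℂ) = (T ^ X.g) ^ 2 * (s ^ 2 * c) := by
        rw [← pow_mul, mul_comm X.g 2]
        calc T ^ (2 * X.g) * (d : ℂ) = (s * T ^ X.g) ^ 2 * c := hG
          _ = _ := by rw [mul_pow, ← pow_mul, mul_comm X.g 2]; ring
      have h3 := mul_left_cancel₀ (pow_ne_zero 2 (pow_ne_zero X.g hT)) h2
      rw [Rat.cast_div, eq_div_iff hc0]
      exact h3.symm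
    refine IsAlgebraic.of_pow (n := 2) two_pos ?_
    rw [h1]
    exact isAlgebraic_algebraMap (d / c : ℚ)
  -- the class
  set β : X.Class (2 * (X.g - k)) := s • Sβ α X.polForm (fun x => e x) with hβdef
  have hβapp : ∀ u, β u = s * Sβ α X.polForm (fun x => e x) u := fun u => rfl
  have hgr : X.IsGrothendieckClass (X.g - k) β := by
    refine ⟨fun u hu => ?_, fun u hu => ?_⟩
    · rw [hβapp, Sβ_apply]
      refine hsalg.mul (isAlg_sum _ _ fun τ _ => (isAlgebraic_intCast _).mul ?_)
      rw [SN_apply]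
      refine isAlg_sum _ _ fun π _ => (isAlgebraic_intCast _).mul (IsAlgebraic.mul ?_ ?_)
      · refine hα.1 _ fun r => ?_
        rw [he]
        exact single_deRham X _
      · refine isAlg_prod _ _ fun j _ => polForm_alg X _ _ (hu _) ?_
        rw [he]
        exact single_deRham X _
    · have hmem : β u ∈ Rt T (X.g - k) := by
        rw [hβapp, Sβ_apply, Finset.mul_sum]
        refine sum_mem fun τ _ => ?_
        have h1 : s * (((Equiv.Perm.sign τ : ℤ) : ℂ) *
            SN α X.polForm (fun j => u (τ j)) (fun x => e x)) =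
            ((Equiv.Perm.sign τ : ℤ) : ℂ) *
              (s * SN α X.polForm (fun j => u (τ j)) (fun x => e x)) := by ring
        rw [h1]
        refine Rt_int _ ?_
        have h2 : SN α X.polForm (fun j => u (τ j)) (fun x => b x) =
            SN α X.polForm (fun j => u (τ j)) (fun x => e x) * P := by
          have h3 := congrArg (fun f : X.H1 [⋀^Fin (2 * k) ⊕ Fin (2 * (X.g - k))]→ₗ[ℂ] ℂ => f b)
            ((SN α X.polForm (fun j => u (τ j))).eq_smul_basis_det e)
          exact h3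
        have h4 : SN α X.polForm (fun j => u (τ j)) (fun x => b x) ∈
            Rt T (k + 2 * (X.g - k)) := by
          rw [SN_apply]
          refine sum_mem fun π _ => Rt_int _ (Rt_mul ?_ ?_)
          · obtain ⟨c, hc⟩ := hα.2 (fun r => b (π (Sum.inl r))) fun r => hbB _
            exact ⟨c, by rw [hc, hTdef]⟩
          · have h5 := Rt_prod (T := T) Finset.univ
              (fun j => X.polForm (u (τ j)) (b (π (Sum.inr j)))) (fun j _ => by
                obtain ⟨q, hq⟩ := polForm_rat X _ _ ((isBetti_iff X _).1 (hu (τ j)))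
                  (hb (π (Sum.inr j)))
                exact ⟨q, by rw [hq, pow_one, hTdef]⟩)
            rw [Finset.card_univ, Fintype.card_fin] at h5
            exact h5
        obtain ⟨c, hc⟩ := h4
        refine ⟨c, ?_⟩
        have h5 : T ^ X.g * (s * SN α X.polForm (fun j => u (τ j)) (fun x => e x)) =
            T ^ X.g * (T ^ (X.g - k) * c) := by
          calc T ^ X.g * (s * SN α X.polForm (fun j => u (τ j)) (fun x => e x))
              = SN α X.polForm (fun j => u (τ j)) (fun x => e x) * P := by rw [← hs]; ring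
            _ = T ^ (k + 2 * (X.g - k)) * c := by rw [← h2, hc]
            _ = T ^ (X.g + (X.g - k)) * c := by
              have h6 : k + 2 * (X.g - k) = X.g + (X.g - k) := by omega
              rw [h6]
            _ = _ := by rw [pow_add]; ring
        exact mul_left_cancel₀ (pow_ne_zero _ hT) h5
      obtain ⟨c, hc⟩ := hmem
      exact ⟨c, by rw [hc, hTdef]⟩
  -- the vectors
  have hcount : X.g - k <
      (Finset.univ.filter fun j : Fin (2 * (X.g - k)) => (ρ (Sum.inr j)).isLeft = true).card := by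
    have h1 : ∑ x : Fin (2 * k) ⊕ Fin (2 * (X.g - k)), (if (ρ x).isLeft = true then 1 else 0) =
        X.g := by
      rw [Equiv.sum_comp ρ (fun i : Fin X.g ⊕ Fin X.g => if i.isLeft = true then 1 else 0),
        Fintype.sum_sum_type]
      simp
    rw [Fintype.sum_sum_type] at h1
    have h2 : ∑ r : Fin (2 * k), ((if (ρ (Sum.inl r)).isLeft = true then 1 else 0) +
        (if (ρ (Sum.inl r)).isRight = true then 1 else 0)) = 2 * k := by
      have h3 : ∀ r : Fin (2 * k), ((if (ρ (Sum.inl r)).isLeft = true then 1 else 0) +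
        (if (ρ (Sum.inl r)).isRight = true then 1 else 0)) = 1 := by
        intro r
        rcases ρ (Sum.inl r) with c | c <;> simp
      rw [Finset.sum_congr rfl (fun r _ => h3 r)]
      simp
    rw [Finset.sum_add_distrib] at h2
    rw [Finset.card_filter] at hρ ⊢
    omega
  have h0 := hβ β hgr (fun j => dv X (ρ (Sum.inr j))) ⟨_, hcount, fun j hj => by
    have h1 := (Finset.mem_filter.1 hj).2
    rcases hx : ρ (Sum.inr j) with c | c
    · exact dv_fil X c
    · rw [hx] at h1
      exact absurd h1 (by simp)⟩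
  rw [hβapp, Sβ_dual α X.polForm _ _ (fun j x => by
    rw [he, pol_dv]
    by_cases h : x = Sum.inr j
    · rw [if_pos h, if_pos (by rw [h])]
    · rw [if_neg h, if_neg (fun h' => h (ρ.injective h'))])] at h0
  have h1 := (mul_eq_zero.1 h0).resolve_left hs0
  have h2 := (mul_eq_zero.1 h1).resolve_left (Nat.cast_ne_zero.2 (Nat.factorial_ne_zero _))
  have h3 := (mul_eq_zero.1 h2).resolve_left (Nat.cast_ne_zero.2 (Nat.factorial_ne_zero _))
  rw [← h3]
  congr 1
  funext r
  exact (he _).symm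

end av

/-- **Star** -/
theorem Star_ : St_Star := by
  classical
  intro X k
  refine ⟨fun hk hβ α hα => ?_, fun hk α v _ => ?_⟩
  · rintro v ⟨s, hs, hv⟩
    have h1 : ∀ r, v r = ∑ i, v r i • ev X i := by
      intro r
      funext j
      rw [Finset.sum_apply, Finset.sum_eq_single j]
      · change v r j = v r j * (Pi.single j (1 : ℂ) : X.H1) j
        rw [Pi.single_eq_same, mul_one]
      · intro b _ hb
        change v r b * (Pi.single b (1 : ℂ) : X.H1) j = 0
        rw [Pi.single_eq_of_ne (Ne.symm hb), mul_zero]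
      · intro h
        exact absurd (Finset.mem_univ j) h
    have h2 : v = fun r => ∑ i, v r i • ev X i := funext h1
    have h3 : α v = ∑ f : Fin (2 * k) → Fin X.g ⊕ Fin X.g,
        (∏ r, v r (f r)) * α (fun r => ev X (f r)) := by
      conv_lhs => rw [h2]
      have h4 := α.toMultilinearMap.map_sum (fun r i => v r i • ev X i)
      rw [AlternatingMap.coe_multilinearMap] at h4
      rw [h4]
      refine Finset.sum_congr rfl fun f _ => ?_
      have h5 := α.toMultilinearMap.map_smul_univ (fun r => v r (f r)) (fun r => ev X (f r))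
      rw [AlternatingMap.coe_multilinearMap] at h5
      rw [h5, smul_eq_mul]
    rw [h3]
    refine Finset.sum_eq_zero fun f _ => ?_
    by_cases hf : ∃ r ∈ s, (f r).isLeft = true
    · obtain ⟨r, hr, hfr⟩ := hf
      rw [Finset.prod_eq_zero (Finset.mem_univ r), zero_mul]
      rcases hx : f r with c | c
      · exact hv r hr c
      · rw [hx] at hfr
        exact absurd hfr (by simp)
    · push Not at hf
      by_cases hinj : Function.Injective f
      · -- extend to an equivalence
        have hcard : Fintype.card (Fin (2 * (X.g - k))) =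
            Fintype.card ((Set.range f)ᶜ : Set (Fin X.g ⊕ Fin X.g)) := by
          rw [Fintype.card_compl_set, Set.card_range_of_injective hinj, Fintype.card_sum,
            Fintype.card_fin, Fintype.card_fin, Fintype.card_fin]
          omega
        let ρ : Fin (2 * k) ⊕ Fin (2 * (X.g - k)) ≃ Fin X.g ⊕ Fin X.g :=
          (Equiv.sumCongr (Equiv.ofInjective f hinj) (Fintype.equivOfCardEq hcard)).trans
            (Equiv.Set.sumCompl (Set.range f))
        have hρ : ∀ r, ρ (Sum.inl r) = f r := fun r => rfl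
        have h5 := Star_main X hk hβ α hα ρ (by
          refine lt_of_lt_of_le hs (Finset.card_le_card fun r hr => ?_)
          rw [Finset.mem_filter]
          refine ⟨Finset.mem_univ r, ?_⟩
          rw [hρ]
          have h6 := hf r hr
          rcases hx : f r with c | c
          · rw [hx] at h6
            exact absurd rfl h6
          · rfl)
        have h6 : (fun r => ev X (f r)) = fun r => ev X (ρ (Sum.inl r)) := by
          funext r
          rw [hρ]
        rw [h6, h5, mul_zero]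
      · rw [AlternatingMap.map_eq_zero_of_not_injective, mul_zero]
        intro h
        apply hinj
        intro x y hxy
        apply h
        change ev X (f x) = ev X (f y)
        rw [hxy]
  · apply AlternatingMap.map_linearDependent
    intro hli
    have h1 := hli.fintype_card_le_finrank
    rw [Fintype.card_fin, Module.finrank_fintype_fun_eq_card, Fintype.card_sum,
      Fintype.card_fin] at h1
    omega

end Pool.Agent.D5
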