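import Pool.Agent.D5.StL

/-!
# D5, Top: irreducible modules of `J + N` (helper29)
-/

set_option autoImplicit false

namespace Pool.Agent.D5

open Module LieAlgebra LieModule
open Pool.Agent.Helper8 (Principal irr_cases)
open Pool.Agent.Helper24 (ProjTriple)

section top

variable {L W V : Type} [LieRing L] [LieAlgebra ℂ L]
  [AddCommGroup W] [Module ℂ W] [LieRingModule L W] [LieModule ℂ L W]
  [AddCommGroup V] [Module ℂ V] [LieRingModule L V] [LieModule ℂ L V]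

omit [LieModule ℂ L W] in
private theorem TOP_h (S : SlI L W) : S.h ≠ 0 := by
  intro h
  have h0 := S.h0
  rw [h, zero_lie] at h0
  have h1 := (S.indep 1 0 (by rw [← h0]; simp)).1
  exact one_ne_zero h1

omit [LieModule ℂ L W] in
private theorem TOP_t (S : SlI L W) : IsSl2Triple S.h S.e S.f :=
  ⟨TOP_h S, S.ptJ.ef, by rw [S.ptJ.he]; module, by rw [S.ptJ.hf]; module⟩

omit [LieModule ℂ L W] in
private theorem TOP_max [FiniteDimensional ℂ V] [LieModule.IsIrreducible ℂ L V] (S : SlI L W) :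
    ∃ (m : ℕ) (U : Submodule ℂ V), U ≠ ⊥ ∧ (∀ u, u ∈ U ↔ ⁅S.h, u⁆ = (m : ℂ) • u) ∧
      ∀ u ∈ U, ⁅S.e, u⁆ = 0 := by
  have hV : Nontrivial V := LieModule.nontrivial_of_isIrreducible ℂ L V
  have hfin : {μ | (toEnd ℂ L V S.h).HasEigenvalue μ}.Finite := Module.End.finite_hasEigenvalue _
  obtain ⟨μ0, hμ0⟩ := Module.End.exists_eigenvalue (toEnd ℂ L V S.h)
  obtain ⟨μ, hμ, hmax⟩ := Set.exists_max_image {μ | (toEnd ℂ L V S.h).HasEigenvalue μ}
    (fun ν : ℂ => ν.re) hfin ⟨μ0, hμ0⟩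
  have hE : ∀ v : V, ⁅S.h, v⁆ = μ • v → ⁅S.e, v⁆ = 0 := by
    intro v hv1
    by_contra hne
    have h1 : ⁅S.h, ⁅S.e, v⁆⁆ = (μ + 2) • ⁅S.e, v⁆ := by
      rw [leibniz_lie, S.ptJ.he, hv1, smul_lie, lie_smul, add_smul, add_comm]
    have h2 : (toEnd ℂ L V S.h).HasEigenvalue (μ + 2) :=
      Module.End.hasEigenvalue_of_hasEigenvector (x := ⁅S.e, v⁆)
        ⟨Module.End.mem_eigenspace_iff.mpr h1, hne⟩
    have h3 := hmax _ h2
    simp only [Complex.add_re] at h3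
    have h4 : (2 : ℂ).re = 2 := rfl
    rw [h4] at h3
    linarith
  obtain ⟨v, hv⟩ := Module.End.HasEigenvalue.exists_hasEigenvector hμ
  have hv1 : ⁅S.h, v⁆ = μ • v := by
    have h5 := hv.apply_eq_smul
    rwa [toEnd_apply_apply] at h5
  have hp : (TOP_t S).HasPrimitiveVectorWith v μ := ⟨hv.2, hv1, hE v hv1⟩
  obtain ⟨n, hn⟩ := hp.exists_nat
  subst hn
  refine ⟨n, (toEnd ℂ L V S.h).eigenspace (n : ℂ), ?_, fun u => ?_, fun u hu => ?_⟩
  · intro h
    have h6 : v ∈ (toEnd ℂ L V S.h).eigenspace (n : ℂ) := hv.1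
    rw [h] at h6
    exact hv.2 ((Submodule.mem_bot ℂ).1 h6)
  · exact Module.End.mem_eigenspace_iff
  · exact hE u (Module.End.mem_eigenspace_iff.1 hu)

omit [LieModule ℂ L W] in
private theorem TOP_nf (S : SlI L W) {x : L} (hx : x ∈ S.N) (v : V) (j : ℕ) :
    ⁅x, fpow S V j v⁆ = fpow S V j ⁅x, v⁆ := by
  have hxf : ⁅x, S.f⁆ = 0 := by rw [← lie_skew, S.comm _ S.memF _ hx, neg_zero]
  induction j generalizing v with
  | zero => simp [fpow]
  | succ j ih =>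
    have e1 : ∀ w : V, fpow S V (j + 1) w = fpow S V j ⁅S.f, w⁆ := fun w => by
      simp only [fpow, pow_succ, Module.End.mul_apply, toEnd_apply_apply]
    rw [e1, e1, ih, leibniz_lie, hxf, zero_lie, zero_add]

variable {S : SlI L W} {m : ℕ} {U : Submodule ℂ V}

omit [LieModule ℂ L W] in
private theorem TOP_hf (hU : ∀ u, u ∈ U ↔ ⁅S.h, u⁆ = (m : ℂ) • u) (eU : ∀ u ∈ U, ⁅S.e, u⁆ = 0)
    {u : V} (hu : u ∈ U) (j : ℕ) :
    ⁅S.h, fpow S V j u⁆ = ((m : ℂ) - 2 * j) • fpow S V j u := by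
  by_cases h0 : u = 0
  · rw [h0, map_zero, lie_zero, smul_zero]
  · have hp : (TOP_t S).HasPrimitiveVectorWith u (m : ℂ) := ⟨h0, (hU u).1 hu, eU u hu⟩
    exact hp.lie_h_pow_toEnd_f j

omit [LieModule ℂ L W] in
private theorem TOP_ef (hU : ∀ u, u ∈ U ↔ ⁅S.h, u⁆ = (m : ℂ) • u) (eU : ∀ u ∈ U, ⁅S.e, u⁆ = 0)
    {u : V} (hu : u ∈ U) (j : ℕ) :
    ⁅S.e, fpow S V (j + 1) u⁆ = ((j + 1) * (m - j) : ℂ) • fpow S V j u := by
  by_cases h0 : u = 0
  · rw [h0, map_zero, map_zero, lie_zero, smul_zero]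
  · have hp : (TOP_t S).HasPrimitiveVectorWith u (m : ℂ) := ⟨h0, (hU u).1 hu, eU u hu⟩
    exact hp.lie_e_pow_succ_toEnd_f j

omit [LieModule ℂ L W] in
private theorem TOP_ff (u : V) (j : ℕ) : ⁅S.f, fpow S V j u⁆ = fpow S V (j + 1) u := by
  simp only [fpow, pow_succ', Module.End.mul_apply, toEnd_apply_apply]

omit [LieModule ℂ L W] in
private theorem TOP_fz [FiniteDimensional ℂ V]
    (hU : ∀ u, u ∈ U ↔ ⁅S.h, u⁆ = (m : ℂ) • u) (eU : ∀ u ∈ U, ⁅S.e, u⁆ = 0)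
    {u : V} (hu : u ∈ U) {j : ℕ} (hj : m < j) : fpow S V j u = 0 := by
  by_cases h0 : u = 0
  · rw [h0, map_zero]
  · have hp : (TOP_t S).HasPrimitiveVectorWith u (m : ℂ) := ⟨h0, (hU u).1 hu, eU u hu⟩
    have h1 := hp.pow_toEnd_f_eq_zero_of_eq_nat rfl
    obtain ⟨l, rfl⟩ : ∃ l, j = l + (m + 1) := ⟨j - (m + 1), by omega⟩
    unfold fpow
    rw [pow_add, Module.End.mul_apply, h1, map_zero]

omit [LieModule ℂ L W] in
private theorem TOP_stable (hU : ∀ u, u ∈ U ↔ ⁅S.h, u⁆ = (m : ℂ) • u)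
    (eU : ∀ u ∈ U, ⁅S.e, u⁆ = 0) {U' : Submodule ℂ V} (hU' : U' ≤ U)
    (hN : ∀ x ∈ S.N, ∀ u ∈ U', ⁅x, u⁆ ∈ U') (x : L) (v : V)
    (hv : v ∈ Submodule.span ℂ {v : V | ∃ u ∈ U', ∃ j : ℕ, v = fpow S V j u}) :
    ⁅x, v⁆ ∈ Submodule.span ℂ {v : V | ∃ u ∈ U', ∃ j : ℕ, v = fpow S V j u} := by
  have hx : x ∈ S.J ⊔ S.N := by rw [S.sup]; exact LieSubmodule.mem_top x
  rw [LieSubmodule.mem_sup] at hx
  obtain ⟨y, hy, z, hz, rfl⟩ := hx
  obtain ⟨a, b, c, rfl⟩ := S.spanJ y hy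
  induction hv using Submodule.span_induction with
  | mem v hv =>
    obtain ⟨u, hu, j, rfl⟩ := hv
    rw [add_lie, add_lie, add_lie, smul_lie, smul_lie, smul_lie]
    refine Submodule.add_mem _ (Submodule.add_mem _ (Submodule.add_mem _
      (Submodule.smul_mem _ _ ?_) (Submodule.smul_mem _ _ ?_)) (Submodule.smul_mem _ _ ?_)) ?_
    · cases j with
      | zero =>
        have h1 : fpow S V 0 u = u := by simp [fpow]
        rw [h1, eU u (hU' hu)]
        exact Submodule.zero_mem _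
      | succ j =>
        rw [TOP_ef hU eU (hU' hu)]
        exact Submodule.smul_mem _ _ (Submodule.subset_span ⟨u, hu, j, rfl⟩)
    · rw [TOP_hf hU eU (hU' hu)]
      exact Submodule.smul_mem _ _ (Submodule.subset_span ⟨u, hu, j, rfl⟩)
    · rw [TOP_ff]
      exact Submodule.subset_span ⟨u, hu, j + 1, rfl⟩
    · rw [TOP_nf S hz]
      exact Submodule.subset_span ⟨_, hN z hz u hu, j, rfl⟩
  | zero => rw [lie_zero]; exact Submodule.zero_mem _
  | add a b _ _ ha hb => rw [lie_add]; exact Submodule.add_mem _ ha hb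
  | smul c a _ ha => rw [lie_smul]; exact Submodule.smul_mem _ _ ha

omit [LieModule ℂ L W] in
private theorem TOP_repr [FiniteDimensional ℂ V]
    (hU : ∀ u, u ∈ U ↔ ⁅S.h, u⁆ = (m : ℂ) • u) (eU : ∀ u ∈ U, ⁅S.e, u⁆ = 0)
    {U' : Submodule ℂ V} (hU' : U' ≤ U) {v : V}
    (hv : v ∈ Submodule.span ℂ {v : V | ∃ u ∈ U', ∃ j : ℕ, v = fpow S V j u}) :
    ∃ u : Fin (m + 1) → V, (∀ j, u j ∈ U') ∧
      v = ∑ j : Fin (m + 1), fpow S V (j : ℕ) (u j) := by
  classical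
  induction hv using Submodule.span_induction with
  | mem v hv =>
    obtain ⟨u, hu, j, rfl⟩ := hv
    by_cases hj : m < j
    · exact ⟨0, fun _ => Submodule.zero_mem _, by simp [TOP_fz hU eU (hU' hu) hj]⟩
    · refine ⟨Pi.single ⟨j, by omega⟩ u, fun i => ?_, ?_⟩
      · by_cases h : i = ⟨j, by omega⟩
        · rw [h, Pi.single_eq_same]
          exact hu
        · rw [Pi.single_eq_of_ne h]
          exact Submodule.zero_mem _
      · rw [Finset.sum_eq_single (⟨j, by omega⟩ : Fin (m + 1))]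
        · rw [Pi.single_eq_same]
        · intro b _ hb
          rw [Pi.single_eq_of_ne hb, map_zero]
        · intro h
          exact absurd (Finset.mem_univ _) h
  | zero => exact ⟨0, fun _ => Submodule.zero_mem _, by simp⟩
  | add a b _ _ ha hb =>
    obtain ⟨u, hu, rfl⟩ := ha
    obtain ⟨u', hu', rfl⟩ := hb
    refine ⟨u + u', fun j => Submodule.add_mem _ (hu j) (hu' j), ?_⟩
    rw [← Finset.sum_add_distrib]
    exact Finset.sum_congr rfl fun j _ => by rw [Pi.add_apply, map_add]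
  | smul c a _ ha =>
    obtain ⟨u, hu, rfl⟩ := ha
    refine ⟨c • u, fun j => Submodule.smul_mem _ _ (hu j), ?_⟩
    rw [Finset.smul_sum]
    exact Finset.sum_congr rfl fun j _ => by rw [Pi.smul_apply, map_smul]

omit [LieModule ℂ L W] in
private theorem TOP_ee (hU : ∀ u, u ∈ U ↔ ⁅S.h, u⁆ = (m : ℂ) • u) (eU : ∀ u ∈ U, ⁅S.e, u⁆ = 0)
    (j : ℕ) : ∃ c : ℂ, (j ≤ m → c ≠ 0) ∧
      ∀ u ∈ U, ((toEnd ℂ L V S.e) ^ j) (fpow S V j u) = c • u := by
  induction j with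
  | zero => exact ⟨1, fun _ => one_ne_zero, fun u _ => by simp [fpow]⟩
  | succ j ih =>
    obtain ⟨c, hc, h⟩ := ih
    refine ⟨((j + 1) * (m - j) : ℂ) * c, fun hj => mul_ne_zero (mul_ne_zero ?_ ?_)
      (hc (by omega)), fun u hu => ?_⟩
    · exact_mod_cast Nat.succ_ne_zero j
    · rw [sub_ne_zero]
      exact_mod_cast (by omega : m ≠ j)
    · rw [pow_succ, Module.End.mul_apply, toEnd_apply_apply, TOP_ef hU eU hu, map_smul, h u hu,
        smul_smul]

omit [LieModule ℂ L W] in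
private theorem TOP_ez (hU : ∀ u, u ∈ U ↔ ⁅S.h, u⁆ = (m : ℂ) • u) (eU : ∀ u ∈ U, ⁅S.e, u⁆ = 0)
    {j k : ℕ} (hjk : j < k) {u : V} (hu : u ∈ U) :
    ((toEnd ℂ L V S.e) ^ k) (fpow S V j u) = 0 := by
  obtain ⟨c, -, h⟩ := TOP_ee hU eU j
  obtain ⟨l, rfl⟩ : ∃ l, k = l + 1 + j := ⟨k - j - 1, by omega⟩
  rw [pow_add, Module.End.mul_apply, h u hu, map_smul, pow_succ, Module.End.mul_apply,
    toEnd_apply_apply, eU u hu, map_zero, smul_zero]

omit [LieModule ℂ L W] in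
private theorem TOP_indep (hU : ∀ u, u ∈ U ↔ ⁅S.h, u⁆ = (m : ℂ) • u)
    (eU : ∀ u ∈ U, ⁅S.e, u⁆ = 0) (u : Fin (m + 1) → V) (hu : ∀ j, u j ∈ U)
    (h : ∑ j : Fin (m + 1), fpow S V (j : ℕ) (u j) = 0) : ∀ j, u j = 0 := by
  classical
  by_contra hne
  push Not at hne
  obtain ⟨j₀, hj₀⟩ := hne
  obtain ⟨j, hj, hmax⟩ := Finset.exists_max_image (Finset.univ.filter fun j => u j ≠ 0)
    (fun j => j) ⟨j₀, Finset.mem_filter.2 ⟨Finset.mem_univ _, hj₀⟩⟩
  have hj' : u j ≠ 0 := (Finset.mem_filter.1 hj).2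
  have hm : ∀ i, j < i → u i = 0 := by
    intro i hi
    by_contra hi0
    exact absurd (hmax i (Finset.mem_filter.2 ⟨Finset.mem_univ _, hi0⟩)) (not_le.2 hi)
  have h1 := congrArg ((toEnd ℂ L V S.e) ^ (j : ℕ)) h
  rw [map_sum, map_zero, Finset.sum_eq_single j] at h1
  · obtain ⟨c, hc, h2⟩ := TOP_ee hU eU (j : ℕ)
    rw [h2 _ (hu j)] at h1
    have hjm : (j : ℕ) ≤ m := by have := j.2; omega
    exact (smul_ne_zero (hc hjm) hj') h1
  · intro i _ hij
    rcases lt_or_gt_of_ne hij with h3 | h3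
    · exact TOP_ez hU eU h3 (hu i)
    · rw [hm i h3, map_zero, map_zero]
  · intro h2
    exact absurd (Finset.mem_univ _) h2

end top

theorem Top_ : St_Top := by
  intro L W V _ _ _ _ _ _ _ _ _ _ _ _ _ _ S
  obtain ⟨m, U, hne, hU, eU⟩ := TOP_max (V := V) S
  have nU : ∀ x ∈ S.N, ∀ u ∈ U, ⁅x, u⁆ ∈ U := by
    intro x hx u hu
    rw [hU, leibniz_lie, S.comm _ S.ptJ.hJ _ hx, zero_lie, zero_add, (hU u).1 hu, lie_smul]
  have hgen : ∀ U' ≤ U, (∀ x ∈ S.N, ∀ u ∈ U', ⁅x, u⁆ ∈ U') → U' ≠ ⊥ → ∀ v : V,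
      ∃ u : Fin (m + 1) → V, (∀ j, u j ∈ U') ∧
        v = ∑ j : Fin (m + 1), fpow S V (j : ℕ) (u j) := by
    intro U' hU' hN hne' v
    rcases irr_cases (L := L) (Submodule.span ℂ {v : V | ∃ u ∈ U', ∃ j : ℕ, v = fpow S V j u})
      (fun x v hv => TOP_stable hU eU hU' hN x v hv) with h1 | h1
    · exfalso
      obtain ⟨u, hu, hu0⟩ := (Submodule.ne_bot_iff _).1 hne'
      have h2 : u ∈ Submodule.span ℂ {v : V | ∃ u ∈ U', ∃ j : ℕ, v = fpow S V j u} :=
        Submodule.subset_span ⟨u, hu, 0, by simp [fpow]⟩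
      rw [h1, Submodule.mem_bot] at h2
      exact hu0 h2
    · refine TOP_repr hU eU hU' ?_
      rw [h1]
      exact Submodule.mem_top
  have hspan := hgen U le_rfl nU hne
  have hind := TOP_indep (S := S) hU eU
  refine ⟨m, U, ⟨hne, fun u hu => (hU u).1 hu, eU, nU, ?_, fun u hu j => TOP_hf hU eU hu j,
    fun u hu j => TOP_ef hU eU hu j, fun u _ j => TOP_ff u j,
    fun u hu j hj => TOP_fz hU eU hu hj, fun x hx v j => TOP_nf S hx v j, hspan, hind, ?_⟩, ?_⟩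
  · intro U' hU' hN
    by_cases h0 : U' = ⊥
    · exact Or.inl h0
    · refine Or.inr (le_antisymm hU' fun u hu => ?_)
      obtain ⟨w, hw, he⟩ := hgen U' hU' hN h0 u
      have h1 := hind (w - Pi.single 0 u) (fun j => ?_) ?_ 0
      · rw [Pi.sub_apply, Pi.single_eq_same, sub_eq_zero] at h1
        rw [← h1]
        exact hw 0
      · rw [Pi.sub_apply]
        refine Submodule.sub_mem _ (hU' (hw j)) ?_
        by_cases h : j = 0
        · rw [h, Pi.single_eq_same]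
          exact hu
        · rw [Pi.single_eq_of_ne h]
          exact Submodule.zero_mem _
      · have h2 : ∑ j : Fin (m + 1), fpow S V (j : ℕ) ((w - Pi.single 0 u : Fin (m + 1) → V) j) =
            ∑ j : Fin (m + 1), fpow S V (j : ℕ) (w j) -
              ∑ j : Fin (m + 1), fpow S V (j : ℕ) ((Pi.single 0 u : Fin (m + 1) → V) j) := by
          rw [← Finset.sum_sub_distrib]
          exact Finset.sum_congr rfl fun j _ => by rw [Pi.sub_apply, map_sub]
        have h3 : ∑ j : Fin (m + 1), fpow S V (j : ℕ) ((Pi.single 0 u : Fin (m + 1) → V) j) = u := by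
          rw [Finset.sum_eq_single (0 : Fin (m + 1))]
          · rw [Pi.single_eq_same]
            simp [fpow]
          · intro b _ hb
            rw [Pi.single_eq_of_ne hb, map_zero]
          · intro h
            exact absurd (Finset.mem_univ _) h
        rw [h2, h3, ← he, sub_self]
  · let T : (Fin (m + 1) → U) →ₗ[ℂ] V :=
      ∑ j : Fin (m + 1), (fpow S V (j : ℕ)) ∘ₗ U.subtype ∘ₗ (LinearMap.proj j)
    have hT : ∀ u, T u = ∑ j : Fin (m + 1), fpow S V (j : ℕ) (u j : V) := by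
      intro u
      simp [T, LinearMap.sum_apply]
    have hinj : Function.Injective T := by
      rw [← LinearMap.ker_eq_bot, LinearMap.ker_eq_bot']
      intro u hu
      rw [hT] at hu
      funext j
      exact Subtype.ext (hind (fun j => (u j : V)) (fun j => (u j).2) hu j)
    have hsurj : Function.Surjective T := by
      intro v
      obtain ⟨u, hu, he⟩ := hspan v
      exact ⟨fun j => ⟨u j, hu j⟩, by rw [hT, he]⟩
    have h1 := (LinearEquiv.ofBijective T ⟨hinj, hsurj⟩).finrank_eq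
    rw [← h1, Module.finrank_pi_fintype, Finset.sum_const, Finset.card_univ, Fintype.card_fin,
      smul_eq_mul]
  · intro v _
    obtain ⟨u, hu, rfl⟩ := hspan v
    refine Submodule.sum_mem _ fun j _ => Submodule.subset_span ⟨-(j : ℤ), ?_⟩
    rw [TOP_hf hU eU (hu j)]
    congr 1
    push_cast
    ring

end Pool.Agent.D5
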