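import Pool.Agent.D5.StL
import Pool.Agent.Helper8.J.Parity

/-!
# D5, module TWO (helper28): parities; top space of dimension two or one
-/

set_option autoImplicit false

namespace Pool.Agent.D5

open Module LieAlgebra LieModule
open Pool.Agent.Helper8 (Principal Symp)
open Pool.Agent.Helper24 (ProjTriple)

/-- an eigenvalue of an operator with a spanning set of eigenvectors is one of their eigenvalues -/
private theorem TWO_eig {V : Type} [AddCommGroup V] [Module ℂ V] (T : Module.End ℂ V) (X : Set ℂ)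
    (h : ⊤ ≤ Submodule.span ℂ {v : V | ∃ c ∈ X, T v = c • v}) {μ : ℂ} {v : V}
    (hv : T v = μ • v) (hv0 : v ≠ 0) : μ ∈ X := by
  by_contra hμ
  have h1 := (Module.End.eigenspaces_iSupIndep T) μ
  have h2 : v ∈ T.eigenspace μ := Module.End.mem_eigenspace_iff.2 hv
  have h4 : Submodule.span ℂ {v : V | ∃ c ∈ X, T v = c • v} ≤
      ⨆ (j) (_ : j ≠ μ), T.eigenspace j := by
    rw [Submodule.span_le]
    rintro w ⟨c, hc, hw⟩
    have hcμ : c ≠ μ := fun h => hμ (h ▸ hc)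
    have h5 : T.eigenspace c ≤ ⨆ (j) (_ : j ≠ μ), T.eigenspace j :=
      le_iSup₂_of_le c hcμ le_rfl
    exact h5 (Module.End.mem_eigenspace_iff.2 hw)
  exact hv0 (Submodule.disjoint_def.1 h1 v h2 (h4 (h Submodule.mem_top)))

private theorem TWO_par {L V : Type} [LieRing L] [LieAlgebra ℂ L] [AddCommGroup V] [Module ℂ V]
    [LieRingModule L V] [LieModule ℂ L V] {h : L} {n : ℤ} (hP : Par h n V) {μ : ℂ} {v : V}
    (hv : ⁅h, v⁆ = μ • v) (hv0 : v ≠ 0) : ∃ m : ℤ, μ = ((n + 2 * m : ℤ) : ℂ) := by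
  have h1 : μ ∈ {c : ℂ | ∃ m : ℤ, c = ((n + 2 * m : ℤ) : ℂ)} := by
    refine TWO_eig (toEnd ℂ L V h) _ (hP.trans (Submodule.span_mono ?_))
      (by rw [toEnd_apply_apply]; exact hv) hv0
    rintro w ⟨m, hm⟩
    exact ⟨_, ⟨m, rfl⟩, by rw [toEnd_apply_apply]; exact hm⟩
  exact h1

/-- [Odd] -/
theorem Odd_ : St_Odd := by
  intro L W V _ _ _ _ _ _ _ _ _ _ _ _ _ _ S ω hω a n ha hn
  have hV : Nontrivial V := LieModule.nontrivial_of_isIrreducible ℂ L V
  have hcomm : ⁅S.h, S.h'⁆ = 0 := S.comm _ S.ptJ.hJ _ S.ptN.hJ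
  obtain ⟨μ, hμ⟩ := Module.End.exists_eigenvalue (toEnd ℂ L V S.h')
  obtain ⟨E, hE⟩ : ∃ E, E = (toEnd ℂ L V S.h').eigenspace μ := ⟨_, rfl⟩
  have memE : ∀ v : V, v ∈ E ↔ ⁅S.h', v⁆ = μ • v := fun v => by
    rw [hE, Module.End.mem_eigenspace_iff, LieModule.toEnd_apply_apply]
  have hst : ∀ v ∈ E, toEnd ℂ L V S.h v ∈ E := by
    intro v hv
    rw [memE] at hv ⊢
    rw [toEnd_apply_apply]
    have h1 : ⁅S.h', ⁅S.h, v⁆⁆ = ⁅S.h, ⁅S.h', v⁆⁆ := by
      have h2 := leibniz_lie S.h S.h' v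
      rw [hcomm, zero_lie, zero_add] at h2
      exact h2.symm
    rw [h1, hv, lie_smul]
  obtain ⟨v₀, hv₀⟩ := hμ.exists_hasEigenvector
  have hEn : Nontrivial E := by
    refine ⟨⟨⟨v₀, ?_⟩, 0, fun h => hv₀.2 (congrArg Subtype.val h)⟩⟩
    rw [hE]
    exact hv₀.1
  obtain ⟨lam, hlam⟩ := Module.End.exists_eigenvalue ((toEnd ℂ L V S.h).restrict hst)
  obtain ⟨w, hw⟩ := hlam.exists_hasEigenvector
  have hw0 : (w : V) ≠ 0 := fun h => hw.2 (Subtype.ext h)
  have h1 : ⁅S.h, (w : V)⁆ = lam • (w : V) := by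
    have h2 := congrArg Subtype.val hw.apply_eq_smul
    exact h2
  have h2 : ⁅S.h', (w : V)⁆ = μ • (w : V) := (memE _).1 w.2
  obtain ⟨i, hi⟩ := TWO_par ha h1 hw0
  obtain ⟨j, hj⟩ := TWO_par hn h2 hw0
  have h3 : ⁅S.p.h, (w : V)⁆ = (lam + μ) • (w : V) := by
    rw [← S.sum, add_lie, h1, h2, add_smul]
  have h4 : lam + μ ∈ {c : ℂ | ∃ m : ℤ, Odd m ∧ c = (m : ℂ)} := by
    refine TWO_eig (toEnd ℂ L V S.p.h) _ ((S.p.odd_span hω).trans (Submodule.span_mono ?_))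
      (by rw [toEnd_apply_apply]; exact h3) hw0
    rintro x ⟨m, hm, hx⟩
    exact ⟨_, ⟨m, hm, rfl⟩, by rw [toEnd_apply_apply]; exact hx⟩
  obtain ⟨m, hm, hm'⟩ := h4
  rw [hi, hj] at hm'
  have h5 : (a + 2 * i) + (n + 2 * j) = m := by exact_mod_cast hm'
  have h6 : a + n = m - 2 * (i + j) := by omega
  rw [h6]
  exact hm.sub_even (even_two_mul _)

section
variable {L W V : Type} [LieRing L] [LieAlgebra ℂ L] [FiniteDimensional ℂ L]
  [IsKilling ℂ L] [AddCommGroup W] [Module ℂ W] [LieRingModule L W] [LieModule ℂ L W]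
  [AddCommGroup V] [Module ℂ V] [LieRingModule L V] [LieModule ℂ L V] [FiniteDimensional ℂ V]

/-- an element of `N` which acts on the top space by a scalar acts by this scalar -/
private theorem TWO_scal {S : SlI L W} {m : ℕ} {U : Submodule ℂ V} (hT : TopJ S V m U) {x : L}
    (hx : x ∈ S.N) {c : ℂ} (hc : ∀ u ∈ U, ⁅x, u⁆ = c • u) (v : V) : ⁅x, v⁆ = c • v := by
  obtain ⟨u, hu, rfl⟩ := hT.span v
  rw [lie_sum, Finset.smul_sum]
  refine Finset.sum_congr rfl fun j _ => ?_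
  rw [hT.nf x hx, hc _ (hu j), map_smul]

/-- [One] -/
private theorem TWO_one {S : SlI L W} {m : ℕ} {U : Submodule ℂ V} [Nontrivial V]
    (hT : TopJ S V m U) (htr : Tr0 L V) (h1 : finrank ℂ U = 1) (x : L) (hx : x ∈ S.N) (v : V) :
    ⁅x, v⁆ = 0 := by
  obtain ⟨u₀, hu₀, hspan⟩ := finrank_eq_one_iff'.1 h1
  obtain ⟨c, hc⟩ := hspan ⟨⁅x, (u₀ : V)⁆, hT.nU x hx _ u₀.2⟩
  have hc' : ⁅x, (u₀ : V)⁆ = c • (u₀ : V) := (congrArg Subtype.val hc).symm
  have h2 : ∀ u ∈ U, ⁅x, u⁆ = c • u := by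
    intro u hu
    obtain ⟨d, hd⟩ := hspan ⟨u, hu⟩
    have hd' : d • (u₀ : V) = u := congrArg Subtype.val hd
    rw [← hd', lie_smul, hc', smul_comm]
  have h3 := TWO_scal hT hx h2
  have h4 : toEnd ℂ L V x = c • LinearMap.id := by
    ext w
    rw [toEnd_apply_apply, h3 w]
    rfl
  have h5 := htr x
  rw [h4, map_smul, LinearMap.trace_id, smul_eq_mul] at h5
  have h6 : (finrank ℂ V : ℂ) ≠ 0 := by
    have := finrank_pos (R := ℂ) (M := V)
    exact_mod_cast this.ne'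
  have h7 : c = 0 := (mul_eq_zero.1 h5).resolve_right h6
  rw [h3 v, h7, zero_smul]

end

/-- [One] -/
theorem One_ : St_One := by
  intro L W V _ _ _ _ _ _ _ _ _ _ _ _ _ _ S m U hT htr h1 x hx v
  have hV : Nontrivial V := LieModule.nontrivial_of_isIrreducible ℂ L V
  exact TWO_one hT htr h1 x hx v

/-- the trace of an operator on a plane with two different eigenvalues -/
private theorem TWO_tr {U : Type} [AddCommGroup U] [Module ℂ U] (hU : finrank ℂ U = 2)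
    (T : Module.End ℂ U) {a b : ℂ} (hab : a ≠ b) {u v : U} (hu : T u = a • u) (hv : T v = b • v)
    (hu0 : u ≠ 0) (hv0 : v ≠ 0) : LinearMap.trace ℂ U T = a + b := by
  have hli : LinearIndependent ℂ ![u, v] := by
    refine Module.End.eigenvectors_linearIndependent' T ![a, b] ?_ ![u, v] ?_
    · intro i j hij
      fin_cases i <;> fin_cases j <;> simp_all
    · intro i
      fin_cases i
      · exact ⟨Module.End.mem_eigenspace_iff.2 hu, hu0⟩
      · exact ⟨Module.End.mem_eigenspace_iff.2 hv, hv0⟩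
  let B := basisOfLinearIndependentOfCardEqFinrank hli (by rw [Fintype.card_fin, hU])
  have hB : ⇑B = ![u, v] := coe_basisOfLinearIndependentOfCardEqFinrank hli _
  have hd : ∀ j : Fin 2, T (B j) = (![a, b] : Fin 2 → ℂ) j • B j := by
    intro j
    rw [hB]
    fin_cases j
    · exact hu
    · exact hv
  rw [LinearMap.trace_eq_matrix_trace ℂ B, Matrix.trace, Fin.sum_univ_two, Matrix.diag_apply,
    Matrix.diag_apply, LinearMap.toMatrix_apply, LinearMap.toMatrix_apply, hd, hd, map_smul,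
    map_smul, Finsupp.smul_apply, Finsupp.smul_apply, Basis.repr_self, Basis.repr_self,
    Finsupp.single_eq_same, Finsupp.single_eq_same]
  simp

/-- [Two] -/
theorem Two_ : St_Two := by
  intro L W V _ _ _ _ _ _ _ _ _ _ _ _ _ _ S m U hT htr hpar hU
  have hV : Nontrivial V := LieModule.nontrivial_of_isIrreducible ℂ L V
  have hN1 : S.h' ∈ S.N := S.ptN.hJ
  have hN2 : S.e' ∈ S.N := by
    have h1 : (2 : ℂ) • S.e' ∈ S.N := by
      rw [← S.ptN.he]
      exact lie_mem_left ℂ L S.N _ _ hN1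
    have h2 := S.N.smul_mem (2 : ℂ)⁻¹ h1
    rwa [smul_smul, inv_mul_cancel₀ two_ne_zero, one_smul] at h2
  have hN3 : S.f' ∈ S.N := by
    have h1 : (-2 : ℂ) • S.f' ∈ S.N := by
      rw [← S.ptN.hf]
      exact lie_mem_left ℂ L S.N _ _ hN1
    have h2 := S.N.smul_mem (-2 : ℂ)⁻¹ h1
    rwa [smul_smul, inv_mul_cancel₀ (by norm_num), one_smul] at h2
  have sh : ∀ u ∈ U, toEnd ℂ L V S.h' u ∈ U := fun u hu => hT.nU _ hN1 u hu
  have se : ∀ u ∈ U, toEnd ℂ L V S.e' u ∈ U := fun u hu => hT.nU _ hN2 u hu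
  have sf : ∀ u ∈ U, toEnd ℂ L V S.f' u ∈ U := fun u hu => hT.nU _ hN3 u hu
  -- the trace of `h'` on `U`
  have htr0 : LinearMap.trace ℂ U ((toEnd ℂ L V S.h').restrict sh) = 0 := by
    have h1 : (toEnd ℂ L V S.h').restrict sh =
        ((toEnd ℂ L V S.e').restrict se) * ((toEnd ℂ L V S.f').restrict sf) -
          ((toEnd ℂ L V S.f').restrict sf) * ((toEnd ℂ L V S.e').restrict se) := by
      refine LinearMap.ext fun u => Subtype.ext ?_
      change ⁅S.h', (u : V)⁆ = ⁅S.e', ⁅S.f', (u : V)⁆⁆ - ⁅S.f', ⁅S.e', (u : V)⁆⁆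
      rw [← S.ptN.ef, lie_lie]
    rw [h1, map_sub, LinearMap.trace_mul_comm, sub_self]
  -- eigenvectors of `h'` in `U`
  have key : ∀ (k : ℂ) (u : V), u ∈ U → ⁅S.h', u⁆ = k • u → u ≠ 0 → k = 0 := by
    intro k u hu hk hu0
    obtain ⟨i, hi⟩ := TWO_par hpar hk hu0
    have e1 : ⁅S.e', u⁆ = 0 := by
      by_contra hne
      have h2 : ⁅S.h', ⁅S.e', u⁆⁆ = (k + 2) • ⁅S.e', u⁆ := by
        rw [leibniz_lie, S.ptN.he, hk, smul_lie, lie_smul, add_smul, add_comm]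
      have h3 := TWO_tr (U := U) hU ((toEnd ℂ L V S.h').restrict sh) (a := k) (b := k + 2)
        (by intro h; have : (2 : ℂ) = 0 := by linear_combination -h
            exact two_ne_zero this)
        (u := ⟨u, hu⟩) (v := ⟨⁅S.e', u⁆, se u hu⟩) (Subtype.ext hk) (Subtype.ext h2)
        (fun h => hu0 (congrArg Subtype.val h)) (fun h => hne (congrArg Subtype.val h))
      rw [htr0, hi] at h3
      have h4 : (0 : ℤ) = (0 + 2 * i) + ((0 + 2 * i) + 2) := by exact_mod_cast h3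
      omega
    have e2 : ⁅S.f', u⁆ = 0 := by
      by_contra hne
      have h2 : ⁅S.h', ⁅S.f', u⁆⁆ = (k - 2) • ⁅S.f', u⁆ := by
        rw [leibniz_lie, S.ptN.hf, hk, smul_lie, lie_smul, sub_eq_add_neg, add_smul, add_comm]
      have h3 := TWO_tr (U := U) hU ((toEnd ℂ L V S.h').restrict sh) (a := k) (b := k - 2)
        (by intro h; have : (2 : ℂ) = 0 := by linear_combination h
            exact two_ne_zero this)
        (u := ⟨u, hu⟩) (v := ⟨⁅S.f', u⁆, sf u hu⟩) (Subtype.ext hk) (Subtype.ext h2)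
        (fun h => hu0 (congrArg Subtype.val h)) (fun h => hne (congrArg Subtype.val h))
      rw [htr0, hi] at h3
      have h4 : (0 : ℤ) = (0 + 2 * i) + ((0 + 2 * i) - 2) := by exact_mod_cast h3
      omega
    have h5 : ⁅S.h', u⁆ = 0 := by
      rw [← S.ptN.ef, lie_lie, e1, e2, lie_zero, lie_zero, sub_zero]
    rw [h5] at hk
    exact (smul_eq_zero.1 hk.symm).resolve_right hu0
  -- `h'` is zero on `U`
  have htop : ⨆ μ : ℂ, (toEnd ℂ L V S.h').genEigenspace μ 1 = ⊤ := by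
    refine eq_top_iff.2 (hpar.trans ?_)
    rw [Submodule.span_le]
    rintro v ⟨i, hi⟩
    have h1 : (toEnd ℂ L V S.h').genEigenspace ((0 + 2 * i : ℤ) : ℂ) 1 ≤
        ⨆ μ : ℂ, (toEnd ℂ L V S.h').genEigenspace μ 1 :=
      le_iSup (fun μ : ℂ => (toEnd ℂ L V S.h').genEigenspace μ 1) _
    exact h1 (Module.End.mem_eigenspace_iff.2 hi)
  have hUsup := Submodule.eq_iSup_inf_genEigenspace (p := U) (f := toEnd ℂ L V S.h') (k := 1)
    sh htop
  have hz : ∀ u ∈ U, ⁅S.h', u⁆ = (0 : ℂ) • u := by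
    have h1 : U ≤ (toEnd ℂ L V S.h').eigenspace 0 := by
      rw [hUsup]
      refine iSup_le fun μ => ?_
      rintro u ⟨hu, hu'⟩
      by_cases hu0 : u = 0
      · rw [hu0]; exact Submodule.zero_mem _
      have h2 : ⁅S.h', u⁆ = μ • u := Module.End.mem_eigenspace_iff.1 hu'
      have h3 := key μ u hu h2 hu0
      rw [h3] at h2
      exact Module.End.mem_eigenspace_iff.2 h2
    intro u hu
    exact Module.End.mem_eigenspace_iff.1 (h1 hu)
  have hz' : ∀ v : V, ⁅S.h', v⁆ = 0 := by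
    intro v
    rw [TWO_scal hT hN1 hz v, zero_smul]
  have hph : ∀ v : V, ⁅S.p.h, v⁆ = ⁅S.h, v⁆ := by
    intro v
    rw [← S.sum, add_lie, hz' v, add_zero]
  -- the highest weight of the principal element
  obtain ⟨m', v₀, hv₀, -, hv₀', huniq, hsup⟩ := S.p.top (V := V)
  obtain ⟨u₁, hu₁, hu₁0⟩ := (Submodule.ne_bot_iff U).1 hT.ne
  obtain ⟨k, hk⟩ : ∃ k : ℕ, (m : ℂ) = (m' : ℂ) - 2 * k := by
    have h1 : (m : ℂ) ∈ {c : ℂ | ∃ k : ℕ, c = (m' : ℂ) - 2 * k} := by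
      refine TWO_eig (toEnd ℂ L V S.p.h) _ ?_ (v := u₁)
        (by rw [toEnd_apply_apply, hph]; exact hT.hU u₁ hu₁) hu₁0
      refine hsup.trans (iSup_le fun k => ?_)
      intro w hw
      exact Submodule.subset_span ⟨_, ⟨k, rfl⟩, Module.End.mem_eigenspace_iff.1 hw⟩
    exact h1
  obtain ⟨j, hj⟩ : ∃ j : ℕ, (m' : ℂ) = (m : ℂ) - 2 * j := by
    have h1 : (m' : ℂ) ∈ {c : ℂ | ∃ j : ℕ, c = (m : ℂ) - 2 * j} := by
      refine TWO_eig (toEnd ℂ L V S.p.h) _ ?_ (v := v₀)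
        (by rw [toEnd_apply_apply]; exact hv₀') hv₀
      intro w _
      obtain ⟨u, hu, rfl⟩ := hT.span w
      refine Submodule.sum_mem _ fun j _ => Submodule.subset_span ⟨_, ⟨(j : ℕ), rfl⟩, ?_⟩
      rw [toEnd_apply_apply, hph]
      exact hT.hf _ (hu j) j
    exact h1
  have hmm : (m : ℂ) = (m' : ℂ) := by
    have h1 : (m : ℤ) = (m' : ℤ) - 2 * (k : ℤ) := by exact_mod_cast hk
    have h2 : (m' : ℤ) = (m : ℤ) - 2 * (j : ℤ) := by exact_mod_cast hj
    have h3 : (m : ℤ) = m' := by omega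
    exact_mod_cast h3
  have hle : U ≤ Submodule.span ℂ {v₀} := by
    intro u hu
    obtain ⟨c, hc⟩ := huniq u (by rw [hph, hT.hU u hu, hmm])
    rw [hc]
    exact Submodule.smul_mem _ _ (Submodule.mem_span_singleton_self v₀)
  have h7 := Submodule.finrank_mono hle
  have h8 := finrank_span_singleton (K := ℂ) hv₀
  omega

end Pool.Agent.D5
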