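import Pool.Agent.D5.StR
import Pool.Agent.Helper71.AF.Ranks
import Pool.Agent.Helper7.AF.Small
import Pool.Agent.Helper8.J.Even
import Pool.Agent.Helper11.AF.Rigid

/-!
# D5: types of simple abelian varieties of dimension at most five
-/

set_option autoImplicit false

namespace Pool.Agent.D5

open Module NumberField
open Pool.Agent.Helper7 Pool.Agent.GPC Pool.Agent.Helper39.AF

/-! ### real type -/

private lemma real_UF (A : AbVar) (K : Type) [Field K] [NumberField K] [IsTotallyReal K]
    (C : RealMult A K) : ∃ (r : ℕ) (F : UF (pData A) K r), (∀ x v, F.ρ x v = C.ρ x v) ∧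
      finrank ℚ K * r = 2 * A.g := by
  have hQ : ∀ x, ∀ v ∈ (pData A).Q, reRho C x v ∈ (pData A).Q :=
    fun x v hv => (isDRB_of_isEnd A _ (C.endo x)).rat v hv
  obtain ⟨r, hr⟩ := exists_rank (pData A) (reRho C) hQ
  obtain ⟨lam, h1, h2, eb, h3⟩ := exists_Kbasis (pData A) (reRho C) hQ r hr
  refine ⟨r, { ρ := reRho C
               hρ := fun x => isDRB_of_isEnd A _ (C.endo x)
               cc := fun x => x
               hcc := fun σ x => by
                 have h := ComplexEmbedding.isReal_iff.mp
                   (IsTotallyReal.complexEmbedding_isReal σ)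
                 have h2 := congrArg (fun τ => τ x) h
                 simp only [ComplexEmbedding.conjugate_coe_eq] at h2
                 exact h2.symm
               hros := fun x u v => C.rosati x u v
               hcen := fun f hf hc => C.centralizer f (isEnd_of_isDRB A f hf) hc
               hnd := hnd_pData A
               lam := lam
               lam_rat := h1
               gen := h2
               eb := eb
               heb := h3 }, fun x v => rfl, ?_⟩
  rw [card_index] at hr
  exact hr

/-- the places of a factor of real type are symplectic -/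
private lemma real_even {A : AbVar} {K : Type} [Field K] [NumberField K] {r : ℕ}
    (hre : Re K) (F : UF (pData A) K r) : Even r := by
  classical
  obtain ⟨σ⟩ : Nonempty (K →+* ℂ) := inferInstance
  let L : (Fin r → ℂ) →ₗ[ℂ] A.H1 := Fintype.linearCombination ℂ (F.e σ)
  have hL : ∀ x, L x = ∑ j, x j • F.e σ j := fun x => Fintype.linearCombination_apply ℂ _ _
  let ω : (Fin r → ℂ) →ₗ[ℂ] (Fin r → ℂ) →ₗ[ℂ] ℂ := (pData A).ψ.compl₁₂ L L
  have hω : ∀ x y, ω x y = (pData A).ψ (L x) (L y) := fun x y => rfl
  have h1 := Pool.Agent.Helper8.even_of_symp ω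
    (fun x y => by rw [hω, hω]; exact (pData A).hψalt _ _)
    (fun x hx => by
      have h0 : L x = 0 := by
        apply (pData A).hψnd
        intro v
        rw [F.hsum v, map_sum]
        refine Finset.sum_eq_zero fun τ _ => ?_
        rw [map_sum]
        refine Finset.sum_eq_zero fun j _ => ?_
        rw [map_smul, smul_eq_mul]
        by_cases hτ : τ = σ
        · subst hτ
          have h2 := hx (Pi.single j 1)
          rw [hω, hL (Pi.single j 1), Finset.sum_eq_single j] at h2
          · rw [Pi.single_eq_same, one_smul] at h2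
            rw [h2, mul_zero]
          · intro i _ hi
            rw [Pi.single_eq_of_ne hi, zero_smul]
          · intro h
            exact absurd (Finset.mem_univ _) h
        · have h2 : (pData A).ψ (L x) (F.e τ j) = 0 := by
            rw [hL, map_sum, LinearMap.sum_apply]
            refine Finset.sum_eq_zero fun i _ => ?_
            rw [map_smul, LinearMap.smul_apply, F.psi_e σ τ i j (by rw [hre σ]; exact hτ),
              smul_zero]
          rw [h2, mul_zero]
      funext j
      have h2 : F.co σ j (L x) = x j := by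
        rw [hL, map_sum, Finset.sum_eq_single j]
        · rw [map_smul, F.co_e, if_pos ⟨rfl, rfl⟩, smul_eq_mul, mul_one]
        · intro i _ hi
          rw [map_smul, F.co_e, if_neg (fun h => hi h.2.symm), smul_zero]
        · intro h
          exact absurd (Finset.mem_univ _) h
      rw [← h2, h0, map_zero]
      rfl)
  rw [Module.finrank_fin_fun] at h1
  exact h1

/-- scalar endomorphisms -/
private lemma real_scalar {A : AbVar} {K : Type} [Field K] [NumberField K] (C : RealMult A K)
    (hfin : finrank ℚ K = 1) : ∀ f, A.IsEnd f → ∃ q : ℚ, ∀ v, f v = (q : ℂ) • v := by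
  have hall : ∀ x : K, ∃ a : ℚ, x = a := by
    intro x
    obtain ⟨a, ha⟩ := (finrank_eq_one_iff_of_nonzero' (1 : K) one_ne_zero).mp hfin x
    refine ⟨a, ?_⟩
    rw [← ha, Algebra.smul_def, mul_one]; rfl
  have hrat : ∀ (a : ℚ) (v : A.H1), C.ρ (a : K) v = (a : ℂ) • v := by
    intro a v
    have h1 := rho_ratsmul (reRho C) a 1
    rw [Algebra.smul_def, mul_one, map_one] at h1
    have h2 := congrArg (fun f : Module.End ℂ A.H1 => f v) h1
    have h3 : reRho C (algebraMap ℚ K a) v = C.ρ (a : K) v := rfl
    have h4 : reRho C (algebraMap ℚ K a) v = (a : ℂ) • v := h2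
    rw [← h3, h4]
  intro f hf
  obtain ⟨x, hx⟩ := C.centralizer f hf (fun x v => by
    obtain ⟨a, rfl⟩ := hall x
    rw [hrat, hrat, hf.linear.map_smul])
  obtain ⟨a, rfl⟩ := hall x
  exact ⟨a, fun v => by rw [hx, hrat]⟩

private lemma rigid (A : AbVar) : Rigid A := fun f hl hb hh => deRham_of_hodge A A f hl hb hh

private lemma gen_surface {A : AbVar} (hg : A.g = 2)
    (h : ∀ f, A.IsEnd f → ∃ q : ℚ, ∀ v, f v = (q : ℂ) • v) : A.IsGenericSurface := by
  refine ⟨hg, fun f hl hb hh => ?_⟩
  obtain ⟨q, hq⟩ := h f ⟨hl, hb, deRham_of_hodge A A f hl hb hh, hh⟩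
  exact ⟨q, hq⟩

private lemma cx_of_cm (K : Type) [Field K] [NumberField K] [IsCMField K] : Cx K := by
  intro σ h
  exact IsTotallyComplex.complexEmbedding_not_isReal σ (ComplexEmbedding.isReal_iff.mpr h)

private lemma re_of_real (K : Type) [Field K] [NumberField K] [IsTotallyReal K] : Re K :=
  fun σ => ComplexEmbedding.isReal_iff.mp (IsTotallyReal.complexEmbedding_isReal σ)

private lemma herm_quadEnd {A : AbVar} {K : Type} [Field K] [NumberField K] [IsCMField K]
    {ρ : K → A.H1 → A.H1} (C : A.IsHermMult K ρ) (h2 : finrank ℚ K = 2) : ∃ d, A.IsQuadEnd d := by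
  obtain ⟨x, q, hq, hx, hcx, hgen⟩ := quad_gen K h2
  exact ⟨-q, quadEnd_of_herm C hq hx hcx hgen⟩

/-- the quaternionic type -/
private lemma quat_UF {A : AbVar} (hg : A.g ≠ 0) {K : Type} [Field K] [NumberField K] [IsCMField K]
    {ρ : K → A.H1 → A.H1} {j : A.H1 → A.H1} {b : K} (C : A.IsQuatMult K ρ j b) (r : ℕ)
    (hr : finrank ℚ K * r = 2 * A.g) : Nonempty (UF (pData A) K r) := by
  classical
  let ρ' : K →+* Module.End ℂ A.H1 := Pool.Agent.Helper71.AF.mkRho ρ C.one C.mul C.add C.endo
  have hρ' : ∀ x v, ρ' x v = ρ x v := fun _ _ => rfl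
  have hQ : ∀ x, ∀ v ∈ (pData A).Q, ρ' x v ∈ (pData A).Q :=
    fun x v hv => (isDRB_of_isEnd A _ (C.endo x)).rat v hv
  obtain ⟨lam, h1, h2, eb, h3⟩ := exists_Kbasis (pData A) ρ' hQ r (by rw [card_index, hr])
  obtain ⟨z, hz⟩ : ∃ z : K, cmConj K z ≠ z := by
    by_contra hall
    push Not at hall
    apply IsCMField.complexConj_ne_one K
    exact AlgEquiv.ext fun x => hall x
  obtain ⟨v0, hv0⟩ : ∃ v0 : A.H1, v0 ≠ 0 :=
    ⟨Pi.single (Sum.inl ⟨0, Nat.pos_of_ne_zero hg⟩) 1, fun h => by
      have h1 := congrFun h (Sum.inl ⟨0, Nat.pos_of_ne_zero hg⟩)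
      rw [Pi.single_eq_same] at h1
      exact one_ne_zero h1⟩
  exact ⟨{ ρ := ρ'
           hρ := fun x => isDRB_of_isEnd A _ (C.endo x)
           cc := cmConj K
           hcc := fun σ x => IsCMField.complexEmbedding_complexConj K σ x
           hros := fun x u v => C.rosati x u v
           hcen := fun f hf hcom => by
             obtain ⟨x, y, hxy⟩ := C.centralizer f (isEnd_of_isDRB A f hf)
               (fun x _ v => hcom x v)
             refine ⟨x, fun v => ?_⟩
             have hxy' : ∀ v, f v = ρ' x v + ρ' y (j v) := hxy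
             have e1 : ρ' (y * (cmConj K z - z)) (j v0) = 0 := by
               have e2 := hcom z v0
               have e0 : j (ρ' z v0) = ρ' (cmConj K z) (j v0) := C.conj_j z v0
               rw [hxy', hxy', e0, map_add] at e2
               have e3 : ρ' x (ρ' z v0) = ρ' z (ρ' x v0) := by
                 rw [← Module.End.mul_apply, ← Module.End.mul_apply, ← map_mul, ← map_mul,
                   mul_comm]
               rw [e3] at e2
               have e4 := add_left_cancel e2
               rw [mul_sub, map_sub, LinearMap.sub_apply, mul_comm y z, map_mul, map_mul,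
                 Module.End.mul_apply, Module.End.mul_apply, e4, sub_self]
             have hy : y = 0 := by
               by_contra hy
               have e2 := Pool.Agent.Helper71.AF.rho_inj A K ρ' _
                 (mul_ne_zero hy (sub_ne_zero.mpr hz)) e1
               have e3 : j (j v0) = ρ' b v0 := C.sq_j v0
               have e4 : j (0 : A.H1) = 0 := C.endo_j.linear.map_zero
               rw [e2, e4] at e3
               exact hv0 (Pool.Agent.Helper71.AF.rho_inj A K ρ' b C.ne_zero e3.symm)
             rw [hxy', hy, map_zero, LinearMap.zero_apply, add_zero]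
           hnd := hnd_pData A
           lam := lam
           lam_rat := h1
           gen := h2
           eb := eb
           heb := h3 }⟩

/-- [Typ] -/
theorem Typ_ : St_Typ := by
  intro A hs hg0 hg5
  obtain ⟨K, iF, iN, hK⟩ := simple_cases A hs
  have hfp : 0 < finrank ℚ K := Module.finrank_pos
  rcases hK with ⟨hT, ⟨C⟩⟩ | ⟨hcm, ρ, C⟩ | ⟨hcm, ρ, j, b, C⟩
  · -- real type
    obtain ⟨r, F, hF, hr⟩ := real_UF A K C
    obtain ⟨s, hs'⟩ := real_even (re_of_real K) F
    have hms : finrank ℚ K * s = A.g := by
      rw [hs'] at hr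
      have : finrank ℚ K * (s + s) = 2 * (finrank ℚ K * s) := by ring
      omega
    have hs0 : s ≠ 0 := by
      rintro rfl
      rw [mul_zero] at hms
      exact hg0 hms.symm
    by_cases hs1 : s = 1
    · left
      have hdeg : finrank ℚ K = A.g := by rw [← hms, hs1, mul_one]
      exact ⟨K, iF, iN, hT, ⟨⟨C.ρ, C.one, C.mul, C.add, hdeg, C.endo, C.rosati,
        C.centralizer⟩⟩⟩
    · have hs2 : 2 ≤ s := by omega
      have hle : finrank ℚ K ≤ 2 := by
        by_contra h3
        have : 3 * 2 ≤ finrank ℚ K * s := Nat.mul_le_mul (by omega) hs2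
        omega
      rcases (by omega : finrank ℚ K = 1 ∨ finrank ℚ K = 2) with h1 | h2
      · rw [h1, one_mul] at hms
        subst hms
        have hsc := real_scalar C h1
        have hr2 : r = 2 * A.g := by omega
        rcases (by omega : A.g = 2 ∨ A.g = 3 ∨ A.g = 4 ∨ A.g = 5) with h | h | h | h
        · exact Or.inr (Or.inr (Or.inl (gen_surface h hsc)))
        · have hr6 : r = 6 := by omega
          subst hr6
          exact Or.inr (Or.inr (Or.inr (Or.inl ⟨h, K, iF, iN, ⟨F⟩, h1⟩)))
        · have hr8 : r = 8 := by omega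
          subst hr8
          exact Or.inr (Or.inr (Or.inr (Or.inr (Or.inr (Or.inl
            ⟨h, K, iF, iN, Or.inl ⟨⟨F⟩, h1⟩⟩)))))
        · exact Or.inr (Or.inr (Or.inr (Or.inr (Or.inr (Or.inr (Or.inl ⟨h, hsc⟩))))))
      · have hs2' : s = 2 := by
          rw [h2] at hms
          omega
        have hg4 : A.g = 4 := by rw [← hms, h2, hs2']
        have hr4 : r = 4 := by omega
        subst hr4
        exact Or.inr (Or.inr (Or.inr (Or.inr (Or.inr (Or.inl
          ⟨hg4, K, iF, iN, Or.inr (Or.inl ⟨⟨F⟩, h2, Or.inl (re_of_real K)⟩)⟩)))))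
  · -- Hermitian type
    obtain ⟨r, hr⟩ := herm_rank A K ρ C
    obtain ⟨e, he, he0⟩ := cm_even K
    have her : e * r = A.g := by
      rw [he] at hr
      have : 2 * e * r = 2 * (e * r) := by ring
      omega
    have hr0 : r ≠ 0 := by
      rintro rfl
      rw [mul_zero] at her
      exact hg0 her.symm
    obtain ⟨F, -, -⟩ := nonempty_UFh A K ρ C r hr
    by_cases hr1 : r = 1
    · right; left
      refine ⟨K, iF, iN, cmType_of_herm C ?_⟩
      rw [← hr, hr1, mul_one]
    · have hr2 : 2 ≤ r := by omega
      have hle : e ≤ 2 := by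
        by_contra h3
        have : 3 * 2 ≤ e * r := Nat.mul_le_mul (by omega) hr2
        omega
      rcases (by omega : e = 1 ∨ e = 2) with h1 | h2
      · have hfin : finrank ℚ K = 2 := by omega
        rw [h1, one_mul] at her
        rcases (by omega : A.g = 2 ∨ A.g = 3 ∨ A.g = 4 ∨ A.g = 5) with h | h | h | h
        · exfalso
          exact not_mixed_quad C hfin h (herm_mixed_of A (rigid A) K ρ C (by rw [hfin, h]))
        · have hr3 : r = 3 := by omega
          subst hr3
          exact Or.inr (Or.inr (Or.inr (Or.inr (Or.inl ⟨h, herm_quadEnd C hfin, K, iF, iN, ⟨F⟩,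
            hfin, cx_of_cm K⟩))))
        · have hr4 : r = 4 := by omega
          subst hr4
          exact Or.inr (Or.inr (Or.inr (Or.inr (Or.inr (Or.inl
            ⟨h, K, iF, iN, Or.inr (Or.inl ⟨⟨F⟩, hfin, Or.inr (cx_of_cm K)⟩)⟩)))))
        · exact Or.inr (Or.inr (Or.inr (Or.inr (Or.inr (Or.inr (Or.inr
            ⟨h, herm_quadEnd C hfin⟩))))))
      · have hfin : finrank ℚ K = 4 := by omega
        have hr2' : r = 2 := by
          rw [h2] at her
          omega
        have hg4 : A.g = 4 := by rw [← her, h2, hr2']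
        subst hr2'
        exact Or.inr (Or.inr (Or.inr (Or.inr (Or.inr (Or.inl
          ⟨hg4, K, iF, iN, Or.inr (Or.inr ⟨⟨F⟩, hfin, cx_of_cm K⟩)⟩)))))
  · -- quaternionic type
    obtain ⟨m, hm, hm1⟩ := quat_rank A K ρ j b C
    obtain ⟨e, he, he0⟩ := cm_even K
    have hem : 2 * (e * m) = A.g := by
      rw [← hm, he]
      ring
    have hm0 : m ≠ 0 := by
      rintro rfl
      rw [mul_zero] at hm
      exact hg0 hm.symm
    have hem2 : e * m = 2 := by
      have h1 : 1 * 2 ≤ e * m := Nat.mul_le_mul (by omega) (by omega)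
      omega
    have hm2 : m = 2 := by
      have h1 : m ∣ 2 := ⟨e, by rw [mul_comm]; exact hem2.symm⟩
      rcases (Nat.dvd_prime Nat.prime_two).1 h1 with h | h
      · exact absurd h hm1
      · exact h
    have he1 : e = 1 := by
      rw [hm2] at hem2
      omega
    have hfin : finrank ℚ K = 2 := by omega
    have hg4 : A.g = 4 := by omega
    exact Or.inr (Or.inr (Or.inr (Or.inr (Or.inr (Or.inl
      ⟨hg4, K, iF, iN, Or.inr (Or.inl ⟨quat_UF hg0 C 4 (by rw [hfin, hg4]), hfin,
        Or.inr (cx_of_cm K)⟩)⟩)))))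

end Pool.Agent.D5
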