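import Pool.Agent.D5.StL
import Pool.Agent.Helper8.Lie.TopLevel

/-!
# D5: irreducible modules of dimension four

Part (b): let `m` be the top weight of a principal triple on `V`. If `m` is odd, all weights are odd and
the values of `β` have even weights. If `m = 0` then `V` is a line, if `m ≥ 4` then `dim V ≥ 5`. If
`m = 2` then `V` has a basis `v, f v, f² v, u` with `u` killed by `e, h, f`, and all values of `β` lie
in the span of the first three vectors.
-/

set_option autoImplicit false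
set_option linter.unusedSectionVars false
set_option linter.unusedVariables false

namespace Pool.Agent.D5

open Module LieAlgebra LieModule
open Pool.Agent.Helper8 (Principal irr_cases)

section

variable {L V : Type} [LieRing L] [LieAlgebra ℂ L] [AddCommGroup V] [Module ℂ V]
  [LieRingModule L V] [LieModule ℂ L V]

/-- the opposite principal triple -/
private def v4op (p : Principal L) : Principal L where
  h := -p.h
  e := p.f
  f := p.e
  Z := p.Z
  ef := by rw [← lie_skew, p.ef]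
  he := by rw [neg_lie, p.hf, neg_smul, neg_neg]
  hf := by rw [neg_lie, p.he, neg_smul]
  hZ := neg_mem p.hZ
  ab := p.ab
  dec := by
    intro x
    have h1 : {y : L | ∃ n : ℕ, ⁅-p.h, y⁆ = (2 * (n + 1) : ℂ) • y} =
        {y : L | ∃ n : ℕ, ⁅p.h, y⁆ = (-2 * (n + 1) : ℂ) • y} := by
      ext y
      refine exists_congr fun n => ?_
      rw [neg_lie, neg_eq_iff_eq_neg, ← neg_smul, neg_mul]
    have h2 : {y : L | ∃ n : ℕ, ⁅-p.h, y⁆ = (-2 * (n + 1) : ℂ) • y} =
        {y : L | ∃ n : ℕ, ⁅p.h, y⁆ = (2 * (n + 1) : ℂ) • y} := by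
      ext y
      refine exists_congr fun n => ?_
      rw [neg_lie, neg_eq_iff_eq_neg, ← neg_smul, neg_mul, neg_neg]
    rw [h1, h2, sup_right_comm]
    exact p.dec x

private lemma v4_eig (T : Module.End ℂ V) (μ : ℕ → ℂ) (htop : ⊤ ≤ ⨆ k, T.eigenspace (μ k))
    {w : V} {c : ℂ} (hw : w ≠ 0) (hc : T w = c • w) : ∃ k, c = μ k := by
  by_contra hno
  push Not at hno
  have h1 := Module.End.eigenspaces_iSupIndep T c
  have h2 : (⨆ k, T.eigenspace (μ k)) ≤ ⨆ j, ⨆ (_ : j ≠ c), T.eigenspace j := by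
    refine iSup_le fun k => ?_
    exact le_iSup₂_of_le (μ k) (fun h => hno k h.symm) le_rfl
  have h3 : w ∈ T.eigenspace c := Module.End.mem_eigenspace_iff.mpr hc
  exact hw ((Submodule.disjoint_def.mp h1) w h3 (h2 (htop Submodule.mem_top)))

/-- the values of an equivariant map span a stable subspace -/
private lemma v4_span [LieModule.IsIrreducible ℂ L V] (β : V →ₗ[ℂ] V →ₗ[ℂ] V)
    (hβ : ∀ (a : L) (x y : V), ⁅a, β x y⁆ = β ⁅a, x⁆ y + β x ⁅a, y⁆) (S : Submodule ℂ V)
    (hS : S ≠ ⊤) (h : ∀ x y, β x y ∈ S) : β = 0 := by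
  have hN : Submodule.span ℂ {z : V | ∃ x y, β x y = z} ≤ S := by
    rw [Submodule.span_le]
    rintro z ⟨x, y, rfl⟩
    exact h x y
  rcases irr_cases (L := L) (Submodule.span ℂ {z : V | ∃ x y, β x y = z}) (by
    intro a v hv
    induction hv using Submodule.span_induction with
    | mem z hz =>
      obtain ⟨x, y, rfl⟩ := hz
      rw [hβ]
      exact Submodule.add_mem _ (Submodule.subset_span ⟨_, _, rfl⟩)
        (Submodule.subset_span ⟨_, _, rfl⟩)
    | zero => rw [lie_zero]; exact Submodule.zero_mem _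
    | add x y _ _ hx hy => rw [lie_add]; exact Submodule.add_mem _ hx hy
    | smul c x _ hx => rw [lie_smul]; exact Submodule.smul_mem _ _ hx) with h1 | h1
  · refine LinearMap.ext fun x => LinearMap.ext fun y => ?_
    have h2 : β x y ∈ Submodule.span ℂ {z : V | ∃ x y, β x y = z} :=
      Submodule.subset_span ⟨x, y, rfl⟩
    rw [h1, Submodule.mem_bot] at h2
    rw [h2]
    rfl
  · exact absurd (top_le_iff.mp (h1 ▸ hN)) hS

private lemma v4_ext (μ : ℕ → ℂ) (T : Module.End ℂ V) (htop : ⊤ ≤ ⨆ k, T.eigenspace (μ k))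
    (β : V →ₗ[ℂ] V →ₗ[ℂ] V)
    (h : ∀ i j x y, T x = μ i • x → T y = μ j • y → β x y = 0) : β = 0 := by
  have h1 : ∀ i x, T x = μ i • x → β x = 0 := by
    intro i x hx
    have h2 : (⨆ k, T.eigenspace (μ k)) ≤ LinearMap.ker (β x) := by
      refine iSup_le fun k => fun y hy => ?_
      exact h i k x y hx (Module.End.mem_eigenspace_iff.mp hy)
    exact LinearMap.ker_eq_top.mp (top_le_iff.mp (htop.trans h2))
  have h2 : (⨆ k, T.eigenspace (μ k)) ≤ LinearMap.ker β := by
    refine iSup_le fun k => fun x hx => ?_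
    exact h1 k x (Module.End.mem_eigenspace_iff.mp hx)
  exact LinearMap.ker_eq_top.mp (top_le_iff.mp (htop.trans h2))

end

/-- alternating bilinear maps -/
private theorem v4_b {L V : Type} [LieRing L] [LieAlgebra ℂ L] [FiniteDimensional ℂ L]
    [IsKilling ℂ L] [AddCommGroup V] [Module ℂ V] [LieRingModule L V] [LieModule ℂ L V]
    [FiniteDimensional ℂ V] [LieModule.IsIrreducible ℂ L V] (hdim : finrank ℂ V = 4)
    (β : V →ₗ[ℂ] V →ₗ[ℂ] V) (halt : ∀ x y, β y x = - β x y)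
    (hβ : ∀ (a : L) (x y : V), ⁅a, β x y⁆ = β ⁅a, x⁆ y + β x ⁅a, y⁆) : β = 0 := by
  obtain ⟨p⟩ := Pool.Agent.Helper8.exists_principal L
  obtain ⟨m, v, hv0, hev, hhv, hline, htop⟩ := p.top (V := V)
  obtain ⟨m', v', hv0', hfv', hhv', hline', htop'⟩ := (v4op p).top (V := V)
  have hxx : ∀ x, β x x = 0 := fun x => by
    have h1 := halt x x
    have h2 : (2 : ℂ) • β x x = 0 := by
      rw [two_smul]
      nth_rewrite 1 [h1]
      exact neg_add_cancel _
    exact (smul_eq_zero.mp h2).resolve_left two_ne_zero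
  -- `p.h ≠ 0`
  have hsmall : ∀ (ι : Type) [Fintype ι] (b : ι → V), Fintype.card ι < 4 →
      Submodule.span ℂ (Set.range b) ≠ ⊤ := by
    intro ι _ b hc h
    have h1 := finrank_range_le_card (R := ℂ) b
    rw [Set.finrank, h, finrank_top, hdim] at h1
    omega
  have hh : p.h ≠ 0 := by
    intro hh
    refine hsmall (Fin 1) ![v] (by simp) ?_
    rw [eq_top_iff]
    intro w _
    have hm : (m : ℂ) = 0 := by
      rw [hh, zero_lie] at hhv
      exact (smul_eq_zero.mp hhv.symm).resolve_right hv0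
    obtain ⟨c, hc⟩ := hline w (by rw [hh, zero_lie, hm, zero_smul])
    rw [hc]
    exact Submodule.smul_mem _ _ (Submodule.subset_span ⟨0, rfl⟩)
  have t : IsSl2Triple p.h p.e p.f := ⟨hh, p.ef, by rw [p.he]; module, by rw [p.hf]; module⟩
  have P : t.HasPrimitiveVectorWith v (m : ℂ) := ⟨hv0, hhv, hev⟩
  have t' : IsSl2Triple (-p.h) p.f p.e :=
    ⟨neg_ne_zero.mpr hh, (v4op p).ef, by rw [neg_lie, p.hf]; module,
      by rw [neg_lie, p.he]; module⟩
  have P' : t'.HasPrimitiveVectorWith v' (m' : ℂ) := ⟨hv0', hhv', hfv'⟩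
  have heig : ∀ (w : V) (c : ℂ), w ≠ 0 → ⁅p.h, w⁆ = c • w → ∃ k : ℕ, c = (m : ℂ) - 2 * k :=
    fun w c hw hc => v4_eig (toEnd ℂ L V p.h) (fun k => (m : ℂ) - 2 * k) htop hw hc
  have heig' : ∀ (w : V) (c : ℂ), w ≠ 0 → ⁅p.h, w⁆ = c • w → ∃ k : ℕ, -c = (m' : ℂ) - 2 * k :=
    fun w c hw hc => v4_eig (toEnd ℂ L V (-p.h)) (fun k => (m' : ℂ) - 2 * k) htop' hw (by
      rw [toEnd_apply_apply, neg_lie, hc, neg_smul])
  have hmm : m = m' := by
    have h1 : ((toEnd ℂ L V p.f) ^ m) v ≠ 0 := P.pow_toEnd_f_ne_zero_of_eq_nat rfl le_rfl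
    have h2 : ((toEnd ℂ L V p.e) ^ m') v' ≠ 0 := P'.pow_toEnd_f_ne_zero_of_eq_nat rfl le_rfl
    obtain ⟨k, hk⟩ := heig' _ _ h1 (P.lie_h_pow_toEnd_f m)
    have h3 := P'.lie_h_pow_toEnd_f m'
    rw [neg_lie, neg_eq_iff_eq_neg, ← neg_smul] at h3
    obtain ⟨l, hl⟩ := heig _ _ h2 h3
    have h4 : (m : ℂ) + 2 * k = m' := by linear_combination hk
    have h5 : (m' : ℂ) + 2 * l = m := by linear_combination hl
    have h4' : m + 2 * k = m' := by exact_mod_cast h4
    have h5' : m' + 2 * l = m := by exact_mod_cast h5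
    omega
  subst hmm
  rcases Nat.even_or_odd m with hev2 | hodd
  swap
  · -- odd
    refine v4_ext (fun k : ℕ => (m : ℂ) - 2 * k) (toEnd ℂ L V p.h) htop β ?_
    intro i j x y hx hy
    by_contra hne
    rw [toEnd_apply_apply] at hx hy
    obtain ⟨k, hk⟩ := heig (β x y) (((m : ℂ) - 2 * i) + ((m : ℂ) - 2 * j)) hne (by
      rw [hβ, hx, hy, map_smul, LinearMap.smul_apply, map_smul, add_smul])
    have h1 : (m : ℂ) + 2 * k = 2 * i + 2 * j := by linear_combination hk
    have h2 : m + 2 * k = 2 * i + 2 * j := by exact_mod_cast h1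
    obtain ⟨r, hr⟩ := hodd
    omega
  · -- even
    set S : Submodule ℂ V := Submodule.span ℂ (Set.range ![v, ⁅p.f, v⁆, ⁅p.f, ⁅p.f, v⁆⁆]) with hS
    have hStop : S ≠ ⊤ := hsmall (Fin 3) _ (by simp)
    have hS0 : v ∈ S := Submodule.subset_span ⟨0, rfl⟩
    have hS1 : ⁅p.f, v⁆ ∈ S := Submodule.subset_span ⟨1, rfl⟩
    have hS2 : ⁅p.f, ⁅p.f, v⁆⁆ ∈ S := Submodule.subset_span ⟨2, rfl⟩
    have hf0 : ((toEnd ℂ L V p.f) ^ 0) v = v := by simp
    have hf1 : ((toEnd ℂ L V p.f) ^ 1) v = ⁅p.f, v⁆ := by simp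
    have hf2 : ((toEnd ℂ L V p.f) ^ 2) v = ⁅p.f, ⁅p.f, v⁆⁆ := by simp [pow_two]
    -- an eigenvector outside of `S`
    obtain ⟨k, w, hwk, hwS⟩ : ∃ (k : ℕ) (w : V), ⁅p.h, w⁆ = ((m : ℂ) - 2 * k) • w ∧ w ∉ S := by
      by_contra hno
      push Not at hno
      refine hStop (top_le_iff.mp (htop.trans (iSup_le fun k => fun w hw => ?_)))
      exact hno k w (Module.End.mem_eigenspace_iff.mp hw)
    have hw0 : w ≠ 0 := fun h => hwS (h ▸ S.zero_mem)
    obtain ⟨l, hl⟩ := heig' w _ hw0 hwk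
    have hkl : k + l = m := by
      have h1 : (k : ℂ) + l = m := by linear_combination (1 / 2 : ℂ) * hl
      exact_mod_cast h1
    have hk0 : k ≠ 0 := by
      rintro rfl
      obtain ⟨c, hc⟩ := hline w (by rw [hwk]; simp)
      exact hwS (hc ▸ S.smul_mem c hS0)
    have hm4 : m < 4 := by
      by_contra hm4
      have h1 : LinearIndependent ℂ (fun i : Fin (m + 1) => ((toEnd ℂ L V p.f) ^ (i : ℕ)) v) := by
        refine Module.End.eigenvectors_linearIndependent' (toEnd ℂ L V p.h)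
          (fun i : Fin (m + 1) => (m : ℂ) - 2 * (i : ℕ)) ?_ _ ?_
        · intro i j hij
          have h2 : ((i : ℕ) : ℂ) = ((j : ℕ) : ℂ) := by
            have h3 : (m : ℂ) - 2 * (i : ℕ) = (m : ℂ) - 2 * (j : ℕ) := hij
            linear_combination (-1 / 2 : ℂ) * h3
          exact Fin.ext (by exact_mod_cast h2)
        · intro i
          exact ⟨Module.End.mem_eigenspace_iff.mpr (P.lie_h_pow_toEnd_f i),
            P.pow_toEnd_f_ne_zero_of_eq_nat rfl (Nat.lt_succ_iff.mp i.2)⟩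
      have h2 := h1.fintype_card_le_finrank
      rw [hdim, Fintype.card_fin] at h2
      omega
    have hm2 : m = 2 := by
      obtain ⟨r, hr⟩ := hev2
      omega
    subst hm2
    have hk2 : k ≠ 2 := by
      rintro rfl
      obtain ⟨c, hc⟩ := hline' w (by
        show ⁅-p.h, w⁆ = _
        rw [neg_lie, hwk, ← neg_smul]
        congr 1
        push_cast; ring)
      have h1 := P.lie_h_pow_toEnd_f 2
      obtain ⟨d, hd⟩ := hline' (((toEnd ℂ L V p.f) ^ 2) v) (by
        show ⁅-p.h, _⁆ = _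
        rw [neg_lie, h1, ← neg_smul]
        congr 1
        push_cast; ring)
      have h2 : ((toEnd ℂ L V p.f) ^ 2) v ≠ 0 := P.pow_toEnd_f_ne_zero_of_eq_nat rfl le_rfl
      have hd0 : d ≠ 0 := by
        rintro rfl
        exact h2 (by rw [hd, zero_smul])
      apply hwS
      have h3 : w = (c * d⁻¹) • ⁅p.f, ⁅p.f, v⁆⁆ := by
        rw [← hf2, hd, hc, smul_smul, mul_assoc, inv_mul_cancel₀ hd0, mul_one]
      rw [h3]
      exact S.smul_mem _ hS2
    have hk1 : k = 1 := by omega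
    subst hk1
    have hhw : ⁅p.h, w⁆ = 0 := by
      rw [hwk]
      have : ((2 : ℕ) : ℂ) - 2 * ((1 : ℕ) : ℂ) = 0 := by push_cast; ring
      rw [this, zero_smul]
    -- the actions
    have ef1 : ⁅p.e, ⁅p.f, v⁆⁆ = (2 : ℂ) • v := by
      have h1 := P.lie_e_pow_succ_toEnd_f 0
      rw [zero_add, hf1, hf0] at h1
      rw [h1]
      congr 1
      push_cast; ring
    have ef2 : ⁅p.e, ⁅p.f, ⁅p.f, v⁆⁆⁆ = (2 : ℂ) • ⁅p.f, v⁆ := by
      have h1 := P.lie_e_pow_succ_toEnd_f 1
      rw [show 1 + 1 = 2 from rfl, hf2, hf1] at h1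
      rw [h1]
      congr 1
      push_cast; ring
    have ff2 : ⁅p.f, ⁅p.f, ⁅p.f, v⁆⁆⁆ = 0 := by
      have h1 : ((toEnd ℂ L V p.f) ^ (2 + 1)) v = 0 := P.pow_toEnd_f_eq_zero_of_eq_nat rfl
      rw [pow_succ', Module.End.mul_apply, hf2] at h1
      exact h1
    have hf1' : ⁅p.h, ⁅p.f, v⁆⁆ = 0 := by
      have h1 := P.lie_h_pow_toEnd_f 1
      rw [hf1] at h1
      rw [h1]
      have : ((2 : ℕ) : ℂ) - 2 * ((1 : ℕ) : ℂ) = 0 := by push_cast; ring
      rw [this, zero_smul]
    have hew : ⁅p.h, ⁅p.e, w⁆⁆ = ((2 : ℕ) : ℂ) • ⁅p.e, w⁆ := by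
      rw [leibniz_lie, hhw, lie_zero, add_zero, p.he, smul_lie]
      norm_num
    obtain ⟨a, ha⟩ := hline _ hew
    set u : V := w - (a / 2) • ⁅p.f, v⁆ with hu
    have huS : u ∉ S := fun h => hwS (by
      have : w = u + (a / 2) • ⁅p.f, v⁆ := by rw [hu]; abel
      rw [this]
      exact S.add_mem h (S.smul_mem _ hS1))
    have hu0 : u ≠ 0 := fun h => huS (h ▸ S.zero_mem)
    have heu : ⁅p.e, u⁆ = 0 := by
      rw [hu, lie_sub, lie_smul, ef1, ha, smul_smul, ← sub_smul]
      have : a - a / 2 * 2 = 0 := by ring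
      rw [this, zero_smul]
    have hhu : ⁅p.h, u⁆ = 0 := by
      rw [hu, lie_sub, lie_smul, hf1', hhw, smul_zero, sub_zero]
    have Pu : t.HasPrimitiveVectorWith u ((0 : ℕ) : ℂ) :=
      ⟨hu0, by rw [hhu, Nat.cast_zero, zero_smul], heu⟩
    have hfu : ⁅p.f, u⁆ = 0 := by
      have h1 : ((toEnd ℂ L V p.f) ^ (0 + 1)) u = 0 := Pu.pow_toEnd_f_eq_zero_of_eq_nat rfl
      rw [zero_add, pow_one] at h1
      exact h1
    -- a basis
    have hli : LinearIndependent ℂ ![v, ⁅p.f, v⁆, ⁅p.f, ⁅p.f, v⁆⁆, u] := by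
      rw [Fintype.linearIndependent_iff]
      intro g hg
      rw [Fin.sum_univ_four] at hg
      simp only [Matrix.cons_val_zero, Matrix.cons_val_one, Matrix.cons_val] at hg
      have h1 := congrArg (fun z => ⁅p.e, z⁆) hg
      simp only [lie_add, lie_smul, hev, ef1, ef2, heu, smul_zero, zero_add, add_zero,
        lie_zero] at h1
      have h2 := congrArg (fun z => ⁅p.e, z⁆) h1
      simp only [lie_add, lie_smul, hev, ef1, smul_zero, zero_add, lie_zero] at h2
      have g2 : g 2 = 0 := by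
        rcases smul_eq_zero.mp h2 with h3 | h3
        · exact h3
        · rcases smul_eq_zero.mp h3 with h4 | h4
          · norm_num at h4
          · rcases smul_eq_zero.mp h4 with h5 | h5
            · norm_num at h5
            · exact absurd h5 hv0
      rw [g2, zero_smul, add_zero] at h1
      have g1 : g 1 = 0 := by
        rcases smul_eq_zero.mp h1 with h3 | h3
        · exact h3
        · rcases smul_eq_zero.mp h3 with h4 | h4
          · norm_num at h4
          · exact absurd h4 hv0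
      rw [g1, g2, zero_smul, zero_smul, add_zero, add_zero] at hg
      have h3 := congrArg (fun z => ⁅p.h, z⁆) hg
      simp only [lie_add, lie_smul, hhv, hhu, smul_zero, add_zero, lie_zero] at h3
      have g0 : g 0 = 0 := by
        rcases smul_eq_zero.mp h3 with h4 | h4
        · exact h4
        · rcases smul_eq_zero.mp h4 with h5 | h5
          · norm_num at h5
          · exact absurd h5 hv0
      rw [g0, zero_smul, zero_add] at hg
      have g3 : g 3 = 0 := (smul_eq_zero.mp hg).resolve_right hu0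
      intro i
      fin_cases i
      · exact g0
      · exact g1
      · exact g2
      · exact g3
    have hspan : ⊤ ≤ Submodule.span ℂ (Set.range ![v, ⁅p.f, v⁆, ⁅p.f, ⁅p.f, v⁆⁆, u]) := by
      rw [(hli.span_eq_top_of_card_eq_finrank' (by rw [hdim, Fintype.card_fin]))]
    -- the values of `β`
    obtain ⟨a1, h01⟩ := hline (β v ⁅p.f, v⁆) (by
      rw [hβ, hhv, hf1', map_smul, LinearMap.smul_apply, map_zero, add_zero])
    obtain ⟨b1, h03⟩ := hline (β v u) (by
      rw [hβ, hhv, hhu, map_smul, LinearMap.smul_apply, map_zero, add_zero])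
    have h02 : β v ⁅p.f, ⁅p.f, v⁆⁆ = a1 • ⁅p.f, v⁆ := by
      have h1 := hβ p.f v ⁅p.f, v⁆
      rw [hxx, zero_add, h01, lie_smul] at h1
      exact h1.symm
    have h13 : β ⁅p.f, v⁆ u = b1 • ⁅p.f, v⁆ := by
      have h1 := hβ p.f v u
      rw [hfu, map_zero, add_zero, h03, lie_smul] at h1
      exact h1.symm
    have h12 : β ⁅p.f, v⁆ ⁅p.f, ⁅p.f, v⁆⁆ = a1 • ⁅p.f, ⁅p.f, v⁆⁆ := by
      have h1 := hβ p.f v ⁅p.f, ⁅p.f, v⁆⁆
      rw [ff2, map_zero, add_zero, h02, lie_smul] at h1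
      exact h1.symm
    have h23 : β ⁅p.f, ⁅p.f, v⁆⁆ u = b1 • ⁅p.f, ⁅p.f, v⁆⁆ := by
      have h1 := hβ p.f ⁅p.f, v⁆ u
      rw [hfu, map_zero, add_zero, h13, lie_smul] at h1
      exact h1.symm
    have m01 : β v ⁅p.f, v⁆ ∈ S := h01 ▸ S.smul_mem _ hS0
    have m03 : β v u ∈ S := h03 ▸ S.smul_mem _ hS0
    have m02 : β v ⁅p.f, ⁅p.f, v⁆⁆ ∈ S := h02 ▸ S.smul_mem _ hS1
    have m13 : β ⁅p.f, v⁆ u ∈ S := h13 ▸ S.smul_mem _ hS1
    have m12 : β ⁅p.f, v⁆ ⁅p.f, ⁅p.f, v⁆⁆ ∈ S := h12 ▸ S.smul_mem _ hS2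
    have m23 : β ⁅p.f, ⁅p.f, v⁆⁆ u ∈ S := h23 ▸ S.smul_mem _ hS2
    have mxx : ∀ x, β x x ∈ S := fun x => by rw [hxx]; exact S.zero_mem
    have msw : ∀ x y, β x y ∈ S → β y x ∈ S := fun x y h => by
      rw [halt]; exact S.neg_mem h
    have hbb : ∀ i j : Fin 4, β ((![v, ⁅p.f, v⁆, ⁅p.f, ⁅p.f, v⁆⁆, u] : Fin 4 → V) i)
        ((![v, ⁅p.f, v⁆, ⁅p.f, ⁅p.f, v⁆⁆, u] : Fin 4 → V) j) ∈ S := by
      intro i j
      fin_cases i <;> fin_cases j
      · exact mxx _
      · exact m01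
      · exact m02
      · exact m03
      · exact msw _ _ m01
      · exact mxx _
      · exact m12
      · exact m13
      · exact msw _ _ m02
      · exact msw _ _ m12
      · exact mxx _
      · exact m23
      · exact msw _ _ m03
      · exact msw _ _ m13
      · exact msw _ _ m23
      · exact mxx _
    refine v4_span β hβ S hStop fun x y => ?_
    have hx := hspan (Submodule.mem_top (x := x))
    have hy := hspan (Submodule.mem_top (x := y))
    induction hx using Submodule.span_induction with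
    | mem z hz =>
      obtain ⟨i, rfl⟩ := hz
      induction hy using Submodule.span_induction with
      | mem z' hz' =>
        obtain ⟨j, rfl⟩ := hz'
        exact hbb i j
      | zero => rw [map_zero]; exact S.zero_mem
      | add a b _ _ ha hb => rw [map_add]; exact S.add_mem ha hb
      | smul c a _ ha => rw [map_smul]; exact S.smul_mem _ ha
    | zero => rw [map_zero]; exact S.zero_mem
    | add a b _ _ ha hb => rw [map_add]; exact S.add_mem ha hb
    | smul c a _ ha => rw [map_smul]; exact S.smul_mem _ ha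

/-- alternating trilinear forms -/
private theorem v4_a {L V : Type} [LieRing L] [LieAlgebra ℂ L] [AddCommGroup V] [Module ℂ V]
    [LieRingModule L V] [LieModule ℂ L V] [FiniteDimensional ℂ V]
    [LieModule.IsIrreducible ℂ L V] (hdim : finrank ℂ V = 4)
    (t : V →ₗ[ℂ] V →ₗ[ℂ] V →ₗ[ℂ] ℂ) (h1 : ∀ x y z, t y x z = - t x y z)
    (h2 : ∀ x y z, t x z y = - t x y z)
    (hinv : ∀ (a : L) (x y z : V), t ⁅a, x⁆ y z + t x ⁅a, y⁆ z + t x y ⁅a, z⁆ = 0) : t = 0 := by
  have z1 : ∀ x z, t x x z = 0 := fun x z => self_eq_neg.mp (h1 x x z)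
  have z2 : ∀ x z, t x z z = 0 := fun x z => self_eq_neg.mp (h2 x z z)
  have z3 : ∀ x z, t x z x = 0 := fun x z => by rw [h2, z1, neg_zero]
  obtain ⟨b⟩ : Nonempty (Basis (Fin 4) ℂ V) := ⟨(finBasisOfFinrankEq ℂ V hdim)⟩
  have s132 : t (b 1) (b 3) (b 2) = - t (b 1) (b 2) (b 3) := h2 _ _ _
  have s213 : t (b 2) (b 1) (b 3) = - t (b 1) (b 2) (b 3) := h1 _ _ _
  have s231 : t (b 2) (b 3) (b 1) = t (b 1) (b 2) (b 3) := by rw [h2, h1, neg_neg]
  have s312 : t (b 3) (b 1) (b 2) = t (b 1) (b 2) (b 3) := by rw [h1, h2, neg_neg]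
  have s321 : t (b 3) (b 2) (b 1) = - t (b 1) (b 2) (b 3) := by rw [h1, h2, h1, neg_neg]
  have s032 : t (b 0) (b 3) (b 2) = - t (b 0) (b 2) (b 3) := h2 _ _ _
  have s203 : t (b 2) (b 0) (b 3) = - t (b 0) (b 2) (b 3) := h1 _ _ _
  have s230 : t (b 2) (b 3) (b 0) = t (b 0) (b 2) (b 3) := by rw [h2, h1, neg_neg]
  have s302 : t (b 3) (b 0) (b 2) = t (b 0) (b 2) (b 3) := by rw [h1, h2, neg_neg]
  have s320 : t (b 3) (b 2) (b 0) = - t (b 0) (b 2) (b 3) := by rw [h1, h2, h1, neg_neg]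
  have s031 : t (b 0) (b 3) (b 1) = - t (b 0) (b 1) (b 3) := h2 _ _ _
  have s103 : t (b 1) (b 0) (b 3) = - t (b 0) (b 1) (b 3) := h1 _ _ _
  have s130 : t (b 1) (b 3) (b 0) = t (b 0) (b 1) (b 3) := by rw [h2, h1, neg_neg]
  have s301 : t (b 3) (b 0) (b 1) = t (b 0) (b 1) (b 3) := by rw [h1, h2, neg_neg]
  have s310 : t (b 3) (b 1) (b 0) = - t (b 0) (b 1) (b 3) := by rw [h1, h2, h1, neg_neg]
  have s021 : t (b 0) (b 2) (b 1) = - t (b 0) (b 1) (b 2) := h2 _ _ _
  have s102 : t (b 1) (b 0) (b 2) = - t (b 0) (b 1) (b 2) := h1 _ _ _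
  have s120 : t (b 1) (b 2) (b 0) = t (b 0) (b 1) (b 2) := by rw [h2, h1, neg_neg]
  have s201 : t (b 2) (b 0) (b 1) = t (b 0) (b 1) (b 2) := by rw [h1, h2, neg_neg]
  have s210 : t (b 2) (b 1) (b 0) = - t (b 0) (b 1) (b 2) := by rw [h1, h2, h1, neg_neg]
  set v : V := t (b 1) (b 2) (b 3) • b 0 - t (b 0) (b 2) (b 3) • b 1 + t (b 0) (b 1) (b 3) • b 2 -
    t (b 0) (b 1) (b 2) • b 3 with hv
  have hexp : ∀ y z, t v y z = t (b 1) (b 2) (b 3) * t (b 0) y z -
      t (b 0) (b 2) (b 3) * t (b 1) y z + t (b 0) (b 1) (b 3) * t (b 2) y z -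
      t (b 0) (b 1) (b 2) * t (b 3) y z := fun y z => by
    rw [hv]
    simp only [map_add, map_sub, map_smul, LinearMap.add_apply, LinearMap.sub_apply,
      LinearMap.smul_apply, smul_eq_mul]
  have hv0 : t v = 0 := by
    refine b.ext fun j => b.ext fun k => ?_
    rw [hexp]
    fin_cases j <;> fin_cases k <;>
      simp only [Fin.zero_eta, Fin.mk_one, Fin.reduceFinMk, z1, z2, z3, s132, s213, s231, s312, s321, s032, s203, s230, s302, s320,
        s031, s103, s130, s301, s310, s021, s102, s120, s201, s210,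
        LinearMap.zero_apply, mul_zero, sub_zero, add_zero, zero_add] <;> ring
  rcases irr_cases (L := L) (LinearMap.ker t) (by
    intro a x hx
    rw [LinearMap.mem_ker] at hx ⊢
    refine LinearMap.ext fun y => LinearMap.ext fun z => ?_
    have h3 := hinv a x y z
    rw [hx] at h3
    simpa using h3) with h3 | h3
  · have h4 : v ∈ LinearMap.ker t := LinearMap.mem_ker.mpr hv0
    rw [h3, Submodule.mem_bot] at h4
    have h5 : ∑ i, (![t (b 1) (b 2) (b 3), - t (b 0) (b 2) (b 3), t (b 0) (b 1) (b 3),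
        - t (b 0) (b 1) (b 2)] : Fin 4 → ℂ) i • b i = 0 := by
      rw [Fin.sum_univ_four, ← h4, hv]
      simp only [Matrix.cons_val_zero, Matrix.cons_val_one, Matrix.cons_val]
      module
    have h6 := (Fintype.linearIndependent_iff.mp b.linearIndependent) _ h5
    have a123 : t (b 1) (b 2) (b 3) = 0 := h6 0
    have a023 : t (b 0) (b 2) (b 3) = 0 := neg_eq_zero.mp (h6 1)
    have a013 : t (b 0) (b 1) (b 3) = 0 := h6 2
    have a012 : t (b 0) (b 1) (b 2) = 0 := neg_eq_zero.mp (h6 3)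
    refine b.ext fun i => b.ext fun j => b.ext fun k => ?_
    fin_cases i <;> fin_cases j <;> fin_cases k <;>
      simp only [Fin.zero_eta, Fin.mk_one, Fin.reduceFinMk, z1, z2, z3, s132, s213, s231, s312, s321, s032, s203, s230, s302, s320,
        s031, s103, s130, s301, s310, s021, s102, s120, s201, s210,
        a123, a023, a013, a012, neg_zero, LinearMap.zero_apply]
  · exact LinearMap.ker_eq_top.mp h3

theorem V4_ : St_V4 := by
  intro L V _ _ _ _ _ _ _ _ _ _ hdim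
  exact ⟨fun t h1 h2 h3 => v4_a hdim t h1 h2 h3, fun β h1 h2 => v4_b hdim β h1 h2⟩

end Pool.Agent.D5
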