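import Pool.Agent.D5.Fin
import Pool.Agent.D5.C2
import Pool.Agent.D5.C3
import Pool.Agent.D5.C4
import Pool.Agent.D5.Clo
import Pool.Agent.D5.Com
import Pool.Agent.D5.Cur
import Pool.Agent.D5.Dec
import Pool.Agent.D5.Eas
import Pool.Agent.D5.FUL
import Pool.Agent.D5.Fr
import Pool.Agent.D5.Gal
import Pool.Agent.D5.Irr
import Pool.Agent.D5.Iso
import Pool.Agent.D5.K1
import Pool.Agent.D5.M8x
import Pool.Agent.D5.N1e
import Pool.Agent.D5.N1o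
import Pool.Agent.D5.N1p
import Pool.Agent.D5.N1q
import Pool.Agent.D5.N31
import Pool.Agent.D5.N3d
import Pool.Agent.D5.N3s
import Pool.Agent.D5.N4
import Pool.Agent.D5.N6
import Pool.Agent.D5.NS
import Pool.Agent.D5.Ng
import Pool.Agent.D5.O8
import Pool.Agent.D5.PDS
import Pool.Agent.D5.PLC
import Pool.Agent.D5.Ph
import Pool.Agent.D5.Qua
import Pool.Agent.D5.S6
import Pool.Agent.D5.SL
import Pool.Agent.D5.Sim
import Pool.Agent.D5.Sma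
import Pool.Agent.D5.Spl
import Pool.Agent.D5.Spu
import Pool.Agent.D5.Star
import Pool.Agent.D5.TOP
import Pool.Agent.D5.TWO
import Pool.Agent.D5.Typ
import Pool.Agent.D5.V4
import Pool.Agent.KT.Alg.All
import Pool.Agent.KT.Final

/-!
# D5: collection of the modules
-/

set_option autoImplicit false

namespace Pool.Agent.D5.All

open Pool.Agent.D5

theorem Pln : St_Pln := Pln_ Top_ One_
theorem Cub : St_Cub := Cub_ Top_ Two_ One_
theorem O8 : St_O8 := O8_ P4_ Top_ Odd_ Two_ V4_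
theorem S6 : St_S6 := S6_ Top_
theorem Eas : St_Eas := Eas_ K1_
theorem Qua : St_Qua := Qua_ Sub_
theorem PH : St_PH := PH_ Sub_
theorem N1E : St_N1E := N1E_ Fr_ V4_
theorem N1O : St_N1O := N1O_ Fr_ Sl_ O8
theorem N1P : St_N1P := N1P_ Fr_ P4_ Sl_ Pln Gal_ Iso_
theorem N1Q : St_N1Q := N1Q_ Fr_ Sl_ P4_ Odd_ Cub (CuR_ Irr_)
theorem N31 : St_N31 := N31_ Fr_ P4_ Sl_ Gal_ Sep_
theorem N3D : St_N3D := N3D_ P4_ Dua_ Sl_ Pln Fr_ Spl_ Iso_
theorem N3S : St_N3S := N3S_ Fr_ Spl_ Sl_ Pln P4_ Dua_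
theorem N4 : St_N4 := N4_ Fr_ P4_ Sl_ Gal_ Sep_ Com_
theorem N6 : St_N6 := N6_ Fr_ Spl_ P4_ Sl_ Pln S6
theorem SpU : St_SpU := SpU_ KT.Alg.thm_Dich KT.Alg.thm_AlgS KT.Alg.thm_Nil KT.Alg.thm_Cub
  KT.thm_KT
theorem NG : St_NG := NG_ Fr_ Spl_ SpU Ful_ Sp_ Dua_
theorem C2 : St_C2 := C2_ N4 Sma_ En1_
theorem C3 : St_C3 := C3_ Sma_ En1_ N6 N3D N3S N31 NG HoK_
theorem C4 : St_C4 := C4_ Sma_ N1E N1P N1Q N1O
theorem NS : St_NS := NS_ Dec_ Sub_ PH Eas Typ_ Sma_ Qua M8x_ C4 C3 C2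

open Pool.Agent.GPC in
/-- the theorem for dimension at most five -/
theorem main_five (X : AbVar) (hX : X.g ≤ 5)
    (hE : ¬ X.IsExcFive) (k : ℕ) (α : X.Class (2 * k)) :
    (X.IsGrothendieckClass k α → X.IsInFil k α) ∧
    (X.g ≤ 4 → (X.IsGrothendieckClass k α ↔
      ∃ (m : ℕ) (w : Fin m → X.Class (2 * k)),
        (∀ r, X.IsWeil k (w r) ∧ X.IsInFil k (w r)) ∧
        X.IsDivisorialClass k (α - ∑ r, w r))) :=
  main_fiveS K1_ Star_ Sim_ NS X hX hE k α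

end Pool.Agent.D5.All
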