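import Pool.Agent.Helper24.PT.UPair
import Pool.Agent.Helper8.Lie.PMixed2

/-!
# D5: Lie algebra definitions
-/

set_option autoImplicit false

namespace Pool.Agent.D5

open Module LieAlgebra LieModule
open Pool.Agent.Helper8 (Principal Symp ML2 ML4 Inv2 Inv4)
open Pool.Agent.Helper24 (ProjTriple)
open Pool.Agent.Helper7 (PairInv)

/-- the eigenvectors of `h` with eigenvalues congruent to `n` modulo two span `V` -/
def Par {L : Type} [LieRing L] [LieAlgebra ℂ L] (h : L) (n : ℤ) (V : Type) [AddCommGroup V]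
    [Module ℂ V] [LieRingModule L V] : Prop :=
  ⊤ ≤ Submodule.span ℂ {v : V | ∃ m : ℤ, ⁅h, v⁆ = ((n + 2 * m : ℤ) : ℂ) • v}

/-- the trace of every element is zero -/
def Tr0 (L V : Type) [LieRing L] [LieAlgebra ℂ L] [AddCommGroup V] [Module ℂ V]
    [LieRingModule L V] [LieModule ℂ L V] : Prop :=
  ∀ a : L, LinearMap.trace ℂ V (toEnd ℂ L V a) = 0

/-- the decomposition of `L` attached to an irreducible module `W` of dimension two (with trace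
zero): `N` is the kernel, `J` is the complementary ideal, which is isomorphic to `sl_2` with the
standard basis `e, h, f` -/
structure SlI (L W : Type) [LieRing L] [LieAlgebra ℂ L] [AddCommGroup W] [Module ℂ W]
    [LieRingModule L W] where
  p : Principal L
  J : LieIdeal ℂ L
  N : LieIdeal ℂ L
  (h e f h' e' f' : L)
  (w0 w1 : W)
  sup : J ⊔ N = ⊤
  inf : J ⊓ N = ⊥
  ptJ : ProjTriple J p.h h e f
  ptN : ProjTriple N p.h h' e' f'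
  sum : h + h' = p.h
  memE : e ∈ J
  memF : f ∈ J
  spanJ : ∀ x ∈ J, ∃ a b c : ℂ, x = a • e + b • h + c • f
  comm : ∀ x ∈ J, ∀ y ∈ N, ⁅x, y⁆ = 0
  triv : ∀ x ∈ N, ∀ w : W, ⁅x, w⁆ = 0
  span : ∀ w : W, ∃ a b : ℂ, w = a • w0 + b • w1
  indep : ∀ a b : ℂ, a • w0 + b • w1 = 0 → a = 0 ∧ b = 0
  h0 : ⁅h, w0⁆ = w0
  h1 : ⁅h, w1⁆ = -w1
  e0 : ⁅e, w0⁆ = 0
  e1 : ⁅e, w1⁆ = w0
  f0 : ⁅f, w0⁆ = w1
  f1 : ⁅f, w1⁆ = 0

/-- the powers of `f` -/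
noncomputable def fpow {L W : Type} [LieRing L] [LieAlgebra ℂ L] [AddCommGroup W] [Module ℂ W]
    [LieRingModule L W] (S : SlI L W) (V : Type) [AddCommGroup V] [Module ℂ V]
    [LieRingModule L V] [LieModule ℂ L V] (j : ℕ) : V →ₗ[ℂ] V := (toEnd ℂ L V S.f) ^ j

/-- the top eigenspace `U` of `h` on an irreducible module `V`: one has
`V = U ⊕ f U ⊕ ... ⊕ f^m U` -/
structure TopJ {L W : Type} [LieRing L] [LieAlgebra ℂ L] [AddCommGroup W] [Module ℂ W]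
    [LieRingModule L W] (S : SlI L W) (V : Type) [AddCommGroup V] [Module ℂ V]
    [LieRingModule L V] [LieModule ℂ L V] (m : ℕ) (U : Submodule ℂ V) : Prop where
  ne : U ≠ ⊥
  hU : ∀ u ∈ U, ⁅S.h, u⁆ = (m : ℂ) • u
  eU : ∀ u ∈ U, ⁅S.e, u⁆ = 0
  nU : ∀ x ∈ S.N, ∀ u ∈ U, ⁅x, u⁆ ∈ U
  irr : ∀ U' ≤ U, (∀ x ∈ S.N, ∀ u ∈ U', ⁅x, u⁆ ∈ U') → U' = ⊥ ∨ U' = U
  hf : ∀ u ∈ U, ∀ j : ℕ, ⁅S.h, fpow S V j u⁆ = ((m : ℂ) - 2 * j) • fpow S V j u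
  ef : ∀ u ∈ U, ∀ j : ℕ, ⁅S.e, fpow S V (j + 1) u⁆ = ((j + 1) * (m - j) : ℂ) • fpow S V j u
  ff : ∀ u ∈ U, ∀ j : ℕ, ⁅S.f, fpow S V j u⁆ = fpow S V (j + 1) u
  fz : ∀ u ∈ U, ∀ j : ℕ, m < j → fpow S V j u = 0
  nf : ∀ x ∈ S.N, ∀ v : V, ∀ j : ℕ, ⁅x, fpow S V j v⁆ = fpow S V j ⁅x, v⁆
  span : ∀ v : V, ∃ u : Fin (m + 1) → V, (∀ j, u j ∈ U) ∧ v = ∑ j : Fin (m + 1), fpow S V (j : ℕ) (u j)
  indep : ∀ u : Fin (m + 1) → V, (∀ j, u j ∈ U) → ∑ j : Fin (m + 1), fpow S V (j : ℕ) (u j) = 0 → ∀ j, u j = 0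
  dim : (m + 1) * finrank ℂ U = finrank ℂ V

end Pool.Agent.D5
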