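import Pool.Agent.D5.DefU
import Pool.Agent.Helper39.AF.Decomp
import Pool.Agent.Helper7.CP.Types

/-!
# D5: definitions for the reduction and for the final statement
-/

set_option autoImplicit false

namespace Pool.Agent.GPC

/-- `B` is an abelian surface and `End(B) ⊗ ℚ` is not commutative, with centre `ℚ` (a quaternion
algebra over `ℚ`, division or not). -/
def AbVar.IsQuatSurface (B : AbVar) : Prop :=
  B.g = 2 ∧ (∃ f g, B.IsEnd f ∧ B.IsEnd g ∧ ∃ v, f (g v) ≠ g (f v)) ∧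
  ∀ f, B.IsEnd f → (∀ g, B.IsEnd g → ∀ v, f (g v) = g (f v)) →
    ∃ q : ℚ, ∀ v, f v = (q : ℂ) • v

/-- The exceptions in dimension five: `X` is simple and `End(X) = ℤ`; or `X` is simple,
`End(X) ⊗ ℚ = ℚ(J)`, `J^2 = -d < 0`, and no eigenspace of `J` in `F^0 H_1` is of dimension one; or `X`
contains a simple abelian threefold `A` such that `End(A) ⊗ ℚ` is an imaginary quadratic field, and an
abelian surface `B` such that `End(B) ⊗ ℚ` is a quaternion algebra over `ℚ`. -/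
def AbVar.IsExcFive (X : AbVar) : Prop :=
  X.g = 5 ∧
  ((X.IsSimple ∧ ∀ f, X.IsEnd f → ∃ q : ℚ, ∀ v, f v = (q : ℂ) • v) ∨
   (X.IsSimple ∧ ∃ (d : ℚ) (J : X.H1 → X.H1), 0 < d ∧ X.IsEnd J ∧
      (∀ v, J (J v) = (-(d : ℂ)) • v) ∧
      (∀ f, X.IsEnd f → ∃ a b : ℚ, ∀ v, f v = (a : ℂ) • v + (b : ℂ) • J v) ∧
      ∀ z : ℂ, z ^ 2 = -(d : ℂ) →
        Module.finrank ℂ (Submodule.span ℂ {v : X.H1 | J v = z • v ∧ X.IsFil v}) ≠ 1) ∨
   (∃ A B : AbVar, A.IsSimple ∧ A.g = 3 ∧ (∃ d, A.IsQuadEnd d) ∧ B.IsQuatSurface ∧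
      (∃ f, A.IsMor X f ∧ Function.Injective f) ∧ ∃ f, B.IsMor X f ∧ Function.Injective f))

end Pool.Agent.GPC

namespace Pool.Agent.D5

open Module NumberField
open Pool.Agent.Helper7 Pool.Agent.GPC Pool.Agent.Helper39.AF

/-- an orthogonal decomposition into simple abelian subvarieties -/
structure SD (X : AbVar) {J : Type} [Fintype J] (B : J → AbVar)
    (ι : ∀ j, (B j).H1 → X.H1) (π : ∀ j, X.H1 → (B j).H1) : Prop where
  dec : SDecomp X B ι π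
  orth : ∀ j k, j ≠ k → ∀ u v, X.pol (ι j u) (ι k v) = 0

/-- the class `α` vanishes on vectors of the summands `s 0, …, s 3` three of which are in the Hodge
filtration -/
def PHo {X : AbVar} {J : Type} {B : J → AbVar} (ι : ∀ j, (B j).H1 → X.H1)
    (α : X.Class (2 * 2)) (s : Fin (2 * 2) → J) : Prop :=
  ∀ v : ∀ i, (B (s i)).H1, (∃ i0, ∀ i, i ≠ i0 → (B (s i)).IsFil (v i)) →
    α (fun i => ι (s i) (v i)) = 0

/-- the restriction of a class to four summands -/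
def pat {X : AbVar} {J : Type} {B : J → AbVar} (ι : ∀ j, (B j).H1 → X.H1)
    (α : X.Class (2 * 2)) (j0 j1 j2 j3 : J) :
    (B j0).H1 → (B j1).H1 → (B j2).H1 → (B j3).H1 → ℂ :=
  fun x y z w => α ![ι j0 x, ι j1 y, ι j2 z, ι j3 w]

/-- types of small simple factors -/
def Small (Y : AbVar) : Prop :=
  ∃ (K : Type) (_ : Field K) (_ : NumberField K),
    (Nonempty (UF (pData Y) K 1) ∧ finrank ℚ K = 2 * Y.g ∧ IsCMType Y K) ∨
    ((∃ F : UF (pData Y) K 2, EndK F ∨ (Y.IsQuatSurface)) ∧ finrank ℚ K = Y.g ∧ Re K ∧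
      IsRMType Y K) ∨
    (Nonempty (UF (pData Y) K 4) ∧ finrank ℚ K = 1 ∧ Y.IsGenericSurface)

/-- types of simple abelian varieties of dimension at most five -/
def Typ (A : AbVar) : Prop :=
  (∃ (K : Type) (_ : Field K) (_ : NumberField K), IsRMType A K) ∨
  (∃ (K : Type) (_ : Field K) (_ : NumberField K), IsCMType A K) ∨
  A.IsGenericSurface ∨
  (A.g = 3 ∧ ∃ (K : Type) (_ : Field K) (_ : NumberField K), Nonempty (UF (pData A) K 6) ∧
    finrank ℚ K = 1) ∨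
  (A.g = 3 ∧ (∃ d, A.IsQuadEnd d) ∧ ∃ (K : Type) (_ : Field K) (_ : NumberField K),
    Nonempty (UF (pData A) K 3) ∧ finrank ℚ K = 2 ∧ Cx K) ∨
  (A.g = 4 ∧ ∃ (K : Type) (_ : Field K) (_ : NumberField K),
    (Nonempty (UF (pData A) K 8) ∧ finrank ℚ K = 1) ∨
    (Nonempty (UF (pData A) K 4) ∧ finrank ℚ K = 2 ∧ (Re K ∨ Cx K)) ∨
    (Nonempty (UF (pData A) K 2) ∧ finrank ℚ K = 4 ∧ Cx K)) ∨
  (A.g = 5 ∧ ∀ f, A.IsEnd f → ∃ q : ℚ, ∀ v, f v = (q : ℂ) • v) ∨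
  (A.g = 5 ∧ ∃ d, A.IsQuadEnd d)

end Pool.Agent.D5
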