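import Pool.Agent.D5.DefL
import Pool.Agent.KT.Alg.Defs
import Pool.Agent.Helper7.AFT.Defs
import Pool.Agent.Helper7.Bridge2

/-!
# D5: definitions for families and classes
-/

set_option autoImplicit false

namespace Pool.Agent.D5

open Module NumberField LieAlgebra
open Pool.Agent.Helper7 Pool.Agent.GPC Pool.Agent.Helper24
open Pool.Agent.Helper8 (ML2 ML4 Inv2 Inv4 Symp Principal)

attribute [local instance 100] LieRing.ofAssociativeRing

/-- functions of four vectors which respect the de Rham and the Betti structures -/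
structure Gr4 (A B C D : AbVar) (G : A.H1 → B.H1 → C.H1 → D.H1 → ℂ) : Prop where
  ml : ML4 G
  alg : ∀ x y z w, A.IsDeRham x → B.IsDeRham y → C.IsDeRham z → D.IsDeRham w →
    IsAlgebraic ℚ (G x y z w)
  rat : ∀ x y z w, A.IsBetti x → B.IsBetti y → C.IsBetti z → D.IsBetti w →
    ∃ c : ℚ, G x y z w = (2 * Real.pi * Complex.I) ^ 2 * c

/-- functions of four vectors which vanish if three of the vectors are in the Hodge filtration -/
structure Ho4 (A B C D : AbVar) (G : A.H1 → B.H1 → C.H1 → D.H1 → ℂ) : Prop where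
  h1 : ∀ x y z w, B.IsFil y → C.IsFil z → D.IsFil w → G x y z w = 0
  h2 : ∀ x y z w, A.IsFil x → C.IsFil z → D.IsFil w → G x y z w = 0
  h3 : ∀ x y z w, A.IsFil x → B.IsFil y → D.IsFil w → G x y z w = 0
  h4 : ∀ x y z w, A.IsFil x → B.IsFil y → C.IsFil z → G x y z w = 0

/-- functions of two vectors which respect the de Rham and the Betti structures -/
structure Gr2 (A B : AbVar) (g : A.H1 → B.H1 → ℂ) : Prop where
  ml : ML2 g
  alg : ∀ x y, A.IsDeRham x → B.IsDeRham y → IsAlgebraic ℚ (g x y)
  rat : ∀ x y, A.IsBetti x → B.IsBetti y → ∃ c : ℚ, g x y = (2 * Real.pi * Complex.I) * c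

/-- the index sets -/
abbrev kap {I : Type} (A : I → AbVar) : I → Type := fun i => Fin (A i).g ⊕ Fin (A i).g

/-- multiplicity one -/
abbrev n1 (I : Type) : I → ℕ := fun _ => 1

/-- the abstract data -/
noncomputable abbrev PA {I : Type} (A : I → AbVar) :
    ∀ i, PData (kap A i) (2 * Real.pi * Complex.I) := fun i => pData (A i)

/-- the form on the product of the `A_i` attached to a function of four vectors -/
noncomputable def aG {I : Type} (A : I → AbVar) (a b c d : I)
    (G : (A a).H1 → (A b).H1 → (A c).H1 → (A d).H1 → ℂ) (hG : ML4 G) :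
    MultilinearMap ℂ (fun _ : Fin (2 * 2) => HW (kap A) (n1 I)) ℂ where
  toFun v := G (v 0 a 0) (v 1 b 0) (v 2 c 0) (v 3 d 0)
  map_update_add' := by
    intro inst v i x y
    have e : inst = instDecidableEqFin (2 * 2) := Subsingleton.elim _ _
    subst e
    fin_cases i
    · simp [Function.update, (hG.l1 _ _ _).map_add]
    · simp [Function.update, (hG.l2 _ _ _).map_add]
    · simp [Function.update, (hG.l3 _ _ _).map_add]
    · simp [Function.update, (hG.l4 _ _ _).map_add]
  map_update_smul' := by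
    intro inst v i c x
    have e : inst = instDecidableEqFin (2 * 2) := Subsingleton.elim _ _
    subst e
    fin_cases i
    · simp [Function.update, (hG.l1 _ _ _).map_smul]
    · simp [Function.update, (hG.l2 _ _ _).map_smul]
    · simp [Function.update, (hG.l3 _ _ _).map_smul]
    · simp [Function.update, (hG.l4 _ _ _).map_smul]

section comp

variable {I : Type} [Fintype I] [DecidableEq I] (A : I → AbVar)
  {K : I → Type} [∀ i, Field (K i)] [∀ i, NumberField (K i)] {r : I → ℕ}
  (F : ∀ i, UF (pData (A i)) (K i) (r i)) {a b c d : I}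
  {G : (A a).H1 → (A b).H1 → (A c).H1 → (A d).H1 → ℂ} (hG : ML4 G)

/-- the Lie algebra attached to a function of four vectors -/
noncomputable abbrev LG : LieSubalgebra ℂ (Module.End ℂ (MM (kap A))) :=
  LL (n1 I) (PA A) F (aG A a b c d G hG)

/-- the eigenspaces -/
noncomputable abbrev VG (s : Σ i, (K i →+* ℂ)) : LieSubmodule ℂ (LG A F hG) (MM (kap A)) :=
  Vs (n1 I) (PA A) F (aG A a b c d G hG) s

/-- the components -/
noncomputable def cG (s1 : K a →+* ℂ) (s2 : K b →+* ℂ) (s3 : K c →+* ℂ) (s4 : K d →+* ℂ) :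
    VG A F hG ⟨a, s1⟩ → VG A F hG ⟨b, s2⟩ → VG A F hG ⟨c, s3⟩ → VG A F hG ⟨d, s4⟩ → ℂ :=
  fun x y z w => G ((x : MM (kap A)) a) ((y : MM (kap A)) b) ((z : MM (kap A)) c)
    ((w : MM (kap A)) d)

end comp

/-- the embeddings are not real -/
def Cx (K : Type) [Field K] : Prop := ∀ σ : K →+* ℂ, ComplexEmbedding.conjugate σ ≠ σ

/-- the embeddings are real -/
def Re (K : Type) [Field K] : Prop := ∀ σ : K →+* ℂ, ComplexEmbedding.conjugate σ = σ

/-- all homomorphisms are zero -/
def Hom0 (A B : AbVar) : Prop := ∀ f, A.IsMor B f → ∀ v, f v = 0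

/-- all endomorphisms are given by the field -/
def EndK {A : AbVar} {K : Type} [Field K] [NumberField K] {r : ℕ} (F : UF (pData A) K r) : Prop :=
  ∀ f, A.IsEnd f → ∃ x, ∀ v, f v = F.ρ x v

end Pool.Agent.D5
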