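import Pool.Agent.D5.StL

/-!
# D5: no Killing Lie algebras of dimension one, two or four

The number of the roots is even and the roots span the dual of a Cartan subalgebra.
-/

set_option autoImplicit false

namespace Pool.Agent.D5

open Module LieAlgebra LieModule

private theorem four_sum (L : Type) [LieRing L] [LieAlgebra ℂ L] [FiniteDimensional ℂ L]
    [IsKilling ℂ L] (H : LieSubalgebra ℂ L) [H.IsCartanSubalgebra] :
    finrank ℂ L = ∑ χ : Weight ℂ H L, finrank ℂ (genWeightSpace L (χ : H → ℂ)) := by
  classical
  have h1 : DirectSum.IsInternal fun χ : Weight ℂ H L =>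
      (genWeightSpace L (χ : H → ℂ)).toSubmodule := by
    apply DirectSum.isInternal_submodule_of_iSupIndep_of_iSup_eq_top
    · exact LieSubmodule.iSupIndep_toSubmodule.mpr (iSupIndep_genWeightSpace' ℂ H L)
    · rw [← LieSubmodule.iSup_toSubmodule, iSup_genWeightSpace_eq_top' ℂ H L]
      rfl
  have h2 := (LinearEquiv.ofBijective (DirectSum.coeLinearMap fun χ : Weight ℂ H L =>
      (genWeightSpace L (χ : H → ℂ)).toSubmodule) h1).finrank_eq
  rw [Module.finrank_directSum] at h2
  exact h2.symm

private theorem four_even (L : Type) [LieRing L] [LieAlgebra ℂ L] [FiniteDimensional ℂ L]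
    [IsKilling ℂ L] (H : LieSubalgebra ℂ L) [H.IsCartanSubalgebra] : Even H.root.card := by
  classical
  have h1 : ∑ _χ ∈ H.root, (1 : ZMod 2) = 0 := by
    apply Finset.sum_involution (fun χ _ => -χ)
    · intro χ _
      exact (by decide : (1 : ZMod 2) + 1 = 0)
    · intro χ hχ _ he
      have h2 : χ.IsNonZero := by simpa [LieSubalgebra.root] using hχ
      apply h2
      have h3 : (χ : H → ℂ) = -(χ : H → ℂ) := by
        have h4 : ((-χ : Weight ℂ H L) : H → ℂ) = -(χ : H → ℂ) := Weight.coe_neg
        rw [he] at h4
        exact h4
      have h5 : (χ : H → ℂ) = 0 := by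
        funext x
        have h6 := congrFun h3 x
        simp only [Pi.neg_apply] at h6
        have h7 : (χ : H → ℂ) x = 0 := by linear_combination h6 / 2
        exact h7
      exact h5
    · intro χ _
      exact neg_neg χ
    · intro χ hχ
      have h2 : χ.IsNonZero := by simpa [LieSubalgebra.root] using hχ
      simpa [LieSubalgebra.root] using h2
  rw [Finset.sum_const, nsmul_one] at h1
  exact (ZMod.natCast_eq_zero_iff_even).1 h1

private theorem four_main (L : Type) [LieRing L] [LieAlgebra ℂ L] [FiniteDimensional ℂ L]
    [IsKilling ℂ L] (H : LieSubalgebra ℂ L) [H.IsCartanSubalgebra] :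
    finrank ℂ L = 0 ∨ (finrank ℂ L = H.root.card + finrank ℂ H ∧ 1 ≤ finrank ℂ H) := by
  classical
  have h1 := four_sum L H
  by_cases hr : finrank ℂ H = 0
  · left
    rw [h1]
    apply Finset.sum_eq_zero
    intro χ _
    exfalso
    have hs : Subsingleton H := Module.finrank_zero_iff.1 hr
    have h2 : (χ : H → ℂ) = 0 := by
      funext x
      have hx : x = 0 := Subsingleton.elim _ _
      have h3 := (χ.toLinear ℂ H L).map_zero
      rw [hx]
      exact h3
    have h4 := χ.genWeightSpace_ne_bot
    apply h4
    rw [h2]
    have h5 : rootSpace H (0 : H → ℂ) = H.toLieSubmodule := rootSpace_zero_eq ℂ L H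
    change rootSpace H (0 : H → ℂ) = ⊥
    rw [h5, eq_bot_iff]
    intro x hx
    have h6 : (⟨x, hx⟩ : H) = 0 := Subsingleton.elim _ _
    have h7 : x = 0 := congrArg Subtype.val h6
    rw [h7]
    exact LieSubmodule.zero_mem _
  · right
    refine ⟨?_, Nat.one_le_iff_ne_zero.2 hr⟩
    have hn : Nontrivial H := by
      by_contra hcon
      exact hr (Module.finrank_zero_iff.2 (not_nontrivial_iff_subsingleton.1 hcon))
    rw [h1, ← Finset.sum_filter_add_sum_filter_not Finset.univ
      (fun χ : Weight ℂ H L => χ.IsNonZero)]
    congr 1
    · rw [Finset.sum_congr rfl (g := fun _ => 1), Finset.sum_const, smul_eq_mul, mul_one]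
      intro χ hχ
      exact IsKilling.finrank_rootSpace_eq_one χ (by simpa using hχ)
    · have h2 : (Finset.univ.filter fun χ : Weight ℂ H L => ¬ χ.IsNonZero) = {0} := by
        ext χ
        simp only [Finset.mem_filter, Finset.mem_univ, true_and, Finset.mem_singleton, not_not]
        constructor
        · intro h
          apply Weight.ext
          intro x
          exact congrFun h x
        · rintro rfl
          rfl
      rw [h2, Finset.sum_singleton]
      have h5 : rootSpace H (0 : H → ℂ) = H.toLieSubmodule := rootSpace_zero_eq ℂ L H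
      change finrank ℂ (rootSpace H (0 : H → ℂ)) = finrank ℂ H
      rw [h5]
      rfl

theorem Four_ : St_Four := by
  classical
  intro L _ _ _ _
  obtain ⟨x, hx⟩ := exists_isCartanSubalgebra_engel ℂ L
  set H := LieSubalgebra.engel ℂ x with hH
  haveI : H.IsCartanSubalgebra := hx
  rcases four_main L H with h0 | ⟨h1, h2⟩
  · omega
  have h3 := four_even L H
  have hspan := IsKilling.span_weight_isNonZero_eq_top ℂ L H
  have hdual : finrank ℂ (Module.Dual ℂ H) = finrank ℂ H := Subspace.dual_finrank_eq
  have h4 : H.root.card ≠ 0 := by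
    intro h5
    rw [Finset.card_eq_zero] at h5
    have h6 : ({α : Weight ℂ H L | α.IsNonZero} : Set (Weight ℂ H L)) = ∅ := by
      ext χ
      simp only [Set.mem_setOf_eq, Set.mem_empty_iff_false, iff_false]
      intro h7
      have h8 : χ ∈ H.root := by simpa [LieSubalgebra.root] using h7
      rw [h5] at h8
      exact absurd h8 (Finset.notMem_empty _)
    rw [h6, Set.image_empty, Submodule.span_empty] at hspan
    have h7 : finrank ℂ (Module.Dual ℂ H) = 0 := by
      rw [← finrank_top, ← hspan, finrank_bot]
    omega
  have h5 : ¬ (H.root.card = 2 ∧ finrank ℂ H = 2) := by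
    rintro ⟨h6, h7⟩
    obtain ⟨a, b, hab, he⟩ := Finset.card_eq_two.1 h6
    have ha : a.IsNonZero := by
      have : a ∈ H.root := by rw [he]; simp
      simpa [LieSubalgebra.root] using this
    have hna : (-a) ∈ H.root := by
      have : (-a).IsNonZero := ha.neg
      simpa [LieSubalgebra.root] using this
    have h8 : ({α : Weight ℂ H L | α.IsNonZero}.image (Weight.toLinear ℂ H L)) ⊆
        (Submodule.span ℂ {a.toLinear ℂ H L} : Submodule ℂ (Module.Dual ℂ H)) := by
      rintro _ ⟨χ, hχ, rfl⟩
      have h9 : χ ∈ H.root := by simpa [LieSubalgebra.root] using hχ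
      have hb : b = -a := by
        rw [he] at hna
        rcases Finset.mem_insert.1 hna with h | h
        · exfalso
          apply ha
          funext x
          have h10 : ((-a : Weight ℂ H L) : H → ℂ) x = -(a : H → ℂ) x := by
            rw [Weight.coe_neg]; rfl
          rw [h] at h10
          have h11 : (a : H → ℂ) x = 0 := by linear_combination h10 / 2
          exact h11
        · exact (Finset.mem_singleton.1 h).symm
      rw [he] at h9
      rcases Finset.mem_insert.1 h9 with h | h
      · rw [h]
        exact Submodule.mem_span_singleton_self _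
      · rw [Finset.mem_singleton.1 h, hb, Weight.toLinear_neg]
        exact Submodule.neg_mem _ (Submodule.mem_span_singleton_self _)
    have h9 := Submodule.span_le.2 h8
    rw [hspan] at h9
    have h10 : finrank ℂ (Module.Dual ℂ H) ≤ 1 := by
      rw [← finrank_top]
      exact (Submodule.finrank_mono h9).trans ((finrank_span_le_card _).trans (by simp))
    omega
  obtain ⟨k, hk⟩ := h3
  omega

end Pool.Agent.D5
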