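import Pool.Agent.D5.StR
import Pool.Agent.D5.DivFil

/-!
# D5: the theorem for dimension at most five, from the statements of the campaign
-/

set_option autoImplicit false

namespace Pool.Agent.D5

open Pool.Agent.GPC

/-- degree zero -/
lemma Fin_zero (X : AbVar) (α : X.Class (2 * 0)) : X.IsInFil 0 α := by
  rintro v ⟨s, hs, -⟩
  have h1 : s.card ≤ 0 := by
    have h2 := Finset.card_le_univ s
    rw [Fintype.card_fin] at h2
    exact h2
  omega

/-- dimension five, degree at most four -/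
lemma Fin_low (hK1 : St_K1) (hSim : St_Sim) (hNS : St_NS) (X : AbVar) (hX : X.g = 5)
    (hE : ¬ X.IsExcFive) (k : ℕ) (hk : k ≤ 2) (α : X.Class (2 * k))
    (hα : X.IsGrothendieckClass k α) : X.IsInFil k α := by
  by_cases hs : X.IsSimple
  · exact hSim X hX hs hE k α hα
  · obtain rfl | rfl | rfl : k = 0 ∨ k = 1 ∨ k = 2 := by omega
    · exact Fin_zero X α
    · exact hK1.2 X α hα
    · exact hNS X hX hs hE α hα

/-- dimension five -/
theorem Fin_five (hK1 : St_K1) (hStar : St_Star) (hSim : St_Sim) (hNS : St_NS) (X : AbVar)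
    (hX : X.g = 5) (hE : ¬ X.IsExcFive) (k : ℕ) (α : X.Class (2 * k))
    (hα : X.IsGrothendieckClass k α) : X.IsInFil k α := by
  by_cases hk : k ≤ 2
  · exact Fin_low hK1 hSim hNS X hX hE k hk α hα
  · by_cases hk5 : k ≤ X.g
    · exact (hStar X k).1 hk5 (fun β hβ => Fin_low hK1 hSim hNS X hX hE _ (by omega) β hβ) α hα
    · exact (hStar X k).2 (by omega) α

/-- the theorem for dimension at most five -/
theorem main_fiveS (hK1 : St_K1) (hStar : St_Star) (hSim : St_Sim) (hNS : St_NS) (X : AbVar)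
    (hX : X.g ≤ 5) (hE : ¬ X.IsExcFive) (k : ℕ) (α : X.Class (2 * k)) :
    (X.IsGrothendieckClass k α → X.IsInFil k α) ∧
    (X.g ≤ 4 → (X.IsGrothendieckClass k α ↔
      ∃ (m : ℕ) (w : Fin m → X.Class (2 * k)),
        (∀ r, X.IsWeil k (w r) ∧ X.IsInFil k (w r)) ∧
        X.IsDivisorialClass k (α - ∑ r, w r))) := by
  refine ⟨fun hα => ?_, fun h4 => main_four X h4 k α⟩
  by_cases h4 : X.g ≤ 4
  · exact inFil_four X h4 k α hα
  · exact Fin_five hK1 hStar hSim hNS X (by omega) hE k α hα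

end Pool.Agent.D5
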