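import Pool.Agent.D5.StN

/-!
# D5: N1O, three vectors in a factor of rank eight and one in a factor of rank two (helper99)
-/

set_option autoImplicit false

namespace Pool.Agent.D5

open Module NumberField LieAlgebra
open Pool.Agent.Helper7 Pool.Agent.GPC Pool.Agent.Helper24
open Pool.Agent.Helper8 (ML2 ML4 Inv2 Inv4 Symp Principal)

attribute [local instance 100] LieRing.ofAssociativeRing

/-- a number field of degree one has one embedding -/
theorem N1O_emb {K : Type} [Field K] [NumberField K] (h : finrank ℚ K = 1)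
    (s t : K →+* ℂ) : s = t := by
  have h1 : Fintype.card (K →+* ℂ) = 1 := by
    rw [NumberField.Embeddings.card K ℂ, h]
  exact Fintype.card_le_one_iff.1 h1.le s t

/-- [N1O] -/
theorem N1O_ (hF : St_Fr) (hS : St_Sl) (hO : St_O8) : St_N1O := by
  intro I _ _ A K _ _ r F a e G hG h12 h23 hpos hre hra hfin
  have D := hF I A K r F a a a e G hG hpos
  have hk : IsKilling ℂ (LG A F hG.ml) := D.kill
  obtain ⟨p⟩ := Pool.Agent.Helper8.exists_principal (LG A F hG.ml)
  refine D.zero ?_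
  intro s1 s2 s3 s4
  obtain rfl : s1 = s2 := N1O_emb hfin _ _
  obtain rfl : s1 = s3 := N1O_emb hfin _ _
  have i1 : LieModule.IsIrreducible ℂ (LG A F hG.ml) (VG A F hG.ml ⟨a, s1⟩) := D.irr _
  have i2 : LieModule.IsIrreducible ℂ (LG A F hG.ml) (VG A F hG.ml ⟨e, s4⟩) := D.irr _
  obtain ⟨S, -⟩ := hS (LG A F hG.ml) (VG A F hG.ml ⟨e, s4⟩) p
    ((D.rank ⟨e, s4⟩).trans hre) (D.tr _)
  exact hO (LG A F hG.ml) (VG A F hG.ml ⟨e, s4⟩) (VG A F hG.ml ⟨a, s1⟩) S
    (bp (n1 I) (PA A) F (aG A a a a e G hG.ml) a s1 s1)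
    (bp_symp (n1 I) (PA A) F (aG A a a a e G hG.ml) hpos a s1 (N1O_emb hfin _ _))
    ((D.rank ⟨a, s1⟩).trans hra) (D.tr _) (cG A F hG.ml s1 s1 s1 s4) (D.ml _ _ _ _)
    (D.inv _ _ _ _) (fun x y z w => h12 _ _ _ _) (fun x y z w => h23 _ _ _ _)

end Pool.Agent.D5
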