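import Pool.Agent.D5.StR
import Pool.Agent.Helper7.AF.Assembly
import Pool.Agent.Helper7.PD.Cases

/-!
# D5, module Sma: simple factors of dimension one and two
-/

set_option autoImplicit false

namespace Pool.Agent.D5

open Module NumberField
open Pool.Agent.Helper7 Pool.Agent.GPC Pool.Agent.Helper39.AF
open Pool.Agent.Helper24 (nonempty_UF1 nonempty_UF2)

section real

variable {A : AbVar} {K : Type} [Field K] [NumberField K]

theorem Sma_rat (C : RealMult A K) (a : ℚ) (v : A.H1) : C.ρ (a : K) v = (a : ℂ) • v := by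
  have h1 := rho_ratsmul (reRho C) a 1
  rw [Algebra.smul_def, mul_one, map_one] at h1
  have h2 := congrArg (fun f : Module.End ℂ A.H1 => f v) h1
  have h3 : reRho C (algebraMap ℚ K a) v = C.ρ (a : K) v := rfl
  have h4 : reRho C (algebraMap ℚ K a) v = (a : ℂ) • v := h2
  rw [← h3, h4]

theorem Sma_one (h : finrank ℚ K = 1) (x : K) : ∃ a : ℚ, x = a := by
  obtain ⟨a, ha⟩ := (finrank_eq_one_iff_of_nonzero' (1 : K) one_ne_zero).mp h x
  refine ⟨a, ?_⟩
  rw [← ha, Algebra.smul_def, mul_one]
  rfl

theorem Sma_two (h2 : finrank ℚ K = 2) {x : K} (hx : ∀ a : ℚ, x ≠ a) (y : K) :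
    ∃ a b : ℚ, y = a + b * x := by
  have hli : LinearIndependent ℚ ![(1 : K), x] := by
    rw [LinearIndependent.pair_iff]
    intro s t hst
    have h1 : (s : K) + (t : K) * x = 0 := by simpa [Algebra.smul_def] using hst
    have h5 : t = 0 := by
      by_contra ht
      have ht' : (t : K) ≠ 0 := by exact_mod_cast ht
      apply hx (-s / t)
      push_cast
      field_simp
      linear_combination h1
    subst h5
    refine ⟨?_, rfl⟩
    have h6 : (s : K) = 0 := by simpa using h1
    exact_mod_cast h6
  have hspan : Submodule.span ℚ (Set.range ![(1 : K), x]) = ⊤ :=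
    hli.span_eq_top_of_card_eq_finrank (by rw [h2, Fintype.card_fin])
  have hy : y ∈ Submodule.span ℚ (Set.range ![(1 : K), x]) := by rw [hspan]; trivial
  rw [Submodule.mem_span_range_iff_exists_fun] at hy
  obtain ⟨c, hc⟩ := hy
  refine ⟨c 0, c 1, ?_⟩
  rw [← hc, Fin.sum_univ_two]
  simp [Algebra.smul_def]

/-- the structure of rank `r` -/
theorem Sma_UF [IsTotallyReal K] (C : RealMult A K) (r : ℕ) (hr : finrank ℚ K * r = 2 * A.g) :
    Nonempty (UF (pData A) K r) := by
  have hQ : ∀ x, ∀ v ∈ (pData A).Q, reRho C x v ∈ (pData A).Q :=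
    fun x v hv => (isDRB_of_isEnd A _ (C.endo x)).rat v hv
  obtain ⟨lam, h1, h2, eb, h3⟩ := exists_Kbasis (pData A) (reRho C) hQ r
    (by rw [card_index]; exact hr)
  exact ⟨{  ρ := reRho C
            hρ := fun x => isDRB_of_isEnd A _ (C.endo x)
            cc := fun x => x
            hcc := fun σ x => by
              have h := ComplexEmbedding.isReal_iff.mp
                (IsTotallyReal.complexEmbedding_isReal σ)
              have h2 := congrArg (fun τ => τ x) h
              simp only [ComplexEmbedding.conjugate_coe_eq] at h2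
              exact h2.symm
            hros := fun x u v => C.rosati x u v
            hcen := fun f hf hc => C.centralizer f (isEnd_of_isDRB A f hf) hc
            hnd := hnd_pData A
            lam := lam
            lam_rat := h1
            gen := h2
            eb := eb
            heb := h3 }⟩

theorem Sma_Re [IsTotallyReal K] : Re K := fun σ =>
  ComplexEmbedding.isReal_iff.mp (IsTotallyReal.complexEmbedding_isReal σ)

theorem Sma_real (hK : IsTotallyReal K) (C : RealMult A K) (hg : A.g = 1 ∨ A.g = 2) : Small A := by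
  obtain ⟨F, hF⟩ := nonempty_RF A K C
  obtain ⟨s, hs2⟩ := rf_even F
  have hF' : finrank ℚ K * s = A.g := by
    have h1 : 2 * (finrank ℚ K * s) = 2 * A.g := by
      rw [← hF, hs2]
      ring
    omega
  have hpos : 0 < finrank ℚ K := finrank_pos
  by_cases hd : finrank ℚ K = A.g
  · -- real multiplication
    let C' : RM A K := { ρ := C.ρ
                         one := C.one
                         mul := C.mul
                         add := C.add
                         degree := hd
                         endo := C.endo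
                         rosati := C.rosati
                         centralizer := C.centralizer }
    obtain ⟨F', hF2⟩ := nonempty_UF2 A K C'
    refine ⟨K, inferInstance, inferInstance, Or.inr (Or.inl ⟨⟨F', ?_⟩, hd, Sma_Re, hK, ⟨C'⟩⟩)⟩
    by_cases hall : ∀ f, A.IsEnd f → ∀ x v, f (C.ρ x v) = C.ρ x (f v)
    · left
      intro f hf
      obtain ⟨x, hx⟩ := C.centralizer f hf (hall f hf)
      exact ⟨x, fun v => by rw [hx, hF2]⟩
    · right
      push Not at hall
      obtain ⟨h, hh, x₀, v₀, hne⟩ := hall
      have hg2 : A.g = 2 := by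
        rcases hg with hg | hg
        · exfalso
          obtain ⟨a, rfl⟩ := Sma_one (hd.trans hg) x₀
          apply hne
          rw [Sma_rat, Sma_rat, hh.linear.map_smul]
        · exact hg
      refine ⟨hg2, ⟨h, C.ρ x₀, hh, C.endo x₀, v₀, hne⟩, fun f hf hc => ?_⟩
      obtain ⟨x, hx⟩ := C.centralizer f hf (fun y v => hc (C.ρ y) (C.endo y) v)
      by_cases hxq : ∃ a : ℚ, x = a
      · obtain ⟨a, rfl⟩ := hxq
        exact ⟨a, fun v => by rw [hx, Sma_rat]⟩
      · exfalso
        push Not at hxq
        obtain ⟨a, b, hab⟩ := Sma_two (hd.trans hg2) hxq x₀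
        apply hne
        have h1 : ∀ v, C.ρ x₀ v = (a : ℂ) • v + (b : ℂ) • f v := by
          intro v
          rw [hab, C.add, Sma_rat, C.mul, Sma_rat, hx]
        rw [h1, h1, hh.linear.map_add, hh.linear.map_smul, hh.linear.map_smul, hc h hh]
  · -- generic surfaces
    have h1 : finrank ℚ K = 1 ∧ A.g = 2 ∧ s = 2 := by
      rcases hg with hg | hg
      · exfalso
        rw [hg] at hF' hd
        exact hd (Nat.eq_one_of_mul_eq_one_right hF')
      · rw [hg] at hF' hd
        have h2 : finrank ℚ K ∣ 2 := ⟨s, hF'.symm⟩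
        rcases (Nat.dvd_prime Nat.prime_two).mp h2 with h3 | h3
        · refine ⟨h3, hg, ?_⟩
          rw [h3, one_mul] at hF'
          exact hF'
        · exact absurd h3 hd
    obtain ⟨hd1, hg2, -⟩ := h1
    refine ⟨K, inferInstance, inferInstance, Or.inr (Or.inr
      ⟨Sma_UF C 4 (by rw [hd1, hg2]), hd1, hg2, fun f hl hb hh => ?_⟩)⟩
    have hf : A.IsEnd f := ⟨hl, hb, deRham_of_hodge A A f hl hb hh, hh⟩
    obtain ⟨x, hx⟩ := C.centralizer f hf (fun x v => by
      obtain ⟨a, rfl⟩ := Sma_one hd1 x
      rw [Sma_rat, Sma_rat, hf.linear.map_smul])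
    obtain ⟨a, rfl⟩ := Sma_one hd1 x
    exact ⟨a, fun v => by rw [hx, Sma_rat]⟩

end real

theorem Sma_ : St_Sma := by
  intro Y hs hg
  obtain ⟨K, iF, iN, hK⟩ := simple_cases Y hs
  rcases hK with ⟨hre, ⟨C⟩⟩ | ⟨h1, ρ, C⟩ | ⟨h1, ρ, j, b, C⟩
  · exact Sma_real hre C hg
  · obtain ⟨r, hr⟩ := herm_rank Y K ρ C
    obtain ⟨e, he, he0⟩ := cm_even K
    have hr' : e * r = Y.g := by
      have h2 : 2 * (e * r) = 2 * Y.g := by
        rw [← hr, he]
        ring
      omega
    have hcm : finrank ℚ K = 2 * Y.g → Small Y := by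
      intro hd
      have h2 := cmType_of_herm C hd
      obtain ⟨h3, ⟨C'⟩⟩ := h2
      exact ⟨K, iF, iN, Or.inl ⟨nonempty_UF1 Y K C', hd, h3, ⟨C'⟩⟩⟩
    rcases hg with hg | hg
    · have h4 : e = 1 := Nat.eq_one_of_mul_eq_one_right (hr'.trans hg)
      exact hcm (by rw [he, h4, hg])
    · rw [hg] at hr'
      rcases (Nat.dvd_prime Nat.prime_two).mp ⟨r, hr'.symm⟩ with h4 | h4
      · exfalso
        have hd : finrank ℚ K = 2 := by rw [he, h4]
        exact not_mixed_quad C hd hg (herm_mixed_of Y
          (fun f hl hb hh => deRham_of_hodge Y Y f hl hb hh) K ρ C (by rw [hd, hg]))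
      · exact hcm (by rw [he, h4, hg])
  · exfalso
    obtain ⟨m, hm, hm1⟩ := quat_rank Y K ρ j b C
    obtain ⟨e, he, he0⟩ := cm_even K
    rw [he, mul_assoc] at hm
    rcases hg with hg | hg
    · rw [hg] at hm
      omega
    · rw [hg] at hm
      have h2 : e * m = 1 := by omega
      exact hm1 (Nat.eq_one_of_mul_eq_one_left h2)

end Pool.Agent.D5
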