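import Pool.Agent.D5.StU

/-!
# D5: the new components

`G` is a function of four vectors which respects the de Rham and Betti structures (`Gr4`); `a` is the
label of the large factor. The data `FrD A F hG` come from `St_Fr`. In the proofs `L` is the Lie
algebra, `V_σ` the eigenspace of the place `σ` of the factor `a`, `χ_s = ch s X - X.2 / 2` (so
`χ_{conj s} = - χ_s`, `ch_conj`, and `χ_s = 0` at real places), a non-zero component at `s_1, …, s_4`
gives `∑ χ_{s_i} = 0` (`FrD.wt`); `bp` is the pairing of `V_σ` and `V_{conj σ}` (`bp_pair, bp_symp`).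
A plane (rank two) is symplectic: the form `det` is invariant as traces are zero.
-/

set_option autoImplicit false

namespace Pool.Agent.D5

open Module NumberField LieAlgebra
open Pool.Agent.Helper7 Pool.Agent.GPC Pool.Agent.Helper24
open Pool.Agent.Helper8 (ML2 ML4 Inv2 Inv4 Symp Principal)

/-- alternating in the first two variables -/
def Al12 {V W1 W2 : Type} (G : V → V → W1 → W2 → ℂ) : Prop := ∀ x y z w, G y x z w = - G x y z w

/-- alternating in the second and the third variable -/
def Al23 {V W1 W2 : Type} (G : W1 → V → V → W2 → ℂ) : Prop := ∀ x y z w, G x z y w = - G x y z w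

/-- alternating in the last two variables -/
def Al34 {V W1 W2 : Type} (G : W1 → W2 → V → V → ℂ) : Prop := ∀ x y z w, G x y w z = - G x y z w

/-- [N1E] three vectors in a factor, one in a factor of rank one.
Proof. The Lie algebra acts trivially on the fourth space. If the places of `a` are real or of rank
two, all `V_σ` are symplectic and the weights of a principal element are odd (`Principal.odd_span`):
use `Helper8.odd3` (or [P4] with parities `1, 1, 1, 0`). Let `r a = 4`, `K a` imaginary quadratic,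
with places `σ, σ'` (`emb_two`). Components `(σ, σ, σ, s4)`: for fixed `w` an invariant alternating
trilinear form on the irreducible module `V_σ` of dimension four: zero by [V4](a). Components
`(σ, σ, σ', s4)`: `G(x, y, z, w) = bp(β(x, y), z)` with `β : V_σ × V_σ → V_σ` alternating and
equivariant: zero by [V4](b). The other components are obtained from these by permutation of the
first three variables. -/
def St_N1E : Prop := ∀ (I : Type) [Fintype I] [DecidableEq I] (A : I → AbVar) (K : I → Type)
  [∀ i, Field (K i)] [∀ i, NumberField (K i)] (r : I → ℕ)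
  (F : ∀ i, UF (pData (A i)) (K i) (r i)) (a e : I)
  (G : (A a).H1 → (A a).H1 → (A a).H1 → (A e).H1 → ℂ), Gr4 (A a) (A a) (A a) (A e) G →
  Al12 G → Al23 G → (∀ i, 0 < r i) → r e = 1 →
  (Re (K a) ∨ r a = 2 ∨ (r a = 4 ∧ Cx (K a) ∧ finrank ℚ (K a) = 2)) →
  ∀ x y z w, G x y z w = 0

/-- [N1P] three vectors in a factor of rank two over a quartic CM field, one in an elliptic curve
without complex multiplication.
Proof. `W = V_e` is a plane; let `S : SlI L W` ([Sl]). Suppose that the component at
`(σ_1, σ_2, σ_3, s4)` is not zero. By [Pln], for each `i` either `Par S.h 0 V_{σ_i}` or there is a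
non-zero invariant pairing of `V_{σ_i}` and `W`. If the first holds for all `i`, the component is zero by
[P4] (parities `0, 0, 0, 1`). So there is a non-zero invariant pairing `V_σ × W → ℂ` for
`σ = σ_i`. Weights: `χ_{σ_1} + χ_{σ_2} + χ_{σ_3} = 0` (`χ = 0` at `e`). The embeddings of `K a` are
`σ, σ', τ, τ'` (`'` is the conjugate). If the three `σ_i` are in `{σ, σ'}` then `χ_σ = 0` (`±3 χ_σ` or
`±χ_σ`); if two are conjugate then the third `χ` is zero; otherwise (up to names) `2 χ_σ = ± χ_τ`, for
all symmetries `X`; by [Gal] with an automorphism `g` of `ℂ` mapping `σ` to `τ` (`Helper84.exists_aut`), so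
mapping `τ` to `σ` or `σ'`, `2 χ_τ = ± χ_σ`, so `χ_σ = χ_τ = 0`. In all cases some `χ` is zero for all
`X`, and then by [Gal] all `χ` are zero. So `ch σ X + ch e X = X.2` and [Iso] gives a contradiction to
`Hom0` (the conclusion `t = conjT s` is impossible for different factors). -/
def St_N1P : Prop := ∀ (I : Type) [Fintype I] [DecidableEq I] (A : I → AbVar) (K : I → Type)
  [∀ i, Field (K i)] [∀ i, NumberField (K i)] (r : I → ℕ)
  (F : ∀ i, UF (pData (A i)) (K i) (r i)) (a e : I)
  (G : (A a).H1 → (A a).H1 → (A a).H1 → (A e).H1 → ℂ), Gr4 (A a) (A a) (A a) (A e) G →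
  Al12 G → Al23 G → (∀ i, 0 < r i) → r e = 2 → Re (K e) → r a = 2 → Cx (K a) →
  finrank ℚ (K a) = 4 → a ≠ e → Hom0 (A a) (A e) → ∀ x y z w, G x y z w = 0

/-- [N1Q] three vectors in a simple fourfold of rank four over a quadratic field, one in an elliptic
curve without complex multiplication.
Proof. `W = V_e`, `S : SlI L W`. For a place `σ` let `p_σ, n_σ` be parities of `S.h, S.h'` on `V_σ`
(`exists_parity`). Suppose a component at `(σ_1, σ_2, σ_3, s4)` is not zero. By [P4] for `S.h`, `S.h'`:
`p_{σ_1} + p_{σ_2} + p_{σ_3}` is odd (`Par S.h 1 W`), `n_{σ_1} + n_{σ_2} + n_{σ_3}` is even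
(`S.h'` acts by zero on `W`). `K a` real: `p_σ + n_σ` is odd for all `σ` ([Odd], `bp_symp`), so the number
of `i` with `n_{σ_i}` odd is even, hence `n_{σ_i}` is even, `p_{σ_i}` odd for some `i`. `K a`
imaginary: the parities on `V_σ` and on the dual `V_{σ'}` are the same (a non-zero pairing of
eigenvectors has sum of eigenvalues zero), so `3 p` is odd and `3 n` even. In both cases there is a
`σ` with `Par S.h 1 V_σ`, `Par S.h' 0 V_σ`, so by [Cub] a non-zero symmetric equivariant
`φ : W × W × W → V_σ`. `χ_σ = 0` for all `X`: clear if `K a` is real; otherwise `∑ χ_{σ_i} = m χ_σ` with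
`m` odd is zero. The map `φ` on `H_1(A e)³` (`toVs`, `ofVs`; `K e = ℚ`, so `proj ρ s4 = 1`, as
`finrank = 1`) satisfies the equivariance of [CuR]: `X.1 = (action of L) + X.2 / 2` on both sides;
[CuR] gives `φ = 0`, a contradiction. -/
def St_N1Q : Prop := ∀ (I : Type) [Fintype I] [DecidableEq I] (A : I → AbVar) (K : I → Type)
  [∀ i, Field (K i)] [∀ i, NumberField (K i)] (r : I → ℕ)
  (F : ∀ i, UF (pData (A i)) (K i) (r i)) (a e : I)
  (G : (A a).H1 → (A a).H1 → (A a).H1 → (A e).H1 → ℂ), Gr4 (A a) (A a) (A a) (A e) G →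
  Al12 G → Al23 G → (∀ i, 0 < r i) → r e = 2 → finrank ℚ (K e) = 1 → (A e).g = 1 → r a = 4 →
  finrank ℚ (K a) = 2 → (Re (K a) ∨ Cx (K a)) → (A a).IsSimple → (A a).g = 4 →
  ∀ x y z w, G x y z w = 0

/-- [N1O] three vectors in a factor of rank eight with real place, one in a factor of rank two.
Proof: [Sl] and [O8]. -/
def St_N1O : Prop := ∀ (I : Type) [Fintype I] [DecidableEq I] (A : I → AbVar) (K : I → Type)
  [∀ i, Field (K i)] [∀ i, NumberField (K i)] (r : I → ℕ)
  (F : ∀ i, UF (pData (A i)) (K i) (r i)) (a e : I)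
  (G : (A a).H1 → (A a).H1 → (A a).H1 → (A e).H1 → ℂ), Gr4 (A a) (A a) (A a) (A e) G →
  Al12 G → Al23 G → (∀ i, 0 < r i) → r e = 2 → r a = 8 → finrank ℚ (K a) = 1 →
  ∀ x y z w, G x y z w = 0

/-- [N6] two vectors in a factor of rank six over `ℚ`, two in factors of rank one or two.
Proof. Let `V = V_σ` (the only place of `a`; it is real, `V` is symplectic by `bp`), `Y, Z` the
eigenspaces at `s3`, `s4`; use [Spl]. Ranks `(1, 1)`: for fixed `z, w` an invariant bilinear form on `V`,
a multiple of `bp` ([Dua] or `schur`). Ranks `(2, 1)`, `(1, 2)`: zero, the parities of a principal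
element are `1, 1, 1, 0`. Ranks `(2, 2)`: `S : SlI L Y` ([Sl]), `p` the parity of `S.h` on `V`. By [Pln]
for `Z`: if `Par S.h 0 Z` then the parities are `p, p, 1, 0` with odd sum: zero. Otherwise there is a
non-zero invariant pairing `g` of `Z` and `Y`, hence, `Y` and `Z` being irreducible and `Y` symplectic, an
isomorphism `θ : Z → Y` of modules. Write `G'(x, y, u, v) = G(x, y, u, θ⁻¹ v)` on `V, V, Y, Y` as the sum
of its symmetric and alternating parts in `u, v`. The symmetric part is zero by [S6]. The alternating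
part is `β(x, y) ω(u, v)`, `ω` the area form (`P211_plane` with the roles exchanged, or directly:
alternating forms on a plane are multiples of `ω`), `β` is bilinear and invariant, so a multiple of
`bp`. -/
def St_N6 : Prop := ∀ (I : Type) [Fintype I] [DecidableEq I] (A : I → AbVar) (K : I → Type)
  [∀ i, Field (K i)] [∀ i, NumberField (K i)] (r : I → ℕ)
  (F : ∀ i, UF (pData (A i)) (K i) (r i)) (a c d : I)
  (G : (A a).H1 → (A a).H1 → (A c).H1 → (A d).H1 → ℂ), Gr4 (A a) (A a) (A c) (A d) G →
  Al12 G → (∀ i, 0 < r i) → r a = 6 → finrank ℚ (K a) = 1 → (r c = 1 ∨ r c = 2) →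
  (r d = 1 ∨ r d = 2) →
  ∀ (z : (A c).H1) (w : (A d).H1), ∃ k : ℂ, ∀ x y : (A a).H1, G x y z w = k * (pData (A a)).ψ x y

/-- [N3D] two vectors in a factor of rank three over an imaginary quadratic field, two in different
factors of rank one or two.
Proof. Let `σ, σ'` be the places of `a`. On `V_σ`, of dimension three, the weights of the
`J`-component of a principal triple are even for every ideal `J` (`even_of_three`). Ranks `(2, 1)`,
`(1, 2)`: zero, with `S : SlI L Y` for the plane `Y`: parities `0, 0, 1, 0` ([P4]; `L` acts trivially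
on lines). Ranks `(2, 2)`: `S : SlI L Y`; by [Pln] for `Z`: if `Par S.h 0 Z` then parities
`0, 0, 1, 0`: zero. Otherwise there is a non-zero invariant pairing of `Z` and `Y`; both places are
real, so [Iso] contradicts `Hom0`. Ranks `(1, 1)`: for fixed `z, w`, the components at `(σ, σ)` and
`(σ', σ')` are invariant alternating forms on a module of dimension three, zero by [Dua]; at
`(σ, σ')` one has `G(x, y, z, w) = k bp(x, y)` by [Dua], and at `(σ', σ)` the same `k` by `Al12` and
`bp_flip`; and `ψ(x, y) = 0` for `x, y` in the same `V_σ` (`psi_proj`). [Spl]. -/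
def St_N3D : Prop := ∀ (I : Type) [Fintype I] [DecidableEq I] (A : I → AbVar) (K : I → Type)
  [∀ i, Field (K i)] [∀ i, NumberField (K i)] (r : I → ℕ)
  (F : ∀ i, UF (pData (A i)) (K i) (r i)) (a c d : I)
  (G : (A a).H1 → (A a).H1 → (A c).H1 → (A d).H1 → ℂ), Gr4 (A a) (A a) (A c) (A d) G →
  Al12 G → (∀ i, 0 < r i) → r a = 3 → finrank ℚ (K a) = 2 → Cx (K a) → c ≠ d →
  (r c = 1 ∨ (r c = 2 ∧ Re (K c))) → (r d = 1 ∨ (r d = 2 ∧ Re (K d))) →
  (r c = 2 → r d = 2 → Hom0 (A c) (A d)) →
  ∀ (z : (A c).H1) (w : (A d).H1), ∃ k : ℂ, ∀ x y : (A a).H1, G x y z w = k * (pData (A a)).ψ x y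

/-- [N3S] two vectors in a factor of rank three over an imaginary quadratic field, two in one factor
of rank one or two with all endomorphisms in the field.
Proof. As [N3D]; `r c = 1`: the same. `r c = 2`: let `s3, s4` be places of `c`. If `s3 ≠ s4`, a non-zero
invariant pairing of the two planes contradicts [Iso] (`t = conjT s = s`), so the component is zero by
[Pln] and [P4]. If `s3 = s4`, `G(x, y, z, w) = β(x, y) ω(z, w)` with `ω = bp` at `s3`, as `G` is
alternating in `z, w`; `β` is invariant, alternating in `x, y` (`Al12`), so zero at `(σ, σ)` and a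
multiple of `bp` at `(σ, σ')` ([Dua]); the multiples at `(σ, σ')` and `(σ', σ)` agree. [Spl]. -/
def St_N3S : Prop := ∀ (I : Type) [Fintype I] [DecidableEq I] (A : I → AbVar) (K : I → Type)
  [∀ i, Field (K i)] [∀ i, NumberField (K i)] (r : I → ℕ)
  (F : ∀ i, UF (pData (A i)) (K i) (r i)) (a c : I)
  (G : (A a).H1 → (A a).H1 → (A c).H1 → (A c).H1 → ℂ), Gr4 (A a) (A a) (A c) (A c) G →
  Al12 G → Al34 G → (∀ i, 0 < r i) → r a = 3 → finrank ℚ (K a) = 2 → Cx (K a) →
  (r c = 1 ∨ (r c = 2 ∧ Re (K c) ∧ EndK (F c))) →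
  ∀ z w : (A c).H1, ∃ k : ℂ, ∀ x y : (A a).H1, G x y z w = k * (pData (A a)).ψ x y

/-- [N31] three vectors in the threefold, one in a factor of rank one or two.
Proof. `r a = 6`: the parities of a principal element are `1, 1, 1, 0` if `r c = 1`; if `r c = 2` use
`Helper8.P31_six`. `r a = 3`, `r c = 2`: `S : SlI L V_c`, parities `0, 0, 0, 1`. `r a = 3`, `r c = 1`:
suppose the component at `(σ_1, σ_2, σ_3, τ)` is not zero. Then `∑ χ_{σ_i} + χ_τ = 0`, and
`∑ χ_{σ_i} = m χ_σ` with `m ∈ {3, 1, -1, -3}`, for all symmetries. Let `τ2` be an embedding of `K c`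
(degree four) different from `τ` and its conjugate, `g` an automorphism of `ℂ` mapping `τ` to `τ2`
(`Helper84.exists_aut`); it maps `σ` to `σ` or its conjugate. By [Gal] `± m χ_σ + χ_{τ2} = 0`, so
`χ_{τ2} = ± χ_τ`, and [Sep] gives `τ2 ∈ {τ, conj τ}`: contradiction. -/
def St_N31 : Prop := ∀ (I : Type) [Fintype I] [DecidableEq I] (A : I → AbVar) (K : I → Type)
  [∀ i, Field (K i)] [∀ i, NumberField (K i)] (r : I → ℕ)
  (F : ∀ i, UF (pData (A i)) (K i) (r i)) (a c : I)
  (G : (A a).H1 → (A a).H1 → (A a).H1 → (A c).H1 → ℂ), Gr4 (A a) (A a) (A a) (A c) G →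
  Al12 G → Al23 G → (∀ i, 0 < r i) →
  ((r a = 6 ∧ finrank ℚ (K a) = 1) ∨ (r a = 3 ∧ finrank ℚ (K a) = 2 ∧ Cx (K a))) →
  (r c = 2 ∨ (r c = 1 ∧ finrank ℚ (K c) = 4 ∧ Cx (K c) ∧ EndK (F c))) →
  ∀ x y z w, G x y z w = 0

/-- [NG] a threefold and a generic surface.
Proof. By [SpU] `L` acts on `V_b` (all of `H_1(A b)`) through the whole of `sp`, by [Ful] every
`Y ∈ sp(V_b)` is given by an element of `L` acting trivially on `V_σ`, hence on `V_{conj σ}` (dual, `bp`),
for `σ` the places of `a`. First part: for fixed `x ∈ V_{σ_1}`, `y ∈ V_{σ_2}`, `G(x, y, ·, ·)` is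
`sp`-invariant, so `G(x, y, z, w) = β(x, y) ψ_b(z, w)` ([Sp]); `β` is bilinear (choose `z, w` with
`ψ_b(z, w) = 1`), `L`-invariant, alternating in `x, y`: zero at `(σ, σ)` if `r a = 3` ([Dua]), a multiple
of `bp` at `(σ, conj σ)`, the multiples at `(σ, σ')` and `(σ', σ)` agree; [Spl]. Second part:
`G(x, y, z, ·)` is `sp`-invariant, so it is zero ([Sp]). -/
def St_NG : Prop := ∀ (I : Type) [Fintype I] [DecidableEq I] (A : I → AbVar) (K : I → Type)
  [∀ i, Field (K i)] [∀ i, NumberField (K i)] (r : I → ℕ)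
  (F : ∀ i, UF (pData (A i)) (K i) (r i)) (a b : I), (∀ i, 0 < r i) →
  ((r a = 6 ∧ finrank ℚ (K a) = 1) ∨ (r a = 3 ∧ finrank ℚ (K a) = 2 ∧ Cx (K a))) →
  (A b).IsGenericSurface → finrank ℚ (K b) = 1 → r b = 4 →
  (∀ (G : (A a).H1 → (A a).H1 → (A b).H1 → (A b).H1 → ℂ), Gr4 (A a) (A a) (A b) (A b) G →
    Al12 G → ∀ z w : (A b).H1, ∃ k : ℂ, ∀ x y : (A a).H1, G x y z w = k * (pData (A a)).ψ x y) ∧
  (∀ (G : (A a).H1 → (A a).H1 → (A a).H1 → (A b).H1 → ℂ), Gr4 (A a) (A a) (A a) (A b) G →
    ∀ x y z w, G x y z w = 0)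

/-- [Com] two non-abelian quartic CM fields with the same closure, and a quadratic field: there is an
automorphism of `ℂ` which is complex conjugation on the embeddings of the first two fields and trivial
on the embeddings of the third one.
Proof. Automorphisms of `ℂ` permute the four embeddings `s, s', t, t'` of `K` (`τ ↦ τ ∘ s`) and commute
with conjugation (`K` is a CM field), so the group of these permutations is contained in a group of
order eight, whose commutators are trivial or equal to conjugation on all four embeddings (finite check: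
the permutations of `{±1, ±2}` commuting with the sign). As `K` is not abelian over `ℚ` there are
`τ, τ'` which do not commute on some embedding of `K` (`Helper8.T1.abelian_of_comm`, Closure.lean), so
`g = τ τ' τ⁻¹ τ'⁻¹` acts as conjugation on all embeddings of `K`. On the embeddings of `K'` it is
trivial or conjugation; if it is trivial then `g` fixes the closure of `K'` in `ℂ`, which is the
closure of `K`, so it is trivial on the embeddings of `K`: contradiction. The group of permutations of
the two embeddings of `E` is abelian. -/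
def St_Com : Prop := ∀ (K K' E : Type) [Field K] [NumberField K] [Field K'] [NumberField K']
  [Field E] [NumberField E], IsCMField K → IsCMField K' → finrank ℚ K = 4 → finrank ℚ K' = 4 →
  ¬ IsAbelianGalois ℚ K → ¬ IsAbelianGalois ℚ K' →
  IntermediateField.normalClosure ℚ K ℂ = IntermediateField.normalClosure ℚ K' ℂ →
  finrank ℚ E = 2 → ∃ g : ℂ ≃+* ℂ,
    (∀ s : K →+* ℂ, (g : ℂ →+* ℂ).comp s = ComplexEmbedding.conjugate s) ∧
    (∀ s : K' →+* ℂ, (g : ℂ →+* ℂ).comp s = ComplexEmbedding.conjugate s) ∧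
    ∀ s : E →+* ℂ, (g : ℂ →+* ℂ).comp s = s

/-- [N4] two CM surfaces with non-abelian fields with the same closure, and an elliptic curve.
Proof. `r e = 2`: `L` acts trivially on the first three spaces, a principal element with odd weights on
the plane: zero (`Helper8.odd1` or [P4]). `r e = 1`: suppose the component at `(σ_1, σ_2, τ, ε)` is not
zero; `χ_{σ_1} + χ_{σ_2} + χ_τ + χ_ε = 0` for all symmetries. By [Gal] with the automorphism of [Com]:
`-χ_{σ_1} - χ_{σ_2} - χ_τ + χ_ε = 0`. So `χ_ε = 0`, i.e. `ch ε = ch (conj ε)`, and [Sep] gives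
`ε = conj ε`: contradiction to `Cx (K e)`. -/
def St_N4 : Prop := ∀ (I : Type) [Fintype I] [DecidableEq I] (A : I → AbVar) (K : I → Type)
  [∀ i, Field (K i)] [∀ i, NumberField (K i)] (r : I → ℕ)
  (F : ∀ i, UF (pData (A i)) (K i) (r i)) (b c e : I)
  (G : (A b).H1 → (A b).H1 → (A c).H1 → (A e).H1 → ℂ), Gr4 (A b) (A b) (A c) (A e) G →
  (∀ i, 0 < r i) → r b = 1 → r c = 1 → IsCMField (K b) → IsCMField (K c) →
  finrank ℚ (K b) = 4 → finrank ℚ (K c) = 4 → ¬ IsAbelianGalois ℚ (K b) →
  ¬ IsAbelianGalois ℚ (K c) →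
  IntermediateField.normalClosure ℚ (K b) ℂ = IntermediateField.normalClosure ℚ (K c) ℂ →
  (r e = 2 ∨ (r e = 1 ∧ finrank ℚ (K e) = 2 ∧ Cx (K e) ∧ EndK (F e))) →
  ∀ x y z w, G x y z w = 0

end Pool.Agent.D5
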