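import Pool.Agent.D5.DefR
import Pool.Agent.D5.StN

/-!
# D5: statements for the reduction
-/

set_option autoImplicit false

namespace Pool.Agent.D5

open Module NumberField
open Pool.Agent.Helper7 Pool.Agent.GPC Pool.Agent.Helper39.AF
open Pool.Agent.Helper8 (ML2 ML4)

/-! ## Decompositions -/

/-- [Dec] orthogonal decompositions exist.
Proof: the proof of `Helper39.AF.exists_sdecomp` (Decomp.lean) with the additional property `orth`; at
the inductive step `X.pol (ι₁ u) (ι₂ v) = X.pol (e (ι₁ u)) (ι₂ v) = X.pol (ι₁ u) (e (ι₂ v)) = 0`. -/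
def St_Dec : Prop := ∀ X : AbVar, ∃ (J : Type) (_ : Fintype J) (B : J → AbVar)
  (ι : ∀ j, (B j).H1 → X.H1) (π : ∀ j, X.H1 → (B j).H1), SD X B ι π

/-- [Sub] the sum of some of the summands.
Proof: `e = ∑_{j ∈ S} ι_j π_j` is an endomorphism, idempotent (`off`, `πι`), symmetric (`orth`,
`sum`): `sub_abVar`. The dimension: `ι_Y` is a bijection of `H_1(Y)` with the image of `e`, which is
isomorphic to `⊕_{j ∈ S} H_1(B j)` (`finrank_H1`). -/
def St_Sub : Prop := ∀ (X : AbVar) (J : Type) [Fintype J] [DecidableEq J] (B : J → AbVar)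
  (ι : ∀ j, (B j).H1 → X.H1) (π : ∀ j, X.H1 → (B j).H1), SD X B ι π → ∀ S : Finset J,
  ∃ (Y : AbVar) (ιY : Y.H1 → X.H1) (πY : X.H1 → Y.H1), Y.IsMor X ιY ∧ X.IsMor Y πY ∧
    (∀ y, πY (ιY y) = y) ∧ Y.g = ∑ j ∈ S, (B j).g ∧
    (∀ j ∈ S, ∀ x, ιY (πY (ι j x)) = ι j x) ∧
    ∀ x, ιY (πY x) = ∑ j ∈ S, ι j (π j x)

/-- [PH] the patterns.
Proof. (1) Write `v_i = ∑_j ι_j (π_j v_i)` and expand (`MultilinearMap.map_sum`); `π_j` respects the
filtration; a finset of cardinality `> 2` of `Fin 4` contains all elements but (at most) one.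
(2) `AlternatingMap.map_perm`. (3) The definitions. (4) `π_Y` and `ι_Y` of [Sub] for the image `S` of
`s`: `dim Y ≤ 4`, the class `α ∘ ι_Y` is a Grothendieck class on `Y`, so it is in `F²` by the theorem for
dimension at most four (`AFT.main_dwy` gives divisorial plus Weil classes in `F²`; divisorial classes are
in `F^k`; see the corollary in Helper7/AFT or FilE.lean), and
`α(ι_{s i} v_i) = (α ∘ ι_Y)(π_Y ι_{s i} v_i)`. (5) The morphisms respect the structures. -/
def St_PH : Prop := ∀ (X : AbVar) (J : Type) [Fintype J] [DecidableEq J] (B : J → AbVar)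
  (ι : ∀ j, (B j).H1 → X.H1) (π : ∀ j, X.H1 → (B j).H1), SD X B ι π →
  ∀ α : X.Class (2 * 2), X.IsGrothendieckClass 2 α →
  ((∀ s, PHo ι α s) → X.IsInFil 2 α) ∧
  (∀ (s : Fin (2 * 2) → J) (σ : Equiv.Perm (Fin (2 * 2))), PHo ι α (s ∘ σ) → PHo ι α s) ∧
  (∀ j0 j1 j2 j3, Ho4 (B j0) (B j1) (B j2) (B j3) (pat ι α j0 j1 j2 j3) →
    PHo ι α ![j0, j1, j2, j3]) ∧
  (∀ s : Fin (2 * 2) → J, ∑ j ∈ Finset.univ.image s, (B j).g ≤ 4 → PHo ι α s) ∧
  (∀ j0 j1 j2 j3, Gr4 (B j0) (B j1) (B j2) (B j3) (pat ι α j0 j1 j2 j3))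

/-! ## Classes of degree two, and easy components -/

/-- [K1] Proof. There is a unique linear map `f : H_1(A) → H_1(B)` with `ψ_B(f x, y) = g(x, y)`
(`hψnd`); it respects the rational structures (for `x` rational, `ψ_B(f x, y) ∈ 2πi ℚ` for all rational
`y`; the dual basis) and the de Rham structures (in the same way), so it is a homomorphism
(`isDRB_iff`, `hom_fil`) and maps the Hodge filtration to the Hodge filtration, which is isotropic for
`ψ_B`. (See also `bilin_of_inv`, and the proofs for `k = 1` in Helper7.) Second part: apply the first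
to `A = B = X`, `g = α`. -/
def St_K1 : Prop := (∀ (A B : AbVar) (g : A.H1 → B.H1 → ℂ), Gr2 A B g →
    ∀ x y, A.IsFil x → B.IsFil y → g x y = 0) ∧
  ∀ (X : AbVar) (α : X.Class (2 * 1)), X.IsGrothendieckClass 1 α → X.IsInFil 1 α

/-- [HoK] Proof. Choose rational `x0, y0` with `ψ(x0, y0) ≠ 0` and `γ(z, w) = G(x0, y0, z, w) / ψ(x0, y0)`;
by hypothesis `G(x, y, z, w) = ψ(x, y) γ(z, w)` for all `x, y` (if `H_1(A) = 0` all is trivial); `γ` is
bilinear, has values in `2πi ℚ` on rational vectors; computed with algebraic `x1, y1` it has algebraic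
values on algebraic vectors: `Gr2 Y Z γ`. By [K1] `γ(z, w) = 0` for `z, w` in the filtration; and
`ψ(x, y) = 0` for `x, y` in the filtration. -/
def St_HoK : Prop := ∀ (A Y Z : AbVar) (G : A.H1 → A.H1 → Y.H1 → Z.H1 → ℂ), Gr4 A A Y Z G →
  (∀ z w, ∃ k : ℂ, ∀ x y, G x y z w = k * (pData A).ψ x y) → Ho4 A A Y Z G

/-- [Eas] Proof. First part: `E.g = 1`, `H_1(E)` is a plane, so `G(x, y, z, w) = β(x, y) ψ_E(z, w)`; as in
[HoK] `β` is `Gr2 A B β`; [K1]. Second part: alternating in three variables of a plane. Third part: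
`B.g = 2`, `H_1(B)` is of dimension four with the form `ψ`. Every function `G(x; y, z, w)` alternating in
`y, z, w` is `ψ(y, z) β(x, w) + ψ(z, w) β(x, y) + ψ(w, y) β(x, z)` where `β(x, w)` is the contraction
`½ ∑_i G(x; b_i, b_i^*, w)` (`b_i, b_i^*` dual bases for `ψ`; check on a symplectic basis: the alternating
trilinear forms are of dimension four); `β` is `Gr2 A B β` up to the factor (rational dual bases with
respect to `ψ / 2πi`; algebraic dual bases), so `β = 0` on the filtrations by [K1], and `ψ = 0` on the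
filtration of `B`: `Ho4`. -/
def St_Eas : Prop :=
  (∀ (A B E : AbVar) (G : A.H1 → B.H1 → E.H1 → E.H1 → ℂ), E.g = 1 → Gr4 A B E E G → Al34 G →
    Ho4 A B E E G) ∧
  (∀ (A E : AbVar) (G : A.H1 → E.H1 → E.H1 → E.H1 → ℂ), E.g = 1 → Gr4 A E E E G → Al23 G → Al34 G →
    Ho4 A E E E G) ∧
  (∀ (A B : AbVar) (G : A.H1 → B.H1 → B.H1 → B.H1 → ℂ), B.g = 2 → Gr4 A B B B G → Al23 G →
    Al34 G → Ho4 A B B B G)

/-- [Star] duality between the degrees `2k` and `2(g - k)`.
Proof. Let `g = X.g`, `V = H_1(X)`, of dimension `2g`, `m = 2 (g - k)`. For `u_1, …, u_m ∈ V` put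
`β(u_1, …, u_m) = (∑_{σ ∈ S_{2g}} sgn(σ) α(e_{σ(1)}, …, e_{σ(2k)}) ∏_{j ≤ m} ψ(u_j, e_{σ(2k + j)})) /
(∑_{σ ∈ S_{2g}} sgn(σ) ∏_{j ≤ g} ψ(e_{σ(2j-1)}, e_{σ(2j)}))` for a basis `e_1, …, e_{2g}` of `V`; numerator
and denominator are alternating in the `e_i`, so the quotient does not depend on the basis; the
denominator is `2^g g! Pf ≠ 0`. `β` is alternating. With a rational basis: the numerator is in
`(2πi)^{k + m} ℚ` for rational `u`, the denominator in `(2πi)^g ℚ`, so `β ∈ (2πi)^{g-k} ℚ` (`k + m - g =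
g - k`); with an algebraic basis `β` is algebraic on algebraic vectors. So `β` is in `F^{g-k}`. Let
`e_1, …, e_g` be a basis of the filtration `F` (dimension `g`, isotropic), `e_{g+1}, …, e_{2g}` with
`ψ(e_i, e_{g+j}) = δ_ij` and `ψ(e_{g+i}, e_{g+j}) = 0`. `α` is in `F^k` if and only if `α(e_T) = 0` for all
sets `T` of `2k` basis vectors more than `k` of which are in `F`. Let `T` be such a set, `T^c` the
complement: fewer than `g - k` elements of `T^c` are in `F`, so more than `g - k` are among the
`e_{g+j}`. Let `u_1, …, u_m` be the vectors with `ψ(u_j, ·)` the coordinate of the `j`-th element of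
`T^c` (`± e_{i ± g}`): more than `g - k` of them are in `F`. Then `β(u) = 0`, but the numerator is
`± (2k)! m! … α(e_T)` (only the `σ` with `σ(2k + j) =` the `j`-th element of `T^c` contribute). So
`α(e_T) = 0`. (One may use any other proof: the statement is the compatibility of the Poincare duality
`⋀^{2k} V^* ≅ ⋀^{m} V ⊗ det V^*` with the three structures.) Also for `k > g`: `α = 0`, not needed here
(`2k > 2g`: second part). -/
def St_Star : Prop := ∀ (X : AbVar) (k : ℕ),
  (k ≤ X.g → (∀ β : X.Class (2 * (X.g - k)), X.IsGrothendieckClass (X.g - k) β →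
      X.IsInFil (X.g - k) β) →
    ∀ α : X.Class (2 * k), X.IsGrothendieckClass k α → X.IsInFil k α) ∧
  (X.g < k → ∀ α : X.Class (2 * k), X.IsInFil k α)

/-! ## Types -/

/-- [Typ] Proof. `simple_cases` (Helper71/AF/Cases.lean). Real type `K` (totally real, `RealMult`): a `UF`
with `cc = id` as in `nonempty_UF2` (PMain.lean) with `[K : ℚ] r = 2g` (`exists_rank`, `exists_Kbasis`);
`r` is even (the places are symplectic: `even_of_symp`; for the form `ψ` on `proj ρ σ`), so
`g = [K : ℚ] (r/2)`. If `r = 2`: `IsRMType`. `g = 2`, `[K : ℚ] = 1`: all endomorphisms are rational scalars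
(`centralizer`; `K = ℚ`), and a generic surface (`deRham_of_hodge`: endomorphisms of the Hodge
structure respect the de Rham structure, as in `herm_mixed_of` in AF/Assembly.lean). `g = 3`:
`[K : ℚ] = 1, r = 6`. `g = 4`: `[K : ℚ] = 1, r = 8` or `[K : ℚ] = 2, r = 4`. `g = 5`: `[K : ℚ] = 1`: scalar
endomorphisms. Hermitian type `K` (CM, `IsHermMult`): `[K : ℚ] r = 2g` (`herm_rank`), `[K : ℚ]` even
(`cm_even`), a `UF` with `cc = cmConj` (`hcen` from `centralizer`). `r = 1`: `IsCMType`
(`cmType_of_herm`). `g = 2, r = 2`: impossible (`not_mixed_quad`, `herm_mixed_of` as in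
AF/Assembly.lean). `g = 3`: `[K : ℚ] = 2, r = 3` (`quadEnd_of_herm`, `quad_gen`); `g = 4`: `(2, 4)`,
`(4, 2)`; `g = 5`: `(2, 5)`: `IsQuadEnd`. Quaternionic type (`IsQuatMult`): `quat_rank`:
`[K : ℚ] m = g`, `m ≠ 1`, `[K : ℚ]` even: `g = 4`, `[K : ℚ] = 2`, `r = 4`, a `UF` with `cc = cmConj`: an
endomorphism commuting with all of `K` is in `K` (`f = ρ x + ρ y j` by `centralizer`, and
`ρ y (ρ z - ρ (cmConj z)) j = 0` for `z` with `cmConj z ≠ z`). -/
def St_Typ : Prop := ∀ A : AbVar, A.IsSimple → A.g ≠ 0 → A.g ≤ 5 → Typ A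

/-- [Sma] simple factors of dimension one and two, with `UF`'s.
Proof. From `St_Typ`-like arguments: `g = 1`: real type (`[K : ℚ] = 1`, `r = 2`; all endomorphisms
commute with `ℚ`, so they are in `K`: `EndK`), or CM type. `g = 2`: CM type; real type with
`[K : ℚ] = 2, r = 2`: if all endomorphisms commute with each other then they commute with `K` and `EndK`
holds (`hcen`); otherwise `IsQuatSurface`: a central `f` commutes with `K`, so `f = ρ x`; if `x ∉ ℚ` then
`K = ℚ(x)` is central and all endomorphisms are in `K` (`hcen`), commutative: contradiction; or the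
generic surfaces. `nonempty_UF1`, `nonempty_UF2` (PMain.lean). -/
def St_Sma : Prop := ∀ Y : AbVar, Y.IsSimple → (Y.g = 1 ∨ Y.g = 2) → Small Y

/-- [Qua] the square of an elliptic curve without complex multiplication.
Proof. [Sub] for `S = {j, k}` gives `Y, ι_Y, π_Y`, `dim Y = 2`. Let `θ : B j → B k` be an isogeny
(`IsMor`, bijective) and `θ' : B k → B j` its inverse (`exists_inv_mor`). Endomorphisms of `Y`:
`p = π_Y ι_j π_j ι_Y` (idempotent), `q = π_Y ι_k θ π_j ι_Y`, `q' = π_Y ι_j θ' π_k ι_Y`; `p q ≠ q p`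
(`q p = q`, `p q = 0`). If `f` is central, `π_j ι_Y f π_Y ι_j` is an endomorphism of `B j`, a rational
scalar `c`; `f` commutes with `p`, so `f` maps the image of `ι_j` to itself, acts on it by `c`, and by
`f q = q f` it acts by `c` on the image of `ι_k`. The injective map is `ι_Y`. -/
def St_Qua : Prop := ∀ (X : AbVar) (J : Type) [Fintype J] [DecidableEq J] (B : J → AbVar)
  (ι : ∀ j, (B j).H1 → X.H1) (π : ∀ j, X.H1 → (B j).H1), SD X B ι π → ∀ j k : J, j ≠ k →
  (B j).g = 1 → (B k).g = 1 → (∀ f, (B j).IsEnd f → ∃ q : ℚ, ∀ v, f v = (q : ℂ) • v) →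
  Isog (B j) (B k) →
  ∃ (Y : AbVar) (f : Y.H1 → X.H1), Y.IsMor X f ∧ Function.Injective f ∧ Y.IsQuatSurface

/-- the exceptional pairs of quartic CM fields -/
def BadPair (K K' : Type) [Field K] [NumberField K] [Field K'] [NumberField K'] : Prop :=
  finrank ℚ K = 4 ∧ finrank ℚ K' = 4 ∧ ¬ IsAbelianGalois ℚ K ∧ ¬ IsAbelianGalois ℚ K' ∧
    IntermediateField.normalClosure ℚ K ℂ = IntermediateField.normalClosure ℚ K' ℂ

/-- [Clo] CM fields of degree four and six have different closures.
Proof. There is an automorphism `g` of `ℂ` whose permutation of the six embeddings of `K` (degree `6`)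
has order divisible by three (the group of the permutations of the embeddings by the automorphisms of
`ℂ` is transitive; see `exists_order` in Helper8/T1/TriP.lean; or: the Galois group of the closure is
finite, transitive on six elements, Cauchy). The permutation of the four embeddings of `K'` commutes
with conjugation, so its order divides `4` (a permutation of two pairs): `g^4` is trivial on the
embeddings of `K'`, so it fixes the closure of `K'`; if this is the closure of `K`, `g^4` is trivial on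
the embeddings of `K`: contradiction. -/
def St_Clo : Prop := ∀ (K K' : Type) [Field K] [NumberField K] [Field K'] [NumberField K'],
  IsCMField K → IsCMField K' → finrank ℚ K = 6 → finrank ℚ K' = 4 →
  IntermediateField.normalClosure ℚ K ℂ ≠ IntermediateField.normalClosure ℚ K' ℂ

/-- [M8] the known classes.
Proof: as `Helper7.CM8.main_8` (CM8/Main.lean) for the decomposition given by the slots: group isogenous
slots as in `exists_decomp` (Helper39/AF/Decomp.lean: the same proof gives the decomposition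
`Φ : X → ∏ A_i^{n_i}` with every `A_i` one of the `B j`), `S` = RM type, `T` = CM type, `G = U` = generic
surfaces (`thm_Gen`); `CondG` holds (`mult`, `link` are empty as `U = G`); `hodge_T8` with:
`IsGoodCM (K i) ∨ finrank = 8`: the degree of a CM field of a factor is `2 (A i).g` with
`(A i).g ≤ 5`; `2`: quadratic fields are abelian (`IsGalois`, group of order two), or
`IsAlmostIrreducible` (odd functions on two embeddings: dimension at most one); `4, 6, 10`: primes
`2, 3, 5`; `8`. `CMPair`: one of the fields is quadratic; or the degrees are `(4, 4)`, `(6, 4)`,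
`(4, 6)` (as the sum of the dimensions is at most five): both good; if both are not abelian the
closures are different by `¬ BadPair` and by [Clo]. -/
def St_M8 : Prop := ∀ (X : AbVar) (J : Type) [Fintype J] (B : J → AbVar)
  (ι : ∀ j, (B j).H1 → X.H1) (π : ∀ j, X.H1 → (B j).H1), SD X B ι π → X.g ≤ 5 →
  (∀ j, (∃ (K : Type) (_ : Field K) (_ : NumberField K), IsRMType (B j) K) ∨
    (∃ (K : Type) (_ : Field K) (_ : NumberField K), IsCMType (B j) K) ∨
    (B j).IsGenericSurface) →
  (∀ j k, Hom0 (B j) (B k) → ∀ (K K' : Type) [Field K] [NumberField K] [Field K'] [NumberField K'],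
    IsCMType (B j) K → IsCMType (B k) K' → ¬ BadPair K K') →
  ∀ (k : ℕ) (α : X.Class (2 * k)), X.IsGrothendieckClass k α → X.IsInFil k α

/-! ## The new components, for abelian varieties -/

/-- [C4] a simple fourfold of one of the new types and an elliptic curve: the component
`H^3(A) ⊗ H^1(E)`. Proof: the family `A, E` (index set `Fin 2` or `Bool`), [Fr]; [Sma] for `E`; the
types of `A` in `Typ`; [N1E] if `E` has CM, else [N1O], [N1Q], [N1P] (`Hom0` as `A` is simple of
dimension four and `E` simple of dimension one: `bijective_of_simple` and `finrank_H1`). -/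
def St_C4 : Prop := ∀ (A E : AbVar), A.IsSimple → E.IsSimple → A.g = 4 → E.g = 1 →
  (∃ (K : Type) (_ : Field K) (_ : NumberField K),
    (Nonempty (UF (pData A) K 8) ∧ finrank ℚ K = 1) ∨
    (Nonempty (UF (pData A) K 4) ∧ finrank ℚ K = 2 ∧ (Re K ∨ Cx K)) ∨
    (Nonempty (UF (pData A) K 2) ∧ finrank ℚ K = 4 ∧ Cx K)) →
  ∀ G : A.H1 → A.H1 → A.H1 → E.H1 → ℂ, Gr4 A A A E G → Al12 G → Al23 G → Ho4 A A A E G

/-- [C3] a simple threefold of one of the new types, and two elliptic curves or a simple surface.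
Proof: families `A, Y, Z` and `A, B`; [Sma]; [N6], [N3D], [N3S], [NG], [N31]; [HoK]. In the case of two
elliptic curves `Y, Z` of rank two and `r = 3`: not isogenous by hypothesis, so `Hom0`
(`bijective_of_simple`). -/
def St_C3 : Prop := ∀ A : AbVar, A.IsSimple → A.g = 3 → ∀ (K : Type) [Field K] [NumberField K],
  ((Nonempty (UF (pData A) K 6) ∧ finrank ℚ K = 1) ∨
    (Nonempty (UF (pData A) K 3) ∧ finrank ℚ K = 2 ∧ Cx K)) →
  (∀ Y Z : AbVar, Y.IsSimple → Z.IsSimple → Y.g = 1 → Z.g = 1 →
    (Nonempty (UF (pData A) K 3) → Isog Y Z →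
      ∃ (K' : Type) (_ : Field K') (_ : NumberField K'), IsCMType Y K') →
    ∀ G : A.H1 → A.H1 → Y.H1 → Z.H1 → ℂ, Gr4 A A Y Z G → Al12 G → Ho4 A A Y Z G) ∧
  (∀ B : AbVar, B.IsSimple → B.g = 2 → (Nonempty (UF (pData A) K 3) → ¬ B.IsQuatSurface) →
    (∀ G : A.H1 → A.H1 → B.H1 → B.H1 → ℂ, Gr4 A A B B G → Al12 G → Al34 G → Ho4 A A B B G) ∧
    (∀ G : A.H1 → A.H1 → A.H1 → B.H1 → ℂ, Gr4 A A A B G → Al12 G → Al23 G → Ho4 A A A B G))

/-- [C2] two CM surfaces with an exceptional pair of fields and an elliptic curve: [N4], [Sma],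
[En1]. -/
def St_C2 : Prop := ∀ (B C E : AbVar) (K K' : Type) [Field K] [NumberField K] [Field K']
  [NumberField K'], B.IsSimple → C.IsSimple → E.IsSimple → E.g = 1 → IsCMType B K →
  IsCMType C K' → BadPair K K' →
  ∀ G : B.H1 → B.H1 → C.H1 → E.H1 → ℂ, Gr4 B B C E G → Ho4 B B C E G

/-- [Sim] simple fivefolds. Proof: `Typ`: RM, CM: [M8] with one slot; not a generic surface; `End`
scalar: excluded; `IsQuadEnd`: by `hE` some eigenspace of `J` in `F^0` has dimension one, so
`BSM.All.FinS_` (see Results/.../BallSimple.lean) with `m = 1` gives that the class is divisorial, hence in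
`F^k` (transport between `Form (fun _ : Unit => A) (fun _ => 1)` and `Class`; see how BTL or other files
do this; AFT/FilE.lean: divisorial classes are in `F^k`). -/
def St_Sim : Prop := ∀ X : AbVar, X.g = 5 → X.IsSimple → ¬ X.IsExcFive →
  ∀ (k : ℕ) (α : X.Class (2 * k)), X.IsGrothendieckClass k α → X.IsInFil k α

/-- [NS] non-simple fivefolds in degree four.
Proof. [Dec]: slots `B j`, `j ∈ J`, at least two, dimensions `g_j ≥ 1` of sum five; [Typ] for each. If all
slots are of RM type, CM type or generic surfaces and there is no bad pair: [M8]. Otherwise use [PH]: it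
is enough to show `PHo ι α s` for all `s`; if the image of `s` is not all of `J` the sum of the
dimensions is at most four: [PH](4). So `s` is surjective, and `J` has at most four elements.
* A slot `a` of dimension four (new type): `J = {a, e}`, and up to permutation ([PH](2)) `s` is
  `(a, a, a, e)`: [C4]; `(a, a, e, e)`, `(a, e, e, e)`: [Eas].
* A slot `a` of dimension three (new type: ranks six or three): `J = {a, y, z}` with `g = 1, 1`, or
  `J = {a, b}` with `g_b = 2`. `(a, a, y, z)`: [C3]; if the rank is three, `Y, Z` isogenous and not CM, then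
  [Qua] and the slot `a` (`IsQuadEnd` from `Typ`) give the exception (iii); `(a, y, z, z)`,
  `(a, z, y, y)`: [Eas] after a permutation. `(a, a, b, b)`, `(a, a, a, b)`: [C3] (`b` is not a quaternion
  surface if the rank is three, by the exception (iii)); `(a, b, b, b)`: [Eas].
* No such slot, so there is a bad pair: `J = {b, c, e}` with dimensions `2, 2, 1`: `(b, b, c, e)`,
  `(c, c, b, e)`: [C2]; `(b, c, e, e)`: [Eas].
(The new types in dimension three and four are those of `Typ` which are not RM, CM.) -/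
def St_NS : Prop := ∀ X : AbVar, X.g = 5 → ¬ X.IsSimple → ¬ X.IsExcFive →
  ∀ α : X.Class (2 * 2), X.IsGrothendieckClass 2 α → X.IsInFil 2 α

end Pool.Agent.D5
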