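import Pool.Agent.D5.DefU
import Pool.Agent.D5.StL

/-!
# D5: statements on families of factors

Known tools: `Pool/Agent/Helper24/PT` (UFam: `LL, Vs, ch, elL, elL_act, Vs_irr, trace_Vs, finrank_Vs,
LL_trivialRadical, perfect_lift, toVs, ofVs, dd`; URel: `ch_conj, ch_rat, relS_odd`; UPair: `bp,
bp_pair, bp_symp, toVs_act, psi_proj, no_link`), `Helper7` (Descent: `IsRatl, mem_span_of_isInv`;
Conseq: `bilin_of_inv, algebraic_of_stable, stable_of_rat`; Irred: `isCompl_of_nondeg`; RF: `HNd`;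
Bridge2, Bridge3: `pData, mem_pData_Q, hnd_pData, isDRB_iff, isEnd_of_isDRB`).
-/

set_option autoImplicit false

namespace Pool.Agent.D5

open Module NumberField LieAlgebra
open Pool.Agent.Helper7 Pool.Agent.GPC Pool.Agent.Helper24
open Pool.Agent.Helper8 (ML2 ML4 Inv2 Inv4 Symp Principal)

attribute [local instance 100] LieRing.ofAssociativeRing

/-- the properties of the Lie algebra of a function of four vectors -/
structure FrD {I : Type} [Fintype I] [DecidableEq I] (A : I → AbVar)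
    {K : I → Type} [∀ i, Field (K i)] [∀ i, NumberField (K i)] {r : I → ℕ}
    (F : ∀ i, UF (pData (A i)) (K i) (r i)) {a b c d : I}
    {G : (A a).H1 → (A b).H1 → (A c).H1 → (A d).H1 → ℂ}
    (hG : Gr4 (A a) (A b) (A c) (A d) G) : Prop where
  hB : ∀ v : Fin (2 * 2) → HW (kap A) (n1 I), (∀ r, IsRatP (n1 I) (PA A) (v r)) →
    ∃ q : ℚ, aG A a b c d G hG.ml v = (2 * Real.pi * Complex.I) ^ 2 * q
  hA : ∀ v : Fin (2 * 2) → HW (kap A) (n1 I), (∀ r i m j, IsAlgebraic ℚ (v r i m j)) →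
    IsAlgebraic ℚ (aG A a b c d G hG.ml v)
  kill : IsKilling ℂ (LG A F hG.ml)
  irr : ∀ s, LieModule.IsIrreducible ℂ (LG A F hG.ml) (VG A F hG.ml s)
  rank : ∀ s, finrank ℂ (VG A F hG.ml s) = r s.1
  tr : ∀ s, Tr0 (LG A F hG.ml) (VG A F hG.ml s)
  triv : ∀ s, r s.1 = 1 → ∀ (x : LG A F hG.ml) (v : VG A F hG.ml s), ⁅x, v⁆ = 0
  ml : ∀ s1 s2 s3 s4, ML4 (cG A F hG.ml s1 s2 s3 s4)
  inv : ∀ s1 s2 s3 s4, Inv4 (LG A F hG.ml) (cG A F hG.ml s1 s2 s3 s4)
  wt : ∀ s1 s2 s3 s4, (∃ x y z w, cG A F hG.ml s1 s2 s3 s4 x y z w ≠ 0) →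
    ∀ X, IsInv (n1 I) (PA A) (aG A a b c d G hG.ml) X →
      ch (PA A) F ⟨a, s1⟩ X + ch (PA A) F ⟨b, s2⟩ X + ch (PA A) F ⟨c, s3⟩ X +
        ch (PA A) F ⟨d, s4⟩ X = 2 * X.2
  zero : (∀ s1 s2 s3 s4 x y z w, cG A F hG.ml s1 s2 s3 s4 x y z w = 0) →
    ∀ x y z w, G x y z w = 0

/-- [Fr] the properties of the Lie algebra of a function of four vectors.
Proof. `hB, hA`: from `Gr4` (a vector `v` of `HW` with algebraic coordinates has `v a 0` de Rham, the
same for Betti: `mem_pData_Q`). `kill`: `LL_trivialRadical` and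
`LieAlgebra.HasTrivialRadical.instIsKilling`. `irr`: `Vs_irr`, `rank`: `finrank_Vs`, `tr`: `trace_Vs`.
`triv`: on a line the action is by a scalar, which is its trace. `ml`: clear. `inv`: write the element
of `L` as `elL X` with `X.2 = 0` and all `ch s X = 0` (`perfect_lift`), then `⁅elL X, v⁆` has the
component `X.1 i (v i)` (`elL_act`), and `hX.form` evaluated at the four vectors `Pi.single …` gives
`∑ = (2 · X.2) G = 0` (the vectors: `v 0 = slot a`, … with the value `x a` in the place `a` and zero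
elsewhere). `wt`: for a symmetry `X` (`IsInv`), `hX.form` on the four vectors gives
`∑ G(…, X.1 v_i, …) = 2 X.2 G(…)`, and `X.1 v_i = ⁅elL X, v_i⁆ + ch s_i X • v_i`; the first parts sum
to zero by `inv`. `zero`: every vector is the sum of its projections `proj ρ σ v = ofVs (toVs v)`
(`sum_proj_apply`), linearity. -/
def St_Fr : Prop := ∀ (I : Type) [Fintype I] [DecidableEq I] (A : I → AbVar) (K : I → Type)
  [∀ i, Field (K i)] [∀ i, NumberField (K i)] (r : I → ℕ)
  (F : ∀ i, UF (pData (A i)) (K i) (r i)) (a b c d : I)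
  (G : (A a).H1 → (A b).H1 → (A c).H1 → (A d).H1 → ℂ) (hG : Gr4 (A a) (A b) (A c) (A d) G),
  (∀ i, 0 < r i) → FrD A F hG

/-- [Spl] a function which is on the components a multiple of the polarisation in the first two
variables. Proof. By linearity in `z` and `w` one may assume that `z` and `w` are in the eigenspaces
(`sum_proj_apply`; the constants add up: `G(x, y, ∑ z_i, ∑ w_j) = (∑ k_ij) ψ(x, y)`); then by
linearity in `x` and `y`. -/
def St_Spl : Prop := ∀ (I : Type) [Fintype I] [DecidableEq I] (A : I → AbVar) (K : I → Type)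
  [∀ i, Field (K i)] [∀ i, NumberField (K i)] (r : I → ℕ)
  (F : ∀ i, UF (pData (A i)) (K i) (r i)) (a c d : I)
  (G : (A a).H1 → (A a).H1 → (A c).H1 → (A d).H1 → ℂ) (hG : Gr4 (A a) (A a) (A c) (A d) G),
  (∀ (s3 : K c →+* ℂ) (s4 : K d →+* ℂ) (z : VG A F hG.ml ⟨c, s3⟩) (w : VG A F hG.ml ⟨d, s4⟩),
    ∃ k : ℂ, ∀ (s1 s2 : K a →+* ℂ) (x : VG A F hG.ml ⟨a, s1⟩) (y : VG A F hG.ml ⟨a, s2⟩),
      cG A F hG.ml s1 s2 s3 s4 x y z w =
        k * (pData (A a)).ψ ((x : MM (kap A)) a) ((y : MM (kap A)) a)) →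
  ∀ (z : (A c).H1) (w : (A d).H1), ∃ k : ℂ, ∀ x y : (A a).H1, G x y z w = k * (pData (A a)).ψ x y

section general

/-- [Iso] an invariant pairing of two places with the weight of the polarisation comes from a
homomorphism. Proof: as in `no_link` (UPair.lean), without the reality of the places: `bilin_of_inv`
applied to `f(toVs s u, toVs t v)` gives `f(x, y) = ∑ c_l ψ(g_l x, y)` with `g_l` de Rham-Betti
morphisms. If `s.1 ≠ t.1` all `g_l = 0`. If `s.1 = t.1` then `g_l = ρ(x_l)`, and `ψ(ρ(x_l) x, y) = 0`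
for `x` in the eigenspace `s.2`, `y` in the eigenspace `t.2`, unless `t.2` is the conjugate of `s.2`
(`psi_proj`). -/
def St_Iso : Prop := ∀ (I : Type) [Fintype I] [DecidableEq I] (n : I → ℕ) (κ : I → Type)
  [∀ i, Fintype (κ i)] [∀ i, DecidableEq (κ i)] (ϖ : ℂ) (P : ∀ i, PData (κ i) ϖ)
  (K : I → Type) [∀ i, Field (K i)] [∀ i, NumberField (K i)] (r : I → ℕ)
  (F : ∀ i, UF (P i) (K i) (r i)) (k : ℕ)
  (α : MultilinearMap ℂ (fun _ : Fin (2 * k) => HW κ n) ℂ), ϖ ≠ 0 →
  (∀ v : Fin (2 * k) → HW κ n, (∀ r, IsRatP n P (v r)) → ∃ q : ℚ, α v = ϖ ^ k * q) →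
  (∀ v : Fin (2 * k) → HW κ n, (∀ r i m j, IsAlgebraic ℚ (v r i m j)) → IsAlgebraic ℚ (α v)) →
  (∀ i, 0 < r i) → ∀ s t : Emb K,
  (s.1 ≠ t.1 → ∀ f, IsDRB (P s.1) (P t.1) f → ∀ v, f v = 0) →
  (s.1 = t.1 → ∀ f, IsDRB (P s.1) (P s.1) f → ∃ x, ∀ v, f v = (F s.1).ρ x v) →
  ∀ f : Vs n P F α s → Vs n P F α t → ℂ, ML2 f → Inv2 (LL n P F α) f →
  (∀ X, IsInv n P α X → ch P F s X + ch P F t X = X.2) → (∃ x y, f x y ≠ 0) → t = conjT s

/-- [Sep] different places of rank one have different weights.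
Proof: apply [Iso] to `s`, `conjT t` and any non-zero bilinear function of the two lines, which is
invariant as the Lie algebra acts trivially on lines (trace zero); `ch (conjT t) = X.2 - ch t`
(`ch_conj`). The conclusion is `conjT t = conjT s`. -/
def St_Sep : Prop := ∀ (I : Type) [Fintype I] [DecidableEq I] (n : I → ℕ) (κ : I → Type)
  [∀ i, Fintype (κ i)] [∀ i, DecidableEq (κ i)] (ϖ : ℂ) (P : ∀ i, PData (κ i) ϖ)
  (K : I → Type) [∀ i, Field (K i)] [∀ i, NumberField (K i)] (r : I → ℕ)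
  (F : ∀ i, UF (P i) (K i) (r i)) (k : ℕ)
  (α : MultilinearMap ℂ (fun _ : Fin (2 * k) => HW κ n) ℂ), ϖ ≠ 0 →
  (∀ v : Fin (2 * k) → HW κ n, (∀ r, IsRatP n P (v r)) → ∃ q : ℚ, α v = ϖ ^ k * q) →
  (∀ v : Fin (2 * k) → HW κ n, (∀ r i m j, IsAlgebraic ℚ (v r i m j)) → IsAlgebraic ℚ (α v)) →
  (∀ i, 0 < r i) → ∀ s t : Emb K, r s.1 = 1 → r t.1 = 1 →
  (s.1 ≠ t.1 → ∀ f, IsDRB (P s.1) (P t.1) f → ∀ v, f v = 0) →
  (s.1 = t.1 → ∀ f, IsDRB (P s.1) (P s.1) f → ∃ x, ∀ v, f v = (F s.1).ρ x v) →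
  (∀ X, IsInv n P α X → ch P F s X = ch P F t X) → s = t

/-- [Gal] rational linear relations between the weights are stable under the automorphisms of `ℂ`.
Proof: the relation holds for all symmetries if it holds for the rational ones (`mem_span_of_isInv`;
`ch` and `X.2` are linear). For rational `X`, `ch ⟨i, σ⟩ X = σ(x_i)` (`ch_rat`) and `X.2 ∈ ℚ`: apply
`τ`. -/
def St_Gal : Prop := ∀ (I : Type) [Fintype I] [DecidableEq I] (n : I → ℕ) (κ : I → Type)
  [∀ i, Fintype (κ i)] [∀ i, DecidableEq (κ i)] (ϖ : ℂ) (P : ∀ i, PData (κ i) ϖ)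
  (K : I → Type) [∀ i, Field (K i)] [∀ i, NumberField (K i)] (r : I → ℕ)
  (F : ∀ i, UF (P i) (K i) (r i)) (k : ℕ)
  (α : MultilinearMap ℂ (fun _ : Fin (2 * k) => HW κ n) ℂ), ϖ ≠ 0 →
  (∀ v : Fin (2 * k) → HW κ n, (∀ r, IsRatP n P (v r)) → ∃ q : ℚ, α v = ϖ ^ k * q) →
  ∀ (m : ℕ) (t : Fin m → Emb K) (q : Fin m → ℚ) (c : ℚ),
  (∀ X, IsInv n P α X → ∑ j, (q j : ℂ) * ch P F (t j) X = c * X.2) →
  ∀ (τ : ℂ ≃+* ℂ) (X : GG κ), IsInv n P α X →
    ∑ j, (q j : ℂ) * ch P F (actT τ (t j)) X = c * X.2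

/-- [Irr] a simple factor has no rational subspaces stable under the symmetries.
Proof. `algebraic_of_stable` shows that `span_ℂ U` is spanned by algebraic vectors; `hnd_pData` that
the polarisation is non-degenerate on `U`; `isCompl_of_nondeg` gives the orthogonal complement `U'` in
`Q`, which is stable as well (by `hX.pol`), so that the projection `e` to `U` along `U'`, extended
linearly to `ℂ`, commutes with the symmetries, hence with the operators `N D`, and is a de Rham-Betti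
endomorphism (`isDRB_of_comm`, `isInv_N`), so an endomorphism of `A i` (`isEnd_of_isDRB`); it is
idempotent, and injective or zero as `A i` is simple. -/
def St_Irr : Prop := ∀ (I : Type) [Fintype I] [DecidableEq I] (A : I → AbVar) (n : I → ℕ) (k : ℕ)
  (α : MultilinearMap ℂ (fun _ : Fin (2 * k) => HW (kap A) n) ℂ),
  (∀ v : Fin (2 * k) → HW (kap A) n, (∀ r, IsRatP n (PA A) (v r)) →
    ∃ q : ℚ, α v = (2 * Real.pi * Complex.I) ^ k * q) →
  (∀ v : Fin (2 * k) → HW (kap A) n, (∀ r i m j, IsAlgebraic ℚ (v r i m j)) →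
    IsAlgebraic ℚ (α v)) →
  ∀ i : I, (A i).IsSimple → ∀ U : Submodule ℚ ((A i).H1), U ≤ (pData (A i)).Q →
  (∀ X, IsInv n (PA A) α X → IsRatl (PA A) X → ∀ u ∈ U, X.1 i u ∈ U) →
  U = ⊥ ∨ U = (pData (A i)).Q

/-- [CuR] a simple fourfold is not the third symmetric power of an elliptic curve.
Proof. The symmetric trilinear maps `φ : W × W × W → V` (`W, V` the homology of `A e`, `A a`) with the
stated equivariance for all symmetries `X` form the space of solutions of a system of linear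
equations, which has rational coefficients with respect to the rational structures, because it is
enough to consider rational symmetries (`mem_span_of_isInv`). So there is a non-zero solution `φ0` with
`φ0(Q, Q, Q) ⊆ Q` (write the coordinates of `φ` with respect to a basis of `ℂ` over `ℚ`, or
`exists_rat_decomp` as in Descent.lean: `φ = ∑ c_l φ_l` with `c_l` linearly independent over `ℚ` and
`φ_l` rational; then each `φ_l` is a solution, as in `isInv_component`). Let `U` be the rational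
span of the `φ0(x, y, z)`, `x, y, z ∈ Q_e`: it is spanned by the `φ0(b_i, b_j, b_l)`, `i ≤ j ≤ l`,
for a basis `b_1, b_2` of `Q_e` (`dim Q_e = 2`), so `dim U ≤ 4`, it is not zero, and it is stable under
the rational symmetries by the equivariance. By [Irr] `U = Q_a`, of dimension `8`: contradiction. -/
def St_CuR : Prop := ∀ (I : Type) [Fintype I] [DecidableEq I] (A : I → AbVar)
  (n : I → ℕ) (k : ℕ)
  (α : MultilinearMap ℂ (fun _ : Fin (2 * k) => HW (kap A) n) ℂ),
  (∀ v : Fin (2 * k) → HW (kap A) n, (∀ r, IsRatP n (PA A) (v r)) →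
    ∃ q : ℚ, α v = (2 * Real.pi * Complex.I) ^ k * q) →
  (∀ v : Fin (2 * k) → HW (kap A) n, (∀ r i m j, IsAlgebraic ℚ (v r i m j)) →
    IsAlgebraic ℚ (α v)) →
  ∀ a e : I, (A a).IsSimple → (A a).g = 4 → (A e).g = 1 →
  ∀ φ : (A e).H1 →ₗ[ℂ] (A e).H1 →ₗ[ℂ] (A e).H1 →ₗ[ℂ] (A a).H1,
  (∀ x y z, φ x y z = φ y x z) → (∀ x y z, φ x y z = φ x z y) →
  (∀ X, IsInv n (PA A) α X → ∀ x y z, X.1 a (φ x y z) =
    φ (X.1 e x) y z + φ x (X.1 e y) z + φ x y (X.1 e z) - X.2 • φ x y z) → φ = 0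

/-- [SpU] at a generic surface the Lie algebra acts through the whole symplectic algebra.
Proof: the proofs of `KT.Alg.thm_DichL` (Dich, proved), `thm_Mat` (AlgS, proved) and `thm_No`
(Nil, Cub, proved, and `KT.thm_KT`) for the Lie algebra `LL` of a family of `UF`'s instead of `FS`'s:
if the Lie algebra acts on `V = Vs ⟨i, σ⟩` (which is the whole of `H_1`, as `[K i : ℚ] = 1`) through
the three operators of the principal triple, then the matrices of `X.1 i - X.2/2` for the symmetries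
`X` are, in a suitable basis, the `gg a b c`; they are spanned by rational ones (`mem_span_of_isInv`) and
by ones with algebraic entries (`KT.Alg.thm_AlgS`): `Sp3 IsQ C`, `Sp3 IsAl D`; [Nil], [Cub] give a
period vector proportional to a point of a rational curve over `ℚ̄`: contradiction to
`KT.thm_KT : St_KT`. So by [Dich] it acts through the whole symplectic algebra. -/
def St_SpU : Prop := ∀ (I : Type) [Fintype I] [DecidableEq I] (A : I → AbVar) (n : I → ℕ)
  (K : I → Type) [∀ i, Field (K i)] [∀ i, NumberField (K i)] (r : I → ℕ)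
  (F : ∀ i, UF (pData (A i)) (K i) (r i)) (k : ℕ)
  (α : MultilinearMap ℂ (fun _ : Fin (2 * k) => HW (kap A) n) ℂ),
  (∀ v : Fin (2 * k) → HW (kap A) n, (∀ r, IsRatP n (PA A) (v r)) →
    ∃ q : ℚ, α v = (2 * Real.pi * Complex.I) ^ k * q) →
  (∀ v : Fin (2 * k) → HW (kap A) n, (∀ r i m j, IsAlgebraic ℚ (v r i m j)) →
    IsAlgebraic ℚ (α v)) →
  (∀ i, 0 < r i) → ∀ i : I, (A i).IsGenericSurface → finrank ℚ (K i) = 1 → r i = 4 →
  ∀ σ : K i →+* ℂ, ∀ Y : Module.End ℂ (Vs n (PA A) F α ⟨i, σ⟩),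
  (∀ u v, bp n (PA A) F α i σ σ (Y u) v + bp n (PA A) F α i σ σ u (Y v) = 0) →
  ∃ x : LL n (PA A) F α, ∀ v : Vs n (PA A) F α ⟨i, σ⟩, ⁅x, v⁆ = Y v

end general

/-- [En1] the endomorphisms of a simple abelian variety with a field of rank one.
Proof. `f` and `u = lam 0`: `f u ∈ Q` is `ρ(x) u` (`gen`), `f - ρ x` is an endomorphism which is not
injective (it kills `u ≠ 0`), hence zero as `A` is simple. -/
def St_En1 : Prop := ∀ (A : AbVar) (K : Type) [Field K] [NumberField K]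
  (F : UF (pData A) K 1), A.IsSimple → EndK F

end Pool.Agent.D5
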